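import Mathlib
import Pool.Graph.R_seed8.W40.Ch.A11
import Pool.Graph.R_seed8.TH237.CH.Rate

set_option autoImplicit false

/-! Chamberland's map: the one step comparison with a random walk. -/

namespace Pool.Agent.H622.Ch

open MeasureTheory Set Filter Topology
open Pool.Agent.W40.Ch
open Pool.Agent.H934R2.Ch (f continuous_f)

/-- one step: two sided estimate for all measurable sets -/
theorem step2 {S : Set ℝ} (hS : MeasurableSet S) {m : ℕ} (hm : 13824 ≤ m) :
    |volume.real (cell m ∩ f ⁻¹' S) - P (bb S) m| ≤ 22 * qq m := by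
  obtain ⟨hok, hrr⟩ := ok hm
  have h1 := up_bound hS hok
  have h2 := up_bound hS.compl hok
  have h3 : volume.real (cell m ∩ f ⁻¹' S) + volume.real (cell m ∩ f ⁻¹' Sᶜ) = 1 := by
    have e : cell m ∩ f ⁻¹' Sᶜ = cell m \ f ⁻¹' S := by
      ext x; simp
    rw [e, measureReal_inter_add_sdiff₀ (pre_meas hS).nullMeasurableSet (by
      rw [cell, Real.volume_Ico]; exact ENNReal.ofReal_ne_top), cell_vol]
  have h4 : ∀ k, bb S k + bb Sᶜ k = 1 := by
    intro k
    unfold bb
    have e : Sᶜ ∩ cell k = cell k \ S := by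
      ext x; simp [and_comm]
    rw [e, inter_comm S, measureReal_inter_add_sdiff₀ hS.nullMeasurableSet (by
      rw [cell, Real.volume_Ico]; exact ENNReal.ofReal_ne_top), cell_vol]
  have h5 : P (bb S) m + P (bb Sᶜ) m = 1 := by
    rw [← P_add]
    simp only [h4]
    exact P_const 1 m
  rw [abs_le]
  constructor <;> linarith

/-- upper bound for the transition operator by an integral -/
theorem P_le_int' {m : ℕ} {u : ℕ → ℝ} {G : ℝ → ℝ} (hG : IntegrableOn G (cell m))
    (h : ∀ x ∈ cell m, u ⌊f x⌋₊ ≤ G x) : P u m ≤ ∫ x in cell m, G x := by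
  have hint : ∀ A : Set ℝ, IntegrableOn G (cell m ∩ A) := fun A => hG.mono_set inter_subset_left
  have hcov : cell m = ⋃ k ∈ Finset.range (2 * m + 3), (cell m ∩ f ⁻¹' cell k) := by
    ext x
    simp only [mem_inter_iff, mem_iUnion, mem_preimage, exists_prop]
    constructor
    · intro h1
      have hx0 : (0 : ℝ) ≤ x := le_trans (by positivity) h1.1
      exact ⟨_, floor_range h1, h1, mem_cell_floor (le_trans (by linarith) (f_lb hx0))⟩
    · rintro ⟨k, _, h1, _⟩
      exact h1
  rw [hcov, integral_biUnion_finset]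
  · unfold P
    apply Finset.sum_le_sum
    intro k _
    have h1 : ∫ x in cell m ∩ f ⁻¹' cell k, u k ≤ ∫ x in cell m ∩ f ⁻¹' cell k, G x := by
      apply setIntegral_mono_on (integrableOn_const (inter_fin _ _)) (hint _)
        ((cell_meas m).inter (pre_meas (cell_meas k)))
      intro x hx
      have h2 := h x hx.1
      have h3 : ⌊f x⌋₊ = k := by
        have h4 : f x ∈ cell k := hx.2
        exact (Nat.floor_eq_iff (le_trans (by positivity) h4.1)).2 ⟨h4.1, h4.2⟩
      rwa [h3] at h2
    rw [setIntegral_const] at h1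
    exact h1
  · intro k _
    exact (cell_meas m).inter (pre_meas (cell_meas k))
  · intro i _ j _ hij
    rw [Function.onFun, Set.disjoint_left]
    intro x hx hy
    exact Set.disjoint_left.1 (cells_disj hij) hx.2 hy.2
  · intro k _
    exact hint _

theorem int_le_P' {m : ℕ} {u : ℕ → ℝ} {G : ℝ → ℝ} (hG : IntegrableOn G (cell m))
    (h : ∀ x ∈ cell m, G x ≤ u ⌊f x⌋₊) : ∫ x in cell m, G x ≤ P u m := by
  have h1 := P_le_int' (m := m) (u := fun k => (-1) * u k) (G := fun x => -G x) hG.neg
    (fun x hx => by have := h x hx; linarith)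
  rw [P_smul, integral_neg] at h1
  linarith

/-- the step of the random walk -/
noncomputable def xi (u : ℝ) : ℝ := Real.log (1 - Real.cos (Real.pi * u) / 2)

theorem xi_arg_pos (u : ℝ) : 1 / 2 ≤ 1 - Real.cos (Real.pi * u) / 2 := by
  have := Real.cos_le_one (Real.pi * u)
  linarith

theorem xi_arg_le (u : ℝ) : 1 - Real.cos (Real.pi * u) / 2 ≤ 3 / 2 := by
  have := Real.neg_one_le_cos (Real.pi * u)
  linarith

theorem continuous_xi : Continuous xi := by
  unfold xi
  apply Continuous.log
  · fun_prop
  · intro u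
    have := xi_arg_pos u
    linarith

/-- the law of the step -/
noncomputable def mu : Measure ℝ := (volume.restrict (Ioc (0 : ℝ) 1)).map xi

instance : IsProbabilityMeasure mu := by
  unfold mu
  have : IsProbabilityMeasure (volume.restrict (Ioc (0 : ℝ) 1)) := ⟨by simp⟩
  exact Measure.isProbabilityMeasure_map continuous_xi.measurable.aemeasurable

theorem cos_shift (m : ℕ) (x : ℝ) : Real.cos (Real.pi * (m + x)) = (-1) ^ m * Real.cos (Real.pi * x) := by
  rw [mul_add, mul_comm Real.pi (m : ℝ), add_comm, Real.cos_add_nat_mul_pi]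

/-- integration over a cell -/
theorem int_cell (m : ℕ) {V : ℝ → ℝ} (hV : Measurable V) :
    ∫ x in cell m, V (xi x) = ∫ t, V t ∂mu := by
  unfold mu
  rw [integral_map continuous_xi.measurable.aemeasurable hV.aestronglyMeasurable]
  unfold cell
  rw [integral_Ico_eq_integral_Ioo, ← integral_Ioc_eq_integral_Ioo,
    ← intervalIntegral.integral_of_le (by linarith), ← intervalIntegral.integral_of_le zero_le_one]
  have h1 : ∫ x in (m : ℝ)..(m + 1), V (xi x) = ∫ x in (0 : ℝ)..1, V (xi (m + x)) := by
    rw [intervalIntegral.integral_comp_add_left (fun x => V (xi x)) (m : ℝ)]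
    simp
  rw [h1]
  rcases Nat.even_or_odd m with h | h
  · apply intervalIntegral.integral_congr
    intro x _
    simp only [xi]
    rw [cos_shift, h.neg_one_pow, one_mul]
  · have h2 : ∫ x in (0 : ℝ)..1, V (xi x) = ∫ x in (0 : ℝ)..1, V (xi (1 - x)) := by
      rw [intervalIntegral.integral_comp_sub_left (fun x => V (xi x)) (1 : ℝ)]
      simp
    rw [h2]
    apply intervalIntegral.integral_congr
    intro x _
    simp only [xi]
    rw [cos_shift, h.neg_one_pow, mul_sub, mul_one, Real.cos_pi_sub]
    ring_nf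

end Pool.Agent.H622.Ch
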