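import Mathlib
import Pool.Agent.H622.Ch1

set_option autoImplicit false

/-! Chamberland's map: comparison of the descent with a random walk. -/

namespace Pool.Agent.H622.Ch

open MeasureTheory Set Filter Topology
open Pool.Agent.W40.Ch
open Pool.Agent.H934R2.Ch (f continuous_f)

/-- the probability that the sum of `k` independent random variables with law `μ` is at least `a` -/
noncomputable def Hh (μ : Measure ℝ) : ℕ → ℝ → ℝ
  | 0, a => if a ≤ 0 then 1 else 0
  | k + 1, a => ∫ t, Hh μ k (a - t) ∂μ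

section
variable (μ : Measure ℝ) [IsProbabilityMeasure μ]

theorem Hh_all (k : ℕ) : (∀ a, 0 ≤ Hh μ k a) ∧ (∀ a, Hh μ k a ≤ 1) ∧ Antitone (Hh μ k) := by
  induction k with
  | zero =>
    refine ⟨fun a => ?_, fun a => ?_, fun a b hab => ?_⟩
    · simp only [Hh]; split_ifs <;> norm_num
    · simp only [Hh]; split_ifs <;> norm_num
    · simp only [Hh]
      split_ifs with h1 h2
      · exact le_rfl
      · exact absurd (hab.trans h1) h2
      · exact zero_le_one
      · exact le_rfl
  | succ k ih =>
    obtain ⟨h0, h1, h2⟩ := ih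
    have hint : ∀ a, Integrable (fun t => Hh μ k (a - t)) μ := by
      intro a
      refine Integrable.of_bound ((h2.measurable.comp (measurable_const.sub measurable_id)).aestronglyMeasurable) 1 ?_
      exact ae_of_all _ fun t => by rw [Real.norm_eq_abs, abs_of_nonneg (h0 _)]; exact h1 _
    refine ⟨fun a => integral_nonneg fun t => h0 _, fun a => ?_, fun a b hab => ?_⟩
    · calc Hh μ (k + 1) a = ∫ t, Hh μ k (a - t) ∂μ := rfl
        _ ≤ ∫ _, (1 : ℝ) ∂μ := integral_mono (hint a) (integrable_const 1) fun t => h1 _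
        _ = 1 := by simp
    · exact integral_mono (hint b) (hint a) fun t => h2 (by linarith)

theorem Hh_nonneg (k : ℕ) (a : ℝ) : 0 ≤ Hh μ k a := (Hh_all μ k).1 a
theorem Hh_le_one (k : ℕ) (a : ℝ) : Hh μ k a ≤ 1 := (Hh_all μ k).2.1 a
theorem Hh_anti (k : ℕ) : Antitone (Hh μ k) := (Hh_all μ k).2.2
theorem Hh_meas (k : ℕ) : Measurable (Hh μ k) := (Hh_anti μ k).measurable

end

theorem mu_exp : ∫ t, Real.exp t ∂mu = 1 := by
  unfold mu
  rw [integral_map continuous_xi.measurable.aemeasurable Real.continuous_exp.aestronglyMeasurable]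
  have h : ∀ u, Real.exp (xi u) = 1 - Real.cos (Real.pi * u) / 2 := by
    intro u
    unfold xi
    rw [Real.exp_log (by have := xi_arg_pos u; linarith)]
  simp only [h]
  rw [← intervalIntegral.integral_of_le zero_le_one, intervalIntegral.integral_sub (by simp)
    (by apply Continuous.intervalIntegrable; fun_prop)]
  have h2 : ∫ x in (0 : ℝ)..1, Real.cos (Real.pi * x) / 2 = 0 := by
    rw [intervalIntegral.integral_div, intervalIntegral.integral_comp_mul_left (fun x => Real.cos x)
      Real.pi_ne_zero]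
    simp
  rw [h2]
  simp

theorem xi_bounds (u : ℝ) : -1 ≤ xi u ∧ xi u ≤ 1 := by
  have h1 := xi_arg_pos u
  have h2 := xi_arg_le u
  have h3 := Real.add_one_le_exp (-(1 : ℝ))
  unfold xi
  constructor
  · rw [Real.le_log_iff_exp_le (by linarith)]
    have : Real.exp (-1) ≤ 1 / 2 := by
      have h4 := Real.exp_one_gt_d9
      rw [Real.exp_neg, inv_le_comm₀ (Real.exp_pos 1) (by norm_num)]
      linarith
    linarith
  · rw [Real.log_le_iff_le_exp (by linarith)]
    have h4 := Real.exp_one_gt_d9
    linarith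

theorem mu_supp : ∀ᵐ t ∂mu, |t| ≤ 1 := by
  unfold mu
  rw [ae_map_iff continuous_xi.measurable.aemeasurable
    (measurableSet_le (continuous_abs.measurable) measurable_const)]
  exact ae_of_all _ fun u => by rw [abs_le]; exact xi_bounds u

theorem mu_integrable {g : ℝ → ℝ} (hg : Continuous g) : Integrable g mu := by
  obtain ⟨C, hC⟩ := isCompact_Icc.exists_bound_of_continuousOn (s := Icc (-1 : ℝ) 1) hg.continuousOn
  refine Integrable.of_bound hg.aestronglyMeasurable C ?_
  filter_upwards [mu_supp] with t ht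
  exact hC t (abs_le.1 ht)

theorem Hh_exp (k : ℕ) (a : ℝ) : Hh mu k a ≤ Real.exp (-a) := by
  induction k generalizing a with
  | zero =>
    simp only [Hh]
    split_ifs with h
    · rw [← Real.exp_zero]
      exact Real.exp_le_exp.2 (by linarith)
    · exact (Real.exp_pos _).le
  | succ k ih =>
    have h1 : Hh mu (k + 1) a ≤ ∫ t, Real.exp (-(a - t)) ∂mu := by
      apply integral_mono
      · refine Integrable.of_bound (((Hh_meas mu k).comp (measurable_const.sub
          measurable_id)).aestronglyMeasurable) 1 ?_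
        exact ae_of_all _ fun t => by
          rw [Real.norm_eq_abs, abs_of_nonneg (Hh_nonneg mu k _)]; exact Hh_le_one mu k _
      · exact mu_integrable (by fun_prop)
      · exact fun t => ih _
    refine h1.trans (le_of_eq ?_)
    have h2 : ∀ t, Real.exp (-(a - t)) = Real.exp (-a) * Real.exp t := by
      intro t; rw [← Real.exp_add]; congr 1; ring
    simp only [h2]
    rw [integral_const_mul, mu_exp, mul_one]


theorem log_upper {L m : ℕ} (hL : 1 ≤ L) (hm : L ≤ m) {x : ℝ} (hx : x ∈ cell m) :
    Real.log ((⌊f x⌋₊ : ℝ) + 1) ≤ Real.log (m + 1) + 4 / L + xi x := by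
  have hx0 : (0 : ℝ) ≤ x := le_trans (by positivity) hx.1
  have hf0 : 0 ≤ f x := le_trans (by linarith) (f_lb hx0)
  have h1 : (⌊f x⌋₊ : ℝ) ≤ f x := Nat.floor_le hf0
  have hL' : (1 : ℝ) ≤ L := by exact_mod_cast hL
  have hm' : (L : ℝ) ≤ m := by exact_mod_cast hm
  set c := Real.cos (Real.pi * x) with hc
  have ha := xi_arg_pos x
  rw [← hc] at ha
  have h2 : f x + 1 ≤ (1 - c / 2) * (m + 3) := by
    have e : f x + 1 = (1 - c / 2) * (x + 1 / 2) + 3 / 4 := by
      unfold f; rw [← hc]; ring
    rw [e]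
    have h3 : x < m + 1 := hx.2
    nlinarith
  have h3 : Real.log ((⌊f x⌋₊ : ℝ) + 1) ≤ Real.log ((1 - c / 2) * (m + 3)) := by
    apply Real.log_le_log (by positivity)
    linarith
  rw [Real.log_mul (by linarith) (by positivity)] at h3
  have h4 : Real.log ((m : ℝ) + 3) ≤ Real.log (m + 1) + 4 / L := by
    have h5 : ((m : ℝ) + 3) = (m + 1) * (1 + 2 / (m + 1)) := by field_simp; ring
    rw [h5, Real.log_mul (by positivity) (by positivity)]
    have h6 := Real.log_le_sub_one_of_pos (show (0 : ℝ) < 1 + 2 / (m + 1) by positivity)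
    have h7 : 2 / ((m : ℝ) + 1) ≤ 4 / L := by
      rw [div_le_div_iff₀ (by positivity) (by positivity)]
      nlinarith
    linarith
  have e : xi x = Real.log (1 - c / 2) := rfl
  rw [e]
  linarith

theorem log_lower {L m : ℕ} (hL : 4 ≤ L) (hm : L ≤ m) {x : ℝ} (hx : x ∈ cell m) :
    Real.log m - 4 / L + xi x ≤ Real.log (⌊f x⌋₊ : ℝ) := by
  have hx0 : (0 : ℝ) ≤ x := le_trans (by positivity) hx.1
  have hL' : (4 : ℝ) ≤ L := by exact_mod_cast hL
  have hm' : (L : ℝ) ≤ m := by exact_mod_cast hm
  have h1 : f x - 1 < (⌊f x⌋₊ : ℝ) := Nat.sub_one_lt_floor _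
  set c := Real.cos (Real.pi * x) with hc
  have ha := xi_arg_pos x
  rw [← hc] at ha
  have h2 : (1 - c / 2) * (m - 2) ≤ f x - 1 := by
    have e : f x - 1 = (1 - c / 2) * (x + 1 / 2) - 5 / 4 := by
      unfold f; rw [← hc]; ring
    rw [e]
    have h3 : (m : ℝ) ≤ x := hx.1
    nlinarith
  have hm2 : (0 : ℝ) < m - 2 := by linarith
  have h3 : Real.log ((1 - c / 2) * (m - 2)) ≤ Real.log (⌊f x⌋₊ : ℝ) := by
    apply Real.log_le_log
    · apply mul_pos (by linarith) hm2
    · linarith
  rw [Real.log_mul (by linarith) hm2.ne'] at h3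
  have h4 : Real.log m - 4 / L ≤ Real.log ((m : ℝ) - 2) := by
    have h5 : (m : ℝ) = (m - 2) * (1 + 2 / (m - 2)) := by field_simp; ring
    have h6 := Real.log_le_sub_one_of_pos (show (0 : ℝ) < 1 + 2 / (m - 2) by positivity)
    have h7 : 2 / ((m : ℝ) - 2) ≤ 4 / L := by
      rw [div_le_div_iff₀ (by positivity) (by positivity)]
      nlinarith
    have h8 : Real.log m = Real.log ((m : ℝ) - 2) + Real.log (1 + 2 / (m - 2)) := by
      rw [← Real.log_mul (by positivity) (by positivity), ← h5]
    linarith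
  have e : xi x = Real.log (1 - c / 2) := rfl
  rw [e]
  linarith

theorem qq_anti {a b : ℕ} (ha : 1 ≤ a) (h : a ≤ b) : qq b ≤ qq a := by
  unfold qq
  apply Real.rpow_le_rpow_of_nonpos
  · exact_mod_cast ha
  · exact_mod_cast h
  · norm_num

theorem meas_comp (k : ℕ) (a : ℝ) : Measurable fun x => Hh mu k (a - xi x) :=
  (Hh_meas mu k).comp (measurable_const.sub continuous_xi.measurable)

theorem int_on (k : ℕ) (a : ℝ) (m : ℕ) : IntegrableOn (fun x => Hh mu k (a - xi x)) (cell m) := by
  have hfin : IsFiniteMeasure (volume.restrict (cell m)) :=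
    ⟨by rw [Measure.restrict_apply_univ, cell, Real.volume_Ico]; exact ENNReal.ofReal_lt_top⟩
  refine Integrable.of_bound (meas_comp k a).aestronglyMeasurable 1 ?_
  exact ae_of_all _ fun t => by
    rw [Real.norm_eq_abs, abs_of_nonneg (Hh_nonneg mu k _)]; exact Hh_le_one mu k _

theorem int_cell_Hh (k : ℕ) (a : ℝ) (m : ℕ) : ∫ x in cell m, Hh mu k (a - xi x) = Hh mu (k + 1) a := by
  have := int_cell m (V := fun t => Hh mu k (a - t)) ((Hh_meas mu k).comp (measurable_const.sub measurable_id))
  rw [this]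
  rfl

theorem bb_step {B : Set ℝ} (hB : Pool.Agent.W40.Ch.Inv B) {L m : ℕ} (hL : 1 ≤ L) (hm : L ≤ m) (k : ℕ) :
    bb (B ∩ HighT L (k + 1)) m = volume.real (cell m ∩ f ⁻¹' (B ∩ HighT L k)) := by
  unfold bb
  congr 1
  ext x
  simp only [mem_inter_iff, mem_preimage]
  constructor
  · rintro ⟨⟨h1, h2⟩, h3⟩
    have hx : 0 < x := lt_of_lt_of_le (by exact_mod_cast (by omega : 0 < m)) h3.1
    exact ⟨h3, (hB.2 x hx).1 h1, highT_step h2⟩
  · rintro ⟨h3, h1, h2⟩
    have hx : 0 < x := lt_of_lt_of_le (by exact_mod_cast (by omega : 0 < m)) h3.1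
    refine ⟨⟨(hB.2 x hx).2 h1, ?_⟩, h3⟩
    intro i hi
    rcases Nat.eq_zero_or_pos i with h | h
    · subst h
      have : (L : ℝ) ≤ m := by exact_mod_cast hm
      exact this.trans h3.1
    · obtain ⟨j, rfl⟩ : ∃ j, i = j + 1 := ⟨i - 1, by omega⟩
      rw [Function.iterate_succ_apply]
      exact h2 j (by omega)

theorem bb_low {B : Set ℝ} {L m : ℕ} (k : ℕ) (h : m < L) : bb (B ∩ HighT L k) m = 0 := by
  have h1 := highT_low (L := L) k h
  have h2 := bb_nonneg (B ∩ HighT L k) m
  have h3 : bb (B ∩ HighT L k) m ≤ bb (HighT L k) m := by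
    unfold bb
    apply measureReal_mono _ (inter_fin' _ _)
    exact inter_subset_inter_left _ inter_subset_right
  linarith

/-- THE UPPER COMPARISON -/
theorem upper {B : Set ℝ} (hB : Pool.Agent.W40.Ch.Inv B) {D ε : ℝ} (hD : 0 ≤ D) {L : ℕ} (hL : 13824 ≤ L)
    (hBD : ∀ m : ℕ, L ≤ m → bb B m ≤ D + ε) (hε : 0 ≤ ε) (k : ℕ) : ∀ m : ℕ,
    bb (B ∩ HighT L k) m ≤ D * Hh mu k (Real.log L - Real.log (m + 1) - 4 * k / L) + ε + k * (22 * qq L) := by
  have hq := qq_nonneg L
  induction k with
  | zero =>
    intro m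
    rcases Nat.lt_or_ge m L with hmL | hmL
    · rw [bb_low _ hmL]
      have := mul_nonneg hD (Hh_nonneg mu 0 (Real.log L - Real.log (m + 1) - 4 * (0 : ℕ) / L))
      push_cast at this ⊢
      linarith
    · have h1 : bb (B ∩ HighT L 0) m ≤ bb B m := by
        unfold bb
        apply measureReal_mono _ (inter_fin' _ _)
        exact inter_subset_inter_left _ inter_subset_left
      have h2 : Hh mu 0 (Real.log L - Real.log (m + 1) - 4 * ((0 : ℕ) : ℝ) / L) = 1 := by
        simp only [Hh]
        rw [if_pos]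
        have : Real.log L ≤ Real.log (m + 1) := by
          apply Real.log_le_log
          · exact_mod_cast (by omega : 0 < L)
          · exact_mod_cast (by omega : L ≤ m + 1)
        simp only [Nat.cast_zero, mul_zero, zero_div]
        linarith
      rw [h2]
      have := hBD m hmL
      push_cast
      linarith
  | succ k ih =>
    intro m
    rcases Nat.lt_or_ge m L with hmL | hmL
    · rw [bb_low _ hmL]
      have := mul_nonneg hD (Hh_nonneg mu (k + 1) (Real.log L - Real.log (m + 1) - 4 * ((k + 1 : ℕ) : ℝ) / L))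
      have : 0 ≤ ((k + 1 : ℕ) : ℝ) * (22 * qq L) := by positivity
      linarith
    · rw [bb_step hB (by omega) hmL]
      have h1 := (abs_le.1 (step2 (hB.1.inter (highT_meas L k)) (by omega : 13824 ≤ m))).2
      have h2 := qq_anti (a := L) (by omega) hmL
      have h3 : P (bb (B ∩ HighT L k)) m ≤ P (fun j : ℕ =>
          D * Hh mu k (Real.log L - Real.log (j + 1) - 4 * k / L) + (ε + k * (22 * qq L))) m :=
        P_mono fun j _ => by have := ih j; linarith
      have h4 := P_add (fun j : ℕ => D * Hh mu k (Real.log L - Real.log (j + 1) - 4 * k / L))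
        (fun _ => ε + k * (22 * qq L)) m
      have h5 := P_smul D (fun j : ℕ => Hh mu k (Real.log L - Real.log (j + 1) - 4 * k / L)) m
      rw [P_const] at h4
      rw [h4, h5] at h3
      have h6 : P (fun j : ℕ => Hh mu k (Real.log L - Real.log (j + 1) - 4 * k / L)) m ≤
          Hh mu (k + 1) (Real.log L - Real.log (m + 1) - 4 * ((k + 1 : ℕ) : ℝ) / L) := by
        rw [← int_cell_Hh k _ m]
        apply P_le_int' (int_on _ _ _)
        intro x hx
        apply Hh_anti
        have := log_upper (by omega) hmL hx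
        push_cast
        have e : 4 * ((k : ℝ) + 1) / L = 4 * k / L + 4 / L := by ring
        rw [e]
        linarith
      have h7 := mul_le_mul_of_nonneg_left h6 hD
      push_cast at h7 ⊢
      linarith

/-- THE LOWER COMPARISON -/
theorem lower {B : Set ℝ} (hB : Pool.Agent.W40.Ch.Inv B) {D ε : ℝ} (hD : 0 ≤ D) (hD1 : D ≤ 1) {L : ℕ} (hL : 13824 ≤ L)
    (hBD : ∀ m : ℕ, L ≤ m → D - ε ≤ bb B m) (hε : 0 ≤ ε) {l : ℝ} (k : ℕ) : ∀ m : ℕ,
    D * Hh mu k (l - Real.log m + 4 * k / L) - ε - k * (22 * qq L) -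
      (k + 1) * Real.exp (-(l - Real.log L)) ≤ bb (B ∩ HighT L k) m := by
  have hq := qq_nonneg L
  have hE := Real.exp_pos (-(l - Real.log L))
  -- low cells
  have hlow : ∀ (k m : ℕ), m < L → D * Hh mu k (l - Real.log m + 4 * k / L) ≤ Real.exp (-(l - Real.log L)) := by
    intro k m hmL
    have h1 := Hh_exp k (l - Real.log m + 4 * k / L)
    have h2 : Real.exp (-(l - Real.log m + 4 * k / L)) ≤ Real.exp (-(l - Real.log L)) := by
      apply Real.exp_le_exp.2
      have h3 : Real.log m ≤ Real.log L := by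
        rcases Nat.eq_zero_or_pos m with h | h
        · rw [h, Nat.cast_zero, Real.log_zero]
          exact Real.log_nonneg (by exact_mod_cast (by omega : 1 ≤ L))
        · apply Real.log_le_log (by exact_mod_cast h)
          exact_mod_cast hmL.le
      have h4 : 0 ≤ 4 * (k : ℝ) / L := by positivity
      linarith
    have h3 : D * Hh mu k (l - Real.log m + 4 * k / L) ≤ 1 * Hh mu k (l - Real.log m + 4 * k / L) :=
      mul_le_mul_of_nonneg_right hD1 (Hh_nonneg _ _ _)
    linarith
  induction k with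
  | zero =>
    intro m
    rcases Nat.lt_or_ge m L with hmL | hmL
    · rw [bb_low _ hmL]
      have := hlow 0 m hmL
      push_cast at this ⊢
      linarith
    · have h1 : bb (B ∩ HighT L 0) m = bb B m := by
        unfold bb
        congr 1
        ext x
        simp only [mem_inter_iff]
        constructor
        · rintro ⟨⟨a, _⟩, c⟩; exact ⟨a, c⟩
        · rintro ⟨a, c⟩
          refine ⟨⟨a, ?_⟩, c⟩
          intro i hi
          have : i = 0 := by omega
          subst this
          have : (L : ℝ) ≤ m := by exact_mod_cast hmL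
          exact this.trans c.1
      rw [h1]
      have h2 := hBD m hmL
      have h3 : D * Hh mu 0 (l - Real.log m + 4 * ((0 : ℕ) : ℝ) / L) ≤ D * 1 :=
        mul_le_mul_of_nonneg_left (Hh_le_one _ _ _) hD
      push_cast at h3 ⊢
      linarith
  | succ k ih =>
    intro m
    rcases Nat.lt_or_ge m L with hmL | hmL
    · rw [bb_low _ hmL]
      have h1 := hlow (k + 1) m hmL
      have h2 : 0 ≤ ((k + 1 : ℕ) : ℝ) * (22 * qq L) := by positivity
      have h3 : 0 ≤ ((k : ℝ) + 1) * Real.exp (-(l - Real.log L)) := by positivity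
      push_cast at h1 h2 ⊢
      linarith
    · rw [bb_step hB (by omega) hmL]
      have h1 := (abs_le.1 (step2 (hB.1.inter (highT_meas L k)) (by omega : 13824 ≤ m))).1
      have h2 := qq_anti (a := L) (by omega) hmL
      have h3 : P (fun j : ℕ => D * Hh mu k (l - Real.log j + 4 * k / L) +
          (- ε - k * (22 * qq L) - (k + 1) * Real.exp (-(l - Real.log L)))) m ≤ P (bb (B ∩ HighT L k)) m :=
        P_mono fun j _ => by have := ih j; linarith
      have h4 := P_add (fun j : ℕ => D * Hh mu k (l - Real.log j + 4 * k / L))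
        (fun _ => - ε - k * (22 * qq L) - (k + 1) * Real.exp (-(l - Real.log L))) m
      have h5 := P_smul D (fun j : ℕ => Hh mu k (l - Real.log j + 4 * k / L)) m
      rw [P_const] at h4
      rw [h4, h5] at h3
      have h6 : Hh mu (k + 1) (l - Real.log m + 4 * ((k + 1 : ℕ) : ℝ) / L) ≤
          P (fun j : ℕ => Hh mu k (l - Real.log j + 4 * k / L)) m := by
        rw [← int_cell_Hh k _ m]
        apply int_le_P' (int_on _ _ _)
        intro x hx
        apply Hh_anti
        have := log_lower (by omega) hmL hx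
        push_cast
        have e : 4 * ((k : ℝ) + 1) / L = 4 * k / L + 4 / L := by ring
        rw [e]
        linarith
      have h7 := mul_le_mul_of_nonneg_left h6 hD
      push_cast at h7 ⊢
      linarith

end Pool.Agent.H622.Ch
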