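import Mathlib
import Pool.Agent.H622.Ch2

set_option autoImplicit false

/-! The central limit theorem for the iterated convolutions. -/

namespace Pool.Agent.H622.Ch

open MeasureTheory Set Filter Topology ProbabilityTheory
open scoped NNReal

/-- the tail of the standard normal distribution -/
noncomputable def Qt (t : ℝ) : ℝ := (gaussianReal 0 1).real (Ici t)

theorem Hh_eq {μ : Measure ℝ} [IsProbabilityMeasure μ] {Ω : Type} {mΩ : MeasurableSpace Ω} {P : Measure Ω}
    [IsProbabilityMeasure P] {X : ℕ → Ω → ℝ} (hX : ∀ i, Measurable (X i)) (hlaw : ∀ i, HasLaw (X i) μ P)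
    (hind : iIndepFun X P) (k : ℕ) (a : ℝ) :
    P.real {ω | a ≤ ∑ i ∈ Finset.range k, X i ω} = Hh μ k a := by
  induction k generalizing a with
  | zero =>
    simp only [Finset.range_zero, Finset.sum_empty, Hh]
    split_ifs with h
    · simp [h]
    · simp [h]
  | succ k ih =>
    have hS : Measurable fun ω => ∑ i ∈ Finset.range k, X i ω :=
      Finset.measurable_sum _ fun i _ => hX i
    have hI : (fun ω => ∑ i ∈ Finset.range k, X i ω) ⟂ᵢ[P] X k := by
      have h1 := hind.indepFun_finsetSum_of_notMem hX (s := Finset.range k) (i := k) (by simp)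
      have h2 : (∑ j ∈ Finset.range k, X j) = fun ω => ∑ i ∈ Finset.range k, X i ω := by
        ext ω; simp
      rwa [h2] at h1
    have h1 : {ω | a ≤ ∑ i ∈ Finset.range (k + 1), X i ω} =
        (fun ω => (∑ i ∈ Finset.range k, X i ω, X k ω)) ⁻¹' {p : ℝ × ℝ | a ≤ p.1 + p.2} := by
      ext ω; simp [Finset.sum_range_succ]
    have hm : MeasurableSet {p : ℝ × ℝ | a ≤ p.1 + p.2} :=
      measurableSet_le measurable_const (measurable_fst.add measurable_snd)
    rw [h1, measureReal_def, ← Measure.map_apply (hS.prodMk (hX k)) hm,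
      (indepFun_iff_map_prod_eq_prod_map_map hS.aemeasurable (hX k).aemeasurable).1 hI,
      Measure.prod_apply_symm hm, (hlaw k).map_eq]
    have h2 : ∀ t : ℝ, (P.map fun ω => ∑ i ∈ Finset.range k, X i ω) ((fun x => (x, t)) ⁻¹' {p : ℝ × ℝ | a ≤ p.1 + p.2}) =
        ENNReal.ofReal (Hh μ k (a - t)) := by
      intro t
      rw [Measure.map_apply hS (hm.preimage (by fun_prop)), ← ih (a - t), measureReal_def,
        ENNReal.ofReal_toReal (measure_ne_top _ _)]
      congr 1
      ext ω
      simp
    simp only [h2]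
    rw [← integral_toReal]
    · simp only [ENNReal.toReal_ofReal (Hh_nonneg μ k _)]
      rfl
    · exact ((Hh_meas μ k).comp (measurable_const.sub measurable_id)).ennreal_ofReal.aemeasurable
    · exact ae_of_all _ fun t => ENNReal.ofReal_lt_top

/-- THE CENTRAL LIMIT THEOREM for the iterated convolutions -/
theorem clt {μ : Measure ℝ} [IsProbabilityMeasure μ] (h2 : MemLp id 2 μ) {m s : ℝ} (hm : ∫ t, t ∂μ = m)
    (hs : 0 < s) (hv : Var[id; μ] = s ^ 2) (t : ℝ) :
    Tendsto (fun n : ℕ => Hh μ n (n * m + t * (s * Real.sqrt n))) atTop (𝓝 (Qt t)) := by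
  obtain ⟨Ω, mΩ, P, X, hX, hlaw, hind, hP⟩ := exists_iid ℕ μ
  have hident : ∀ i, IdentDistrib (X i) (X 0) P P := fun i =>
    ⟨(hX i).aemeasurable, (hX 0).aemeasurable, by rw [(hlaw i).map_eq, (hlaw 0).map_eq]⟩
  have hvar : Var[X 0; P] = s ^ 2 := by
    rw [← hv, ← (hlaw 0).map_eq, variance_map aemeasurable_id (hX 0).aemeasurable]
    rfl
  have hmean : P[X 0] = m := by
    have h := integral_map (hX 0).aemeasurable (μ := P) (f := fun t : ℝ => t)
      measurable_id.aestronglyMeasurable
    rw [(hlaw 0).map_eq] at h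
    rw [← hm, h]
  have hLp : MemLp (X 0) 2 P := by
    have h3 := h2
    rw [← (hlaw 0).map_eq, memLp_map_measure_iff aestronglyMeasurable_id (hX 0).aemeasurable] at h3
    exact h3
  have hY : HasLaw (id : ℝ → ℝ) (gaussianReal 0 Var[X 0; P].toNNReal) (gaussianReal 0 Var[X 0; P].toNNReal) := .id
  have hclt := tendstoInDistribution_inv_sqrt_mul_sum_sub hY hLp hind hident
  have h3 := hclt.tendsto
  have hfr : ((gaussianReal 0 Var[X 0; P].toNNReal).map (id : ℝ → ℝ)) (frontier (Ici (s * t))) = 0 := by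
    rw [frontier_Ici, Measure.map_id]
    have : Var[X 0; P].toNNReal ≠ 0 := by
      rw [hvar, ne_eq, Real.toNNReal_eq_zero, not_le]
      positivity
    have := nullSingletonClass_gaussianReal (μ := 0) this
    exact measure_singleton _
  have h4 := ProbabilityMeasure.tendsto_measure_of_null_frontier_of_tendsto' h3 (E := Ici (s * t)) hfr
  have h4' : Tendsto (fun n : ℕ => (P.map fun ω => (√(n : ℝ))⁻¹ *
      (∑ k ∈ Finset.range n, X k ω - n * P[X 0])) (Ici (s * t))) atTop
      (𝓝 ((gaussianReal 0 Var[X 0; P].toNNReal).map (id : ℝ → ℝ) (Ici (s * t)))) := h4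
  have hne : (gaussianReal 0 Var[X 0; P].toNNReal).map (id : ℝ → ℝ) (Ici (s * t)) ≠ ⊤ := by
    rw [Measure.map_id]; exact measure_ne_top _ _
  have h5 := (ENNReal.tendsto_toReal hne).comp h4'
  have e2 : ((gaussianReal 0 Var[X 0; P].toNNReal).map (id : ℝ → ℝ) (Ici (s * t))).toReal = Qt t := by
    rw [Measure.map_id, hvar]
    unfold Qt
    rw [measureReal_def]
    congr 1
    have h6 := gaussianReal_map_const_mul (μ := 0) (v := 1) s
    have h7 : gaussianReal 0 (Real.toNNReal (s ^ 2)) = (gaussianReal 0 1).map (s * ·) := by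
      rw [h6]
      congr 1
      · simp
      · ext; simp [Real.coe_toNNReal _ (sq_nonneg s)]
    rw [h7, Measure.map_apply (by fun_prop) measurableSet_Ici]
    congr 1
    ext x
    simp only [mem_preimage, mem_Ici]
    constructor
    · intro h; exact le_of_mul_le_mul_left h hs
    · intro h; exact mul_le_mul_of_nonneg_left h hs.le
  have h6 : Tendsto (fun n : ℕ => Hh μ n (n * m + t * (s * Real.sqrt n))) atTop
      (𝓝 (((gaussianReal 0 Var[X 0; P].toNNReal).map (id : ℝ → ℝ) (Ici (s * t))).toReal)) := by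
    refine h5.congr' ?_
    filter_upwards [eventually_ge_atTop 1] with n hn
    have hsn : 0 < Real.sqrt n := Real.sqrt_pos.2 (by exact_mod_cast hn)
    rw [← Hh_eq hX hlaw hind n]
    show ((P.map fun ω => (√(n : ℝ))⁻¹ * (∑ k ∈ Finset.range n, X k ω - n * P[X 0])) (Ici (s * t))).toReal = _
    rw [Measure.map_apply (by
      have : Measurable fun ω => ∑ i ∈ Finset.range n, X i ω := Finset.measurable_sum _ fun i _ => hX i
      fun_prop) measurableSet_Ici, measureReal_def]
    congr 2
    ext ω
    show s * t ≤ (√(n : ℝ))⁻¹ * (∑ k ∈ Finset.range n, X k ω - n * P[X 0]) ↔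
      n * m + t * (s * √(n : ℝ)) ≤ ∑ k ∈ Finset.range n, X k ω
    rw [hmean, inv_mul_eq_div, le_div_iff₀ hsn]
    constructor
    · intro h; linarith
    · intro h; linarith
  rw [e2] at h6
  exact h6

end Pool.Agent.H622.Ch
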