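import Mathlib
import Pool.Agent.H622.Ch3

set_option autoImplicit false

/-! The mean and the variance of the steps; the central limit theorem in windows. -/

namespace Pool.Agent.H622.Ch

open MeasureTheory Set Filter Topology ProbabilityTheory
open scoped NNReal

/-- the rate of descent -/
noncomputable def gam : ℝ := Real.log (4 / (2 + Real.sqrt 3))

theorem sqrt3_sq : Real.sqrt 3 ^ 2 = 3 := Real.sq_sqrt (by norm_num)

theorem sqrt3_lt : Real.sqrt 3 < 2 := by
  have h := sqrt3_sq
  have h0 := Real.sqrt_nonneg 3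
  nlinarith

theorem sqrt3_gt : 1 < Real.sqrt 3 := by
  have h := sqrt3_sq
  have h0 := Real.sqrt_nonneg 3
  nlinarith

theorem gam_pos : 0 < gam := by
  unfold gam
  apply Real.log_pos
  rw [lt_div_iff₀ (by have := Real.sqrt_nonneg 3; linarith)]
  linarith [sqrt3_lt]

theorem int_circle : ∫ θ in (0 : ℝ)..(2 * Real.pi), Real.log (1 - Real.cos θ / 2) = -(2 * Real.pi * gam) := by
  set r : ℝ := 2 - Real.sqrt 3 with hr
  have hr0 : 0 < r := by rw [hr]; linarith [sqrt3_lt]
  have hr1 : r < 1 := by rw [hr]; linarith [sqrt3_gt]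
  have hrr : 1 + r ^ 2 = 4 * r := by rw [hr]; nlinarith [sqrt3_sq]
  have h := circleAverage_log_norm_sub_const₀ (a := (r : ℂ)) (by
    rw [Complex.norm_real, Real.norm_eq_abs, abs_of_pos hr0]; exact hr1)
  rw [Real.circleAverage_def] at h
  have h1 : ∀ θ : ℝ, Real.log ‖circleMap 0 1 θ - (r : ℂ)‖ =
      1 / 2 * (Real.log (4 * r) + Real.log (1 - Real.cos θ / 2)) := by
    intro θ
    have hp : 0 < 1 - Real.cos θ / 2 := by have := Real.cos_le_one θ; linarith
    rw [← Real.log_mul (by positivity) hp.ne']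
    have h2 : ‖circleMap 0 1 θ - (r : ℂ)‖ ^ 2 = 4 * r * (1 - Real.cos θ / 2) := by
      rw [← Complex.normSq_eq_norm_sq, Complex.normSq_apply]
      have e1 : (circleMap 0 1 θ - (r : ℂ)).re = Real.cos θ - r := by
        simp [circleMap, Complex.exp_ofReal_mul_I_re]
      have e2 : (circleMap 0 1 θ - (r : ℂ)).im = Real.sin θ := by
        simp [circleMap, Complex.exp_ofReal_mul_I_im]
      rw [e1, e2]
      have := Real.sin_sq_add_cos_sq θ
      nlinarith
    rw [← h2, Real.log_pow]
    push_cast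
    ring
  simp only [h1] at h
  have h3 : ∫ θ in (0 : ℝ)..(2 * Real.pi), 1 / 2 * (Real.log (4 * r) + Real.log (1 - Real.cos θ / 2)) = 0 := by
    have h4 : (2 * Real.pi)⁻¹ ≠ 0 := by have := Real.pi_pos; positivity
    rw [smul_eq_mul] at h
    exact (mul_eq_zero.1 h).resolve_left h4
  have hc : Continuous fun θ : ℝ => Real.log (1 - Real.cos θ / 2) := by
    apply Continuous.log
    · fun_prop
    · intro θ
      have := Real.cos_le_one θ
      linarith
  rw [intervalIntegral.integral_const_mul, intervalIntegral.integral_add (by simp)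
    (hc.intervalIntegrable _ _), intervalIntegral.integral_const] at h3
  have h5 : Real.log (4 * r) = gam := by
    unfold gam
    congr 1
    rw [hr, eq_div_iff (by have := Real.sqrt_nonneg 3; linarith)]
    nlinarith [sqrt3_sq]
  rw [h5] at h3
  simp only [smul_eq_mul, sub_zero] at h3
  linarith

theorem mu_mean : ∫ t, t ∂mu = -gam := by
  unfold mu
  rw [integral_map continuous_xi.measurable.aemeasurable measurable_id'.aestronglyMeasurable,
    ← intervalIntegral.integral_of_le zero_le_one]
  have hc : Continuous fun θ : ℝ => Real.log (1 - Real.cos θ / 2) := by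
    apply Continuous.log
    · fun_prop
    · intro θ
      have := Real.cos_le_one θ
      linarith
  have h1 : ∫ u in (0 : ℝ)..1, xi u = Real.pi⁻¹ * ∫ θ in (0 : ℝ)..Real.pi, Real.log (1 - Real.cos θ / 2) := by
    have := intervalIntegral.integral_comp_mul_left (a := 0) (b := 1)
      (fun θ => Real.log (1 - Real.cos θ / 2)) Real.pi_ne_zero
    simp only [mul_zero, mul_one, smul_eq_mul] at this
    rw [← this]
    rfl
  have h2 : ∫ θ in (0 : ℝ)..(2 * Real.pi), Real.log (1 - Real.cos θ / 2) =
      2 * ∫ θ in (0 : ℝ)..Real.pi, Real.log (1 - Real.cos θ / 2) := by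
    rw [← intervalIntegral.integral_add_adjacent_intervals (hc.intervalIntegrable 0 Real.pi)
      (hc.intervalIntegrable Real.pi (2 * Real.pi))]
    have h3 : ∫ θ in Real.pi..(2 * Real.pi), Real.log (1 - Real.cos θ / 2) =
        ∫ θ in (0 : ℝ)..Real.pi, Real.log (1 - Real.cos θ / 2) := by
      have h4 := intervalIntegral.integral_comp_sub_left (a := 0) (b := Real.pi)
        (fun θ => Real.log (1 - Real.cos θ / 2)) (2 * Real.pi)
      have h5 : 2 * Real.pi - Real.pi = Real.pi := by ring
      rw [h5, sub_zero] at h4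
      rw [← h4]
      apply intervalIntegral.integral_congr
      intro θ _
      simp only [Real.cos_two_pi_sub]
    rw [h3]; ring
  rw [int_circle] at h2
  rw [h1]
  have hpi := Real.pi_pos
  have h6 : ∫ θ in (0 : ℝ)..Real.pi, Real.log (1 - Real.cos θ / 2) = -(Real.pi * gam) := by linarith
  rw [h6]
  field_simp

/-- the variance -/
noncomputable def sig2 : ℝ := ∫ u in (0 : ℝ)..1, (Real.log (1 - Real.cos (Real.pi * u) / 2) + gam) ^ 2

noncomputable def sig : ℝ := Real.sqrt sig2

theorem sig2_pos : 0 < sig2 := by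
  unfold sig2
  have hc : Continuous fun u : ℝ => (xi u + gam) ^ 2 := by
    have := continuous_xi
    fun_prop
  have h0 : xi 0 = -Real.log 2 := by
    unfold xi
    rw [mul_zero, Real.cos_zero, show (1 : ℝ) - 1 / 2 = 2⁻¹ by norm_num, Real.log_inv]
  by_cases hcase : xi 0 + gam = 0
  · -- then look at `u = 1`
    have h1 : xi 1 + gam ≠ 0 := by
      intro h
      have h2 : xi 1 = xi 0 := by linarith
      unfold xi at h2
      rw [mul_one, mul_zero, Real.cos_zero, Real.cos_pi] at h2
      have h3 := Real.log_injOn_pos (show (1 - -1 / 2 : ℝ) ∈ Ioi 0 by norm_num)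
        (show (1 - 1 / 2 : ℝ) ∈ Ioi 0 by norm_num) h2
      norm_num at h3
    exact intervalIntegral.integral_pos one_pos hc.continuousOn (fun u _ => sq_nonneg _)
      ⟨1, ⟨zero_le_one, le_rfl⟩, by positivity⟩
  · exact intervalIntegral.integral_pos one_pos hc.continuousOn (fun u _ => sq_nonneg _)
      ⟨0, ⟨le_rfl, zero_le_one⟩, by positivity⟩

theorem sig_pos : 0 < sig := Real.sqrt_pos.2 sig2_pos

theorem mu_memLp : MemLp id 2 mu := by
  refine MemLp.of_bound aestronglyMeasurable_id 1 ?_
  filter_upwards [mu_supp] with t ht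
  exact ht

theorem mu_var : Var[id; mu] = sig ^ 2 := by
  unfold sig
  rw [Real.sq_sqrt sig2_pos.le, variance_eq_integral aemeasurable_id]
  have h1 : ∫ t, id t ∂mu = -gam := mu_mean
  rw [h1]
  have h2 : ∀ t : ℝ, (id t - -gam) ^ 2 = (t + gam) ^ 2 := fun t => by rw [id, sub_neg_eq_add]
  simp only [h2]
  unfold mu
  rw [integral_map continuous_xi.measurable.aemeasurable (by
    exact (by fun_prop : Measurable fun t : ℝ => (t + gam) ^ 2).aestronglyMeasurable),
    ← intervalIntegral.integral_of_le zero_le_one]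
  rfl

/-- the central limit theorem for the steps of the random walk -/
theorem clt_mu (t : ℝ) :
    Tendsto (fun n : ℕ => Hh mu n (-(gam * n) + t * (sig * Real.sqrt n))) atTop (𝓝 (Qt t)) := by
  refine (clt mu_memLp mu_mean sig_pos mu_var t).congr fun n => ?_
  congr 1
  ring

theorem Qt_eq (t : ℝ) : Qt t = 1 - cdf (gaussianReal 0 1) t := by
  have hna := nullSingletonClass_gaussianReal (μ := 0) (v := 1) one_ne_zero
  rw [cdf_eq_real]
  unfold Qt
  have h1 : (gaussianReal 0 1).real (Ici t) = (gaussianReal 0 1).real (Ioi t) := by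
    rw [measureReal_def, measureReal_def]
    congr 1
    exact (measure_congr Ioi_ae_eq_Ici).symm
  rw [h1]
  have h2 : Ioi t = (Iic t)ᶜ := by ext x; simp
  rw [h2, probReal_compl_eq_one_sub measurableSet_Iic]

theorem Qt_anti : Antitone Qt := by
  intro a b h
  rw [Qt_eq, Qt_eq]
  have := monotone_cdf (gaussianReal 0 1) h
  linarith

theorem Qt_nonneg (t : ℝ) : 0 ≤ Qt t := measureReal_nonneg
theorem Qt_le_one (t : ℝ) : Qt t ≤ 1 := measureReal_le_one

theorem Qt_top : Tendsto Qt atTop (𝓝 0) := by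
  have h := (tendsto_cdf_atTop (gaussianReal 0 1)).const_sub 1
  rw [sub_self] at h
  exact h.congr fun t => (Qt_eq t).symm

theorem Qt_bot : Tendsto Qt atBot (𝓝 1) := by
  have h := (tendsto_cdf_atBot (gaussianReal 0 1)).const_sub 1
  rw [sub_zero] at h
  exact h.congr fun t => (Qt_eq t).symm

theorem Qt_cont : Continuous Qt := by
  have h1 : ∀ t, Qt t = Qt 0 - ∫ x in (0 : ℝ)..t, gaussianPDFReal 0 1 x := by
    intro t
    have hint := integrable_gaussianPDFReal 0 1
    have h2 : ∀ s, Qt s = ∫ x in Ioi s, gaussianPDFReal 0 1 x := by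
      intro s
      unfold Qt
      rw [measureReal_def, gaussianReal_apply_eq_integral 0 one_ne_zero, ENNReal.toReal_ofReal
        (integral_nonneg fun x => gaussianPDFReal_nonneg _ _ _), integral_Ici_eq_integral_Ioi]
    rw [h2, h2, ← intervalIntegral.integral_interval_add_Ioi (a := 0) (b := t) hint.integrableOn hint.integrableOn]
    ring
  have h3 : Qt = fun t => Qt 0 - ∫ x in (0 : ℝ)..t, gaussianPDFReal 0 1 x := funext h1
  rw [h3]
  apply continuous_const.sub
  exact intervalIntegral.continuous_primitive (fun a b => (integrable_gaussianPDFReal 0 1).intervalIntegrable) 0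

theorem Qt_surj {c : ℝ} (h0 : 0 < c) (h1 : c < 1) : ∃ t, Qt t = c := by
  have e1 := Qt_top.eventually (gt_mem_nhds h0)
  have e2 := Qt_bot.eventually (lt_mem_nhds h1)
  obtain ⟨a, ha⟩ := e1.exists
  obtain ⟨b, hb⟩ := e2.exists
  have h := mem_range_of_exists_le_of_exists_ge Qt_cont ⟨a, ha.le⟩ ⟨b, hb.le⟩
  exact h

/-- the central limit theorem in a window -/
theorem clt_window (t : ℝ) {ε : ℝ} (hε : 0 < ε) : ∃ ρ X0 : ℝ, 0 < ρ ∧ 0 < X0 ∧ ∀ (X : ℝ) (k : ℕ) (a : ℝ), X0 ≤ X →
    |gam * k - X - t * sig * Real.sqrt (X / gam)| ≤ ρ * Real.sqrt X → |a + X| ≤ ρ * Real.sqrt X →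
    |Hh mu k a - Qt t| ≤ ε := by
  have hg := gam_pos
  have hsg := sig_pos
  obtain ⟨δ, hδ, hδQ⟩ : ∃ δ > 0, ∀ s, |s - t| ≤ δ → |Qt s - Qt t| ≤ ε / 2 := by
    obtain ⟨δ, hδ, h⟩ := Metric.continuousAt_iff.1 (Qt_cont.continuousAt (x := t)) (ε / 2) (by positivity)
    refine ⟨δ / 2, by positivity, fun s hs => ?_⟩
    have := h (x := s) (by rw [Real.dist_eq]; linarith)
    rw [Real.dist_eq] at this
    exact this.le
  have hm := hδQ (t - δ) (by rw [abs_le]; constructor <;> linarith)
  have hp := hδQ (t + δ) (by rw [abs_le]; constructor <;> linarith)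
  have e1 := (Metric.tendsto_nhds.1 (clt_mu (t - δ))) (ε / 2) (by positivity)
  have e2 := (Metric.tendsto_nhds.1 (clt_mu (t + δ))) (ε / 2) (by positivity)
  obtain ⟨N, hN⟩ := eventually_atTop.1 (e1.and e2)
  set G : ℝ := Real.sqrt gam with hG
  have hG0 : 0 < G := Real.sqrt_pos.2 hg
  have hGG : G ^ 2 = gam := Real.sq_sqrt hg.le
  set C1 : ℝ := (|t| * sig / G + 1) / G with hC1
  have hC10 : 0 < C1 := by positivity
  refine ⟨min 1 (δ * sig / (8 * G)),
    max 1 ((2 * G * (C1 * (|t| + δ) / δ + C1 + Real.sqrt N + 1)) ^ 2), by positivity, by positivity, ?_⟩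
  intro X k a hX hk ha
  have hX1 : 1 ≤ X := (le_max_left _ _).trans hX
  have hX0 : 0 < X := by linarith
  set s : ℝ := Real.sqrt X with hs
  have hs0 : 0 < s := Real.sqrt_pos.2 hX0
  have hss : s ^ 2 = X := Real.sq_sqrt hX0.le
  have hbig : 2 * G * (C1 * (|t| + δ) / δ + C1 + Real.sqrt N + 1) ≤ s := by
    rw [hs]
    apply Real.le_sqrt_of_sq_le
    exact (le_max_right _ _).trans hX
  have hXg : Real.sqrt (X / gam) = s / G := by rw [Real.sqrt_div hX0.le]
  rw [hXg] at hk
  set ρ : ℝ := min 1 (δ * sig / (8 * G)) with hρ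
  have hρ0 : 0 < ρ := by positivity
  have hρ1 : ρ ≤ 1 := min_le_left _ _
  have hρ2 : ρ ≤ δ * sig / (8 * G) := min_le_right _ _
  -- `√k`
  set q : ℝ := Real.sqrt k with hq
  have hq0 : 0 ≤ q := Real.sqrt_nonneg _
  have hqq : q ^ 2 = k := Real.sq_sqrt (Nat.cast_nonneg k)
  have h1 : |gam * k - X| ≤ (|t| * sig / G + 1) * s := by
    have h2 : |gam * k - X| ≤ |gam * k - X - t * sig * (s / G)| + |t * sig * (s / G)| := by
      have := abs_add_le (gam * k - X - t * sig * (s / G)) (t * sig * (s / G))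
      rwa [sub_add_cancel] at this
    have h3 : |t * sig * (s / G)| = |t| * sig / G * s := by
      rw [abs_mul, abs_mul, abs_of_pos hsg, abs_of_pos (by positivity : 0 < s / G)]
      ring
    rw [h3] at h2
    have h4 : ρ * s ≤ 1 * s := mul_le_mul_of_nonneg_right hρ1 hs0.le
    nlinarith
  have h2 : |q - s / G| ≤ C1 := by
    have h3 : |q - s / G| * (q + s / G) = |k - X / gam| := by
      have hpq : 0 < q + s / G := by positivity
      have : (q - s / G) * (q + s / G) = k - X / gam := by
        rw [← hqq, ← hss, ← hGG]; field_simp; ring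
      rw [← this, abs_mul, abs_of_pos hpq]
    have h4 : |k - X / gam| = |gam * k - X| / gam := by
      rw [← abs_of_pos hg, ← abs_div, abs_of_pos hg]
      congr 1
      field_simp
    have h5 : |q - s / G| * (s / G) ≤ |q - s / G| * (q + s / G) :=
      mul_le_mul_of_nonneg_left (by linarith) (abs_nonneg _)
    rw [h3, h4] at h5
    have h6 : |q - s / G| * (s / G) ≤ C1 * (s / G) := by
      refine h5.trans ?_
      rw [div_le_iff₀ hg]
      refine h1.trans (le_of_eq ?_)
      rw [hC1, ← hGG]
      field_simp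
    exact le_of_mul_le_mul_right h6 (by positivity)
  have hqlow : s / G - C1 ≤ q := by have := (abs_le.1 h2).1; linarith
  have hsG : 2 * (C1 * (|t| + δ) / δ + C1 + Real.sqrt N + 1) ≤ s / G := by
    rw [le_div_iff₀ hG0]; linarith
  have hNk : N ≤ k := by
    have h3 : Real.sqrt N ≤ q := by
      have : 0 ≤ C1 * (|t| + δ) / δ := by positivity
      have := Real.sqrt_nonneg (N : ℝ)
      linarith
    rw [hq] at h3
    have h4 := (Real.sqrt_le_sqrt_iff (Nat.cast_nonneg k)).1 h3
    exact_mod_cast h4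
  obtain ⟨a1, a2⟩ := hN k hNk
  rw [Real.dist_eq] at a1 a2
  -- the position of `a`
  have hpos : |a + gam * k - t * (sig * q)| ≤ δ * (sig * q) := by
    have h3 : |a + gam * k - t * (sig * q)| ≤ |a + X| + |gam * k - X - t * sig * (s / G)| +
        |t * sig * (s / G - q)| := by
      have e : a + gam * k - t * (sig * q) = (a + X) + (gam * k - X - t * sig * (s / G)) +
        t * sig * (s / G - q) := by ring
      rw [e]
      exact (abs_add_le _ _).trans (add_le_add_left (abs_add_le _ _) _)
    have h4 : |t * sig * (s / G - q)| ≤ |t| * sig * C1 := by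
      rw [abs_mul, abs_mul, abs_of_pos hsg, abs_sub_comm (s / G) q]
      exact mul_le_mul_of_nonneg_left h2 (by positivity)
    have h5 : ρ * s ≤ δ * sig / (8 * G) * s := mul_le_mul_of_nonneg_right hρ2 hs0.le
    have h6 : δ * sig / (8 * G) * s = δ * sig * (s / G) / 8 := by field_simp
    rw [h6] at h5
    have h7 : δ * sig * (s / G - C1) ≤ δ * (sig * q) := by
      have := mul_le_mul_of_nonneg_left hqlow (show 0 ≤ δ * sig by positivity)
      linarith
    have h8 : δ * sig * (2 * (C1 * (|t| + δ) / δ)) ≤ δ * sig * (s / G) := by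
      apply mul_le_mul_of_nonneg_left _ (by positivity)
      have := Real.sqrt_nonneg (N : ℝ)
      linarith
    have h9 : δ * sig * (2 * (C1 * (|t| + δ) / δ)) = 2 * (sig * C1 * |t| + δ * sig * C1) := by
      field_simp
    have h10 : 0 ≤ sig * C1 * |t| := by positivity
    have h11 : 0 ≤ δ * sig * C1 := by positivity
    nlinarith
  rw [abs_le] at hpos
  have u1 : Hh mu k a ≤ Hh mu k (-(gam * k) + (t - δ) * (sig * q)) := Hh_anti mu k (by linarith [hpos.1])
  have u2 : Hh mu k (-(gam * k) + (t + δ) * (sig * q)) ≤ Hh mu k a := Hh_anti mu k (by linarith [hpos.2])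
  rw [abs_lt] at a1 a2
  rw [abs_le] at hm hp ⊢
  constructor
  · linarith [a2.1, hp.1]
  · linarith [a1.2, hm.2]

end Pool.Agent.H622.Ch
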