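import Mathlib
import Pool.Agent.H622.Ch4

set_option autoImplicit false

/-! Chamberland's map: the two stages of the descent. -/

namespace Pool.Agent.H622.Ch

open MeasureTheory Set Filter Topology
open Pool.Agent.W40.Ch
open Pool.Agent.H934R2.Ch (f continuous_f)

/-- the points whose orbit, when it falls below `L₂` for the first time (up to time `k`), stays above `L` for the next
`r` steps -/
def Zs (L L2 r k : ℕ) : Set ℝ :=
  {x | ∃ i ≤ k, (∀ j < i, (L2 : ℝ) ≤ f^[j] x) ∧ f^[i] x < L2 ∧ f^[i] x ∈ HighT L r}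

theorem Zs_meas (L L2 r k : ℕ) : MeasurableSet (Zs L L2 r k) := by
  have e : Zs L L2 r k = ⋃ i : ℕ, ⋃ _ : i ≤ k, ((⋂ j : ℕ, ⋂ _ : j < i, (f^[j]) ⁻¹' Ici (L2 : ℝ)) ∩
      ((f^[i]) ⁻¹' Iio (L2 : ℝ) ∩ (f^[i]) ⁻¹' HighT L r)) := by
    ext x
    simp only [Zs, mem_iUnion, mem_inter_iff, mem_iInter, mem_preimage, mem_Ici, mem_Iio, exists_prop]
    exact Iff.rfl
  rw [e]
  refine MeasurableSet.iUnion fun i => MeasurableSet.iUnion fun _ => ?_
  refine (MeasurableSet.iInter fun j => MeasurableSet.iInter fun _ =>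
    (continuous_f.iterate j).measurable measurableSet_Ici).inter ?_
  exact ((continuous_f.iterate i).measurable measurableSet_Iio).inter
    ((continuous_f.iterate i).measurable (highT_meas L r))

theorem Zs_bound {L L2 r : ℕ} (hL : 1 ≤ L) (hL2 : 13824 ≤ L2) (hr : 75 * Real.log L2 ≤ r) (k : ℕ) : ∀ m : ℕ,
    bb (Zs L L2 r k) m ≤ 3000 * (L : ℝ) ^ (-(1 / 4) : ℝ) + k * (22 * qq L2) := by
  have hq := qq_nonneg L2
  have hlow : ∀ k m : ℕ, m < L2 → bb (Zs L L2 r k) m ≤ 3000 * (L : ℝ) ^ (-(1 / 4) : ℝ) := by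
    intro k m hm
    have h1 : bb (Zs L L2 r k) m ≤ bb (HighT L r) m := by
      unfold bb
      apply measureReal_mono _ (inter_fin' _ _)
      rintro x ⟨⟨i, hi, h1, h2, h3⟩, h4⟩
      refine ⟨?_, h4⟩
      rcases Nat.eq_zero_or_pos i with h | h
      · subst h; exact h3
      · exfalso
        have h5 := h1 0 h
        have h6 : ((m + 1 : ℕ) : ℝ) ≤ L2 := by exact_mod_cast hm
        push_cast at h6
        have h7 : x < m + 1 := h4.2
        simp only [Function.iterate_zero, id] at h5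
        linarith
    refine h1.trans (highT_final L m r hL ?_)
    refine le_trans ?_ hr
    apply mul_le_mul_of_nonneg_left _ (by norm_num)
    rcases Nat.eq_zero_or_pos m with h | h
    · rw [h, Nat.cast_zero, Real.log_zero]
      exact Real.log_nonneg (by exact_mod_cast (by omega : 1 ≤ L2))
    · exact Real.log_le_log (by exact_mod_cast h) (by exact_mod_cast hm.le)
  have hη : 0 ≤ 3000 * (L : ℝ) ^ (-(1 / 4) : ℝ) := by positivity
  induction k with
  | zero =>
    intro m
    rcases Nat.lt_or_ge m L2 with hm | hm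
    · have := hlow 0 m hm
      push_cast; linarith
    · have h1 : bb (Zs L L2 r 0) m = 0 := by
        unfold bb
        have : Zs L L2 r 0 ∩ cell m = ∅ := by
          ext x
          simp only [mem_inter_iff, mem_empty_iff_false, iff_false, not_and]
          rintro ⟨i, hi, h1, h2, h3⟩ h4
          have : i = 0 := by omega
          subst this
          simp only [Function.iterate_zero, id] at h2
          have h5 : (L2 : ℝ) ≤ m := by exact_mod_cast hm
          linarith [h4.1]
        rw [this]; simp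
      rw [h1]
      push_cast; linarith
  | succ k ih =>
    intro m
    rcases Nat.lt_or_ge m L2 with hm | hm
    · have := hlow (k + 1) m hm
      have : 0 ≤ ((k + 1 : ℕ) : ℝ) * (22 * qq L2) := by positivity
      linarith
    · have h1 : bb (Zs L L2 r (k + 1)) m ≤ volume.real (cell m ∩ f ⁻¹' Zs L L2 r k) := by
        unfold bb
        apply measureReal_mono _ (inter_fin _ _)
        rintro x ⟨⟨i, hi, h1, h2, h3⟩, h4⟩
        refine ⟨h4, ?_⟩
        rcases Nat.eq_zero_or_pos i with h | h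
        · exfalso
          subst h
          simp only [Function.iterate_zero, id] at h2
          have h5 : (L2 : ℝ) ≤ m := by exact_mod_cast hm
          linarith [h4.1]
        · obtain ⟨j, rfl⟩ : ∃ j, i = j + 1 := ⟨i - 1, by omega⟩
          rw [Function.iterate_succ_apply] at h2 h3
          refine ⟨j, by omega, fun j' hj' => ?_, h2, h3⟩
          have := h1 (j' + 1) (by omega)
          rwa [Function.iterate_succ_apply] at this
      have h2 := (abs_le.1 (step2 (Zs_meas L L2 r k) (by omega : 13824 ≤ m))).2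
      have h3 := qq_anti (a := L2) (by omega) hm
      have h4 : P (bb (Zs L L2 r k)) m ≤ P (fun _ => 3000 * (L : ℝ) ^ (-(1 / 4) : ℝ) + k * (22 * qq L2)) m :=
        P_mono fun j _ => ih j
      rw [P_const] at h4
      push_cast
      linarith

/-- the two stages -/
theorem two_stage (B : Set ℝ) (L L2 r k m : ℕ) :
    bb (B ∩ HighT L (k + r)) m ≤ bb (B ∩ HighT L2 k) m + bb (Zs L L2 r k) m := by
  unfold bb
  refine le_trans ?_ (measureReal_union_le _ _)
  apply measureReal_mono
  · rintro x ⟨⟨h1, h2⟩, h3⟩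
    by_cases h : x ∈ HighT L2 k
    · left; exact ⟨⟨h1, h⟩, h3⟩
    · right
      refine ⟨?_, h3⟩
      have hex : ∃ i, i ≤ k ∧ f^[i] x < L2 := by
        by_contra hcon
        push Not at hcon
        exact h fun i hi => hcon i hi
      classical
      set i := Nat.find hex with hi
      obtain ⟨hik, hiL⟩ := Nat.find_spec hex
      rw [← hi] at hik hiL
      refine ⟨i, hik, fun j hj => ?_, hiL, fun j hj => ?_⟩
      · have := Nat.find_min hex hj
        push Not at this
        exact this (by omega)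
      · rw [← Function.iterate_add_apply]
        exact h2 (j + i) (by omega)
  · refine ne_of_lt ((measure_union_le _ _).trans_lt (ENNReal.add_lt_top.2 ⟨?_, ?_⟩))
    · exact (inter_fin' _ _).lt_top
    · exact (inter_fin' _ _).lt_top

theorem mono_level (B : Set ℝ) {L L2 : ℕ} (h : L ≤ L2) (k m : ℕ) : bb (B ∩ HighT L2 k) m ≤ bb (B ∩ HighT L k) m := by
  unfold bb
  apply measureReal_mono _ (inter_fin' _ _)
  rintro x ⟨⟨h1, h2⟩, h3⟩
  refine ⟨⟨h1, fun i hi => ?_⟩, h3⟩
  have : (L : ℝ) ≤ L2 := by exact_mod_cast h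
  exact this.trans (h2 i hi)

theorem mono_time (B : Set ℝ) (L : ℕ) {k k' : ℕ} (h : k ≤ k') (m : ℕ) :
    bb (B ∩ HighT L k') m ≤ bb (B ∩ HighT L k) m := by
  unfold bb
  apply measureReal_mono _ (inter_fin' _ _)
  rintro x ⟨⟨h1, h2⟩, h3⟩
  exact ⟨⟨h1, fun i hi => h2 i (by omega)⟩, h3⟩

/-- elementary limits -/
theorem small_terms {τ : ℝ} (hτ : 0 < τ) (C : ℝ) : ∀ᶠ X : ℝ in atTop,
    1 ≤ X ∧ C * X ^ (-(1 / 3) : ℝ) ≤ τ ∧ C * X ^ (-(1 / 500) : ℝ) ≤ τ ∧ C * (1 + Real.log X) ≤ τ * Real.sqrt X := by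
  have t1 : Tendsto (fun X : ℝ => C * X ^ (-(1 / 3) : ℝ)) atTop (𝓝 (C * 0)) :=
    (tendsto_rpow_neg_atTop (by norm_num)).const_mul C
  have t2 : Tendsto (fun X : ℝ => C * X ^ (-(1 / 500) : ℝ)) atTop (𝓝 (C * 0)) :=
    (tendsto_rpow_neg_atTop (by norm_num)).const_mul C
  rw [mul_zero] at t1 t2
  have t3 : Tendsto (fun X : ℝ => C * (1 + Real.log X) / Real.sqrt X) atTop (𝓝 0) := by
    have h1 : (fun X : ℝ => Real.log X) =o[atTop] fun X : ℝ => X ^ (1 / 2 : ℝ) :=
      isLittleO_log_rpow_atTop (by norm_num)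
    have h2 := h1.tendsto_div_nhds_zero
    have h3 : Tendsto (fun X : ℝ => X ^ (-(1 / 2) : ℝ)) atTop (𝓝 0) := tendsto_rpow_neg_atTop (by norm_num)
    have h4 := (h3.add h2).const_mul C
    rw [add_zero, mul_zero] at h4
    refine h4.congr' ?_
    filter_upwards [eventually_gt_atTop 0] with X hX
    rw [Real.sqrt_eq_rpow, Real.rpow_neg hX.le]
    have : 0 < X ^ (1 / 2 : ℝ) := Real.rpow_pos_of_pos hX _
    field_simp
  filter_upwards [t1.eventually (gt_mem_nhds hτ), t2.eventually (gt_mem_nhds hτ), t3.eventually (gt_mem_nhds hτ),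
    eventually_ge_atTop 1] with X h1 h2 h3 h4
  refine ⟨h4, h1.le, h2.le, ?_⟩
  have : 0 < Real.sqrt X := Real.sqrt_pos.2 (by linarith)
  rw [div_lt_iff₀ this] at h3
  exact h3.le

end Pool.Agent.H622.Ch
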