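import Mathlib
import Pool.Agent.H622.Ch5

set_option autoImplicit false

/-! Chamberland's map: the choice of the parameters. -/

namespace Pool.Agent.H622.Ch

open MeasureTheory Set Filter Topology
open Pool.Agent.W40.Ch
open Pool.Agent.H934R2.Ch (f continuous_f)

/-- the number of steps -/
noncomputable def Tt (t X : ℝ) : ℝ := (X + t * sig * Real.sqrt (X / gam)) / gam

theorem S1 {X : ℝ} (hX : 14000 ≤ X) {L : ℕ} (hL : 1 ≤ L) : ∃ L2 : ℕ, L ≤ L2 ∧ X ^ 4 ≤ L2 ∧ 13824 ≤ L2 ∧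
    Real.log L2 ≤ Real.log L + (1 + 4 * Real.log X) := by
  have hX1 : 1 ≤ X := by linarith
  have hX0 : 0 < X := by linarith
  have hX4' : X ≤ X ^ 4 := by
    have : 1 ≤ X ^ 3 := one_le_pow₀ hX1
    nlinarith
  have h14 : 1 ≤ X ^ 4 := one_le_pow₀ hX1
  have hL0 : (1 : ℝ) ≤ L := by exact_mod_cast hL
  have hX4 : X ^ 4 ≤ (max L ⌈X ^ 4⌉₊ : ℕ) := (Nat.le_ceil _).trans (by exact_mod_cast le_max_right _ _)
  have hb : 13824 ≤ max L ⌈X ^ 4⌉₊ := by
    have : (13824 : ℝ) ≤ (max L ⌈X ^ 4⌉₊ : ℕ) := by linarith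
    exact_mod_cast this
  refine ⟨max L ⌈X ^ 4⌉₊, le_max_left _ _, hX4, hb, ?_⟩
  have hpos : (0 : ℝ) < (max L ⌈X ^ 4⌉₊ : ℕ) := by linarith
  have h1 : ((max L ⌈X ^ 4⌉₊ : ℕ) : ℝ) ≤ L * (2 * X ^ 4) := by
    push_cast
    apply max_le
    · nlinarith
    · have h2 : (⌈X ^ 4⌉₊ : ℝ) < X ^ 4 + 1 := Nat.ceil_lt_add_one (by positivity)
      have h4 : 1 * (2 * X ^ 4) ≤ L * (2 * X ^ 4) := mul_le_mul_of_nonneg_right hL0 (by positivity)
      linarith
  have h2 := Real.log_le_log hpos h1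
  rw [Real.log_mul (by positivity) (by positivity), Real.log_mul (by norm_num) (by positivity),
    Real.log_pow] at h2
  have h3 := Real.log_two_lt_d9
  push_cast at h2 ⊢
  linarith

theorem S2 {X C : ℝ} (hX : 1 ≤ X) {L2 : ℕ} (h : X ^ 4 ≤ L2) {k : ℕ} (hk : (k : ℝ) ≤ C * X) (hC : 0 ≤ C) :
    k * (22 * qq L2) ≤ 22 * C * X ^ (-(1 / 3) : ℝ) ∧ 4 * k / L2 ≤ 4 * C * X ^ (-(1 / 3) : ℝ) ∧
    (1 : ℝ) / L2 ≤ X ^ (-(1 / 3) : ℝ) ∧
    ∀ j : ℕ, L2 ≤ j → 2 * 10 ^ 7 * (j : ℝ) ^ (-(1 / 2000) : ℝ) ≤ 2 * 10 ^ 7 * X ^ (-(1 / 500) : ℝ) := by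
  have hXpos : 0 < X := by linarith
  have hX4pos : 0 < X ^ 4 := by positivity
  have hqq : qq L2 ≤ X ^ (-(4 / 3) : ℝ) := by
    unfold qq
    have h1 : (L2 : ℝ) ^ (-(1 / 3) : ℝ) ≤ (X ^ 4) ^ (-(1 / 3) : ℝ) :=
      Real.rpow_le_rpow_of_nonpos (by positivity) h (by norm_num)
    have h2 : (X ^ 4) ^ (-(1 / 3) : ℝ) = X ^ (-(4 / 3) : ℝ) := by
      rw [← Real.rpow_natCast, ← Real.rpow_mul hXpos.le]
      norm_num
    linarith
  have hXp : X * X ^ (-(4 / 3) : ℝ) = X ^ (-(1 / 3) : ℝ) := by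
    nth_rewrite 1 [← Real.rpow_one X]
    rw [← Real.rpow_add hXpos]
    norm_num
  have hX3 : X / X ^ 4 ≤ X ^ (-(1 / 3) : ℝ) := by
    have h1 : X / X ^ 4 = X ^ (-3 : ℝ) := by
      rw [Real.rpow_neg hXpos.le, show (3 : ℝ) = ((3 : ℕ) : ℝ) by norm_num, Real.rpow_natCast]
      field_simp
    rw [h1]
    exact Real.rpow_le_rpow_of_exponent_le hX (by norm_num)
  refine ⟨?_, ?_, ?_, ?_⟩
  · have h1 : (k : ℝ) * (22 * qq L2) ≤ (C * X) * (22 * X ^ (-(4 / 3) : ℝ)) := by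
      apply mul_le_mul hk (by linarith) (by have := qq_nonneg L2; positivity) (by positivity)
    have h2 : (C * X) * (22 * X ^ (-(4 / 3) : ℝ)) = 22 * C * X ^ (-(1 / 3) : ℝ) := by
      rw [← hXp]; ring
    linarith
  · have h1 : 4 * (k : ℝ) / L2 ≤ 4 * (C * X) / X ^ 4 := by
      apply div_le_div₀ (by positivity) (by linarith) (by positivity) h
    have h2 : 4 * (C * X) / X ^ 4 = 4 * C * (X / X ^ 4) := by ring
    have h3 : 4 * C * (X / X ^ 4) ≤ 4 * C * X ^ (-(1 / 3) : ℝ) := mul_le_mul_of_nonneg_left hX3 (by positivity)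
    linarith
  · exact (div_le_div₀ hXpos.le hX (by positivity) h).trans hX3
  · intro j hj
    have h1 : (j : ℝ) ^ (-(1 / 2000) : ℝ) ≤ (X ^ 4) ^ (-(1 / 2000) : ℝ) :=
      Real.rpow_le_rpow_of_nonpos (by positivity) (h.trans (by exact_mod_cast hj)) (by norm_num)
    have h2 : (X ^ 4) ^ (-(1 / 2000) : ℝ) = X ^ (-(1 / 500) : ℝ) := by
      rw [← Real.rpow_natCast, ← Real.rpow_mul hXpos.le]
      norm_num
    rw [h2] at h1
    linarith

/-- the constant in the bound for the number of steps -/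
noncomputable def Ct (t : ℝ) : ℝ := (1 + |t| * sig / Real.sqrt gam) / gam

theorem Ct_pos (t : ℝ) : 0 < Ct t := by
  have hg := gam_pos
  have hsg := sig_pos
  have hG0 : 0 < Real.sqrt gam := Real.sqrt_pos.2 hg
  unfold Ct
  positivity

theorem S3 (t : ℝ) {X : ℝ} (hX : 1 ≤ X) : Tt t X ≤ Ct t * X ∧
    X - Ct t * gam * Real.sqrt X ≤ gam * Tt t X := by
  have hg := gam_pos
  have hsg := sig_pos
  set G : ℝ := Real.sqrt gam with hG
  have hG0 : 0 < G := Real.sqrt_pos.2 hg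
  have hXpos : 0 < X := by linarith
  set s : ℝ := Real.sqrt X with hs
  have hs0 : 0 < s := Real.sqrt_pos.2 hXpos
  have hss : s ^ 2 = X := Real.sq_sqrt hXpos.le
  have hs1 : 1 ≤ s := by rw [hs, Real.one_le_sqrt]; exact hX
  have hsX : s ≤ X := by rw [← hss]; nlinarith
  have hXg : Real.sqrt (X / gam) = s / G := by rw [Real.sqrt_div hXpos.le]
  have h0 : |t * sig * (s / G)| = |t| * sig / G * s := by
    rw [abs_mul, abs_mul, abs_of_pos hsg, abs_of_pos (by positivity : 0 < s / G)]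
    ring
  have h1 := abs_le.1 (le_of_eq h0)
  have h2 : |t| * sig / G * s ≤ |t| * sig / G * X := mul_le_mul_of_nonneg_left hsX (by positivity)
  have h3 : Ct t * gam = 1 + |t| * sig / G := by
    unfold Ct; rw [div_mul_cancel₀ _ hg.ne']
  constructor
  · unfold Tt
    rw [hXg, div_le_iff₀ hg]
    have : Ct t * X * gam = (1 + |t| * sig / G) * X := by rw [← h3]; ring
    rw [this]
    linarith [h1.2]
  · unfold Tt
    rw [hXg, mul_div_cancel₀ _ hg.ne', h3]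
    have : 0 ≤ s := hs0.le
    linarith [h1.1]

theorem S4 {m : ℕ} (hm : 1 ≤ m) : Real.log m ≤ Real.log ((m : ℝ) + 1) ∧ Real.log ((m : ℝ) + 1) ≤ Real.log m + 1 := by
  have hm0 : (0 : ℝ) < m := by exact_mod_cast hm
  have h1m : (1 : ℝ) ≤ m := by exact_mod_cast hm
  refine ⟨Real.log_le_log hm0 (by linarith), ?_⟩
  have h3 : Real.log ((m : ℝ) + 1) ≤ Real.log (m * Real.exp 1) := by
    apply Real.log_le_log (by positivity)
    have := Real.add_one_le_exp (1 : ℝ)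
    nlinarith
  rw [Real.log_mul hm0.ne' (Real.exp_pos 1).ne', Real.log_exp] at h3
  exact h3

theorem gam_le_one : gam ≤ 1 := by
  unfold gam
  have h0 := Real.sqrt_nonneg 3
  rw [Real.log_le_iff_le_exp (by positivity)]
  have h8 := Real.exp_one_gt_d9
  rw [div_le_iff₀ (by positivity)]
  nlinarith

/-- the choice of the parameters -/
theorem setup (t : ℝ) {ρ τ X0 : ℝ} (hρ : 0 < ρ) (hτ : 0 < τ) : ∃ M : ℕ, ∀ m L : ℕ, M ≤ m → M ≤ L →
    M * Real.log L ≤ Real.sqrt (Real.log m) →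
    ∃ L2 r k K : ℕ, 1 ≤ m ∧ 1 ≤ L ∧ X0 ≤ Real.log m ∧ L ≤ L2 ∧ 13824 ≤ L2 ∧ 75 * Real.log L2 ≤ r ∧
      K = k + r ∧ K = ⌊Tt t (Real.log m)⌋₊ ∧
      |gam * k - Real.log m - t * sig * Real.sqrt (Real.log m / gam)| ≤ ρ * Real.sqrt (Real.log m) ∧
      |gam * K - Real.log m - t * sig * Real.sqrt (Real.log m / gam)| ≤ ρ * Real.sqrt (Real.log m) ∧
      |(Real.log L2 - Real.log (m + 1) - 4 * k / L2) + Real.log m| ≤ ρ * Real.sqrt (Real.log m) ∧
      |(2 * Real.log L2 - Real.log m + 4 * K / L2) + Real.log m| ≤ ρ * Real.sqrt (Real.log m) ∧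
      k * (22 * qq L2) ≤ τ ∧ K * (22 * qq L2) ≤ τ ∧ 3000 * (L : ℝ) ^ (-(1 / 4) : ℝ) ≤ τ ∧
      ((K : ℝ) + 1) * Real.exp (-(2 * Real.log L2 - Real.log L2)) ≤ 2 * τ ∧
      ∀ j : ℕ, L2 ≤ j → 2 * 10 ^ 7 * (j : ℝ) ^ (-(1 / 2000) : ℝ) ≤ τ := by
  have hg := gam_pos
  have hg1 := gam_le_one
  have hsg := sig_pos
  have hCt := Ct_pos t
  set ρ' : ℝ := min ρ 1 with hρ'
  have hρ'0 : 0 < ρ' := lt_min hρ one_pos
  have hρ'ρ : ρ' ≤ ρ := min_le_left _ _
  have hρ'1 : ρ' ≤ 1 := min_le_right _ _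
  set τ' : ℝ := min (ρ' / 1000) τ with hτ'
  have hτ'0 : 0 < τ' := by positivity
  have hτ'1 : τ' ≤ ρ' / 1000 := min_le_left _ _
  have hτ'2 : τ' ≤ τ := min_le_right _ _
  set Cc : ℝ := 100 * Ct t + 2 * 10 ^ 7 with hCc
  have e1 := small_terms hτ'0 Cc
  obtain ⟨X1, hX1⟩ := eventually_atTop.1 (e1.and (eventually_ge_atTop (max X0 (14000 : ℝ))))
  have e3 : Tendsto (fun L : ℕ => 3000 * (L : ℝ) ^ (-(1 / 4) : ℝ)) atTop (𝓝 (3000 * 0)) :=
    ((tendsto_rpow_neg_atTop (by norm_num)).comp tendsto_natCast_atTop_atTop).const_mul 3000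
  rw [mul_zero] at e3
  obtain ⟨M1, hM1⟩ := eventually_atTop.1 (e3.eventually (gt_mem_nhds hτ))
  obtain ⟨M2, hM2⟩ := exists_nat_gt (1000 / ρ')
  obtain ⟨M3, hM3⟩ := exists_nat_gt (Real.exp X1)
  refine ⟨max (max M1 M2) (max M3 1), ?_⟩
  intro m L hm hL hML
  have hmM3 : M3 ≤ m := (le_max_left _ _).trans ((le_max_right _ _).trans hm)
  have hm1 : 1 ≤ m := (le_max_right _ _).trans ((le_max_right _ _).trans hm)
  have hL1 : 1 ≤ L := (le_max_right _ _).trans ((le_max_right _ _).trans hL)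
  have hLM1 : M1 ≤ L := (le_max_left _ _).trans ((le_max_left _ _).trans hL)
  have hm0 : (0 : ℝ) < m := by exact_mod_cast hm1
  obtain ⟨l1, l2⟩ := S4 hm1
  set X : ℝ := Real.log m with hX
  have hXX1 : X1 ≤ X := by
    rw [hX, Real.le_log_iff_exp_le hm0]
    exact hM3.le.trans (by exact_mod_cast hmM3)
  obtain ⟨⟨hX1', c1, c2, c3⟩, c4⟩ := hX1 X hXX1
  have hXX0 : X0 ≤ X := (le_max_left _ _).trans c4
  have hX14 : 14000 ≤ X := (le_max_right _ _).trans c4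
  have hXpos : 0 < X := by linarith only [hX14]
  set s : ℝ := Real.sqrt X with hs
  have hs0 : 0 < s := Real.sqrt_pos.2 hXpos
  have hss : s ^ 2 = X := Real.sq_sqrt hXpos.le
  have hs100 : 100 ≤ s := by
    rw [hs]; apply Real.le_sqrt_of_sq_le; linarith only [hX14]
  have hlogX : 0 ≤ Real.log X := Real.log_nonneg hX1'
  obtain ⟨L2, hLL2, hX4, hL2b, hlogL2⟩ := S1 hX14 hL1
  have hL2pos : (0 : ℝ) < L2 := by exact_mod_cast (by omega : 0 < L2)
  have hlogL : 0 ≤ Real.log L := Real.log_nonneg (by exact_mod_cast hL1)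
  have hlogL2' : 0 ≤ Real.log L2 := Real.log_nonneg (by exact_mod_cast (by omega : 1 ≤ L2))
  have hτs : τ' * s ≤ ρ' / 1000 * s := mul_le_mul_of_nonneg_right hτ'1 hs0.le
  -- `log L2 ≤ ρ' s / 200`
  have hLs : Real.log L ≤ ρ' / 1000 * s := by
    have h1 : 1000 / ρ' * Real.log L ≤ s := by
      refine le_trans ?_ hML
      apply mul_le_mul_of_nonneg_right _ hlogL
      refine hM2.le.trans ?_
      exact_mod_cast (le_max_right M1 M2).trans (le_max_left _ _)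
    have h2 := mul_le_mul_of_nonneg_left h1 (show 0 ≤ ρ' / 1000 by positivity)
    have h3 : ρ' / 1000 * (1000 / ρ' * Real.log L) = Real.log L := by field_simp
    linarith only [h2, h3]
  have hCcbig : 10 ^ 7 ≤ Cc := by rw [hCc]; linarith only [hCt]
  have hlogs : 10 ^ 7 * (1 + Real.log X) ≤ ρ' / 1000 * s := by
    have h1 : 10 ^ 7 * (1 + Real.log X) ≤ Cc * (1 + Real.log X) :=
      mul_le_mul_of_nonneg_right hCcbig (by linarith only [hlogX])
    linarith only [h1, c3, hτs]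
  have hone : 10 ^ 7 ≤ ρ' / 1000 * s := by linarith only [hlogs, hlogX]
  have hlogL2s : Real.log L2 ≤ ρ' / 900 * s := by
    have h1 : 1 + 4 * Real.log X ≤ 10 ^ 7 * (1 + Real.log X) / 10 ^ 5 := by linarith only [hlogX]
    have h2 : 0 ≤ ρ' * s := by positivity
    linarith only [hlogL2, hLs, hlogs, h1, h2]
  -- the number of steps
  obtain ⟨T1, T2⟩ := S3 t hX1'
  set K : ℕ := ⌊Tt t X⌋₊ with hK
  have hKle : (K : ℝ) ≤ Ct t * X := by
    rcases le_or_gt 0 (Tt t X) with h | h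
    · exact (Nat.floor_le h).trans T1
    · rw [hK, Nat.floor_of_nonpos h.le, Nat.cast_zero]
      positivity
  obtain ⟨r, hr1, hr2⟩ : ∃ r : ℕ, 75 * Real.log L2 ≤ r ∧ (r : ℝ) ≤ 75 * Real.log L2 + 1 :=
    ⟨⌈75 * Real.log L2⌉₊, Nat.le_ceil _, (Nat.ceil_lt_add_one (by positivity)).le⟩
  have hρs : 0 < ρ' * s := by positivity
  have hrs : (r : ℝ) ≤ ρ' / 11 * s := by linarith only [hr2, hlogL2s, hone, hρs]
  have hCts : Ct t * gam ≤ s / 1000 := by
    have h1 : 100 * Ct t ≤ ρ' / 1000 * s := by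
      have h2 : 100 * Ct t ≤ Cc * (1 + Real.log X) := by
        have h3 : 100 * Ct t ≤ Cc := by rw [hCc]; linarith only
        have h4 : Cc * 1 ≤ Cc * (1 + Real.log X) :=
          mul_le_mul_of_nonneg_left (by linarith only [hlogX]) (by linarith only [hCcbig])
        linarith only [h3, h4]
      linarith only [h2, c3, hτs]
    have h2 : Ct t * gam ≤ Ct t * 1 := mul_le_mul_of_nonneg_left hg1 hCt.le
    have h3 : ρ' * s ≤ 1 * s := mul_le_mul_of_nonneg_right hρ'1 hs0.le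
    linarith only [h1, h2, h3, hs0]
  have hTr : (r : ℝ) ≤ Tt t X := by
    have h1 : gam * (r : ℝ) ≤ r := mul_le_of_le_one_left (Nat.cast_nonneg r) hg1
    have h2 : ρ' * s ≤ 1 * s := mul_le_mul_of_nonneg_right hρ'1 hs0.le
    have h3 : Ct t * gam * s ≤ s / 1000 * s := mul_le_mul_of_nonneg_right hCts hs0.le
    have h4 : s / 1000 * s = X / 1000 := by rw [← hss]; ring
    have h5 : s ≤ X / 100 := by rw [← hss]; nlinarith only [hs100]
    have h6 : gam * (r : ℝ) ≤ gam * Tt t X := by linarith only [h1, h2, h3, h4, h5, hrs, T2, hXpos]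
    exact le_of_mul_le_mul_left h6 hg
  have hTpos : 0 ≤ Tt t X := le_trans (Nat.cast_nonneg r) hTr
  have hrK : r ≤ K := Nat.le_floor hTr
  have hKT : (K : ℝ) ≤ Tt t X := Nat.floor_le hTpos
  have hKT2 : Tt t X < K + 1 := Nat.lt_floor_add_one _
  have hgT : gam * Tt t X = X + t * sig * Real.sqrt (X / gam) := by
    unfold Tt
    rw [mul_div_cancel₀ _ hg.ne']
  obtain ⟨k, hk⟩ : ∃ k, K = k + r := ⟨K - r, by omega⟩
  have hkle : (k : ℝ) ≤ Ct t * X := le_trans (by exact_mod_cast (by omega : k ≤ K)) hKle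
  have hKw : |gam * K - X - t * sig * Real.sqrt (X / gam)| ≤ 1 := by
    have h1 := mul_le_mul_of_nonneg_left hKT hg.le
    have h2 := mul_le_mul_of_nonneg_left hKT2.le hg.le
    rw [abs_le]
    constructor
    · linarith only [h1, h2, hgT, hg1]
    · linarith only [h1, h2, hgT, hg1]
  obtain ⟨b1, b2, b3, b4⟩ := S2 hX1' hX4 hkle hCt.le
  obtain ⟨d1, d2, -, -⟩ := S2 hX1' hX4 hKle hCt.le
  have hxp : 0 ≤ X ^ (-(1 / 3) : ℝ) := by positivity
  have hxp2 : 0 ≤ X ^ (-(1 / 500) : ℝ) := by positivity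
  have hCxp : 100 * Ct t * X ^ (-(1 / 3) : ℝ) + 2 * 10 ^ 7 * X ^ (-(1 / 3) : ℝ) ≤ τ' := by
    have : Cc * X ^ (-(1 / 3) : ℝ) = 100 * Ct t * X ^ (-(1 / 3) : ℝ) + 2 * 10 ^ 7 * X ^ (-(1 / 3) : ℝ) := by
      rw [hCc]; ring
    linarith only [this, c1]
  have hCtx : 0 ≤ Ct t * X ^ (-(1 / 3) : ℝ) := by positivity
  have hρ's : ρ' * s ≤ ρ * s := mul_le_mul_of_nonneg_right hρ'ρ hs0.le
  refine ⟨L2, r, k, K, hm1, hL1, hXX0, hLL2, hL2b, hr1, hk, rfl, ?_, ?_, ?_, ?_, ?_, ?_, ?_, ?_, ?_⟩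
  · have h1 : gam * (k : ℝ) = gam * K - gam * r := by rw [hk]; push_cast; ring
    have h2 : gam * (r : ℝ) ≤ r := mul_le_of_le_one_left (Nat.cast_nonneg r) hg1
    have h3 : 0 ≤ gam * (r : ℝ) := by positivity
    rw [h1]
    rw [abs_le] at hKw ⊢
    constructor
    · linarith only [hKw.1, h2, h3, hrs, hρ's, hρs, hone]
    · linarith only [hKw.2, h2, h3, hrs, hρ's, hρs, hone]
  · refine hKw.trans ?_
    linarith only [hone, hρ's, hρs]
  · have h4 : 0 ≤ 4 * (k : ℝ) / L2 := by positivity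
    have h5 : 4 * (k : ℝ) / L2 ≤ 1 := by linarith only [b2, hCxp, hCtx, hxp, hτ'1, hρ'1]
    rw [abs_le]
    constructor
    · linarith only [h4, h5, l1, l2, hlogL2', hlogL2s, hone, hρ's, hρs]
    · linarith only [h4, h5, l1, l2, hlogL2', hlogL2s, hone, hρ's, hρs]
  · have h4 : 0 ≤ 4 * (K : ℝ) / L2 := by positivity
    have h5 : 4 * (K : ℝ) / L2 ≤ 1 := by linarith only [d2, hCxp, hCtx, hxp, hτ'1, hρ'1]
    rw [abs_le]
    constructor
    · linarith only [h4, h5, hlogL2', hlogL2s, hone, hρ's, hρs]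
    · linarith only [h4, h5, hlogL2', hlogL2s, hone, hρ's, hρs]
  · linarith only [b1, hCxp, hCtx, hxp, hτ'2]
  · linarith only [d1, hCxp, hCtx, hxp, hτ'2]
  · exact (hM1 L hLM1).le
  · have h1 : Real.exp (-(2 * Real.log L2 - Real.log L2)) = 1 / L2 := by
      rw [show -(2 * Real.log (L2 : ℝ) - Real.log L2) = -Real.log L2 by ring, Real.exp_neg,
        Real.exp_log hL2pos, one_div]
    rw [h1]
    have h3 : ((K : ℝ) + 1) * (1 / L2) = 4 * K / L2 / 4 + 1 / L2 := by ring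
    rw [h3]
    linarith only [d2, b3, hCxp, hCtx, hxp, hτ'2, hτ]
  · intro j hj
    have h1 := b4 j hj
    have h2 : 2 * 10 ^ 7 * X ^ (-(1 / 500) : ℝ) ≤ Cc * X ^ (-(1 / 500) : ℝ) :=
      mul_le_mul_of_nonneg_right (by rw [hCc]; linarith only [hCt]) hxp2
    linarith only [h1, h2, c2, hτ'2]

/-- the central limit theorem at one point -/
theorem pointwise (t : ℝ) {ε : ℝ} (hε : 0 < ε) : ∃ M : ℕ, ∀ (B : Set ℝ) (D : ℝ), Pool.Agent.W40.Ch.Inv B →
    Tendsto (bb B) atTop (𝓝 D) → ∀ m L : ℕ, M ≤ m → M ≤ L → M * Real.log L ≤ Real.sqrt (Real.log m) →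
    |bb (B ∩ HighT L ⌊Tt t (Real.log m)⌋₊) m - D * Qt t| ≤ ε := by
  obtain ⟨ρ, X0, hρ, hX0, hwin⟩ := clt_window t (show (0 : ℝ) < ε / 2 by positivity)
  obtain ⟨M, hM⟩ := setup t (X0 := X0) hρ (show (0 : ℝ) < ε / 16 by positivity)
  refine ⟨M, fun B D hB hD m L hm hL hML => ?_⟩
  obtain ⟨L2, r, k, K, hm1, hL1, hXX0, hLL2, hL2b, hr, hk, hK, hkw, hKw, ha, hb, e1, e2, e3, e4, e5⟩ :=
    hM m L hm hL hML
  obtain ⟨D', hD', hrate⟩ := Pool.Agent.TH237.CH.rate hB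
  have hDD : D' = D := tendsto_nhds_unique hD' hD
  subst hDD
  have hD0 : 0 ≤ D' := ge_of_tendsto' hD' (bb_nonneg B)
  have hD1 : D' ≤ 1 := le_of_tendsto' hD' (bb_le_one B)
  set τ : ℝ := ε / 16 with hτ
  have hτ0 : 0 < τ := by positivity
  have hBD : ∀ j : ℕ, L2 ≤ j → |bb B j - D'| ≤ τ := fun j hj => (hrate j (by omega)).trans (e5 j hj)
  have hBDu : ∀ j : ℕ, L2 ≤ j → bb B j ≤ D' + τ := fun j hj => by linarith only [(abs_le.1 (hBD j hj)).2]
  have hBDl : ∀ j : ℕ, L2 ≤ j → D' - τ ≤ bb B j := fun j hj => by linarith only [(abs_le.1 (hBD j hj)).1]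
  have hmu := upper hB hD0 hL2b hBDu hτ0.le k m
  have hup := hwin (Real.log m) k _ hXX0 hkw ha
  have hst := two_stage B L L2 r k m
  have hz := Zs_bound hL1 hL2b hr k m
  have hml := lower hB hD0 hD1 hL2b hBDl hτ0.le (l := 2 * Real.log L2) K m
  have hlo := hwin (Real.log m) K _ hXX0 hKw hb
  have hml2 := mono_level B hLL2 K m
  rw [← hK]
  rw [← hk] at hst
  rw [abs_le] at hup hlo ⊢
  have h2 : D' * (ε / 2) ≤ ε / 2 := mul_le_of_le_one_left (by positivity) hD1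
  constructor
  · have h1 : D' * (Qt t - ε / 2) ≤ D' * Hh mu K (2 * Real.log L2 - Real.log m + 4 * K / L2) :=
      mul_le_mul_of_nonneg_left (by linarith only [hlo.1]) hD0
    linarith only [h1, h2, hml, hml2, e2, e4, hτ, hε]
  · have h1 : D' * Hh mu k (Real.log L2 - Real.log (m + 1) - 4 * k / L2) ≤ D' * (Qt t + ε / 2) :=
      mul_le_mul_of_nonneg_left (by linarith only [hup.2]) hD0
    linarith only [h1, h2, hmu, hst, hz, e1, e3, hτ, hε]

end Pool.Agent.H622.Ch
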