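import Mathlib
import Pool.Agent.H622.Ch6

set_option autoImplicit false

/-! Chamberland's map: the central limit theorem for the descent, uniformly in the number of steps. -/

namespace Pool.Agent.H622.Ch

open MeasureTheory Set Filter Topology
open Pool.Agent.W40.Ch
open Pool.Agent.H934R2.Ch (f continuous_f)

/-- the normalised number of steps -/
noncomputable def nrm (K : ℕ) (X : ℝ) : ℝ := (gam * K - X) / (sig * Real.sqrt (X / gam))

theorem nrm_lt {t X : ℝ} {K : ℕ} (hX : 0 < X) (h : t < nrm K X) : ⌊Tt t X⌋₊ ≤ K := by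
  have hg := gam_pos
  have hsg := sig_pos
  have hs : 0 < Real.sqrt (X / gam) := Real.sqrt_pos.2 (by positivity)
  apply Nat.floor_le_of_le
  unfold nrm at h
  rw [lt_div_iff₀ (by positivity)] at h
  unfold Tt
  rw [div_le_iff₀ hg]
  linarith

theorem lt_nrm {t X : ℝ} {K : ℕ} (hX : 0 < X) (h : nrm K X < t) : K ≤ ⌊Tt t X⌋₊ := by
  have hg := gam_pos
  have hsg := sig_pos
  have hs : 0 < Real.sqrt (X / gam) := Real.sqrt_pos.2 (by positivity)
  apply Nat.le_floor
  unfold nrm at h
  rw [div_lt_iff₀ (by positivity)] at h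
  unfold Tt
  rw [le_div_iff₀ hg]
  linarith

theorem bb_inter_le (B S : Set ℝ) (m : ℕ) : bb (B ∩ S) m ≤ bb B m := by
  unfold bb
  apply measureReal_mono _ (inter_fin' _ _)
  exact inter_subset_inter_left _ inter_subset_left

theorem uniform {ε : ℝ} (hε : 0 < ε) : ∃ M : ℕ, ∀ (B : Set ℝ) (D : ℝ), Pool.Agent.W40.Ch.Inv B →
    Tendsto (bb B) atTop (𝓝 D) → ∀ m L K : ℕ, M ≤ m → M ≤ L → M * Real.log L ≤ Real.sqrt (Real.log m) →
    |bb (B ∩ HighT L K) m - D * Qt (nrm K (Real.log m))| ≤ ε := by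
  obtain ⟨N, hN⟩ := exists_nat_gt (8 / ε)
  have hN0 : (0 : ℝ) < N := lt_of_le_of_lt (by positivity) hN
  have hNi : 1 / (N : ℝ) ≤ ε / 8 := by
    rw [div_le_div_iff₀ hN0 (by norm_num)]
    rw [div_lt_iff₀ hε] at hN
    linarith
  have hex : ∀ i : ℕ, ∃ t : ℝ, (0 < i → i < N → Qt t = 1 - i / N) := by
    intro i
    by_cases h : 0 < i ∧ i < N
    · have h1 : (0 : ℝ) < i := by exact_mod_cast h.1
      have h2 : (i : ℝ) < N := by exact_mod_cast h.2
      have h3 : (i : ℝ) / N < 1 := by rw [div_lt_one hN0]; exact h2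
      have h4 : 0 < (i : ℝ) / N := by positivity
      obtain ⟨t, ht⟩ := Qt_surj (c := 1 - i / N) (by linarith) (by linarith)
      exact ⟨t, fun _ _ => ht⟩
    · exact ⟨0, fun h1 h2 => absurd ⟨h1, h2⟩ h⟩
  choose t ht using hex
  choose Mi hMi using fun i : ℕ => pointwise (t i) (show (0 : ℝ) < ε / 4 by positivity)
  have e5 : Tendsto (fun m : ℕ => 2 * 10 ^ 7 * (m : ℝ) ^ (-(1 / 2000) : ℝ)) atTop (𝓝 (2 * 10 ^ 7 * 0)) :=
    ((tendsto_rpow_neg_atTop (by norm_num)).comp tendsto_natCast_atTop_atTop).const_mul _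
  rw [mul_zero] at e5
  obtain ⟨M0, hM0⟩ := eventually_atTop.1 (e5.eventually (gt_mem_nhds (show (0 : ℝ) < ε / 4 by positivity)))
  refine ⟨max (max M0 3) (∑ i ∈ Finset.range N, Mi i), ?_⟩
  intro B D hB hD m L K hm hL hML
  have hm0 : M0 ≤ m := (le_max_left _ _).trans ((le_max_left _ _).trans hm)
  have hm3 : 3 ≤ m := (le_max_right _ _).trans ((le_max_left _ _).trans hm)
  have hX : 0 < Real.log m := Real.log_pos (by exact_mod_cast (by omega : 1 < m))
  have hL0 : 0 ≤ Real.log L := Real.log_nonneg (by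
    have : 3 ≤ L := (le_max_right _ _).trans ((le_max_left _ _).trans hL)
    exact_mod_cast (by omega : 1 ≤ L))
  have hpt : ∀ i, i < N → |bb (B ∩ HighT L ⌊Tt (t i) (Real.log m)⌋₊) m - D * Qt (t i)| ≤ ε / 4 := by
    intro i hi
    have h1 : Mi i ≤ ∑ i ∈ Finset.range N, Mi i :=
      Finset.single_le_sum (fun _ _ => Nat.zero_le _) (Finset.mem_range.2 hi)
    have h2 : Mi i ≤ max (max M0 3) (∑ i ∈ Finset.range N, Mi i) := h1.trans (le_max_right _ _)
    refine hMi i B D hB hD m L (h2.trans hm) (h2.trans hL) (le_trans ?_ hML)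
    apply mul_le_mul_of_nonneg_right _ hL0
    exact_mod_cast h2
  obtain ⟨D', hD', hrate⟩ := Pool.Agent.TH237.CH.rate hB
  have hDD : D' = D := tendsto_nhds_unique hD' hD
  subst hDD
  have hD0 : 0 ≤ D' := ge_of_tendsto' hD' (bb_nonneg B)
  have hD1 : D' ≤ 1 := le_of_tendsto' hD' (bb_le_one B)
  have hBm : bb B m ≤ D' + ε / 4 := by
    have h1 := hrate m (by omega)
    have h2 := hM0 m hm0
    rw [abs_le] at h1
    linarith only [h1.2, h2]
  set F : ℝ := bb (B ∩ HighT L K) m with hF
  have hF0 : 0 ≤ F := bb_nonneg _ _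
  have hFB : F ≤ bb B m := bb_inter_le _ _ _
  set s : ℝ := nrm K (Real.log m) with hs
  set c : ℝ := Qt s with hc
  have hc0 : 0 ≤ c := Qt_nonneg s
  have hc1 : c ≤ 1 := Qt_le_one s
  set i : ℕ := ⌊N * (1 - c)⌋₊ with hi
  have hNc : 0 ≤ (N : ℝ) * (1 - c) := mul_nonneg hN0.le (by linarith)
  have hi1 : (i : ℝ) / N ≤ 1 - c := by
    rw [div_le_iff₀ hN0, mul_comm]; exact Nat.floor_le hNc
  have hi2 : 1 - c < ((i : ℝ) + 1) / N := by
    rw [lt_div_iff₀ hN0, mul_comm]; exact Nat.lt_floor_add_one _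
  have hsplit : ((i : ℝ) + 1) / N = i / N + 1 / N := by ring
  have hDc : D' * (2 / N) ≤ 2 / N := mul_le_of_le_one_left (by positivity) hD1
  have h2N : 2 / (N : ℝ) = 2 * (1 / N) := by ring
  have hiN : i ≤ N := by
    have h1 : (i : ℝ) / N ≤ 1 := by linarith
    rw [div_le_one hN0] at h1
    exact_mod_cast h1
  rw [abs_le]
  constructor
  · -- lower bound
    rcases Nat.lt_or_ge (i + 1) N with h | h
    · have h1 := ht (i + 1) (by omega) h
      push_cast at h1
      have h2 : s < t (i + 1) := by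
        by_contra hcon
        push Not at hcon
        have := Qt_anti hcon
        rw [h1] at this
        linarith
      have h3 := lt_nrm hX h2
      have h4 := mono_time B L h3 m
      have h5 := (abs_le.1 (hpt (i + 1) h)).1
      rw [h1] at h5
      have h6 : D' * (c - 1 / N) ≤ D' * (1 - ((i : ℝ) + 1) / N) :=
        mul_le_mul_of_nonneg_left (by linarith only [hi1, hsplit]) hD0
      have h7 : D' * (1 / N) ≤ 1 / N := mul_le_of_le_one_left (by positivity) hD1
      linarith only [h4, h5, h6, h7, hNi, hε]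
    · have h1 : (N : ℝ) ≤ i + 1 := by exact_mod_cast h
      have h2 : 1 ≤ ((i : ℝ) + 1) / N := by rw [one_le_div hN0]; exact h1
      have h3 : c ≤ 1 / N := by linarith only [hi1, h2, hsplit]
      have h4 : D' * c ≤ c := mul_le_of_le_one_left hc0 hD1
      linarith only [h3, h4, hNi, hε, hF0]
  · -- upper bound
    rcases Nat.lt_or_ge i 2 with h | h
    · have h1 : ((i : ℝ) + 1) / N ≤ 2 / N := by
        apply div_le_div_of_nonneg_right _ hN0.le
        have : (i : ℝ) ≤ 1 := by exact_mod_cast (by omega : i ≤ 1)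
        linarith
      have h2 : D' ≤ D' * c + D' * (2 / N) := by
        have h3 : 0 ≤ D' * (c + 2 / N - 1) := mul_nonneg hD0 (by linarith only [hi2, h1])
        linarith only [h3]
      linarith only [h2, hBm, hFB, hDc, h2N, hNi, hε]
    · obtain ⟨j, hj⟩ : ∃ j, i = j + 1 := ⟨i - 1, by omega⟩
      have hjN : j < N := by omega
      have h1 := ht j (by omega) hjN
      have hij : (i : ℝ) = j + 1 := by rw [hj]; push_cast; ring
      have hij2 : (i : ℝ) / N = j / N + 1 / N := by rw [hij]; ring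
      have hp : 0 < 1 / (N : ℝ) := by positivity
      have h2 : t j < s := by
        by_contra hcon
        push Not at hcon
        have := Qt_anti hcon
        rw [h1] at this
        linarith
      have h3 := nrm_lt hX h2
      have h4 := mono_time B L h3 m
      have h5 := (abs_le.1 (hpt j hjN)).2
      rw [h1] at h5
      have h6 : D' * (1 - (j : ℝ) / N) ≤ D' * (c + 2 / N) :=
        mul_le_mul_of_nonneg_left (by linarith only [hi2, hsplit, hij2, h2N]) hD0
      linarith only [h4, h5, h6, hDc, h2N, hNi, hε]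

end Pool.Agent.H622.Ch
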