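import Mathlib
import Pool.Graph.R_seed8.W36.SL.Uni2

set_option autoImplicit false

/-! Shape of large excursions, part 1: deviations of the parity words. -/

namespace Pool.Agent.H622.Sh

open Finset Pool.Agent.Helper894.Collatz Pool.Agent.H828R3.Exc Pool.Agent.W36.SL

/-- the deviation of the number of odd steps from three quarters, times `log 3` -/
noncomputable def dv (j n : ℕ) : ℝ := ((od j n : ℝ) - 3 / 4 * j) * Real.log 3

theorem log_MM (j n : ℕ) : Real.log (MM j n) = dv j n + j * (Real.log (27 / 16) / 4) := by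
  unfold MM dv
  rw [Real.log_div (by positivity) (by positivity), Real.log_pow, Real.log_pow]
  have e : Real.log (27 / 16) = 3 * Real.log 3 - 4 * Real.log 2 := by
    rw [Real.log_div (by norm_num) (by norm_num), show (27 : ℝ) = 3 ^ 3 by norm_num,
      show (16 : ℝ) = 2 ^ 4 by norm_num, Real.log_pow, Real.log_pow]
    push_cast; ring
  rw [e]; ring

theorem dv_shift {j J : ℕ} (h : j ≤ J) (x c : ℕ) : dv j (x + 2 ^ J * c) = dv j x := by
  unfold dv; rw [od_shift_le h]

/-- the exponential moment under the tilted measure -/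
theorem moment (j : ℕ) (s : ℝ) : ∑ n ∈ range (2 ^ j), MM j n * Real.exp (s * dv j n) =
    2 ^ j * (1 / 4 * Real.exp (-(3 * (s * Real.log 3 / 4))) + 3 / 4 * Real.exp (s * Real.log 3 / 4)) ^ j := by
  have e : ∀ n ∈ range (2 ^ j), MM j n * Real.exp (s * dv j n) =
      (3 * Real.exp (s * Real.log 3)) ^ od j n * (Real.exp (-(3 / 4 * (s * Real.log 3))) / 2) ^ j := by
    intro n _
    unfold MM dv
    rw [mul_pow, ← Real.exp_nat_mul, div_pow, ← Real.exp_nat_mul]
    have e1 : s * (((od j n : ℝ) - 3 / 4 * j) * Real.log 3) =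
        (od j n : ℝ) * (s * Real.log 3) + j * (-(3 / 4 * (s * Real.log 3))) := by ring
    rw [e1, Real.exp_add]
    ring
  rw [sum_congr rfl e, ← sum_mul, sum_pow_od, ← mul_pow, ← mul_pow]
  congr 1
  set t := s * Real.log 3 / 4 with ht
  have e2 : Real.exp (s * Real.log 3) = Real.exp t * Real.exp (3 * t) := by
    rw [← Real.exp_add]; congr 1; rw [ht]; ring
  have e3 : Real.exp (-(3 / 4 * (s * Real.log 3))) = Real.exp (-(3 * t)) := by
    congr 1; rw [ht]; ring
  have e4 : Real.exp (3 * t) * Real.exp (-(3 * t)) = 1 := by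
    rw [← Real.exp_add]; simp
  rw [e2, e3]
  calc (1 + 3 * (Real.exp t * Real.exp (3 * t))) * (Real.exp (-(3 * t)) / 2)
      = Real.exp (-(3 * t)) / 2 + 3 / 2 * Real.exp t * (Real.exp (3 * t) * Real.exp (-(3 * t))) := by ring
    _ = 2 * (1 / 4 * Real.exp (-(3 * t)) + 3 / 4 * Real.exp t) := by rw [e4]; ring

theorem exp_le_aux {u : ℝ} (h : |u| ≤ 1) : Real.exp u ≤ u + Real.exp (u ^ 2) := by
  have h1 := Real.abs_exp_sub_one_sub_id_le h
  have h2 := (abs_le.1 h1).2
  have h3 := Real.add_one_le_exp (u ^ 2)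
  linarith

theorem log3_le : Real.log 3 ≤ 4 / 3 := by
  have h : Real.log 3 < Real.log (2 ^ 2) := Real.log_lt_log (by norm_num) (by norm_num)
  have h2 : (3 : ℝ) ≤ Real.exp (4 / 3) := by
    have h3 := Real.quadratic_le_exp_of_nonneg (x := 4 / 3) (by norm_num)
    linarith
  exact (Real.log_le_iff_le_exp (by norm_num)).2 h2

theorem base_le {s : ℝ} (h : |s| ≤ 1) :
    1 / 4 * Real.exp (-(3 * (s * Real.log 3 / 4))) + 3 / 4 * Real.exp (s * Real.log 3 / 4) ≤
      Real.exp (s ^ 2) := by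
  have hl3 : 0 < Real.log 3 := Real.log_pos (by norm_num)
  have hl3' := log3_le
  set t := s * Real.log 3 / 4 with ht
  have ht1 : |3 * t| ≤ 1 := by
    rw [ht, abs_le]
    rw [abs_le] at h
    constructor <;> nlinarith
  have ht2 : |-(3 * t)| ≤ 1 := by rw [abs_neg]; exact ht1
  have ht3 : |t| ≤ 1 := by
    rw [abs_le] at ht1 ⊢
    constructor <;> linarith
  have h1 := exp_le_aux ht2
  have h2 := exp_le_aux ht3
  have h3 : 9 * t ^ 2 ≤ s ^ 2 := by
    rw [ht]
    have h4 : Real.log 3 ^ 2 ≤ (4 / 3) ^ 2 := pow_le_pow_left₀ hl3.le hl3' 2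
    have h5 : 0 ≤ s ^ 2 := sq_nonneg s
    have e : 9 * (s * Real.log 3 / 4) ^ 2 = s ^ 2 * (9 / 16 * Real.log 3 ^ 2) := by ring
    rw [e]
    nlinarith
  have h4 : Real.exp ((-(3 * t)) ^ 2) ≤ Real.exp (s ^ 2) := Real.exp_le_exp.2 (by nlinarith)
  have h5 : Real.exp (t ^ 2) ≤ Real.exp (s ^ 2) := Real.exp_le_exp.2 (by nlinarith [sq_nonneg t])
  linarith

theorem moment_le (j : ℕ) {s : ℝ} (h : |s| ≤ 1) :
    ∑ n ∈ range (2 ^ j), MM j n * Real.exp (s * dv j n) ≤ 2 ^ j * Real.exp (j * s ^ 2) := by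
  rw [moment]
  apply mul_le_mul_of_nonneg_left _ (by positivity)
  rw [Real.exp_nat_mul]
  exact pow_le_pow_left₀ (by positivity) (base_le h) j

/-- the martingale property with a factor that depends on the first `j` parities -/
theorem sum_MM_fun (j d : ℕ) (f : ℕ → ℝ) (hf : ∀ x e c, f (x + 2 ^ (j + e) * c) = f x) :
    ∑ n ∈ range (2 ^ (j + d)), MM (j + d) n * f n = 2 ^ d * ∑ n ∈ range (2 ^ j), MM j n * f n := by
  induction d with
  | zero => simp
  | succ d ih =>
    rw [← add_assoc, pow_succ, mul_two, sum_range_add, ← sum_add_distrib, pow_succ, mul_comm (2 ^ d) 2,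
      mul_assoc, ← ih, mul_sum]
    apply sum_congr rfl
    intro x _
    have h1 : f (2 ^ (j + d) + x) = f x := by
      have := hf x d 1
      rwa [mul_one, add_comm] at this
    have h2 := (MM_children (j + d) x).1
    rw [add_comm (2 ^ (j + d)) x] at h1 ⊢
    rw [h1, ← add_mul, h2]
    ring

/-- large deviations followed by a large value -/
theorem card_dev {j k J : ℕ} (hjk : j ≤ k) (hkJ : k ≤ J) {h mu s : ℝ} (hmu : 0 < mu)
    (hs : 0 ≤ s) (hs1 : s ≤ 1) [DecidablePred fun n => h ≤ |dv j n| ∧ mu ≤ MM k n] :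
    (((range (2 ^ J)).filter fun n => h ≤ |dv j n| ∧ mu ≤ MM k n).card : ℝ) ≤
      2 ^ J * (2 * Real.exp (j * s ^ 2 - s * h) / mu) := by
  obtain ⟨d, rfl⟩ := Nat.exists_eq_add_of_le hjk
  obtain ⟨e, rfl⟩ := Nat.exists_eq_add_of_le hkJ
  set f : ℕ → ℝ := fun n => Real.exp (s * dv j n) + Real.exp (-s * dv j n) with hf
  have hfs : ∀ x e c, f (x + 2 ^ (j + e) * c) = f x := by
    intro x e c
    rw [hf]
    simp only
    rw [dv_shift (by omega)]
  have h1 : ∑ n ∈ range (2 ^ (j + d + e)), MM (j + d) n * f n = 2 ^ e * (2 ^ d * ∑ n ∈ range (2 ^ j), MM j n * f n) := by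
    rw [sum_block (j + d) e (fun n => MM (j + d) n * f n) (fun x c => by
      rw [MM_shift le_rfl, hfs]), sum_MM_fun j d f hfs]
  have h2 : ∑ n ∈ range (2 ^ j), MM j n * f n ≤ 2 ^ j * (2 * Real.exp (j * s ^ 2)) := by
    rw [hf]
    simp only [mul_add, sum_add_distrib]
    have a1 := moment_le j (s := s) (by rw [abs_of_nonneg hs]; exact hs1)
    have a2 := moment_le j (s := -s) (by rw [abs_neg, abs_of_nonneg hs]; exact hs1)
    rw [neg_sq] at a2
    linarith
  have h3 : (((range (2 ^ (j + d + e))).filter fun n => h ≤ |dv j n| ∧ mu ≤ MM (j + d) n).card : ℝ) *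
      (mu * Real.exp (s * h)) ≤ ∑ n ∈ range (2 ^ (j + d + e)), MM (j + d) n * f n := by
    rw [← nsmul_eq_mul]
    refine (card_nsmul_le_sum _ (fun n => MM (j + d) n * f n) _ ?_).trans ?_
    · intro n hn
      rw [mem_filter] at hn
      obtain ⟨-, hn1, hn2⟩ := hn
      apply mul_le_mul hn2 _ (Real.exp_pos _).le (MM_pos _ _).le
      rw [hf]
      simp only
      rcases le_total 0 (dv j n) with h0 | h0
      · rw [abs_of_nonneg h0] at hn1
        have := Real.exp_le_exp.2 (mul_le_mul_of_nonneg_left hn1 hs)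
        have := Real.exp_pos (-s * dv j n)
        linarith
      · rw [abs_of_nonpos h0] at hn1
        have h7 := Real.exp_le_exp.2 (mul_le_mul_of_nonneg_left hn1 hs)
        have h8 := Real.exp_pos (s * dv j n)
        have e5 : s * -dv j n = -s * dv j n := by ring
        rw [e5] at h7
        linarith
    · apply sum_le_sum_of_subset_of_nonneg (filter_subset _ _)
      intro n _ _
      have := MM_pos (j + d) n
      rw [hf]
      positivity
  have h4 : 0 < mu * Real.exp (s * h) := by positivity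
  rw [h1] at h3
  have h5 : (((range (2 ^ (j + d + e))).filter fun n => h ≤ |dv j n| ∧ mu ≤ MM (j + d) n).card : ℝ) ≤
      2 ^ e * (2 ^ d * (2 ^ j * (2 * Real.exp (j * s ^ 2)))) / (mu * Real.exp (s * h)) := by
    rw [le_div_iff₀ h4]
    refine h3.trans ?_
    apply mul_le_mul_of_nonneg_left _ (by positivity)
    exact mul_le_mul_of_nonneg_left h2 (by positivity)
  refine h5.trans (le_of_eq ?_)
  rw [Real.exp_sub, pow_add, pow_add]
  field_simp

open scoped Classical in
/-- counting a union over pairs of times -/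
theorem card_fam (K N : ℕ) (P : ℕ → ℕ → ℕ → Prop) {B : ℝ} (hB0 : 0 ≤ B)
    (hP : ∀ j k x c, j ≤ k → k ≤ K → (P j k (x + 2 ^ K * c) ↔ P j k x))
    (hB : ∀ j k, j ≤ k → k ≤ K → (((range (2 ^ K)).filter fun n => P j k n).card : ℝ) ≤ 2 ^ K * B) :
    (((range N).filter fun n => ∃ k ≤ K, ∃ j ≤ k, P j k n).card : ℝ) ≤
      (N + 2 ^ K) * ((K + 1) ^ 2 * B) := by
  have h1 := (card_periodic (M := 2 ^ K) (by positivity) (fun n => ∃ k ≤ K, ∃ j ≤ k, P j k n)
    (fun x c => by
      constructor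
      · rintro ⟨k, hk, j, hj, h⟩
        exact ⟨k, hk, j, hj, (hP j k x c hj hk).1 h⟩
      · rintro ⟨k, hk, j, hj, h⟩
        exact ⟨k, hk, j, hj, (hP j k x c hj hk).2 h⟩) N).1
  have hsub : (range (2 ^ K)).filter (fun n => ∃ k ≤ K, ∃ j ≤ k, P j k n) ⊆
      (range (K + 1)).biUnion (fun k => (range (k + 1)).biUnion fun j =>
        (range (2 ^ K)).filter fun n => P j k n) := by
    intro n hn
    rw [mem_filter] at hn
    obtain ⟨h1, k, hk, j, hj, h⟩ := hn
    rw [mem_biUnion]
    refine ⟨k, mem_range.2 (by omega), ?_⟩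
    rw [mem_biUnion]
    exact ⟨j, mem_range.2 (by omega), mem_filter.2 ⟨h1, h⟩⟩
  have h2 : (((range (2 ^ K)).filter fun n => ∃ k ≤ K, ∃ j ≤ k, P j k n).card : ℝ) ≤
      ∑ k ∈ range (K + 1), ∑ j ∈ range (k + 1),
        (((range (2 ^ K)).filter fun n => P j k n).card : ℝ) := by
    have h2 := (card_le_card hsub).trans card_biUnion_le
    have h3 := h2.trans (sum_le_sum fun k _ => card_biUnion_le)
    exact_mod_cast h3
  have h0 : 0 ≤ 2 ^ K * B := by positivity
  have h3 : ∑ k ∈ range (K + 1), ∑ j ∈ range (k + 1),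
        (((range (2 ^ K)).filter fun n => P j k n).card : ℝ) ≤ (K + 1) ^ 2 * (2 ^ K * B) := by
    have h3a : ∑ k ∈ range (K + 1), ∑ j ∈ range (k + 1),
        (((range (2 ^ K)).filter fun n => P j k n).card : ℝ)
      ≤ ∑ k ∈ range (K + 1), ∑ j ∈ range (k + 1), (2 ^ K * B) := by
        apply sum_le_sum
        intro k hk
        apply sum_le_sum
        intro j hj
        rw [mem_range] at hk hj
        exact hB j k (by omega) (by omega)
    have h3b : ∑ k ∈ range (K + 1), ∑ j ∈ range (k + 1), (2 ^ K * B)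
        ≤ ∑ k ∈ range (K + 1), ((K + 1 : ℕ) : ℝ) * (2 ^ K * B) := by
        apply sum_le_sum
        intro k hk
        rw [mem_range] at hk
        rw [sum_const, card_range, nsmul_eq_mul]
        apply mul_le_mul_of_nonneg_right _ h0
        exact_mod_cast (by omega : k + 1 ≤ K + 1)
    refine (h3a.trans h3b).trans (le_of_eq ?_)
    rw [sum_const, card_range, nsmul_eq_mul]; push_cast; ring
  have h4 := h2.trans h3
  push_cast at h1
  refine h1.trans ?_
  calc ((N : ℝ) / 2 ^ K + 1) * (((range (2 ^ K)).filter fun n => ∃ k ≤ K, ∃ j ≤ k, P j k n).card : ℝ)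
      ≤ ((N : ℝ) / 2 ^ K + 1) * ((K + 1) ^ 2 * (2 ^ K * B)) :=
        mul_le_mul_of_nonneg_left h4 (by positivity)
    _ = _ := by field_simp

/-- a deviation by `h` followed by a value `≥ mu`, within `K` steps -/
def Dev (h mu : ℝ) (K n : ℕ) : Prop := ∃ k ≤ K, ∃ j ≤ k, h ≤ |dv j n| ∧ mu ≤ MM k n

open scoped Classical in
theorem card_Dev (K N : ℕ) {h mu s : ℝ} (hmu : 0 < mu) (hs : 0 ≤ s) (hs1 : s ≤ 1) :
    (((range N).filter fun n => Dev h mu K n).card : ℝ) ≤
      (N + 2 ^ K) * ((K + 1) ^ 2 * (2 * Real.exp (K * s ^ 2 - s * h) / mu)) := by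
  have hfam := card_fam K N (fun j k n => h ≤ |dv j n| ∧ mu ≤ MM k n)
    (B := 2 * Real.exp (K * s ^ 2 - s * h) / mu) (by positivity) ?_ ?_
  · unfold Dev
    convert hfam
  · intro j k x c hj hk
    rw [dv_shift (hj.trans hk), MM_shift hk]
  · intro j k hj hk
    have hh : (((range (2 ^ K)).filter fun n => h ≤ |dv j n| ∧ mu ≤ MM k n).card : ℝ) ≤
      2 ^ K * (2 * Real.exp (j * s ^ 2 - s * h) / mu) := card_dev hj hk hmu hs hs1
    refine le_trans (le_trans (le_of_eq (by congr!)) hh) ?_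
    apply mul_le_mul_of_nonneg_left _ (by positivity)
    apply div_le_div_of_nonneg_right _ hmu.le
    apply mul_le_mul_of_nonneg_left _ (by norm_num)
    apply Real.exp_le_exp.2
    have : (j : ℝ) ≤ K := by exact_mod_cast (by omega : j ≤ K)
    have := mul_le_mul_of_nonneg_right this (sq_nonneg s)
    linarith

/-! ### deviations after a large value -/

/-- the deviation of the number of the odd steps between `k` and `j` from one half, times `log 3` -/
noncomputable def dw (k j n : ℕ) : ℝ := ((od j n : ℝ) - od k n - 1 / 2 * ((j : ℝ) - k)) * Real.log 3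

theorem log_MM_dw (k j n : ℕ) : Real.log (MM j n) =
    Real.log (MM k n) + dw k j n - ((j : ℝ) - k) * (Real.log (4 / 3) / 2) := by
  unfold MM dw
  rw [Real.log_div (by positivity) (by positivity), Real.log_pow, Real.log_pow,
    Real.log_div (by positivity) (by positivity), Real.log_pow, Real.log_pow]
  have e : Real.log (4 / 3) = 2 * Real.log 2 - Real.log 3 := by
    rw [Real.log_div (by norm_num) (by norm_num), show (4 : ℝ) = 2 ^ 2 by norm_num, Real.log_pow]
    push_cast; ring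
  rw [e]; ring

theorem dw_shift {k j J : ℕ} (hk : k ≤ J) (h : j ≤ J) (x c : ℕ) :
    dw k j (x + 2 ^ J * c) = dw k j x := by
  unfold dw; rw [od_shift_le h, od_shift_le hk]

theorem dw_succ (k j n : ℕ) : dw k (j + 1) n =
    dw k j n + (((T^[j] n % 2 : ℕ) : ℝ) - 1 / 2) * Real.log 3 := by
  unfold dw; rw [od_succ]; push_cast; ring

theorem sum_tail (k d : ℕ) (f : ℕ → ℝ) (hf : ∀ x c, f (x + 2 ^ k * c) = f x) (t : ℝ) :
    ∑ n ∈ range (2 ^ (k + d)), f n * Real.exp (t * dw k (k + d) n) =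
      (∑ n ∈ range (2 ^ k), f n) *
        (Real.exp (-(t * Real.log 3 / 2)) + Real.exp (t * Real.log 3 / 2)) ^ d := by
  induction d with
  | zero =>
    simp only [add_zero, pow_zero, mul_one]
    apply sum_congr rfl
    intro n _
    have : dw k k n = 0 := by unfold dw; ring
    rw [this]; simp
  | succ d ih =>
    rw [← add_assoc, pow_succ 2, mul_two, sum_range_add, ← sum_add_distrib, pow_succ _ d, ← mul_assoc,
      ← ih, sum_mul]
    apply sum_congr rfl
    intro x _
    have h1 : f (2 ^ (k + d) + x) = f x := by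
      have := hf x (2 ^ d)
      rwa [← pow_add, add_comm] at this
    have h2 : dw k (k + d) (x + 2 ^ (k + d)) = dw k (k + d) x := by
      have := dw_shift (show k ≤ k + d by omega) (le_refl (k + d)) x 1
      rwa [mul_one] at this
    have h3 : T^[k + d] (x + 2 ^ (k + d)) % 2 = 1 - T^[k + d] x % 2 := flip_parity (k + d) x
    rw [add_comm (2 ^ (k + d)) x] at h1 ⊢
    rw [h1, dw_succ, dw_succ, h2, h3]
    rcases Nat.mod_two_eq_zero_or_one (T^[k + d] x) with h | h
    · rw [h]
      have e1 : t * (dw k (k + d) x + (((0 : ℕ) : ℝ) - 1 / 2) * Real.log 3) =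
          t * dw k (k + d) x + -(t * Real.log 3 / 2) := by push_cast; ring
      have e2 : t * (dw k (k + d) x + (((1 - 0 : ℕ) : ℝ) - 1 / 2) * Real.log 3) =
          t * dw k (k + d) x + t * Real.log 3 / 2 := by push_cast; ring
      rw [e1, e2, Real.exp_add, Real.exp_add]
      ring
    · rw [h]
      have e1 : t * (dw k (k + d) x + (((1 : ℕ) : ℝ) - 1 / 2) * Real.log 3) =
          t * dw k (k + d) x + t * Real.log 3 / 2 := by push_cast; ring
      have e2 : t * (dw k (k + d) x + (((1 - 1 : ℕ) : ℝ) - 1 / 2) * Real.log 3) =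
          t * dw k (k + d) x + -(t * Real.log 3 / 2) := by push_cast; ring
      rw [e1, e2, Real.exp_add, Real.exp_add]
      ring

theorem cosh_le {t : ℝ} : Real.exp (-(t * Real.log 3 / 2)) + Real.exp (t * Real.log 3 / 2) ≤
    2 * Real.exp (t ^ 2) := by
  have h1 := Real.cosh_le_exp_half_sq (t * Real.log 3 / 2)
  rw [Real.cosh_eq] at h1
  have h2 : (t * Real.log 3 / 2) ^ 2 / 2 ≤ t ^ 2 := by
    have hl3 : 0 < Real.log 3 := Real.log_pos (by norm_num)
    have h4 : Real.log 3 ^ 2 ≤ (4 / 3) ^ 2 := pow_le_pow_left₀ hl3.le log3_le 2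
    have h5 : 0 ≤ t ^ 2 := sq_nonneg t
    have e : (t * Real.log 3 / 2) ^ 2 / 2 = t ^ 2 * (Real.log 3 ^ 2 / 8) := by ring
    rw [e]
    nlinarith
  have h3 := Real.exp_le_exp.2 h2
  linarith

/-- large values followed by large deviations -/
theorem card_dw {k j J : ℕ} (hkj : k ≤ j) (hjJ : j ≤ J) {h mu s : ℝ} (hmu : 0 < mu)
    (hs : 0 ≤ s) [DecidablePred fun n => mu ≤ MM k n ∧ h ≤ |dw k j n|] :
    (((range (2 ^ J)).filter fun n => mu ≤ MM k n ∧ h ≤ |dw k j n|).card : ℝ) ≤
      2 ^ J * (2 * Real.exp (j * s ^ 2 - s * h) / mu) := by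
  obtain ⟨d, rfl⟩ := Nat.exists_eq_add_of_le hkj
  obtain ⟨e, rfl⟩ := Nat.exists_eq_add_of_le hjJ
  set g : ℕ → ℝ := fun n => MM k n * Real.exp (s * dw k (k + d) n) +
    MM k n * Real.exp (-s * dw k (k + d) n) with hg
  have hgs : ∀ x c, g (x + 2 ^ (k + d) * c) = g x := by
    intro x c
    rw [hg]
    simp only
    rw [dw_shift (by omega) le_rfl, MM_shift (by omega)]
  have h1 : ∑ n ∈ range (2 ^ (k + d + e)), g n = 2 ^ e * ∑ n ∈ range (2 ^ (k + d)), g n :=
    sum_block (k + d) e g hgs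
  have hMM : ∑ n ∈ range (2 ^ k), MM k n = 2 ^ k := by
    have := moment k 0
    simpa [show (1 : ℝ) / 4 + 3 / 4 = 1 by norm_num, show (4 : ℝ)⁻¹ + 3 / 4 = 1 by norm_num] using this
  have h2 : ∑ n ∈ range (2 ^ (k + d)), g n ≤ 2 ^ (k + d) * (2 * Real.exp (((k + d : ℕ) : ℝ) * s ^ 2)) := by
    rw [hg]
    simp only [sum_add_distrib]
    have a1 := sum_tail k d (MM k) (fun x c => MM_shift le_rfl x c) s
    have a2 := sum_tail k d (MM k) (fun x c => MM_shift le_rfl x c) (-s)
    rw [a1, a2, hMM]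
    have b1 : (Real.exp (-(s * Real.log 3 / 2)) + Real.exp (s * Real.log 3 / 2)) ^ d ≤
        (2 * Real.exp (s ^ 2)) ^ d := pow_le_pow_left₀ (by positivity) cosh_le d
    have b2 : (Real.exp (-(-s * Real.log 3 / 2)) + Real.exp (-s * Real.log 3 / 2)) ^ d ≤
        (2 * Real.exp ((-s) ^ 2)) ^ d := pow_le_pow_left₀ (by positivity) cosh_le d
    rw [neg_sq] at b2
    have b3 : (2 * Real.exp (s ^ 2)) ^ d ≤ 2 ^ d * Real.exp (((k + d : ℕ) : ℝ) * s ^ 2) := by
      rw [mul_pow, ← Real.exp_nat_mul]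
      apply mul_le_mul_of_nonneg_left _ (by positivity)
      apply Real.exp_le_exp.2
      apply mul_le_mul_of_nonneg_right _ (sq_nonneg s)
      push_cast
      have : (0 : ℝ) ≤ k := Nat.cast_nonneg k
      linarith
    have hk0 : (0 : ℝ) < 2 ^ k := by positivity
    calc (2 : ℝ) ^ k * (Real.exp (-(s * Real.log 3 / 2)) + Real.exp (s * Real.log 3 / 2)) ^ d +
        2 ^ k * (Real.exp (-(-s * Real.log 3 / 2)) + Real.exp (-s * Real.log 3 / 2)) ^ d
        ≤ 2 ^ k * (2 ^ d * Real.exp (((k + d : ℕ) : ℝ) * s ^ 2)) +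
          2 ^ k * (2 ^ d * Real.exp (((k + d : ℕ) : ℝ) * s ^ 2)) :=
          add_le_add (mul_le_mul_of_nonneg_left (b1.trans b3) hk0.le)
            (mul_le_mul_of_nonneg_left (b2.trans b3) hk0.le)
      _ = _ := by rw [pow_add]; ring
  have h3 : (((range (2 ^ (k + d + e))).filter fun n => mu ≤ MM k n ∧ h ≤ |dw k (k + d) n|).card : ℝ) *
      (mu * Real.exp (s * h)) ≤ ∑ n ∈ range (2 ^ (k + d + e)), g n := by
    rw [← nsmul_eq_mul]
    refine (card_nsmul_le_sum _ g _ ?_).trans ?_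
    · intro n hn
      rw [mem_filter] at hn
      obtain ⟨-, hn2, hn1⟩ := hn
      rw [hg]
      simp only
      rw [← mul_add]
      apply mul_le_mul hn2 _ (Real.exp_pos _).le (MM_pos _ _).le
      rcases le_total 0 (dw k (k + d) n) with h0 | h0
      · rw [abs_of_nonneg h0] at hn1
        have := Real.exp_le_exp.2 (mul_le_mul_of_nonneg_left hn1 hs)
        have := Real.exp_pos (-s * dw k (k + d) n)
        linarith
      · rw [abs_of_nonpos h0] at hn1
        have h7 := Real.exp_le_exp.2 (mul_le_mul_of_nonneg_left hn1 hs)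
        have h8 := Real.exp_pos (s * dw k (k + d) n)
        have e5 : s * -dw k (k + d) n = -s * dw k (k + d) n := by ring
        rw [e5] at h7
        linarith
    · apply sum_le_sum_of_subset_of_nonneg (filter_subset _ _)
      intro n _ _
      have := MM_pos k n
      positivity
  have h4 : 0 < mu * Real.exp (s * h) := by positivity
  rw [h1] at h3
  have h5 : (((range (2 ^ (k + d + e))).filter fun n => mu ≤ MM k n ∧ h ≤ |dw k (k + d) n|).card : ℝ) ≤
      2 ^ e * (2 ^ (k + d) * (2 * Real.exp (((k + d : ℕ) : ℝ) * s ^ 2))) / (mu * Real.exp (s * h)) := by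
    rw [le_div_iff₀ h4]
    refine h3.trans ?_
    exact mul_le_mul_of_nonneg_left h2 (by positivity)
  refine h5.trans (le_of_eq ?_)
  rw [Real.exp_sub, pow_add _ (k + d)]
  field_simp

/-- a value `≥ mu` followed by a deviation by `h`, within `K` steps -/
def Dev2 (h mu : ℝ) (K n : ℕ) : Prop := ∃ j ≤ K, ∃ k ≤ j, mu ≤ MM k n ∧ h ≤ |dw k j n|

open scoped Classical in
theorem card_Dev2 (K N : ℕ) {h mu s : ℝ} (hmu : 0 < mu) (hs : 0 ≤ s) :
    (((range N).filter fun n => Dev2 h mu K n).card : ℝ) ≤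
      (N + 2 ^ K) * ((K + 1) ^ 2 * (2 * Real.exp (K * s ^ 2 - s * h) / mu)) := by
  have hfam := card_fam K N (fun k j n => mu ≤ MM k n ∧ h ≤ |dw k j n|)
    (B := 2 * Real.exp (K * s ^ 2 - s * h) / mu) (by positivity) ?_ ?_
  · unfold Dev2
    convert hfam
  · intro j k x c hj hk
    rw [dw_shift (hj.trans hk) hk, MM_shift (hj.trans hk)]
  · intro j k hj hk
    have hh : (((range (2 ^ K)).filter fun n => mu ≤ MM j n ∧ h ≤ |dw j k n|).card : ℝ) ≤
      2 ^ K * (2 * Real.exp (k * s ^ 2 - s * h) / mu) := card_dw hj hk hmu hs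
    refine le_trans (le_trans (le_of_eq (by congr!)) hh) ?_
    apply mul_le_mul_of_nonneg_left _ (by positivity)
    apply div_le_div_of_nonneg_right _ hmu.le
    apply mul_le_mul_of_nonneg_left _ (by norm_num)
    apply Real.exp_le_exp.2
    have : (k : ℝ) ≤ K := by exact_mod_cast hk
    have := mul_le_mul_of_nonneg_right this (sq_nonneg s)
    linarith

end Pool.Agent.H622.Sh
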