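import Mathlib
import Pool.Agent.H622.Sh1

set_option autoImplicit false

/-! The law of the parities given a large excursion, part 1: words. -/

namespace Pool.Agent.H622.Gb

open Finset Filter Topology Pool.Agent.Helper894.Collatz Pool.Agent.H828R3.Exc Pool.Agent.W36.SL
  Pool.Agent.H622.Sh

theorem MM_pair (k x : ℕ) :
    (MM (k + 1) x = 3 / 2 * MM k x ∧ MM (k + 1) (x + 2 ^ k) = 1 / 2 * MM k x) ∨
    (MM (k + 1) x = 1 / 2 * MM k x ∧ MM (k + 1) (x + 2 ^ k) = 3 / 2 * MM k x) := by
  have h1 : MM k (x + 2 ^ k) = MM k x := by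
    have := MM_shift (le_refl k) x 1
    rwa [mul_one] at this
  have h3 : T^[k] (x + 2 ^ k) % 2 = 1 - T^[k] x % 2 := flip_parity k x
  rw [MM_succ, MM_succ, h1, h3]
  rcases Nat.mod_two_eq_zero_or_one (T^[k] x) with h | h
  · right
    rw [h, if_pos rfl, if_neg (by norm_num)]
    constructor <;> ring
  · left
    rw [h, if_neg (by norm_num), if_pos (by norm_num)]
    constructor <;> ring

open scoped Classical in
/-- the number of continuations which exceed `lam` -/
theorem sum_cont (lam : ℝ) (d : ℕ) : ∀ (k : ℕ) (f : ℕ → ℝ), (∀ x c, f (x + 2 ^ k * c) = f x) →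
    ∑ n ∈ range (2 ^ (k + d)), (if ∃ j ≤ d, lam ≤ MM (k + j) n then f n else 0) =
      2 ^ d * ∑ n ∈ range (2 ^ k), f n * (1 - s d (lam / MM k n)) := by
  induction d with
  | zero =>
    intro k f _
    simp only [add_zero, pow_zero, one_mul, nonpos_iff_eq_zero, exists_eq_left]
    apply sum_congr rfl
    intro n _
    have hM := MM_pos k n
    by_cases h : lam ≤ MM k n
    · rw [if_pos h, s_zero_of_le _ (by rwa [div_le_one hM])]; ring
    · have h1 : 1 < lam / MM k n := by rw [one_lt_div hM]; exact not_le.1 h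
      rw [if_neg h]
      simp [s, h1]
  | succ d ih =>
    intro k f hf
    set g : ℕ → ℝ := fun n => if lam ≤ MM k n then f n else 0 with hg
    set f' : ℕ → ℝ := fun n => if lam ≤ MM k n then 0 else f n with hf'
    have hgs : ∀ x c, g (x + 2 ^ k * c) = g x := by
      intro x c; simp only [hg, hf, MM_shift le_rfl]
    have hf's : ∀ x c, f' (x + 2 ^ k * c) = f' x := by
      intro x c; simp only [hf', hf, MM_shift le_rfl]
    have hf's2 : ∀ x c, f' (x + 2 ^ (k + 1) * c) = f' x := by
      intro x c
      rw [pow_succ, mul_assoc]; exact hf's x _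
    have hsplit : ∀ n, (if ∃ j ≤ d + 1, lam ≤ MM (k + j) n then f n else 0) =
        g n + (if ∃ j ≤ d, lam ≤ MM (k + 1 + j) n then f' n else 0) := by
      intro n
      by_cases h : lam ≤ MM k n
      · have h1 : ∃ j ≤ d + 1, lam ≤ MM (k + j) n := ⟨0, by omega, by simpa using h⟩
        rw [if_pos h1]
        simp [hg, hf', h]
      · have h2 : (∃ j ≤ d + 1, lam ≤ MM (k + j) n) ↔ ∃ j ≤ d, lam ≤ MM (k + 1 + j) n := by
          constructor
          · rintro ⟨j, hj, h3⟩
            rcases j with _ | j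
            · exact absurd (by simpa using h3) h
            · exact ⟨j, by omega, by rwa [show k + 1 + j = k + (j + 1) by ring]⟩
          · rintro ⟨j, hj, h3⟩
            exact ⟨j + 1, by omega, by rwa [show k + (j + 1) = k + 1 + j by ring]⟩
        simp only [h2, hg, hf', if_neg h, zero_add]
    rw [sum_congr rfl fun n _ => hsplit n, sum_add_distrib, sum_block k (d + 1) g hgs,
      show k + (d + 1) = k + 1 + d by ring, ih (k + 1) f' hf's2, pow_succ 2 k, mul_two, sum_range_add,
      ← sum_add_distrib, pow_succ 2 d, mul_assoc (2 ^ d) 2, ← mul_add, mul_assoc (2 ^ d) 2]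
    congr 1
    rw [mul_sum, mul_sum, ← sum_add_distrib]
    apply sum_congr rfl
    intro x _
    rw [add_comm (2 ^ k) x]
    have hM := MM_pos k x
    have h1 : f' (x + 2 ^ k) = f' x := by
      have := hf's x 1
      rwa [mul_one] at this
    rw [h1]
    by_cases h : lam ≤ MM k x
    · rw [s_zero_of_le (d + 1) (by rwa [div_le_one hM])]
      simp [hg, hf', h]
    · have h2 : 1 < lam / MM k x := by rw [one_lt_div hM]; exact not_le.1 h
      have e1 : lam / (3 / 2 * MM k x) = 2 * (lam / MM k x) / 3 := by field_simp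
      have e2 : lam / (1 / 2 * MM k x) = 2 * (lam / MM k x) := by field_simp
      rw [s_succ d h2]
      simp only [hg, hf', if_neg h, mul_zero, zero_add]
      rcases MM_pair k x with ⟨a1, a2⟩ | ⟨a1, a2⟩
      · rw [a1, a2, e1, e2]; ring
      · rw [a1, a2, e1, e2]; ring

/-- the mass -/
theorem sum_MM_ind' (k d : ℕ) (D : ℕ → Prop) [DecidablePred D] (hD : ∀ x c, D (x + 2 ^ k * c) ↔ D x) :
    ∑ n ∈ range (2 ^ (k + d)), (if D n then MM (k + d) n else 0) =
      2 ^ d * ∑ n ∈ range (2 ^ k), (if D n then MM k n else 0) := by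
  have h := sum_MM_fun k d (fun n => if D n then 1 else 0) (by
    intro x e c
    rw [pow_add, mul_assoc, if_congr (hD x (2 ^ e * c)) rfl rfl])
  simp only [mul_ite, mul_one, mul_zero] at h
  exact h

end Pool.Agent.H622.Gb
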