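import Mathlib
import Pool.Agent.H622.Gb1

set_option autoImplicit false

/-! The law of the parities given a large excursion, part 2: cross sections. -/

namespace Pool.Agent.H622.Gb

open Finset Filter Topology Pool.Agent.Helper894.Collatz Pool.Agent.H828R3.Exc Pool.Agent.W36.SL
  Pool.Agent.H622.Sh

/-- a family of sets of parity words, no one a prefix of another one -/
structure Cross (D : ℕ → ℕ → Prop) : Prop where
  per : ∀ k x c, D k (x + 2 ^ k * c) ↔ D k x
  uniq : ∀ n k k', D k n → D k' n → k = k'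

theorem sum_MM (m : ℕ) : ∑ n ∈ range (2 ^ m), MM m n = 2 ^ m := by
  have := moment m 0
  simpa [show (1 : ℝ) / 4 + 3 / 4 = 1 by norm_num, show (4 : ℝ)⁻¹ + 3 / 4 = 1 by norm_num] using this

open scoped Classical in
/-- the mass of the words of length `k` -/
noncomputable def w (D : ℕ → ℕ → Prop) (k : ℕ) : ℝ :=
  (∑ r ∈ range (2 ^ k), if D k r then MM k r else 0) / 2 ^ k

open scoped Classical in
/-- the number of the words of length `k`, divided by `2 ^ k` -/
noncomputable def u (D : ℕ → ℕ → Prop) (k : ℕ) : ℝ :=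
  (∑ r ∈ range (2 ^ k), if D k r then (1 : ℝ) else 0) / 2 ^ k

noncomputable def W (D : ℕ → ℕ → Prop) (m : ℕ) : ℝ := ∑ k ∈ range (m + 1), w D k

theorem w_nonneg (D : ℕ → ℕ → Prop) (k : ℕ) : 0 ≤ w D k := by
  unfold w
  apply div_nonneg _ (by positivity)
  apply sum_nonneg
  intro r _
  split_ifs
  · exact (MM_pos _ _).le
  · exact le_rfl

theorem W_nonneg (D : ℕ → ℕ → Prop) (m : ℕ) : 0 ≤ W D m := sum_nonneg fun k _ => w_nonneg D k

open scoped Classical in
theorem ite_exists {D : ℕ → ℕ → Prop} (hD : Cross D) (m n : ℕ) (v : ℝ) :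
    (if ∃ k ≤ m, D k n then v else 0) = ∑ k ∈ range (m + 1), if D k n then v else 0 := by
  by_cases h : ∃ k ≤ m, D k n
  · rw [if_pos h]
    obtain ⟨k, hk, hkn⟩ := h
    rw [sum_eq_single k]
    · rw [if_pos hkn]
    · intro k' _ hne
      rw [if_neg]
      intro h'
      exact hne (hD.uniq n k' k h' hkn)
    · intro h'
      exact absurd (mem_range.2 (by omega)) h'
  · rw [if_neg h]
    symm
    apply sum_eq_zero
    intro k hk
    rw [mem_range] at hk
    rw [if_neg]
    intro h'
    exact h ⟨k, by omega, h'⟩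

theorem per_add {D : ℕ → ℕ → Prop} (hD : Cross D) (k e x c : ℕ) :
    D k (x + 2 ^ (k + e) * c) ↔ D k x := by
  rw [pow_add, mul_assoc]; exact hD.per k x _

open scoped Classical in
theorem w_eq {D : ℕ → ℕ → Prop} (hD : Cross D) {k m : ℕ} (h : k ≤ m) :
    (∑ n ∈ range (2 ^ m), if D k n then MM m n else 0) = 2 ^ m * w D k := by
  obtain ⟨d, rfl⟩ := Nat.exists_eq_add_of_le h
  rw [sum_MM_ind' k d (D k) (hD.per k)]
  unfold w
  rw [pow_add]
  field_simp

open scoped Classical in
theorem u_eq {D : ℕ → ℕ → Prop} (hD : Cross D) {k m : ℕ} (h : k ≤ m) :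
    (∑ n ∈ range (2 ^ m), if D k n then (1 : ℝ) else 0) = 2 ^ m * u D k := by
  obtain ⟨d, rfl⟩ := Nat.exists_eq_add_of_le h
  rw [sum_block k d (fun n => if D k n then (1 : ℝ) else 0) (fun x c => if_congr (hD.per k x c) rfl rfl)]
  unfold u
  rw [pow_add]
  field_simp

open scoped Classical in
theorem W_eq {D : ℕ → ℕ → Prop} (hD : Cross D) (m : ℕ) :
    (∑ n ∈ range (2 ^ m), if ∃ k ≤ m, D k n then MM m n else 0) = 2 ^ m * W D m := by
  rw [sum_congr rfl fun n _ => ite_exists hD m n (MM m n), sum_comm]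
  unfold W
  rw [mul_sum]
  apply sum_congr rfl
  intro k hk
  rw [mem_range] at hk
  exact w_eq hD (by omega)

theorem W_le_one {D : ℕ → ℕ → Prop} (hD : Cross D) (m : ℕ) : W D m ≤ 1 := by
  classical
  have h := W_eq hD m
  have h2 : (∑ n ∈ range (2 ^ m), if ∃ k ≤ m, D k n then MM m n else 0) ≤ ∑ n ∈ range (2 ^ m), MM m n := by
    apply sum_le_sum
    intro n _
    split_ifs
    · exact le_rfl
    · exact (MM_pos _ _).le
  rw [h, sum_MM] at h2
  have h3 : (0 : ℝ) < 2 ^ m := by positivity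
  nlinarith

theorem U_le_one {D : ℕ → ℕ → Prop} (hD : Cross D) (m : ℕ) : ∑ k ∈ range (m + 1), u D k ≤ 1 := by
  classical
  have h : (∑ n ∈ range (2 ^ m), if ∃ k ≤ m, D k n then (1 : ℝ) else 0) =
      2 ^ m * ∑ k ∈ range (m + 1), u D k := by
    rw [sum_congr rfl fun n _ => ite_exists hD m n 1, sum_comm, mul_sum]
    apply sum_congr rfl
    intro k hk
    rw [mem_range] at hk
    exact u_eq hD (by omega)
  have h2 : (∑ n ∈ range (2 ^ m), if ∃ k ≤ m, D k n then (1 : ℝ) else 0) ≤ ∑ n ∈ range (2 ^ m), 1 := by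
    apply sum_le_sum
    intro n _
    split_ifs <;> norm_num
  rw [h, sum_const, card_range, nsmul_eq_mul, mul_one] at h2
  push_cast at h2
  have h3 : (0 : ℝ) < 2 ^ m := by positivity
  nlinarith

/-- one of the words, continued to a value `≥ lam` -/
def Q (D : ℕ → ℕ → Prop) (lam : ℝ) (m J n : ℕ) : Prop :=
  ∃ k ≤ m, D k n ∧ ∃ j, k ≤ j ∧ j ≤ J ∧ lam ≤ MM j n

open scoped Classical in
theorem sum_Q {D : ℕ → ℕ → Prop} (hD : Cross D) (lam : ℝ) {m J : ℕ} (hm : m ≤ J) :
    (((range (2 ^ J)).filter fun n => Q D lam m J n).card : ℝ) =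
      ∑ k ∈ range (m + 1), 2 ^ J * ((∑ r ∈ range (2 ^ k),
        (if D k r then 1 - s (J - k) (lam / MM k r) else 0)) / 2 ^ k) := by
  set D' : ℕ → ℕ → Prop := fun k n => D k n ∧ ∃ j, k ≤ j ∧ j ≤ J ∧ lam ≤ MM j n with hD'
  have h1 : (((range (2 ^ J)).filter fun n => Q D lam m J n).card : ℝ) =
      ∑ n ∈ range (2 ^ J), if Q D lam m J n then (1 : ℝ) else 0 := by
    rw [sum_ite, sum_const_zero, add_zero, sum_const, nsmul_eq_mul, mul_one]
  rw [h1]
  have h2 : ∀ n ∈ range (2 ^ J), (if Q D lam m J n then (1 : ℝ) else 0) =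
      ∑ k ∈ range (m + 1), if D' k n then (1 : ℝ) else 0 := by
    intro n _
    by_cases h : Q D lam m J n
    · rw [if_pos h]
      obtain ⟨k, hk, hkn⟩ := h
      rw [sum_eq_single k]
      · rw [if_pos hkn]
      · intro k' _ hne
        rw [if_neg]
        rintro ⟨h', -⟩
        exact hne (hD.uniq n k' k h' hkn.1)
      · intro h'
        exact absurd (mem_range.2 (by omega)) h'
    · rw [if_neg h]
      symm
      apply sum_eq_zero
      intro k hk
      rw [mem_range] at hk
      rw [if_neg]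
      intro h'
      exact h ⟨k, by omega, h'⟩
  rw [sum_congr rfl h2, sum_comm]
  apply sum_congr rfl
  intro k hk
  rw [mem_range] at hk
  obtain ⟨d, hd⟩ := Nat.exists_eq_add_of_le (show k ≤ J by omega)
  have h3 := sum_cont lam d k (fun n => if D k n then (1 : ℝ) else 0)
    (fun x c => if_congr (hD.per k x c) rfl rfl)
  have h4 : ∑ n ∈ range (2 ^ J), (if D' k n then (1 : ℝ) else 0) =
      ∑ n ∈ range (2 ^ (k + d)), (if ∃ j ≤ d, lam ≤ MM (k + j) n then
        (if D k n then (1 : ℝ) else 0) else 0) := by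
    have hr : range (2 ^ J) = range (2 ^ (k + d)) := by rw [hd]
    rw [hr]
    apply sum_congr rfl
    intro n _
    have h5 : D' k n ↔ (∃ j ≤ d, lam ≤ MM (k + j) n) ∧ D k n := by
      rw [hD']
      constructor
      · rintro ⟨a1, j, a2, a3, a4⟩
        refine ⟨⟨j - k, by omega, ?_⟩, a1⟩
        rwa [show k + (j - k) = j by omega]
      · rintro ⟨⟨j, a2, a3⟩, a1⟩
        exact ⟨a1, k + j, by omega, by omega, a3⟩
    rw [← ite_and]
    exact if_congr h5 rfl rfl
  rw [h4, h3, show J - k = d by omega, hd, pow_add]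
  have h6 : ∀ r ∈ range (2 ^ k), (if D k r then (1 : ℝ) else 0) * (1 - s d (lam / MM k r)) =
      if D k r then 1 - s d (lam / MM k r) else 0 := by
    intro r _
    split_ifs <;> ring
  rw [sum_congr rfl h6]
  field_simp

/-- the lower bound for the number of words -/
theorem card_Q {D : ℕ → ℕ → Prop} (hD : Cross D) {lam e L0 : ℝ} (hlam : 0 < lam) {m J : ℕ}
    (hm : m ≤ J)
    (hp : ∀ z, L0 ≤ z → (C - e) / z ≤ p z)
    (hDs : ∀ k ≤ m, ∀ n, D k n → L0 * MM k n ≤ lam) [DecidablePred fun n => Q D lam m J n] :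
    2 ^ J * ((C - e) / lam * W D m - 2 * b ^ (J - m) / Real.sqrt lam) ≤
      (((range (2 ^ J)).filter fun n => Q D lam m J n).card : ℝ) := by
  classical
  have hb0 := b_pos
  have hsq : 0 < Real.sqrt lam := Real.sqrt_pos.2 hlam
  have key : ∀ k ∈ range (m + 1), 2 ^ J * ((C - e) / lam * w D k -
      b ^ (J - m) / Real.sqrt lam * (w D k + u D k)) ≤
      2 ^ J * ((∑ r ∈ range (2 ^ k), (if D k r then 1 - s (J - k) (lam / MM k r) else 0)) / 2 ^ k) := by
    intro k hk
    rw [mem_range] at hk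
    apply mul_le_mul_of_nonneg_left _ (by positivity)
    unfold w u
    rw [le_div_iff₀ (by positivity)]
    have e1 : ((C - e) / lam * ((∑ r ∈ range (2 ^ k), if D k r then MM k r else 0) / 2 ^ k) -
        b ^ (J - m) / Real.sqrt lam * ((∑ r ∈ range (2 ^ k), if D k r then MM k r else 0) / 2 ^ k +
        (∑ r ∈ range (2 ^ k), if D k r then (1 : ℝ) else 0) / 2 ^ k)) * 2 ^ k =
        ∑ r ∈ range (2 ^ k), ((C - e) / lam * (if D k r then MM k r else 0) -
          b ^ (J - m) / Real.sqrt lam * ((if D k r then MM k r else 0) + (if D k r then (1 : ℝ) else 0))) := by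
      rw [sum_sub_distrib, ← mul_sum, ← mul_sum, sum_add_distrib]
      field_simp
    rw [e1]
    apply sum_le_sum
    intro r _
    by_cases h : D k r
    swap
    · rw [if_neg h, if_neg h, if_neg h]; simp
    rw [if_pos h, if_pos h, if_pos h]
    have hM := MM_pos k r
    have hz0 : 0 < lam / MM k r := by positivity
    have hz : L0 ≤ lam / MM k r := by
      rw [le_div_iff₀ hM]; exact hDs k (by omega) r h
    have h1 := hp _ hz
    have h2 := s_sub_q (J - k) (lam / MM k r) hz0
    unfold p at h1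
    have h3 : (C - e) / (lam / MM k r) = (C - e) / lam * MM k r := by field_simp
    have h4 : b ^ (J - k) / Real.sqrt (lam / MM k r) ≤
        b ^ (J - m) / Real.sqrt lam * (MM k r + 1) := by
      have h5 : b ^ (J - k) ≤ b ^ (J - m) := pow_le_pow_of_le_one hb0.le b_lt_one.le (by omega)
      have h6 : Real.sqrt (MM k r) ≤ MM k r + 1 := by
        rw [Real.sqrt_le_left (by positivity)]
        nlinarith
      rw [Real.sqrt_div hlam.le]
      calc b ^ (J - k) / (Real.sqrt lam / Real.sqrt (MM k r))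
          = b ^ (J - k) / Real.sqrt lam * Real.sqrt (MM k r) := by
            have := Real.sqrt_pos.2 hM
            field_simp
        _ ≤ b ^ (J - m) / Real.sqrt lam * (MM k r + 1) := by
            apply mul_le_mul _ h6 (Real.sqrt_nonneg _) (by positivity)
            exact div_le_div_of_nonneg_right h5 hsq.le
    rw [h3] at h1
    linarith
  have h := sum_le_sum key
  have hQ := sum_Q hD lam hm
  have e2 : ∑ k ∈ range (m + 1), 2 ^ J * ((C - e) / lam * w D k -
      b ^ (J - m) / Real.sqrt lam * (w D k + u D k)) = 2 ^ J * ((C - e) / lam * W D m -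
      b ^ (J - m) / Real.sqrt lam * (W D m + ∑ k ∈ range (m + 1), u D k)) := by
    unfold W
    rw [← mul_sum, sum_sub_distrib, ← mul_sum, ← mul_sum, sum_add_distrib]
  rw [e2] at h
  have h7 : (2 : ℝ) ^ J * ((C - e) / lam * W D m - 2 * b ^ (J - m) / Real.sqrt lam) ≤
      2 ^ J * ((C - e) / lam * W D m -
      b ^ (J - m) / Real.sqrt lam * (W D m + ∑ k ∈ range (m + 1), u D k)) := by
    apply mul_le_mul_of_nonneg_left _ (by positivity)
    have h8 := W_le_one hD m
    have h9 := U_le_one hD m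
    have h10 : 0 ≤ b ^ (J - m) / Real.sqrt lam := by positivity
    have h11 : b ^ (J - m) / Real.sqrt lam * (W D m + ∑ k ∈ range (m + 1), u D k) ≤
        b ^ (J - m) / Real.sqrt lam * 2 := mul_le_mul_of_nonneg_left (by linarith) h10
    have h12 : 2 * b ^ (J - m) / Real.sqrt lam = b ^ (J - m) / Real.sqrt lam * 2 := by ring
    rw [h12]
    linarith
  refine h7.trans (h.trans (le_of_eq ?_))
  rw [← hQ]
  congr!

end Pool.Agent.H622.Gb
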