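import Mathlib
import Pool.Agent.H622.Gb2

set_option autoImplicit false

/-! The law of the parities given a large excursion, part 3: the lower bound. -/

namespace Pool.Agent.H622.Gb

open Finset Filter Topology Pool.Agent.Helper894.Collatz Pool.Agent.H828R3.Exc Pool.Agent.W36.SL
  Pool.Agent.H622.Sh

theorem Q_shift {D : ℕ → ℕ → Prop} (hD : Cross D) (lam : ℝ) {m J : ℕ} (hm : m ≤ J) (x c : ℕ) :
    Q D lam m J (x + 2 ^ J * c) ↔ Q D lam m J x := by
  have hper : ∀ k ≤ m, (D k (x + 2 ^ J * c) ↔ D k x) := by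
    intro k hk
    obtain ⟨d, hd⟩ := Nat.exists_eq_add_of_le (hk.trans hm)
    rw [hd]; exact per_add hD k d x c
  unfold Q
  constructor
  · rintro ⟨k, hk, h, j, hj1, hj2, hj3⟩
    exact ⟨k, hk, (hper k hk).1 h, j, hj1, hj2, by rwa [MM_shift hj2] at hj3⟩
  · rintro ⟨k, hk, h, j, hj1, hj2, hj3⟩
    exact ⟨k, hk, (hper k hk).2 h, j, hj1, hj2, by rwa [MM_shift hj2]⟩

open scoped Classical in
theorem cross_fin {D : ℕ → ℕ → Prop} (hD : Cross D) {lam lam2 Y e L0 : ℝ} {N N0 m J : ℕ}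
    (hlam : 0 < lam) (hl : lam < lam2) (hN0 : 0 < N0) (hY0 : 0 ≤ Y) (hm : m ≤ J) (hJN : 2 ^ J ≤ N + 1)
    (hp : ∀ z, L0 ≤ z → (C - e) / z ≤ p z)
    (hDs : ∀ k ≤ m, ∀ n, D k n → L0 * MM k n ≤ lam2) :
    ((N : ℝ) + 1 - 2 ^ J) * ((C - e) / lam2 * W D m - 2 * b ^ (J - m) / Real.sqrt lam2) -
      (N0 + 1 + 2 ^ J) / lam2 - (N + 1 + 2 ^ J) * ((J + 1) ^ 2 * ((Y / N0) / lam2)) ≤
      (((Icc 1 N).filter fun n => Exc lam Y n ∧ ∃ k ≤ m, D k n).card : ℝ) := by
  have hN0R : (0 : ℝ) < N0 := by exact_mod_cast hN0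
  have hlam2 : 0 < lam2 := hlam.trans hl
  set mu : ℝ := Y / N0 with hmu
  have hmu0 : 0 ≤ mu := by positivity
  have hsub : ((range (N + 1)).filter fun n => Q D lam2 m J n) ⊆
      ((Icc 1 N).filter fun n => Exc lam Y n ∧ ∃ k ≤ m, D k n) ∪
      ((range (N0 + 1)).filter fun n => PP lam2 J n) ∪
      ((range (N + 1)).filter fun n => Dip mu lam2 J n) := by
    intro n hn
    rw [mem_filter, mem_range] at hn
    obtain ⟨hn1, k, hk, hDk, j, hkj, hj, hjb⟩ := hn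
    rw [mem_union, mem_union]
    by_cases hnN : n ≤ N0
    · left; right
      exact mem_filter.2 ⟨mem_range.2 (by omega), j, hj, (ge_iff lam2 j n).2 hjb⟩
    by_cases hDp : Dip mu lam2 J n
    · right
      exact mem_filter.2 ⟨mem_range.2 hn1, hDp⟩
    left; left
    rw [mem_filter, mem_Icc]
    have hn0 : 0 < n := by omega
    have hn0R : (0 : ℝ) < n := by exact_mod_cast hn0
    refine ⟨⟨hn0, by omega⟩, ⟨j, ?_, ?_⟩, k, hk, hDk⟩
    · calc lam * n < lam2 * n := mul_lt_mul_of_pos_right hl hn0R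
        _ ≤ MM j n * n := mul_le_mul_of_nonneg_right hjb hn0R.le
        _ ≤ _ := iter_ge j n
    · intro i hi
      have h1 : mu < MM i n := by
        by_contra h
        exact hDp ⟨j, hj, i, hi, not_lt.1 h, hjb⟩
      calc Y = mu * N0 := by rw [hmu]; field_simp
        _ ≤ mu * n := by
            apply mul_le_mul_of_nonneg_left _ hmu0
            exact_mod_cast (by omega : N0 ≤ n)
        _ < MM i n * n := mul_lt_mul_of_pos_right h1 hn0R
        _ ≤ _ := iter_ge i n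
  have hcard : (((range (N + 1)).filter fun n => Q D lam2 m J n).card : ℝ) ≤
      (((Icc 1 N).filter fun n => Exc lam Y n ∧ ∃ k ≤ m, D k n).card : ℝ) +
      (((range (N0 + 1)).filter fun n => PP lam2 J n).card : ℝ) +
      (((range (N + 1)).filter fun n => Dip mu lam2 J n).card : ℝ) := by
    have h1 := (card_le_card hsub).trans ((card_union_le _ _).trans
      (Nat.add_le_add_right (card_union_le _ _) _))
    exact_mod_cast h1
  have c0 := (card_periodic (M := 2 ^ J) (by positivity) (fun n => Q D lam2 m J n)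
    (fun x c => Q_shift hD lam2 hm x c) (N + 1)).2
  have c1 := card_Q hD hlam2 hm hp hDs
  have c2 := (card_PP_N J (N0 + 1) lam2).1
  have c3 := card_Dip_N J (N + 1) hmu0 (hlam.trans hl)
  push_cast at c0 c2 c3
  have h2J : (0 : ℝ) < 2 ^ J := by positivity
  have hJN' : (2 : ℝ) ^ J ≤ N + 1 := by exact_mod_cast hJN
  have c4 : (N0 + 1 + 2 ^ J : ℝ) * (1 - s J lam2) ≤ (N0 + 1 + 2 ^ J) / lam2 := by
    have h1 := s_ge J lam2 hlam2
    rw [div_eq_mul_one_div]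
    exact mul_le_mul_of_nonneg_left (by linarith) (by positivity)
  have c5 : ((N : ℝ) + 1 - 2 ^ J) * ((C - e) / lam2 * W D m - 2 * b ^ (J - m) / Real.sqrt lam2) ≤
      (((N : ℝ) + 1) / 2 ^ J - 1) * (((range (2 ^ J)).filter fun n => Q D lam2 m J n).card : ℝ) := by
    have h1 : 0 ≤ ((N : ℝ) + 1) / 2 ^ J - 1 := by
      rw [sub_nonneg, one_le_div h2J]; exact hJN'
    refine le_trans (le_of_eq ?_) (mul_le_mul_of_nonneg_left c1 h1)
    field_simp
  linarith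

open scoped Classical in
theorem cross_asym {θ' v : ℝ} (hθ' : θ' < 1) (hv : v < 1 / 21) {e : ℝ} (he : 0 < e) :
    ∃ L0 : ℝ, 1 ≤ L0 ∧ ∀ᶠ x in (atTop : Filter ℝ), ∀ (Y lam : ℝ) (J m : ℕ) (D : ℕ → ℕ → Prop),
      0 ≤ Y → Y ≤ x ^ θ' → L0 ≤ lam → lam ≤ x ^ v → (2 : ℝ) ^ J ≤ x ^ (20 / 21 : ℝ) →
      x ^ (20 / 21 : ℝ) < 2 ^ (J + 1) → 2 * m ≤ J → Cross D →
      (∀ k ≤ m, ∀ n, D k n → L0 * MM k n ≤ lam) →
      (C * W D m - e) * (x / lam) ≤
      (((Icc 1 ⌊x⌋₊).filter fun n => Exc lam Y n ∧ ∃ k ≤ m, D k n).card : ℝ) := by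
  have hC := C_pos
  -- a smaller parameter
  set a : ℝ := min (min 1 (C / 2)) (e / (8 + 8 * C)) with hadef
  have ha : 0 < a := by
    rw [hadef]; exact lt_min (lt_min one_pos (by linarith)) (by positivity)
  have ha1 : a ≤ 1 := (min_le_left _ _).trans (min_le_left _ _)
  have haC : 2 * a ≤ C := by
    have : a ≤ C / 2 := (min_le_left _ _).trans (min_le_right _ _)
    linarith
  have hae : a * (8 + 8 * C) ≤ e := by
    have : a ≤ e / (8 + 8 * C) := min_le_right _ _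
    rwa [le_div_iff₀ (by positivity)] at this
  obtain ⟨L1, hL1, hp⟩ := p_ev ha
  refine ⟨L1, hL1, ?_⟩
  set δ : ℝ := (1 - θ') / 2 with hδ
  have hδ0 : 0 < δ := by rw [hδ]; linarith
  have hs1 : 0 < (1 / 21 - v) / 2 := by linarith
  filter_upwards [eventually_ge_atTop (Real.exp 1),
    ev_small 0 (show (0 : ℝ) < 1 / 21 by norm_num) 4 (show 0 < a / 2 by linarith),
    ev_small 0 hδ0 1 (show 0 < a / 2 by linarith),
    ev_small 2 hδ0 27 ha,
    ev_small 0 hs1 4 (show 0 < a by linarith)]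
    with x hx1 hx2 hx3 hx4 hx5 Y lam J m D hY0 hY hlam hlamx hJ1 hJ2 hmJ hD hDs
  rw [pow_zero, one_mul] at hx2 hx3 hx5
  rw [one_mul] at hx3
  have hxe : (2 : ℝ) ≤ x := by
    have := Real.add_one_le_exp 1
    linarith
  have hx0 : 0 < x := by linarith
  have hxone : 1 ≤ x := by linarith
  set L := Real.log x with hL
  have hL1' : 1 ≤ L := by
    rw [hL, ← Real.log_exp 1]; exact Real.log_le_log (Real.exp_pos 1) hx1
  have hlam0 : 0 < lam := by linarith
  have hJx : (2 : ℝ) ^ J ≤ x := hJ1.trans (by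
    calc x ^ (20 / 21 : ℝ) ≤ x ^ (1 : ℝ) := Real.rpow_le_rpow_of_exponent_le hxone (by norm_num)
      _ = x := Real.rpow_one x)
  have hJL := log_bound hx0 hJx
  have hN1 : ((⌊x⌋₊ : ℕ) : ℝ) ≤ x := Nat.floor_le hx0.le
  have hN2 : x < ((⌊x⌋₊ : ℕ) : ℝ) + 1 := Nat.lt_floor_add_one x
  set lam2 := lam * (1 + a) with hlam2
  have hl2 : lam < lam2 := by rw [hlam2]; nlinarith
  have hlam20 : 0 < lam2 := by linarith
  set N0 := ⌊x ^ (1 - δ)⌋₊ + 1 with hN0
  have hxd : 0 < x ^ (1 - δ) := by positivity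
  have hN0a : ((N0 : ℕ) : ℝ) ≤ x ^ (1 - δ) + 1 := by
    rw [hN0]; push_cast
    have := Nat.floor_le hxd.le
    linarith
  have hN0b : x ^ (1 - δ) ≤ ((N0 : ℕ) : ℝ) := by
    rw [hN0]; push_cast
    exact (Nat.lt_floor_add_one _).le
  have hJN : 2 ^ J ≤ ⌊x⌋₊ + 1 := by
    have : ((2 ^ J : ℕ) : ℝ) ≤ ((⌊x⌋₊ + 1 : ℕ) : ℝ) := by push_cast; linarith
    exact_mod_cast this
  have hfin := cross_fin hD (N := ⌊x⌋₊) (N0 := N0) (J := J) (lam := lam) (lam2 := lam2) (Y := Y)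
    (e := a) (L0 := L1) hlam0 hl2 (Nat.succ_pos _) hY0 (show m ≤ J by omega) hJN
    (fun z hz => (hp z hz).1) (fun k hk n hn => (hDs k hk n hn).trans hl2.le)
  have hx21 : x ^ (20 / 21 : ℝ) = x * x ^ (-(1 / 21) : ℝ) := by
    rw [← Real.rpow_one_add' hx0.le (by norm_num)]; norm_num
  have hxm : 1 ≤ x * x ^ (-(1 / 21) : ℝ) := by
    rw [← hx21]; exact Real.one_le_rpow hxone (by norm_num)
  have hxδ : x ^ (1 - δ) = x * x ^ (-δ) := by
    rw [sub_eq_add_neg, Real.rpow_add hx0, Real.rpow_one]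
  have h2J : (2 : ℝ) ^ J ≤ x * x ^ (-(1 / 21) : ℝ) := by rw [← hx21]; exact hJ1
  have hxl : 0 < x / lam := by positivity
  have hW0 := W_nonneg D m
  have hW1 := W_le_one hD m
  -- the first term
  have hxa : x * (4 * x ^ (-(1 / 21) : ℝ)) ≤ x * (a / 2) := mul_le_mul_of_nonneg_left hx2 hx0.le
  have hmain1 : (1 - a) * x ≤ ((⌊x⌋₊ : ℕ) : ℝ) + 1 - 2 ^ J := by
    nlinarith
  have hmain2 : ((⌊x⌋₊ : ℕ) : ℝ) + 1 - 2 ^ J ≤ 2 * x := by
    have : (0 : ℝ) < 2 ^ J := by positivity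
    linarith
  have hmain0 : 0 ≤ ((⌊x⌋₊ : ℕ) : ℝ) + 1 - 2 ^ J := by
    have : 0 ≤ (1 - a) * x := mul_nonneg (by linarith) hx0.le
    linarith
  have hT1 : (1 - a) * ((C - a) / (1 + a)) * W D m * (x / lam) ≤
      (((⌊x⌋₊ : ℕ) : ℝ) + 1 - 2 ^ J) * ((C - a) / lam2 * W D m) := by
    have h0 : 0 ≤ (C - a) / lam2 * W D m := by
      apply mul_nonneg (div_nonneg (by linarith) hlam20.le) hW0
    calc (1 - a) * ((C - a) / (1 + a)) * W D m * (x / lam)
        = ((1 - a) * x) * ((C - a) / lam2 * W D m) := by rw [hlam2]; field_simp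
      _ ≤ _ := mul_le_mul_of_nonneg_right hmain1 h0
  -- the second term
  have hb0 := b_pos
  have hT2 : (((⌊x⌋₊ : ℕ) : ℝ) + 1 - 2 ^ J) * (2 * b ^ (J - m) / Real.sqrt lam2) ≤
      2 * a * (x / lam) := by
    have hsl : 0 < Real.sqrt lam := Real.sqrt_pos.2 hlam0
    have h1 : Real.sqrt lam ≤ Real.sqrt lam2 := Real.sqrt_le_sqrt hl2.le
    have h2 : b ^ (J - m) ≤ 2 * x ^ (-(1 / 42) : ℝ) := by
      have h3 : (b ^ (J - m)) ^ 2 ≤ b ^ J := by
        rw [← pow_mul]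
        exact pow_le_pow_of_le_one hb0.le b_lt_one.le (by omega)
      have h4 : (b ^ (J - m)) ^ 2 ≤ (2 * x ^ (-(1 / 42) : ℝ)) ^ 2 := by
        refine (h3.trans (bJ hxone hJ2)).trans ?_
        rw [mul_pow, ← Real.rpow_natCast (x ^ (-(1 / 42) : ℝ)) 2, ← Real.rpow_mul hx0.le]
        have e1 : (-(1 / 42) : ℝ) * ((2 : ℕ) : ℝ) = -(1 / 21) := by norm_num
        rw [e1]
        have : 0 < x ^ (-(1 / 21) : ℝ) := by positivity
        linarith
      exact le_of_sq_le_sq h4 (by positivity)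
    have h5 : Real.sqrt lam ≤ x ^ (v / 2) := by
      have h6 : lam ≤ (x ^ (v / 2)) ^ 2 := by
        rw [← Real.rpow_natCast (x ^ (v / 2)) 2, ← Real.rpow_mul hx0.le]
        have : v / 2 * ((2 : ℕ) : ℝ) = v := by push_cast; ring
        rw [this]; exact hlamx
      exact (Real.sqrt_le_left (by positivity)).2 h6
    have h7 : b ^ (J - m) * Real.sqrt lam ≤ a / 2 := by
      calc b ^ (J - m) * Real.sqrt lam ≤ (2 * x ^ (-(1 / 42) : ℝ)) * x ^ (v / 2) :=
            mul_le_mul h2 h5 hsl.le (by positivity)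
        _ = 2 * x ^ (-((1 / 21 - v) / 2)) := by
            rw [mul_assoc, ← Real.rpow_add hx0]; congr 2; ring
        _ ≤ a / 2 := by linarith
    have h8 : 2 * b ^ (J - m) / Real.sqrt lam2 ≤ a / lam := by
      calc 2 * b ^ (J - m) / Real.sqrt lam2 ≤ 2 * b ^ (J - m) / Real.sqrt lam :=
            div_le_div_of_nonneg_left (by positivity) hsl h1
        _ = 2 * (b ^ (J - m) * Real.sqrt lam) / lam := by
            rw [div_eq_div_iff hsl.ne' hlam0.ne', mul_assoc 2 (b ^ (J - m) * Real.sqrt lam),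
              mul_assoc (b ^ (J - m)), Real.mul_self_sqrt hlam0.le]
            ring
        _ ≤ a / lam := by
            apply div_le_div_of_nonneg_right _ hlam0.le
            linarith
    calc _ ≤ (2 * x) * (a / lam) := by
          apply mul_le_mul hmain2 h8 (by positivity) (by positivity)
      _ = _ := by ring
  -- the third term
  have hT3 : ((N0 : ℕ) + 1 + 2 ^ J : ℝ) / lam2 ≤ 2 * a * (x / lam) := by
    have h1 : ((N0 : ℕ) + 1 + 2 ^ J : ℝ) ≤ 2 * a * x := by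
      rw [hxδ] at hN0a
      have h1 : x * x ^ (-δ) ≤ x * (a / 2) := mul_le_mul_of_nonneg_left hx3 hx0.le
      nlinarith
    calc ((N0 : ℕ) + 1 + 2 ^ J : ℝ) / lam2 ≤ (2 * a * x) / lam := by
          apply div_le_div₀ (by positivity) h1 hlam0 hl2.le
      _ = _ := by ring
  have hT4 : (((⌊x⌋₊ : ℕ) : ℝ) + 1 + 2 ^ J) * ((J + 1) ^ 2 * ((Y / N0) / lam2)) ≤ a * (x / lam) := by
    have hN0R : (0 : ℝ) < N0 := by linarith
    have h1 : Y / N0 ≤ x ^ (-δ) := by
      rw [div_le_iff₀ hN0R]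
      calc Y ≤ x ^ θ' := hY
        _ = x ^ (-δ) * x ^ (1 - δ) := by
            rw [← Real.rpow_add hx0]; congr 1; rw [hδ]; ring
        _ ≤ _ := mul_le_mul_of_nonneg_left hN0b (by positivity)
    have h2 : (Y / N0) / lam2 ≤ x ^ (-δ) / lam := by
      apply div_le_div₀ (by positivity) h1 hlam0 hl2.le
    have h3 : ((J : ℝ) + 1) ^ 2 ≤ 9 * L ^ 2 := by
      have : ((J : ℝ) + 1) ≤ 3 * L := by linarith
      calc ((J : ℝ) + 1) ^ 2 ≤ (3 * L) ^ 2 := pow_le_pow_left₀ (by positivity) this 2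
        _ = _ := by ring
    have h4 : ((⌊x⌋₊ : ℕ) : ℝ) + 1 + 2 ^ J ≤ 3 * x := by linarith
    calc _ ≤ (3 * x) * (9 * L ^ 2 * (x ^ (-δ) / lam)) := by gcongr
      _ = 27 * (L ^ 2 * x ^ (-δ)) * (x / lam) := by ring
      _ ≤ a * (x / lam) := mul_le_mul_of_nonneg_right hx4 (by positivity)
  -- conclusion
  have hk : C * W D m - e ≤ (1 - a) * ((C - a) / (1 + a)) * W D m - 5 * a := by
    have h4 : (1 - a) * (C - a) ≤ (C - a) / (1 + a) := by
      rw [le_div_iff₀ (by linarith)]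
      have : (1 - a) * (1 + a) ≤ 1 := by nlinarith
      nlinarith
    have h5 : (1 - a) * ((1 - a) * (C - a)) ≤ (1 - a) * ((C - a) / (1 + a)) :=
      mul_le_mul_of_nonneg_left h4 (by linarith)
    have h6 : C - a * (1 + 2 * C) ≤ (1 - a) * ((1 - a) * (C - a)) := by
      have h7 : (1 - a) * ((1 - a) * (C - a)) = C - a * (1 + 2 * C) + a ^ 2 * (C + 2 - a) := by ring
      have h8 : 0 ≤ a ^ 2 * (C + 2 - a) := mul_nonneg (sq_nonneg a) (by linarith)
      linarith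
    have h9 : (C - a * (1 + 2 * C)) * W D m ≤ (1 - a) * ((C - a) / (1 + a)) * W D m :=
      mul_le_mul_of_nonneg_right (h6.trans h5) hW0
    have h10 : a * (1 + 2 * C) * W D m ≤ a * (1 + 2 * C) * 1 :=
      mul_le_mul_of_nonneg_left hW1 (by positivity)
    nlinarith
  calc (C * W D m - e) * (x / lam)
      ≤ ((1 - a) * ((C - a) / (1 + a)) * W D m - 5 * a) * (x / lam) :=
        mul_le_mul_of_nonneg_right hk hxl.le
    _ = (1 - a) * ((C - a) / (1 + a)) * W D m * (x / lam) - 2 * a * (x / lam) - 2 * a * (x / lam)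
        - a * (x / lam) := by ring
    _ ≤ (((⌊x⌋₊ : ℕ) : ℝ) + 1 - 2 ^ J) * ((C - a) / lam2 * W D m) -
        (((⌊x⌋₊ : ℕ) : ℝ) + 1 - 2 ^ J) * (2 * b ^ (J - m) / Real.sqrt lam2) -
        ((N0 : ℕ) + 1 + 2 ^ J : ℝ) / lam2 -
        (((⌊x⌋₊ : ℕ) : ℝ) + 1 + 2 ^ J) * ((J + 1) ^ 2 * ((Y / N0) / lam2)) := by linarith
    _ ≤ _ := by
        refine le_trans (le_of_eq ?_) hfin
        ring

end Pool.Agent.H622.Gb
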