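import Mathlib
import Pool.Agent.H622.Gb3

set_option autoImplicit false

/-! The law of the parities given a large excursion, part 4: the two-sided estimates. -/

namespace Pool.Agent.H622.Gb

open Finset Filter Topology Pool.Agent.Helper894.Collatz Pool.Agent.H828R3.Exc Pool.Agent.W36.SL
  Pool.Agent.H622.Sh

theorem sandwich {C e X A A1 A2 Tt P W1 W2 : ℝ} (hC : 0 < C) (he : 0 < e) (hX : 0 < X)
    (h1 : (C * W1 - e) * X ≤ A1) (h2 : (C * W2 - e) * X ≤ A2) (h3 : A1 ≤ A) (h4 : A + A2 ≤ Tt)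
    (h6 : Tt ≤ (C + e) * X) (h7 : W1 ≤ P) (h8 : P ≤ 1 - W2)
    (h9 : 1 - e ≤ W1 + W2) (h10 : 0 ≤ W1) (h11 : 0 ≤ W2) : |A - P * Tt| ≤ (C + 2) * e * X := by
  have hP0 : 0 ≤ P := h10.trans h7
  have hP1 : P ≤ 1 := by linarith
  have hW : W1 - P ≥ -e := by linarith
  rw [abs_le]
  constructor
  · have a1 : P * Tt ≤ P * ((C + e) * X) := mul_le_mul_of_nonneg_left h6 hP0
    have a2 : P * e * X ≤ 1 * e * X := by
      apply mul_le_mul_of_nonneg_right _ hX.le
      exact mul_le_mul_of_nonneg_right hP1 he.le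
    have a3 : C * (P - W1) * X ≤ C * e * X := by
      apply mul_le_mul_of_nonneg_right _ hX.le
      exact mul_le_mul_of_nonneg_left (by linarith) hC.le
    nlinarith
  · have a1 : (1 - P) * Tt ≤ (1 - P) * ((C + e) * X) := mul_le_mul_of_nonneg_left h6 (by linarith)
    have a2 : (1 - P) * e * X ≤ 1 * e * X := by
      apply mul_le_mul_of_nonneg_right _ hX.le
      exact mul_le_mul_of_nonneg_right (by linarith) he.le
    have a3 : C * (1 - P - W2) * X ≤ C * e * X := by
      apply mul_le_mul_of_nonneg_right _ hX.le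
      exact mul_le_mul_of_nonneg_left (by linarith) hC.le
    nlinarith

/-- first passage of the growth factor over `z` at the time `k` -/
def FP (z : ℝ) (k n : ℕ) : Prop := z ≤ MM k n ∧ ∀ j < k, MM j n < z

theorem FP_uniq {z : ℝ} {n k k' : ℕ} (h : FP z k n) (h' : FP z k' n) : k = k' := by
  rcases lt_trichotomy k k' with hk | hk | hk
  · exact absurd h.1 (not_le.2 (h'.2 k hk))
  · exact hk
  · exact absurd h'.1 (not_le.2 (h.2 k' hk))

theorem FP_shift (z : ℝ) (k x c : ℕ) : FP z k (x + 2 ^ k * c) ↔ FP z k x := by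
  unfold FP
  rw [MM_shift le_rfl]
  refine and_congr_right fun _ => ?_
  constructor
  · intro h j hj
    have := h j hj
    rwa [MM_shift hj.le] at this
  · intro h j hj
    rw [MM_shift hj.le]; exact h j hj

theorem FP_le {z : ℝ} (hz : 1 ≤ z) {k n : ℕ} (h : FP z k n) : MM k n ≤ 3 / 2 * z := by
  rcases k with _ | k
  · rw [MM_zero]; linarith
  · have h1 := h.2 k (Nat.lt_succ_self k)
    rw [MM_succ]
    have hM := MM_pos k n
    split_ifs
    · nlinarith
    · nlinarith

/-- the words up to the first passage, in the sets `S k` -/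
def DS (z : ℝ) (S : ℕ → Set ℕ) (k n : ℕ) : Prop := FP z k n ∧ n % 2 ^ k ∈ S k

theorem DS_cross (z : ℝ) (S : ℕ → Set ℕ) : Cross (DS z S) where
  per k x c := by
    unfold DS
    rw [FP_shift, Nat.add_mul_mod_self_left]
  uniq n k k' h h' := FP_uniq h.1 h'.1

theorem w_add (z : ℝ) (S : ℕ → Set ℕ) (k : ℕ) :
    w (DS z S) k + w (DS z fun k => (S k)ᶜ) k = w (DS z fun _ => Set.univ) k := by
  classical
  unfold w
  rw [← add_div, ← sum_add_distrib]
  congr 1
  apply sum_congr rfl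
  intro r _
  unfold DS
  by_cases h : FP z k r
  · by_cases h2 : r % 2 ^ k ∈ S k
    · simp [h, h2]
    · simp [h, h2]
  · simp [h]

theorem W_add (z : ℝ) (S : ℕ → Set ℕ) (m : ℕ) :
    W (DS z S) m + W (DS z fun k => (S k)ᶜ) m = W (DS z fun _ => Set.univ) m := by
  unfold W
  rw [← sum_add_distrib]
  exact sum_congr rfl fun k _ => w_add z S k

/-- little mass before the first passage -/
theorem W_univ (z : ℝ) (m : ℕ) :
    1 - Real.sqrt z * b ^ m ≤ W (DS z fun _ => Set.univ) m := by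
  classical
  have h := W_eq (DS_cross z fun _ => Set.univ) m
  have h1 : ∑ n ∈ range (2 ^ m), MM m n ≤
      (∑ n ∈ range (2 ^ m), if ∃ k ≤ m, DS z (fun _ => Set.univ) k n then MM m n else 0) +
      Real.sqrt z * ∑ n ∈ range (2 ^ m), Real.sqrt (MM m n) := by
    rw [mul_sum, ← sum_add_distrib]
    apply sum_le_sum
    intro n _
    have hM := MM_pos m n
    split_ifs with h2
    · have : 0 ≤ Real.sqrt z * Real.sqrt (MM m n) := by positivity
      linarith
    · rw [zero_add]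
      have h3 : MM m n < z := by
        by_contra h4
        push Not at h4
        have hex : ∃ k, z ≤ MM k n := ⟨m, h4⟩
        apply h2
        refine ⟨Nat.find hex, Nat.find_min' hex h4, ⟨Nat.find_spec hex, fun j hj => ?_⟩, Set.mem_univ _⟩
        exact not_le.1 (Nat.find_min hex hj)
      calc MM m n = Real.sqrt (MM m n) * Real.sqrt (MM m n) := (Real.mul_self_sqrt hM.le).symm
        _ ≤ Real.sqrt z * Real.sqrt (MM m n) :=
            mul_le_mul_of_nonneg_right (Real.sqrt_le_sqrt h3.le) (Real.sqrt_nonneg _)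
  have h2 : (∑ n ∈ range (2 ^ m), if ∃ k ≤ m, DS z (fun _ => Set.univ) k n then MM m n else 0) =
      2 ^ m * W (DS z fun _ => Set.univ) m := by
    rw [← h]
  rw [h2, sum_sqrt, sum_MM] at h1
  have h3 : (0 : ℝ) < 2 ^ m := by positivity
  have h4 : Real.sqrt z * (2 ^ m * b ^ m) = 2 ^ m * (Real.sqrt z * b ^ m) := by ring
  rw [h4] at h1
  by_contra hcon
  push Not at hcon
  have := mul_lt_mul_of_pos_left hcon h3
  linarith

/-- the mass of all words, with the tail -/
theorem tsum_w (z : ℝ) (S : ℕ → Set ℕ) (m : ℕ) :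
    W (DS z S) m ≤ ∑' k, w (DS z S) k ∧ ∑' k, w (DS z S) k ≤ 1 - W (DS z fun k => (S k)ᶜ) m := by
  have hs : Summable fun k => w (DS z S) k := by
    apply summable_of_sum_range_le (c := 1) (fun k => w_nonneg _ k)
    intro n
    rcases n with _ | n
    · simp
    · exact W_le_one (DS_cross z S) n
  constructor
  · exact hs.sum_le_tsum _ fun k _ => w_nonneg _ k
  · apply hs.tsum_le_of_sum_range_le
    intro n
    have h1 : ∑ k ∈ range n, w (DS z S) k ≤ W (DS z S) (max n m) := by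
      unfold W
      apply sum_le_sum_of_subset_of_nonneg (range_subset_range.2 (by omega))
      intro k _ _
      exact w_nonneg _ k
    have h2 : W (DS z fun k => (S k)ᶜ) m ≤ W (DS z fun k => (S k)ᶜ) (max n m) := by
      unfold W
      apply sum_le_sum_of_subset_of_nonneg (range_subset_range.2 (by omega))
      intro k _ _
      exact w_nonneg _ k
    have h3 := W_add z S (max n m)
    have h4 := W_le_one (DS_cross z fun _ => Set.univ) (max n m)
    linarith

/-- the number of steps before the equidistribution is lost, and the decay of `b ^ m` -/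
theorem bm {J m : ℕ} {x : ℝ} (hx : 1 ≤ x) (hJ : x ^ (20 / 21 : ℝ) < 2 ^ (J + 1)) (hm : J ≤ 2 * m + 1) :
    b ^ m ≤ 2 * x ^ (-(1 / 42) : ℝ) := by
  have hx0 : 0 < x := by linarith
  have hb0 := b_pos
  have hb1 : 1 / 2 ≤ b := by
    unfold b
    rw [div_le_div_iff₀ (by norm_num) (by positivity)]
    have h2 : Real.sqrt 2 ≤ 1.5 := by rw [Real.sqrt_le_left (by norm_num)]; norm_num
    have h3 : 1.7 ≤ Real.sqrt 3 := by
      apply Real.le_sqrt_of_sq_le; norm_num
    linarith
  have h3 : (b ^ m) ^ 2 * b ≤ b ^ J := by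
    rw [← pow_mul, ← pow_succ]
    exact pow_le_pow_of_le_one hb0.le b_lt_one.le (by omega)
  have h4 : (b ^ m) ^ 2 ≤ (2 * x ^ (-(1 / 42) : ℝ)) ^ 2 := by
    have h5 := h3.trans (bJ hx hJ)
    rw [mul_pow, ← Real.rpow_natCast (x ^ (-(1 / 42) : ℝ)) 2, ← Real.rpow_mul hx0.le]
    have e1 : (-(1 / 42) : ℝ) * ((2 : ℕ) : ℝ) = -(1 / 21) := by norm_num
    rw [e1]
    have : 0 ≤ (b ^ m) ^ 2 := by positivity
    nlinarith
  exact le_of_sq_le_sq h4 (by positivity)

open scoped Classical in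
/-- GIBBS CONDITIONING up to the first passage -/
theorem stopped {θ θ' v : ℝ} (hθ : 0 < θ) (hθθ' : θ ≤ θ') (hθ' : θ' < 1) (hv : v < θ / 21)
    {ε : ℝ} (hε : 0 < ε) : ∃ ℓ L0 x0 : ℝ, ∀ x Y lam z : ℝ, x0 ≤ x → x ^ θ ≤ Y → Y ≤ x ^ θ' →
      L0 ≤ lam → lam ≤ x ^ v → 1 ≤ z → ℓ * z ≤ lam → ∀ S : ℕ → Set ℕ,
      |(((Icc 1 ⌊x⌋₊).filter fun n => Exc lam Y n ∧ ∃ k, DS z S k n).card : ℝ) -
        (∑' k, w (DS z S) k) * (((Icc 1 ⌊x⌋₊).filter (Exc lam Y)).card : ℝ)| ≤
        ε * (((Icc 1 ⌊x⌋₊).filter (Exc lam Y)).card : ℝ) := by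
  have hC := C_pos
  set e : ℝ := min (C / 2) (ε * C / (2 * (C + 2))) with hedef
  have he : 0 < e := by
    rw [hedef]; exact lt_min (by linarith) (by positivity)
  have heC : e ≤ C / 2 := min_le_left _ _
  have heε : (C + 2) * e ≤ ε * (C / 2) := by
    have h : e ≤ ε * C / (2 * (C + 2)) := min_le_right _ _
    rw [le_div_iff₀ (by positivity)] at h
    linarith
  have hv1 : v < 1 / 21 := by linarith
  obtain ⟨L1, hL1, hcross⟩ := cross_asym hθ' hv1 he
  obtain ⟨La, xa, hunif⟩ := uniform hθ hθθ' hθ' hv he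
  obtain ⟨x1, hx1⟩ := eventually_atTop.1 (hcross.and
    (ev_small 0 (show (0 : ℝ) < (1 / 21 - v) / 2 by linarith) 2 he))
  refine ⟨3 / 2 * L1, max La (max L1 1), max (max xa x1) 1, ?_⟩
  intro x Y lam z hx hY1 hY2 hlam hlamx hz hℓ S
  have hxa : xa ≤ x := (le_max_left _ _).trans ((le_max_left _ _).trans hx)
  have hxx1 : x1 ≤ x := (le_max_right _ _).trans ((le_max_left _ _).trans hx)
  have hxone : 1 ≤ x := (le_max_right _ _).trans hx
  have hx0 : 0 < x := by linarith
  have hlamLa : La ≤ lam := (le_max_left _ _).trans hlam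
  have hlamL1 : L1 ≤ lam := (le_max_left _ _).trans ((le_max_right _ _).trans hlam)
  have hlam1 : 1 ≤ lam := (le_max_right _ _).trans ((le_max_right _ _).trans hlam)
  have hlam0 : 0 < lam := by linarith
  obtain ⟨hcr, g1⟩ := hx1 x hxx1
  rw [pow_zero, one_mul] at g1
  have hY0 : 0 ≤ Y := le_trans (by positivity) hY1
  obtain ⟨J, hJ1, hJ2⟩ := near (Real.one_le_rpow hxone (show (0 : ℝ) ≤ 20 / 21 by norm_num))
  set m := J / 2 with hm
  have hmJ : 2 * m ≤ J := by omega
  have hmJ' : J ≤ 2 * m + 1 := by omega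
  have hxl : 0 < x / lam := by positivity
  have hbound : ∀ (S : ℕ → Set ℕ) (k : ℕ), k ≤ m → ∀ n, DS z S k n → L1 * MM k n ≤ lam := by
    intro S k _ n hn
    have h1 := FP_le hz hn.1
    calc L1 * MM k n ≤ L1 * (3 / 2 * z) := mul_le_mul_of_nonneg_left h1 (by linarith)
      _ = 3 / 2 * L1 * z := by ring
      _ ≤ lam := hℓ
  have c1 := hcr Y lam J m (DS z S) hY0 hY2 hlamL1 hlamx hJ1 hJ2 hmJ (DS_cross z S) (hbound S)
  have c2 := hcr Y lam J m (DS z fun k => (S k)ᶜ) hY0 hY2 hlamL1 hlamx hJ1 hJ2 hmJ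
    (DS_cross z _) (hbound _)
  have hun := abs_le.1 (hunif x Y lam hxa hY1 hY2 hlamLa hlamx)
  -- the tail
  have hz0 : 0 ≤ z := by linarith
  have hzlam : z ≤ lam := by
    have : 1 * z ≤ 3 / 2 * L1 * z := mul_le_mul_of_nonneg_right (by linarith) hz0
    linarith
  have htail : Real.sqrt z * b ^ m ≤ e := by
    have h1 := bm hxone hJ2 hmJ'
    have h2 : Real.sqrt z ≤ x ^ (v / 2) := by
      refine (Real.sqrt_le_sqrt hzlam).trans ?_
      have h6 : lam ≤ (x ^ (v / 2)) ^ 2 := by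
        rw [← Real.rpow_natCast (x ^ (v / 2)) 2, ← Real.rpow_mul hx0.le]
        have : v / 2 * ((2 : ℕ) : ℝ) = v := by push_cast; ring
        rw [this]; exact hlamx
      exact (Real.sqrt_le_left (by positivity)).2 h6
    have hb0 := b_pos
    calc Real.sqrt z * b ^ m ≤ x ^ (v / 2) * (2 * x ^ (-(1 / 42) : ℝ)) :=
          mul_le_mul h2 h1 (by positivity) (by positivity)
      _ = 2 * x ^ (-((1 / 21 - v) / 2)) := by
          rw [mul_left_comm, ← Real.rpow_add hx0]; congr 2; ring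
      _ ≤ e := g1
  have hWu := W_univ z m
  have hWa := W_add z S m
  have hts := tsum_w z S m
  have h3 : (((Icc 1 ⌊x⌋₊).filter fun n => Exc lam Y n ∧ ∃ k ≤ m, DS z S k n).card : ℝ) ≤
      (((Icc 1 ⌊x⌋₊).filter fun n => Exc lam Y n ∧ ∃ k, DS z S k n).card : ℝ) := by
    apply Nat.cast_le.2
    apply card_le_card
    intro n hn
    rw [mem_filter] at hn ⊢
    obtain ⟨a1, a2, k, -, a3⟩ := hn
    exact ⟨a1, a2, k, a3⟩
  have h4 : (((Icc 1 ⌊x⌋₊).filter fun n => Exc lam Y n ∧ ∃ k, DS z S k n).card : ℝ) +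
      (((Icc 1 ⌊x⌋₊).filter fun n => Exc lam Y n ∧ ∃ k ≤ m, DS z (fun k => (S k)ᶜ) k n).card : ℝ) ≤
      (((Icc 1 ⌊x⌋₊).filter (Exc lam Y)).card : ℝ) := by
    rw [← Nat.cast_add, ← card_union_of_disjoint]
    · apply Nat.cast_le.2
      apply card_le_card
      intro n hn
      rw [mem_union, mem_filter, mem_filter] at hn
      rw [mem_filter]
      rcases hn with hn | hn
      · exact ⟨hn.1, hn.2.1⟩
      · exact ⟨hn.1, hn.2.1⟩
    · rw [disjoint_left]
      intro n hn hn'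
      rw [mem_filter] at hn hn'
      obtain ⟨-, -, k, hk1, hk2⟩ := hn
      obtain ⟨-, -, k', -, hk1', hk2'⟩ := hn'
      have : k = k' := FP_uniq hk1 hk1'
      subst this
      exact hk2' hk2
  have key := sandwich hC he hxl c1 c2 h3 h4 (by linarith [hun.2]) hts.1 hts.2
    (by linarith) (W_nonneg _ _) (W_nonneg _ _)
  refine key.trans ?_
  have h5 : C / 2 * (x / lam) ≤ (((Icc 1 ⌊x⌋₊).filter (Exc lam Y)).card : ℝ) := by
    have : C / 2 * (x / lam) ≤ (C - e) * (x / lam) := mul_le_mul_of_nonneg_right (by linarith) hxl.le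
    linarith [hun.1]
  calc (C + 2) * e * (x / lam) ≤ ε * (C / 2) * (x / lam) := mul_le_mul_of_nonneg_right heε hxl.le
    _ = ε * (C / 2 * (x / lam)) := by ring
    _ ≤ _ := mul_le_mul_of_nonneg_left h5 hε.le

end Pool.Agent.H622.Gb
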