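import Mathlib
import Pool.Agent.H622.Gb4

set_option autoImplicit false

/-! The passage time given a large excursion, part 1: the central limit theorem for the words. -/

namespace Pool.Agent.H622.Ct

open Finset Filter Topology MeasureTheory ProbabilityTheory Pool.Agent.Helper894.Collatz
  Pool.Agent.H828R3.Exc Pool.Agent.W36.SL Pool.Agent.H622.Sh Pool.Agent.H622.Gb

theorem sum_pow_od_complex (k : ℕ) (z : ℂ) : ∑ x ∈ range (2 ^ k), z ^ (od k x) = (1 + z) ^ k := by
  induction k with
  | zero => simp [od]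
  | succ k ih =>
    rw [pow_succ 2, mul_two, sum_range_add, ← sum_add_distrib, pow_succ (1 + z), ← ih, sum_mul]
    apply sum_congr rfl
    intro x _
    rw [add_comm (2 ^ k) x, od_succ, od_succ, flip_parity, od_shift]
    rcases Nat.mod_two_eq_zero_or_one (T^[k] x) with h | h
    · rw [h]; simp [pow_succ]; ring
    · rw [h]; simp [pow_succ]; ring

/-- the normalized number of odd steps -/
noncomputable def Z (m n : ℕ) : ℝ := (Real.sqrt m)⁻¹ * (4 / Real.sqrt 3 * ((od m n : ℝ) - 3 / 4 * m))

/-- its law under the tilted measure -/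
noncomputable def nu (m : ℕ) : Measure ℝ :=
  ∑ n ∈ range (2 ^ m), ENNReal.ofReal (MM m n / 2 ^ m) • Measure.dirac (Z m n)

theorem nu_apply (m : ℕ) {s : Set ℝ} (hs : MeasurableSet s) :
    (nu m) s = ∑ n ∈ range (2 ^ m), ENNReal.ofReal (MM m n / 2 ^ m) * s.indicator 1 (Z m n) := by
  unfold nu
  rw [Measure.finsetSum_apply]
  apply sum_congr rfl
  intro n _
  rw [Measure.smul_apply, Measure.dirac_apply' _ hs, smul_eq_mul]

instance nu_prob (m : ℕ) : IsProbabilityMeasure (nu m) := by
  constructor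
  rw [nu_apply m MeasurableSet.univ]
  simp only [Set.indicator_univ, Pi.one_apply, mul_one]
  rw [← ENNReal.ofReal_sum_of_nonneg]
  · rw [← sum_div, sum_MM, div_self (by positivity), ENNReal.ofReal_one]
  · intro n _
    have := MM_pos m n
    positivity

open scoped Classical in
theorem nu_real (m : ℕ) (a : ℝ) :
    (nu m).real (Set.Ici a) = (∑ n ∈ range (2 ^ m), if a ≤ Z m n then MM m n else 0) / 2 ^ m := by
  unfold Measure.real
  rw [nu_apply m measurableSet_Ici, ENNReal.toReal_sum, sum_div]
  · apply sum_congr rfl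
    intro n _
    have hM := MM_pos m n
    by_cases h : a ≤ Z m n
    · rw [if_pos h, Set.indicator_of_mem (by exact h), Pi.one_apply, mul_one,
        ENNReal.toReal_ofReal (by positivity)]
    · rw [if_neg h, Set.indicator_of_notMem (by exact h), mul_zero]; simp
  · intro n _
    by_cases h : a ≤ Z m n
    · rw [Set.indicator_of_mem (by exact h), Pi.one_apply, mul_one]; exact ENNReal.ofReal_ne_top
    · rw [Set.indicator_of_notMem (by exact h), mul_zero]; simp

/-- the law of one step -/
noncomputable def rho1 : Measure ℝ :=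
  ENNReal.ofReal (1 / 4) • Measure.dirac (-Real.sqrt 3) +
  ENNReal.ofReal (3 / 4) • Measure.dirac (1 / Real.sqrt 3)

instance rho1_prob : IsProbabilityMeasure rho1 := by
  constructor
  unfold rho1
  rw [Measure.add_apply, Measure.smul_apply, Measure.smul_apply]
  simp only [measure_univ, smul_eq_mul, mul_one]
  rw [← ENNReal.ofReal_add (by norm_num) (by norm_num)]
  norm_num

theorem int_rho1 {E : Type*} [NormedAddCommGroup E] [NormedSpace ℝ E] [CompleteSpace E] (f : ℝ → E) :
    ∫ x, f x ∂rho1 = (1 / 4 : ℝ) • f (-Real.sqrt 3) + (3 / 4 : ℝ) • f (1 / Real.sqrt 3) := by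
  unfold rho1
  have h1 : Integrable f (ENNReal.ofReal (1 / 4) • Measure.dirac (-Real.sqrt 3)) :=
    (integrable_dirac (by exact enorm_lt_top)).smul_measure ENNReal.ofReal_ne_top
  have h2 : Integrable f (ENNReal.ofReal (3 / 4) • Measure.dirac (1 / Real.sqrt 3)) :=
    (integrable_dirac (by exact enorm_lt_top)).smul_measure ENNReal.ofReal_ne_top
  rw [integral_add_measure h1 h2, integral_smul_measure, integral_smul_measure, integral_dirac,
    integral_dirac, ENNReal.toReal_ofReal (by norm_num), ENNReal.toReal_ofReal (by norm_num)]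

theorem charFun_nu (m : ℕ) (t : ℝ) :
    charFun (nu m) t = (charFun rho1 ((Real.sqrt m)⁻¹ * t)) ^ m := by
  rw [charFun_apply_real, charFun_apply_real, int_rho1]
  unfold nu
  rw [integral_finset_sum_measure]
  swap
  · intro n _
    exact (integrable_dirac (by exact enorm_lt_top)).smul_measure ENNReal.ofReal_ne_top
  set s : ℝ := (Real.sqrt m)⁻¹ * t with hs
  have h3 : Real.sqrt 3 * Real.sqrt 3 = 3 := Real.mul_self_sqrt (by norm_num)
  have h30 : Real.sqrt 3 ≠ 0 := by positivity
  set w : ℂ := 3 * Complex.exp ((4 / Real.sqrt 3 * s : ℝ) * Complex.I) with hw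
  set c : ℂ := Complex.exp ((-(3 / Real.sqrt 3) * s : ℝ) * Complex.I) / 4 with hc
  have key : ∀ n ∈ range (2 ^ m), (∫ x, Complex.exp (t * x * Complex.I)
      ∂(ENNReal.ofReal (MM m n / 2 ^ m) • Measure.dirac (Z m n))) = w ^ od m n * c ^ m := by
    intro n _
    have hM := MM_pos m n
    rw [integral_smul_measure, integral_dirac, ENNReal.toReal_ofReal (by positivity)]
    rw [hw, hc, mul_pow, div_pow, ← Complex.exp_nat_mul, ← Complex.exp_nat_mul]
    have e1 : (t : ℂ) * (Z m n : ℝ) * Complex.I =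
        (od m n : ℂ) * ((4 / Real.sqrt 3 * s : ℝ) * Complex.I) +
        (m : ℂ) * ((-(3 / Real.sqrt 3) * s : ℝ) * Complex.I) := by
      unfold Z
      rw [hs]
      push_cast
      ring
    rw [e1, Complex.exp_add]
    unfold MM
    rw [Complex.real_smul]
    push_cast
    have e4 : (4 : ℂ) ^ m = 2 ^ m * 2 ^ m := by rw [← mul_pow]; norm_num
    rw [e4]
    field_simp
  rw [sum_congr rfl key, ← sum_mul, sum_pow_od_complex, ← mul_pow]
  congr 1
  rw [hw, hc, Complex.real_smul, Complex.real_smul]
  have e2 : Complex.exp ((s : ℂ) * ((-Real.sqrt 3 : ℝ) : ℂ) * Complex.I) =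
      Complex.exp ((-(3 / Real.sqrt 3) * s : ℝ) * Complex.I) := by
    congr 1
    have : (3 : ℝ) / Real.sqrt 3 = Real.sqrt 3 := by rw [div_eq_iff h30, h3]
    rw [this]; push_cast; ring
  have e3 : Complex.exp ((s : ℂ) * ((1 / Real.sqrt 3 : ℝ) : ℂ) * Complex.I) =
      Complex.exp ((4 / Real.sqrt 3 * s : ℝ) * Complex.I) *
      Complex.exp ((-(3 / Real.sqrt 3) * s : ℝ) * Complex.I) := by
    rw [← Complex.exp_add]
    congr 1
    push_cast; ring
  rw [e2, e3]
  push_cast
  ring

noncomputable def nuP (m : ℕ) : ProbabilityMeasure ℝ := ⟨nu m, nu_prob m⟩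

noncomputable def gP : ProbabilityMeasure ℝ := ⟨gaussianReal 0 1, inferInstance⟩

theorem nu_tendsto : Tendsto nuP atTop (𝓝 gP) := by
  rw [ProbabilityMeasure.tendsto_iff_tendsto_charFun]
  intro t
  have h0 : ∫ x, id x ∂rho1 = 0 := by
    rw [int_rho1]
    have h3 : Real.sqrt 3 * Real.sqrt 3 = 3 := Real.mul_self_sqrt (by norm_num)
    have h30 : Real.sqrt 3 ≠ 0 := by positivity
    simp only [id, smul_eq_mul]
    field_simp
    nlinarith
  have h1 : ∫ x, (id ^ 2 : ℝ → ℝ) x ∂rho1 = 1 := by
    rw [int_rho1]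
    have h3 : Real.sqrt 3 ^ 2 = 3 := Real.sq_sqrt (by norm_num)
    simp only [Pi.pow_apply, id, smul_eq_mul, neg_sq, div_pow, one_pow, h3]
    norm_num
  have h := tendsto_charFun_inv_sqrt_mul_pow (P := rho1) (X := id) measurable_id.aemeasurable h0 h1 t
  rw [Measure.map_id] at h
  have e : charFun (gaussianReal 0 1) t = Complex.exp (-(t : ℂ) ^ 2 / 2) := by
    rw [charFun_gaussianReal]
    congr 1
    push_cast
    simp
    ring
  show Tendsto (fun m : ℕ => charFun (nu m) t) atTop (𝓝 (charFun (gaussianReal 0 1) t))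
  rw [e]
  refine h.congr fun m => ?_
  rw [charFun_nu]

theorem nu_Ici (a : ℝ) : Tendsto (fun m : ℕ => (nu m).real (Set.Ici a)) atTop
    (𝓝 ((gaussianReal 0 1).real (Set.Ici a))) := by
  have hf : (gP : Measure ℝ) (frontier (Set.Ici a)) = 0 := by
    rw [frontier_Ici]
    have := noAtoms_gaussianReal (μ := 0) (v := 1) (by norm_num)
    exact measure_singleton (μ := gaussianReal 0 1) a
  have h := ProbabilityMeasure.tendsto_measure_of_null_frontier_of_tendsto' nu_tendsto
    (E := Set.Ici a) hf
  have h2 := (ENNReal.tendsto_toReal (measure_ne_top (gaussianReal 0 1) (Set.Ici a))).comp h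
  exact h2

end Pool.Agent.H622.Ct
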