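import Mathlib
import Pool.Agent.H622.Ct1

set_option autoImplicit false

/-! The passage time given a large excursion, part 2: the normal law and the mass of the words. -/

namespace Pool.Agent.H622.Ct

open Finset Filter Topology MeasureTheory ProbabilityTheory Pool.Agent.Helper894.Collatz
  Pool.Agent.H828R3.Exc Pool.Agent.W36.SL Pool.Agent.H622.Sh Pool.Agent.H622.Gb

/-- the distribution function of the normal law -/
noncomputable def Phi (u : ℝ) : ℝ := (gaussianReal 0 1).real (Set.Iic u)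

/-- the upper tail -/
noncomputable def G (a : ℝ) : ℝ := (gaussianReal 0 1).real (Set.Ici a)

theorem Phi_mono {u v : ℝ} (h : u ≤ v) : Phi u ≤ Phi v :=
  measureReal_mono (Set.Iic_subset_Iic.2 h)

theorem Phi_nonneg (u : ℝ) : 0 ≤ Phi u := measureReal_nonneg

theorem Phi_le_one (u : ℝ) : Phi u ≤ 1 := measureReal_le_one

theorem pdf_le_one (x : ℝ) : gaussianPDFReal 0 1 x ≤ 1 := by
  unfold gaussianPDFReal
  have h1 : (Real.sqrt (2 * Real.pi * (1 : NNReal)))⁻¹ ≤ 1 := by
    apply inv_le_one_of_one_le₀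
    apply Real.le_sqrt_of_sq_le
    have := Real.pi_gt_three
    push_cast; linarith
  have h2 : Real.exp (-(x - 0) ^ 2 / (2 * (1 : NNReal))) ≤ 1 := by
    apply Real.exp_le_one_iff.2
    push_cast
    have := sq_nonneg (x - 0)
    linarith [this]
  calc _ ≤ 1 * (1 : ℝ) := mul_le_mul h1 h2 (Real.exp_pos _).le (by norm_num)
    _ = 1 := by ring

theorem gauss_Ico {a b : ℝ} (h : a ≤ b) : (gaussianReal 0 1).real (Set.Ico a b) ≤ b - a := by
  unfold Measure.real
  rw [gaussianReal_apply 0 (v := 1) (by norm_num)]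
  have h1 : ∫⁻ x in Set.Ico a b, gaussianPDF 0 1 x ≤ ∫⁻ x in Set.Ico a b, 1 := by
    apply lintegral_mono
    intro x
    unfold gaussianPDF
    rw [← ENNReal.ofReal_one]
    exact ENNReal.ofReal_le_ofReal (pdf_le_one x)
  rw [setLIntegral_one, Real.volume_Ico] at h1
  have h2 := ENNReal.toReal_mono ENNReal.ofReal_ne_top h1
  rwa [ENNReal.toReal_ofReal (by linarith)] at h2

theorem G_sub {a b : ℝ} (h : a ≤ b) : G a - G b ≤ b - a := by
  have h1 := gauss_Ico h
  have h2 : G a ≤ (gaussianReal 0 1).real (Set.Ico a b) + G b := by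
    unfold G
    rw [← Set.Ico_union_Ici_eq_Ici h]
    exact measureReal_union_le _ _
  linarith

theorem G_anti {a b : ℝ} (h : a ≤ b) : G b ≤ G a := measureReal_mono (Set.Ici_subset_Ici.2 h)

theorem G_neg (u : ℝ) : G (-u) = Phi u := by
  unfold G Phi Measure.real
  congr 1
  have h := gaussianReal_map_neg (μ := 0) (v := 1)
  rw [neg_zero] at h
  have h2 : (gaussianReal 0 1).map (fun x => -x) (Set.Ici (-u)) = gaussianReal 0 1 (Set.Ici (-u)) := by
    rw [h]
  rw [← h2, Measure.map_apply (by fun_prop) measurableSet_Ici]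
  congr 1
  ext x
  simp

theorem Phi_sub {a b : ℝ} (h : a ≤ b) : Phi b - Phi a ≤ b - a := by
  rw [← G_neg, ← G_neg]
  have := G_sub (neg_le_neg h)
  linarith

theorem Phi_explicit (u : ℝ) :
    Phi u = (∫ t in Set.Iic u, Real.exp (-t ^ 2 / 2)) / Real.sqrt (2 * Real.pi) := by
  unfold Phi Measure.real
  rw [gaussianReal_apply_eq_integral 0 (v := 1) (by norm_num), ENNReal.toReal_ofReal]
  · unfold gaussianPDFReal
    rw [integral_const_mul]
    simp only [NNReal.coe_one, mul_one, sub_zero]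
    rw [div_eq_inv_mul]
  · apply setIntegral_nonneg measurableSet_Iic
    intro x _
    exact gaussianPDFReal_nonneg _ _ _

theorem Phi_lim : ∀ ε : ℝ, 0 < ε → ∃ M : ℝ, 0 ≤ M ∧ Phi (-M) ≤ ε ∧ 1 - ε ≤ Phi M := by
  intro ε hε
  have h1 : Tendsto Phi atTop (𝓝 1) := by
    have h := tendsto_cdf_atTop (gaussianReal 0 1)
    refine h.congr fun x => ?_
    rw [cdf_eq_real]; rfl
  have h2 : Tendsto Phi atBot (𝓝 0) := by
    have h := tendsto_cdf_atBot (gaussianReal 0 1)
    refine h.congr fun x => ?_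
    rw [cdf_eq_real]; rfl
  have e1 := h1.eventually (lt_mem_nhds (show 1 - ε < 1 by linarith))
  have e2 := (h2.eventually (gt_mem_nhds hε))
  have e3 := tendsto_neg_atTop_atBot.eventually e2
  obtain ⟨M, ⟨hM1, hM2⟩, hM3⟩ := ((e1.and e3).and (eventually_ge_atTop 0)).exists
  exact ⟨M, hM3, hM2.le, hM1.le⟩

/-- convergence, locally uniformly -/
theorem nu_unif (u : ℝ) {ε : ℝ} (hε : 0 < ε) : ∃ δ : ℝ, 0 < δ ∧ ∃ m0 : ℕ, ∀ m, m0 ≤ m → ∀ a : ℝ,
    |a + u| ≤ δ → |(nu m).real (Set.Ici a) - Phi u| ≤ ε := by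
  refine ⟨ε / 2, by linarith, ?_⟩
  have h1 := nu_Ici (-u - ε / 2)
  have h2 := nu_Ici (-u + ε / 2)
  have e1 := (Metric.tendsto_nhds.1 h1) (ε / 2) (by linarith)
  have e2 := (Metric.tendsto_nhds.1 h2) (ε / 2) (by linarith)
  obtain ⟨m0, hm0⟩ := eventually_atTop.1 (e1.and e2)
  refine ⟨m0, fun m hm a ha => ?_⟩
  obtain ⟨b1, b2⟩ := hm0 m hm
  rw [Real.dist_eq] at b1 b2
  rw [abs_lt] at b1 b2
  rw [abs_le] at ha
  have c1 : (nu m).real (Set.Ici a) ≤ (nu m).real (Set.Ici (-u - ε / 2)) :=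
    measureReal_mono (Set.Ici_subset_Ici.2 (by linarith))
  have c2 : (nu m).real (Set.Ici (-u + ε / 2)) ≤ (nu m).real (Set.Ici a) :=
    measureReal_mono (Set.Ici_subset_Ici.2 (by linarith))
  have d1 : G (-u - ε / 2) - G (-u) ≤ ε / 2 := by
    have := G_sub (show -u - ε / 2 ≤ -u by linarith)
    linarith
  have d2 : G (-u) - G (-u + ε / 2) ≤ ε / 2 := by
    have := G_sub (show -u ≤ -u + ε / 2 by linarith)
    linarith
  rw [G_neg] at d1 d2
  unfold G at d1 d2
  rw [abs_le]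
  constructor <;> linarith

end Pool.Agent.H622.Ct
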