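import Mathlib
import Pool.Agent.H622.Ct2

set_option autoImplicit false

/-! The passage time given a large excursion, part 3: the mass of the words. -/

namespace Pool.Agent.H622.Ct

open Finset Filter Topology MeasureTheory ProbabilityTheory Pool.Agent.Helper894.Collatz
  Pool.Agent.H828R3.Exc Pool.Agent.W36.SL Pool.Agent.H622.Sh Pool.Agent.H622.Gb

theorem b_eq : Real.sqrt (3 / 2) + Real.sqrt (1 / 2) = 2 * b := by
  unfold b
  rw [Real.sqrt_div (by norm_num), Real.sqrt_div (by norm_num), Real.sqrt_one]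
  have := Real.sqrt_pos.2 (show (0 : ℝ) < 2 by norm_num)
  field_simp
  ring

theorem sum_sqrt_block (k d : ℕ) (f : ℕ → ℝ) (hf : ∀ x c, f (x + 2 ^ k * c) = f x) :
    ∑ n ∈ range (2 ^ (k + d)), f n * Real.sqrt (MM (k + d) n) =
      2 ^ d * b ^ d * ∑ r ∈ range (2 ^ k), f r * Real.sqrt (MM k r) := by
  induction d with
  | zero => simp
  | succ d ih =>
    rw [← add_assoc, pow_succ 2, mul_two, sum_range_add, ← sum_add_distrib, pow_succ 2 d, pow_succ b d]
    have e : (2 : ℝ) ^ d * 2 * (b ^ d * b) * ∑ r ∈ range (2 ^ k), f r * Real.sqrt (MM k r) =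
      (2 * b) * (2 ^ d * b ^ d * ∑ r ∈ range (2 ^ k), f r * Real.sqrt (MM k r)) := by ring
    rw [e, ← ih, mul_sum]
    apply sum_congr rfl
    intro x _
    have h1 : f (2 ^ (k + d) + x) = f x := by
      have := hf x (2 ^ d)
      rwa [← pow_add, add_comm] at this
    rw [add_comm (2 ^ (k + d)) x] at h1 ⊢
    rw [h1, ← b_eq]
    rcases MM_pair (k + d) x with ⟨a1, a2⟩ | ⟨a1, a2⟩
    · rw [a1, a2, Real.sqrt_mul (by norm_num), Real.sqrt_mul (by norm_num)]; ring
    · rw [a1, a2, Real.sqrt_mul (by norm_num), Real.sqrt_mul (by norm_num)]; ring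

/-- the threshold -/
noncomputable def thr (m : ℕ) (z : ℝ) : ℝ :=
  (Real.sqrt m)⁻¹ * (4 / Real.sqrt 3 * ((Real.log z - m * (Real.log (27 / 16) / 4)) / Real.log 3))

theorem thr_iff {m : ℕ} (hm : 0 < m) {z : ℝ} (hz : 0 < z) (n : ℕ) : thr m z ≤ Z m n ↔ z ≤ MM m n := by
  have hm' : 0 < Real.sqrt m := Real.sqrt_pos.2 (by exact_mod_cast hm)
  have h3 : 0 < Real.sqrt 3 := Real.sqrt_pos.2 (by norm_num)
  have hl3 : 0 < Real.log 3 := Real.log_pos (by norm_num)
  have hM := MM_pos m n
  unfold thr Z
  rw [mul_le_mul_iff_right₀ (by positivity), mul_le_mul_iff_right₀ (by positivity),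
    div_le_iff₀ hl3, ← Real.log_le_log_iff hz hM, log_MM]
  unfold dv
  constructor <;> intro h <;> linarith

open scoped Classical in
theorem W_univ_eq (z : ℝ) (m : ℕ) : 2 ^ m * W (DS z fun _ => Set.univ) m =
    ∑ n ∈ range (2 ^ m), if ∃ k ≤ m, FP z k n then MM m n else 0 := by
  rw [← W_eq (DS_cross z fun _ => Set.univ) m]
  apply sum_congr rfl
  intro n _
  simp only [DS, Set.mem_univ, and_true]

theorem exists_FP {z : ℝ} {m n : ℕ} (h : z ≤ MM m n) : ∃ k ≤ m, FP z k n := by
  classical
  have hex : ∃ k, z ≤ MM k n := ⟨m, h⟩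
  exact ⟨Nat.find hex, Nat.find_min' hex h, Nat.find_spec hex,
    fun j hj => not_le.1 (Nat.find_min hex hj)⟩

theorem W_lower {m : ℕ} (hm : 0 < m) {z : ℝ} (hz : 0 < z) :
    (nu m).real (Set.Ici (thr m z)) ≤ W (DS z fun _ => Set.univ) m := by
  classical
  rw [nu_real, div_le_iff₀ (by positivity), mul_comm, W_univ_eq]
  apply sum_le_sum
  intro n _
  have hM := MM_pos m n
  by_cases h : thr m z ≤ Z m n
  · rw [if_pos h, if_pos (exists_FP ((thr_iff hm hz n).1 h))]
  · rw [if_neg h]
    split_ifs <;> linarith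

theorem W_upper {m : ℕ} (hm : 0 < m) {z : ℝ} (hz : 0 < z) {h : ℝ} :
    W (DS z fun _ => Set.univ) m ≤
      (nu m).real (Set.Ici (thr m (z * Real.exp (-h)))) + Real.exp (-h / 2) := by
  classical
  have h2m : (0 : ℝ) < 2 ^ m := by positivity
  have key : 2 ^ m * W (DS z fun _ => Set.univ) m ≤
      2 ^ m * ((nu m).real (Set.Ici (thr m (z * Real.exp (-h)))) + Real.exp (-h / 2)) := by
    rw [W_univ_eq, nu_real, mul_add, mul_div_cancel₀ _ h2m.ne']
    have e1 : (∑ n ∈ range (2 ^ m), if ∃ k ≤ m, FP z k n then MM m n else 0) ≤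
        (∑ n ∈ range (2 ^ m), if thr m (z * Real.exp (-h)) ≤ Z m n then MM m n else 0) +
        ∑ k ∈ range (m + 1), ∑ n ∈ range (2 ^ m), (if FP z k n then Real.sqrt (MM k n) else 0) *
          Real.sqrt (MM m n) * Real.exp (-h / 2) := by
      rw [sum_comm, ← sum_add_distrib]
      apply sum_le_sum
      intro n _
      have hM := MM_pos m n
      have hnn : 0 ≤ ∑ k ∈ range (m + 1), (if FP z k n then Real.sqrt (MM k n) else 0) *
          Real.sqrt (MM m n) * Real.exp (-h / 2) := by
        apply sum_nonneg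
        intro k _
        split_ifs <;> positivity
      by_cases h1 : ∃ k ≤ m, FP z k n
      swap
      · rw [if_neg h1]
        split_ifs <;> linarith
      rw [if_pos h1]
      by_cases h2 : thr m (z * Real.exp (-h)) ≤ Z m n
      · rw [if_pos h2]; linarith
      rw [if_neg h2, zero_add]
      rw [thr_iff hm (by positivity)] at h2
      push Not at h2
      obtain ⟨k, hk, hkn⟩ := h1
      have h3 : (if FP z k n then Real.sqrt (MM k n) else 0) *
          Real.sqrt (MM m n) * Real.exp (-h / 2) ≤ ∑ k ∈ range (m + 1),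
          (if FP z k n then Real.sqrt (MM k n) else 0) * Real.sqrt (MM m n) * Real.exp (-h / 2) := by
        apply single_le_sum (f := fun k => (if FP z k n then Real.sqrt (MM k n) else 0) *
          Real.sqrt (MM m n) * Real.exp (-h / 2)) (fun k _ => ?_) (mem_range.2 (by omega))
        split_ifs <;> positivity
      refine le_trans ?_ h3
      rw [if_pos hkn]
      have h4 : MM m n ≤ MM k n * Real.exp (-h) := by
        have := mul_le_mul_of_nonneg_right hkn.1 (Real.exp_pos (-h)).le
        linarith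
      have h5 : Real.sqrt (MM m n) ≤ Real.sqrt (MM k n) * Real.exp (-h / 2) := by
        have h6 := Real.sqrt_le_sqrt h4
        have h7 : Real.sqrt (Real.exp (-h)) = Real.exp (-h / 2) := by
          rw [Real.sqrt_eq_iff_mul_self_eq (Real.exp_pos _).le (Real.exp_pos _).le, ← Real.exp_add]
          congr 1; ring
        rwa [Real.sqrt_mul (MM_pos k n).le, h7] at h6
      calc MM m n = Real.sqrt (MM m n) * Real.sqrt (MM m n) := (Real.mul_self_sqrt hM.le).symm
        _ ≤ Real.sqrt (MM k n) * Real.exp (-h / 2) * Real.sqrt (MM m n) :=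
            mul_le_mul_of_nonneg_right h5 (Real.sqrt_nonneg _)
        _ = _ := by ring
    have e2 : ∑ k ∈ range (m + 1), ∑ n ∈ range (2 ^ m), (if FP z k n then Real.sqrt (MM k n) else 0) *
          Real.sqrt (MM m n) * Real.exp (-h / 2) ≤ 2 ^ m * Real.exp (-h / 2) := by
      have e3 : ∀ k ∈ range (m + 1), ∑ n ∈ range (2 ^ m),
          (if FP z k n then Real.sqrt (MM k n) else 0) * Real.sqrt (MM m n) * Real.exp (-h / 2) ≤
          2 ^ m * w (DS z fun _ => Set.univ) k * Real.exp (-h / 2) := by
        intro k hk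
        rw [mem_range] at hk
        obtain ⟨d, rfl⟩ := Nat.exists_eq_add_of_le (show k ≤ m by omega)
        rw [← sum_mul, sum_sqrt_block k d (fun n => if FP z k n then Real.sqrt (MM k n) else 0)
          (fun x c => by simp only [FP_shift, MM_shift le_rfl])]
        apply mul_le_mul_of_nonneg_right _ (Real.exp_pos _).le
        have hb : b ^ d ≤ 1 := pow_le_one₀ b_pos.le b_lt_one.le
        have e4 : ∑ r ∈ range (2 ^ k), (if FP z k r then Real.sqrt (MM k r) else 0) *
            Real.sqrt (MM k r) = 2 ^ k * w (DS z fun _ => Set.univ) k := by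
          unfold w
          rw [mul_div_cancel₀ _ (by positivity)]
          apply sum_congr rfl
          intro r _
          simp only [DS, Set.mem_univ, and_true]
          split_ifs
          · exact Real.mul_self_sqrt (MM_pos k r).le
          · ring
        rw [e4, pow_add]
        have hw := w_nonneg (DS z fun _ => Set.univ) k
        have h6 : 2 ^ d * b ^ d * (2 ^ k * w (DS z fun _ => Set.univ) k) ≤
            2 ^ d * 1 * (2 ^ k * w (DS z fun _ => Set.univ) k) := by
          apply mul_le_mul_of_nonneg_right _ (by positivity)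
          exact mul_le_mul_of_nonneg_left hb (by positivity)
        linarith
      refine (sum_le_sum e3).trans ?_
      rw [← sum_mul, ← mul_sum]
      apply mul_le_mul_of_nonneg_right _ (Real.exp_pos _).le
      have := W_le_one (DS_cross z fun _ => Set.univ) m
      unfold W at this
      calc _ ≤ (2 : ℝ) ^ m * 1 := mul_le_mul_of_nonneg_left this h2m.le
        _ = _ := mul_one _
    linarith
  exact le_of_mul_le_mul_left key h2m

end Pool.Agent.H622.Ct
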