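import Mathlib
import Pool.Agent.H622.Gb4

set_option autoImplicit false

/-! The law of the parities given a large excursion, part 5: the first `k` parities. -/

namespace Pool.Agent.H622.Gb

open Finset Filter Topology Pool.Agent.Helper894.Collatz Pool.Agent.H828R3.Exc Pool.Agent.W36.SL
  Pool.Agent.H622.Sh

open scoped Classical in
/-- deviations have a small mass -/
theorem mass_dev (k : ℕ) {h s : ℝ} (hs : 0 ≤ s) (hs1 : s ≤ 1) :
    ∑ n ∈ range (2 ^ k), (if h ≤ |dv k n| then MM k n else 0) ≤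
      2 ^ k * (2 * Real.exp (k * s ^ 2 - s * h)) := by
  have a1 := moment_le k (s := s) (by rw [abs_of_nonneg hs]; exact hs1)
  have a2 := moment_le k (s := -s) (by rw [abs_neg, abs_of_nonneg hs]; exact hs1)
  rw [neg_sq] at a2
  have h1 : (∑ n ∈ range (2 ^ k), (if h ≤ |dv k n| then MM k n else 0)) * Real.exp (s * h) ≤
      ∑ n ∈ range (2 ^ k), MM k n * Real.exp (s * dv k n) +
      ∑ n ∈ range (2 ^ k), MM k n * Real.exp (-s * dv k n) := by
    rw [sum_mul, ← sum_add_distrib]
    apply sum_le_sum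
    intro n _
    have hM := MM_pos k n
    split_ifs with hn
    · rw [← mul_add]
      apply mul_le_mul_of_nonneg_left _ hM.le
      rcases le_total 0 (dv k n) with h0 | h0
      · rw [abs_of_nonneg h0] at hn
        have := Real.exp_le_exp.2 (mul_le_mul_of_nonneg_left hn hs)
        have := Real.exp_pos (-s * dv k n)
        linarith
      · rw [abs_of_nonpos h0] at hn
        have h7 := Real.exp_le_exp.2 (mul_le_mul_of_nonneg_left hn hs)
        have h8 := Real.exp_pos (s * dv k n)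
        have e5 : s * -dv k n = -s * dv k n := by ring
        rw [e5] at h7
        linarith
    · rw [zero_mul]; positivity
  have h2 : 0 < Real.exp (s * h) := Real.exp_pos _
  rw [Real.exp_sub]
  have h3 : (2 : ℝ) ^ k * (2 * (Real.exp (k * s ^ 2) / Real.exp (s * h))) =
      (2 ^ k * (2 * Real.exp (k * s ^ 2))) / Real.exp (s * h) := by ring
  rw [h3, le_div_iff₀ h2]
  linarith

/-- the words of length `k0` in `S`, not yet large -/
def DK (k0 : ℕ) (S : Set ℕ) (L1 lam : ℝ) (k n : ℕ) : Prop :=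
  k = k0 ∧ n % 2 ^ k0 ∈ S ∧ L1 * MM k0 n ≤ lam

theorem DK_cross (k0 : ℕ) (S : Set ℕ) (L1 lam : ℝ) : Cross (DK k0 S L1 lam) where
  per k x c := by
    unfold DK
    refine and_congr_right fun h => ?_
    subst h
    rw [Nat.add_mul_mod_self_left, MM_shift le_rfl]
  uniq n k k' h h' := h.1.trans h'.1.symm

open scoped Classical in
theorem W_DK (k0 : ℕ) (S : Set ℕ) (L1 lam : ℝ) {m : ℕ} (hm : k0 ≤ m) :
    W (DK k0 S L1 lam) m =
      (∑ r ∈ range (2 ^ k0), if r ∈ S ∧ L1 * MM k0 r ≤ lam then MM k0 r else 0) / 2 ^ k0 := by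
  unfold W
  rw [sum_eq_single k0]
  · unfold w
    congr 1
    apply sum_congr rfl
    intro r hr
    rw [mem_range] at hr
    unfold DK
    rw [Nat.mod_eq_of_lt hr]
    simp
  · intro k _ hk
    unfold w DK
    simp [hk]
  · intro h
    exact absurd (mem_range.2 (by omega)) h

/-- the mass of the set `S` of words of length `k` -/
noncomputable def PK (k : ℕ) (S : Set ℕ) : ℝ :=
  by classical exact (∑ r ∈ range (2 ^ k), if r ∈ S then MM k r else 0) / 2 ^ k

theorem mu_ge : (1 : ℝ) / 10 ≤ Real.log (27 / 16) / 4 := by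
  have h := Real.one_sub_inv_le_log_of_pos (show (0 : ℝ) < 27 / 16 by norm_num)
  have : (1 : ℝ) - (27 / 16)⁻¹ = 11 / 27 := by norm_num
  rw [this] at h
  linarith

open scoped Classical in
/-- GIBBS CONDITIONING for the first `k` parities -/
theorem window {θ θ' v : ℝ} (hθ : 0 < θ) (hθθ' : θ ≤ θ') (hθ' : θ' < 1) (hv : v < θ / 21)
    {ε : ℝ} (hε : 0 < ε) : ∃ K L0 x0 : ℝ, ∀ x Y lam : ℝ, x0 ≤ x → x ^ θ ≤ Y → Y ≤ x ^ θ' →
      L0 ≤ lam → lam ≤ x ^ v → ∀ k : ℕ,
      Real.log (27 / 16) / 4 * k + K * Real.sqrt (Real.log lam) ≤ Real.log lam → ∀ S : Set ℕ,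
      |(((Icc 1 ⌊x⌋₊).filter fun n => Exc lam Y n ∧ n % 2 ^ k ∈ S).card : ℝ) -
        PK k S * (((Icc 1 ⌊x⌋₊).filter (Exc lam Y)).card : ℝ)| ≤
        ε * (((Icc 1 ⌊x⌋₊).filter (Exc lam Y)).card : ℝ) := by
  have hC := C_pos
  set e : ℝ := min (C / 2) (ε * C / (2 * (C + 2))) with hedef
  have he : 0 < e := by
    rw [hedef]; exact lt_min (by linarith) (by positivity)
  have heC : e ≤ C / 2 := min_le_left _ _
  have heε : (C + 2) * e ≤ ε * (C / 2) := by
    have h : e ≤ ε * C / (2 * (C + 2)) := min_le_right _ _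
    rw [le_div_iff₀ (by positivity)] at h
    linarith
  have hv1 : v < 1 / 21 := by linarith
  have hμ := mu_ge
  set μ : ℝ := Real.log (27 / 16) / 4 with hμdef
  have hμ0 : 0 < μ := by linarith
  obtain ⟨L1, hL1, hcross⟩ := cross_asym hθ' hv1 he
  obtain ⟨La, xa, hunif⟩ := uniform hθ hθθ' hθ' hv he
  obtain ⟨x1, hx1⟩ := eventually_atTop.1 (hcross.and
    (tendsto_atTop.1 Real.tendsto_log_atTop 4))
  -- the constant of the window
  set K : ℝ := 1 + 16 * |Real.log (2 / e)| / μ with hK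
  have hK1 : 1 ≤ K := by
    have : 0 ≤ 16 * |Real.log (2 / e)| / μ := by positivity
    linarith
  have hKe : Real.log (2 / e) ≤ K ^ 2 * μ / 16 := by
    have h1 : 16 * |Real.log (2 / e)| / μ ≤ K ^ 2 := by
      have : K ≤ K ^ 2 := by nlinarith
      linarith
    rw [div_le_iff₀ hμ0] at h1
    have := le_abs_self (Real.log (2 / e))
    linarith
  refine ⟨K, max (max La L1) (Real.exp ((2 * Real.log L1 + K * μ + 1) ^ 2 + 1)), max (max xa x1) 1, ?_⟩
  intro x Y lam hx hY1 hY2 hlam hlamx k hk S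
  have hxa : xa ≤ x := (le_max_left _ _).trans ((le_max_left _ _).trans hx)
  have hxx1 : x1 ≤ x := (le_max_right _ _).trans ((le_max_left _ _).trans hx)
  have hxone : 1 ≤ x := (le_max_right _ _).trans hx
  have hx0 : 0 < x := by linarith
  have hlamLa : La ≤ lam := (le_max_left _ _).trans ((le_max_left _ _).trans hlam)
  have hlamL1 : L1 ≤ lam := (le_max_right _ _).trans ((le_max_left _ _).trans hlam)
  have hlamE := (le_max_right (max La L1) (Real.exp ((2 * Real.log L1 + K * μ + 1) ^ 2 + 1))).trans hlam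
  have hlam0 : 0 < lam := by linarith
  set Λ := Real.log lam with hΛ
  have hlogL1 : 0 ≤ Real.log L1 := Real.log_nonneg hL1
  have hΛ1 : (2 * Real.log L1 + K * μ + 1) ^ 2 + 1 ≤ Λ := by
    rw [hΛ, ← Real.log_exp ((2 * Real.log L1 + K * μ + 1) ^ 2 + 1)]
    exact Real.log_le_log (Real.exp_pos _) hlamE
  have hΛ0 : 0 < Λ := by
    have := sq_nonneg (2 * Real.log L1 + K * μ + 1); linarith
  have hsΛ : 2 * Real.log L1 + K * μ + 1 ≤ Real.sqrt Λ := by
    apply Real.le_sqrt_of_sq_le; linarith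
  have hKμ : 0 < K * μ := by positivity
  have hsΛ0 : 0 < Real.sqrt Λ := Real.sqrt_pos.2 hΛ0
  have hsΛsq : Real.sqrt Λ * Real.sqrt Λ = Λ := Real.mul_self_sqrt hΛ0.le
  obtain ⟨hcr, g1⟩ := hx1 x hxx1
  have hY0 : 0 ≤ Y := le_trans (by positivity) hY1
  obtain ⟨J, hJ1, hJ2⟩ := near (Real.one_le_rpow hxone (show (0 : ℝ) ≤ 20 / 21 by norm_num))
  set m := J / 2 with hm
  have hmJ : 2 * m ≤ J := by omega
  have hxl : 0 < x / lam := by positivity
  have hk0 : (0 : ℝ) ≤ k := Nat.cast_nonneg k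
  have hkΛ : μ * k ≤ Λ := by
    have : 0 ≤ K * Real.sqrt Λ := by positivity
    linarith
  -- `k ≤ m`
  have hkm : k ≤ m := by
    have h1 : Λ ≤ 1 / 21 * Real.log x := by
      have h2 : Λ ≤ v * Real.log x := by
        rw [hΛ, ← Real.log_rpow hx0]; exact Real.log_le_log hlam0 hlamx
      have h3 : 0 ≤ Real.log x := by linarith
      nlinarith
    have h2 : (k : ℝ) ≤ 10 / 21 * Real.log x := by nlinarith
    have h3 : 20 / 21 * Real.log x ≤ ((J : ℝ) + 1) * Real.log 2 := by
      have h4 := Real.log_le_log (by positivity) hJ2.le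
      rw [Real.log_rpow hx0, Real.log_pow] at h4
      push_cast at h4
      exact h4
    have h4 := Real.log_two_lt_d9
    have h5 : 2 * (k : ℝ) < J + 1 := by
      have h6 : ((J : ℝ) + 1) * Real.log 2 ≤ ((J : ℝ) + 1) * 0.6931471808 :=
        mul_le_mul_of_nonneg_left h4.le (by positivity)
      have h7 : 20 / 21 * Real.log x ≤ ((J : ℝ) + 1) * 0.6931471808 := h3.trans h6
      nlinarith
    have h6 : 2 * k < J + 1 := by exact_mod_cast h5
    omega
  have hbound : ∀ (S : Set ℕ) (k' : ℕ), k' ≤ m → ∀ n, DK k S L1 lam k' n → L1 * MM k' n ≤ lam := by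
    intro S k' _ n hn
    rw [hn.1]; exact hn.2.2
  have c1 := hcr Y lam J m (DK k S L1 lam) hY0 hY2 hlamL1 hlamx hJ1 hJ2 hmJ (DK_cross k S L1 lam)
    (hbound S)
  have c2 := hcr Y lam J m (DK k Sᶜ L1 lam) hY0 hY2 hlamL1 hlamx hJ1 hJ2 hmJ (DK_cross k _ L1 lam)
    (hbound _)
  have hun := abs_le.1 (hunif x Y lam hxa hY1 hY2 hlamLa hlamx)
  have h2k : (0 : ℝ) < 2 ^ k := by positivity
  -- the masses
  have hW1 := W_DK k S L1 lam hkm
  have hW2 := W_DK k Sᶜ L1 lam hkm
  have hP : PK k S = (∑ r ∈ range (2 ^ k), if r ∈ S then MM k r else 0) / 2 ^ k := by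
    unfold PK; congr!
  have h7 : W (DK k S L1 lam) m ≤ PK k S := by
    rw [hW1, hP]
    apply div_le_div_of_nonneg_right _ h2k.le
    apply sum_le_sum
    intro r _
    have := MM_pos k r
    by_cases h : r ∈ S
    · simp only [h, true_and, if_true]
      split_ifs <;> linarith
    · simp [h]
  have h8 : PK k S ≤ 1 - W (DK k Sᶜ L1 lam) m := by
    rw [hW2, hP, le_sub_iff_add_le, ← add_div, div_le_one h2k, ← sum_add_distrib, ← sum_MM k]
    apply sum_le_sum
    intro r _
    have := MM_pos k r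
    by_cases h : r ∈ S
    · simp [h]
    · simp only [h, if_false, Set.mem_compl_iff, not_false_eq_true, true_and, zero_add]
      split_ifs <;> linarith
  have h9 : 1 - e ≤ W (DK k S L1 lam) m + W (DK k Sᶜ L1 lam) m := by
    -- the mass of the large words
    set h : ℝ := K / 2 * Real.sqrt Λ with hh
    set s : ℝ := K * μ / (4 * Real.sqrt Λ) with hs
    have hs0 : 0 ≤ s := by positivity
    have hs1 : s ≤ 1 := by
      rw [hs, div_le_one (by positivity)]; linarith
    have hmd := mass_dev k (h := h) hs0 hs1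
    have h1 : ∑ r ∈ range (2 ^ k), MM k r ≤
        (∑ r ∈ range (2 ^ k), if r ∈ S ∧ L1 * MM k r ≤ lam then MM k r else 0) +
        (∑ r ∈ range (2 ^ k), if r ∈ Sᶜ ∧ L1 * MM k r ≤ lam then MM k r else 0) +
        ∑ n ∈ range (2 ^ k), (if h ≤ |dv k n| then MM k n else 0) := by
      rw [← sum_add_distrib, ← sum_add_distrib]
      apply sum_le_sum
      intro r _
      have hM := MM_pos k r
      have hnn : 0 ≤ (if h ≤ |dv k r| then MM k r else 0) := by split_ifs <;> linarith
      by_cases h1 : L1 * MM k r ≤ lam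
      · by_cases h2 : r ∈ S
        · simp only [h1, h2, Set.mem_compl_iff, not_true_eq_false, and_true, if_true, if_false,
            add_zero]
          linarith
        · simp only [h1, h2, Set.mem_compl_iff, not_false_eq_true, and_true, if_true, if_false,
            zero_add]
          linarith
      · have h2 : h ≤ |dv k r| := by
          push Not at h1
          have h3 := Real.log_le_log hlam0 h1.le
          rw [Real.log_mul (by linarith) hM.ne', log_MM] at h3
          have h4 : Λ - Real.log L1 - μ * k ≤ dv k r := by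
            rw [← hΛ, ← hμdef] at h3
            linarith
          have h5 : K / 2 * Real.sqrt Λ ≥ 1 / 2 * Real.sqrt Λ :=
            mul_le_mul_of_nonneg_right (by linarith) hsΛ0.le
          have h6 : h ≤ dv k r := by
            rw [hh]
            have : K * Real.sqrt Λ = K / 2 * Real.sqrt Λ + K / 2 * Real.sqrt Λ := by ring
            linarith
          exact h6.trans (le_abs_self _)
        simp [h1, h2]
    rw [sum_MM] at h1
    have h2 : 2 * Real.exp (k * s ^ 2 - s * h) ≤ e := by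
      have h3 : (k : ℝ) * s ^ 2 - s * h ≤ -(K ^ 2 * μ / 16) := by
        have h4 : (k : ℝ) * s ^ 2 ≤ K ^ 2 * μ / 16 := by
          have e1 : s ^ 2 = K ^ 2 * μ * (μ / (16 * Λ)) := by
            rw [hs, div_pow, mul_pow, mul_pow, sq (Real.sqrt Λ), hsΛsq]
            field_simp
            ring
          rw [e1]
          have e2 : (k : ℝ) * (K ^ 2 * μ * (μ / (16 * Λ))) = K ^ 2 * μ / 16 * ((μ * k) / Λ) := by
            field_simp
          rw [e2]
          have e3 : (μ * k) / Λ ≤ 1 := (div_le_one hΛ0).2 hkΛ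
          calc K ^ 2 * μ / 16 * ((μ * k) / Λ) ≤ K ^ 2 * μ / 16 * 1 :=
                mul_le_mul_of_nonneg_left e3 (by positivity)
            _ = _ := mul_one _
        have h5 : s * h = K ^ 2 * μ / 8 := by
          rw [hs, hh]; field_simp; ring
        rw [h5]; linarith
      have h6 : Real.exp (k * s ^ 2 - s * h) ≤ e / 2 := by
        refine (Real.exp_le_exp.2 (h3.trans (neg_le_neg hKe))).trans (le_of_eq ?_)
        rw [Real.exp_neg, Real.exp_log (by positivity), inv_div]
      linarith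
    have hW2' : W (DK k Sᶜ L1 lam) m = (∑ r ∈ range (2 ^ k),
        if r ∈ Sᶜ ∧ L1 * MM k r ≤ lam then MM k r else 0) / 2 ^ k := by
      rw [hW2]; congr!
    rw [hW1, hW2', ← add_div, le_div_iff₀ h2k]
    have h3 : (2 : ℝ) ^ k * (2 * Real.exp (k * s ^ 2 - s * h)) ≤ 2 ^ k * e :=
      mul_le_mul_of_nonneg_left h2 h2k.le
    linarith
  have h3 : (((Icc 1 ⌊x⌋₊).filter fun n => Exc lam Y n ∧ ∃ k' ≤ m, DK k S L1 lam k' n).card : ℝ) ≤
      (((Icc 1 ⌊x⌋₊).filter fun n => Exc lam Y n ∧ n % 2 ^ k ∈ S).card : ℝ) := by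
    apply Nat.cast_le.2
    apply card_le_card
    intro n hn
    rw [mem_filter] at hn ⊢
    obtain ⟨a1, a2, k', -, a3⟩ := hn
    exact ⟨a1, a2, a3.2.1⟩
  have h4 : (((Icc 1 ⌊x⌋₊).filter fun n => Exc lam Y n ∧ n % 2 ^ k ∈ S).card : ℝ) +
      (((Icc 1 ⌊x⌋₊).filter fun n => Exc lam Y n ∧ ∃ k' ≤ m, DK k Sᶜ L1 lam k' n).card : ℝ) ≤
      (((Icc 1 ⌊x⌋₊).filter (Exc lam Y)).card : ℝ) := by
    rw [← Nat.cast_add, ← card_union_of_disjoint]
    · apply Nat.cast_le.2
      apply card_le_card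
      intro n hn
      rw [mem_union, mem_filter, mem_filter] at hn
      rw [mem_filter]
      rcases hn with hn | hn
      · exact ⟨hn.1, hn.2.1⟩
      · exact ⟨hn.1, hn.2.1⟩
    · rw [disjoint_left]
      intro n hn hn'
      rw [mem_filter] at hn hn'
      obtain ⟨-, -, k', -, hk1'⟩ := hn'
      exact hk1'.2.1 hn.2.2
  have key := sandwich hC he hxl c1 c2 h3 h4 (by linarith [hun.2]) h7 h8 h9 (W_nonneg _ _) (W_nonneg _ _)
  refine key.trans ?_
  have h5 : C / 2 * (x / lam) ≤ (((Icc 1 ⌊x⌋₊).filter (Exc lam Y)).card : ℝ) := by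
    have : C / 2 * (x / lam) ≤ (C - e) * (x / lam) := mul_le_mul_of_nonneg_right (by linarith) hxl.le
    linarith [hun.1]
  calc (C + 2) * e * (x / lam) ≤ ε * (C / 2) * (x / lam) := mul_le_mul_of_nonneg_right heε hxl.le
    _ = ε * (C / 2 * (x / lam)) := by ring
    _ ≤ _ := mul_le_mul_of_nonneg_left h5 hε.le

end Pool.Agent.H622.Gb
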