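import Mathlib
import Pool.Agent.H622.Ct3
import Pool.Agent.H622.Gb5

set_option autoImplicit false

/-! The passage time given a large excursion, part 4: the limit of the mass of the words. -/

namespace Pool.Agent.H622.Ct

open Finset Filter Topology MeasureTheory ProbabilityTheory Pool.Agent.Helper894.Collatz
  Pool.Agent.H828R3.Exc Pool.Agent.W36.SL Pool.Agent.H622.Sh Pool.Agent.H622.Gb

/-- the drift -/
noncomputable def mu' : ℝ := Real.log (27 / 16) / 4

theorem mu'_ge : 1 / 10 ≤ mu' := mu_ge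

theorem mu'_pos : 0 < mu' := by have := mu'_ge; linarith

/-- the standard deviation of the passage time -/
noncomputable def sg : ℝ := Real.sqrt 3 / 4 * Real.log 3 / (mu' * Real.sqrt mu')

theorem sg_pos : 0 < sg := by
  unfold sg
  have := mu'_pos
  have : 0 < Real.log 3 := Real.log_pos (by norm_num)
  positivity

theorem thr_eq (m : ℕ) (z : ℝ) (u s : ℝ) :
    thr m z + u = u * (1 - s / (Real.sqrt mu' * Real.sqrt m)) +
      4 / (Real.sqrt 3 * Real.log 3) * (Real.log z - m * mu' + u * sg * mu' * s) / Real.sqrt m := by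
  have h1 := mu'_pos
  have h2 : 0 < Real.sqrt mu' := Real.sqrt_pos.2 h1
  have h3 : 0 < Real.log 3 := Real.log_pos (by norm_num)
  have h4 : 0 < Real.sqrt 3 := Real.sqrt_pos.2 (by norm_num)
  have e : 4 / (Real.sqrt 3 * Real.log 3) * (u * sg * mu' * s) = u * (s / Real.sqrt mu') := by
    unfold sg
    field_simp
  have e2 : thr m z = 4 / (Real.sqrt 3 * Real.log 3) * (Real.log z - m * mu') / Real.sqrt m := by
    unfold thr
    rw [← mu']
    rw [div_eq_mul_inv _ (Real.sqrt m)]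
    field_simp
  rw [e2, mul_add (4 / (Real.sqrt 3 * Real.log 3)), e, add_div, mul_sub u]
  have e3 : u * (s / (Real.sqrt mu' * Real.sqrt m)) = u * (s / Real.sqrt mu') / Real.sqrt m := by
    rw [← div_div, mul_div_assoc]
  rw [e3]
  ring

theorem one_sub_sqrt {t : ℝ} (ht : 0 ≤ t) : |1 - Real.sqrt t| ≤ |1 - t| := by
  have h1 := Real.sqrt_nonneg t
  have h2 := Real.mul_self_sqrt ht
  have e : 1 - t = (1 - Real.sqrt t) * (1 + Real.sqrt t) := by nlinarith
  rw [e, abs_mul]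
  have h3 : 1 ≤ |1 + Real.sqrt t| := by
    rw [abs_of_nonneg (by linarith)]; linarith
  nlinarith [abs_nonneg (1 - Real.sqrt t)]

theorem thr_lim (u A : ℝ) (hA : 0 ≤ A) {δ : ℝ} (hδ : 0 < δ) (m0 : ℕ) : ∃ Λ0 : ℝ, ∀ Λ, Λ0 ≤ Λ →
    ∀ (m : ℕ) (z : ℝ), |(m : ℝ) - (Λ / mu' + u * sg * Real.sqrt Λ)| ≤ A → |Real.log z - Λ| ≤ A →
    |thr m z + u| ≤ δ ∧ m0 ≤ m ∧ 0 < m := by
  have hμ := mu'_pos
  have hsg := sg_pos
  have h3 : 0 < Real.log 3 := Real.log_pos (by norm_num)
  have h4 : 0 < Real.sqrt 3 := Real.sqrt_pos.2 (by norm_num)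
  set B : ℝ := |u| * sg + A + 1 with hB
  have hB1 : 1 ≤ B := by rw [hB]; have := abs_nonneg u; nlinarith [mul_nonneg this hsg.le]
  set D : ℝ := 2 * mu' * B * |u| + 4 / (Real.sqrt 3 * Real.log 3) * (A + A * mu') * Real.sqrt (2 * mu')
    with hD
  have hD0 : 0 ≤ D := by positivity
  set s0 : ℝ := 1 + 2 * mu' * B + D / δ + 2 * mu' * (m0 + 1) with hs0
  have hs01 : 1 ≤ s0 := by
    have : 0 ≤ 2 * mu' * B + D / δ + 2 * mu' * (m0 + 1) := by positivity
    linarith
  refine ⟨s0 ^ 2, fun Λ hΛ m z hm hz => ?_⟩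
  set s : ℝ := Real.sqrt Λ with hs
  have hΛ0 : 0 ≤ Λ := (sq_nonneg s0).trans hΛ
  have hss : s * s = Λ := Real.mul_self_sqrt hΛ0
  have hs1 : s0 ≤ s := Real.le_sqrt_of_sq_le hΛ
  have c1 : 1 ≤ s := by linarith
  have c2 : 2 * mu' * B ≤ s := by
    have : 0 ≤ D / δ + 2 * mu' * (m0 + 1) := by positivity
    linarith
  have c3 : D / δ ≤ s := by
    have : 0 ≤ 2 * mu' * B + 2 * mu' * ((m0 : ℝ) + 1) := by positivity
    linarith
  have c4 : 2 * mu' * (m0 + 1) ≤ s := by
    have : 0 ≤ 2 * mu' * B + D / δ := by positivity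
    linarith
  have hs0' : 0 < s := by linarith
  have hus : |u * sg * s| ≤ |u| * sg * s := by
    rw [abs_mul, abs_mul, abs_of_pos hsg, abs_of_pos hs0']
  have hd : |(m : ℝ) - Λ / mu'| ≤ B * s := by
    have e : (m : ℝ) - Λ / mu' = ((m : ℝ) - (Λ / mu' + u * sg * s)) + u * sg * s := by ring
    rw [e]
    refine (abs_add_le _ _).trans ?_
    have : B * s = |u| * sg * s + A * s + s := by rw [hB]; ring
    have h5 : A ≤ A * s := le_mul_of_one_le_right hA c1
    linarith
  have hm1 : Λ / (2 * mu') ≤ m := by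
    have h5 := (abs_le.1 hd).1
    have h6 : B * s ≤ Λ / (2 * mu') := by
      rw [le_div_iff₀ (by positivity), ← hss]
      nlinarith
    have h7 : Λ / mu' = Λ / (2 * mu') + Λ / (2 * mu') := by field_simp; ring
    linarith
  have hsl : s ≤ Λ := by rw [← hss]; nlinarith
  have hm2 : (m0 : ℝ) + 1 ≤ m := by
    refine le_trans ?_ hm1
    rw [le_div_iff₀ (by positivity)]
    linarith
  have hmpos : (0 : ℝ) < m := by
    have : (0 : ℝ) ≤ m0 := Nat.cast_nonneg m0
    linarith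
  refine ⟨?_, ?_, by exact_mod_cast hmpos⟩
  swap
  · have : (m0 : ℝ) ≤ m := by linarith
    exact_mod_cast this
  have hsm : 0 < Real.sqrt m := Real.sqrt_pos.2 hmpos
  rw [thr_eq m z u s]
  have a1 : |1 - s / (Real.sqrt mu' * Real.sqrt m)| ≤ 2 * mu' * B / s := by
    have e1 : s / (Real.sqrt mu' * Real.sqrt m) = Real.sqrt (Λ / (mu' * m)) := by
      rw [Real.sqrt_div hΛ0, Real.sqrt_mul hμ.le]
    rw [e1]
    refine (one_sub_sqrt (by positivity)).trans ?_
    have e2 : 1 - Λ / (mu' * m) = ((m : ℝ) - Λ / mu') / m := by field_simp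
    rw [e2, abs_div, abs_of_pos hmpos, div_le_div_iff₀ hmpos hs0']
    have h5 : |(m : ℝ) - Λ / mu'| * s ≤ B * s * s := mul_le_mul_of_nonneg_right hd hs0'.le
    have h6 : Λ ≤ 2 * mu' * m := by
      rw [div_le_iff₀ (by positivity)] at hm1; linarith
    have h7 : B * s * s ≤ 2 * mu' * B * m := by
      rw [mul_assoc, hss]
      nlinarith
    linarith
  have a2 : |Real.log z - m * mu' + u * sg * mu' * s| ≤ A + A * mu' := by
    have e1 : Real.log z - m * mu' + u * sg * mu' * s = (Real.log z - Λ) +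
        -(((m : ℝ) - (Λ / mu' + u * sg * s)) * mu') := by
      field_simp; ring
    rw [e1]
    refine (abs_add_le _ _).trans ?_
    rw [abs_neg, abs_mul, abs_of_pos hμ]
    have := mul_le_mul_of_nonneg_right hm hμ.le
    linarith
  have a3 : 1 / Real.sqrt m ≤ Real.sqrt (2 * mu') / s := by
    rw [div_le_div_iff₀ hsm hs0', one_mul, ← Real.sqrt_mul (by positivity), hs]
    apply Real.sqrt_le_sqrt
    rw [div_le_iff₀ (by positivity)] at hm1; linarith
  refine (abs_add_le _ _).trans ?_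
  rw [abs_mul, abs_div, abs_mul, abs_of_pos hsm,
    abs_of_pos (show 0 < 4 / (Real.sqrt 3 * Real.log 3) by positivity)]
  have b1 : |u| * |1 - s / (Real.sqrt mu' * Real.sqrt m)| ≤ |u| * (2 * mu' * B / s) :=
    mul_le_mul_of_nonneg_left a1 (abs_nonneg u)
  have b2 : 4 / (Real.sqrt 3 * Real.log 3) * |Real.log z - m * mu' + u * sg * mu' * s| / Real.sqrt m ≤
      4 / (Real.sqrt 3 * Real.log 3) * (A + A * mu') * (Real.sqrt (2 * mu') / s) := by
    rw [div_eq_mul_one_div]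
    apply mul_le_mul _ a3 (by positivity) (by positivity)
    exact mul_le_mul_of_nonneg_left a2 (by positivity)
  have b3 : |u| * (2 * mu' * B / s) + 4 / (Real.sqrt 3 * Real.log 3) * (A + A * mu') *
      (Real.sqrt (2 * mu') / s) = D / s := by
    rw [hD]; ring
  have b4 : D / s ≤ δ := by
    rw [div_le_iff₀ hs0']
    rw [div_le_iff₀ hδ] at c3
    linarith
  linarith

/-- the limit of the mass -/
theorem W_lim (u A : ℝ) (hA : 0 ≤ A) {ε : ℝ} (hε : 0 < ε) : ∃ Λ0 : ℝ, ∀ Λ, Λ0 ≤ Λ →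
    ∀ (m : ℕ) (z : ℝ), 0 < z → |(m : ℝ) - (Λ / mu' + u * sg * Real.sqrt Λ)| ≤ A →
    |Real.log z - Λ| ≤ A → |W (DS z fun _ => Set.univ) m - Phi u| ≤ ε := by
  obtain ⟨δ, hδ, m0, hm0⟩ := nu_unif u (show 0 < ε / 2 by linarith)
  set h : ℝ := 2 * |Real.log (2 / ε)| with hh
  have hh0 : 0 ≤ h := by positivity
  have hexp : Real.exp (-h / 2) ≤ ε / 2 := by
    have h1 : -h / 2 ≤ -Real.log (2 / ε) := by
      rw [hh]
      have := le_abs_self (Real.log (2 / ε))
      linarith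
    refine (Real.exp_le_exp.2 h1).trans (le_of_eq ?_)
    rw [Real.exp_neg, Real.exp_log (by positivity), inv_div]
  obtain ⟨Λ0, hΛ0⟩ := thr_lim u (A + h) (by positivity) hδ m0
  refine ⟨Λ0, fun Λ hΛ m z hz hm hlz => ?_⟩
  have d1 := hΛ0 Λ hΛ m z (by linarith) (by linarith)
  have e1 : Real.log (z * Real.exp (-h)) = Real.log z + -h := by
    rw [Real.log_mul hz.ne' (Real.exp_pos _).ne', Real.log_exp]
  have d2 := hΛ0 Λ hΛ m (z * Real.exp (-h)) (by linarith) (by
    rw [e1]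
    have : Real.log z + -h - Λ = (Real.log z - Λ) + -h := by ring
    rw [this]
    refine (abs_add_le _ _).trans ?_
    rw [abs_neg, abs_of_nonneg hh0]
    linarith)
  have f1 := hm0 m d1.2.1 _ d1.1
  have f2 := hm0 m d2.2.1 _ d2.1
  have g1 := W_lower d1.2.2 hz
  have g2 := W_upper d1.2.2 hz (h := h)
  rw [abs_le] at f1 f2 ⊢
  constructor <;> linarith

end Pool.Agent.H622.Ct
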