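import Mathlib
import Pool.Agent.H622.Ct4

set_option autoImplicit false

/-! The passage time given a large excursion, part 5: late visits. -/

namespace Pool.Agent.H622.Ct

open Finset Filter Topology Pool.Agent.Helper894.Collatz Pool.Agent.H828R3.Exc Pool.Agent.W36.SL
  Pool.Agent.H377R2 Pool.Agent.H319R2.Lln

/-- the trajectory is above `lam * n` after more than `J` steps, before it reaches a value `≤ Y` -/
def Late2 (lam Y : ℝ) (J n : ℕ) : Prop :=
  ∃ k, J < k ∧ lam * n < (T^[k] n : ℕ) ∧ ∀ j ≤ k, Y < (T^[j] n : ℕ)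

open scoped Classical in
theorem late2_fin {N J d l K : ℕ} {lam Y : ℝ} (hlam : 0 < lam) (hY : 2 ^ l ≤ Y)
    (hr : (1 + 1 / (3 * Y)) ^ J ≤ 2) (hK : N < 2 ^ K) (hM : 2 * (K * K) ≤ 2 ^ l) :
    (((Icc 1 N).filter (Late2 lam Y J)).card : ℝ) ≤
      (N + 1 + 2 ^ J) * (b ^ J * Real.sqrt (2 ^ (d + 1))) +
      8 * (K * K + 2) ^ 2 * (K + 1) ^ 2 * (2 ^ K * rho ^ l + 2 * (2 ^ K / 2 ^ d) / lam) := by
  have hY0 : 0 < Y := lt_of_lt_of_le (by positivity) hY
  set R : ℝ := (1 + 1 / (3 * Y)) ^ J with hR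
  have hr1 : (1 : ℝ) ≤ 1 + 1 / (3 * Y) := by
    have : 0 < 1 / (3 * Y) := by positivity
    linarith
  have hR1 : 1 ≤ R := one_le_pow₀ hr1
  have hR0 : 0 < R := by linarith
  set mu : ℝ := (2 ^ (d + 1))⁻¹ with hmu
  have hmu0 : 0 < mu := by positivity
  -- the late part
  let S3 : ℕ → Finset ℕ := fun k => (range (2 ^ k)).filter fun n =>
    0 < n ∧ 2 ^ k ≤ 2 * n ∧ ∃ b, J < b ∧ MM J n < mu ∧ lam * n < (T^[b] n : ℕ) ∧
      ∀ j ≤ b, Y < (T^[j] n : ℕ)
  have hsub : (Icc 1 N).filter (Late2 lam Y J) ⊆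
      ((range (N + 1)).filter fun n => mu ≤ MM J n) ∪ (range (K + 1)).biUnion S3 := by
    intro n hn
    rw [mem_filter, mem_Icc] at hn
    obtain ⟨⟨hn1, hn2⟩, k0, hJ, hk1, hk2⟩ := hn
    have hnr : n ∈ range (N + 1) := mem_range.2 (by omega)
    have hn0 : (0 : ℝ) < n := by exact_mod_cast hn1
    rw [mem_union]
    by_cases hmuM : mu ≤ MM J n
    · left
      exact mem_filter.2 ⟨hnr, hmuM⟩
    · right
      rw [mem_biUnion]
      have hn0' : n ≠ 0 := by omega
      refine ⟨Nat.log 2 n + 1, ?_, ?_⟩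
      · rw [mem_range]
        have : Nat.log 2 n < K := Nat.log_lt_of_lt_pow hn0' (by omega)
        omega
      · simp only [S3, mem_filter, mem_range]
        refine ⟨Nat.lt_pow_succ_log_self (by norm_num) _, by omega, ?_, k0, by omega,
          not_le.1 hmuM, hk1, hk2⟩
        have := Nat.pow_log_le_self 2 hn0'
        rw [pow_succ]; omega
  have hcard : (((Icc 1 N).filter (Late2 lam Y J)).card : ℝ) ≤
      (((range (N + 1)).filter fun n => mu ≤ MM J n).card : ℝ) +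
      ∑ k ∈ range (K + 1), ((S3 k).card : ℝ) := by
    have h1 := (card_le_card hsub).trans ((card_union_le _ _).trans
      (Nat.add_le_add le_rfl card_biUnion_le))
    exact_mod_cast h1
  have c2 := card_MM_N J (N + 1) hmu0
  have hrho := rho_pos
  have c3 : ∀ k ∈ range (K + 1), ((S3 k).card : ℝ) ≤
      8 * (K * K + 2) ^ 2 * (K + 1) * (2 ^ K * rho ^ l + 2 * (2 ^ K / 2 ^ d) / lam) := by
    intro k hk
    rw [mem_range] at hk
    have hRHS : 0 ≤ 8 * ((K : ℝ) * K + 2) ^ 2 * (K + 1) * (2 ^ K * rho ^ l + 2 * (2 ^ K / 2 ^ d) / lam) := by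
      positivity
    by_cases hlk : l ≤ k
    swap
    · have : S3 k = ∅ := by
        rw [eq_empty_iff_forall_notMem]
        intro n hn
        simp only [S3, mem_filter, mem_range] at hn
        obtain ⟨h1, h2, h3, b, h4, h5, h6, h7⟩ := hn
        have h8 := h7 0 (by omega)
        simp only [Function.iterate_zero, id] at h8
        have h9 : (n : ℝ) < 2 ^ k := by exact_mod_cast h1
        have h10 : (2 : ℝ) ^ k ≤ 2 ^ l := pow_le_pow_right₀ (by norm_num) (by omega)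
        linarith
      rw [this, card_empty, Nat.cast_zero]; exact hRHS
    -- the size of the dip
    have hdip : ∀ n ∈ S3 k, ((T^[J] n : ℕ) : ℝ) * 2 ^ d < 2 ^ k := by
      intro n hn
      simp only [S3, mem_filter, mem_range] at hn
      obtain ⟨h1, h2, h3, b, h4, h5, h6, h7⟩ := hn
      have h9 : (n : ℝ) < 2 ^ k := by exact_mod_cast h1
      have h10 := iter_le hY0 n J fun j hj => (h7 j (by omega)).le
      have hM0 := MM_pos J n
      have hn0 : (0 : ℝ) < n := by exact_mod_cast h2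
      calc ((T^[J] n : ℕ) : ℝ) * 2 ^ d ≤ MM J n * n * R * 2 ^ d := by
            apply mul_le_mul_of_nonneg_right h10 (by positivity)
        _ ≤ mu * n * 2 * 2 ^ d := by
            apply mul_le_mul_of_nonneg_right _ (by positivity)
            apply mul_le_mul _ hr hR0.le (by positivity)
            exact mul_le_mul_of_nonneg_right h5.le hn0.le
        _ = n := by rw [hmu, pow_succ]; field_simp
        _ < _ := h9
    by_cases hdk : d ≤ k
    swap
    · have : S3 k = ∅ := by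
        rw [eq_empty_iff_forall_notMem]
        intro n hn
        have h1 := hdip n hn
        simp only [S3, mem_filter, mem_range] at hn
        obtain ⟨h1', h2, h3, b, h4, h5, h6, h7⟩ := hn
        have h8 := h7 J (by omega)
        have h9 : (0 : ℝ) < (T^[J] n : ℕ) := by linarith
        have h10 : (1 : ℝ) ≤ (T^[J] n : ℕ) := by exact_mod_cast h9
        have h11 : (2 : ℝ) ^ k ≤ 2 ^ d := pow_le_pow_right₀ (by norm_num) (by omega)
        have h12 : (0 : ℝ) < 2 ^ d := by positivity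
        nlinarith
      rw [this, card_empty, Nat.cast_zero]; exact hRHS
    have hk2 : (0 : ℝ) < 2 ^ k := by positivity
    set V : ℝ := lam * (2 ^ k / 2) with hV
    have hV0 : 0 < V := by positivity
    have hkK : (k : ℝ) ≤ K := by exact_mod_cast (by omega : k ≤ K)
    have h := late hlk (Nat.sub_le k d) (le_trans (Nat.mul_le_mul_left _ (Nat.mul_le_mul (by omega) (by omega))) hM) hV0 (S3 k) (by
      intro n hn
      have h1 := hdip n hn
      simp only [S3, mem_filter, mem_range] at hn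
      obtain ⟨h1', h2, h3, b, h4, h5, h6, h7⟩ := hn
      refine ⟨h2, h1', J, b, h4.le, ?_, ?_, ?_⟩
      · have h8 : T^[J] n * 2 ^ d < 2 ^ (k - d) * 2 ^ d := by
          rw [← pow_add, Nat.sub_add_cancel hdk]
          exact_mod_cast h1
        exact lt_of_mul_lt_mul_right h8 (Nat.zero_le _)
      · refine lt_of_le_of_lt ?_ h6
        rw [hV]
        apply mul_le_mul_of_nonneg_left _ hlam.le
        have : ((2 : ℝ) ^ k) ≤ 2 * n := by exact_mod_cast h3
        linarith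
      · intro j hj
        have h8 := h7 j hj
        have h9 : (2 : ℝ) ^ l ≤ (T^[j] n : ℕ) := by linarith
        exact_mod_cast h9)
    refine h.trans ?_
    have e1 : (2 : ℝ) ^ k * 2 ^ (k - d) / V = 2 * (2 ^ k / 2 ^ d) / lam := by
      have : (2 : ℝ) ^ (k - d) = 2 ^ k / 2 ^ d := by
        rw [eq_div_iff (by positivity), ← pow_add, Nat.sub_add_cancel hdk]
      rw [this, hV]
      field_simp
    rw [e1]
    have h2kK : (2 : ℝ) ^ k ≤ 2 ^ K := pow_le_pow_right₀ (by norm_num) (by omega)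
    gcongr
  have c3' : ∑ k ∈ range (K + 1), ((S3 k).card : ℝ) ≤
      8 * (K * K + 2) ^ 2 * (K + 1) ^ 2 * (2 ^ K * rho ^ l + 2 * (2 ^ K / 2 ^ d) / lam) := by
    refine (sum_le_sum c3).trans (le_of_eq ?_)
    rw [sum_const, card_range, nsmul_eq_mul]
    push_cast; ring
  have e2 : b ^ J / Real.sqrt mu = b ^ J * Real.sqrt (2 ^ (d + 1)) := by
    rw [hmu, Real.sqrt_inv, div_inv_eq_mul]
  rw [e2] at c2
  push_cast at c2
  linarith

open scoped Classical in
theorem late2_asym {θ v : ℝ} (hθ : 0 < θ) (hθ1 : θ < 1) (hv : v < θ / 21) :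
    ∀ᶠ x in (atTop : Filter ℝ), ∀ (Y lam : ℝ) (J : ℕ),
      x ^ θ ≤ Y → 0 < lam → lam ≤ x ^ v → (2 : ℝ) ^ J ≤ x ^ (20 / 21 : ℝ) →
      x ^ (20 / 21 : ℝ) < 2 ^ (J + 1) →
      (((Icc 1 ⌊x⌋₊).filter (Late2 lam Y J)).card : ℝ) ≤
        x ^ (-((θ / 21 - v) / 4)) * (x / lam) := by
  set η : ℝ := 1 / 21 - v with hη
  set c0 : ℝ := (θ / 21 - v) / 4 with hc0
  have hc00 : 0 < c0 := by rw [hc0]; linarith
  have hη0 : 0 < η := by linarith
  have hs1 : 0 < θ / 21 - v := by linarith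
  have t1 : 0 < η / 2 - c0 := by rw [hc0, hη]; linarith
  have t2 : 0 < θ / 21 - v - c0 := by rw [hc0]; linarith
  have t3 : 0 < η - c0 := by linarith
  filter_upwards [eventually_ge_atTop (Real.exp 1),
    ev_small 0 t1 12 (show (0 : ℝ) < 1 / 2 by norm_num),
    ev_small 6 t2 (15488 * 4) (show (0 : ℝ) < 1 / 4 by norm_num),
    ev_small 6 t3 (15488 * 8) (show (0 : ℝ) < 1 / 4 by norm_num),
    ev_small 2 hθ 36 one_pos,
    ev_small 1 hθ 3 (Real.log_pos (show (1 : ℝ) < 1 + 1 by norm_num))]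
    with x hx1 hx3 hx4 hx5 hx6 hx7 Y lam J hY hlam0 hlamx hJ1 hJ2
  rw [pow_zero, one_mul] at hx3
  rw [pow_one] at hx7
  have hxe : (2 : ℝ) ≤ x := by
    have := Real.add_one_le_exp 1
    linarith
  have hx0 : 0 < x := by linarith
  have hxone : 1 ≤ x := by linarith
  set L := Real.log x with hL
  have hL1' : 1 ≤ L := by
    rw [hL, ← Real.log_exp 1]; exact Real.log_le_log (Real.exp_pos 1) hx1
  have hxθ : 1 ≤ x ^ θ := Real.one_le_rpow hxone hθ.le
  have hY0 : 0 < Y := by linarith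
  obtain ⟨k, hk1, hk2⟩ := near hxone
  obtain ⟨d, hd1, hd2⟩ := near (Real.one_le_rpow hxone hη0.le)
  obtain ⟨l, hl1, hl2⟩ := near (show 1 ≤ Y by linarith)
  have hkL := log_bound hx0 hk1
  have hJx : (2 : ℝ) ^ J ≤ x := hJ1.trans (by
    calc x ^ (20 / 21 : ℝ) ≤ x ^ (1 : ℝ) := Real.rpow_le_rpow_of_exponent_le hxone (by norm_num)
      _ = x := Real.rpow_one x)
  have hJL := log_bound hx0 hJx
  have hN1 : ((⌊x⌋₊ : ℕ) : ℝ) ≤ x := Nat.floor_le hx0.le
  -- `R`
  set R : ℝ := (1 + 1 / (3 * Y)) ^ J with hR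
  have hRle : R ≤ 1 + 1 := by
    have h1 : 1 + 1 / (3 * Y) ≤ Real.exp (1 / (3 * Y)) := by
      have := Real.add_one_le_exp (1 / (3 * Y)); linarith
    calc R ≤ (Real.exp (1 / (3 * Y))) ^ J := pow_le_pow_left₀ (by positivity) h1 J
      _ = Real.exp (J * (1 / (3 * Y))) := (Real.exp_nat_mul _ _).symm
      _ ≤ Real.exp (Real.log (1 + 1)) := by
          apply Real.exp_le_exp.2
          refine le_trans ?_ hx7
          have h2 : 1 / (3 * Y) ≤ x ^ (-θ) := by
            rw [Real.rpow_neg hx0.le, ← one_div]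
            apply one_div_le_one_div_of_le (by positivity)
            linarith
          calc (J : ℝ) * (1 / (3 * Y)) ≤ (3 / 2 * L) * x ^ (-θ) := by
                apply mul_le_mul hJL h2 (by positivity) (by positivity)
            _ ≤ 3 * (L * x ^ (-θ)) := by
                have : 0 ≤ L * x ^ (-θ) := by positivity
                linarith
      _ = 1 + 1 := Real.exp_log (by norm_num)
  have hK : ⌊x⌋₊ < 2 ^ (k + 1) := by
    have : ((⌊x⌋₊ : ℕ) : ℝ) < 2 ^ (k + 1) := by linarith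
    exact_mod_cast this
  have hKL : ((k + 1 : ℕ) : ℝ) ≤ 3 * L := by push_cast; linarith
  have hM : 2 * ((k + 1) * (k + 1)) ≤ 2 ^ l := by
    have h1 : (2 : ℝ) * (((k + 1 : ℕ) : ℝ) * ((k + 1 : ℕ) : ℝ)) ≤ 2 ^ l := by
      have h2 : x ^ θ / 2 ≤ 2 ^ l := by rw [pow_succ] at hl2; linarith
      have h3 : 36 * L ^ 2 ≤ x ^ θ := by
        have h4 : 36 * (L ^ 2 * x ^ (-θ)) * x ^ θ ≤ 1 * x ^ θ :=
          mul_le_mul_of_nonneg_right hx6 (by positivity)
        have h5 : x ^ (-θ) * x ^ θ = 1 := by rw [← Real.rpow_add hx0]; simp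
        calc 36 * L ^ 2 = 36 * (L ^ 2 * x ^ (-θ)) * x ^ θ := by
              rw [mul_assoc 36, mul_assoc (L ^ 2), h5]; ring
          _ ≤ _ := by linarith
      have h6 : ((k + 1 : ℕ) : ℝ) * ((k + 1 : ℕ) : ℝ) ≤ 3 * L * (3 * L) :=
        mul_le_mul hKL hKL (Nat.cast_nonneg _) (by linarith)
      nlinarith
    exact_mod_cast h1
  have hfin := late2_fin (N := ⌊x⌋₊) (J := J) (d := d) (l := l) (K := k + 1) (lam := lam) (Y := Y)
    hlam0 hl1 (by rw [← hR]; linarith) hK hM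
  have hx21 : x ^ (20 / 21 : ℝ) = x * x ^ (-(1 / 21) : ℝ) := by
    rw [← Real.rpow_one_add' hx0.le (by norm_num)]; norm_num
  have hxv : x ^ (-v) ≤ 1 / lam := by
    rw [Real.rpow_neg hx0.le, ← one_div]
    exact one_div_le_one_div_of_le hlam0 hlamx
  have hxl : 0 ≤ x / lam := by positivity
  have ht : ∀ t : ℝ, x ^ (-t) = x ^ (-(t - c0)) * x ^ (-c0) := by
    intro t; rw [← Real.rpow_add hx0]; congr 1; ring
  have hT2 : (((⌊x⌋₊ : ℕ) : ℝ) + 1 + 2 ^ J) * (b ^ J * Real.sqrt (2 ^ (d + 1))) ≤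
      1 / 2 * x ^ (-c0) * (x / lam) := by
    have h1 := bJ hxone hJ2
    have h2 : Real.sqrt (2 ^ (d + 1)) ≤ 2 * x ^ (η / 2) := by
      have h3 : (2 : ℝ) ^ (d + 1) ≤ (2 * x ^ (η / 2)) ^ 2 := by
        rw [mul_pow, ← Real.rpow_natCast (x ^ (η / 2)) 2, ← Real.rpow_mul hx0.le, pow_succ]
        have : η / 2 * ((2 : ℕ) : ℝ) = η := by push_cast; ring
        rw [this]
        have h5 : 0 < x ^ η := by positivity
        linarith
      calc Real.sqrt (2 ^ (d + 1)) ≤ Real.sqrt ((2 * x ^ (η / 2)) ^ 2) := Real.sqrt_le_sqrt h3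
        _ = 2 * x ^ (η / 2) := Real.sqrt_sq (by positivity)
    have hb0 := b_pos
    have h3 : x ^ (-(1 / 21) : ℝ) * x ^ (η / 2) = x ^ (-(η / 2)) * x ^ (-v) := by
      rw [← Real.rpow_add hx0, ← Real.rpow_add hx0]
      congr 1
      rw [hη]; ring
    have hNJ3 : ((⌊x⌋₊ : ℕ) : ℝ) + 1 + 2 ^ J ≤ 3 * x := by linarith
    calc _ ≤ (3 * x) * ((2 * x ^ (-(1 / 21) : ℝ)) * (2 * x ^ (η / 2))) := by
          apply mul_le_mul hNJ3 _ (by positivity) (by positivity)
          exact mul_le_mul h1 h2 (Real.sqrt_nonneg _) (by positivity)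
      _ = 12 * x ^ (-(η / 2)) * (x * x ^ (-v)) := by
          calc (3 * x) * ((2 * x ^ (-(1 / 21) : ℝ)) * (2 * x ^ (η / 2)))
              = 12 * x * (x ^ (-(1 / 21) : ℝ) * x ^ (η / 2)) := by ring
            _ = _ := by rw [h3]; ring
      _ = (12 * x ^ (-(η / 2 - c0))) * x ^ (-c0) * (x * x ^ (-v)) := by rw [ht (η / 2)]; ring
      _ ≤ 1 / 2 * x ^ (-c0) * (x * (1 / lam)) := by
          apply mul_le_mul _ _ (by positivity) (by positivity)
          · exact mul_le_mul_of_nonneg_right hx3 (by positivity)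
          · exact mul_le_mul_of_nonneg_left hxv hx0.le
      _ = _ := by ring
  have hP : 8 * (((k + 1 : ℕ) : ℝ) * ((k + 1 : ℕ) : ℝ) + 2) ^ 2 * (((k + 1 : ℕ) : ℝ) + 1) ^ 2
      ≤ 15488 * L ^ 6 := by
    have h1 : ((k + 1 : ℕ) : ℝ) * ((k + 1 : ℕ) : ℝ) + 2 ≤ 11 * L ^ 2 := by
      have h6 : ((k + 1 : ℕ) : ℝ) * ((k + 1 : ℕ) : ℝ) ≤ 3 * L * (3 * L) :=
        mul_le_mul hKL hKL (Nat.cast_nonneg _) (by linarith)
      nlinarith
    have h2 : ((k + 1 : ℕ) : ℝ) + 1 ≤ 4 * L := by linarith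
    calc _ ≤ 8 * (11 * L ^ 2) ^ 2 * (4 * L) ^ 2 := by gcongr
      _ = _ := by ring
  have hrho := rho_pos
  have hT3 : 8 * (((k + 1 : ℕ) : ℝ) * ((k + 1 : ℕ) : ℝ) + 2) ^ 2 * (((k + 1 : ℕ) : ℝ) + 1) ^ 2
      * (2 ^ (k + 1) * rho ^ l + 2 * (2 ^ (k + 1) / 2 ^ d) / lam) ≤
      1 / 2 * x ^ (-c0) * (x / lam) := by
    have h1 : (2 : ℝ) ^ (k + 1) ≤ 2 * x := by rw [pow_succ]; linarith
    have h2 := rl hY0 hl2
    have h3 : Y ^ (-(1 / 21) : ℝ) ≤ x ^ (-(θ / 21)) := by
      calc Y ^ (-(1 / 21) : ℝ) ≤ (x ^ θ) ^ (-(1 / 21) : ℝ) :=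
            Real.rpow_le_rpow_of_nonpos (by positivity) hY (by norm_num)
        _ = _ := by rw [← Real.rpow_mul hx0.le]; congr 1; ring
    have h4 : x ^ (-(θ / 21)) = x ^ (-(θ / 21 - v)) * x ^ (-v) := by
      rw [← Real.rpow_add hx0]; congr 1; ring
    have h5 : (2 : ℝ) ^ (k + 1) / 2 ^ d ≤ 4 * (x * x ^ (-η)) := by
      rw [div_le_iff₀ (by positivity)]
      have h6 : x ^ η ≤ 2 * 2 ^ d := by rw [pow_succ] at hd2; linarith
      have h7 : x ^ (-η) * x ^ η = 1 := by rw [← Real.rpow_add hx0]; simp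
      calc (2 : ℝ) ^ (k + 1) ≤ 2 * x := h1
        _ = 2 * x * (x ^ (-η) * x ^ η) := by rw [h7, mul_one]
        _ ≤ 2 * x * (x ^ (-η) * (2 * 2 ^ d)) := by gcongr
        _ = _ := by ring
    have h8 : (2 : ℝ) ^ (k + 1) * rho ^ l ≤ 4 * x ^ (-(θ / 21 - v)) * (x / lam) := by
      calc (2 : ℝ) ^ (k + 1) * rho ^ l ≤ (2 * x) * (2 * x ^ (-(θ / 21))) := by
            apply mul_le_mul h1 (h2.trans (by linarith)) (by positivity) (by positivity)
        _ = 4 * x ^ (-(θ / 21 - v)) * (x * x ^ (-v)) := by rw [h4]; ring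
        _ ≤ 4 * x ^ (-(θ / 21 - v)) * (x * (1 / lam)) := by gcongr
        _ = _ := by ring
    have h9 : 2 * ((2 : ℝ) ^ (k + 1) / 2 ^ d) / lam ≤ 8 * x ^ (-η) * (x / lam) := by
      calc 2 * ((2 : ℝ) ^ (k + 1) / 2 ^ d) / lam ≤ 2 * (4 * (x * x ^ (-η))) / lam := by gcongr
        _ = _ := by ring
    calc _ ≤ 15488 * L ^ 6 * (4 * x ^ (-(θ / 21 - v)) * (x / lam) + 8 * x ^ (-η) * (x / lam)) := by
          apply mul_le_mul hP (add_le_add h8 h9) (by positivity) (by positivity)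
      _ = (15488 * 4 * (L ^ 6 * x ^ (-(θ / 21 - v - c0))) + 15488 * 8 * (L ^ 6 * x ^ (-(η - c0)))) *
          x ^ (-c0) * (x / lam) := by
          rw [ht (θ / 21 - v), ht η]; ring
      _ ≤ 1 / 2 * x ^ (-c0) * (x / lam) := by
          apply mul_le_mul_of_nonneg_right _ hxl
          apply mul_le_mul_of_nonneg_right _ (by positivity)
          linarith
  calc _ ≤ _ := hfin
    _ ≤ 1 / 2 * x ^ (-c0) * (x / lam) + 1 / 2 * x ^ (-c0) * (x / lam) := add_le_add hT2 hT3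
    _ = _ := by ring

end Pool.Agent.H622.Ct
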