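import Mathlib
import Pool.Agent.H622.Ct5

set_option autoImplicit false

/-! The passage time given a large excursion, part 6: no large values long after the first passage. -/

namespace Pool.Agent.H622.Ct

open Finset Filter Topology MeasureTheory ProbabilityTheory Pool.Agent.Helper894.Collatz
  Pool.Agent.H828R3.Exc Pool.Agent.W36.SL Pool.Agent.H622.Sh Pool.Agent.H622.Gb

/-- a first passage at the time `k ≤ m - g` and a large value after the time `m` -/
def Bad (z mu : ℝ) (m g J n : ℕ) : Prop :=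
  ∃ k, k + g ≤ m ∧ FP z k n ∧ ∃ j, m < j ∧ j ≤ J ∧ mu ≤ MM j n

theorem FP_shift_le (z : ℝ) {k J : ℕ} (h : k ≤ J) (x c : ℕ) : FP z k (x + 2 ^ J * c) ↔ FP z k x := by
  obtain ⟨d, rfl⟩ := Nat.exists_eq_add_of_le h
  rw [pow_add, mul_assoc]; exact FP_shift z k x _

open scoped Classical in
theorem card_FP_MM {z mu : ℝ} (hz : 0 < z) (hmu : 0 < mu) {k j J : ℕ} (hkj : k ≤ j) (hjJ : j ≤ J) :
    (((range (2 ^ J)).filter fun n => FP z k n ∧ mu ≤ MM j n).card : ℝ) ≤
      2 ^ J * (b ^ (j - k) * w (DS z fun _ => Set.univ) k / (Real.sqrt z * Real.sqrt mu)) := by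
  obtain ⟨d, rfl⟩ := Nat.exists_eq_add_of_le hkj
  obtain ⟨e, rfl⟩ := Nat.exists_eq_add_of_le hjJ
  have hsz : 0 < Real.sqrt z := Real.sqrt_pos.2 hz
  have hsm : 0 < Real.sqrt mu := Real.sqrt_pos.2 hmu
  have hb0 := b_pos
  have h1 : (((range (2 ^ (k + d + e))).filter fun n => FP z k n ∧ mu ≤ MM (k + d) n).card : ℝ) *
      Real.sqrt mu ≤ ∑ n ∈ range (2 ^ (k + d + e)),
        (if FP z k n then (1 : ℝ) else 0) * Real.sqrt (MM (k + d) n) := by
    rw [← nsmul_eq_mul]
    refine (card_nsmul_le_sum _ (fun n => (if FP z k n then (1 : ℝ) else 0) *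
      Real.sqrt (MM (k + d) n)) _ ?_).trans ?_
    · intro n hn
      rw [mem_filter] at hn
      simp only [if_pos hn.2.1, one_mul]
      exact Real.sqrt_le_sqrt hn.2.2
    · apply sum_le_sum_of_subset_of_nonneg (filter_subset _ _)
      intro n _ _
      split_ifs <;> positivity
  rw [sum_block (k + d) e (fun n => (if FP z k n then (1 : ℝ) else 0) * Real.sqrt (MM (k + d) n))
    (fun x c => by simp only [FP_shift_le z (show k ≤ k + d by omega), MM_shift le_rfl]),
    sum_sqrt_block k d (fun n => if FP z k n then (1 : ℝ) else 0)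
      (fun x c => by simp only [FP_shift])] at h1
  have h2 : ∑ r ∈ range (2 ^ k), (if FP z k r then (1 : ℝ) else 0) * Real.sqrt (MM k r) ≤
      2 ^ k * w (DS z fun _ => Set.univ) k / Real.sqrt z := by
    unfold w
    rw [mul_div_cancel₀ _ (by positivity), sum_div]
    apply sum_le_sum
    intro r _
    have hM := MM_pos k r
    simp only [DS, Set.mem_univ, and_true]
    split_ifs with h
    · rw [one_mul, le_div_iff₀ hsz]
      calc Real.sqrt (MM k r) * Real.sqrt z ≤ Real.sqrt (MM k r) * Real.sqrt (MM k r) :=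
            mul_le_mul_of_nonneg_left (Real.sqrt_le_sqrt h.1) (Real.sqrt_nonneg _)
        _ = MM k r := Real.mul_self_sqrt hM.le
    · simp
  have h3 : (2 : ℝ) ^ e * (2 ^ d * b ^ d * ∑ r ∈ range (2 ^ k), (if FP z k r then (1 : ℝ) else 0) *
      Real.sqrt (MM k r)) ≤ 2 ^ e * (2 ^ d * b ^ d * (2 ^ k * w (DS z fun _ => Set.univ) k / Real.sqrt z)) := by
    apply mul_le_mul_of_nonneg_left _ (by positivity)
    exact mul_le_mul_of_nonneg_left h2 (by positivity)
  have h4 := h1.trans h3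
  rw [← le_div_iff₀ hsm] at h4
  refine h4.trans (le_of_eq ?_)
  rw [show k + d - k = d by omega, pow_add, pow_add]
  field_simp

open scoped Classical in
theorem card_Bad {z mu : ℝ} (hz : 0 < z) (hmu : 0 < mu) (m g J N : ℕ) (hmJ : m ≤ J) :
    (((range N).filter fun n => Bad z mu m g J n).card : ℝ) ≤
      (N + 2 ^ J) * (30 * b ^ g / (Real.sqrt z * Real.sqrt mu)) := by
  have hsz : 0 < Real.sqrt z := Real.sqrt_pos.2 hz
  have hsm : 0 < Real.sqrt mu := Real.sqrt_pos.2 hmu
  have hb0 := b_pos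
  have hper : ∀ x c, Bad z mu m g J (x + 2 ^ J * c) ↔ Bad z mu m g J x := by
    intro x c
    unfold Bad
    constructor
    · rintro ⟨k, h1, h2, j, h3, h4, h5⟩
      exact ⟨k, h1, (FP_shift_le z (by omega) x c).1 h2, j, h3, h4, by rwa [MM_shift h4] at h5⟩
    · rintro ⟨k, h1, h2, j, h3, h4, h5⟩
      exact ⟨k, h1, (FP_shift_le z (by omega) x c).2 h2, j, h3, h4, by rwa [MM_shift h4]⟩
  have h1 := (card_periodic (M := 2 ^ J) (by positivity) (fun n => Bad z mu m g J n) hper N).1
  have hsub : (range (2 ^ J)).filter (fun n => Bad z mu m g J n) ⊆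
      (range (m + 1 - g)).biUnion (fun k => (Ico (m + 1) (J + 1)).biUnion fun j =>
        (range (2 ^ J)).filter fun n => FP z k n ∧ mu ≤ MM j n) := by
    intro n hn
    rw [mem_filter] at hn
    obtain ⟨h1, k, hk, h2, j, h3, h4, h5⟩ := hn
    rw [mem_biUnion]
    refine ⟨k, mem_range.2 (by omega), ?_⟩
    rw [mem_biUnion]
    exact ⟨j, mem_Ico.2 ⟨by omega, by omega⟩, mem_filter.2 ⟨h1, h2, h5⟩⟩
  have h2 : (((range (2 ^ J)).filter fun n => Bad z mu m g J n).card : ℝ) ≤
      ∑ k ∈ range (m + 1 - g), ∑ j ∈ Ico (m + 1) (J + 1),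
        (((range (2 ^ J)).filter fun n => FP z k n ∧ mu ≤ MM j n).card : ℝ) := by
    have h2 := (card_le_card hsub).trans card_biUnion_le
    have h3 := h2.trans (sum_le_sum fun k _ => card_biUnion_le)
    exact_mod_cast h3
  have h3 : ∀ k ∈ range (m + 1 - g), ∑ j ∈ Ico (m + 1) (J + 1),
        (((range (2 ^ J)).filter fun n => FP z k n ∧ mu ≤ MM j n).card : ℝ) ≤
      2 ^ J * (30 * b ^ g / (Real.sqrt z * Real.sqrt mu)) * w (DS z fun _ => Set.univ) k := by
    intro k hk
    rw [mem_range] at hk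
    have h4 : ∀ j ∈ Ico (m + 1) (J + 1),
        (((range (2 ^ J)).filter fun n => FP z k n ∧ mu ≤ MM j n).card : ℝ) ≤
        2 ^ J * (w (DS z fun _ => Set.univ) k / (Real.sqrt z * Real.sqrt mu)) * b ^ (j - k) := by
      intro j hj
      rw [mem_Ico] at hj
      refine (card_FP_MM hz hmu (show k ≤ j by omega) (by omega)).trans (le_of_eq ?_)
      ring
    refine (sum_le_sum h4).trans ?_
    rw [← mul_sum]
    have hw := w_nonneg (DS z fun _ => Set.univ) k
    have h5 : ∑ j ∈ Ico (m + 1) (J + 1), b ^ (j - k) ≤ 30 * b ^ g := by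
      have hbk : 0 < b ^ k := by positivity
      have e1 : (∑ j ∈ Ico (m + 1) (J + 1), b ^ (j - k)) * b ^ k = ∑ j ∈ Ico (m + 1) (J + 1), b ^ j := by
        rw [sum_mul]
        apply sum_congr rfl
        intro j hj
        rw [mem_Ico] at hj
        rw [← pow_add, Nat.sub_add_cancel (by omega)]
      have h3 := geom_sum_Ico_le_of_lt_one (m := m + 1) (n := J + 1) hb0.le b_lt_one
      have h4 : b ^ (m + 1) / (1 - b) ≤ 30 * b ^ m := by
        have hb := b_le
        have h5 : (0 : ℝ) < 1 - b := by linarith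
        rw [div_le_iff₀ h5, pow_succ]
        have h6 : 0 < b ^ m := by positivity
        nlinarith
      have h6 : b ^ m ≤ b ^ (k + g) := pow_le_pow_of_le_one hb0.le b_lt_one.le (by omega)
      have h7 : (∑ j ∈ Ico (m + 1) (J + 1), b ^ (j - k)) * b ^ k ≤ (30 * b ^ g) * b ^ k := by
        rw [e1]
        rw [pow_add] at h6
        linarith
      exact le_of_mul_le_mul_right h7 hbk
    calc 2 ^ J * (w (DS z fun _ => Set.univ) k / (Real.sqrt z * Real.sqrt mu)) *
          ∑ j ∈ Ico (m + 1) (J + 1), b ^ (j - k)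
        ≤ 2 ^ J * (w (DS z fun _ => Set.univ) k / (Real.sqrt z * Real.sqrt mu)) * (30 * b ^ g) :=
          mul_le_mul_of_nonneg_left h5 (by positivity)
      _ = _ := by ring
  have h6 : ∑ k ∈ range (m + 1 - g), w (DS z fun _ => Set.univ) k ≤ 1 := by
    refine le_trans ?_ (W_le_one (DS_cross z fun _ => Set.univ) m)
    unfold W
    apply sum_le_sum_of_subset_of_nonneg (range_subset_range.2 (by omega))
    intro k _ _
    exact w_nonneg _ k
  have h7 : (((range (2 ^ J)).filter fun n => Bad z mu m g J n).card : ℝ) ≤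
      2 ^ J * (30 * b ^ g / (Real.sqrt z * Real.sqrt mu)) := by
    refine h2.trans ((sum_le_sum h3).trans ?_)
    rw [← mul_sum]
    calc _ ≤ 2 ^ J * (30 * b ^ g / (Real.sqrt z * Real.sqrt mu)) * 1 :=
          mul_le_mul_of_nonneg_left h6 (by positivity)
      _ = _ := mul_one _
  push_cast at h1
  refine h1.trans ?_
  calc ((N : ℝ) / 2 ^ J + 1) * (((range (2 ^ J)).filter fun n => Bad z mu m g J n).card : ℝ)
      ≤ ((N : ℝ) / 2 ^ J + 1) * (2 ^ J * (30 * b ^ g / (Real.sqrt z * Real.sqrt mu))) :=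
        mul_le_mul_of_nonneg_left h7 (by positivity)
    _ = _ := by field_simp

end Pool.Agent.H622.Ct
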