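import Mathlib
import Pool.Agent.H622.Sh2

set_option autoImplicit false

/-! Shape of large excursions, part 3: the tent. -/

namespace Pool.Agent.H622.Sh

open Finset Filter Topology Pool.Agent.Helper894.Collatz Pool.Agent.H828R3.Exc Pool.Agent.W36.SL
  Pool.Agent.H377R2

/-- the trajectory climbs and descends along a tent -/
def Tent (η lam : ℝ) (n : ℕ) : Prop :=
  ∃ k : ℕ, lam * n < (T^[k] n : ℕ) ∧ (∀ j < k, ((T^[j] n : ℕ) : ℝ) ≤ lam * n) ∧
    |Real.log (27 / 16) / 4 * k - Real.log lam| ≤ η * Real.log lam ∧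
    (∀ j ≤ k, |Real.log (T^[j] n : ℕ) - Real.log n - Real.log (27 / 16) / 4 * j| ≤ η * Real.log lam) ∧
    (∀ j, k ≤ j → 2 ^ j ≤ n →
      |Real.log (T^[j] n : ℕ) - Real.log (lam * n) + Real.log (4 / 3) / 2 * ((j : ℝ) - k)| ≤
        η * Real.log n)

theorem T_le_two {n : ℕ} (h : 1 ≤ n) : T n ≤ 2 * n := by
  rcases Nat.mod_two_eq_zero_or_one n with h1 | h1
  · have := T_even h1; omega
  · have := T_odd h1; omega

theorem log_close {n j : ℕ} {Y : ℝ} (hY : 1 ≤ Y) (hn : 1 ≤ n) {J : ℕ} (hr : (1 + 1 / (3 * Y)) ^ J ≤ 2)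
    (hj : j ≤ J) (h : ∀ i < j, Y ≤ (T^[i] n : ℕ)) :
    |Real.log (T^[j] n : ℕ) - Real.log n - Real.log (MM j n)| ≤ Real.log 2 ∧
      (0 : ℝ) < (T^[j] n : ℕ) := by
  have hn0 : (0 : ℝ) < n := by exact_mod_cast hn
  have hM := MM_pos j n
  have h1 := iter_ge j n
  have h2 := iter_le (show 0 < Y by linarith) n j h
  have hr1 : (1 : ℝ) ≤ 1 + 1 / (3 * Y) := by
    have : 0 < 1 / (3 * Y) := by positivity
    linarith
  have h3 : (1 + 1 / (3 * Y)) ^ j ≤ 2 := (pow_le_pow_right₀ hr1 hj).trans hr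
  have h4 : ((T^[j] n : ℕ) : ℝ) ≤ MM j n * n * 2 :=
    h2.trans (mul_le_mul_of_nonneg_left h3 (by positivity))
  have h5 : (0 : ℝ) < MM j n * n := by positivity
  have hpos : (0 : ℝ) < (T^[j] n : ℕ) := lt_of_lt_of_le h5 h1
  refine ⟨?_, hpos⟩
  have l1 := Real.log_le_log h5 h1
  have l2 := Real.log_le_log hpos h4
  rw [Real.log_mul hM.ne' hn0.ne'] at l1
  rw [Real.log_mul h5.ne' (by norm_num), Real.log_mul hM.ne' hn0.ne'] at l2
  have l3 : 0 < Real.log 2 := Real.log_pos (by norm_num)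
  rw [abs_le]
  constructor <;> linarith

theorem tent_of {n J K1 J2 : ℕ} {Y lam h h2 η : ℝ} (hY : 1 ≤ Y) (hlam : 2 ≤ lam) (hn : 1 ≤ n)
    (hE : Exc lam Y n) (hL : ¬ Late lam Y J n)
    (hr : (1 + 1 / (3 * Y)) ^ J ≤ 2) (hr2 : (1 + 1 / (3 * Real.sqrt Y)) ^ J2 ≤ 2)
    (hK : ∀ k, K1 < k → k ≤ J → MM k n < lam / 2)
    (hD : ¬ Dev h (lam / 2) K1 n) (hD2 : ¬ Dev2 h2 (lam / 2) J2 n) (hnJ : n < 2 ^ (J2 + 1))
    (e1 : 2 * Real.log 2 + h ≤ η * Real.log lam) (e2 : 2 * Real.log 2 + h2 ≤ η * Real.log n)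
    (e3 : h2 ≤ Real.log n / 4) : Tent η lam n := by
  classical
  have hn0 : (0 : ℝ) < n := by exact_mod_cast hn
  have hl2 : 0 < Real.log 2 := Real.log_pos (by norm_num)
  have hlam0 : 0 < lam := by linarith
  -- an early passage
  have hEJ : ∃ k ≤ J, lam * n < (T^[k] n : ℕ) ∧ ∀ j ≤ k, Y < (T^[j] n : ℕ) := by
    by_contra hcon
    exact hL ⟨hE, hcon⟩
  obtain ⟨k0, hk0J, hk01, hk02⟩ := hEJ
  have hex : ∃ k, lam * n < (T^[k] n : ℕ) := ⟨k0, hk01⟩
  set k := Nat.find hex with hkdef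
  have hk1 : lam * n < (T^[k] n : ℕ) := Nat.find_spec hex
  have hkk0 : k ≤ k0 := Nat.find_min' hex hk01
  have hkmin : ∀ j < k, ((T^[j] n : ℕ) : ℝ) ≤ lam * n := fun j hj => not_lt.1 (Nat.find_min hex hj)
  have hkJ : k ≤ J := hkk0.trans hk0J
  have hYk : ∀ j ≤ k, Y < (T^[j] n : ℕ) := fun j hj => hk02 j (hj.trans hkk0)
  have hYn : Y < n := by simpa using hYk 0 (Nat.zero_le _)
  have hc : ∀ j ≤ k, |Real.log (T^[j] n : ℕ) - Real.log n - Real.log (MM j n)| ≤ Real.log 2 := by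
    intro j hj
    exact (log_close hY hn hr (hj.trans hkJ) fun i hi => (hYk i (by omega)).le).1
  have hpos : ∀ j, (0 : ℝ) < (T^[j] n : ℕ) := by
    intro j
    exact lt_of_lt_of_le (mul_pos (MM_pos j n) hn0) (iter_ge j n)
  have hk0 : k ≠ 0 := by
    intro h0
    rw [h0] at hk1
    simp only [Function.iterate_zero, id] at hk1
    nlinarith
  -- the size of the overshoot
  have hover : ((T^[k] n : ℕ) : ℝ) ≤ 2 * (lam * n) := by
    obtain ⟨m, hm⟩ := Nat.exists_eq_succ_of_ne_zero hk0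
    rw [hm, Function.iterate_succ_apply']
    have h1 := hkmin m (by omega)
    have h2 : 1 ≤ T^[m] n := by exact_mod_cast hpos m
    have h3 : ((T (T^[m] n) : ℕ) : ℝ) ≤ 2 * (T^[m] n : ℕ) := by exact_mod_cast T_le_two h2
    linarith
  have hlog1 : Real.log lam + Real.log n ≤ Real.log (T^[k] n : ℕ) := by
    rw [← Real.log_mul hlam0.ne' hn0.ne']
    exact Real.log_le_log (by positivity) hk1.le
  have hlog2 : Real.log (T^[k] n : ℕ) ≤ Real.log 2 + (Real.log lam + Real.log n) := by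
    rw [← Real.log_mul hlam0.ne' hn0.ne', ← Real.log_mul (by norm_num) (by positivity)]
    exact Real.log_le_log (hpos k) hover
  have hck := abs_le.1 (hc k le_rfl)
  have hMk : lam / 2 ≤ MM k n := by
    have h1 : Real.log lam - Real.log 2 ≤ Real.log (MM k n) := by linarith
    rw [← Real.log_div hlam0.ne' (by norm_num)] at h1
    exact (Real.log_le_log_iff (by positivity) (MM_pos k n)).1 h1
  have hkK1 : k ≤ K1 := by
    by_contra hcon
    have := hK k (by omega) hkJ
    linarith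
  have hdv : ∀ j ≤ k, |dv j n| < h := by
    intro j hj
    by_contra hcon
    exact hD ⟨k, hkK1, j, hj, not_lt.1 hcon, hMk⟩
  have hasc : ∀ j ≤ k, |Real.log (T^[j] n : ℕ) - Real.log n - Real.log (27 / 16) / 4 * j| ≤
      Real.log 2 + h := by
    intro j hj
    have h1 := abs_le.1 (hc j hj)
    have h2 := abs_lt.1 (hdv j hj)
    rw [log_MM] at h1
    rw [abs_le]
    constructor <;> linarith
  refine ⟨k, hk1, hkmin, ?_, fun j hj => (hasc j hj).trans (by linarith), ?_⟩
  · have h1 := abs_le.1 (hasc k le_rfl)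
    rw [abs_le]
    constructor <;> linarith
  · intro j hj hjn
    have hjJ2 : j ≤ J2 := by
      have : 2 ^ j < 2 ^ (J2 + 1) := lt_of_le_of_lt hjn hnJ
      have := (Nat.pow_lt_pow_iff_right (by norm_num)).1 this
      omega
    have hdw : ∀ i, k ≤ i → i ≤ j → |dw k i n| < h2 := by
      intro i hi hij
      by_contra hcon
      exact hD2 ⟨i, hij.trans hjJ2, k, hi, hMk, not_lt.1 hcon⟩
    have hμ : Real.log (4 / 3) / 2 ≤ Real.log 2 / 4 := by
      have h4 : Real.log (4 / 3) ≤ Real.log 2 / 2 := by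
        have h5 : Real.log ((4 / 3) ^ 2) ≤ Real.log 2 := Real.log_le_log (by norm_num) (by norm_num)
        rw [Real.log_pow] at h5
        push_cast at h5
        linarith
      linarith
    have hμ0 : 0 < Real.log (4 / 3) / 2 := by
      have := Real.log_pos (show (1 : ℝ) < 4 / 3 by norm_num); linarith
    have hjlog : (j : ℝ) * Real.log 2 ≤ Real.log n := by
      rw [← Real.log_pow]
      exact Real.log_le_log (by positivity) (by exact_mod_cast hjn)
    have hkl := Real.log_le_log (by positivity) hMk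
    have hlam2 : 0 ≤ Real.log (lam / 2) := Real.log_nonneg (by linarith)
    have hlow : ∀ i, k ≤ i → i ≤ j → Real.sqrt Y ≤ (T^[i] n : ℕ) := by
      intro i hi hij
      have h1 := iter_ge i n
      have h3 := log_MM_dw k i n
      have h4 := (abs_lt.1 (hdw i hi hij)).1
      have h5 : ((i : ℝ) - k) * (Real.log (4 / 3) / 2) ≤ Real.log n / 4 := by
        have a1 : ((i : ℝ) - k) ≤ j := by
          have : (i : ℝ) ≤ j := by exact_mod_cast hij
          have : (0 : ℝ) ≤ k := Nat.cast_nonneg k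
          linarith
        calc ((i : ℝ) - k) * (Real.log (4 / 3) / 2) ≤ (j : ℝ) * (Real.log (4 / 3) / 2) :=
              mul_le_mul_of_nonneg_right a1 hμ0.le
          _ ≤ (j : ℝ) * (Real.log 2 / 4) := mul_le_mul_of_nonneg_left hμ (Nat.cast_nonneg j)
          _ ≤ _ := by linarith
      have h6 : Real.log (Real.sqrt Y) ≤ Real.log ((T^[i] n : ℕ) : ℝ) := by
        have h7 : Real.log (MM i n * n) ≤ Real.log ((T^[i] n : ℕ) : ℝ) :=
          Real.log_le_log (mul_pos (MM_pos i n) hn0) h1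
        rw [Real.log_mul (MM_pos i n).ne' hn0.ne'] at h7
        rw [Real.log_sqrt (by linarith)]
        have h8 : Real.log Y ≤ Real.log n := Real.log_le_log (by linarith) hYn.le
        linarith
      exact (Real.log_le_log_iff (Real.sqrt_pos.2 (by linarith)) (hpos i)).1 h6
    have hsq : 1 ≤ Real.sqrt Y := by rw [Real.one_le_sqrt]; exact hY
    have hsqY : Real.sqrt Y ≤ Y := by
      have := Real.mul_self_sqrt (show 0 ≤ Y by linarith)
      nlinarith
    have hcj := (log_close hsq hn hr2 hjJ2 (fun i hi => by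
      rcases Nat.lt_or_ge i k with h1 | h1
      · exact hsqY.trans (hYk i h1.le).le
      · exact hlow i h1 hi.le)).1
    have h1 := abs_le.1 hcj
    have h3 := log_MM_dw k j n
    have h4 := abs_lt.1 (hdw j hj le_rfl)
    have h5 : Real.log (lam * n) = Real.log lam + Real.log n := Real.log_mul hlam0.ne' hn0.ne'
    rw [h5]
    rw [Real.log_div hlam0.ne' (by norm_num)] at hkl
    -- `MM k n ≤ 2 lam`
    have h6 : Real.log (MM k n) ≤ Real.log 2 + Real.log lam := by
      have h7 := Real.log_le_log (mul_pos (MM_pos k n) hn0) (iter_ge k n)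
      rw [Real.log_mul (MM_pos k n).ne' hn0.ne'] at h7
      linarith
    rw [abs_le]
    constructor <;> linarith

end Pool.Agent.H622.Sh
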