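import Mathlib
import Pool.Agent.H622.Ct6
import Pool.Agent.H622.Sh3

set_option autoImplicit false

/-! The passage time given a large excursion, part 7: the limit law. -/

namespace Pool.Agent.H622.Ct

open Finset Filter Topology MeasureTheory ProbabilityTheory Pool.Agent.Helper894.Collatz
  Pool.Agent.H828R3.Exc Pool.Agent.W36.SL Pool.Agent.H622.Sh Pool.Agent.H622.Gb

/-- the sets of the words of length `≤ m` -/
def SK (m : ℕ) (k : ℕ) : Set ℕ := {_r | k ≤ m}

theorem tsum_SK (z : ℝ) (m : ℕ) : ∑' k, w (DS z (SK m)) k = W (DS z fun _ => Set.univ) m := by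
  classical
  rw [tsum_eq_sum (s := range (m + 1))]
  · unfold W
    apply sum_congr rfl
    intro k hk
    rw [mem_range] at hk
    unfold w
    congr 1
    apply sum_congr rfl
    intro r _
    apply if_congr _ rfl rfl
    constructor
    · exact fun h => ⟨h.1, Set.mem_univ _⟩
    · exact fun h => ⟨h.1, by show k ≤ m; omega⟩
  · intro k hk
    rw [mem_range] at hk
    unfold w
    have : ∑ r ∈ range (2 ^ k), (if DS z (SK m) k r then MM k r else 0) = 0 := by
      apply sum_eq_zero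
      intro r _
      rw [if_neg]
      rintro ⟨-, h⟩
      have : k ≤ m := h
      omega
    rw [this, zero_div]

/-- a time above `lam * n` before `Y` -/
def Above (lam Y : ℝ) (κ : ℕ → ℕ) : Prop :=
  ∀ n, Exc lam Y n → lam * n < (T^[κ n] n : ℕ) ∧ ∀ j ≤ κ n, Y < (T^[j] n : ℕ)

/-- the time threshold -/
noncomputable def tm (u lam : ℝ) : ℝ := Real.log lam / mu' + u * sg * Real.sqrt (Real.log lam)

open scoped Classical in
theorem passage {θ θ' v : ℝ} (hθ : 0 < θ) (hθθ' : θ ≤ θ') (hθ' : θ' < 1) (hv : v < θ / 21)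
    (u : ℝ) {ε : ℝ} (hε : 0 < ε) : ∃ L0 x0 : ℝ, ∀ x Y lam : ℝ, x0 ≤ x → x ^ θ ≤ Y → Y ≤ x ^ θ' →
      L0 ≤ lam → lam ≤ x ^ v → ∀ κ : ℕ → ℕ, Above lam Y κ →
      |(((Icc 1 ⌊x⌋₊).filter fun n => Exc lam Y n ∧ (κ n : ℝ) ≤ tm u lam).card : ℝ) -
        Phi u * (((Icc 1 ⌊x⌋₊).filter (Exc lam Y)).card : ℝ)| ≤
        ε * (((Icc 1 ⌊x⌋₊).filter (Exc lam Y)).card : ℝ) := by
  have hC := C_pos
  have hμ := mu'_pos
  have hμ1 := mu'_ge
  have hsg := sg_pos
  have hb0 := b_pos
  have hv1 : v < 1 / 21 := by linarith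
  have hθ1 : θ < 1 := by linarith
  obtain ⟨ℓ0, L1, x1, hstop⟩ := stopped hθ hθθ' hθ' hv (show 0 < ε / 4 by linarith)
  obtain ⟨La, xa, hunif⟩ := uniform hθ hθθ' hθ' hv (show 0 < C / 2 by linarith)
  set ℓ : ℝ := max ℓ0 2 with hℓ
  have hℓ2 : 2 ≤ ℓ := le_max_right _ _
  have hℓ0 : ℓ0 ≤ ℓ := le_max_left _ _
  have hlogℓ : 0 ≤ Real.log ℓ := Real.log_nonneg (by linarith)
  -- `g`
  obtain ⟨g, hg⟩ : ∃ g : ℕ, 90 * Real.sqrt (2 * ℓ) * b ^ g ≤ ε / 4 * (C / 2) := by
    obtain ⟨g, hg⟩ := exists_pow_lt_of_lt_one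
      (show 0 < ε / 4 * (C / 2) / (90 * Real.sqrt (2 * ℓ)) by positivity) b_lt_one
    refine ⟨g, ?_⟩
    rw [lt_div_iff₀ (by positivity)] at hg
    linarith
  obtain ⟨Λ0, hW⟩ := W_lim u (g + 1 + Real.log ℓ) (by positivity) (show 0 < ε / 4 by linarith)
  set B : ℝ := |u| * sg + g + 1 with hB
  have hg0 : (0 : ℝ) ≤ g := Nat.cast_nonneg g
  have hB0 : |u| * sg ≤ B := by linarith
  have hB1 : 1 ≤ B := by
    have := mul_nonneg (abs_nonneg u) hsg.le
    linarith
  set c0 : ℝ := (θ / 21 - v) / 4 with hc0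
  have hc00 : 0 < c0 := by rw [hc0]; linarith
  obtain ⟨x2, hx2⟩ := eventually_atTop.1 ((late2_asym hθ hθ1 hv).and
    ((ev_small 0 hc00 1 (show (0 : ℝ) < ε / 4 * (C / 2) by positivity)).and
    ((ev_small 1 hθ 3 (Real.log_pos (show (1 : ℝ) < 2 by norm_num))).and
    (tendsto_atTop.1 Real.tendsto_log_atTop 4))))
  refine ⟨max (max L1 La) (max ℓ (Real.exp (max Λ0 (B ^ 2)))), max (max x1 xa) (max x2 1), ?_⟩
  intro x Y lam hx hY1 hY2 hlam hlamx κ hκ
  have hxx1 : x1 ≤ x := (le_max_left _ _).trans ((le_max_left _ _).trans hx)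
  have hxa : xa ≤ x := (le_max_right _ _).trans ((le_max_left _ _).trans hx)
  have hxx2 : x2 ≤ x := (le_max_left _ _).trans ((le_max_right _ _).trans hx)
  have hxone : 1 ≤ x := (le_max_right _ _).trans ((le_max_right _ _).trans hx)
  have hx0 : 0 < x := by linarith
  have hlamL1 : L1 ≤ lam := (le_max_left _ _).trans ((le_max_left _ _).trans hlam)
  have hlamLa : La ≤ lam := (le_max_right _ _).trans ((le_max_left _ _).trans hlam)
  have hlamℓ : ℓ ≤ lam := (le_max_left _ _).trans ((le_max_right _ _).trans hlam)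
  have hlamE : Real.exp (max Λ0 (B ^ 2)) ≤ lam := (le_max_right _ _).trans ((le_max_right _ _).trans hlam)
  have hlam0 : 0 < lam := by linarith
  obtain ⟨hlate, g1, g2, g3⟩ := hx2 x hxx2
  rw [pow_zero, one_mul, one_mul] at g1
  rw [pow_one] at g2
  set X := Real.log x with hX
  set Λ := Real.log lam with hΛ
  have hΛm : max Λ0 (B ^ 2) ≤ Λ := by
    rw [hΛ, ← Real.log_exp (max Λ0 (B ^ 2))]
    exact Real.log_le_log (Real.exp_pos _) hlamE
  have hΛ0 : Λ0 ≤ Λ := (le_max_left _ _).trans hΛm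
  have hΛB : B ^ 2 ≤ Λ := (le_max_right _ _).trans hΛm
  have hΛnn : 0 ≤ Λ := (sq_nonneg B).trans hΛB
  have hsB : B ≤ Real.sqrt Λ := Real.le_sqrt_of_sq_le hΛB
  have hss : Real.sqrt Λ * Real.sqrt Λ = Λ := Real.mul_self_sqrt hΛnn
  have hxθ : 1 ≤ x ^ θ := Real.one_le_rpow hxone hθ.le
  have hYone : 1 ≤ Y := hxθ.trans hY1
  have hY0 : 0 < Y := by linarith
  have hxl : 0 < x / lam := by positivity
  obtain ⟨J, hJ1, hJ2⟩ := near (Real.one_le_rpow hxone (show (0 : ℝ) ≤ 20 / 21 by norm_num))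
  have hJx : (2 : ℝ) ^ J ≤ x := hJ1.trans (by
    calc x ^ (20 / 21 : ℝ) ≤ x ^ (1 : ℝ) := Real.rpow_le_rpow_of_exponent_le hxone (by norm_num)
      _ = x := Real.rpow_one x)
  have hJL := log_bound hx0 hJx
  -- the product
  have hr : (1 + 1 / (3 * Y)) ^ J ≤ 2 := by
    have h1 : 1 + 1 / (3 * Y) ≤ Real.exp (1 / (3 * Y)) := by
      have := Real.add_one_le_exp (1 / (3 * Y)); linarith
    calc (1 + 1 / (3 * Y)) ^ J ≤ (Real.exp (1 / (3 * Y))) ^ J := pow_le_pow_left₀ (by positivity) h1 J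
      _ = Real.exp (J * (1 / (3 * Y))) := (Real.exp_nat_mul _ _).symm
      _ ≤ Real.exp (Real.log 2) := by
          apply Real.exp_le_exp.2
          refine le_trans ?_ g2
          have h2 : 1 / (3 * Y) ≤ x ^ (-θ) := by
            rw [Real.rpow_neg hx0.le, ← one_div]
            apply one_div_le_one_div_of_le (by positivity)
            linarith
          calc (J : ℝ) * (1 / (3 * Y)) ≤ (3 / 2 * X) * x ^ (-θ) := by
                apply mul_le_mul hJL h2 (by positivity) (by positivity)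
            _ ≤ 3 * (X * x ^ (-θ)) := by
                have : 0 ≤ X * x ^ (-θ) := by positivity
                linarith
      _ = 2 := Real.exp_log (by norm_num)
  -- the time
  set t : ℝ := tm u lam with ht
  have htdef : t = Λ / mu' + u * sg * Real.sqrt Λ := rfl
  have hus : |u * sg * Real.sqrt Λ| = |u| * sg * Real.sqrt Λ := by
    rw [abs_mul, abs_mul, abs_of_pos hsg, abs_of_nonneg (Real.sqrt_nonneg _)]
  have hus2 := abs_le.1 hus.le
  have hBs : B * Real.sqrt Λ ≤ Λ := by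
    have := mul_le_mul_of_nonneg_right hsB (Real.sqrt_nonneg Λ)
    linarith
  have hΛμ : Λ ≤ Λ / mu' := by
    rw [le_div_iff₀ hμ]
    have h1 : mu' ≤ 1 := by
      have h2 := Real.log_le_sub_one_of_pos (show (0 : ℝ) < 27 / 16 by norm_num)
      unfold mu'; linarith
    nlinarith
  have hs1 : 1 ≤ Real.sqrt Λ := by linarith
  have htg : (g : ℝ) + 1 ≤ t := by
    have h1 : B * Real.sqrt Λ = |u| * sg * Real.sqrt Λ + (g + 1) * Real.sqrt Λ := by rw [hB]; ring
    have h2 : (g : ℝ) + 1 ≤ (g + 1) * Real.sqrt Λ := le_mul_of_one_le_right (by linarith) hs1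
    linarith [hus2.1]
  have ht0 : 0 ≤ t := by linarith
  set m := ⌊t⌋₊ with hm
  have hm1 : (m : ℝ) ≤ t := Nat.floor_le ht0
  have hm2 : t < m + 1 := Nat.lt_floor_add_one t
  have hgm : g ≤ m := by
    apply Nat.le_floor; linarith
  have hmJ : m ≤ J := by
    have h1 : Λ ≤ 1 / 21 * X := by
      have h2 : Λ ≤ v * X := by
        rw [hΛ, hX, ← Real.log_rpow hx0]; exact Real.log_le_log hlam0 hlamx
      have h3 : 0 ≤ X := by linarith
      nlinarith
    have h2 : Λ / mu' ≤ 10 * Λ := by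
      rw [div_le_iff₀ hμ]; nlinarith
    have h2' : |u| * sg * Real.sqrt Λ ≤ B * Real.sqrt Λ :=
      mul_le_mul_of_nonneg_right hB0 (Real.sqrt_nonneg _)
    have h3 : (m : ℝ) ≤ 11 * Λ := by linarith [hus2.2]
    have h4 : 20 / 21 * X ≤ ((J : ℝ) + 1) * Real.log 2 := by
      have h4 := Real.log_le_log (by positivity) hJ2.le
      rw [Real.log_rpow hx0, Real.log_pow] at h4
      push_cast at h4
      exact h4
    have h5 := Real.log_two_lt_d9
    have h6 : ((J : ℝ) + 1) * Real.log 2 ≤ ((J : ℝ) + 1) * 0.6931471808 :=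
      mul_le_mul_of_nonneg_left h5.le (by positivity)
    have h7 : (m : ℝ) ≤ J := by nlinarith
    exact_mod_cast h7
  -- `z`
  set z : ℝ := lam / ℓ with hz
  have hz0 : 0 < z := by positivity
  have hz1 : 1 ≤ z := by rw [hz, le_div_iff₀ (by linarith)]; linarith
  have hzl : ℓ0 * z ≤ lam := by
    have : ℓ * z = lam := by rw [hz]; field_simp
    rw [← this]; exact mul_le_mul_of_nonneg_right hℓ0 hz0.le
  have hz2 : z ≤ lam / 2 := by
    rw [hz]; exact div_le_div_of_nonneg_left hlam0.le (by norm_num) hℓ2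
  have hlz : |Real.log z - Λ| ≤ g + 1 + Real.log ℓ := by
    rw [hz, Real.log_div hlam0.ne' (by linarith)]
    have : Real.log lam - Real.log ℓ - Λ = -Real.log ℓ := by rw [hΛ]; ring
    rw [this, abs_neg, abs_of_nonneg hlogℓ]; linarith
  have hW1 := abs_le.1 (hW Λ hΛ0 m z hz0 (by
    rw [← htdef, abs_le]; constructor <;> linarith) hlz)
  have hW2 := abs_le.1 (hW Λ hΛ0 (m - g) z hz0 (by
    rw [← htdef, Nat.cast_sub hgm, abs_le]; constructor <;> linarith) hlz)
  have hS1 := abs_le.1 (hstop x Y lam z hxx1 hY1 hY2 hlamL1 hlamx hz1 hzl (SK m))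
  have hS2 := abs_le.1 (hstop x Y lam z hxx1 hY1 hY2 hlamL1 hlamx hz1 hzl (SK (m - g)))
  rw [tsum_SK] at hS1 hS2
  have hun := abs_le.1 (hunif x Y lam hxa hY1 hY2 hlamLa hlamx)
  set N := ⌊x⌋₊ with hN
  set Tt : ℝ := (((Icc 1 N).filter (Exc lam Y)).card : ℝ) with hTt
  have hTlow : C / 2 * (x / lam) ≤ Tt := by linarith [hun.1]
  have hT0 : 0 ≤ Tt := by positivity
  -- values above
  have habove : ∀ n, 1 ≤ n → Exc lam Y n → κ n ≤ J → lam / 2 ≤ MM (κ n) n := by
    intro n hn hE hκJ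
    obtain ⟨h1, h2⟩ := hκ n hE
    have hn0 : (0 : ℝ) < n := by exact_mod_cast hn
    have hM := MM_pos (κ n) n
    have h3 := iter_le hY0 n (κ n) fun j hj => (h2 j hj.le).le
    have hr1 : (1 : ℝ) ≤ 1 + 1 / (3 * Y) := by
      have : 0 < 1 / (3 * Y) := by positivity
      linarith
    have h4 : (1 + 1 / (3 * Y)) ^ κ n ≤ 2 := (pow_le_pow_right₀ hr1 hκJ).trans hr
    have h5 : ((T^[κ n] n : ℕ) : ℝ) ≤ MM (κ n) n * n * 2 :=
      h3.trans (mul_le_mul_of_nonneg_left h4 (by positivity))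
    have h6 : lam * n < (2 * MM (κ n) n) * n := by linarith
    have h7 := lt_of_mul_lt_mul_right h6 hn0.le
    linarith
  -- the upper bound
  have hup : (((Icc 1 N).filter fun n => Exc lam Y n ∧ (κ n : ℝ) ≤ t).card : ℝ) ≤
      (((Icc 1 N).filter fun n => Exc lam Y n ∧ ∃ k, DS z (SK m) k n).card : ℝ) := by
    apply Nat.cast_le.2
    apply card_le_card
    intro n hn
    rw [mem_filter, mem_Icc] at hn ⊢
    obtain ⟨hn1, hE, hκt⟩ := hn
    have hκm : κ n ≤ m := Nat.le_floor hκt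
    obtain ⟨k, hk, hkn⟩ := exists_FP (hz2.trans (habove n hn1.1 hE (by omega)))
    exact ⟨hn1, hE, k, hkn, by show k ≤ m; omega⟩
  -- the lower bound
  have hlow : (((Icc 1 N).filter fun n => Exc lam Y n ∧ ∃ k, DS z (SK (m - g)) k n).card : ℝ) ≤
      (((Icc 1 N).filter fun n => Exc lam Y n ∧ (κ n : ℝ) ≤ t).card : ℝ) +
      ((((Icc 1 N).filter (Late2 lam Y J)).card : ℝ) +
      (((range (N + 1)).filter fun n => Bad z (lam / 2) m g J n).card : ℝ)) := by
    have hsub : ((Icc 1 N).filter fun n => Exc lam Y n ∧ ∃ k, DS z (SK (m - g)) k n) ⊆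
        ((Icc 1 N).filter fun n => Exc lam Y n ∧ (κ n : ℝ) ≤ t) ∪
        (((Icc 1 N).filter (Late2 lam Y J)) ∪
        ((range (N + 1)).filter fun n => Bad z (lam / 2) m g J n)) := by
      intro n hn
      rw [mem_filter, mem_Icc] at hn
      obtain ⟨hn1, hE, k, hk1, hk2⟩ := hn
      have hkm : k ≤ m - g := hk2
      rw [mem_union, mem_union, mem_filter, mem_filter, mem_filter, mem_Icc, mem_range]
      by_cases h1 : (κ n : ℝ) ≤ t
      · exact Or.inl ⟨hn1, hE, h1⟩
      right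
      obtain ⟨h3, h4⟩ := hκ n hE
      by_cases h2 : J < κ n
      · exact Or.inl ⟨hn1, κ n, h2, h3, h4⟩
      right
      refine ⟨by omega, k, by omega, hk1, κ n, ?_, by omega, habove n hn1.1 hE (by omega)⟩
      by_contra h5
      apply h1
      have : (κ n : ℝ) ≤ m := by exact_mod_cast not_lt.1 h5
      linarith
    have h1 := (card_le_card hsub).trans ((card_union_le _ _).trans
      (Nat.add_le_add le_rfl (card_union_le _ _)))
    exact_mod_cast h1
  have hN1 : ((N : ℕ) : ℝ) ≤ x := Nat.floor_le hx0.le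
  have b1 : (((Icc 1 N).filter (Late2 lam Y J)).card : ℝ) ≤ ε / 4 * (C / 2) * (x / lam) := by
    refine (hlate Y lam J hY1 hlam0 hlamx hJ1 hJ2).trans ?_
    exact mul_le_mul_of_nonneg_right g1 hxl.le
  have b2 : (((range (N + 1)).filter fun n => Bad z (lam / 2) m g J n).card : ℝ) ≤
      ε / 4 * (C / 2) * (x / lam) := by
    refine (card_Bad hz0 (by linarith) m g J (N + 1) hmJ).trans ?_
    have e1 : Real.sqrt z * Real.sqrt (lam / 2) = lam / Real.sqrt (2 * ℓ) := by
      rw [← Real.sqrt_mul hz0.le, hz]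
      have : lam / ℓ * (lam / 2) = lam ^ 2 / (2 * ℓ) := by field_simp
      rw [this, Real.sqrt_div (by positivity), Real.sqrt_sq hlam0.le]
    rw [e1]
    have h3 : ((N + 1 : ℕ) : ℝ) + 2 ^ J ≤ 3 * x := by push_cast; linarith
    calc (((N + 1 : ℕ) : ℝ) + 2 ^ J) * (30 * b ^ g / (lam / Real.sqrt (2 * ℓ)))
        ≤ (3 * x) * (30 * b ^ g / (lam / Real.sqrt (2 * ℓ))) :=
          mul_le_mul_of_nonneg_right h3 (by positivity)
      _ = (90 * Real.sqrt (2 * ℓ) * b ^ g) * (x / lam) := by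
          have : 0 < Real.sqrt (2 * ℓ) := by positivity
          field_simp
          ring
      _ ≤ _ := mul_le_mul_of_nonneg_right hg hxl.le
  have b3 : ε / 4 * (C / 2) * (x / lam) ≤ ε / 4 * Tt := by
    rw [mul_assoc]
    exact mul_le_mul_of_nonneg_left hTlow (by linarith)
  have c1 : W (DS z fun _ => Set.univ) m * Tt ≤ (Phi u + ε / 4) * Tt :=
    mul_le_mul_of_nonneg_right (by linarith [hW1.2]) hT0
  have c2 : (Phi u - ε / 4) * Tt ≤ W (DS z fun _ => Set.univ) (m - g) * Tt :=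
    mul_le_mul_of_nonneg_right (by linarith [hW2.1]) hT0
  rw [abs_le]
  constructor
  · linarith [hS2.1]
  · linarith [hS1.2]

end Pool.Agent.H622.Ct
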