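import Mathlib
import Pool.Agent.H622.Ct7

set_option autoImplicit false

/-! The passage time given a large excursion, part 8: uniformity. -/

namespace Pool.Agent.H622.Ct

open Finset Filter Topology MeasureTheory ProbabilityTheory Pool.Agent.Helper894.Collatz
  Pool.Agent.H828R3.Exc Pool.Agent.W36.SL Pool.Agent.H622.Sh Pool.Agent.H622.Gb

theorem tm_mono (lam : ℝ) {u u' : ℝ} (h : u ≤ u') : tm u lam ≤ tm u' lam := by
  unfold tm
  have h1 : u * sg ≤ u' * sg := mul_le_mul_of_nonneg_right h sg_pos.le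
  have := mul_le_mul_of_nonneg_right h1 (Real.sqrt_nonneg (Real.log lam))
  linarith

open scoped Classical in
theorem passage_unif {θ θ' v : ℝ} (hθ : 0 < θ) (hθθ' : θ ≤ θ') (hθ' : θ' < 1) (hv : v < θ / 21)
    {ε : ℝ} (hε : 0 < ε) : ∃ L0 x0 : ℝ, ∀ x Y lam : ℝ, x0 ≤ x → x ^ θ ≤ Y → Y ≤ x ^ θ' →
      L0 ≤ lam → lam ≤ x ^ v → ∀ κ : ℕ → ℕ, Above lam Y κ → ∀ u : ℝ,
      |(((Icc 1 ⌊x⌋₊).filter fun n => Exc lam Y n ∧ (κ n : ℝ) ≤ tm u lam).card : ℝ) -
        Phi u * (((Icc 1 ⌊x⌋₊).filter (Exc lam Y)).card : ℝ)| ≤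
        ε * (((Icc 1 ⌊x⌋₊).filter (Exc lam Y)).card : ℝ) := by
  obtain ⟨M, hM0, hM1, hM2⟩ := Phi_lim (ε / 4) (by linarith)
  set δ : ℝ := ε / 4 with hδ
  have hδ0 : 0 < δ := by rw [hδ]; linarith
  set g : ℕ → ℝ := fun i => -M + i * δ with hg
  set R : ℕ := ⌈2 * M / δ⌉₊ with hR
  have hgR : M ≤ g R := by
    have h1 : 2 * M / δ ≤ R := Nat.le_ceil _
    rw [div_le_iff₀ hδ0] at h1
    simp only [hg]; linarith
  choose Lf xf hf using fun i : ℕ => passage hθ hθθ' hθ' hv (g i) hδ0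
  obtain ⟨Lm, hLm⟩ := ((range (R + 1)).image Lf).exists_le
  obtain ⟨xm, hxm⟩ := ((range (R + 1)).image xf).exists_le
  refine ⟨Lm, xm, ?_⟩
  intro x Y lam hx hY1 hY2 hlam hlamx κ hκ u
  set Tt : ℝ := (((Icc 1 ⌊x⌋₊).filter (Exc lam Y)).card : ℝ) with hTt
  have hT0 : 0 ≤ Tt := by positivity
  set F : ℝ → ℝ := fun u =>
    (((Icc 1 ⌊x⌋₊).filter fun n => Exc lam Y n ∧ (κ n : ℝ) ≤ tm u lam).card : ℝ) with hF
  have hFm : ∀ u u', u ≤ u' → F u ≤ F u' := by
    intro u u' h
    apply Nat.cast_le.2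
    apply card_le_card
    intro n hn
    rw [mem_filter] at hn ⊢
    exact ⟨hn.1, hn.2.1, hn.2.2.trans (tm_mono lam h)⟩
  have hFT : ∀ u, F u ≤ Tt := by
    intro u
    apply Nat.cast_le.2
    apply card_le_card
    intro n hn
    rw [mem_filter] at hn ⊢
    exact ⟨hn.1, hn.2.1⟩
  have hF0 : ∀ u, 0 ≤ F u := fun u => Nat.cast_nonneg _
  have key : ∀ i ≤ R, |F (g i) - Phi (g i) * Tt| ≤ δ * Tt := by
    intro i hi
    have hi' : i ∈ range (R + 1) := mem_range.2 (by omega)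
    exact hf i x Y lam ((hxm _ (mem_image_of_mem _ hi')).trans hx) hY1 hY2
      ((hLm _ (mem_image_of_mem _ hi')).trans hlam) hlamx κ hκ
  show |F u - Phi u * Tt| ≤ ε * Tt
  have hεδ : ε * Tt = 4 * (δ * Tt) := by rw [hδ]; ring
  have hδT : 0 ≤ δ * Tt := by positivity
  rw [hεδ, abs_le]
  rcases lt_or_ge u (-M) with hu | hu
  · have h0 := abs_le.1 (key 0 (Nat.zero_le _))
    have e0 : g 0 = -M := by simp [hg]
    rw [e0] at h0
    have h1 := hFm u (-M) hu.le
    have h2 := mul_le_mul_of_nonneg_right (Phi_mono hu.le) hT0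
    have h3 := mul_le_mul_of_nonneg_right hM1 hT0
    have h4 := hF0 u
    have h5 := mul_nonneg (Phi_nonneg u) hT0
    constructor <;> linarith
  rcases le_or_gt (g R) u with hu2 | hu2
  · have h0 := abs_le.1 (key R le_rfl)
    have h1 := hFm _ _ hu2
    have h2 := mul_le_mul_of_nonneg_right (hM2.trans (Phi_mono hgR)) hT0
    have h3 := mul_le_mul_of_nonneg_right (Phi_le_one u) hT0
    have h4 := hFT u
    have h5 := mul_le_mul_of_nonneg_right (hM2.trans (Phi_mono (hgR.trans hu2))) hT0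
    have h6 : (1 - δ) * Tt = Tt - δ * Tt := by ring
    constructor <;> linarith
  · set i := ⌊(u + M) / δ⌋₊ with hi
    have hnn : 0 ≤ (u + M) / δ := div_nonneg (by linarith) hδ0.le
    have i1 : (i : ℝ) ≤ (u + M) / δ := Nat.floor_le hnn
    have i2 : (u + M) / δ < i + 1 := Nat.lt_floor_add_one _
    rw [le_div_iff₀ hδ0] at i1
    rw [div_lt_iff₀ hδ0] at i2
    have a1 : g i ≤ u := by simp only [hg]; linarith
    have a2 : u ≤ g (i + 1) := by simp only [hg]; push_cast; linarith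
    have a3 : i < R := by
      by_contra h
      have h' : (R : ℝ) ≤ i := by exact_mod_cast not_lt.1 h
      have h'' : g R ≤ g i := by
        simp only [hg]
        have := mul_le_mul_of_nonneg_right h' hδ0.le
        linarith
      linarith
    have k1 := abs_le.1 (key i a3.le)
    have k2 := abs_le.1 (key (i + 1) a3)
    have f1 := hFm _ _ a1
    have f2 := hFm _ _ a2
    have hd : g (i + 1) - g i = δ := by simp only [hg]; push_cast; ring
    have p1 : Phi (g (i + 1)) ≤ Phi u + δ := by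
      have := Phi_sub a2
      linarith
    have p2 : Phi u - δ ≤ Phi (g i) := by
      have := Phi_sub a1
      linarith
    have p1' := mul_le_mul_of_nonneg_right p1 hT0
    have p2' := mul_le_mul_of_nonneg_right p2 hT0
    have e1 : (Phi u + δ) * Tt = Phi u * Tt + δ * Tt := by ring
    have e2 : (Phi u - δ) * Tt = Phi u * Tt - δ * Tt := by ring
    constructor <;> linarith

end Pool.Agent.H622.Ct
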