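import Mathlib

set_option autoImplicit false

/-! Words above a line of irrational slope, part 1: the factorization. -/

namespace Pool.Agent.H622.Gs

open Finset
open scoped Classical

/-- an irrational slope between zero and one -/
structure Sl (θ : ℝ) : Prop where
  pos : 0 < θ
  lt : θ < 1
  irr : ∀ k : ℕ, 0 < k → ∀ o : ℤ, (k : ℝ) * θ ≠ o

theorem Sl.flip {θ : ℝ} (h : Sl θ) : Sl (1 - θ) := by
  refine ⟨by linarith [h.lt], by linarith [h.pos], ?_⟩
  intro k hk o ho
  apply h.irr k hk (k - o)
  push_cast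
  linarith

variable (θ : ℝ)

abbrev R := Polynomial ℤ

/-- all the exponents are above the line -/
def IsPos (f : PowerSeries R) : Prop :=
  ∀ k o : ℕ, (PowerSeries.coeff k f).coeff o ≠ 0 → (k : ℝ) * θ < o

/-- all the exponents are below the line -/
def IsNeg (f : PowerSeries R) : Prop :=
  ∀ k o : ℕ, (PowerSeries.coeff k f).coeff o ≠ 0 → (o : ℝ) < k * θ

variable {θ}

theorem IsPos.add {f g : PowerSeries R} (hf : IsPos θ f) (hg : IsPos θ g) : IsPos θ (f + g) := by
  intro k o h
  rw [map_add, Polynomial.coeff_add] at h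
  by_cases h1 : (PowerSeries.coeff k f).coeff o = 0
  · rw [h1, zero_add] at h; exact hg k o h
  · exact hf k o h1

theorem IsNeg.add {f g : PowerSeries R} (hf : IsNeg θ f) (hg : IsNeg θ g) : IsNeg θ (f + g) := by
  intro k o h
  rw [map_add, Polynomial.coeff_add] at h
  by_cases h1 : (PowerSeries.coeff k f).coeff o = 0
  · rw [h1, zero_add] at h; exact hg k o h
  · exact hf k o h1

theorem IsPos.neg {f : PowerSeries R} (hf : IsPos θ f) : IsPos θ (-f) := by
  intro k o h
  rw [map_neg, Polynomial.coeff_neg, neg_ne_zero] at h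
  exact hf k o h

theorem IsNeg.neg {f : PowerSeries R} (hf : IsNeg θ f) : IsNeg θ (-f) := by
  intro k o h
  rw [map_neg, Polynomial.coeff_neg, neg_ne_zero] at h
  exact hf k o h

theorem IsPos.mul {f g : PowerSeries R} (hf : IsPos θ f) (hg : IsPos θ g) : IsPos θ (f * g) := by
  intro k o h
  rw [PowerSeries.coeff_mul, Polynomial.finsetSum_coeff] at h
  obtain ⟨⟨i, j⟩, hij, h1⟩ := exists_ne_zero_of_sum_ne_zero h
  rw [Polynomial.coeff_mul] at h1
  obtain ⟨⟨p, q⟩, hpq, h2⟩ := exists_ne_zero_of_sum_ne_zero h1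
  rw [HasAntidiagonal.mem_antidiagonal] at hij hpq
  have a1 := hf i p (left_ne_zero_of_mul h2)
  have a2 := hg j q (right_ne_zero_of_mul h2)
  simp only at hij hpq
  rw [← hij, ← hpq]
  push_cast
  linarith

theorem IsNeg.mul {f g : PowerSeries R} (hf : IsNeg θ f) (hg : IsNeg θ g) : IsNeg θ (f * g) := by
  intro k o h
  rw [PowerSeries.coeff_mul, Polynomial.finsetSum_coeff] at h
  obtain ⟨⟨i, j⟩, hij, h1⟩ := exists_ne_zero_of_sum_ne_zero h
  rw [Polynomial.coeff_mul] at h1
  obtain ⟨⟨p, q⟩, hpq, h2⟩ := exists_ne_zero_of_sum_ne_zero h1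
  rw [HasAntidiagonal.mem_antidiagonal] at hij hpq
  have a1 := hf i p (left_ne_zero_of_mul h2)
  have a2 := hg j q (right_ne_zero_of_mul h2)
  simp only at hij hpq
  rw [← hij, ← hpq]
  push_cast
  linarith

theorem eq_zero_of {f : PowerSeries R} (hf : IsPos θ f) (hg : IsNeg θ f) : f = 0 := by
  ext k o
  by_contra h
  have a1 := hf k o h
  have a2 := hg k o h
  linarith

/-- a part of a polynomial -/
noncomputable def cut (P : ℕ → Prop) (p : R) : R :=
  ∑ o ∈ p.support.filter P, Polynomial.monomial o (p.coeff o)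

theorem coeff_cut (P : ℕ → Prop) (p : R) (o : ℕ) :
    (cut P p).coeff o = if P o then p.coeff o else 0 := by
  unfold cut
  rw [Polynomial.finsetSum_coeff]
  simp only [Polynomial.coeff_monomial]
  rw [sum_ite_eq']
  by_cases h : P o
  · rw [if_pos h]
    by_cases h2 : p.coeff o = 0
    · rw [h2]; simp
    · rw [if_pos (mem_filter.2 ⟨Polynomial.mem_support_iff.2 h2, h⟩)]
  · rw [if_neg h, if_neg]
    intro h2
    exact h (mem_filter.1 h2).2

variable (θ)

/-- the words all of whose initial segments are above the line -/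
noncomputable def Dp : ℕ → R
  | 0 => 1
  | k + 1 => cut (fun o => ((k + 1 : ℕ) : ℝ) * θ < o) ((1 + Polynomial.X) * Dp k)

/-- the words all of whose initial segments are below the line -/
noncomputable def Ep : ℕ → R
  | 0 => 1
  | k + 1 => cut (fun o => (o : ℝ) < ((k + 1 : ℕ) : ℝ) * θ) ((1 + Polynomial.X) * Ep k)

noncomputable def D : PowerSeries R := PowerSeries.mk (Dp θ)
noncomputable def E : PowerSeries R := PowerSeries.mk (Ep θ)
noncomputable def y1 : R := 1 + Polynomial.X
noncomputable def U : PowerSeries R := 1 - PowerSeries.X * PowerSeries.C y1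

variable {θ}

theorem D_sub : IsPos θ (D θ - 1) := by
  intro k o h
  unfold D at h
  rw [map_sub, PowerSeries.coeff_mk, PowerSeries.coeff_one] at h
  rcases k with _ | k
  · simp [Dp] at h
  · rw [if_neg (by omega), sub_zero, Dp, coeff_cut] at h
    by_contra h2
    rw [if_neg h2] at h
    exact h rfl

theorem E_sub : IsNeg θ (E θ - 1) := by
  intro k o h
  unfold E at h
  rw [map_sub, PowerSeries.coeff_mk, PowerSeries.coeff_one] at h
  rcases k with _ | k
  · simp [Ep] at h
  · rw [if_neg (by omega), sub_zero, Ep, coeff_cut] at h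
    by_contra h2
    rw [if_neg h2] at h
    exact h rfl

theorem coeff_U_mul (f : PowerSeries R) (k : ℕ) :
    PowerSeries.coeff (k + 1) (U * f) = PowerSeries.coeff (k + 1) f - y1 * PowerSeries.coeff k f := by
  unfold U
  rw [sub_mul, one_mul, map_sub, mul_assoc, PowerSeries.coeff_succ_X_mul, PowerSeries.coeff_C_mul]

theorem coeff_U_mul_zero (f : PowerSeries R) :
    PowerSeries.coeff 0 (U * f) = PowerSeries.coeff 0 f := by
  unfold U
  rw [sub_mul, one_mul, map_sub, mul_assoc, PowerSeries.coeff_zero_X_mul, sub_zero]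

theorem UD_sub (hθ : Sl θ) : IsNeg θ (U * D θ - 1) := by
  intro k o h
  rw [map_sub, PowerSeries.coeff_one] at h
  rcases k with _ | k
  · rw [coeff_U_mul_zero] at h
    simp [D, Dp] at h
  · rw [coeff_U_mul, if_neg (by omega), sub_zero] at h
    unfold D at h
    rw [PowerSeries.coeff_mk, PowerSeries.coeff_mk, Dp, Polynomial.coeff_sub, coeff_cut] at h
    by_contra h2
    have h3 : ((k + 1 : ℕ) : ℝ) * θ < o := by
      have := hθ.irr (k + 1) (by omega) o
      rw [Int.cast_natCast] at this
      exact lt_of_le_of_ne (not_lt.1 h2) this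
    rw [if_pos h3] at h
    exact h (sub_self _)

theorem UE_sub (hθ : Sl θ) : IsPos θ (U * E θ - 1) := by
  intro k o h
  rw [map_sub, PowerSeries.coeff_one] at h
  rcases k with _ | k
  · rw [coeff_U_mul_zero] at h
    simp [E, Ep] at h
  · rw [coeff_U_mul, if_neg (by omega), sub_zero] at h
    unfold E at h
    rw [PowerSeries.coeff_mk, PowerSeries.coeff_mk, Ep, Polynomial.coeff_sub, coeff_cut] at h
    by_contra h2
    have h3 : (o : ℝ) < ((k + 1 : ℕ) : ℝ) * θ := by
      have := hθ.irr (k + 1) (by omega) o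
      rw [Int.cast_natCast] at this
      exact lt_of_le_of_ne (not_lt.1 h2) this.symm
    rw [if_pos h3] at h
    exact h (sub_self _)

/-- the factorization of Wiener and Hopf -/
theorem UDE (hθ : Sl θ) : U * D θ * E θ = 1 := by
  have h1 : IsNeg θ (U * D θ * E θ - 1) := by
    have : U * D θ * E θ - 1 = (U * D θ - 1) * (E θ - 1) + (U * D θ - 1) + (E θ - 1) := by ring
    rw [this]
    exact (((UD_sub hθ).mul E_sub).add (UD_sub hθ)).add E_sub
  have h2 : IsPos θ (U * D θ * E θ - 1) := by
    have : U * D θ * E θ - 1 = (U * E θ - 1) * (D θ - 1) + (U * E θ - 1) + (D θ - 1) := by ring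
    rw [this]
    exact (((UE_sub hθ).mul D_sub).add (UE_sub hθ)).add D_sub
  exact sub_eq_zero.1 (eq_zero_of h2 h1)

/-- the derivation `z d/dz` -/
noncomputable def dd (f : PowerSeries R) : PowerSeries R :=
  PowerSeries.mk fun k => (k : R) * PowerSeries.coeff k f

theorem coeff_dd (f : PowerSeries R) (k : ℕ) :
    PowerSeries.coeff k (dd f) = (k : R) * PowerSeries.coeff k f := by
  unfold dd; rw [PowerSeries.coeff_mk]

theorem dd_mul (f g : PowerSeries R) : dd (f * g) = f * dd g + g * dd f := by
  ext1 k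
  rw [coeff_dd, map_add, mul_comm g, PowerSeries.coeff_mul, PowerSeries.coeff_mul,
    PowerSeries.coeff_mul, mul_sum, ← sum_add_distrib]
  apply sum_congr rfl
  rintro ⟨i, j⟩ hij
  rw [HasAntidiagonal.mem_antidiagonal] at hij
  rw [coeff_dd, coeff_dd, ← hij]
  push_cast
  ring

theorem dd_pos {f : PowerSeries R} (hf : IsPos θ (f - 1)) : IsPos θ (dd f) := by
  intro k o h
  rw [coeff_dd] at h
  rcases k with _ | k
  · simp at h
  · apply hf (k + 1) o
    rw [map_sub, PowerSeries.coeff_one, if_neg (by omega), sub_zero]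
    intro h2
    apply h
    rw [← Polynomial.C_eq_natCast, Polynomial.coeff_C_mul, h2, mul_zero]

theorem dd_neg {f : PowerSeries R} (hf : IsNeg θ (f - 1)) : IsNeg θ (dd f) := by
  intro k o h
  rw [coeff_dd] at h
  rcases k with _ | k
  · simp at h
  · apply hf (k + 1) o
    rw [map_sub, PowerSeries.coeff_one, if_neg (by omega), sub_zero]
    intro h2
    apply h
    rw [← Polynomial.C_eq_natCast, Polynomial.coeff_C_mul, h2, mul_zero]

noncomputable def Y (θ : ℝ) : PowerSeries R := dd (D θ) * (U * E θ)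

theorem Y_pos (hθ : Sl θ) : IsPos θ (Y θ) := by
  unfold Y
  have : dd (D θ) * (U * E θ) = dd (D θ) * (U * E θ - 1) + dd (D θ) := by ring
  rw [this]
  exact ((dd_pos D_sub).mul (UE_sub hθ)).add (dd_pos D_sub)

theorem Y_mul (hθ : Sl θ) : Y θ * D θ = dd (D θ) := by
  have : Y θ * D θ = dd (D θ) * (U * D θ * E θ) := by unfold Y; ring
  rw [this, UDE hθ, mul_one]

theorem DE_coeff (hθ : Sl θ) (k : ℕ) : PowerSeries.coeff k (D θ * E θ) = y1 ^ k := by
  have h : U * (D θ * E θ) = 1 := by rw [← mul_assoc]; exact UDE hθ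
  induction k with
  | zero =>
    have := coeff_U_mul_zero (D θ * E θ)
    rw [h, PowerSeries.coeff_one, if_pos rfl] at this
    rw [← this, pow_zero]
  | succ k ih =>
    have := coeff_U_mul (D θ * E θ) k
    rw [h, PowerSeries.coeff_one, if_neg (by omega), ih] at this
    rw [pow_succ', ← sub_eq_zero]
    exact this.symm

theorem Y_coeff (hθ : Sl θ) (k o : ℕ) (hk : 0 < k) : (PowerSeries.coeff k (Y θ)).coeff o =
    if (k : ℝ) * θ < o then (k.choose o : ℤ) else 0 := by
  by_cases h : (k : ℝ) * θ < o
  swap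
  · rw [if_neg h]
    by_contra h2
    exact h (Y_pos hθ k o h2)
  · rw [if_pos h]
    set Z : PowerSeries R := dd (E θ) * (U * D θ) with hZ
    have hZn : IsNeg θ Z := by
      have : Z = dd (E θ) * (U * D θ - 1) + dd (E θ) := by rw [hZ]; ring
      rw [this]
      exact ((dd_neg E_sub).mul (UD_sub hθ)).add (dd_neg E_sub)
    have h1 : Y θ + Z = PowerSeries.X * PowerSeries.C y1 * (D θ * E θ) := by
      have h2 : dd (U * (D θ * E θ)) = 0 := by
        rw [← mul_assoc, UDE hθ]
        ext1 k
        rw [coeff_dd, PowerSeries.coeff_one]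
        rcases k with _ | k
        · simp
        · rw [if_neg (by omega)]; simp
      rw [dd_mul, dd_mul] at h2
      have h3 : dd U = -(PowerSeries.X * PowerSeries.C y1) := by
        ext1 k
        rw [coeff_dd, map_neg]
        unfold U
        rw [map_sub]
        rcases k with _ | _ | k
        · simp
        · rw [PowerSeries.coeff_succ_X_mul, PowerSeries.coeff_one, if_neg (by omega)]
          push_cast
          ring
        · rw [PowerSeries.coeff_succ_X_mul, PowerSeries.coeff_one, if_neg (by omega),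
            PowerSeries.coeff_C, if_neg (by omega)]
          ring
      rw [h3] at h2
      unfold Y
      rw [hZ]
      linear_combination h2
    have h2 : (PowerSeries.coeff k Z).coeff o = 0 := by
      by_contra h3
      have := hZn k o h3
      linarith
    have h3 : (PowerSeries.coeff k (Y θ + Z)).coeff o = (k.choose o : ℤ) := by
      rw [h1, mul_assoc]
      obtain ⟨m, rfl⟩ : ∃ m, k = m + 1 := ⟨k - 1, by omega⟩
      rw [PowerSeries.coeff_succ_X_mul, PowerSeries.coeff_C_mul, DE_coeff hθ, ← pow_succ']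
      unfold y1
      rw [add_comm, Polynomial.coeff_X_add_one_pow]
    rw [map_add, Polynomial.coeff_add, h2, add_zero] at h3
    exact h3

end Pool.Agent.H622.Gs
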