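import Mathlib

set_option autoImplicit false

/-! The sharp law of the stopping time, part 3: the local limit theorem for the binomial law. -/

namespace Pool.Agent.H622.St

open Finset Filter Topology

/-- the binomial probabilities -/
noncomputable def pb (θ : ℝ) (k m : ℕ) : ℝ := k.choose m * (θ ^ m * (1 - θ) ^ (k - m))

theorem pb_nonneg {θ : ℝ} (h0 : 0 < θ) (h1 : θ < 1) (k m : ℕ) : 0 ≤ pb θ k m := by
  unfold pb
  have : 0 < 1 - θ := by linarith
  positivity

theorem fact_eq {n : ℕ} (hn : 0 < n) :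
    (n.factorial : ℝ) = Stirling.stirlingSeq n * (Real.sqrt (2 * n) * (n / Real.exp 1) ^ n) := by
  unfold Stirling.stirlingSeq
  have : (0 : ℝ) < n := by exact_mod_cast hn
  field_simp

/-- the relative entropy -/
noncomputable def KL (θ : ℝ) (k m : ℕ) : ℝ :=
  m * Real.log (m / (k * θ)) + ((k : ℝ) - m) * Real.log (((k : ℝ) - m) / (k * (1 - θ)))

theorem pb_eq {θ : ℝ} (h0 : 0 < θ) (h1 : θ < 1) {k m : ℕ} (hm : 0 < m) (hmk : m < k) :
    Real.sqrt k * pb θ k m = Stirling.stirlingSeq k / (Stirling.stirlingSeq m * Stirling.stirlingSeq (k - m)) *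
      (Real.sqrt ((k / m) * (k / (k - m)) / 2) * Real.exp (-KL θ k m)) := by
  have hk : 0 < k := by omega
  have hl : 0 < k - m := by omega
  have hk' : (0 : ℝ) < k := by exact_mod_cast hk
  have hm' : (0 : ℝ) < m := by exact_mod_cast hm
  have hl' : (0 : ℝ) < ((k - m : ℕ) : ℝ) := by exact_mod_cast hl
  have hlr : ((k - m : ℕ) : ℝ) = (k : ℝ) - m := Nat.cast_sub hmk.le
  have h1' : 0 < 1 - θ := by linarith
  have hs1 : 0 < Stirling.stirlingSeq k := by
    obtain ⟨j, rfl⟩ : ∃ j, k = j + 1 := ⟨k - 1, by omega⟩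
    exact Stirling.stirlingSeq'_pos j
  have hs2 : 0 < Stirling.stirlingSeq m := by
    obtain ⟨j, rfl⟩ : ∃ j, m = j + 1 := ⟨m - 1, by omega⟩
    exact Stirling.stirlingSeq'_pos j
  have hs3 : 0 < Stirling.stirlingSeq (k - m) := by
    obtain ⟨j, hj⟩ : ∃ j, k - m = j + 1 := ⟨k - m - 1, by omega⟩
    rw [hj]; exact Stirling.stirlingSeq'_pos j
  have e1 : ((k.choose m : ℕ) : ℝ) = k.factorial / (m.factorial * (k - m).factorial) := by
    rw [Nat.choose_eq_factorial_div_factorial hmk.le, Nat.cast_div_charZero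
      (Nat.factorial_mul_factorial_dvd_factorial hmk.le)]
    push_cast; rfl
  have e2 : Real.exp (-KL θ k m) = (k * θ / m) ^ m * (k * (1 - θ) / ((k - m : ℕ) : ℝ)) ^ (k - m) := by
    unfold KL
    rw [← hlr]
    have f1 : (k * θ / m : ℝ) ^ m = Real.exp (-(m * Real.log (m / (k * θ)))) := by
      rw [← Real.log_pow, Real.exp_neg, Real.exp_log (by positivity), ← inv_pow, inv_div]
    have f2 : (k * (1 - θ) / ((k - m : ℕ) : ℝ)) ^ (k - m) =
        Real.exp (-(((k - m : ℕ) : ℝ) * Real.log (((k - m : ℕ) : ℝ) / (k * (1 - θ))))) := by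
      rw [← Real.log_pow, Real.exp_neg, Real.exp_log (by positivity), ← inv_pow, inv_div]
    rw [f1, f2, ← Real.exp_add]
    congr 1
    ring
  have e3 : Real.sqrt ((k / m) * (k / (k - m)) / 2) =
      Real.sqrt k * (Real.sqrt (2 * k) / (Real.sqrt (2 * m) * Real.sqrt (2 * ((k - m : ℕ) : ℝ)))) := by
    rw [← hlr, ← Real.sqrt_mul (by positivity), ← Real.sqrt_div (by positivity),
      ← Real.sqrt_mul (by positivity)]
    congr 1
    field_simp
  unfold pb
  rw [e1, e2, e3, fact_eq hk, fact_eq hm, fact_eq hl]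
  have hkk : (k : ℝ) ^ k = (k : ℝ) ^ m * (k : ℝ) ^ (k - m) := by
    rw [← pow_add]; congr 1; omega
  have hee : Real.exp 1 ^ k = Real.exp 1 ^ m * Real.exp 1 ^ (k - m) := by
    rw [← pow_add]; congr 1; omega
  rw [div_pow, div_pow, div_pow, div_pow, div_pow, mul_pow, mul_pow, hkk, hee]
  have he : 0 < Real.exp 1 := Real.exp_pos 1
  field_simp

theorem KL_nonneg {θ : ℝ} (h0 : 0 < θ) (h1 : θ < 1) {k m : ℕ} (hm : 0 < m) (hmk : m < k) :
    0 ≤ KL θ k m := by
  have hk' : (0 : ℝ) < k := by exact_mod_cast (by omega : 0 < k)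
  have hm' : (0 : ℝ) < m := by exact_mod_cast hm
  have hl' : (0 : ℝ) < (k : ℝ) - m := by
    have : (m : ℝ) < k := by exact_mod_cast hmk
    linarith
  have h1' : 0 < 1 - θ := by linarith
  unfold KL
  have a1 := Real.one_sub_inv_le_log_of_pos (show 0 < (m : ℝ) / (k * θ) by positivity)
  have a2 := Real.one_sub_inv_le_log_of_pos (show 0 < ((k : ℝ) - m) / (k * (1 - θ)) by positivity)
  have b1 := mul_le_mul_of_nonneg_left a1 hm'.le
  have b2 := mul_le_mul_of_nonneg_left a2 hl'.le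
  have c1 : (m : ℝ) * (1 - ((m : ℝ) / (k * θ))⁻¹) = m - k * θ := by field_simp
  have c2 : ((k : ℝ) - m) * (1 - (((k : ℝ) - m) / (k * (1 - θ)))⁻¹) = (k - m) - k * (1 - θ) := by
    field_simp
  rw [c1] at b1
  rw [c2] at b2
  linarith

theorem KL_le {θ : ℝ} (h0 : 0 < θ) (h1 : θ < 1) {k m : ℕ} (hm : 0 < m) (hmk : m < k) :
    KL θ k m ≤ ((m : ℝ) - k * θ) ^ 2 / (k * (θ * (1 - θ))) := by
  have hk' : (0 : ℝ) < k := by exact_mod_cast (by omega : 0 < k)
  have hm' : (0 : ℝ) < m := by exact_mod_cast hm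
  have hl' : (0 : ℝ) < (k : ℝ) - m := by
    have : (m : ℝ) < k := by exact_mod_cast hmk
    linarith
  have h1' : 0 < 1 - θ := by linarith
  unfold KL
  have a1 := Real.log_le_sub_one_of_pos (show 0 < (m : ℝ) / (k * θ) by positivity)
  have a2 := Real.log_le_sub_one_of_pos (show 0 < ((k : ℝ) - m) / (k * (1 - θ)) by positivity)
  have b1 := mul_le_mul_of_nonneg_left a1 hm'.le
  have b2 := mul_le_mul_of_nonneg_left a2 hl'.le
  have c1 : (m : ℝ) * ((m : ℝ) / (k * θ) - 1) + ((k : ℝ) - m) * (((k : ℝ) - m) / (k * (1 - θ)) - 1) =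
      ((m : ℝ) - k * θ) ^ 2 / (k * (θ * (1 - θ))) := by
    field_simp
    ring
  linarith

/-- THE LOCAL LIMIT THEOREM near the mean -/
theorem local_limit {θ : ℝ} (h0 : 0 < θ) (h1 : θ < 1) {B : ℝ} (m : ℕ → ℕ)
    (hm : ∀ᶠ k in atTop, |(m k : ℝ) - k * θ| ≤ B) :
    Tendsto (fun k : ℕ => Real.sqrt k * pb θ k (m k)) atTop
      (𝓝 (Real.sqrt (2 * Real.pi * (θ * (1 - θ))))⁻¹) := by
  have h1' : 0 < 1 - θ := by linarith
  have hkk : Tendsto (fun k : ℕ => (k : ℝ)) atTop atTop := tendsto_natCast_atTop_atTop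
  -- the proportions
  have hB : Tendsto (fun k : ℕ => B / (k : ℝ)) atTop (𝓝 0) := hkk.const_div_atTop B
  have hp : Tendsto (fun k : ℕ => (m k : ℝ) / k) atTop (𝓝 θ) := by
    have h2 : Tendsto (fun k : ℕ => (m k : ℝ) / k - θ) atTop (𝓝 0) := by
      apply squeeze_zero_norm' _ hB
      filter_upwards [hm, eventually_gt_atTop 0] with k hk hk0
      have hk' : (0 : ℝ) < k := by exact_mod_cast hk0
      rw [Real.norm_eq_abs]
      have : (m k : ℝ) / k - θ = ((m k : ℝ) - k * θ) / k := by field_simp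
      rw [this, abs_div, abs_of_pos hk']
      exact div_le_div_of_nonneg_right hk hk'.le
    have := h2.add_const θ
    simpa using this
  have hq : Tendsto (fun k : ℕ => 1 - (m k : ℝ) / k) atTop (𝓝 (1 - θ)) := hp.const_sub 1
  have hml : Tendsto (fun k : ℕ => (m k : ℝ)) atTop atTop := by
    have := hp.pos_mul_atTop h0 hkk
    refine this.congr' ?_
    filter_upwards [eventually_gt_atTop 0] with k hk0
    have hk' : (0 : ℝ) < k := by exact_mod_cast hk0
    field_simp
  have hll : Tendsto (fun k : ℕ => (k : ℝ) - m k) atTop atTop := by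
    have := hq.pos_mul_atTop h1' hkk
    refine this.congr' ?_
    filter_upwards [eventually_gt_atTop 0] with k hk0
    have hk' : (0 : ℝ) < k := by exact_mod_cast hk0
    field_simp
  have hm0 : Tendsto m atTop atTop := tendsto_natCast_atTop_iff.1 hml
  have hev : ∀ᶠ k in atTop, 0 < m k ∧ m k < k := by
    filter_upwards [hm0.eventually (eventually_gt_atTop 0), hll.eventually (eventually_gt_atTop 0)]
      with k a1 a2
    refine ⟨a1, ?_⟩
    have : (m k : ℝ) < k := by linarith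
    exact_mod_cast this
  have hl0 : Tendsto (fun k => k - m k) atTop atTop := by
    rw [← tendsto_natCast_atTop_iff (R := ℝ)]
    refine hll.congr' ?_
    filter_upwards [hev] with k hk
    rw [Nat.cast_sub hk.2.le]
  have hS := Stirling.tendsto_stirlingSeq_sqrt_pi
  have hpi : 0 < Real.sqrt Real.pi := Real.sqrt_pos.2 Real.pi_pos
  have l1 : Tendsto (fun k => Stirling.stirlingSeq k / (Stirling.stirlingSeq (m k) *
      Stirling.stirlingSeq (k - m k))) atTop (𝓝 (Real.sqrt Real.pi / (Real.sqrt Real.pi * Real.sqrt Real.pi))) :=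
    hS.div ((hS.comp hm0).mul (hS.comp hl0)) (by positivity)
  have l2 : Tendsto (fun k : ℕ => Real.sqrt (((k : ℝ) / m k) * ((k : ℝ) / (k - m k)) / 2)) atTop
      (𝓝 (Real.sqrt (θ⁻¹ * (1 - θ)⁻¹ / 2))) := by
    have h3 := ((hp.inv₀ h0.ne').mul (hq.inv₀ h1'.ne')).div_const 2
    refine (h3.sqrt).congr' ?_
    filter_upwards [hev] with k hk
    have hk' : (0 : ℝ) < k := by exact_mod_cast (by omega : 0 < k)
    have hm' : (0 : ℝ) < m k := by exact_mod_cast hk.1
    have hl' : (0 : ℝ) < (k : ℝ) - m k := by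
      have : (m k : ℝ) < k := by exact_mod_cast hk.2
      linarith
    congr 2
    rw [inv_div]
    congr 1
    rw [inv_eq_one_div, div_eq_div_iff (by
      have : 1 - (m k : ℝ) / k = ((k : ℝ) - m k) / k := by field_simp
      rw [this]; positivity) hl'.ne']
    field_simp
  have l3 : Tendsto (fun k : ℕ => Real.exp (-KL θ k (m k))) atTop (𝓝 1) := by
    have h4 : Tendsto (fun k : ℕ => KL θ k (m k)) atTop (𝓝 0) := by
      have h5 : Tendsto (fun k : ℕ => (B ^ 2 / (θ * (1 - θ))) / (k : ℝ)) atTop (𝓝 0) :=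
        hkk.const_div_atTop _
      apply squeeze_zero_norm' _ h5
      filter_upwards [hev, hm] with k hk hmk
      have hk' : (0 : ℝ) < k := by exact_mod_cast (by omega : 0 < k)
      rw [Real.norm_eq_abs, abs_of_nonneg (KL_nonneg h0 h1 hk.1 hk.2)]
      refine (KL_le h0 h1 hk.1 hk.2).trans ?_
      rw [div_div, mul_comm (k : ℝ) (θ * (1 - θ))]
      apply div_le_div_of_nonneg_right _ (by positivity)
      exact sq_le_sq' (by linarith [(abs_le.1 hmk).1]) (abs_le.1 hmk).2
    have := (Real.continuous_exp.tendsto _).comp h4.neg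
    rw [neg_zero, Real.exp_zero] at this
    exact this
  have l := l1.mul (l2.mul l3)
  have e : Real.sqrt Real.pi / (Real.sqrt Real.pi * Real.sqrt Real.pi) *
      (Real.sqrt (θ⁻¹ * (1 - θ)⁻¹ / 2) * 1) = (Real.sqrt (2 * Real.pi * (θ * (1 - θ))))⁻¹ := by
    have h6 : Real.sqrt (2 * Real.pi * (θ * (1 - θ))) =
        Real.sqrt Real.pi * Real.sqrt (2 * (θ * (1 - θ))) := by
      rw [← Real.sqrt_mul Real.pi_pos.le]; congr 1; ring
    have h7 : Real.sqrt (θ⁻¹ * (1 - θ)⁻¹ / 2) = (Real.sqrt (2 * (θ * (1 - θ))))⁻¹ := by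
      rw [← Real.sqrt_inv]; congr 1; field_simp
    rw [h6, h7]
    field_simp
  rw [e] at l
  refine l.congr' ?_
  filter_upwards [hev] with k hk
  exact (pb_eq h0 h1 hk.1 hk.2).symm

end Pool.Agent.H622.St
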