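import Mathlib

set_option autoImplicit false

/-! The sharp law of the stopping time, part 5: from the recursion to the asymptotics. -/

namespace Pool.Agent.H622.St

open Finset Filter Topology

/-- the hypotheses on the sequences -/
structure Rec (a d : ℕ → ℝ) (M : ℝ) : Prop where
  a0 : ∀ m, 0 ≤ a m
  d0 : ∀ k, 0 ≤ d k
  M0 : 0 < M
  aM : ∀ m : ℕ, Real.sqrt (m : ℝ) * a m ≤ M
  eqn : ∀ k : ℕ, (k : ℝ) * d k = ∑ j ∈ range k, d j * a (k - j)

variable {a d : ℕ → ℝ} {M : ℝ}

theorem Rec.a_le (h : Rec a d M) {m : ℕ} (hm : 0 < m) : a m ≤ M / Real.sqrt m := by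
  rw [le_div_iff₀ (Real.sqrt_pos.2 (by exact_mod_cast hm)), mul_comm]
  exact h.aM m

theorem sum_shift (g : ℕ → ℝ) (hg : ∀ m, 0 ≤ g m) (hs : Summable g) (j K : ℕ) :
    ∑ k ∈ Ioc j K, g (k - j) ≤ ∑' m, g m := by
  have h1 : ∑ k ∈ Ioc j K, g (k - j) = ∑ m ∈ (Ioc j K).image (fun k => k - j), g m := by
    rw [sum_image]
    intro x hx y hy hxy
    have hx' := mem_Ioc.1 (mem_coe.1 hx)
    have hy' := mem_Ioc.1 (mem_coe.1 hy)
    simp only at hxy
    omega
  rw [h1]
  exact hs.sum_le_tsum _ fun m _ => hg m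

theorem Rec.summable (h : Rec a d M) : Summable d := by
  -- the kernel
  set g : ℕ → ℝ := fun m => (m : ℝ) ^ (-(5 / 4) : ℝ) with hg
  have hgs : Summable g := Real.summable_nat_rpow.2 (by norm_num)
  have hg0 : ∀ m, 0 ≤ g m := fun m => by positivity
  set ζ := ∑' m, g m with hζ
  have hζ0 : 0 ≤ ζ := tsum_nonneg hg0
  -- the bound of the inner sums
  have key : ∀ j K : ℕ, ∑ k ∈ Ioc j K, a (k - j) / k ≤ M * ζ * ((max j 1 : ℕ) : ℝ) ^ (-(1 / 4) : ℝ) := by
    intro j K
    have h1 : ∀ k ∈ Ioc j K, a (k - j) / k ≤ M * ((max j 1 : ℕ) : ℝ) ^ (-(1 / 4) : ℝ) * g (k - j) := by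
      intro k hk
      rw [mem_Ioc] at hk
      have hm : 0 < k - j := by omega
      have hm' : (0 : ℝ) < ((k - j : ℕ) : ℝ) := by exact_mod_cast hm
      have hj' : (0 : ℝ) < ((max j 1 : ℕ) : ℝ) := by
        have : 0 < max j 1 := by omega
        exact_mod_cast this
      have hk' : (0 : ℝ) < k := by exact_mod_cast (by omega : 0 < k)
      have h2 := h.a_le hm
      have h3 : ((max j 1 : ℕ) : ℝ) ^ (1 / 4 : ℝ) * ((k - j : ℕ) : ℝ) ^ (3 / 4 : ℝ) ≤ k := by
        have e1 : ((max j 1 : ℕ) : ℝ) ≤ k := by exact_mod_cast (by omega : max j 1 ≤ k)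
        have e2 : ((k - j : ℕ) : ℝ) ≤ k := by exact_mod_cast (by omega : k - j ≤ k)
        calc ((max j 1 : ℕ) : ℝ) ^ (1 / 4 : ℝ) * ((k - j : ℕ) : ℝ) ^ (3 / 4 : ℝ)
            ≤ (k : ℝ) ^ (1 / 4 : ℝ) * (k : ℝ) ^ (3 / 4 : ℝ) := by
              apply mul_le_mul _ _ (by positivity) (by positivity)
              · exact Real.rpow_le_rpow hj'.le e1 (by norm_num)
              · exact Real.rpow_le_rpow hm'.le e2 (by norm_num)
          _ = k := by
              rw [← Real.rpow_add hk']; norm_num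
      rw [div_le_iff₀ hk']
      have h4 : M / Real.sqrt ((k - j : ℕ) : ℝ) = M * ((max j 1 : ℕ) : ℝ) ^ (-(1 / 4) : ℝ) * g (k - j) *
          (((max j 1 : ℕ) : ℝ) ^ (1 / 4 : ℝ) * ((k - j : ℕ) : ℝ) ^ (3 / 4 : ℝ)) := by
        have e3 : ((max j 1 : ℕ) : ℝ) ^ (-(1 / 4) : ℝ) * ((max j 1 : ℕ) : ℝ) ^ (1 / 4 : ℝ) = 1 := by
          rw [← Real.rpow_add hj']; norm_num
        have e4 : g (k - j) * ((k - j : ℕ) : ℝ) ^ (3 / 4 : ℝ) = (Real.sqrt ((k - j : ℕ) : ℝ))⁻¹ := by
          simp only [hg]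
          rw [← Real.rpow_add hm', Real.sqrt_eq_rpow, ← Real.rpow_neg hm'.le]
          norm_num
        calc M / Real.sqrt ((k - j : ℕ) : ℝ) = M * (((max j 1 : ℕ) : ℝ) ^ (-(1 / 4) : ℝ) *
              ((max j 1 : ℕ) : ℝ) ^ (1 / 4 : ℝ)) * (g (k - j) * ((k - j : ℕ) : ℝ) ^ (3 / 4 : ℝ)) := by
              rw [e3, e4, mul_one]; rfl
          _ = _ := by ring
      rw [h4] at h2
      refine h2.trans ?_
      exact mul_le_mul_of_nonneg_left h3 (by have := h.M0; have := hg0 (k - j); positivity)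
    refine (sum_le_sum h1).trans ?_
    rw [← mul_sum]
    have h5 := sum_shift g hg0 hgs j K
    calc _ ≤ M * ((max j 1 : ℕ) : ℝ) ^ (-(1 / 4) : ℝ) * ζ :=
          mul_le_mul_of_nonneg_left h5 (by have := h.M0; positivity)
      _ = _ := by ring
  -- the partial sums
  have hps : ∀ K : ℕ, ∑ k ∈ range (K + 1), d k ≤
      d 0 + ∑ j ∈ range (K + 1), d j * (M * ζ * ((max j 1 : ℕ) : ℝ) ^ (-(1 / 4) : ℝ)) := by
    intro K
    have h1 : ∀ k ∈ range (K + 1), d k ≤ (if k = 0 then d 0 else 0) +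
        ∑ j ∈ range k, d j * (a (k - j) / k) := by
      intro k _
      rcases Nat.eq_zero_or_pos k with rfl | hk
      · simp
      · have hk' : (0 : ℝ) < k := by exact_mod_cast hk
        rw [if_neg (by omega), zero_add]
        have h2 : d k = (∑ j ∈ range k, d j * a (k - j)) / k := by
          rw [← h.eqn]; field_simp
        rw [h2, sum_div]
        apply le_of_eq
        apply sum_congr rfl
        intro j _
        ring
    refine (sum_le_sum h1).trans ?_
    rw [sum_add_distrib]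
    apply add_le_add
    · rw [sum_ite_eq']
      simp
    · rw [sum_comm' (t' := range (K + 1)) (s' := fun j => Ioc j K)
        (h := by intro x y; simp only [mem_range, mem_Ioc]; omega)]
      apply sum_le_sum
      intro j _
      rw [← mul_sum]
      exact mul_le_mul_of_nonneg_left (key j K) (h.d0 j)
  -- choose `j0`
  have ht : Tendsto (fun j : ℕ => M * ζ * ((max j 1 : ℕ) : ℝ) ^ (-(1 / 4) : ℝ)) atTop (𝓝 (M * ζ * 0)) := by
    apply Tendsto.const_mul
    have h1 : Tendsto (fun j : ℕ => ((max j 1 : ℕ) : ℝ)) atTop atTop :=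
      tendsto_natCast_atTop_atTop.comp (tendsto_atTop_mono (fun j => le_max_left j 1) tendsto_id)
    exact (tendsto_rpow_neg_atTop (show (0 : ℝ) < 1 / 4 by norm_num)).comp h1
  rw [mul_zero] at ht
  obtain ⟨j0, hj0⟩ := eventually_atTop.1 (ht.eventually (gt_mem_nhds (show (0 : ℝ) < 1 / 2 by norm_num)))
  have hr1 : ∀ j : ℕ, M * ζ * ((max j 1 : ℕ) : ℝ) ^ (-(1 / 4) : ℝ) ≤ M * ζ := by
    intro j
    apply mul_le_of_le_one_right (by have := h.M0; positivity)
    apply Real.rpow_le_one_of_one_le_of_nonpos _ (by norm_num)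
    exact_mod_cast le_max_right j 1
  set S0 : ℝ := ∑ j ∈ range j0, d j with hS0
  apply summable_of_sum_range_le (c := 2 * (d 0 + S0 * (M * ζ))) h.d0
  intro n
  have h1 : ∑ k ∈ range n, d k ≤ ∑ k ∈ range (n + 1), d k :=
    sum_le_sum_of_subset_of_nonneg (range_subset_range.2 (by omega)) fun k _ _ => h.d0 k
  refine h1.trans ?_
  have h2 := hps n
  have h3 : ∑ j ∈ range (n + 1), d j * (M * ζ * ((max j 1 : ℕ) : ℝ) ^ (-(1 / 4) : ℝ)) ≤
      S0 * (M * ζ) + (∑ k ∈ range (n + 1), d k) * (1 / 2) := by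
    have h4 : ∀ j ∈ range (n + 1), d j * (M * ζ * ((max j 1 : ℕ) : ℝ) ^ (-(1 / 4) : ℝ)) ≤
        (if j < j0 then d j * (M * ζ) else 0) + d j * (1 / 2) := by
      intro j _
      have hd := h.d0 j
      by_cases hj : j < j0
      · rw [if_pos hj]
        have := mul_le_mul_of_nonneg_left (hr1 j) hd
        linarith
      · rw [if_neg hj, zero_add]
        exact mul_le_mul_of_nonneg_left (hj0 j (by omega)).le hd
    refine (sum_le_sum h4).trans ?_
    rw [sum_add_distrib, ← sum_mul]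
    apply add_le_add _ le_rfl
    rw [← sum_filter, hS0, sum_mul]
    apply sum_le_sum_of_subset_of_nonneg
    · intro j hj
      exact mem_range.2 (mem_filter.1 hj).2
    · intro j _ _
      have := h.M0
      have := h.d0 j
      positivity
  linarith

theorem sum_inv_sqrt (k : ℕ) : ∑ j ∈ range k, 1 / Real.sqrt ((k - j : ℕ) : ℝ) ≤ 2 * Real.sqrt k := by
  have h1 : ∑ j ∈ range k, 1 / Real.sqrt ((k - j : ℕ) : ℝ) =
      ∑ j ∈ range k, 1 / Real.sqrt ((j + 1 : ℕ) : ℝ) := by
    rw [← sum_range_reflect]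
    apply sum_congr rfl
    intro j hj
    rw [mem_range] at hj
    rw [show k - (k - 1 - j) = j + 1 by omega]
  rw [h1]
  induction k with
  | zero => simp
  | succ k ih =>
    rw [sum_range_succ]
    have h2 : ∑ j ∈ range k, 1 / Real.sqrt ((j + 1 : ℕ) : ℝ) ≤ 2 * Real.sqrt k := by
      apply ih
      rw [← sum_range_reflect]
      apply sum_congr rfl
      intro j hj
      rw [mem_range] at hj
      rw [show k - (k - 1 - j) = j + 1 by omega]
    have h3 : 1 / Real.sqrt ((k + 1 : ℕ) : ℝ) ≤ 2 * (Real.sqrt ((k + 1 : ℕ) : ℝ) - Real.sqrt k) := by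
      have hp : 0 < Real.sqrt ((k + 1 : ℕ) : ℝ) := Real.sqrt_pos.2 (by positivity)
      have hk : 0 ≤ Real.sqrt (k : ℝ) := Real.sqrt_nonneg _
      have e1 : Real.sqrt ((k + 1 : ℕ) : ℝ) * Real.sqrt ((k + 1 : ℕ) : ℝ) = k + 1 := by
        rw [Real.mul_self_sqrt (by positivity)]; push_cast; ring
      have e2 : Real.sqrt (k : ℝ) * Real.sqrt k = k := Real.mul_self_sqrt (Nat.cast_nonneg k)
      have e3 : Real.sqrt (k : ℝ) ≤ Real.sqrt ((k + 1 : ℕ) : ℝ) := Real.sqrt_le_sqrt (by push_cast; linarith)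
      rw [div_le_iff₀ hp]
      nlinarith [sq_nonneg (Real.sqrt ((k + 1 : ℕ) : ℝ) - Real.sqrt k)]
    linarith

/-- the terms `j > k / 2` -/
theorem Rec.far (h : Rec a d M) {B : ℝ} {k : ℕ} (hk : 0 < k) (hB0 : 0 ≤ B)
    (hB : ∀ j < k, j * Real.sqrt j * d j ≤ B) :
    ∑ j ∈ (range k).filter (fun j => k < 2 * j), d j * a (k - j) ≤ 6 * M * B / k := by
  have hk' : (0 : ℝ) < k := by exact_mod_cast hk
  have hM := h.M0
  have h1 : ∀ j ∈ (range k).filter (fun j => k < 2 * j), d j * a (k - j) ≤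
      (B / (k / 2 * Real.sqrt (k / 2))) * M * (1 / Real.sqrt ((k - j : ℕ) : ℝ)) := by
    intro j hj
    rw [mem_filter, mem_range] at hj
    have hj2 : (k : ℝ) / 2 ≤ j := by
      have : (k : ℝ) ≤ 2 * j := by exact_mod_cast hj.2.le
      linarith
    have hj' : (0 : ℝ) < j := by linarith
    have h2 : d j ≤ B / (k / 2 * Real.sqrt (k / 2)) := by
      rw [le_div_iff₀ (by positivity)]
      refine le_trans ?_ (hB j hj.1)
      rw [mul_comm]
      apply mul_le_mul_of_nonneg_right _ (h.d0 j)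
      exact mul_le_mul hj2 (Real.sqrt_le_sqrt hj2) (Real.sqrt_nonneg _) hj'.le
    have h3 := h.a_le (show 0 < k - j by omega)
    rw [div_eq_mul_one_div] at h3
    calc d j * a (k - j) ≤ (B / (k / 2 * Real.sqrt (k / 2))) * (M * (1 / Real.sqrt ((k - j : ℕ) : ℝ))) :=
          mul_le_mul h2 h3 (h.a0 _) (by positivity)
      _ = _ := by ring
  refine (sum_le_sum h1).trans ?_
  rw [← mul_sum]
  have h4 : ∑ j ∈ (range k).filter (fun j => k < 2 * j), 1 / Real.sqrt ((k - j : ℕ) : ℝ) ≤
      2 * Real.sqrt k := by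
    refine le_trans ?_ (sum_inv_sqrt k)
    apply sum_le_sum_of_subset_of_nonneg (filter_subset _ _)
    intro j _ _
    positivity
  have h5 := mul_le_mul_of_nonneg_left h4
    (show 0 ≤ (B / (k / 2 * Real.sqrt (k / 2))) * M by positivity)
  refine h5.trans ?_
  have h6 : Real.sqrt (k / 2) = Real.sqrt k / Real.sqrt 2 := Real.sqrt_div hk'.le 2
  have h7 : Real.sqrt 2 ≤ 3 / 2 := by
    rw [Real.sqrt_le_left (by norm_num)]; norm_num
  have h8 : 0 < Real.sqrt (k : ℝ) := Real.sqrt_pos.2 hk'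
  have h9 : 0 < Real.sqrt 2 := by positivity
  rw [h6]
  have e : B / (k / 2 * (Real.sqrt k / Real.sqrt 2)) * M * (2 * Real.sqrt k) =
      (4 * Real.sqrt 2) * (M * B) / k := by
    field_simp
    ring
  rw [e]
  apply div_le_div_of_nonneg_right _ hk'.le
  have : 4 * Real.sqrt 2 ≤ 6 := by linarith
  have := mul_le_mul_of_nonneg_right this (show 0 ≤ M * B by positivity)
  linarith

/-- the terms `j ≤ k / 2` -/
theorem Rec.near (h : Rec a d M) {k : ℕ} (hk : 0 < k) {j : ℕ} (hj : 2 * j ≤ k) :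
    Real.sqrt k * a (k - j) ≤ 3 / 2 * M := by
  have hk' : (0 : ℝ) < k := by exact_mod_cast hk
  have hkj : 0 < k - j := by omega
  have hkj' : (0 : ℝ) < ((k - j : ℕ) : ℝ) := by exact_mod_cast hkj
  have h1 := h.aM (k - j)
  have h2 : Real.sqrt k ≤ 3 / 2 * Real.sqrt ((k - j : ℕ) : ℝ) := by
    have h3 : (k : ℝ) ≤ (3 / 2 * Real.sqrt ((k - j : ℕ) : ℝ)) ^ 2 := by
      rw [mul_pow, Real.sq_sqrt hkj'.le, Nat.cast_sub (by omega)]
      have : (2 : ℝ) * j ≤ k := by exact_mod_cast hj
      linarith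
    calc Real.sqrt k ≤ Real.sqrt ((3 / 2 * Real.sqrt ((k - j : ℕ) : ℝ)) ^ 2) := Real.sqrt_le_sqrt h3
      _ = _ := Real.sqrt_sq (by positivity)
  have h4 := mul_le_mul_of_nonneg_right h2 (h.a0 (k - j))
  linarith

theorem Rec.split (h : Rec a d M) (k : ℕ) : (k : ℝ) * Real.sqrt k * d k =
    ∑ j ∈ (range k).filter (fun j => ¬ k < 2 * j), d j * (Real.sqrt k * a (k - j)) +
    Real.sqrt k * ∑ j ∈ (range k).filter (fun j => k < 2 * j), d j * a (k - j) := by
  have h1 : (k : ℝ) * Real.sqrt k * d k = Real.sqrt k * ∑ j ∈ range k, d j * a (k - j) := by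
    rw [← h.eqn]; ring
  rw [h1, ← sum_filter_add_sum_filter_not (range k) (fun j => k < 2 * j), mul_add, add_comm]
  congr 1
  rw [mul_sum]
  apply sum_congr rfl
  intro j _
  ring

theorem Rec.bound (h : Rec a d M) : ∃ B : ℝ, 0 ≤ B ∧ ∀ k : ℕ, k * Real.sqrt k * d k ≤ B := by
  have hM := h.M0
  have hs := h.summable
  set S := ∑' k, d k with hS
  have hS0 : 0 ≤ S := tsum_nonneg h.d0
  obtain ⟨k0, hk0⟩ := exists_nat_gt ((12 * M) ^ 2)
  set B0 : ℝ := ∑ k ∈ range k0, k * Real.sqrt k * d k with hB0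
  have hB0n : ∀ k : ℕ, 0 ≤ k * Real.sqrt k * d k := fun k => by have := h.d0 k; positivity
  have hB00 : 0 ≤ B0 := sum_nonneg fun k _ => hB0n k
  set B : ℝ := 3 * M * S + B0 with hB
  have hBn : 0 ≤ B := by positivity
  refine ⟨B, hBn, ?_⟩
  intro k
  induction k using Nat.strong_induction_on with
  | _ k ih =>
    rcases Nat.lt_or_ge k k0 with hk | hk
    · have h1 : k * Real.sqrt k * d k ≤ B0 :=
        single_le_sum (f := fun k : ℕ => (k : ℝ) * Real.sqrt k * d k) (fun k _ => hB0n k) (mem_range.2 hk)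
      have : 0 ≤ 3 * M * S := by positivity
      linarith
    · have hkr : (12 * M) ^ 2 ≤ k := by
        have : (k0 : ℝ) ≤ k := by exact_mod_cast hk
        linarith
      have hk' : (0 : ℝ) < k := lt_of_lt_of_le (by positivity) hkr
      have hk1 : 0 < k := by exact_mod_cast hk'
      have hsk : 12 * M ≤ Real.sqrt k := Real.le_sqrt_of_sq_le hkr
      have hsk0 : 0 < Real.sqrt k := Real.sqrt_pos.2 hk'
      rw [h.split]
      have h1 : ∑ j ∈ (range k).filter (fun j => ¬ k < 2 * j), d j * (Real.sqrt k * a (k - j)) ≤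
          3 / 2 * M * S := by
        have h2 : ∀ j ∈ (range k).filter (fun j => ¬ k < 2 * j), d j * (Real.sqrt k * a (k - j)) ≤
            d j * (3 / 2 * M) := by
          intro j hj
          rw [mem_filter] at hj
          exact mul_le_mul_of_nonneg_left (h.near hk1 (by omega)) (h.d0 j)
        refine (sum_le_sum h2).trans ?_
        rw [← sum_mul]
        have h3 := hs.sum_le_tsum ((range k).filter (fun j => ¬ k < 2 * j)) fun j _ => h.d0 j
        have := mul_le_mul_of_nonneg_right h3 (show 0 ≤ 3 / 2 * M by positivity)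
        linarith
      have h2 := h.far hk1 hBn ih
      have h3 : Real.sqrt k * ∑ j ∈ (range k).filter (fun j => k < 2 * j), d j * a (k - j) ≤ B / 2 := by
        refine (mul_le_mul_of_nonneg_left h2 hsk0.le).trans ?_
        have e : Real.sqrt k * (6 * M * B / k) = 6 * M * B / Real.sqrt k := by
          have h5 : Real.sqrt k / k = 1 / Real.sqrt k := Real.sqrt_div_self'
          calc Real.sqrt k * (6 * M * B / k) = 6 * M * B * (Real.sqrt k / k) := by ring
            _ = _ := by rw [h5]; ring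
        rw [e, div_le_iff₀ hsk0]
        have := mul_le_mul_of_nonneg_left hsk (show 0 ≤ B / 2 by positivity)
        linarith
      have : 0 ≤ B0 := hB00
      have h4 : 3 / 2 * M * S ≤ B / 2 := by rw [hB]; linarith
      linarith

/-- THE LIMIT -/
theorem Rec.limit (h : Rec a d M) {c : ℝ} (hc : 0 ≤ c) (w : ℤ → ℝ) (hw : ∀ z, |w z| ≤ 1)
    (ha : Tendsto (fun m : ℕ => Real.sqrt m * a m - c * w m) atTop (𝓝 0)) :
    Tendsto (fun k : ℕ => (k : ℝ) * Real.sqrt k * d k - c * ∑' j : ℕ, d j * w ((k : ℤ) - j)) atTop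
      (𝓝 0) := by
  have hM := h.M0
  have hs := h.summable
  obtain ⟨B, hB0, hB⟩ := h.bound
  set S := ∑' k, d k with hS
  have hsw : ∀ k : ℕ, Summable fun j : ℕ => d j * w ((k : ℤ) - j) := by
    intro k
    apply Summable.of_norm_bounded hs
    intro j
    rw [norm_mul, Real.norm_eq_abs, Real.norm_eq_abs, abs_of_nonneg (h.d0 j)]
    exact mul_le_of_le_one_right (h.d0 j) (hw _)
  -- the main part
  set f : ℕ → ℕ → ℝ := fun k j => if ¬ k < 2 * j ∧ j < k then
    d j * (Real.sqrt k * a (k - j) - c * w ((k : ℤ) - j)) else 0 with hf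
  have hfl : ∀ j : ℕ, Tendsto (fun k => f k j) atTop (𝓝 0) := by
    intro j
    have h1 : Tendsto (fun k : ℕ => Real.sqrt (k : ℝ) * a (k - j) - c * w ((k : ℤ) - j)) atTop (𝓝 0) := by
      have h2 : Tendsto (fun k : ℕ => k - j) atTop atTop := tendsto_sub_atTop_nat j
      have h3 := ha.comp h2
      -- the difference
      have h4 : Tendsto (fun k : ℕ => (Real.sqrt (k : ℝ) - Real.sqrt ((k - j : ℕ) : ℝ)) * a (k - j))
          atTop (𝓝 0) := by
        have h5 : Tendsto (fun k : ℕ => (j : ℝ) * M / ((k - j : ℕ) : ℝ)) atTop (𝓝 0) :=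
          (tendsto_natCast_atTop_atTop.comp h2).const_div_atTop _
        apply squeeze_zero_norm' _ h5
        filter_upwards [eventually_gt_atTop j] with k hk
        have hkj : 0 < k - j := by omega
        have hkj' : (0 : ℝ) < ((k - j : ℕ) : ℝ) := by exact_mod_cast hkj
        have hp : 0 < Real.sqrt ((k - j : ℕ) : ℝ) := Real.sqrt_pos.2 hkj'
        have e0 : (k : ℝ) = ((k - j : ℕ) : ℝ) + j := by rw [Nat.cast_sub hk.le]; ring
        have e1 : Real.sqrt ((k - j : ℕ) : ℝ) ≤ Real.sqrt (k : ℝ) := by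
          apply Real.sqrt_le_sqrt
          rw [e0]
          have : (0 : ℝ) ≤ j := Nat.cast_nonneg j
          linarith
        have e2 : Real.sqrt (k : ℝ) - Real.sqrt ((k - j : ℕ) : ℝ) ≤ j / Real.sqrt ((k - j : ℕ) : ℝ) := by
          rw [le_div_iff₀ hp]
          have e3 : Real.sqrt (k : ℝ) * Real.sqrt k = k := Real.mul_self_sqrt (Nat.cast_nonneg k)
          have e4 : Real.sqrt ((k - j : ℕ) : ℝ) * Real.sqrt ((k - j : ℕ) : ℝ) = ((k - j : ℕ) : ℝ) :=
            Real.mul_self_sqrt hkj'.le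
          have e5 : (Real.sqrt (k : ℝ) - Real.sqrt ((k - j : ℕ) : ℝ)) *
              (Real.sqrt (k : ℝ) + Real.sqrt ((k - j : ℕ) : ℝ)) = j := by
            rw [e0] at e3 ⊢
            nlinarith
          nlinarith
        have e6 := h.a_le hkj
        rw [Real.norm_eq_abs, abs_of_nonneg (mul_nonneg (by linarith) (h.a0 _))]
        calc (Real.sqrt (k : ℝ) - Real.sqrt ((k - j : ℕ) : ℝ)) * a (k - j)
            ≤ (j / Real.sqrt ((k - j : ℕ) : ℝ)) * (M / Real.sqrt ((k - j : ℕ) : ℝ)) :=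
              mul_le_mul e2 e6 (h.a0 _) (by positivity)
          _ = j * M / ((k - j : ℕ) : ℝ) := by
              rw [div_mul_div_comm, Real.mul_self_sqrt hkj'.le]
      have h6 := h3.add h4
      rw [add_zero] at h6
      refine h6.congr' ?_
      filter_upwards [eventually_gt_atTop j] with k hk
      simp only [Function.comp]
      have e7 : (((k - j : ℕ)) : ℤ) = (k : ℤ) - j := by omega
      rw [e7]
      ring
    have h2 := h1.const_mul (d j)
    rw [mul_zero] at h2
    refine h2.congr' ?_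
    filter_upwards [eventually_gt_atTop (2 * j)] with k hk
    simp only [hf]
    rw [if_pos (by omega)]
  have hdom := tendsto_tsum_of_dominated_convergence (𝓕 := atTop) (f := f) (g := fun _ => (0 : ℝ))
    (bound := fun j => d j * (3 / 2 * M + c)) (hs.mul_right _) hfl
    (Eventually.of_forall fun k j => by
      simp only [hf]
      have hd := h.d0 j
      split_ifs with hkj
      · rw [norm_mul, Real.norm_eq_abs, Real.norm_eq_abs, abs_of_nonneg hd]
        apply mul_le_mul_of_nonneg_left _ hd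
        have h1 := h.near (show 0 < k by omega) (show 2 * j ≤ k by omega)
        have h2 : 0 ≤ Real.sqrt k * a (k - j) := mul_nonneg (Real.sqrt_nonneg _) (h.a0 _)
        refine (abs_sub _ _).trans ?_
        rw [abs_of_nonneg h2, abs_mul, abs_of_nonneg hc]
        have := mul_le_mul_of_nonneg_left (hw ((k : ℤ) - j)) hc
        linarith
      · rw [norm_zero]; positivity)
  rw [tsum_zero] at hdom
  -- the tail
  have htail : Tendsto (fun k : ℕ => c * ∑' j : ℕ, (if ¬ k < 2 * j ∧ j < k then 0 else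
      d j * w ((k : ℤ) - j))) atTop (𝓝 0) := by
    have h1 := tendsto_tsum_of_dominated_convergence (𝓕 := atTop)
      (f := fun (k : ℕ) (j : ℕ) => if ¬ k < 2 * j ∧ j < k then (0 : ℝ) else d j * w ((k : ℤ) - j))
      (g := fun _ => (0 : ℝ)) (bound := d) hs
      (fun j => by
        apply tendsto_const_nhds.congr'
        filter_upwards [eventually_gt_atTop (2 * j)] with k hk
        rw [if_pos (by omega)])
      (Eventually.of_forall fun k j => by
        have hd := h.d0 j
        split_ifs with hkj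
        · rw [norm_zero]; exact hd
        · rw [norm_mul, Real.norm_eq_abs, Real.norm_eq_abs, abs_of_nonneg hd]
          exact mul_le_of_le_one_right hd (hw _))
    rw [tsum_zero] at h1
    have := h1.const_mul c
    rwa [mul_zero] at this
  -- the far part
  have hfar : Tendsto (fun k : ℕ => Real.sqrt k * ∑ j ∈ (range k).filter (fun j => k < 2 * j),
      d j * a (k - j)) atTop (𝓝 0) := by
    have h1 : Tendsto (fun k : ℕ => 6 * M * B / Real.sqrt (k : ℝ)) atTop (𝓝 0) :=
      (Real.tendsto_sqrt_atTop.comp tendsto_natCast_atTop_atTop).const_div_atTop _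
    apply squeeze_zero_norm' _ h1
    filter_upwards [eventually_gt_atTop 0] with k hk
    have hk' : (0 : ℝ) < k := by exact_mod_cast hk
    have hn : 0 ≤ ∑ j ∈ (range k).filter (fun j => k < 2 * j), d j * a (k - j) :=
      sum_nonneg fun j _ => mul_nonneg (h.d0 j) (h.a0 _)
    rw [Real.norm_eq_abs, abs_of_nonneg (by positivity)]
    have h2 := h.far hk hB0 fun j _ => hB j
    refine (mul_le_mul_of_nonneg_left h2 (Real.sqrt_nonneg _)).trans (le_of_eq ?_)
    have h5 : Real.sqrt k / k = 1 / Real.sqrt k := Real.sqrt_div_self'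
    calc Real.sqrt k * (6 * M * B / k) = 6 * M * B * (Real.sqrt k / k) := by ring
      _ = _ := by rw [h5]; ring
  have hall := (hdom.add hfar).sub htail
  rw [add_zero, sub_zero] at hall
  refine hall.congr fun k => ?_
  rw [h.split]
  -- compare
  have hfs : ∑' j, f k j = ∑ j ∈ (range k).filter (fun j => ¬ k < 2 * j),
      d j * (Real.sqrt k * a (k - j) - c * w ((k : ℤ) - j)) := by
    rw [tsum_eq_sum (s := (range k).filter (fun j => ¬ k < 2 * j))]
    · apply sum_congr rfl
      intro j hj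
      rw [mem_filter, mem_range] at hj
      simp only [hf]
      rw [if_pos ⟨hj.2, hj.1⟩]
    · intro j hj
      rw [mem_filter, mem_range] at hj
      simp only [hf]
      rw [if_neg (fun h => hj ⟨h.2, h.1⟩)]
  have hws : ∑' j : ℕ, d j * w ((k : ℤ) - j) = ∑ j ∈ (range k).filter (fun j => ¬ k < 2 * j),
      d j * w ((k : ℤ) - j) + ∑' j : ℕ, (if ¬ k < 2 * j ∧ j < k then 0 else d j * w ((k : ℤ) - j)) := by
    have h1 : ∑ j ∈ (range k).filter (fun j => ¬ k < 2 * j), d j * w ((k : ℤ) - j) =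
        ∑' j : ℕ, (if ¬ k < 2 * j ∧ j < k then d j * w ((k : ℤ) - j) else 0) := by
      rw [tsum_eq_sum (s := (range k).filter (fun j => ¬ k < 2 * j))]
      · apply sum_congr rfl
        intro j hj
        rw [mem_filter, mem_range] at hj
        rw [if_pos ⟨hj.2, hj.1⟩]
      · intro j hj
        rw [mem_filter, mem_range] at hj
        rw [if_neg (fun h => hj ⟨h.2, h.1⟩)]
    have hsum1 : Summable fun j : ℕ => (if ¬ k < 2 * j ∧ j < k then d j * w ((k : ℤ) - j) else 0) := by
      apply Summable.of_norm_bounded (hsw k).norm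
      intro j
      split_ifs
      · exact le_rfl
      · rw [norm_zero]; exact norm_nonneg _
    have hsum2 : Summable fun j : ℕ => (if ¬ k < 2 * j ∧ j < k then 0 else d j * w ((k : ℤ) - j)) := by
      apply Summable.of_norm_bounded (hsw k).norm
      intro j
      split_ifs
      · rw [norm_zero]; exact norm_nonneg _
      · exact le_rfl
    rw [h1, ← hsum1.tsum_add hsum2]
    apply tsum_congr
    intro j
    split_ifs <;> ring
  rw [hfs, hws]
  have h9 : ∑ j ∈ (range k).filter (fun j => ¬ k < 2 * j),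
      d j * (Real.sqrt k * a (k - j) - c * w ((k : ℤ) - j)) =
      ∑ j ∈ (range k).filter (fun j => ¬ k < 2 * j), d j * (Real.sqrt k * a (k - j)) -
      c * ∑ j ∈ (range k).filter (fun j => ¬ k < 2 * j), d j * w ((k : ℤ) - j) := by
    rw [mul_sum, ← sum_sub_distrib]
    apply sum_congr rfl
    intro j _
    ring
  rw [h9]
  ring

end Pool.Agent.H622.St
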