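import Mathlib
import Pool.Agent.H622.Gs1
import Pool.Agent.H622.St3
import Pool.Agent.H622.St5

set_option autoImplicit false

/-! Words above a line of irrational slope, part 2: the weighted sums. -/

namespace Pool.Agent.H622.Gs

open Finset Filter Topology
open scoped Classical
open Pool.Agent.H622.St (pb pb_nonneg local_limit Rec sum_inv_sqrt)

variable {θ : ℝ}

theorem Dp_succ (k o : ℕ) : (Dp θ (k + 1)).coeff o =
    if ((k + 1 : ℕ) : ℝ) * θ < o then (Dp θ k).coeff o + (if o = 0 then 0 else (Dp θ k).coeff (o - 1))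
    else 0 := by
  rw [Dp, coeff_cut]
  split_ifs with h1 h2
  · subst h2; simp
  · obtain ⟨p, rfl⟩ : ∃ p, o = p + 1 := ⟨o - 1, by omega⟩
    rw [add_mul, one_mul, Polynomial.coeff_add, Polynomial.coeff_X_mul, Nat.add_sub_cancel]
  · rfl

theorem Ep_succ (k o : ℕ) : (Ep θ (k + 1)).coeff o =
    if (o : ℝ) < ((k + 1 : ℕ) : ℝ) * θ then (Ep θ k).coeff o + (if o = 0 then 0 else (Ep θ k).coeff (o - 1))
    else 0 := by
  rw [Ep, coeff_cut]
  split_ifs with h1 h2
  · subst h2; simp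
  · obtain ⟨p, rfl⟩ : ∃ p, o = p + 1 := ⟨o - 1, by omega⟩
    rw [add_mul, one_mul, Polynomial.coeff_add, Polynomial.coeff_X_mul, Nat.add_sub_cancel]
  · rfl

theorem Dp_nonneg (k : ℕ) : ∀ o, 0 ≤ (Dp θ k).coeff o := by
  induction k with
  | zero =>
    intro o
    rw [Dp, Polynomial.coeff_one]
    split_ifs <;> norm_num
  | succ k ih =>
    intro o
    rw [Dp_succ]
    have h1 := ih o
    have h2 := ih (o - 1)
    split_ifs <;> linarith

theorem Dp_zero {k : ℕ} : ∀ {o : ℕ}, k < o → (Dp θ k).coeff o = 0 := by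
  induction k with
  | zero =>
    intro o h
    rw [Dp, Polynomial.coeff_one, if_neg (by omega)]
  | succ k ih =>
    intro o h
    rw [Dp_succ, ih (show k < o by omega), if_neg (show ¬ o = 0 by omega), ih (show k < o - 1 by omega)]
    simp

theorem Dp_low {k o : ℕ} (hk : 0 < k) (h : ¬ (k : ℝ) * θ < o) : (Dp θ k).coeff o = 0 := by
  obtain ⟨j, rfl⟩ : ∃ j, k = j + 1 := ⟨k - 1, by omega⟩
  rw [Dp_succ, if_neg h]

/-- the words below the line are the words above the line of the complementary slope -/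
theorem Ep_eq (k : ℕ) : ∀ o : ℕ, (Ep θ k).coeff o = if o ≤ k then (Dp (1 - θ) k).coeff (k - o) else 0 := by
  induction k with
  | zero =>
    intro o
    rw [Ep, Dp, Polynomial.coeff_one, Polynomial.coeff_one]
    rcases Nat.eq_zero_or_pos o with h | h
    · subst h; simp
    · rw [if_neg (by omega), if_neg (by omega)]
  | succ k ih =>
    intro o
    rw [Ep_succ]
    rcases Nat.lt_or_ge (k + 1) o with h | h
    · rw [if_neg (show ¬ o ≤ k + 1 by omega), ih o, if_neg (show ¬ o ≤ k by omega), ih (o - 1),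
        if_neg (show ¬ o - 1 ≤ k by omega)]
      simp
    · rw [if_pos h, Dp_succ]
      have h1 : (((k + 1 : ℕ) : ℝ) * (1 - θ) < ((k + 1 - o : ℕ) : ℝ)) ↔ (o : ℝ) < ((k + 1 : ℕ) : ℝ) * θ := by
        rw [Nat.cast_sub h]
        constructor <;> intro h <;> linarith
      simp only [h1]
      split_ifs with h2 h3 h4 h5
      · exfalso; omega
      · subst h3
        rw [ih 0, if_pos (by omega), add_zero]
        rw [Dp_zero (show k < k + 1 - 0 by omega), zero_add]
        congr 1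
      · have ho : o = k + 1 := by omega
        subst ho
        rw [ih (k + 1), if_neg (by omega), ih (k + 1 - 1), if_pos (by omega)]
        simp
      · rw [ih o, if_pos (by omega), ih (o - 1), if_pos (by omega)]
        rw [show k - (o - 1) = k + 1 - o by omega, show k - o = k + 1 - o - 1 by omega]
        ring
      · rfl

/-- the two-variable recursion -/
theorem exact2 (hθ : Sl θ) (k o : ℕ) : (k : ℤ) * (Dp θ k).coeff o = ∑ j ∈ range k, ∑ p ∈ antidiagonal o,
    (Dp θ j).coeff p.1 * (if ((k - j : ℕ) : ℝ) * θ < p.2 then ((k - j).choose p.2 : ℤ) else 0) := by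
  have h1 : PowerSeries.coeff k (D θ * Y θ) = (k : R) * PowerSeries.coeff k (D θ) := by
    rw [mul_comm, Y_mul hθ, coeff_dd]
  have hY0 : PowerSeries.coeff 0 (Y θ) = 0 := by
    unfold Y
    rw [PowerSeries.coeff_zero_eq_constantCoeff_apply, map_mul,
      ← PowerSeries.coeff_zero_eq_constantCoeff_apply, coeff_dd]
    simp
  have h2 := congrArg (fun p => Polynomial.coeff p o) h1
  rw [PowerSeries.coeff_mul, Polynomial.finsetSum_coeff,
    Finset.Nat.sum_antidiagonal_eq_sum_range_succ_mk, sum_range_succ, Nat.sub_self, hY0,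
    mul_zero, Polynomial.coeff_zero, add_zero, ← Polynomial.C_eq_natCast, Polynomial.coeff_C_mul] at h2
  unfold D at h2
  rw [PowerSeries.coeff_mk] at h2
  rw [show ((k : ℤ)) * (Dp θ k).coeff o = _ from h2.symm]
  apply sum_congr rfl
  intro j hj
  rw [mem_range] at hj
  rw [PowerSeries.coeff_mk, Polynomial.coeff_mul]
  apply sum_congr rfl
  rintro p _
  rw [Y_coeff hθ _ _ (by omega)]

variable (θ)

/-- the probability, in the critical walk, of the words above the line with `o` ones -/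
noncomputable def b (k o : ℕ) : ℝ := ((Dp θ k).coeff o : ℝ) * (θ ^ o * (1 - θ) ^ (k - o))

variable {θ}

theorem b_nonneg (hθ : Sl θ) (k o : ℕ) : 0 ≤ b θ k o := by
  unfold b
  have h0 := hθ.pos
  have h1 : 0 < 1 - θ := by linarith [hθ.lt]
  have h2 : (0 : ℝ) ≤ ((Dp θ k).coeff o : ℝ) := by exact_mod_cast Dp_nonneg k o
  positivity

theorem b_zero {k o : ℕ} (h : k < o) : b θ k o = 0 := by
  unfold b; rw [Dp_zero h]; simp

theorem b_low {k o : ℕ} (hk : 0 < k) (h : ¬ (k : ℝ) * θ < o) : b θ k o = 0 := by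
  unfold b; rw [Dp_low hk h]; simp

theorem b_rec (hθ : Sl θ) (k o : ℕ) : k * b θ k o = ∑ j ∈ range k, ∑ p ∈ antidiagonal o,
    b θ j p.1 * (if ((k - j : ℕ) : ℝ) * θ < p.2 then pb θ (k - j) p.2 else 0) := by
  have h := exact2 hθ k o
  have h2 : (((k : ℤ) * (Dp θ k).coeff o : ℤ) : ℝ) = ((∑ j ∈ range k, ∑ p ∈ antidiagonal o,
    (Dp θ j).coeff p.1 * (if ((k - j : ℕ) : ℝ) * θ < p.2 then ((k - j).choose p.2 : ℤ) else 0) : ℤ) : ℝ) := by
    rw [h]
  push_cast at h2
  unfold b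
  rw [← mul_assoc, h2, sum_mul]
  apply sum_congr rfl
  intro j hj
  rw [mem_range] at hj
  rw [sum_mul]
  apply sum_congr rfl
  rintro ⟨p1, p2⟩ hp
  rw [HasAntidiagonal.mem_antidiagonal] at hp
  simp only at hp ⊢
  split_ifs with hlt
  · rcases Nat.lt_or_ge j p1 with h3 | h3
    · rw [Dp_zero h3]; simp
    · rcases Nat.lt_or_ge (k - j) p2 with h4 | h4
      · unfold pb
        rw [Nat.choose_eq_zero_of_lt h4]; simp
      · unfold pb
        have e1 : k - o = (j - p1) + (k - j - p2) := by omega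
        rw [e1, ← hp, pow_add, pow_add]
        ring
  · simp

theorem pb_eq_zero {m o : ℕ} (h : m < o) : pb θ m o = 0 := by
  unfold pb
  rw [Nat.choose_eq_zero_of_lt h]; simp

/-- the binomial probabilities decrease beyond the mean -/
theorem pb_anti (hθ : Sl θ) {m o : ℕ} (h : (m : ℝ) * θ ≤ o) : pb θ m (o + 1) ≤ pb θ m o := by
  have h1 := hθ.pos
  have h2 : 0 < 1 - θ := by linarith [hθ.lt]
  rcases Nat.lt_or_ge o m with ho | ho
  swap
  · rw [pb_eq_zero (show m < o + 1 by omega)]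
    exact pb_nonneg hθ.pos hθ.lt _ _
  · unfold pb
    have e1 : (m.choose (o + 1) : ℝ) * (o + 1) = m.choose o * ((m : ℝ) - o) := by
      have := Nat.choose_succ_right_eq m o
      have h3 : ((m.choose (o + 1) * (o + 1) : ℕ) : ℝ) = ((m.choose o * (m - o) : ℕ) : ℝ) := by
        rw [this]
      rw [Nat.cast_mul, Nat.cast_mul, Nat.cast_sub ho.le] at h3
      push_cast at h3
      exact h3
    have e2 : (1 - θ) ^ (m - o) = (1 - θ) ^ (m - (o + 1)) * (1 - θ) := by
      rw [← pow_succ]; congr 1; omega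
    rw [e2, pow_succ]
    have h3 : (m.choose (o + 1) : ℝ) * θ ≤ m.choose o * (1 - θ) := by
      have ho1 : (0 : ℝ) < (o : ℝ) + 1 := by positivity
      have h4 : ((m.choose (o + 1) : ℝ) * θ) * (o + 1) ≤ (m.choose o * (1 - θ)) * (o + 1) := by
        have h5 : ((m.choose (o + 1) : ℝ) * θ) * (o + 1) = m.choose o * (((m : ℝ) - o) * θ) := by
          rw [mul_right_comm, e1]; ring
        rw [h5, mul_assoc]
        apply mul_le_mul_of_nonneg_left _ (Nat.cast_nonneg _)
        nlinarith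
      exact le_of_mul_le_mul_right h4 ho1
    have h6 : 0 ≤ θ ^ o * (1 - θ) ^ (m - (o + 1)) := by positivity
    have h7 := mul_le_mul_of_nonneg_right h3 h6
    calc (m.choose (o + 1) : ℝ) * (θ ^ o * θ * (1 - θ) ^ (m - (o + 1)))
        = (m.choose (o + 1) : ℝ) * θ * (θ ^ o * (1 - θ) ^ (m - (o + 1))) := by ring
      _ ≤ _ := h7
      _ = _ := by ring

theorem pb_le (hθ : Sl θ) {m o : ℕ} (h : (m : ℝ) * θ ≤ o) (i : ℕ) : pb θ m (o + i) ≤ pb θ m o := by
  induction i with
  | zero => simp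
  | succ i ih =>
    refine le_trans ?_ ih
    have : (m : ℝ) * θ ≤ ((o + i : ℕ) : ℝ) := by push_cast; linarith [Nat.cast_nonneg (α := ℝ) i]
    exact pb_anti hθ this

/-- the weighted sums -/
noncomputable def dsw (θ s : ℝ) (k : ℕ) : ℝ := ∑ o ∈ range (k + 1), b θ k o * s ^ ((o : ℝ) - k * θ)

noncomputable def auw (θ s : ℝ) (m : ℕ) : ℝ :=
  ∑ o ∈ range (m + 1), (if (m : ℝ) * θ < o then pb θ m o else 0) * s ^ ((o : ℝ) - m * θ)

theorem dsw_nonneg (hθ : Sl θ) {s : ℝ} (hs : 0 < s) (k : ℕ) : 0 ≤ dsw θ s k := by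
  unfold dsw
  apply sum_nonneg
  intro o _
  have := b_nonneg hθ k o
  positivity

theorem auw_nonneg (hθ : Sl θ) {s : ℝ} (hs : 0 < s) (k : ℕ) : 0 ≤ auw θ s k := by
  unfold auw
  apply sum_nonneg
  intro o _
  have := pb_nonneg hθ.pos hθ.lt k o
  split_ifs <;> positivity

theorem rec_w (hθ : Sl θ) {s : ℝ} (hs : 0 < s) (k : ℕ) : (k : ℝ) * dsw θ s k = ∑ j ∈ range k, dsw θ s j * auw θ s (k - j) := by
  have h1 : ∀ o : ℕ, (k : ℝ) * (b θ k o * s ^ ((o : ℝ) - k * θ)) = ∑ j ∈ range k, ∑ p ∈ antidiagonal o,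
      (b θ j p.1 * s ^ ((p.1 : ℝ) - j * θ)) *
      ((if ((k - j : ℕ) : ℝ) * θ < p.2 then pb θ (k - j) p.2 else 0) * s ^ ((p.2 : ℝ) - ((k - j : ℕ) : ℝ) * θ)) := by
    intro o
    rw [← mul_assoc, b_rec hθ, sum_mul]
    apply sum_congr rfl
    intro j hj
    rw [mem_range] at hj
    rw [sum_mul]
    apply sum_congr rfl
    rintro ⟨p1, p2⟩ hp
    rw [HasAntidiagonal.mem_antidiagonal] at hp
    simp only at hp ⊢
    have e : s ^ ((o : ℝ) - k * θ) = s ^ ((p1 : ℝ) - j * θ) * s ^ ((p2 : ℝ) - ((k - j : ℕ) : ℝ) * θ) := by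
      rw [← Real.rpow_add hs, ← hp, Nat.cast_sub hj.le]
      congr 1
      push_cast
      ring
    rw [e]
    ring
  unfold dsw
  rw [mul_sum]
  simp only [h1]
  rw [sum_comm]
  apply sum_congr rfl
  intro j hj
  rw [mem_range] at hj
  unfold auw
  rw [sum_mul_sum, ← sum_product']
  -- both sides as sums over pairs
  rw [Finset.sum_sigma']
  symm
  apply sum_of_injOn (fun p : ℕ × ℕ => (⟨p.1 + p.2, p⟩ : Σ _ : ℕ, ℕ × ℕ))
  · rintro ⟨a1, a2⟩ _ ⟨b1, b2⟩ _ h
    simp only [Sigma.mk.injEq, heq_eq_eq] at h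
    exact h.2
  · rintro ⟨a1, a2⟩ h
    simp only [coe_product, Set.mem_prod, mem_coe, mem_range] at h
    simp only [mem_coe, mem_sigma, mem_range, HasAntidiagonal.mem_antidiagonal]
    exact ⟨by omega, trivial⟩
  · rintro ⟨o, p1, p2⟩ h h2
    simp only [mem_sigma, mem_range, HasAntidiagonal.mem_antidiagonal] at h
    simp only [Set.mem_image, coe_product, Set.mem_prod, mem_coe, mem_range, not_exists, not_and,
      Prod.forall] at h2
    rcases Nat.lt_or_ge j p1 with h3 | h3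
    · simp only
      rw [b_zero h3]; simp
    · rcases Nat.lt_or_ge (k - j) p2 with h4 | h4
      · simp only
        rw [pb_eq_zero h4]; simp
      · exfalso
        apply h2 p1 p2 ⟨by omega, by omega⟩
        simp only [Sigma.mk.injEq, heq_eq_eq, and_true]
        omega
  · rintro ⟨a1, a2⟩ _
    rfl

theorem pb_bound (hθ : Sl θ) : ∃ M : ℝ, 0 < M ∧ ∀ m o : ℕ, (m : ℝ) * θ ≤ o → Real.sqrt m * pb θ m o ≤ M := by
  have h0 := local_limit hθ.pos hθ.lt (B := 1) (fun m => ⌈(m : ℝ) * θ⌉₊)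
    (Eventually.of_forall fun m => by
      have h1 := Nat.le_ceil ((m : ℝ) * θ)
      have := hθ.pos
      have h2 := Nat.ceil_lt_add_one (show 0 ≤ (m : ℝ) * θ by positivity)
      rw [abs_le]
      constructor <;> linarith)
  obtain ⟨M, hM⟩ := h0.bddAbove_range
  have hM' : ∀ m : ℕ, Real.sqrt m * pb θ m ⌈(m : ℝ) * θ⌉₊ ≤ M := fun m => hM ⟨m, rfl⟩
  refine ⟨|M| + 1, by positivity, ?_⟩
  intro m o h
  have h1 : ⌈(m : ℝ) * θ⌉₊ ≤ o := Nat.ceil_le.2 h
  have h2 := pb_le hθ (Nat.le_ceil ((m : ℝ) * θ)) (o - ⌈(m : ℝ) * θ⌉₊)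
  rw [Nat.add_sub_cancel' h1] at h2
  have h3 := mul_le_mul_of_nonneg_left h2 (Real.sqrt_nonneg m)
  have h4 := le_abs_self M
  linarith [hM' m]

theorem auw_bound (hθ : Sl θ) {s : ℝ} (hs : 0 < s) (hs1 : s < 1) : ∃ M : ℝ, 0 < M ∧ ∀ m : ℕ, Real.sqrt m * auw θ s m ≤ M := by
  obtain ⟨M, hM0, hM⟩ := pb_bound hθ
  have h1s : 0 < 1 - s := by linarith
  refine ⟨M * (1 - s)⁻¹, by positivity, ?_⟩
  intro m
  have hth := hθ.pos
  unfold auw
  rw [mul_sum]
  set c := ⌈(m : ℝ) * θ⌉₊ with hc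
  have h1 : ∀ o ∈ range (m + 1), Real.sqrt m * ((if (m : ℝ) * θ < o then pb θ m o else 0) * s ^ ((o : ℝ) - m * θ))
      ≤ if c ≤ o then M * s ^ (o - c) else 0 := by
    intro o _
    by_cases h : c ≤ o
    · rw [if_pos h]
      have h2 : (m : ℝ) * θ ≤ c := Nat.le_ceil _
      have h3 : (c : ℝ) ≤ o := by exact_mod_cast h
      have h4 : s ^ ((o : ℝ) - m * θ) ≤ s ^ (o - c) := by
        rw [← Real.rpow_natCast s (o - c)]
        apply Real.rpow_le_rpow_of_exponent_ge hs hs1.le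
        rw [Nat.cast_sub h]
        linarith
      have h5 : Real.sqrt m * (if (m : ℝ) * θ < o then pb θ m o else 0) ≤ M := by
        split_ifs
        · exact hM m o (by linarith)
        · rw [mul_zero]; exact hM0.le
      rw [← mul_assoc]
      exact mul_le_mul h5 h4 (by positivity) hM0.le
    · rw [if_neg h]
      have : ¬ (m : ℝ) * θ < o := by
        intro h2
        exact h (Nat.ceil_le.2 h2.le)
      rw [if_neg this]; simp
  refine (sum_le_sum h1).trans ?_
  rw [← sum_filter]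
  have h6 : (range (m + 1)).filter (fun o => c ≤ o) = Ico c (m + 1) := by
    ext o; simp [mem_Ico]; omega
  rw [h6, sum_Ico_eq_sum_range, ← mul_sum]
  apply mul_le_mul_of_nonneg_left _ hM0.le
  have h7 : ∀ i ∈ range (m + 1 - c), s ^ (c + i - c) = s ^ i := by
    intro i _; rw [Nat.add_sub_cancel_left]
  rw [sum_congr rfl h7, ← tsum_geometric_of_lt_one hs.le hs1]
  exact (summable_geometric_of_lt_one hs.le hs1).sum_le_tsum _ fun i _ => by positivity

theorem rec_dsw (hθ : Sl θ) {s : ℝ} (hs : 0 < s) (hs1 : s < 1) : ∃ M : ℝ, Rec (auw θ s) (dsw θ s) M := by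
  obtain ⟨M, hM0, hM⟩ := auw_bound hθ hs hs1
  exact ⟨M, auw_nonneg hθ hs, dsw_nonneg hθ hs, hM0, hM, rec_w hθ hs⟩


end Pool.Agent.H622.Gs
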