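import Mathlib
import Pool.Agent.H622.Gs2

set_option autoImplicit false

/-! Words above a line of irrational slope, part 3: the local limit theorem. -/

namespace Pool.Agent.H622.Gs

open Finset Filter Topology
open scoped Classical
open Pool.Agent.H622.St (pb pb_nonneg local_limit Rec sum_inv_sqrt)

variable (θ : ℝ)

/-- the probability of survival up to `j` with final position `< w` -/
noncomputable def Rt (w : ℝ) (j : ℕ) : ℝ := ∑ o ∈ range (j + 1), if (o : ℝ) - j * θ < w then b θ j o else 0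

/-- the renewal function -/
noncomputable def Rf (w : ℝ) : ℝ := ∑' j, Rt θ w j

/-- the local constant -/
noncomputable def c0 : ℝ := (Real.sqrt (2 * Real.pi * (θ * (1 - θ))))⁻¹

variable {θ}

theorem c0_pos (hθ : Sl θ) : 0 < c0 θ := by
  unfold c0
  have h1 := hθ.pos
  have h4 : 0 < 1 - θ := by linarith [hθ.lt]
  have := Real.pi_pos
  positivity

theorem Rt_nonneg (hθ : Sl θ) (w : ℝ) (j : ℕ) : 0 ≤ Rt θ w j := by
  unfold Rt
  apply sum_nonneg
  intro o _
  split_ifs
  · exact b_nonneg hθ _ _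
  · exact le_rfl

theorem Rt_mono (hθ : Sl θ) {w w' : ℝ} (h : w ≤ w') (j : ℕ) : Rt θ w j ≤ Rt θ w' j := by
  unfold Rt
  apply sum_le_sum
  intro o _
  by_cases h1 : (o : ℝ) - j * θ < w
  · rw [if_pos h1, if_pos (by linarith)]
  · rw [if_neg h1]
    split_ifs
    · exact b_nonneg hθ _ _
    · exact le_rfl

theorem Rt_le (hθ : Sl θ) {s : ℝ} (hs : 0 < s) (hs1 : s < 1) (w : ℝ) (j : ℕ) : Rt θ w j ≤ s ^ (-w) * dsw θ s j := by
  unfold Rt dsw
  rw [mul_sum]
  apply sum_le_sum
  intro o _
  have hb := b_nonneg hθ j o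
  split_ifs with h
  · have h1 : 1 ≤ s ^ (-w) * s ^ ((o : ℝ) - j * θ) := by
      rw [← Real.rpow_add hs]
      apply Real.one_le_rpow_of_pos_of_le_one_of_nonpos hs hs1.le
      linarith
    calc b θ j o = b θ j o * 1 := by ring
      _ ≤ b θ j o * (s ^ (-w) * s ^ ((o : ℝ) - j * θ)) := mul_le_mul_of_nonneg_left h1 hb
      _ = _ := by ring
  · positivity

theorem dsw_summable (hθ : Sl θ) {s : ℝ} (hs : 0 < s) (hs1 : s < 1) : Summable (dsw θ s) := by
  obtain ⟨M, hM⟩ := rec_dsw hθ hs hs1
  exact hM.summable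

theorem Rt_summable (hθ : Sl θ) (w : ℝ) : Summable (Rt θ w) :=
  Summable.of_nonneg_of_le (Rt_nonneg hθ w) (Rt_le hθ (s := 1 / 2) (by norm_num) (by norm_num) w)
    ((dsw_summable hθ (by norm_num) (by norm_num)).mul_left _)

theorem Rf_nonneg (hθ : Sl θ) (w : ℝ) : 0 ≤ Rf θ w := tsum_nonneg (Rt_nonneg hθ w)

theorem Rf_mono (hθ : Sl θ) {w w' : ℝ} (h : w ≤ w') : Rf θ w ≤ Rf θ w' :=
  (Rt_summable hθ w).tsum_le_tsum (Rt_mono hθ h) (Rt_summable hθ w')

theorem Rf_le (hθ : Sl θ) {s : ℝ} (hs : 0 < s) (hs1 : s < 1) : ∃ C : ℝ, 0 < C ∧ ∀ w : ℝ, Rf θ w ≤ C * s ^ (-w) := by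
  have hsum := dsw_summable hθ hs hs1
  refine ⟨∑' j, dsw θ s j + 1, ?_, ?_⟩
  · have h0 : 0 ≤ ∑' j, dsw θ s j := tsum_nonneg (dsw_nonneg hθ hs)
    positivity
  · intro w
    have h1 : Rf θ w ≤ ∑' j, s ^ (-w) * dsw θ s j :=
      (Rt_summable hθ w).tsum_le_tsum (Rt_le hθ hs hs1 w) (hsum.mul_left _)
    rw [tsum_mul_left] at h1
    have h2 : 0 < s ^ (-w) := Real.rpow_pos_of_pos hs _
    linarith

theorem b_zero_zero : b θ 0 0 = 1 := by
  unfold b
  simp [Dp]

theorem Rf_ge_one (hθ : Sl θ) {w : ℝ} (hw : 0 < w) : 1 ≤ Rf θ w := by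
  have h1 := (Rt_summable hθ w).le_tsum 0 fun j _ => Rt_nonneg hθ w j
  have h2 : Rt θ w 0 = 1 := by
    unfold Rt
    simp [b_zero_zero, hw]
  rw [h2] at h1
  exact h1

theorem b_le_dsw (hθ : Sl θ) {s : ℝ} (hs : 0 < s) (k o : ℕ) : b θ k o * s ^ ((o : ℝ) - k * θ) ≤ dsw θ s k := by
  rcases Nat.lt_or_ge k o with h | h
  · rw [b_zero h, zero_mul]; exact dsw_nonneg hθ hs k
  · unfold dsw
    exact single_le_sum (f := fun o : ℕ => b θ k o * s ^ ((o : ℝ) - k * θ))
      (fun o _ => by have := b_nonneg hθ k o; positivity) (mem_range.2 (by omega))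

/-- the bound of the local probabilities -/
theorem b_bound (hθ : Sl θ) {s : ℝ} (hs : 0 < s) (hs1 : s < 1) : ∃ C : ℝ, 0 < C ∧ ∀ k o : ℕ,
    k * Real.sqrt k * b θ k o ≤ C * s ^ (-((o : ℝ) - k * θ)) := by
  obtain ⟨M, hM⟩ := rec_dsw hθ hs hs1
  obtain ⟨B, hB0, hB⟩ := hM.bound
  refine ⟨B + 1, by positivity, ?_⟩
  intro k o
  have h1 := b_le_dsw hθ hs k o
  have h2 := hB k
  have h3 : 0 < s ^ ((o : ℝ) - k * θ) := Real.rpow_pos_of_pos hs _
  rw [Real.rpow_neg hs.le, ← div_eq_mul_inv, le_div_iff₀ h3]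
  have h4 : 0 ≤ (k : ℝ) * Real.sqrt k := by positivity
  calc (k : ℝ) * Real.sqrt k * b θ k o * s ^ ((o : ℝ) - k * θ) =
      k * Real.sqrt k * (b θ k o * s ^ ((o : ℝ) - k * θ)) := by ring
    _ ≤ k * Real.sqrt k * dsw θ s k := mul_le_mul_of_nonneg_left h1 h4
    _ ≤ B + 1 := by linarith

/-- the recursion for one term, written with the cut -/
theorem b_rec' (hθ : Sl θ) {k : ℕ} (o : ℕ) : (k : ℝ) * b θ k o = ∑ j ∈ range k, ∑ p ∈ range (j + 1),
    if (p : ℝ) - j * θ < (o : ℝ) - k * θ then b θ j p * pb θ (k - j) (o - p) else 0 := by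
  rw [b_rec hθ]
  apply sum_congr rfl
  intro j hj
  rw [mem_range] at hj
  rw [Finset.Nat.sum_antidiagonal_eq_sum_range_succ_mk]
  simp only
  -- both sums over the range up to the maximum
  have h1 : ∀ p : ℕ, p ≤ o → (b θ j p * (if ((k - j : ℕ) : ℝ) * θ < ((o - p : ℕ) : ℝ) then pb θ (k - j) (o - p) else 0)) =
      if (p : ℝ) - j * θ < (o : ℝ) - k * θ then b θ j p * pb θ (k - j) (o - p) else 0 := by
    intro p hp
    have h2 : ((k - j : ℕ) : ℝ) * θ < ((o - p : ℕ) : ℝ) ↔ (p : ℝ) - j * θ < (o : ℝ) - k * θ := by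
      rw [Nat.cast_sub hj.le, Nat.cast_sub hp]
      constructor <;> intro h <;> linarith
    by_cases h : ((k - j : ℕ) : ℝ) * θ < ((o - p : ℕ) : ℝ)
    · rw [if_pos h, if_pos (h2.1 h)]
    · rw [if_neg h, if_neg (fun h' => h (h2.2 h')), mul_zero]
  have h3 : ∀ p : ℕ, o < p → (if (p : ℝ) - j * θ < (o : ℝ) - k * θ then b θ j p * pb θ (k - j) (o - p) else 0)
      = 0 := by
    intro p hp
    rw [if_neg]
    intro h
    have e1 : (o : ℝ) < p := by exact_mod_cast hp
    have e2 : (j : ℝ) < k := by exact_mod_cast hj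
    have := hθ.pos
    nlinarith
  set F : ℕ → ℝ := fun p => if (p : ℝ) - j * θ < (o : ℝ) - k * θ then b θ j p * pb θ (k - j) (o - p) else 0
    with hF
  have h4 : ∑ p ∈ range (o + 1), (b θ j p * (if ((k - j : ℕ) : ℝ) * θ < ((o - p : ℕ) : ℝ) then pb θ (k - j) (o - p) else 0)) =
      ∑ p ∈ range (o + 1), F p := by
    apply sum_congr rfl
    intro p hp
    rw [mem_range] at hp
    exact h1 p (by omega)
  have h5 : ∑ p ∈ range (o + 1), F p = ∑ p ∈ range (max o j + 1), F p := by
    apply sum_subset (range_subset_range.2 (by omega))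
    intro p _ hp
    rw [mem_range] at hp
    exact h3 p (by omega)
  have h6 : ∑ p ∈ range (j + 1), F p = ∑ p ∈ range (max o j + 1), F p := by
    apply sum_subset (range_subset_range.2 (by omega))
    intro p _ hp
    rw [mem_range] at hp
    simp only [hF]
    rw [b_zero (show j < p by omega)]; simp
  rw [h6, ← h5, ← h4]

/-- THE LOCAL LIMIT THEOREM FOR THE SURVIVORS -/
theorem local_surv (hθ : Sl θ) (W : ℝ) (o : ℕ → ℕ) (ho : ∀ k, |(o k : ℝ) - k * θ| ≤ W) :
    Tendsto (fun k : ℕ => (k : ℝ) * Real.sqrt k * b θ k (o k) - c0 θ * Rf θ ((o k : ℝ) - k * θ)) atTop (𝓝 0) := by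
  obtain ⟨M, hM0, hM⟩ := pb_bound hθ
  have hs : (0 : ℝ) < 1 / 2 := by norm_num
  have hs1 : (1 / 2 : ℝ) < 1 := by norm_num
  set s : ℝ := 1 / 2
  obtain ⟨M2, hM2⟩ := rec_dsw hθ hs hs1
  obtain ⟨B, hB0, hB⟩ := hM2.bound
  have hW0 : 0 ≤ W := (abs_nonneg _).trans (ho 0)
  have hc0 := c0_pos hθ
  set w : ℕ → ℝ := fun k => (o k : ℝ) - k * θ with hw
  have hwW : ∀ k, w k ≤ W := fun k => (le_abs_self _).trans (ho k)
  -- the terms
  set G : ℕ → ℕ → ℝ := fun k j => ∑ p ∈ range (j + 1),
    if (p : ℝ) - j * θ < w k then b θ j p * pb θ (k - j) (o k - p) else 0 with hG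
  have hG0 : ∀ k j, 0 ≤ G k j := by
    intro k j
    apply sum_nonneg
    intro p _
    split_ifs
    · exact mul_nonneg (b_nonneg hθ _ _) (pb_nonneg hθ.pos hθ.lt _ _)
    · exact le_rfl
  have hGle : ∀ k j : ℕ, j < k → Real.sqrt ((k - j : ℕ) : ℝ) * G k j ≤ M * Rt θ W j := by
    intro k j hj
    unfold Rt
    simp only [hG]
    rw [mul_sum, mul_sum]
    apply sum_le_sum
    intro p _
    have hb := b_nonneg hθ j p
    by_cases h : (p : ℝ) - j * θ < w k
    · rw [if_pos h, if_pos (h.trans_le (hwW k))]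
      have h1 : ((k - j : ℕ) : ℝ) * θ ≤ ((o k - p : ℕ) : ℝ) := by
        have h2 : (o k : ℝ) - p ≤ ((o k - p : ℕ) : ℝ) := by
          rw [sub_le_iff_le_add]
          exact_mod_cast (by omega : o k ≤ o k - p + p)
        rw [Nat.cast_sub hj.le]
        simp only [hw] at h
        linarith
      have h2 := hM (k - j) (o k - p) h1
      calc Real.sqrt ((k - j : ℕ) : ℝ) * (b θ j p * pb θ (k - j) (o k - p)) =
          b θ j p * (Real.sqrt ((k - j : ℕ) : ℝ) * pb θ (k - j) (o k - p)) := by ring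
        _ ≤ b θ j p * M := mul_le_mul_of_nonneg_left h2 hb
        _ = _ := by ring
    · rw [if_neg h, mul_zero]
      split_ifs <;> positivity
  -- the decomposition
  have hdec : ∀ k : ℕ, (k : ℝ) * Real.sqrt k * b θ k (o k) =
      ∑ j ∈ (range k).filter (fun j => ¬ k < 2 * j), Real.sqrt k * G k j +
      ∑ j ∈ (range k).filter (fun j => k < 2 * j), Real.sqrt k * G k j := by
    intro k
    rw [add_comm, sum_filter_add_sum_filter_not, ← mul_sum, mul_right_comm, b_rec' hθ, mul_comm]
  -- the near part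
  set f : ℕ → ℕ → ℝ := fun k j => if ¬ k < 2 * j ∧ j < k then
    Real.sqrt k * G k j - c0 θ * Rt θ (w k) j else 0 with hf
  have hnear : ∀ k j : ℕ, 2 * j ≤ k → j < k → Real.sqrt k * G k j ≤ 3 / 2 * M * Rt θ W j := by
    intro k j hj hjk
    have hkj : 0 < k - j := by omega
    have hkj' : (0 : ℝ) < ((k - j : ℕ) : ℝ) := by exact_mod_cast hkj
    have h2 : Real.sqrt k ≤ 3 / 2 * Real.sqrt ((k - j : ℕ) : ℝ) := by
      have h3 : (k : ℝ) ≤ (3 / 2 * Real.sqrt ((k - j : ℕ) : ℝ)) ^ 2 := by
        rw [mul_pow, Real.sq_sqrt hkj'.le, Nat.cast_sub (by omega)]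
        have : (2 : ℝ) * j ≤ k := by exact_mod_cast hj
        have : (0 : ℝ) ≤ j := Nat.cast_nonneg j
        linarith
      calc Real.sqrt k ≤ Real.sqrt ((3 / 2 * Real.sqrt ((k - j : ℕ) : ℝ)) ^ 2) := Real.sqrt_le_sqrt h3
        _ = _ := Real.sqrt_sq (by positivity)
    have h4 := mul_le_mul_of_nonneg_right h2 (hG0 k j)
    have h5 := hGle k j hjk
    linarith
  have hfl : ∀ j : ℕ, Tendsto (fun k => f k j) atTop (𝓝 0) := by
    intro j
    -- the termwise limits
    have hp : ∀ p : ℕ, Tendsto (fun k : ℕ => if (p : ℝ) - j * θ < w k then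
        b θ j p * (Real.sqrt k * pb θ (k - j) (o k - p) - c0 θ) else 0) atTop (𝓝 0) := by
      intro p
      have h1 : Tendsto (fun m : ℕ => Real.sqrt m * pb θ m (o (m + j) - p)) atTop (𝓝 (c0 θ)) := by
        apply local_limit hθ.pos hθ.lt (B := W + j + p)
        have ht : ∀ᶠ m : ℕ in atTop, p ≤ o (m + j) := by
          have hth := hθ.pos
          obtain ⟨N, hN⟩ := exists_nat_gt ((p + W) / θ)
          filter_upwards [eventually_ge_atTop N] with m hm
          have h2 : (N : ℝ) ≤ m := by exact_mod_cast hm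
          have h3 := (div_lt_iff₀ hth).1 (hN.trans_le h2)
          have h4 := (abs_le.1 (ho (m + j))).1
          push_cast at h4
          have h5 : (0 : ℝ) ≤ j * θ := by positivity
          have : (p : ℝ) ≤ o (m + j) := by nlinarith
          exact_mod_cast this
        filter_upwards [ht] with m hm
        rw [Nat.cast_sub hm]
        have h4 := ho (m + j)
        push_cast at h4
        have e : (o (m + j) : ℝ) - p - m * θ = ((o (m + j) : ℝ) - (m + j) * θ) + (j * θ - p) := by ring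
        rw [e]
        have h5 : |(j : ℝ) * θ - p| ≤ j + p := by
          rw [abs_le]
          have h6 := hθ.lt
          have h7 := hθ.pos
          have h8 : (0 : ℝ) ≤ j := Nat.cast_nonneg j
          have h9 : (0 : ℝ) ≤ p := Nat.cast_nonneg p
          constructor <;> nlinarith
        refine (abs_add_le _ _).trans ?_
        linarith
      have h2 : Tendsto (fun k : ℕ => k - j) atTop atTop := tendsto_sub_atTop_nat j
      have h3 := h1.comp h2
      have h4 : Tendsto (fun k : ℕ => Real.sqrt (k : ℝ) / Real.sqrt ((k - j : ℕ) : ℝ)) atTop (𝓝 1) := by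
        have h5 : Tendsto (fun k : ℕ => (k : ℝ) / ((k - j : ℕ) : ℝ)) atTop (𝓝 1) := by
          have h6 : Tendsto (fun k : ℕ => 1 + (j : ℝ) / ((k - j : ℕ) : ℝ)) atTop (𝓝 (1 + 0)) :=
            ((tendsto_natCast_atTop_atTop.comp h2).const_div_atTop _).const_add 1
          rw [add_zero] at h6
          refine h6.congr' ?_
          filter_upwards [eventually_gt_atTop j] with k hk
          have hkj' : (0 : ℝ) < ((k - j : ℕ) : ℝ) := by exact_mod_cast (by omega : 0 < k - j)
          have e0 : (k : ℝ) = ((k - j : ℕ) : ℝ) + j := by rw [Nat.cast_sub hk.le]; ring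
          rw [eq_div_iff hkj'.ne', add_mul, one_mul, div_mul_cancel₀ _ hkj'.ne', ← e0]
        have h7 := (Real.continuous_sqrt.tendsto 1).comp h5
        rw [Real.sqrt_one] at h7
        refine h7.congr fun k => ?_
        simp only [Function.comp]
        rw [Real.sqrt_div (Nat.cast_nonneg k)]
      have h5 := h4.mul h3
      rw [one_mul] at h5
      have h6 : Tendsto (fun k : ℕ => Real.sqrt k * pb θ (k - j) (o k - p) - c0 θ) atTop (𝓝 0) := by
        have h7 := h5.sub_const (c0 θ)
        rw [sub_self] at h7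
        refine h7.congr' ?_
        filter_upwards [eventually_gt_atTop j] with k hk
        have hkj' : (0 : ℝ) < ((k - j : ℕ) : ℝ) := by exact_mod_cast (by omega : 0 < k - j)
        have hsq : 0 < Real.sqrt ((k - j : ℕ) : ℝ) := Real.sqrt_pos.2 hkj'
        simp only [Function.comp]
        rw [Nat.sub_add_cancel hk.le, ← mul_assoc, div_mul_cancel₀ _ hsq.ne']
      have h7 := (h6.const_mul (b θ j p))
      rw [mul_zero] at h7
      apply squeeze_zero_norm (a := fun k : ℕ => |b θ j p * (Real.sqrt k * pb θ (k - j) (o k - p) - c0 θ)|)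
      · intro k
        split_ifs
        · exact le_rfl
        · rw [norm_zero]; exact abs_nonneg _
      · have := h7.abs
        rwa [abs_zero] at this
    have h8 := tendsto_finsetSum (range (j + 1)) fun p _ => hp p
    rw [sum_const_zero] at h8
    refine h8.congr' ?_
    filter_upwards [eventually_gt_atTop (2 * j)] with k hk
    simp only [hf]
    rw [if_pos (by omega)]
    simp only [hG]
    unfold Rt
    rw [mul_sum, mul_sum, ← sum_sub_distrib]
    apply sum_congr rfl
    intro p _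
    split_ifs <;> ring
  have hdom := tendsto_tsum_of_dominated_convergence (𝓕 := atTop) (f := f) (g := fun _ => (0 : ℝ))
    (bound := fun j => (3 / 2 * M + c0 θ) * Rt θ W j) ((Rt_summable hθ W).mul_left _) hfl
    (Eventually.of_forall fun k j => by
      simp only [hf]
      have hd := Rt_nonneg hθ W j
      split_ifs with hkj
      · have h1 := hnear k j (by omega) hkj.2
        have h2 : 0 ≤ Real.sqrt k * G k j := mul_nonneg (Real.sqrt_nonneg _) (hG0 k j)
        have h3 := Rt_mono hθ (hwW k) j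
        have h4 := Rt_nonneg hθ (w k) j
        rw [Real.norm_eq_abs]
        refine (abs_sub _ _).trans ?_
        rw [abs_of_nonneg h2, abs_of_nonneg (by positivity)]
        have := mul_le_mul_of_nonneg_left h3 hc0.le
        linarith
      · rw [norm_zero]; positivity)
  rw [tsum_zero] at hdom
  -- the tail
  have htail : Tendsto (fun k : ℕ => c0 θ * ∑' j : ℕ, (if ¬ k < 2 * j ∧ j < k then 0 else Rt θ (w k) j))
      atTop (𝓝 0) := by
    have h1 := tendsto_tsum_of_dominated_convergence (𝓕 := atTop)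
      (f := fun (k : ℕ) (j : ℕ) => if ¬ k < 2 * j ∧ j < k then (0 : ℝ) else Rt θ (w k) j)
      (g := fun _ => (0 : ℝ)) (bound := Rt θ W) (Rt_summable hθ W)
      (fun j => by
        apply tendsto_const_nhds.congr'
        filter_upwards [eventually_gt_atTop (2 * j)] with k hk
        rw [if_pos (by omega)])
      (Eventually.of_forall fun k j => by
        split_ifs with hkj
        · rw [norm_zero]; exact Rt_nonneg hθ _ _
        · rw [Real.norm_eq_abs, abs_of_nonneg (Rt_nonneg hθ _ _)]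
          exact Rt_mono hθ (hwW k) j)
    rw [tsum_zero] at h1
    have := h1.const_mul (c0 θ)
    rwa [mul_zero] at this
  -- the far part
  have hfar : Tendsto (fun k : ℕ => ∑ j ∈ (range k).filter (fun j => k < 2 * j), Real.sqrt k * G k j)
      atTop (𝓝 0) := by
    set C : ℝ := s ^ (-W) * (3 * B) * M with hC
    have hC0 : 0 ≤ C := by positivity
    have h1 : Tendsto (fun k : ℕ => 2 * C / Real.sqrt (k : ℝ)) atTop (𝓝 0) :=
      (Real.tendsto_sqrt_atTop.comp tendsto_natCast_atTop_atTop).const_div_atTop _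
    apply squeeze_zero_norm' _ h1
    filter_upwards [eventually_gt_atTop 0] with k hk
    have hk' : (0 : ℝ) < k := by exact_mod_cast hk
    have hsk : 0 < Real.sqrt (k : ℝ) := Real.sqrt_pos.2 hk'
    rw [Real.norm_eq_abs, abs_of_nonneg (sum_nonneg fun j _ => mul_nonneg hsk.le (hG0 k j))]
    have h2 : ∀ j ∈ (range k).filter (fun j => k < 2 * j), Real.sqrt k * G k j ≤
        C / k * (1 / Real.sqrt ((k - j : ℕ) : ℝ)) := by
      intro j hj
      rw [mem_filter, mem_range] at hj
      have hkj' : (0 : ℝ) < ((k - j : ℕ) : ℝ) := by exact_mod_cast (by omega : 0 < k - j)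
      have hsq : 0 < Real.sqrt ((k - j : ℕ) : ℝ) := Real.sqrt_pos.2 hkj'
      have hj2 : (k : ℝ) ≤ 2 * j := by exact_mod_cast hj.2.le
      have hj' : (0 : ℝ) < j := by linarith
      have e1 := hGle k j hj.1
      have e2 := Rt_le hθ hs hs1 W j
      have e3 := hB j
      -- bound of `dsw`
      have e4 : k * Real.sqrt k * dsw θ s j ≤ 3 * B := by
        have h5 : Real.sqrt k ≤ 3 / 2 * Real.sqrt j := by
          have h3 : (k : ℝ) ≤ (3 / 2 * Real.sqrt (j : ℝ)) ^ 2 := by
            rw [mul_pow, Real.sq_sqrt hj'.le]; linarith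
          calc Real.sqrt k ≤ Real.sqrt ((3 / 2 * Real.sqrt (j : ℝ)) ^ 2) := Real.sqrt_le_sqrt h3
            _ = _ := Real.sqrt_sq (by positivity)
        have h6 := dsw_nonneg hθ hs j
        have h7 : (k : ℝ) * Real.sqrt k ≤ 3 * (j * Real.sqrt j) := by
          calc (k : ℝ) * Real.sqrt k ≤ (2 * j) * (3 / 2 * Real.sqrt j) :=
                mul_le_mul hj2 h5 (Real.sqrt_nonneg _) (by positivity)
            _ = _ := by ring
        have h8 := mul_le_mul_of_nonneg_right h7 h6
        linarith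
      have e5 : G k j ≤ M * (s ^ (-W) * (3 * B / (k * Real.sqrt k))) / Real.sqrt ((k - j : ℕ) : ℝ) := by
        rw [le_div_iff₀ hsq, mul_comm]
        refine e1.trans (mul_le_mul_of_nonneg_left (e2.trans (mul_le_mul_of_nonneg_left ?_ (by positivity)))
          hM0.le)
        rw [le_div_iff₀ (by positivity)]
        linarith
      refine (mul_le_mul_of_nonneg_left e5 hsk.le).trans (le_of_eq ?_)
      rw [hC]
      field_simp
    refine (sum_le_sum h2).trans ?_
    rw [← mul_sum]
    have h3 : ∑ j ∈ (range k).filter (fun j => k < 2 * j), 1 / Real.sqrt ((k - j : ℕ) : ℝ) ≤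
        2 * Real.sqrt k := by
      refine le_trans ?_ (sum_inv_sqrt k)
      apply sum_le_sum_of_subset_of_nonneg (filter_subset _ _)
      intro j _ _
      positivity
    refine (mul_le_mul_of_nonneg_left h3 (by positivity)).trans (le_of_eq ?_)
    have h5 : Real.sqrt k / k = 1 / Real.sqrt k := Real.sqrt_div_self'
    calc C / k * (2 * Real.sqrt k) = 2 * C * (Real.sqrt k / k) := by ring
      _ = _ := by rw [h5]; ring
  have hall := (hdom.add hfar).sub htail
  rw [add_zero, sub_zero] at hall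
  refine hall.congr fun k => ?_
  rw [hdec]
  have hfs : ∑' j, f k j = ∑ j ∈ (range k).filter (fun j => ¬ k < 2 * j),
      (Real.sqrt k * G k j - c0 θ * Rt θ (w k) j) := by
    rw [tsum_eq_sum (s := (range k).filter (fun j => ¬ k < 2 * j))]
    · apply sum_congr rfl
      intro j hj
      rw [mem_filter, mem_range] at hj
      simp only [hf]
      rw [if_pos ⟨hj.2, hj.1⟩]
    · intro j hj
      rw [mem_filter, mem_range] at hj
      simp only [hf]
      rw [if_neg (fun h => hj ⟨h.2, h.1⟩)]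
  have hws : Rf θ (w k) = ∑ j ∈ (range k).filter (fun j => ¬ k < 2 * j), Rt θ (w k) j +
      ∑' j : ℕ, (if ¬ k < 2 * j ∧ j < k then 0 else Rt θ (w k) j) := by
    have hsw := Rt_summable hθ (w k)
    have h1 : ∑ j ∈ (range k).filter (fun j => ¬ k < 2 * j), Rt θ (w k) j =
        ∑' j : ℕ, (if ¬ k < 2 * j ∧ j < k then Rt θ (w k) j else 0) := by
      rw [tsum_eq_sum (s := (range k).filter (fun j => ¬ k < 2 * j))]
      · apply sum_congr rfl
        intro j hj
        rw [mem_filter, mem_range] at hj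
        rw [if_pos ⟨hj.2, hj.1⟩]
      · intro j hj
        rw [mem_filter, mem_range] at hj
        rw [if_neg (fun h => hj ⟨h.2, h.1⟩)]
    have hsum1 : Summable fun j : ℕ => (if ¬ k < 2 * j ∧ j < k then Rt θ (w k) j else 0) := by
      apply Summable.of_norm_bounded hsw
      intro j
      have := Rt_nonneg hθ (w k) j
      split_ifs
      · rw [Real.norm_eq_abs, abs_of_nonneg this]
      · rw [norm_zero]; exact this
    have hsum2 : Summable fun j : ℕ => (if ¬ k < 2 * j ∧ j < k then 0 else Rt θ (w k) j) := by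
      apply Summable.of_norm_bounded hsw
      intro j
      have := Rt_nonneg hθ (w k) j
      split_ifs
      · rw [norm_zero]; exact this
      · rw [Real.norm_eq_abs, abs_of_nonneg this]
    rw [h1, ← hsum1.tsum_add hsum2]
    unfold Rf
    apply tsum_congr
    intro j
    split_ifs <;> ring
  have hws' : Rf θ ((o k : ℝ) - k * θ) = Rf θ (w k) := rfl
  rw [hws', hws, hfs, sum_sub_distrib, ← mul_sum _ _ (c0 θ)]
  ring

end Pool.Agent.H622.Gs
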