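import Mathlib
import Pool.Agent.H622.Gs3

set_option autoImplicit false

/-! Words above a line of irrational slope, part 4: the words which start at the height `u`. -/

namespace Pool.Agent.H622.Gs

open Finset Filter Topology
open scoped Classical
open Pool.Agent.H622.St (pb pb_nonneg local_limit Rec sum_inv_sqrt)

variable (θ : ℝ)

/-- the words which start at the height `u` and do not become negative -/
noncomputable def Np (u : ℝ) : ℕ → R
  | 0 => 1
  | k + 1 => cut (fun o => -u ≤ (o : ℝ) - ((k + 1 : ℕ) : ℝ) * θ) ((1 + Polynomial.X) * Np u k)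

/-- the words below the line down to the height `-u` -/
noncomputable def Fp (u : ℝ) (i : ℕ) : R := cut (fun o => -u ≤ (o : ℝ) - (i : ℝ) * θ) (Ep θ i)

noncomputable def F (u : ℝ) : PowerSeries R := PowerSeries.mk (Fp θ u)

def IsLow (u : ℝ) (f : PowerSeries R) : Prop :=
  ∀ k o : ℕ, (PowerSeries.coeff k f).coeff o ≠ 0 → (o : ℝ) - k * θ < -u

variable {θ}

theorem IsLow.add {u : ℝ} {f g : PowerSeries R} (hf : IsLow θ u f) (hg : IsLow θ u g) : IsLow θ u (f + g) := by
  intro k o h
  rw [map_add, Polynomial.coeff_add] at h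
  by_cases h1 : (PowerSeries.coeff k f).coeff o = 0
  · rw [h1, zero_add] at h; exact hg k o h
  · exact hf k o h1

theorem IsLow.mul {u : ℝ} {f g : PowerSeries R} (hf : IsLow θ u f) (hg : IsNeg θ g) : IsLow θ u (f * g) := by
  intro k o h
  rw [PowerSeries.coeff_mul, Polynomial.finsetSum_coeff] at h
  obtain ⟨⟨i, j⟩, hij, h1⟩ := exists_ne_zero_of_sum_ne_zero h
  rw [Polynomial.coeff_mul] at h1
  obtain ⟨⟨p, q⟩, hpq, h2⟩ := exists_ne_zero_of_sum_ne_zero h1
  rw [HasAntidiagonal.mem_antidiagonal] at hij hpq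
  have a1 := hf i p (left_ne_zero_of_mul h2)
  have a2 := hg j q (right_ne_zero_of_mul h2)
  simp only at hij hpq
  rw [← hij, ← hpq]
  push_cast
  linarith

theorem EF_low (u : ℝ) : IsLow θ u (E θ - F θ u) := by
  intro k o h
  unfold E F at h
  rw [map_sub, PowerSeries.coeff_mk, PowerSeries.coeff_mk, Polynomial.coeff_sub] at h
  unfold Fp at h
  rw [coeff_cut] at h
  by_contra h2
  rw [if_pos (not_lt.1 h2), sub_self] at h
  exact h rfl

theorem UFD (hθ : Sl θ) (u : ℝ) : U * (F θ u * D θ) = 1 - (E θ - F θ u) * (U * D θ) := by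
  have := UDE hθ
  linear_combination (-1 : PowerSeries R) * this + (1 : PowerSeries R) * this + this

theorem EFUD_low (hθ : Sl θ) (u : ℝ) : IsLow θ u ((E θ - F θ u) * (U * D θ)) := by
  have : (E θ - F θ u) * (U * D θ) = (E θ - F θ u) * (U * D θ - 1) + (E θ - F θ u) := by ring
  rw [this]
  exact ((EF_low u).mul (UD_sub hθ)).add (EF_low u)

theorem FD_high {u : ℝ} (k o : ℕ) (h : (PowerSeries.coeff k (F θ u * D θ)).coeff o ≠ 0) :
    -u ≤ (o : ℝ) - k * θ := by
  rw [PowerSeries.coeff_mul, Polynomial.finsetSum_coeff] at h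
  obtain ⟨⟨i, j⟩, hij, h1⟩ := exists_ne_zero_of_sum_ne_zero h
  rw [Polynomial.coeff_mul] at h1
  obtain ⟨⟨p, q⟩, hpq, h2⟩ := exists_ne_zero_of_sum_ne_zero h1
  rw [HasAntidiagonal.mem_antidiagonal] at hij hpq
  have a1 := left_ne_zero_of_mul h2
  have a2 := right_ne_zero_of_mul h2
  simp only at hij hpq a1 a2
  unfold F Fp at a1
  rw [PowerSeries.coeff_mk, coeff_cut] at a1
  have b1 : -u ≤ (p : ℝ) - i * θ := by
    by_contra hc
    rw [if_neg hc] at a1
    exact a1 rfl
  have b2 : (0 : ℝ) ≤ (q : ℝ) - j * θ := by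
    unfold D at a2
    rw [PowerSeries.coeff_mk] at a2
    rcases Nat.eq_zero_or_pos j with h0 | h0
    · subst h0; simp
    · by_contra hc
      apply a2
      apply Dp_low h0
      intro h3
      apply hc
      linarith
  rw [← hij, ← hpq]
  push_cast
  linarith

theorem Np_eq (hθ : Sl θ) {u : ℝ} (hu : 0 ≤ u) (k : ℕ) : Np θ u k = PowerSeries.coeff k (F θ u * D θ) := by
  induction k with
  | zero =>
    rw [PowerSeries.coeff_mul, Finset.Nat.sum_antidiagonal_eq_sum_range_succ_mk, sum_range_one, Nat.sub_self]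
    unfold F D Fp
    rw [PowerSeries.coeff_mk, PowerSeries.coeff_mk]
    rw [show Dp θ 0 = 1 from rfl, show Ep θ 0 = 1 from rfl, mul_one]
    unfold Np
    ext o
    rw [coeff_cut, Polynomial.coeff_one]
    rcases Nat.eq_zero_or_pos o with h0 | h0
    · subst h0
      rw [if_pos rfl, if_pos]
      simp [hu]
    · rw [if_neg (show ¬ o = 0 by omega)]
      split_ifs <;> rfl
  | succ k ih =>
    ext o
    rw [Np, coeff_cut, ih]
    split_ifs with h
    · have h1 := coeff_U_mul (F θ u * D θ) k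
      rw [UFD hθ u, map_sub, PowerSeries.coeff_one, if_neg (by omega), zero_sub] at h1
      have h2 := congrArg (fun p => Polynomial.coeff p o) h1
      rw [Polynomial.coeff_neg, Polynomial.coeff_sub] at h2
      have h3 : (PowerSeries.coeff (k + 1) ((E θ - F θ u) * (U * D θ))).coeff o = 0 := by
        by_contra h4
        have := EFUD_low hθ u (k + 1) o h4
        linarith
      rw [h3, neg_zero] at h2
      have : (1 : R) + Polynomial.X = y1 := rfl
      rw [this]
      linarith
    · by_contra h2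
      exact h (FD_high (k + 1) o (Ne.symm h2))

theorem Np_coeff (hθ : Sl θ) {u : ℝ} (hu : 0 ≤ u) (k o : ℕ) : (Np θ u k).coeff o =
    ∑ i ∈ range (k + 1), ∑ p ∈ antidiagonal o,
      (if -u ≤ (p.1 : ℝ) - i * θ then (Ep θ i).coeff p.1 else 0) * (Dp θ (k - i)).coeff p.2 := by
  rw [Np_eq hθ hu, PowerSeries.coeff_mul, Polynomial.finsetSum_coeff,
    Finset.Nat.sum_antidiagonal_eq_sum_range_succ_mk]
  apply sum_congr rfl
  intro i _
  rw [Polynomial.coeff_mul]
  apply sum_congr rfl
  intro p _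
  unfold F D Fp
  rw [PowerSeries.coeff_mk, PowerSeries.coeff_mk, coeff_cut]

/-- the weights of the words -/
noncomputable def bu (θ u : ℝ) (k o : ℕ) : ℝ := ((Np θ u k).coeff o : ℝ) * (θ ^ o * (1 - θ) ^ (k - o))

/-- shifted weights -/
noncomputable def bs (θ : ℝ) (m o r : ℕ) : ℝ := if r ≤ o then b θ m (o - r) else 0

theorem bs_nonneg (hθ : Sl θ) (m o r : ℕ) : 0 ≤ bs θ m o r := by
  unfold bs
  split_ifs
  · exact b_nonneg hθ _ _
  · exact le_rfl

/-- the decomposition at the minimum -/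
theorem bu_eq (hθ : Sl θ) {u : ℝ} (hu : 0 ≤ u) (k o : ℕ) : bu θ u k o =
    ∑ i ∈ range (k + 1), ∑ p ∈ range (i + 1),
      if (p : ℝ) - i * (1 - θ) ≤ u then b (1 - θ) i p * bs θ (k - i) o (i - p) else 0 := by
  unfold bu
  rw [Np_coeff hθ hu]
  push_cast
  rw [sum_mul]
  apply sum_congr rfl
  intro i hi
  rw [mem_range] at hi
  rw [sum_mul, Finset.Nat.sum_antidiagonal_eq_sum_range_succ_mk]
  -- `a` the number of ones of the first part
  set Fn : ℕ → ℝ := fun a => ((if -u ≤ (a : ℝ) - i * θ then ((Ep θ i).coeff a : ℝ) else 0) *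
    (if a ≤ o then ((Dp θ (k - i)).coeff (o - a) : ℝ) else 0)) * (θ ^ o * (1 - θ) ^ (k - o)) with hFn
  have h1 : ∑ a ∈ range o.succ, ((if -u ≤ (a : ℝ) - i * θ then ((Ep θ i).coeff a : ℝ) else 0) *
      ((Dp θ (k - i)).coeff (o - a) : ℝ)) * (θ ^ o * (1 - θ) ^ (k - o)) = ∑ a ∈ range (max o i + 1), Fn a := by
    have hsub : ∑ a ∈ range o.succ, Fn a = ∑ a ∈ range (max o i + 1), Fn a := by
      apply sum_subset (range_subset_range.2 (by omega))
      intro a _ ha
      rw [mem_range] at ha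
      simp only [hFn]
      rw [if_neg (show ¬ a ≤ o by omega), mul_zero, zero_mul]
    rw [← hsub]
    apply sum_congr rfl
    intro a ha
    rw [mem_range] at ha
    simp only [hFn]
    rw [if_pos (show a ≤ o by omega)]
  have h2 : ∑ a ∈ range (i + 1), Fn a = ∑ a ∈ range (max o i + 1), Fn a := by
    apply sum_subset (range_subset_range.2 (by omega))
    intro a _ ha
    rw [mem_range] at ha
    simp only [hFn]
    rw [Ep_eq, if_neg (show ¬ a ≤ i by omega)]
    simp
  have h3 : ∑ x ∈ range o.succ, ((if -u ≤ (x : ℝ) - i * θ then (((Ep θ i).coeff x : ℤ) : ℝ) else 0) *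
      ((Dp θ (k - i)).coeff (o - x) : ℝ)) * (θ ^ o * (1 - θ) ^ (k - o)) = ∑ a ∈ range (i + 1), Fn a := by
    rw [h2]; exact h1
  have h4 : ∑ a ∈ range (i + 1), Fn a = ∑ p ∈ range (i + 1),
      (if (p : ℝ) - i * (1 - θ) ≤ u then b (1 - θ) i p * bs θ (k - i) o (i - p) else 0) := by
    rw [← sum_range_reflect]
    apply sum_congr rfl
    intro p hp
    rw [mem_range] at hp
    simp only [hFn]
    rw [show i + 1 - 1 - p = i - p by omega, Ep_eq, if_pos (show i - p ≤ i by omega),
      show i - (i - p) = p by omega]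
    have e1 : (-u ≤ ((i - p : ℕ) : ℝ) - i * θ) ↔ ((p : ℝ) - i * (1 - θ) ≤ u) := by
      rw [Nat.cast_sub (by omega)]
      constructor <;> intro h <;> linarith
    simp only [e1]
    split_ifs with h5 h6
    · unfold b bs
      rw [if_pos h6]
      unfold b
      rcases Nat.lt_or_ge (k - i) (o - (i - p)) with h7 | h7
      · rw [Dp_zero h7]; simp
      · have e2 : θ ^ o = θ ^ (i - p) * θ ^ (o - (i - p)) := by
          rw [← pow_add]; congr 1; omega
        have e3 : (1 - θ) ^ (k - o) = (1 - θ) ^ p * (1 - θ) ^ (k - i - (o - (i - p))) := by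
          rw [← pow_add]; congr 1; omega
        rw [e2, e3, show 1 - (1 - θ) = θ by ring]
        ring
    · unfold bs
      rw [if_neg h6]; simp
    · simp
    · simp
  rw [← h4, ← h3]

end Pool.Agent.H622.Gs
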