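import Mathlib
import Pool.Agent.H622.Gs4

set_option autoImplicit false

/-! Words above a line of irrational slope, part 5: the local limit theorem for the walks which start at a
positive height. -/

namespace Pool.Agent.H622.Gs

open Finset Filter Topology
open scoped Classical
open Pool.Agent.H622.St (pb pb_nonneg local_limit Rec sum_inv_sqrt)

/-- the closed version of `Rt` -/
noncomputable def Rl (θ w : ℝ) (j : ℕ) : ℝ := ∑ o ∈ range (j + 1), if (o : ℝ) - j * θ ≤ w then b θ j o else 0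

/-- the harmonic function -/
noncomputable def Vf (θ w : ℝ) : ℝ := ∑' j, Rl θ w j

variable {θ : ℝ}

theorem Rl_nonneg (hθ : Sl θ) (w : ℝ) (j : ℕ) : 0 ≤ Rl θ w j := by
  unfold Rl
  apply sum_nonneg
  intro o _
  split_ifs
  · exact b_nonneg hθ _ _
  · exact le_rfl

theorem Rl_mono (hθ : Sl θ) {w w' : ℝ} (h : w ≤ w') (j : ℕ) : Rl θ w j ≤ Rl θ w' j := by
  unfold Rl
  apply sum_le_sum
  intro o _
  by_cases h1 : (o : ℝ) - j * θ ≤ w
  · rw [if_pos h1, if_pos (by linarith)]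
  · rw [if_neg h1]
    split_ifs
    · exact b_nonneg hθ _ _
    · exact le_rfl

theorem Rl_le (hθ : Sl θ) {s : ℝ} (hs : 0 < s) (hs1 : s < 1) (w : ℝ) (j : ℕ) :
    Rl θ w j ≤ s ^ (-w) * dsw θ s j := by
  unfold Rl dsw
  rw [mul_sum]
  apply sum_le_sum
  intro o _
  have hb := b_nonneg hθ j o
  split_ifs with h
  · have h1 : 1 ≤ s ^ (-w) * s ^ ((o : ℝ) - j * θ) := by
      rw [← Real.rpow_add hs]
      apply Real.one_le_rpow_of_pos_of_le_one_of_nonpos hs hs1.le
      linarith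
    calc b θ j o = b θ j o * 1 := by ring
      _ ≤ b θ j o * (s ^ (-w) * s ^ ((o : ℝ) - j * θ)) := mul_le_mul_of_nonneg_left h1 hb
      _ = _ := by ring
  · positivity

theorem Rl_summable (hθ : Sl θ) (w : ℝ) : Summable (Rl θ w) :=
  Summable.of_nonneg_of_le (Rl_nonneg hθ w) (Rl_le hθ (s := 1 / 2) (by norm_num) (by norm_num) w)
    ((dsw_summable hθ (by norm_num) (by norm_num)).mul_left _)

theorem Vf_nonneg (hθ : Sl θ) (w : ℝ) : 0 ≤ Vf θ w := tsum_nonneg (Rl_nonneg hθ w)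

theorem Vf_mono (hθ : Sl θ) {w w' : ℝ} (h : w ≤ w') : Vf θ w ≤ Vf θ w' :=
  (Rl_summable hθ w).tsum_le_tsum (Rl_mono hθ h) (Rl_summable hθ w')

theorem Vf_le (hθ : Sl θ) {s : ℝ} (hs : 0 < s) (hs1 : s < 1) : ∃ C : ℝ, 0 < C ∧ ∀ w : ℝ,
    Vf θ w ≤ C * s ^ (-w) := by
  have hsum := dsw_summable hθ hs hs1
  refine ⟨∑' j, dsw θ s j + 1, ?_, ?_⟩
  · have h0 : 0 ≤ ∑' j, dsw θ s j := tsum_nonneg (dsw_nonneg hθ hs)
    positivity
  · intro w
    have h1 : Vf θ w ≤ ∑' j, s ^ (-w) * dsw θ s j :=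
      (Rl_summable hθ w).tsum_le_tsum (Rl_le hθ hs hs1 w) (hsum.mul_left _)
    rw [tsum_mul_left] at h1
    have h2 : 0 < s ^ (-w) := Real.rpow_pos_of_pos hs _
    linarith

theorem Vf_ge_one (hθ : Sl θ) {w : ℝ} (hw : 0 ≤ w) : 1 ≤ Vf θ w := by
  have h1 := (Rl_summable hθ w).le_tsum 0 fun j _ => Rl_nonneg hθ w j
  have h2 : Rl θ w 0 = 1 := by
    unfold Rl
    simp [b_zero_zero, hw]
  rw [h2] at h1
  exact h1

/-- the first factor: the terms of the decomposition -/
noncomputable def tm (θ : ℝ) (U : ℝ) (k o i : ℕ) : ℝ :=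
  ∑ p ∈ range (i + 1), if (p : ℝ) - i * (1 - θ) ≤ U then b (1 - θ) i p * bs θ (k - i) o (i - p) else 0

/-- their limits -/
noncomputable def tl (θ : ℝ) (U δ : ℝ) (i : ℕ) : ℝ :=
  ∑ p ∈ range (i + 1), if (p : ℝ) - i * (1 - θ) ≤ U then
    b (1 - θ) i p * Rf θ (δ + ((p : ℝ) - i * (1 - θ))) else 0

theorem tm_nonneg (hθ : Sl θ) (U : ℝ) (k o i : ℕ) : 0 ≤ tm θ U k o i := by
  unfold tm
  apply sum_nonneg
  intro p _
  split_ifs
  · exact mul_nonneg (b_nonneg hθ.flip _ _) (bs_nonneg hθ _ _ _)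
  · exact le_rfl

theorem tl_nonneg (hθ : Sl θ) (U δ : ℝ) (i : ℕ) : 0 ≤ tl θ U δ i := by
  unfold tl
  apply sum_nonneg
  intro p _
  split_ifs
  · exact mul_nonneg (b_nonneg hθ.flip _ _) (Rf_nonneg hθ _)
  · exact le_rfl

theorem tl_le (hθ : Sl θ) {W U δ : ℝ} (hU : U ≤ W) (hδ : δ ≤ W) (i : ℕ) :
    tl θ U δ i ≤ Rf θ (2 * W) * Rl (1 - θ) W i := by
  unfold tl Rl
  rw [mul_sum]
  apply sum_le_sum
  intro p _
  have hb := b_nonneg hθ.flip i p
  have hR := Rf_nonneg hθ (2 * W)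
  by_cases h : (p : ℝ) - i * (1 - θ) ≤ U
  · rw [if_pos h, if_pos (h.trans hU), mul_comm]
    apply mul_le_mul_of_nonneg_right _ hb
    apply Rf_mono hθ
    linarith
  · rw [if_neg h]
    split_ifs <;> positivity

theorem tl_summable (hθ : Sl θ) (U δ : ℝ) : Summable (tl θ U δ) := by
  apply Summable.of_nonneg_of_le (tl_nonneg hθ U δ)
    (fun i => tl_le hθ (W := max U δ) (le_max_left _ _) (le_max_right _ _) i)
  exact (Rl_summable hθ.flip _).mul_left _

/-- the bound of the terms in the first half -/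
theorem tm_le (hθ : Sl θ) (W : ℝ) : ∃ C : ℝ, 0 < C ∧ ∀ (U : ℝ) (k o i : ℕ), U ≤ W →
    |(o : ℝ) - k * θ| ≤ W → 2 * i ≤ k → k * Real.sqrt k * tm θ U k o i ≤ C * Rl (1 - θ) W i := by
  obtain ⟨C, hC, h⟩ := b_bound hθ (s := 1 / 2) (by norm_num) (by norm_num)
  refine ⟨3 * C * (1 / 2 : ℝ) ^ (-(2 * W)), by positivity, ?_⟩
  intro U k o i hU ho hi
  unfold tm Rl
  rw [mul_sum, mul_sum]
  apply sum_le_sum
  intro p hp
  rw [mem_range] at hp
  have hb := b_nonneg hθ.flip i p
  by_cases h1 : (p : ℝ) - i * (1 - θ) ≤ U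
  · rw [if_pos h1, if_pos (h1.trans hU)]
    have h2 : k * Real.sqrt k * bs θ (k - i) o (i - p) ≤ 3 * C * (1 / 2 : ℝ) ^ (-(2 * W)) := by
      unfold bs
      split_ifs with h3
      · have h4 := h (k - i) (o - (i - p))
        have h5 : (1 / 2 : ℝ) ^ (-(((o - (i - p) : ℕ) : ℝ) - ((k - i : ℕ) : ℝ) * θ)) ≤
            (1 / 2 : ℝ) ^ (-(2 * W)) := by
          apply Real.rpow_le_rpow_of_exponent_ge (by norm_num) (by norm_num)
          rw [Nat.cast_sub h3, Nat.cast_sub (show p ≤ i by omega), Nat.cast_sub (show i ≤ k by omega)]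
          have := (abs_le.1 ho).2
          linarith
        have h6 : (k : ℝ) * Real.sqrt k ≤ 3 * (((k - i : ℕ) : ℝ) * Real.sqrt ((k - i : ℕ) : ℝ)) := by
          have e0 : (k : ℝ) ≤ 2 * ((k - i : ℕ) : ℝ) := by exact_mod_cast (by omega : k ≤ 2 * (k - i))
          have e1 : Real.sqrt k ≤ 3 / 2 * Real.sqrt ((k - i : ℕ) : ℝ) := by
            have h3 : (k : ℝ) ≤ (3 / 2 * Real.sqrt ((k - i : ℕ) : ℝ)) ^ 2 := by
              rw [mul_pow, Real.sq_sqrt (Nat.cast_nonneg _)]
              have : (0 : ℝ) ≤ ((k - i : ℕ) : ℝ) := Nat.cast_nonneg _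
              linarith
            calc Real.sqrt k ≤ Real.sqrt ((3 / 2 * Real.sqrt ((k - i : ℕ) : ℝ)) ^ 2) := Real.sqrt_le_sqrt h3
              _ = _ := Real.sqrt_sq (by positivity)
          calc (k : ℝ) * Real.sqrt k ≤ (2 * ((k - i : ℕ) : ℝ)) * (3 / 2 * Real.sqrt ((k - i : ℕ) : ℝ)) :=
                mul_le_mul e0 e1 (Real.sqrt_nonneg _) (by positivity)
            _ = _ := by ring
        have hb2 := b_nonneg hθ (k - i) (o - (i - p))
        calc (k : ℝ) * Real.sqrt k * b θ (k - i) (o - (i - p))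
            ≤ 3 * (((k - i : ℕ) : ℝ) * Real.sqrt ((k - i : ℕ) : ℝ)) * b θ (k - i) (o - (i - p)) :=
              mul_le_mul_of_nonneg_right h6 hb2
          _ = 3 * (((k - i : ℕ) : ℝ) * Real.sqrt ((k - i : ℕ) : ℝ) * b θ (k - i) (o - (i - p))) := by ring
          _ ≤ 3 * (C * (1 / 2 : ℝ) ^ (-(2 * W))) := by
              apply mul_le_mul_of_nonneg_left _ (by norm_num)
              exact h4.trans (mul_le_mul_of_nonneg_left h5 hC.le)
          _ = _ := by ring
      · rw [mul_zero]; positivity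
    calc (k : ℝ) * Real.sqrt k * (b (1 - θ) i p * bs θ (k - i) o (i - p)) =
        b (1 - θ) i p * (k * Real.sqrt k * bs θ (k - i) o (i - p)) := by ring
      _ ≤ b (1 - θ) i p * (3 * C * (1 / 2 : ℝ) ^ (-(2 * W))) := mul_le_mul_of_nonneg_left h2 hb
      _ = _ := by ring
  · rw [if_neg h1, mul_zero]
    split_ifs <;> positivity

/-- the limit of one term -/
theorem tm_limit (hθ : Sl θ) {W : ℝ} (o : ℕ → ℕ) (ho : ∀ k, |(o k : ℝ) - k * θ| ≤ W) (i p : ℕ) (hp : p ≤ i) :
    Tendsto (fun k : ℕ => k * Real.sqrt k * bs θ (k - i) (o k) (i - p) -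
      c0 θ * Rf θ (((o k : ℝ) - k * θ) + ((p : ℝ) - i * (1 - θ)))) atTop (𝓝 0) := by
  have hW0 : 0 ≤ W := (abs_nonneg _).trans (ho 0)
  have hθ0 := hθ.pos
  have hθ1 := hθ.lt
  -- the sequence
  have h1 := local_surv hθ (W + 2 * i) (fun m => o (m + i) - (i - p)) (fun m => by
    have h2 := abs_le.1 (ho (m + i))
    push_cast at h2
    have h3 : (0 : ℝ) ≤ i * θ := by positivity
    have h4 : (i : ℝ) * θ ≤ i := mul_le_of_le_one_right (Nat.cast_nonneg i) hθ1.le
    rw [abs_le]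
    rcases Nat.lt_or_ge (o (m + i)) (i - p) with h5 | h5
    · rw [show o (m + i) - (i - p) = 0 by omega, Nat.cast_zero]
      have h6 : (o (m + i) : ℝ) ≤ i := by exact_mod_cast (by omega : o (m + i) ≤ i)
      have h7 : (0 : ℝ) ≤ m * θ := by positivity
      constructor <;> linarith
    · rw [Nat.cast_sub h5, Nat.cast_sub hp]
      have h6 : (p : ℝ) ≤ i := by exact_mod_cast hp
      have h7 : (0 : ℝ) ≤ p := Nat.cast_nonneg p
      constructor <;> linarith)
  have h2 : Tendsto (fun k : ℕ => k - i) atTop atTop := tendsto_sub_atTop_nat i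
  have h3 := h1.comp h2
  -- the factor
  have h4 : Tendsto (fun k : ℕ => (k * Real.sqrt k) / (((k - i : ℕ) : ℝ) * Real.sqrt ((k - i : ℕ) : ℝ)))
      atTop (𝓝 1) := by
    have h5 : Tendsto (fun k : ℕ => (k : ℝ) / ((k - i : ℕ) : ℝ)) atTop (𝓝 1) := by
      have h6 : Tendsto (fun k : ℕ => 1 + (i : ℝ) / ((k - i : ℕ) : ℝ)) atTop (𝓝 (1 + 0)) :=
        ((tendsto_natCast_atTop_atTop.comp h2).const_div_atTop _).const_add 1
      rw [add_zero] at h6
      refine h6.congr' ?_
      filter_upwards [eventually_gt_atTop i] with k hk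
      have hkj' : (0 : ℝ) < ((k - i : ℕ) : ℝ) := by exact_mod_cast (by omega : 0 < k - i)
      have e0 : (k : ℝ) = ((k - i : ℕ) : ℝ) + i := by rw [Nat.cast_sub hk.le]; ring
      rw [eq_div_iff hkj'.ne', add_mul, one_mul, div_mul_cancel₀ _ hkj'.ne', ← e0]
    have h7 := (Real.continuous_sqrt.tendsto 1).comp h5
    rw [Real.sqrt_one] at h7
    have h8 := h5.mul h7
    rw [one_mul] at h8
    refine h8.congr fun k => ?_
    simp only [Function.comp]
    rw [Real.sqrt_div (Nat.cast_nonneg k), div_mul_div_comm]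
  -- boundedness
  obtain ⟨C, hC, hRC⟩ := Rf_le hθ (s := 1 / 2) (by norm_num) (by norm_num)
  have hb : ∀ k, |c0 θ * Rf θ (((o k : ℝ) - k * θ) + ((p : ℝ) - i * (1 - θ)))| ≤
      c0 θ * (C * (1 / 2 : ℝ) ^ (-(W + i))) := by
    intro k
    have hc0 := c0_pos hθ
    have hR := Rf_nonneg hθ (((o k : ℝ) - k * θ) + ((p : ℝ) - i * (1 - θ)))
    rw [abs_of_nonneg (by positivity)]
    apply mul_le_mul_of_nonneg_left _ hc0.le
    refine (hRC _).trans (mul_le_mul_of_nonneg_left ?_ hC.le)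
    apply Real.rpow_le_rpow_of_exponent_ge (by norm_num) (by norm_num)
    have h6 := (abs_le.1 (ho k)).2
    have h7 : (p : ℝ) ≤ i := by exact_mod_cast hp
    have h8 : (0 : ℝ) ≤ i * (1 - θ) := mul_nonneg (Nat.cast_nonneg _) (by linarith)
    linarith
  -- combine: `x k * y k` with `x → 1`, `y - z → 0`, `z` bounded
  have h5 : Tendsto (fun k : ℕ => (k * Real.sqrt k) / (((k - i : ℕ) : ℝ) * Real.sqrt ((k - i : ℕ) : ℝ)) *
      (((k - i : ℕ) : ℝ) * Real.sqrt ((k - i : ℕ) : ℝ) * b θ (k - i) (o (k - i + i) - (i - p)) -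
        c0 θ * Rf θ (((o (k - i + i) - (i - p) : ℕ) : ℝ) - ((k - i : ℕ) : ℝ) * θ))) atTop (𝓝 0) := by
    have := h4.mul h3
    rw [mul_zero] at this
    exact this
  have h6 : Tendsto (fun k : ℕ => ((k * Real.sqrt k) / (((k - i : ℕ) : ℝ) * Real.sqrt ((k - i : ℕ) : ℝ)) - 1) *
      (c0 θ * Rf θ (((o k : ℝ) - k * θ) + ((p : ℝ) - i * (1 - θ))))) atTop (𝓝 0) := by
    have h7 := h4.sub_const 1
    rw [sub_self] at h7
    have h8 := h7.abs
    rw [abs_zero] at h8
    have h9 := h8.mul_const (c0 θ * (C * (1 / 2 : ℝ) ^ (-(W + i))))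
    rw [zero_mul] at h9
    apply squeeze_zero_norm _ h9
    intro k
    rw [norm_mul, Real.norm_eq_abs, Real.norm_eq_abs]
    exact mul_le_mul_of_nonneg_left (hb k) (abs_nonneg _)
  have h7 := h5.add h6
  rw [add_zero] at h7
  refine h7.congr' ?_
  -- eventually `o k ≥ i`
  have ht : ∀ᶠ k : ℕ in atTop, i ≤ o k := by
    obtain ⟨N, hN⟩ := exists_nat_gt ((i + W) / θ)
    filter_upwards [eventually_ge_atTop N] with k hk
    have h2 : (N : ℝ) ≤ k := by exact_mod_cast hk
    have h3 := (div_lt_iff₀ hθ0).1 (hN.trans_le h2)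
    have h4 := (abs_le.1 (ho k)).1
    have : (i : ℝ) ≤ o k := by linarith
    exact_mod_cast this
  filter_upwards [ht, eventually_gt_atTop i] with k hk1 hk2
  have hkj' : (0 : ℝ) < ((k - i : ℕ) : ℝ) := by exact_mod_cast (by omega : 0 < k - i)
  have hsq : 0 < Real.sqrt ((k - i : ℕ) : ℝ) := Real.sqrt_pos.2 hkj'
  rw [Nat.sub_add_cancel hk2.le]
  have e1 : (((o k - (i - p) : ℕ) : ℝ) - ((k - i : ℕ) : ℝ) * θ) =
      ((o k : ℝ) - k * θ) + ((p : ℝ) - i * (1 - θ)) := by
    rw [Nat.cast_sub (show i - p ≤ o k by omega), Nat.cast_sub hp, Nat.cast_sub hk2.le]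
    ring
  rw [e1]
  unfold bs
  rw [if_pos (show i - p ≤ o k by omega)]
  field_simp
  ring

/-- the first half of the decomposition -/
theorem partA (hθ : Sl θ) (c : ℕ) {W : ℝ} (o : ℕ → ℕ) (U : ℕ → ℝ) (hU : ∀ k, U k ≤ W)
    (ho : ∀ k, |(o k : ℝ) - k * θ| ≤ W) :
    Tendsto (fun k : ℕ => k * Real.sqrt k *
      ∑ i ∈ (range (k + 1)).filter (fun i => 2 * i + c ≤ k), tm θ (U k) k (o k) i -
      c0 θ * ∑' i, tl θ (U k) ((o k : ℝ) - k * θ) i) atTop (𝓝 0) := by
  obtain ⟨C, hC, hb⟩ := tm_le hθ W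
  have hc0 := c0_pos hθ
  have hRW := Rf_nonneg hθ (2 * W)
  set δ : ℕ → ℝ := fun k => (o k : ℝ) - k * θ with hδ
  have hδW : ∀ k, δ k ≤ W := fun k => (le_abs_self _).trans (ho k)
  set f : ℕ → ℕ → ℝ := fun k i => if 2 * i + c ≤ k then
    k * Real.sqrt k * tm θ (U k) k (o k) i - c0 θ * tl θ (U k) (δ k) i else 0 with hf
  have hfl : ∀ i : ℕ, Tendsto (fun k => f k i) atTop (𝓝 0) := by
    intro i
    have h1 : ∀ p ∈ range (i + 1), Tendsto (fun k : ℕ => if (p : ℝ) - i * (1 - θ) ≤ U k then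
        b (1 - θ) i p * (k * Real.sqrt k * bs θ (k - i) (o k) (i - p) -
          c0 θ * Rf θ (δ k + ((p : ℝ) - i * (1 - θ)))) else 0) atTop (𝓝 0) := by
      intro p hp
      rw [mem_range] at hp
      have h2 := (tm_limit hθ o ho i p (by omega)).const_mul (b (1 - θ) i p)
      rw [mul_zero] at h2
      have h3 := h2.abs
      rw [abs_zero] at h3
      apply squeeze_zero_norm _ h3
      intro k
      split_ifs
      · exact le_rfl
      · rw [norm_zero]; exact abs_nonneg _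
    have h8 := tendsto_finsetSum (range (i + 1)) h1
    rw [sum_const_zero] at h8
    refine h8.congr' ?_
    filter_upwards [eventually_ge_atTop (2 * i + c)] with k hk
    simp only [hf]
    rw [if_pos hk]
    unfold tm tl
    rw [mul_sum, mul_sum, ← sum_sub_distrib]
    apply sum_congr rfl
    intro p _
    split_ifs <;> ring
  have hdom := tendsto_tsum_of_dominated_convergence (𝓕 := atTop) (f := f) (g := fun _ => (0 : ℝ))
    (bound := fun i => (C + c0 θ * Rf θ (2 * W)) * Rl (1 - θ) W i) ((Rl_summable hθ.flip W).mul_left _) hfl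
    (Eventually.of_forall fun k i => by
      simp only [hf]
      have hd := Rl_nonneg hθ.flip W i
      split_ifs with hki
      · have h1 := hb (U k) k (o k) i (hU k) (ho k) (by omega)
        have h2 : 0 ≤ k * Real.sqrt k * tm θ (U k) k (o k) i :=
          mul_nonneg (by positivity) (tm_nonneg hθ _ _ _ _)
        have h3 := tl_le hθ (hU k) (hδW k) i
        have h4 := tl_nonneg hθ (U k) (δ k) i
        rw [Real.norm_eq_abs]
        refine (abs_sub _ _).trans ?_
        rw [abs_of_nonneg h2, abs_of_nonneg (by positivity)]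
        have := mul_le_mul_of_nonneg_left h3 hc0.le
        linarith
      · rw [norm_zero]; positivity)
  rw [tsum_zero] at hdom
  have htail : Tendsto (fun k : ℕ => c0 θ * ∑' i : ℕ, (if 2 * i + c ≤ k then 0 else tl θ (U k) (δ k) i))
      atTop (𝓝 0) := by
    have h1 := tendsto_tsum_of_dominated_convergence (𝓕 := atTop)
      (f := fun (k : ℕ) (i : ℕ) => if 2 * i + c ≤ k then (0 : ℝ) else tl θ (U k) (δ k) i)
      (g := fun _ => (0 : ℝ)) (bound := fun i => Rf θ (2 * W) * Rl (1 - θ) W i)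
      ((Rl_summable hθ.flip W).mul_left _)
      (fun i => by
        apply tendsto_const_nhds.congr'
        filter_upwards [eventually_ge_atTop (2 * i + c)] with k hk
        rw [if_pos hk])
      (Eventually.of_forall fun k i => by
        split_ifs with hki
        · rw [norm_zero]; exact mul_nonneg hRW (Rl_nonneg hθ.flip _ _)
        · rw [Real.norm_eq_abs, abs_of_nonneg (tl_nonneg hθ _ _ _)]
          exact tl_le hθ (hU k) (hδW k) i)
    rw [tsum_zero] at h1
    have := h1.const_mul (c0 θ)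
    rwa [mul_zero] at this
  have hall := hdom.sub htail
  rw [sub_zero] at hall
  refine hall.congr fun k => ?_
  have hfs : ∑' i, f k i = ∑ i ∈ (range (k + 1)).filter (fun i => 2 * i + c ≤ k),
      (k * Real.sqrt k * tm θ (U k) k (o k) i - c0 θ * tl θ (U k) (δ k) i) := by
    rw [tsum_eq_sum (s := (range (k + 1)).filter (fun i => 2 * i + c ≤ k))]
    · apply sum_congr rfl
      intro i hi
      rw [mem_filter] at hi
      simp only [hf]
      rw [if_pos hi.2]
    · intro i hi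
      rw [mem_filter, mem_range] at hi
      simp only [hf]
      rw [if_neg (fun h => hi ⟨by omega, h⟩)]
  have hts := tl_summable hθ (U k) (δ k)
  have hws : ∑' i, tl θ (U k) (δ k) i = ∑ i ∈ (range (k + 1)).filter (fun i => 2 * i + c ≤ k),
      tl θ (U k) (δ k) i + ∑' i : ℕ, (if 2 * i + c ≤ k then 0 else tl θ (U k) (δ k) i) := by
    have h1 : ∑ i ∈ (range (k + 1)).filter (fun i => 2 * i + c ≤ k), tl θ (U k) (δ k) i =
        ∑' i : ℕ, (if 2 * i + c ≤ k then tl θ (U k) (δ k) i else 0) := by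
      rw [tsum_eq_sum (s := (range (k + 1)).filter (fun i => 2 * i + c ≤ k))]
      · apply sum_congr rfl
        intro i hi
        rw [mem_filter] at hi
        rw [if_pos hi.2]
      · intro i hi
        rw [mem_filter, mem_range] at hi
        rw [if_neg (fun h => hi ⟨by omega, h⟩)]
    have hsum1 : Summable fun i : ℕ => (if 2 * i + c ≤ k then tl θ (U k) (δ k) i else 0) := by
      apply Summable.of_norm_bounded hts
      intro i
      have := tl_nonneg hθ (U k) (δ k) i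
      split_ifs
      · rw [Real.norm_eq_abs, abs_of_nonneg this]
      · rw [norm_zero]; exact this
    have hsum2 : Summable fun i : ℕ => (if 2 * i + c ≤ k then 0 else tl θ (U k) (δ k) i) := by
      apply Summable.of_norm_bounded hts
      intro i
      have := tl_nonneg hθ (U k) (δ k) i
      split_ifs
      · rw [norm_zero]; exact this
      · rw [Real.norm_eq_abs, abs_of_nonneg this]
    rw [h1, ← hsum1.tsum_add hsum2]
    apply tsum_congr
    intro i
    split_ifs <;> ring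
  have hws' : ∑' i, tl θ (U k) ((o k : ℝ) - k * θ) i = ∑' i, tl θ (U k) (δ k) i := rfl
  rw [hws', hws, hfs, sum_sub_distrib, ← mul_sum, ← mul_sum]
  ring

end Pool.Agent.H622.Gs
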