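import Mathlib
import Pool.Agent.H622.Gs5

set_option autoImplicit false

/-! Words above a line of irrational slope, part 6: the local limit theorem for the walks which start at a
positive height, in the product form. -/

namespace Pool.Agent.H622.Gs

open Finset Filter Topology
open scoped Classical
open Pool.Agent.H622.St (pb pb_nonneg local_limit Rec sum_inv_sqrt)

variable {θ : ℝ}

theorem b_flip (j p : ℕ) : b (1 - (1 - θ)) j p = b θ j p := by rw [sub_sub_cancel]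

theorem c0_flip : c0 (1 - θ) = c0 θ := by
  unfold c0
  rw [sub_sub_cancel, mul_comm (1 - θ) θ]

/-- the symmetric form of the terms -/
theorem tm_sym {U : ℝ} {k o i j : ℕ} (hij : i + j = k) : tm θ U k o i =
    ∑ p ∈ range (i + 1), ∑ r ∈ range (j + 1), if (i - p) + r = o ∧ (p : ℝ) - i * (1 - θ) ≤ U then
      b (1 - θ) i p * b θ j r else 0 := by
  unfold tm
  apply sum_congr rfl
  intro p hp
  rw [mem_range] at hp
  by_cases h : (p : ℝ) - i * (1 - θ) ≤ U
  · rw [if_pos h]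
    unfold bs
    rw [show k - i = j by omega]
    split_ifs with h1
    · rcases Nat.lt_or_ge j (o - (i - p)) with h2 | h2
      · rw [b_zero h2, mul_zero]
        symm
        apply sum_eq_zero
        intro r hr
        rw [mem_range] at hr
        rw [if_neg]
        rintro ⟨h3, -⟩
        omega
      · rw [sum_eq_single (o - (i - p))]
        · rw [if_pos ⟨by omega, h⟩]
        · intro r _ hr
          rw [if_neg]
          rintro ⟨h3, -⟩
          omega
        · intro h3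
          rw [mem_range] at h3
          omega
    · rw [mul_zero]
      symm
      apply sum_eq_zero
      intro r _
      rw [if_neg]
      rintro ⟨h3, -⟩
      omega
  · rw [if_neg h]
    symm
    apply sum_eq_zero
    intro r _
    rw [if_neg]
    exact fun h2 => h h2.2

theorem tm_flip {U H : ℝ} {k o i j : ℕ} (hij : i + j = k) (ho : o ≤ k) (hUH : H - U = o - k * θ) :
    tm θ U k o i = tm (1 - θ) H k (k - o) j := by
  rw [tm_sym hij, tm_sym (show j + i = k by omega), sum_comm]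
  apply sum_congr rfl
  intro r hr
  rw [mem_range] at hr
  apply sum_congr rfl
  intro p hp
  rw [mem_range] at hp
  rw [b_flip]
  have h1 : ((i - p) + r = o) ↔ ((j - r) + p = k - o) := by omega
  by_cases h2 : (i - p) + r = o
  · have h3 : ((p : ℝ) - i * (1 - θ) ≤ U) ↔ ((r : ℝ) - j * (1 - (1 - θ)) ≤ H) := by
      have e1 : (i : ℝ) - p + r = o := by
        have : (((i - p) + r : ℕ) : ℝ) = o := by rw [h2]
        rw [Nat.cast_add, Nat.cast_sub (by omega)] at this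
        exact this
      have e2 : (i : ℝ) + j = k := by exact_mod_cast hij
      have e3 : (r : ℝ) - j * θ - (p - i * (1 - θ)) = H - U := by
        rw [hUH, ← e1, ← e2]; ring
      constructor <;> intro h <;> linarith
    rw [mul_comm (b θ j r)]
    by_cases h4 : (p : ℝ) - i * (1 - θ) ≤ U
    · rw [if_pos ⟨h2, h4⟩, if_pos ⟨h1.1 h2, h3.1 h4⟩]
    · rw [if_neg (fun h => h4 h.2), if_neg (fun h => h4 (h3.2 h.2))]
  · rw [if_neg (fun h => h2 h.1), if_neg (fun h => h2 (h1.2 h.1))]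

/-- the decomposition in two halves -/
theorem bu_split (hθ : Sl θ) {U H : ℝ} (hU : 0 ≤ U) {k o : ℕ} (ho : o ≤ k) (hUH : H - U = o - k * θ) :
    bu θ U k o = ∑ i ∈ (range (k + 1)).filter (fun i => 2 * i + 0 ≤ k), tm θ U k o i +
      ∑ j ∈ (range (k + 1)).filter (fun j => 2 * j + 1 ≤ k), tm (1 - θ) H k (k - o) j := by
  rw [bu_eq hθ hU]
  have h0 : ∑ i ∈ range (k + 1), ∑ p ∈ range (i + 1),
      (if (p : ℝ) - i * (1 - θ) ≤ U then b (1 - θ) i p * bs θ (k - i) o (i - p) else 0) =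
      ∑ i ∈ range (k + 1), tm θ U k o i := rfl
  rw [h0, ← sum_filter_add_sum_filter_not (range (k + 1)) (fun i => 2 * i + 0 ≤ k)]
  congr 1
  apply sum_bij' (i := fun i _ => k - i) (j := fun j _ => k - j)
  · intro i hi
    rw [mem_filter, mem_range] at hi ⊢
    omega
  · intro i hi
    rw [mem_filter, mem_range] at hi ⊢
    omega
  · intro i hi
    rw [mem_filter, mem_range] at hi
    omega
  · intro i hi
    rw [mem_filter, mem_range] at hi
    omega
  · intro i hi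
    rw [mem_filter, mem_range] at hi
    exact tm_flip (by omega) ho hUH

/-- the product terms -/
noncomputable def pt (θ U H : ℝ) (P : ℝ → ℝ → Prop) (x : ℕ × ℕ) : ℝ :=
  ∑ p ∈ range (x.1 + 1), ∑ r ∈ range (x.2 + 1),
    if P ((p : ℝ) - x.1 * (1 - θ)) ((r : ℝ) - x.2 * θ) then b (1 - θ) x.1 p * b θ x.2 r else 0

theorem pt_nonneg (hθ : Sl θ) (U H : ℝ) (P : ℝ → ℝ → Prop) (x : ℕ × ℕ) : 0 ≤ pt θ U H P x := by
  unfold pt
  apply sum_nonneg
  intro p _
  apply sum_nonneg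
  intro r _
  split_ifs
  · exact mul_nonneg (b_nonneg hθ.flip _ _) (b_nonneg hθ _ _)
  · exact le_rfl

theorem pt_le (hθ : Sl θ) {U H W W' : ℝ} {P : ℝ → ℝ → Prop} (hP : ∀ y z, P y z → y ≤ W ∧ z ≤ W')
    (x : ℕ × ℕ) : pt θ U H P x ≤ Rl (1 - θ) W x.1 * Rl θ W' x.2 := by
  unfold pt Rl
  rw [sum_mul_sum]
  apply sum_le_sum
  intro p _
  apply sum_le_sum
  intro r _
  have h1 := b_nonneg hθ.flip x.1 p
  have h2 := b_nonneg hθ x.2 r
  by_cases h : P ((p : ℝ) - x.1 * (1 - θ)) ((r : ℝ) - x.2 * θ)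
  · rw [if_pos h, if_pos (hP _ _ h).1, if_pos (hP _ _ h).2]
  · rw [if_neg h]
    split_ifs <;> positivity

theorem pt_bound_summable (hθ : Sl θ) (W W' : ℝ) :
    Summable fun x : ℕ × ℕ => Rl (1 - θ) W x.1 * Rl θ W' x.2 :=
  (Rl_summable hθ.flip W).mul_of_nonneg (Rl_summable hθ W') (Rl_nonneg hθ.flip W) (Rl_nonneg hθ W')

theorem pt_summable (hθ : Sl θ) {U H W W' : ℝ} {P : ℝ → ℝ → Prop} (hP : ∀ y z, P y z → y ≤ W ∧ z ≤ W') :
    Summable (pt θ U H P) :=
  Summable.of_nonneg_of_le (pt_nonneg hθ U H P) (pt_le hθ hP) (pt_bound_summable hθ W W')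

theorem tsum_pt_all (hθ : Sl θ) (U H : ℝ) : ∑' x : ℕ × ℕ, pt θ U H (fun y z => y ≤ U ∧ z ≤ H) x =
    Vf (1 - θ) U * Vf θ H := by
  unfold Vf
  rw [(Rl_summable hθ.flip U).tsum_mul_tsum (Rl_summable hθ H) (pt_bound_summable hθ U H)]
  apply tsum_congr
  intro x
  unfold pt Rl
  rw [sum_mul_sum]
  apply sum_congr rfl
  intro p _
  apply sum_congr rfl
  intro r _
  by_cases h1 : (p : ℝ) - x.1 * (1 - θ) ≤ U
  · by_cases h2 : (r : ℝ) - x.2 * θ ≤ H
    · rw [if_pos ⟨h1, h2⟩, if_pos h1, if_pos h2]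
    · rw [if_neg (fun h => h2 h.2), if_neg h2, mul_zero]
  · rw [if_neg (fun h => h1 h.1), if_neg h1, zero_mul]

theorem tsum_tl (hθ : Sl θ) (U H δ : ℝ) : ∑' i, tl θ U δ i =
    ∑' x : ℕ × ℕ, pt θ U H (fun y z => y ≤ U ∧ z < δ + y) x := by
  have hP : ∀ y z : ℝ, (y ≤ U ∧ z < δ + y) → y ≤ U ∧ z ≤ δ + U := fun y z h => ⟨h.1, by linarith [h.1, h.2]⟩
  rw [(pt_summable hθ hP).tsum_prod]
  apply tsum_congr
  intro i
  unfold tl Rf
  have h1 : ∀ p : ℕ, (if (p : ℝ) - i * (1 - θ) ≤ U then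
      b (1 - θ) i p * ∑' j, Rt θ (δ + ((p : ℝ) - i * (1 - θ))) j else 0) =
      ∑' j, (if (p : ℝ) - i * (1 - θ) ≤ U then b (1 - θ) i p * Rt θ (δ + ((p : ℝ) - i * (1 - θ))) j else 0) := by
    intro p
    by_cases h : (p : ℝ) - i * (1 - θ) ≤ U
    · simp only [if_pos h]
      rw [tsum_mul_left]
    · simp only [if_neg h]
      rw [tsum_zero]
  simp only [h1]
  rw [← Summable.tsum_finsetSum]
  · apply tsum_congr
    intro j
    unfold pt
    apply sum_congr rfl
    intro p _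
    by_cases h : (p : ℝ) - i * (1 - θ) ≤ U
    · rw [if_pos h]
      unfold Rt
      rw [mul_sum]
      apply sum_congr rfl
      intro r _
      by_cases h2 : (r : ℝ) - j * θ < δ + ((p : ℝ) - i * (1 - θ))
      · rw [if_pos h2, if_pos ⟨h, h2⟩]
      · rw [if_neg h2, if_neg (fun h3 => h2 h3.2), mul_zero]
    · rw [if_neg h]
      symm
      apply sum_eq_zero
      intro r _
      rw [if_neg (fun h3 => h h3.1)]
  · intro p _
    by_cases h : (p : ℝ) - i * (1 - θ) ≤ U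
    · simp only [if_pos h]
      exact (Rt_summable hθ _).mul_left _
    · simp only [if_neg h]
      exact summable_zero

theorem tsum_tl' (hθ : Sl θ) (U H δ : ℝ) : ∑' j, tl (1 - θ) H (-δ) j =
    ∑' x : ℕ × ℕ, pt θ U H (fun y z => z ≤ H ∧ y < -δ + z) x := by
  rw [tsum_tl hθ.flip H U (-δ), ← (Equiv.prodComm ℕ ℕ).tsum_eq]
  apply tsum_congr
  rintro ⟨i, j⟩
  unfold pt
  simp only [Equiv.prodComm_apply, Prod.swap_prod_mk]
  rw [sum_comm]
  apply sum_congr rfl
  intro p _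
  apply sum_congr rfl
  intro r _
  rw [b_flip, sub_sub_cancel, mul_comm (b θ j r)]
  all_goals congr

/-- the diagonal -/
theorem product_identity (hθ : Sl θ) {U H δ : ℝ} (hUH : H - U = δ) :
    ∑' i, tl θ U δ i + ∑' j, tl (1 - θ) H (-δ) j +
      ∑' x : ℕ × ℕ, pt θ U H (fun y z => y ≤ U ∧ z ≤ H ∧ z - y = δ) x = Vf (1 - θ) U * Vf θ H := by
  rw [tsum_tl hθ U H δ, tsum_tl' hθ U H δ, ← tsum_pt_all hθ U H]
  have hP1 : ∀ y z : ℝ, (y ≤ U ∧ z < δ + y) → y ≤ U ∧ z ≤ H := fun y z h => ⟨h.1, by linarith [h.1, h.2]⟩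
  have hP2 : ∀ y z : ℝ, (z ≤ H ∧ y < -δ + z) → y ≤ U ∧ z ≤ H := fun y z h => ⟨by linarith [h.1, h.2], h.1⟩
  have hP3 : ∀ y z : ℝ, (y ≤ U ∧ z ≤ H ∧ z - y = δ) → y ≤ U ∧ z ≤ H := fun y z h => ⟨h.1, h.2.1⟩
  rw [← (pt_summable hθ hP1).tsum_add (pt_summable hθ hP2),
    ← ((pt_summable hθ hP1).add (pt_summable hθ hP2)).tsum_add (pt_summable hθ hP3)]
  apply tsum_congr
  intro x
  unfold pt
  rw [← sum_add_distrib, ← sum_add_distrib]
  apply sum_congr rfl
  intro p _
  rw [← sum_add_distrib, ← sum_add_distrib]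
  apply sum_congr rfl
  intro r _
  set y := (p : ℝ) - x.1 * (1 - θ)
  set z := (r : ℝ) - x.2 * θ
  rcases lt_trichotomy (z - y) δ with h | h | h
  · have e2 : ¬ (z ≤ H ∧ y < -δ + z) := fun h2 => by linarith [h2.2]
    have e3 : ¬ (y ≤ U ∧ z ≤ H ∧ z - y = δ) := fun h2 => by linarith [h2.2.2]
    rw [if_neg e2, if_neg e3, add_zero, add_zero]
    by_cases h4 : y ≤ U
    · rw [if_pos ⟨h4, by linarith⟩, if_pos ⟨h4, by linarith⟩]
    · rw [if_neg (fun h5 => h4 h5.1), if_neg (fun h5 => h4 h5.1)]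
  · have e1 : ¬ (y ≤ U ∧ z < δ + y) := fun h2 => by linarith [h2.2]
    have e2 : ¬ (z ≤ H ∧ y < -δ + z) := fun h2 => by linarith [h2.2]
    rw [if_neg e1, if_neg e2, zero_add, zero_add]
    by_cases h4 : y ≤ U ∧ z ≤ H
    · rw [if_pos ⟨h4.1, h4.2, h⟩, if_pos h4]
    · rw [if_neg (fun h5 => h4 ⟨h5.1, h5.2.1⟩), if_neg h4]
  · have e1 : ¬ (y ≤ U ∧ z < δ + y) := fun h2 => by linarith [h2.2]
    have e3 : ¬ (y ≤ U ∧ z ≤ H ∧ z - y = δ) := fun h2 => by linarith [h2.2.2]
    rw [if_neg e1, if_neg e3, zero_add, add_zero]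
    by_cases h4 : z ≤ H
    · rw [if_pos ⟨h4, by linarith⟩, if_pos ⟨by linarith, h4⟩]
    · rw [if_neg (fun h5 => h4 h5.1), if_neg (fun h5 => h4 h5.2)]

/-- THE LOCAL LIMIT THEOREM FOR WALKS FROM A POSITIVE HEIGHT -/
theorem local_u (hθ : Sl θ) {W : ℝ} (o : ℕ → ℕ) (U H : ℕ → ℝ) (hU0 : ∀ k, 0 ≤ U k) (hU : ∀ k, U k ≤ W)
    (hH : ∀ k, H k ≤ W) (ho : ∀ k, |(o k : ℝ) - k * θ| ≤ W) (hUH : ∀ k, H k - U k = (o k : ℝ) - k * θ) :
    Tendsto (fun k : ℕ => k * Real.sqrt k * bu θ (U k) k (o k) -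
      c0 θ * (Vf (1 - θ) (U k) * Vf θ (H k))) atTop (𝓝 0) := by
  have hθ0 := hθ.pos
  have hθ1 := hθ.lt
  have hA := partA hθ 0 o U hU ho
  have hB := partA hθ.flip 1 (W := W) (fun k => k - o k) H hH (fun k => by
    have h1 := abs_le.1 (ho k)
    rw [abs_le]
    rcases Nat.lt_or_ge k (o k) with h | h
    · rw [show k - o k = 0 by omega, Nat.cast_zero]
      have h2 : (k : ℝ) ≤ o k := by exact_mod_cast h.le
      have h3 : (0 : ℝ) ≤ k * (1 - θ) := mul_nonneg (Nat.cast_nonneg _) (by linarith)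
      constructor <;> linarith
    · rw [Nat.cast_sub h]
      constructor <;> linarith)
  -- the diagonal tends to zero
  set δ : ℕ → ℝ := fun k => (o k : ℝ) - k * θ with hδ
  have hD : Tendsto (fun k : ℕ => ∑' x : ℕ × ℕ,
      pt θ (U k) (H k) (fun y z => y ≤ U k ∧ z ≤ H k ∧ z - y = δ k) x) atTop (𝓝 0) := by
    have h1 := tendsto_tsum_of_dominated_convergence (𝓕 := atTop)
      (f := fun (k : ℕ) (x : ℕ × ℕ) => pt θ (U k) (H k) (fun y z => y ≤ U k ∧ z ≤ H k ∧ z - y = δ k) x)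
      (g := fun _ => (0 : ℝ)) (pt_bound_summable hθ W W)
      (fun x => by
        apply tendsto_const_nhds.congr'
        filter_upwards [eventually_gt_atTop (x.1 + x.2)] with k hk
        symm
        unfold pt
        apply sum_eq_zero
        intro p _
        apply sum_eq_zero
        intro r _
        rw [if_neg]
        rintro ⟨-, -, h3⟩
        apply hθ.irr (k - (x.1 + x.2)) (by omega) ((o k : ℤ) - r + p - x.1)
        rw [Nat.cast_sub hk.le]
        push_cast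
        simp only [hδ] at h3
        linarith)
      (Eventually.of_forall fun k x => by
        rw [Real.norm_eq_abs, abs_of_nonneg (pt_nonneg hθ _ _ _ _)]
        exact pt_le hθ (fun y z h => ⟨h.1.trans (hU k), h.2.1.trans (hH k)⟩) x)
    rwa [tsum_zero] at h1
  have hD2 := hD.const_mul (c0 θ)
  rw [mul_zero] at hD2
  have hall := (hA.add hB).sub hD2
  rw [add_zero, sub_zero] at hall
  refine hall.congr' ?_
  -- eventually `o k ≤ k`
  have ht : ∀ᶠ k : ℕ in atTop, o k ≤ k := by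
    have h1θ : 0 < 1 - θ := by linarith
    obtain ⟨N, hN⟩ := exists_nat_gt (W / (1 - θ))
    filter_upwards [eventually_ge_atTop N] with k hk
    have h2 : (N : ℝ) ≤ k := by exact_mod_cast hk
    have h3 := (div_lt_iff₀ h1θ).1 (hN.trans_le h2)
    have h4 := (abs_le.1 (ho k)).2
    have : (o k : ℝ) ≤ k := by linarith
    exact_mod_cast this
  filter_upwards [ht] with k hk
  have hUHk := hUH k
  rw [bu_split hθ (hU0 k) hk hUHk]
  have e1 : (((k - o k : ℕ) : ℝ) - k * (1 - θ)) = -δ k := by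
    rw [Nat.cast_sub hk]
    simp only [hδ]
    ring
  rw [e1, c0_flip]
  have hpi := product_identity hθ (U := U k) (H := H k) (δ := δ k) hUHk
  rw [← hpi]
  ring

end Pool.Agent.H622.Gs
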