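import Mathlib
import Pool.Agent.H622.Gs6

set_option autoImplicit false

/-! Words above a line of irrational slope, part 7: weighted numbers of the words which start at the height `u`. -/

namespace Pool.Agent.H622.Gs

open Finset Filter Topology
open scoped Classical
open Pool.Agent.H622.St (pb pb_nonneg local_limit Rec sum_inv_sqrt)

variable {θ : ℝ}

theorem sqrt_half {k m : ℕ} (h : k ≤ 2 * m) : (k : ℝ) * Real.sqrt k ≤ 3 * ((m : ℝ) * Real.sqrt m) := by
  have e0 : (k : ℝ) ≤ 2 * (m : ℝ) := by exact_mod_cast h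
  have e1 : Real.sqrt k ≤ 3 / 2 * Real.sqrt (m : ℝ) := by
    have h3 : (k : ℝ) ≤ (3 / 2 * Real.sqrt (m : ℝ)) ^ 2 := by
      rw [mul_pow, Real.sq_sqrt (Nat.cast_nonneg _)]
      have : (0 : ℝ) ≤ (m : ℝ) := Nat.cast_nonneg _
      linarith
    calc Real.sqrt k ≤ Real.sqrt ((3 / 2 * Real.sqrt (m : ℝ)) ^ 2) := Real.sqrt_le_sqrt h3
      _ = _ := Real.sqrt_sq (by positivity)
  calc (k : ℝ) * Real.sqrt k ≤ (2 * (m : ℝ)) * (3 / 2 * Real.sqrt (m : ℝ)) :=
        mul_le_mul e0 e1 (Real.sqrt_nonneg _) (by positivity)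
    _ = _ := by ring

theorem conv_bound {x y : ℕ → ℝ} (hx0 : ∀ i, 0 ≤ x i) (hy0 : ∀ i, 0 ≤ y i) (hxs : Summable x) (hys : Summable y)
    {Bx By : ℝ} (hx : ∀ i : ℕ, i * Real.sqrt i * x i ≤ Bx) (hy : ∀ i : ℕ, i * Real.sqrt i * y i ≤ By) (k : ℕ) :
    k * Real.sqrt k * ∑ i ∈ range (k + 1), x i * y (k - i) ≤ 3 * By * ∑' i, x i + 3 * Bx * ∑' i, y i := by
  have hBx : 0 ≤ Bx := by simpa using hx 0
  have hBy : 0 ≤ By := by simpa using hy 0
  have h1 : ∀ i ∈ range (k + 1), k * Real.sqrt k * (x i * y (k - i)) ≤ 3 * By * x i + 3 * Bx * y (k - i) := by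
    intro i hi
    rw [mem_range] at hi
    have a1 := hx0 i
    have a2 := hy0 (k - i)
    have a3 : 0 ≤ 3 * By * x i := by positivity
    have a4 : 0 ≤ 3 * Bx * y (k - i) := by positivity
    rcases Nat.lt_or_ge k (2 * i) with h | h
    · have h2 := sqrt_half h.le
      have h3 := mul_le_mul_of_nonneg_right h2 (mul_nonneg a1 a2)
      have h4 := mul_le_mul_of_nonneg_right (hx i) a2
      nlinarith
    · have h2 := sqrt_half (show k ≤ 2 * (k - i) by omega)
      have h3 := mul_le_mul_of_nonneg_right h2 (mul_nonneg a1 a2)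
      have h4 := mul_le_mul_of_nonneg_right (hy (k - i)) a1
      nlinarith
  rw [mul_sum]
  refine (sum_le_sum h1).trans ?_
  rw [sum_add_distrib, ← mul_sum, ← mul_sum]
  have h2 : ∑ i ∈ range (k + 1), x i ≤ ∑' i, x i := hxs.sum_le_tsum _ fun i _ => hx0 i
  have h3 : ∑ i ∈ range (k + 1), y (k - i) ≤ ∑' i, y i := by
    have : ∑ i ∈ range (k + 1), y (k - i) = ∑ i ∈ range (k + 1), y i := by
      rw [← sum_range_reflect]
      apply sum_congr rfl
      intro i hi
      rw [mem_range] at hi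
      congr 1
      omega
    rw [this]
    exact hys.sum_le_tsum _ fun i _ => hy0 i
  have := mul_le_mul_of_nonneg_left h2 (show 0 ≤ 3 * By by positivity)
  have := mul_le_mul_of_nonneg_left h3 (show 0 ≤ 3 * Bx by positivity)
  linarith

theorem bu_nonneg (hθ : Sl θ) {u : ℝ} (hu : 0 ≤ u) (k o : ℕ) : 0 ≤ bu θ u k o := by
  rw [bu_eq hθ hu]
  apply sum_nonneg
  intro i _
  exact tm_nonneg hθ u k o i

theorem bu_low (hθ : Sl θ) {u : ℝ} (hu : 0 ≤ u) {k o : ℕ} (h : u + (o : ℝ) - k * θ < 0) : bu θ u k o = 0 := by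
  unfold bu
  rw [Np_eq hθ hu]
  have : (PowerSeries.coeff k (F θ u * D θ)).coeff o = 0 := by
    by_contra h2
    have := FD_high k o h2
    linarith
  rw [this]; simp

/-- the bound of the weights -/
theorem bu_bound (hθ : Sl θ) {u : ℝ} (hu : 0 ≤ u) {s : ℝ} (hs : 0 < s) (hs1 : s < 1) : ∃ C : ℝ, 0 < C ∧
    ∀ k o : ℕ, k * Real.sqrt k * bu θ u k o ≤ C * s ^ (-(u + (o : ℝ) - k * θ)) := by
  obtain ⟨M1, hM1⟩ := rec_dsw hθ hs hs1
  obtain ⟨B1, hB10, hB1⟩ := hM1.bound
  obtain ⟨M2, hM2⟩ := rec_dsw hθ.flip hs hs1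
  obtain ⟨B2, hB20, hB2⟩ := hM2.bound
  have hsu : 0 < s ^ (-u) := Real.rpow_pos_of_pos hs _
  set x : ℕ → ℝ := fun i => s ^ (-u) * dsw (1 - θ) s i with hx
  have hx0 : ∀ i, 0 ≤ x i := fun i => mul_nonneg hsu.le (dsw_nonneg hθ.flip hs i)
  have hxs : Summable x := (dsw_summable hθ.flip hs hs1).mul_left _
  have hxB : ∀ i : ℕ, i * Real.sqrt i * x i ≤ s ^ (-u) * B2 := by
    intro i
    have := mul_le_mul_of_nonneg_left (hB2 i) hsu.le
    simp only [hx]
    linarith
  set T : ℝ := 3 * B1 * ∑' i, x i + 3 * (s ^ (-u) * B2) * ∑' i, dsw θ s i with hT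
  have hT0 : 0 ≤ T := by
    have t1 : 0 ≤ ∑' i, x i := tsum_nonneg hx0
    have t2 : 0 ≤ ∑' i, dsw θ s i := tsum_nonneg (dsw_nonneg hθ hs)
    positivity
  refine ⟨T + 1, by positivity, ?_⟩
  intro k o
  set h : ℝ := u + (o : ℝ) - k * θ with hh
  have hsh : 0 < s ^ h := Real.rpow_pos_of_pos hs _
  rw [Real.rpow_neg hs.le, ← div_eq_mul_inv, le_div_iff₀ hsh]
  have h1 : bu θ u k o * s ^ h ≤ ∑ i ∈ range (k + 1), x i * dsw θ s (k - i) := by
    rw [bu_eq hθ hu, sum_mul]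
    apply sum_le_sum
    intro i hi
    rw [mem_range] at hi
    have h2 : Rl (1 - θ) u i * dsw θ s (k - i) ≤ x i * dsw θ s (k - i) :=
      mul_le_mul_of_nonneg_right (Rl_le hθ.flip hs hs1 u i) (dsw_nonneg hθ hs _)
    refine le_trans ?_ h2
    unfold Rl
    rw [sum_mul, sum_mul]
    apply sum_le_sum
    intro p hp
    rw [mem_range] at hp
    have hb := b_nonneg hθ.flip i p
    have hd := dsw_nonneg hθ hs (k - i)
    split_ifs with h3
    · rw [mul_assoc]
      apply mul_le_mul_of_nonneg_left _ hb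
      unfold bs
      split_ifs with h4
      · refine le_trans ?_ (b_le_dsw hθ hs (k - i) (o - (i - p)))
        apply mul_le_mul_of_nonneg_left _ (b_nonneg hθ _ _)
        apply Real.rpow_le_rpow_of_exponent_ge hs hs1.le
        rw [Nat.cast_sub h4, Nat.cast_sub (show p ≤ i by omega), Nat.cast_sub (show i ≤ k by omega), hh]
        linarith
      · rw [zero_mul]; exact hd
    · rw [zero_mul, zero_mul]
  have h2 := conv_bound hx0 (dsw_nonneg hθ hs) hxs (dsw_summable hθ hs hs1) hxB hB1 k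
  have h3 := mul_le_mul_of_nonneg_left h1 (show 0 ≤ (k : ℝ) * Real.sqrt k by positivity)
  calc (k : ℝ) * Real.sqrt k * bu θ u k o * s ^ h = k * Real.sqrt k * (bu θ u k o * s ^ h) := by ring
    _ ≤ T + 1 := by linarith

/-- the closed and the open renewal functions agree in the limit -/
theorem Vf_sub_Rf (hθ : Sl θ) {W u : ℝ} (o : ℕ → ℕ) (hH : ∀ k, u + (o k : ℝ) - k * θ ≤ W) :
    Tendsto (fun k : ℕ => Vf θ (u + (o k : ℝ) - k * θ) - Rf θ (u + (o k : ℝ) - k * θ)) atTop (𝓝 0) := by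
  set H : ℕ → ℝ := fun k => u + (o k : ℝ) - k * θ with hHd
  have h1 := tendsto_tsum_of_dominated_convergence (𝓕 := atTop)
    (f := fun (k : ℕ) (j : ℕ) => Rl θ (H k) j - Rt θ (H k) j)
    (g := fun _ => (0 : ℝ)) (Rl_summable hθ W)
    (fun j => by
      -- the terms
      have h2 : ∀ p ∈ range (j + 1), ∀ᶠ k : ℕ in atTop, (p : ℝ) - j * θ ≠ H k := by
        intro p _
        by_cases h3 : ∃ k0 : ℕ, (p : ℝ) - j * θ = H k0
        · obtain ⟨k0, hk0⟩ := h3
          filter_upwards [eventually_gt_atTop k0] with k hk h4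
          apply hθ.irr (k - k0) (by omega) ((o k : ℤ) - o k0)
          rw [Nat.cast_sub hk.le]
          push_cast
          rw [hk0] at h4
          simp only [hHd] at h4
          linarith
        · exact Eventually.of_forall fun k h4 => h3 ⟨k, h4⟩
      have h3 := (Filter.eventually_all_finset (range (j + 1))).2 h2
      apply tendsto_const_nhds.congr'
      filter_upwards [h3] with k hk
      symm
      unfold Rl Rt
      rw [← sum_sub_distrib]
      apply sum_eq_zero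
      intro p hp
      have h4 := hk p hp
      by_cases h5 : (p : ℝ) - j * θ < H k
      · rw [if_pos h5, if_pos h5.le, sub_self]
      · rw [if_neg h5, if_neg (fun h6 => h5 (lt_of_le_of_ne h6 h4)), sub_self])
    (Eventually.of_forall fun k j => by
      have h2 : Rt θ (H k) j ≤ Rl θ (H k) j := by
        unfold Rt Rl
        apply sum_le_sum
        intro p _
        by_cases h5 : (p : ℝ) - j * θ < H k
        · rw [if_pos h5, if_pos h5.le]
        · rw [if_neg h5]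
          split_ifs
          · exact b_nonneg hθ _ _
          · exact le_rfl
      rw [Real.norm_eq_abs, abs_of_nonneg (by linarith)]
      have h3 := Rl_mono hθ (hH k) j
      have h4 := Rt_nonneg hθ (H k) j
      linarith)
  rw [tsum_zero] at h1
  refine h1.congr fun k => ?_
  unfold Vf Rf
  rw [(Rl_summable hθ _).tsum_sub (Rt_summable hθ _)]

/-- the weight of the limit -/
noncomputable def Yw (θ q u : ℝ) (k o : ℕ) : ℝ :=
  if (k : ℝ) * θ < u + o then q ^ (u + (o : ℝ) - k * θ) * Rf θ (u + (o : ℝ) - k * θ) else 0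

theorem Yw_nonneg (hθ : Sl θ) {q : ℝ} (hq : 0 < q) (u : ℝ) (k o : ℕ) : 0 ≤ Yw θ q u k o := by
  unfold Yw
  split_ifs
  · have := Rf_nonneg hθ (u + (o : ℝ) - k * θ)
    positivity
  · exact le_rfl

theorem Yw_bound (hθ : Sl θ) {q : ℝ} (hq : 0 < q) {s : ℝ} (hs : 0 < s) (hs1 : s < 1) : ∃ C : ℝ, 0 < C ∧
    ∀ (u : ℝ) (k o : ℕ), Yw θ q u k o ≤ C * (q / s) ^ (u + (o : ℝ) - k * θ) := by
  obtain ⟨C, hC, h⟩ := Rf_le hθ hs hs1
  refine ⟨C, hC, ?_⟩
  intro u k o
  unfold Yw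
  split_ifs
  · rw [Real.div_rpow hq.le hs.le, div_eq_mul_inv, ← Real.rpow_neg hs.le]
    have h1 := h (u + (o : ℝ) - k * θ)
    have h2 : 0 < q ^ (u + (o : ℝ) - k * θ) := Real.rpow_pos_of_pos hq _
    calc q ^ (u + (o : ℝ) - k * θ) * Rf θ (u + (o : ℝ) - k * θ) ≤
        q ^ (u + (o : ℝ) - k * θ) * (C * s ^ (-(u + (o : ℝ) - k * θ))) := mul_le_mul_of_nonneg_left h1 h2.le
      _ = _ := by ring
  · positivity

/-- the first admissible number of ones -/
noncomputable def m0 (θ u : ℝ) (k : ℕ) : ℕ := ⌈(k : ℝ) * θ - u⌉₊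

theorem m0_facts (hθ : Sl θ) {u : ℝ} (hu : 0 ≤ u) (k i : ℕ) : (i : ℝ) ≤ u + ((m0 θ u k + i : ℕ) : ℝ) - k * θ ∧
    u + ((m0 θ u k + i : ℕ) : ℝ) - k * θ ≤ i + 1 + u := by
  have h1 := Nat.le_ceil ((k : ℝ) * θ - u)
  have h0 : (0 : ℝ) ≤ k * θ := mul_nonneg (Nat.cast_nonneg _) hθ.pos.le
  unfold m0
  push_cast
  constructor
  · linarith
  · rcases le_or_gt 0 ((k : ℝ) * θ - u) with h | h
    · have h2 := Nat.ceil_lt_add_one h
      linarith
    · rw [Nat.ceil_eq_zero.2 h.le, Nat.cast_zero]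
      linarith

theorem m0_low {u : ℝ} {k o : ℕ} (h : o < m0 θ u k) : u + (o : ℝ) - k * θ < 0 := by
  unfold m0 at h
  have := Nat.lt_ceil.1 h
  linarith

/-- the difference -/
noncomputable def dfu (θ q u : ℝ) (k o : ℕ) : ℝ :=
  |k * Real.sqrt k * (bu θ u k o * q ^ (u + (o : ℝ) - k * θ)) - c0 θ * (Vf (1 - θ) u * Yw θ q u k o)|

theorem dfu_low (hθ : Sl θ) {q u : ℝ} (hu : 0 ≤ u) {k o : ℕ} (h : o < m0 θ u k) : dfu θ q u k o = 0 := by
  have h1 := m0_low h
  unfold dfu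
  rw [bu_low hθ hu h1]
  unfold Yw
  rw [if_neg (by linarith)]
  simp

theorem dfu_bound (hθ : Sl θ) {q u : ℝ} (hq : 0 < q) (hq1 : q < 1) (hu : 0 ≤ u) : ∃ C : ℝ, 0 < C ∧
    ∀ k i : ℕ, dfu θ q u k (m0 θ u k + i) ≤ C * Real.sqrt q ^ i := by
  have hs : 0 < Real.sqrt q := Real.sqrt_pos.2 hq
  have hs1 : Real.sqrt q < 1 := by rw [Real.sqrt_lt' (by norm_num)]; linarith
  have hqs : q / Real.sqrt q = Real.sqrt q := Real.div_sqrt
  obtain ⟨C1, hC1, h1⟩ := Yw_bound hθ hq hs hs1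
  obtain ⟨C2, hC2, h2⟩ := bu_bound hθ hu hs hs1
  have hc0 := c0_pos hθ
  have hV := Vf_nonneg hθ.flip u
  refine ⟨C2 + c0 θ * (Vf (1 - θ) u * C1), by positivity, ?_⟩
  intro k i
  unfold dfu
  set o := m0 θ u k + i with ho
  set h : ℝ := u + (o : ℝ) - k * θ with hh
  have hih : (i : ℝ) ≤ h := (m0_facts hθ hu k i).1
  have hb := bu_nonneg hθ hu k o
  have hqh : 0 < q ^ h := Real.rpow_pos_of_pos hq _
  have e1 : 0 ≤ (k : ℝ) * Real.sqrt k * (bu θ u k o * q ^ h) := by positivity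
  have e2 : 0 ≤ c0 θ * (Vf (1 - θ) u * Yw θ q u k o) :=
    mul_nonneg hc0.le (mul_nonneg hV (Yw_nonneg hθ hq _ _ _))
  refine (abs_sub _ _).trans ?_
  rw [abs_of_nonneg e1, abs_of_nonneg e2]
  have hpi : (Real.sqrt q) ^ h ≤ Real.sqrt q ^ i := by
    rw [← Real.rpow_natCast (Real.sqrt q) i]
    exact Real.rpow_le_rpow_of_exponent_ge hs hs1.le hih
  have e5 : (k : ℝ) * Real.sqrt k * (bu θ u k o * q ^ h) ≤ C2 * Real.sqrt q ^ i := by
    calc (k : ℝ) * Real.sqrt k * (bu θ u k o * q ^ h) =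
        (k * Real.sqrt k * bu θ u k o) * q ^ h := by ring
      _ ≤ (C2 * Real.sqrt q ^ (-h)) * q ^ h := mul_le_mul_of_nonneg_right (h2 k o) hqh.le
      _ = C2 * (q / Real.sqrt q) ^ h := by
          rw [Real.div_rpow hq.le hs.le, div_eq_mul_inv, ← Real.rpow_neg hs.le]; ring
      _ ≤ _ := by
          rw [hqs]
          exact mul_le_mul_of_nonneg_left hpi hC2.le
  have e6 : Yw θ q u k o ≤ C1 * Real.sqrt q ^ i := by
    refine (h1 u k o).trans ?_
    rw [hqs]
    exact mul_le_mul_of_nonneg_left hpi hC1.le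
  have e7 : c0 θ * (Vf (1 - θ) u * Yw θ q u k o) ≤ c0 θ * (Vf (1 - θ) u * (C1 * Real.sqrt q ^ i)) :=
    mul_le_mul_of_nonneg_left (mul_le_mul_of_nonneg_left e6 hV) hc0.le
  have e8 : (C2 + c0 θ * (Vf (1 - θ) u * C1)) * Real.sqrt q ^ i =
      C2 * Real.sqrt q ^ i + c0 θ * (Vf (1 - θ) u * (C1 * Real.sqrt q ^ i)) := by ring
  rw [e8]
  exact add_le_add e5 e7

theorem dfu_summable (hθ : Sl θ) {q u : ℝ} (hq : 0 < q) (hq1 : q < 1) (hu : 0 ≤ u) (k : ℕ) :
    Summable (dfu θ q u k) := by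
  obtain ⟨C, hC, h⟩ := dfu_bound hθ hq hq1 hu
  have hs : 0 < Real.sqrt q := Real.sqrt_pos.2 hq
  have hs1 : Real.sqrt q < 1 := by rw [Real.sqrt_lt' (by norm_num)]; linarith
  rw [← summable_nat_add_iff (m0 θ u k)]
  apply Summable.of_nonneg_of_le (fun i => abs_nonneg _) (fun i => ?_)
    ((summable_geometric_of_lt_one hs.le hs1).mul_left C)
  rw [add_comm i]
  exact h k i

/-- THE WEIGHTED LOCAL LIMIT THEOREM in the sense of `ℓ¹` -/
theorem dfu_tendsto (hθ : Sl θ) {q u : ℝ} (hq : 0 < q) (hq1 : q < 1) (hu : 0 ≤ u) :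
    Tendsto (fun k => ∑' o, dfu θ q u k o) atTop (𝓝 0) := by
  obtain ⟨C, hC, h⟩ := dfu_bound hθ hq hq1 hu
  have hs : 0 < Real.sqrt q := Real.sqrt_pos.2 hq
  have hs1 : Real.sqrt q < 1 := by rw [Real.sqrt_lt' (by norm_num)]; linarith
  have hc0 := c0_pos hθ
  have hV := Vf_nonneg hθ.flip u
  have h1 : Tendsto (fun k : ℕ => ∑' i : ℕ, dfu θ q u k (m0 θ u k + i)) atTop (𝓝 (∑' _ : ℕ, (0 : ℝ))) := by
    apply tendsto_tsum_of_dominated_convergence (bound := fun i => C * Real.sqrt q ^ i)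
      ((summable_geometric_of_lt_one hs.le hs1).mul_left _)
    · intro i
      set o : ℕ → ℕ := fun k => m0 θ u k + i with ho
      set H : ℕ → ℝ := fun k => u + (o k : ℝ) - k * θ with hHd
      have hHi : ∀ k, (i : ℝ) ≤ H k := fun k => (m0_facts hθ hu k i).1
      have hHW : ∀ k, H k ≤ i + 1 + u := fun k => (m0_facts hθ hu k i).2
      have hi0 : (0 : ℝ) ≤ i := Nat.cast_nonneg i
      have h2 := local_u hθ (W := i + 1 + u) o (fun _ => u) H (fun _ => hu) (fun _ => by linarith) hHW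
        (fun k => by
          have h3 := hHi k
          have h4 := hHW k
          simp only [hHd] at h3 h4
          rw [abs_le]
          constructor <;> linarith) (fun k => by simp only [hHd]; ring)
      have h3 := Vf_sub_Rf hθ (W := i + 1 + u) o hHW
      have h4 := h2.abs.add ((h3.abs).const_mul (c0 θ * Vf (1 - θ) u))
      rw [abs_zero, mul_zero, add_zero] at h4
      apply squeeze_zero' (Eventually.of_forall fun k => abs_nonneg _) _ h4
      -- eventually the height is not zero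
      have ht : ∀ᶠ k : ℕ in atTop, H k ≠ 0 := by
        by_cases h5 : ∃ k0 : ℕ, H k0 = 0
        · obtain ⟨k0, hk0⟩ := h5
          filter_upwards [eventually_gt_atTop k0] with k hk h6
          apply hθ.irr (k - k0) (by omega) ((o k : ℤ) - o k0)
          rw [Nat.cast_sub hk.le]
          push_cast
          simp only [hHd] at h6 hk0
          linarith
        · exact Eventually.of_forall fun k h6 => h5 ⟨k, h6⟩
      filter_upwards [ht] with k hk
      have hHpos : 0 < H k := lt_of_le_of_ne (hi0.trans (hHi k)) (Ne.symm hk)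
      have e1 : Yw θ q u k (o k) = q ^ H k * Rf θ (H k) := by
        unfold Yw
        rw [if_pos (by simp only [hHd] at hHpos; linarith)]
      have hqH : 0 < q ^ H k := Real.rpow_pos_of_pos hq _
      have hqH1 : q ^ H k ≤ 1 := Real.rpow_le_one hq.le hq1.le hHpos.le
      show |k * Real.sqrt k * (bu θ u k (o k) * q ^ H k) - c0 θ * (Vf (1 - θ) u * Yw θ q u k (o k))| ≤ _
      rw [e1]
      have e2 : k * Real.sqrt k * (bu θ u k (o k) * q ^ H k) - c0 θ * (Vf (1 - θ) u * (q ^ H k * Rf θ (H k))) =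
          q ^ H k * ((k * Real.sqrt k * bu θ u k (o k) - c0 θ * (Vf (1 - θ) u * Vf θ (H k))) +
            c0 θ * Vf (1 - θ) u * (Vf θ (H k) - Rf θ (H k))) := by ring
      rw [e2, abs_mul, abs_of_pos hqH]
      refine (mul_le_of_le_one_left (abs_nonneg _) hqH1).trans ?_
      refine (abs_add_le _ _).trans ?_
      rw [abs_mul (c0 θ * Vf (1 - θ) u), abs_of_nonneg (mul_nonneg hc0.le hV)]
    · exact Eventually.of_forall fun k i => by
        rw [Real.norm_eq_abs, abs_of_nonneg (show 0 ≤ dfu θ q u k (m0 θ u k + i) from abs_nonneg _)]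
        exact h k i
  rw [tsum_zero] at h1
  refine h1.congr fun k => ?_
  symm
  rw [← (dfu_summable hθ hq hq1 hu k).sum_add_tsum_nat_add (m0 θ u k),
    sum_eq_zero fun o ho => dfu_low hθ hu (mem_range.1 ho), zero_add]
  apply tsum_congr
  intro i
  rw [add_comm]

end Pool.Agent.H622.Gs
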