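import Mathlib

set_option autoImplicit false

/-! The sharp law of the stopping time, part 1: the factorization. -/

namespace Pool.Agent.H622.St

open Finset

abbrev R := Polynomial ℤ

/-- all the exponents are above the line -/
def IsPos (f : PowerSeries R) : Prop :=
  ∀ k o, (PowerSeries.coeff k f).coeff o ≠ 0 → 2 ^ k < 3 ^ o

/-- all the exponents are below the line -/
def IsNeg (f : PowerSeries R) : Prop :=
  ∀ k o, (PowerSeries.coeff k f).coeff o ≠ 0 → 3 ^ o < 2 ^ k

theorem IsPos.add {f g : PowerSeries R} (hf : IsPos f) (hg : IsPos g) : IsPos (f + g) := by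
  intro k o h
  rw [map_add, Polynomial.coeff_add] at h
  by_cases h1 : (PowerSeries.coeff k f).coeff o = 0
  · rw [h1, zero_add] at h; exact hg k o h
  · exact hf k o h1

theorem IsNeg.add {f g : PowerSeries R} (hf : IsNeg f) (hg : IsNeg g) : IsNeg (f + g) := by
  intro k o h
  rw [map_add, Polynomial.coeff_add] at h
  by_cases h1 : (PowerSeries.coeff k f).coeff o = 0
  · rw [h1, zero_add] at h; exact hg k o h
  · exact hf k o h1

theorem IsPos.neg {f : PowerSeries R} (hf : IsPos f) : IsPos (-f) := by
  intro k o h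
  rw [map_neg, Polynomial.coeff_neg, neg_ne_zero] at h
  exact hf k o h

theorem IsNeg.neg {f : PowerSeries R} (hf : IsNeg f) : IsNeg (-f) := by
  intro k o h
  rw [map_neg, Polynomial.coeff_neg, neg_ne_zero] at h
  exact hf k o h

theorem IsPos.mul {f g : PowerSeries R} (hf : IsPos f) (hg : IsPos g) : IsPos (f * g) := by
  intro k o h
  rw [PowerSeries.coeff_mul, Polynomial.finsetSum_coeff] at h
  obtain ⟨⟨i, j⟩, hij, h1⟩ := exists_ne_zero_of_sum_ne_zero h
  rw [Polynomial.coeff_mul] at h1
  obtain ⟨⟨p, q⟩, hpq, h2⟩ := exists_ne_zero_of_sum_ne_zero h1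
  rw [HasAntidiagonal.mem_antidiagonal] at hij hpq
  have a1 := hf i p (left_ne_zero_of_mul h2)
  have a2 := hg j q (right_ne_zero_of_mul h2)
  simp only at hij hpq
  rw [← hij, ← hpq, pow_add, pow_add]
  exact Nat.mul_lt_mul'' a1 a2

theorem IsNeg.mul {f g : PowerSeries R} (hf : IsNeg f) (hg : IsNeg g) : IsNeg (f * g) := by
  intro k o h
  rw [PowerSeries.coeff_mul, Polynomial.finsetSum_coeff] at h
  obtain ⟨⟨i, j⟩, hij, h1⟩ := exists_ne_zero_of_sum_ne_zero h
  rw [Polynomial.coeff_mul] at h1
  obtain ⟨⟨p, q⟩, hpq, h2⟩ := exists_ne_zero_of_sum_ne_zero h1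
  rw [HasAntidiagonal.mem_antidiagonal] at hij hpq
  have a1 := hf i p (left_ne_zero_of_mul h2)
  have a2 := hg j q (right_ne_zero_of_mul h2)
  simp only at hij hpq
  rw [← hij, ← hpq, pow_add, pow_add]
  exact Nat.mul_lt_mul'' a1 a2

theorem eq_zero_of {f : PowerSeries R} (hf : IsPos f) (hg : IsNeg f) : f = 0 := by
  ext k o
  by_contra h
  have a1 := hf k o h
  have a2 := hg k o h
  omega

/-- a part of a polynomial -/
noncomputable def cut (P : ℕ → Prop) [DecidablePred P] (p : R) : R :=
  ∑ o ∈ p.support.filter P, Polynomial.monomial o (p.coeff o)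

theorem coeff_cut (P : ℕ → Prop) [DecidablePred P] (p : R) (o : ℕ) :
    (cut P p).coeff o = if P o then p.coeff o else 0 := by
  unfold cut
  rw [Polynomial.finsetSum_coeff]
  simp only [Polynomial.coeff_monomial]
  rw [sum_ite_eq']
  by_cases h : P o
  · rw [if_pos h]
    by_cases h2 : p.coeff o = 0
    · rw [h2]; simp
    · rw [if_pos (mem_filter.2 ⟨Polynomial.mem_support_iff.2 h2, h⟩)]
  · rw [if_neg h, if_neg]
    intro h2
    exact h (mem_filter.1 h2).2

/-- the words all of whose initial segments are above the line -/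
noncomputable def Dp : ℕ → R
  | 0 => 1
  | k + 1 => cut (fun o => 2 ^ (k + 1) < 3 ^ o) ((1 + Polynomial.X) * Dp k)

/-- the words all of whose initial segments are below the line -/
noncomputable def Ep : ℕ → R
  | 0 => 1
  | k + 1 => cut (fun o => 3 ^ o < 2 ^ (k + 1)) ((1 + Polynomial.X) * Ep k)

noncomputable def D : PowerSeries R := PowerSeries.mk Dp
noncomputable def E : PowerSeries R := PowerSeries.mk Ep
noncomputable def y1 : R := 1 + Polynomial.X
noncomputable def U : PowerSeries R := 1 - PowerSeries.X * PowerSeries.C y1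

theorem ne_pow {k o : ℕ} (h : 0 < k) : 2 ^ k ≠ 3 ^ o := by
  intro h1
  have h2 : Even (2 ^ k) := (Nat.even_pow' h.ne').2 (by norm_num)
  rw [h1] at h2
  have h3 : Odd (3 ^ o) := Odd.pow (by decide)
  exact (Nat.not_even_iff_odd.2 h3) h2

theorem D_sub : IsPos (D - 1) := by
  intro k o h
  unfold D at h
  rw [map_sub, PowerSeries.coeff_mk, PowerSeries.coeff_one] at h
  rcases k with _ | k
  · simp [Dp] at h
  · rw [if_neg (by omega), sub_zero, Dp, coeff_cut] at h
    by_contra h2
    rw [if_neg h2] at h
    exact h rfl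

theorem E_sub : IsNeg (E - 1) := by
  intro k o h
  unfold E at h
  rw [map_sub, PowerSeries.coeff_mk, PowerSeries.coeff_one] at h
  rcases k with _ | k
  · simp [Ep] at h
  · rw [if_neg (by omega), sub_zero, Ep, coeff_cut] at h
    by_contra h2
    rw [if_neg h2] at h
    exact h rfl

theorem coeff_U_mul (f : PowerSeries R) (k : ℕ) :
    PowerSeries.coeff (k + 1) (U * f) = PowerSeries.coeff (k + 1) f - y1 * PowerSeries.coeff k f := by
  unfold U
  rw [sub_mul, one_mul, map_sub, mul_assoc, PowerSeries.coeff_succ_X_mul, PowerSeries.coeff_C_mul]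

theorem coeff_U_mul_zero (f : PowerSeries R) :
    PowerSeries.coeff 0 (U * f) = PowerSeries.coeff 0 f := by
  unfold U
  rw [sub_mul, one_mul, map_sub, mul_assoc, PowerSeries.coeff_zero_X_mul, sub_zero]

theorem UD_sub : IsNeg (U * D - 1) := by
  intro k o h
  rw [map_sub, PowerSeries.coeff_one] at h
  rcases k with _ | k
  · rw [coeff_U_mul_zero] at h
    simp [D, Dp] at h
  · rw [coeff_U_mul, if_neg (by omega), sub_zero] at h
    unfold D at h
    rw [PowerSeries.coeff_mk, PowerSeries.coeff_mk, Dp, Polynomial.coeff_sub, coeff_cut] at h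
    by_contra h2
    have h3 : 2 ^ (k + 1) < 3 ^ o := by
      have := ne_pow (k := k + 1) (o := o) (by omega)
      omega
    rw [if_pos h3] at h
    exact h (sub_self _)

theorem UE_sub : IsPos (U * E - 1) := by
  intro k o h
  rw [map_sub, PowerSeries.coeff_one] at h
  rcases k with _ | k
  · rw [coeff_U_mul_zero] at h
    simp [E, Ep] at h
  · rw [coeff_U_mul, if_neg (by omega), sub_zero] at h
    unfold E at h
    rw [PowerSeries.coeff_mk, PowerSeries.coeff_mk, Ep, Polynomial.coeff_sub, coeff_cut] at h
    by_contra h2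
    have h3 : 3 ^ o < 2 ^ (k + 1) := by
      have := ne_pow (k := k + 1) (o := o) (by omega)
      omega
    rw [if_pos h3] at h
    exact h (sub_self _)

/-- the factorization of Wiener and Hopf -/
theorem UDE : U * D * E = 1 := by
  have h1 : IsNeg (U * D * E - 1) := by
    have : U * D * E - 1 = (U * D - 1) * (E - 1) + (U * D - 1) + (E - 1) := by ring
    rw [this]
    exact ((UD_sub.mul E_sub).add UD_sub).add E_sub
  have h2 : IsPos (U * D * E - 1) := by
    have : U * D * E - 1 = (U * E - 1) * (D - 1) + (U * E - 1) + (D - 1) := by ring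
    rw [this]
    exact ((UE_sub.mul D_sub).add UE_sub).add D_sub
  exact sub_eq_zero.1 (eq_zero_of h2 h1)

/-- the derivation `z d/dz` -/
noncomputable def dd (f : PowerSeries R) : PowerSeries R :=
  PowerSeries.mk fun k => (k : R) * PowerSeries.coeff k f

theorem coeff_dd (f : PowerSeries R) (k : ℕ) :
    PowerSeries.coeff k (dd f) = (k : R) * PowerSeries.coeff k f := by
  unfold dd; rw [PowerSeries.coeff_mk]

theorem dd_mul (f g : PowerSeries R) : dd (f * g) = f * dd g + g * dd f := by
  ext1 k
  rw [coeff_dd, map_add, mul_comm g, PowerSeries.coeff_mul, PowerSeries.coeff_mul,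
    PowerSeries.coeff_mul, mul_sum, ← sum_add_distrib]
  apply sum_congr rfl
  rintro ⟨i, j⟩ hij
  rw [HasAntidiagonal.mem_antidiagonal] at hij
  rw [coeff_dd, coeff_dd, ← hij]
  push_cast
  ring

theorem dd_pos {f : PowerSeries R} (hf : IsPos (f - 1)) : IsPos (dd f) := by
  intro k o h
  rw [coeff_dd] at h
  rcases k with _ | k
  · simp at h
  · apply hf (k + 1) o
    rw [map_sub, PowerSeries.coeff_one, if_neg (by omega), sub_zero]
    intro h2
    apply h
    rw [← Polynomial.C_eq_natCast, Polynomial.coeff_C_mul, h2, mul_zero]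

theorem dd_neg {f : PowerSeries R} (hf : IsNeg (f - 1)) : IsNeg (dd f) := by
  intro k o h
  rw [coeff_dd] at h
  rcases k with _ | k
  · simp at h
  · apply hf (k + 1) o
    rw [map_sub, PowerSeries.coeff_one, if_neg (by omega), sub_zero]
    intro h2
    apply h
    rw [← Polynomial.C_eq_natCast, Polynomial.coeff_C_mul, h2, mul_zero]

noncomputable def Y : PowerSeries R := dd D * (U * E)

theorem Y_pos : IsPos Y := by
  unfold Y
  have : dd D * (U * E) = dd D * (U * E - 1) + dd D := by ring
  rw [this]
  exact ((dd_pos D_sub).mul UE_sub).add (dd_pos D_sub)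

theorem Y_mul : Y * D = dd D := by
  have : Y * D = dd D * (U * D * E) := by unfold Y; ring
  rw [this, UDE, mul_one]

theorem DE_coeff (k : ℕ) : PowerSeries.coeff k (D * E) = y1 ^ k := by
  have h : U * (D * E) = 1 := by rw [← mul_assoc]; exact UDE
  induction k with
  | zero =>
    have := coeff_U_mul_zero (D * E)
    rw [h, PowerSeries.coeff_one, if_pos rfl] at this
    rw [← this, pow_zero]
  | succ k ih =>
    have := coeff_U_mul (D * E) k
    rw [h, PowerSeries.coeff_one, if_neg (by omega), ih] at this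
    rw [pow_succ', ← sub_eq_zero]
    exact this.symm

theorem Y_coeff (k o : ℕ) (hk : 0 < k) : (PowerSeries.coeff k Y).coeff o =
    if 2 ^ k < 3 ^ o then (k.choose o : ℤ) else 0 := by
  by_cases h : 2 ^ k < 3 ^ o
  swap
  · rw [if_neg h]
    by_contra h2
    exact h (Y_pos k o h2)
  · rw [if_pos h]
    set Z : PowerSeries R := dd E * (U * D) with hZ
    have hZn : IsNeg Z := by
      have : Z = dd E * (U * D - 1) + dd E := by rw [hZ]; ring
      rw [this]
      exact ((dd_neg E_sub).mul UD_sub).add (dd_neg E_sub)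
    have h1 : Y + Z = PowerSeries.X * PowerSeries.C y1 * (D * E) := by
      have h2 : dd (U * (D * E)) = 0 := by
        rw [← mul_assoc, UDE]
        ext1 k
        rw [coeff_dd, PowerSeries.coeff_one]
        rcases k with _ | k
        · simp
        · rw [if_neg (by omega)]; simp
      rw [dd_mul, dd_mul] at h2
      have h3 : dd U = -(PowerSeries.X * PowerSeries.C y1) := by
        ext1 k
        rw [coeff_dd, map_neg]
        unfold U
        rw [map_sub]
        rcases k with _ | _ | k
        · simp
        · rw [PowerSeries.coeff_succ_X_mul, PowerSeries.coeff_one, if_neg (by omega)]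
          push_cast
          ring
        · rw [PowerSeries.coeff_succ_X_mul, PowerSeries.coeff_one, if_neg (by omega),
            PowerSeries.coeff_C, if_neg (by omega)]
          ring
      rw [h3] at h2
      unfold Y
      rw [hZ]
      linear_combination h2
    have h2 : (PowerSeries.coeff k Z).coeff o = 0 := by
      by_contra h3
      have := hZn k o h3
      omega
    have h3 : (PowerSeries.coeff k (Y + Z)).coeff o = (k.choose o : ℤ) := by
      rw [h1, mul_assoc]
      obtain ⟨m, rfl⟩ : ∃ m, k = m + 1 := ⟨k - 1, by omega⟩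
      rw [PowerSeries.coeff_succ_X_mul, PowerSeries.coeff_C_mul, DE_coeff, ← pow_succ']
      unfold y1
      rw [add_comm, Polynomial.coeff_X_add_one_pow]
    rw [map_add, Polynomial.coeff_add, h2, add_zero] at h3
    exact h3

theorem Y_eval (k : ℕ) (hk : 0 < k) : (PowerSeries.coeff k Y).eval 1 =
    ∑ o ∈ range (k + 1), if 2 ^ k < 3 ^ o then (k.choose o : ℤ) else 0 := by
  have hdeg : (PowerSeries.coeff k Y).natDegree < k + 1 := by
    rw [Nat.lt_succ_iff, Polynomial.natDegree_le_iff_coeff_eq_zero]
    intro N hN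
    rw [Y_coeff k N hk, Nat.choose_eq_zero_of_lt hN]
    simp
  rw [Polynomial.eval_eq_sum_range' hdeg]
  apply sum_congr rfl
  intro o _
  rw [Y_coeff k o hk, one_pow, mul_one]

/-- the recursion for the number of words above the line -/
theorem recursion (k : ℕ) : (k : ℤ) * (Dp k).eval 1 =
    ∑ j ∈ range k, (Dp j).eval 1 *
      ∑ o ∈ range (k - j + 1), if 2 ^ (k - j) < 3 ^ o then ((k - j).choose o : ℤ) else 0 := by
  have h1 : PowerSeries.coeff k (D * Y) = (k : R) * PowerSeries.coeff k D := by
    rw [mul_comm, Y_mul, coeff_dd]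
  have hY0 : PowerSeries.coeff 0 Y = 0 := by
    unfold Y
    rw [PowerSeries.coeff_zero_eq_constantCoeff_apply, map_mul,
      ← PowerSeries.coeff_zero_eq_constantCoeff_apply, coeff_dd]
    simp
  have h2 := congrArg (Polynomial.eval 1) h1
  rw [PowerSeries.coeff_mul, Polynomial.eval_finsetSum,
    Finset.Nat.sum_antidiagonal_eq_sum_range_succ_mk, sum_range_succ, Nat.sub_self, hY0,
    mul_zero, Polynomial.eval_zero, add_zero, Polynomial.eval_mul, Polynomial.eval_natCast] at h2
  unfold D at h2
  rw [PowerSeries.coeff_mk] at h2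
  rw [← h2]
  apply sum_congr rfl
  intro j hj
  rw [mem_range] at hj
  rw [PowerSeries.coeff_mk, Polynomial.eval_mul, Y_eval (k - j) (by omega)]

end Pool.Agent.H622.St
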