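import Mathlib
import Pool.Agent.H622.St1
import Pool.Graph.R_seed8.W36.SL.Uni2

set_option autoImplicit false

/-! The sharp law of the stopping time, part 2: the residues. -/

namespace Pool.Agent.H622.St

open Finset Pool.Agent.Helper894.Collatz Pool.Agent.H828R3.Exc Pool.Agent.W36.SL

/-- the first `k` growth factors are at least one -/
def Surv (k n : ℕ) : Prop := ∀ j ≤ k, 2 ^ j ≤ 3 ^ od j n

instance (k n : ℕ) : Decidable (Surv k n) := by unfold Surv; infer_instance

theorem Surv_zero (n : ℕ) : Surv 0 n := by
  intro i hi
  have : i = 0 := by omega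
  subst this
  simp [od]

theorem Surv_succ (k n : ℕ) : Surv (k + 1) n ↔ Surv k n ∧ 2 ^ (k + 1) ≤ 3 ^ od (k + 1) n := by
  unfold Surv
  constructor
  · intro h
    exact ⟨fun j hj => h j (by omega), h (k + 1) le_rfl⟩
  · rintro ⟨h1, h2⟩ j hj
    rcases Nat.lt_or_ge j (k + 1) with h | h
    · exact h1 j (by omega)
    · have : j = k + 1 := by omega
      rw [this]; exact h2

theorem Surv_shift (k x c : ℕ) : Surv k (x + 2 ^ k * c) ↔ Surv k x := by
  unfold Surv
  constructor
  · intro h j hj
    have := h j hj
    rwa [od_shift_le hj] at this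
  · intro h j hj
    rw [od_shift_le hj]; exact h j hj

theorem Surv_shift1 (k x : ℕ) : Surv k (2 ^ k + x) ↔ Surv k x := by
  have := Surv_shift k x 1
  rwa [mul_one, add_comm] at this

theorem coeff_y (p : R) (o : ℕ) : ((1 + Polynomial.X) * p).coeff o =
    p.coeff o + (if o = 0 then 0 else p.coeff (o - 1)) := by
  rw [add_mul, one_mul, Polynomial.coeff_add]
  congr 1
  rcases o with _ | o
  · simp
  · rw [Polynomial.coeff_X_mul]; simp

theorem Dp_coeff (k : ℕ) : ∀ o, (Dp k).coeff o =
    ∑ n ∈ range (2 ^ k), if Surv k n ∧ od k n = o then (1 : ℤ) else 0 := by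
  induction k with
  | zero =>
    intro o
    simp only [Dp, pow_zero, range_one, Polynomial.coeff_one, sum_singleton]
    have h0 := Surv_zero 0
    have : od 0 0 = 0 := by simp [od]
    rw [this]
    by_cases h : o = 0
    · subst h; simp [h0]
    · rw [if_neg h, if_neg]; rintro ⟨-, h2⟩; exact h h2.symm
  | succ k ih =>
    intro o
    have hr : range (2 ^ (k + 1)) = range (2 ^ k + 2 ^ k) := by rw [pow_succ, mul_two]
    rw [Dp, coeff_cut, coeff_y, ih o, hr, sum_range_add, ← sum_add_distrib]
    have key : ∀ x, ((if Surv (k + 1) x ∧ od (k + 1) x = o then (1 : ℤ) else 0) +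
        (if Surv (k + 1) (2 ^ k + x) ∧ od (k + 1) (2 ^ k + x) = o then (1 : ℤ) else 0)) =
        if 2 ^ (k + 1) < 3 ^ o then ((if Surv k x ∧ od k x = o then (1 : ℤ) else 0) +
          (if Surv k x ∧ od k x + 1 = o then (1 : ℤ) else 0)) else 0 := by
      intro x
      have h1 : od k (2 ^ k + x) = od k x := by rw [add_comm]; exact od_shift k x
      have h2 : T^[k] (2 ^ k + x) % 2 = 1 - T^[k] x % 2 := by rw [add_comm]; exact flip_parity k x
      have hne := ne_pow (k := k + 1) (o := o) (by omega)
      simp only [Surv_succ, Surv_shift1, od_succ, h1, h2]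
      by_cases hS : Surv k x
      swap
      · simp [hS]
      simp only [hS, true_and]
      by_cases hp : 2 ^ (k + 1) < 3 ^ o
      · rw [if_pos hp]
        rcases Nat.mod_two_eq_zero_or_one (T^[k] x) with h | h
        · rw [h]
          by_cases a : od k x = o
          · have b : ¬ (od k x + 1 = o) := by omega
            have c : ¬ (od k x + (1 - 0) = o) := by omega
            rw [if_pos a, if_neg b, if_pos ⟨by rw [add_zero, a]; exact hp.le, by omega⟩,
              if_neg (fun h => c h.2)]
          · rw [if_neg a]
            by_cases b : od k x + 1 = o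
            · rw [if_pos b, if_neg (fun h => a (by omega)), if_pos]
              rw [show od k x + (1 - 0) = o by omega]
              exact ⟨hp.le, rfl⟩
            · rw [if_neg b, if_neg (fun h => a (by omega)), if_neg (fun h => b (by omega))]
        · rw [h]
          by_cases a : od k x = o
          · have b : ¬ (od k x + 1 = o) := by omega
            rw [if_pos a, if_neg b, if_neg (fun h => b h.2), if_pos]
            · ring
            · rw [show od k x + (1 - 1) = o by omega]
              exact ⟨hp.le, rfl⟩
          · rw [if_neg a]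
            by_cases b : od k x + 1 = o
            · rw [if_pos b, if_pos (by rw [b]; exact ⟨hp.le, rfl⟩), if_neg (fun h => a (by omega))]
              simp
            · rw [if_neg b, if_neg (fun h => b (by omega)), if_neg (fun h => a (by omega))]
      · rw [if_neg hp]
        have h3 : ∀ m, ¬ (2 ^ (k + 1) ≤ 3 ^ m ∧ m = o) := by
          rintro m ⟨h4, h5⟩
          rw [h5] at h4
          omega
        rw [if_neg (h3 _), if_neg (h3 _), add_zero]
    rw [sum_congr rfl fun x _ => key x]
    by_cases hp : 2 ^ (k + 1) < 3 ^ o
    · simp only [if_pos hp]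
      rw [sum_add_distrib]
      congr 1
      by_cases ho : o = 0
      · rw [if_pos ho]
        symm
        apply sum_eq_zero
        intro x _
        rw [if_neg]
        rintro ⟨-, h⟩
        omega
      · rw [if_neg ho, ih (o - 1)]
        apply sum_congr rfl
        intro x _
        apply if_congr _ rfl rfl
        constructor
        · rintro ⟨a, b⟩; exact ⟨a, by omega⟩
        · rintro ⟨a, b⟩; exact ⟨a, by omega⟩
    · simp only [if_neg hp, sum_const_zero]

theorem od_le (k n : ℕ) : od k n ≤ k := by
  induction k with
  | zero => simp [od]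
  | succ k ih =>
    rw [od_succ]
    have := Nat.mod_lt (T^[k] n) (show 0 < 2 by norm_num)
    omega

/-- the number of the surviving residues -/
def survivors (k : ℕ) : ℕ := ((range (2 ^ k)).filter fun n => Surv k n).card

theorem survivors_eq (k : ℕ) : (survivors k : ℤ) = (Dp k).eval 1 := by
  have hdeg : (Dp k).natDegree < k + 1 := by
    rw [Nat.lt_succ_iff, Polynomial.natDegree_le_iff_coeff_eq_zero]
    intro N hN
    rw [Dp_coeff]
    apply sum_eq_zero
    intro n _
    rw [if_neg]
    rintro ⟨-, h⟩
    have := od_le k n
    omega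
  rw [Polynomial.eval_eq_sum_range' hdeg]
  simp only [Dp_coeff, one_pow, mul_one]
  rw [sum_comm]
  unfold survivors
  rw [card_filter]
  push_cast
  apply sum_congr rfl
  intro n _
  by_cases h : Surv k n
  · rw [if_pos h, sum_eq_single (od k n)]
    · simp [h]
    · intro o _ ho
      rw [if_neg]
      rintro ⟨-, h2⟩
      exact ho h2.symm
    · intro h2
      exact absurd (mem_range.2 (by have := od_le k n; omega)) h2
  · rw [if_neg h]
    symm
    apply sum_eq_zero
    intro o _
    rw [if_neg]
    exact fun h2 => h h2.1

/-- the number of the words above the line at the end -/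
def upper (m : ℕ) : ℕ := ∑ o ∈ range (m + 1), if 2 ^ m < 3 ^ o then m.choose o else 0

/-- THE EXACT RECURSION -/
theorem exact (k : ℕ) : k * survivors k = ∑ j ∈ range k, survivors j * upper (k - j) := by
  have h := recursion k
  have h2 : ((k * survivors k : ℕ) : ℤ) = ((∑ j ∈ range k, survivors j * upper (k - j) : ℕ) : ℤ) := by
    push_cast
    rw [survivors_eq, h]
    apply sum_congr rfl
    intro j _
    rw [survivors_eq]
    congr 1
    unfold upper
    push_cast
    rfl
  exact_mod_cast h2

end Pool.Agent.H622.St
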