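import Mathlib
import Pool.Agent.H622.St2
import Pool.Agent.H622.St3

set_option autoImplicit false

/-! The sharp law of the stopping time, part 4: the number of the words above the line at the end. -/

namespace Pool.Agent.H622.St

open Finset Filter Topology

noncomputable def th : ℝ := Real.log 2 / Real.log 3

theorem log3_pos : 0 < Real.log 3 := Real.log_pos (by norm_num)
theorem log2_pos : 0 < Real.log 2 := Real.log_pos (by norm_num)

theorem th_pos : 0 < th := div_pos log2_pos log3_pos

theorem th_lt_one : th < 1 := by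
  unfold th
  rw [div_lt_one log3_pos]
  exact Real.log_lt_log (by norm_num) (by norm_num)

theorem th_gt : 1 / 2 < th := by
  unfold th
  rw [div_lt_div_iff₀ (by norm_num) log3_pos]
  have h : Real.log 3 < Real.log (2 ^ 2) := Real.log_lt_log (by norm_num) (by norm_num)
  rw [Real.log_pow] at h
  push_cast at h
  linarith

/-- the ratio -/
noncomputable def q : ℝ := (1 - th) / th

theorem q_pos : 0 < q := div_pos (by linarith [th_lt_one]) th_pos

theorem q_lt_one : q < 1 := by
  unfold q
  rw [div_lt_one th_pos]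
  linarith [th_gt]

/-- the entropy -/
noncomputable def He : ℝ := Real.binEntropy th

/-- the oscillating factor -/
noncomputable def hq (x : ℝ) : ℝ := q ^ ((⌈x⌉ : ℝ) - x)

theorem hq_pos (x : ℝ) : 0 < hq x := Real.rpow_pos_of_pos q_pos _

theorem hq_le_one (x : ℝ) : hq x ≤ 1 := by
  unfold hq
  apply Real.rpow_le_one q_pos.le q_lt_one.le
  linarith [Int.le_ceil x]

theorem q_le_hq (x : ℝ) : q ≤ hq x := by
  unfold hq
  have h1 := Int.ceil_lt_add_one x
  calc q = q ^ (1 : ℝ) := (Real.rpow_one q).symm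
    _ ≤ _ := Real.rpow_le_rpow_of_exponent_ge q_pos q_lt_one.le (by linarith)

/-- the constant -/
noncomputable def c1 : ℝ := (Real.sqrt (2 * Real.pi * (th * (1 - th))))⁻¹ / (1 - q)

theorem c1_pos : 0 < c1 := by
  unfold c1
  have h1 := th_pos
  have h2 := th_lt_one
  have h3 := q_lt_one
  have h4 : 0 < 1 - th := by linarith
  have h5 : 0 < 1 - q := by linarith
  have := Real.pi_pos
  positivity

/-- the normalized number of the words above the line at the end -/
noncomputable def au (m : ℕ) : ℝ := upper m * Real.exp (-(m * He))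

theorem pow_lt_iff (m o : ℕ) : 2 ^ m < 3 ^ o ↔ (m : ℝ) * th < o := by
  have h1 : (2 ^ m < 3 ^ o) ↔ ((2 : ℝ) ^ m < (3 : ℝ) ^ o) := by
    constructor
    · intro h; exact_mod_cast h
    · intro h; exact_mod_cast h
  rw [h1, ← Real.log_lt_log_iff (by positivity) (by positivity), Real.log_pow, Real.log_pow]
  unfold th
  rw [mul_div_assoc', div_lt_iff₀ log3_pos]

theorem upper_eq {m : ℕ} (hm : 0 < m) :
    upper m = ∑ i ∈ range (m + 1), m.choose (⌈(m : ℝ) * th⌉₊ + i) := by
  unfold upper
  set c := ⌈(m : ℝ) * th⌉₊ with hc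
  have h1 : ∀ o, 2 ^ m < 3 ^ o ↔ c ≤ o := by
    intro o
    rw [pow_lt_iff, hc, Nat.ceil_le]
    constructor
    · exact fun h => h.le
    · intro h
      rcases h.lt_or_eq with h2 | h2
      · exact h2
      · exfalso
        apply ne_pow (k := m) (o := o) hm
        have h3 : (m : ℝ) * Real.log 2 = o * Real.log 3 := by
          rw [← h2]; unfold th
          have := log3_pos
          field_simp
        have h4 : Real.log ((2 : ℝ) ^ m) = Real.log ((3 : ℝ) ^ o) := by
          rw [Real.log_pow, Real.log_pow]; exact h3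
        have h5 := Real.log_injOn_pos (Set.mem_Ioi.2 (by positivity)) (Set.mem_Ioi.2 (by positivity)) h4
        exact_mod_cast h5
  simp only [h1]
  rw [← sum_filter]
  have h2 : (range (m + 1)).filter (fun o => c ≤ o) = Ico c (m + 1) := by
    ext o; simp [mem_Ico]; omega
  rw [h2, sum_Ico_eq_sum_range]
  apply sum_subset (range_subset_range.2 (by omega))
  intro i _ hi
  rw [mem_range] at hi
  exact Nat.choose_eq_zero_of_lt (by omega)

theorem exp_He (m o : ℕ) (h : o ≤ m) :
    Real.exp (-(m * He)) = th ^ o * (1 - th) ^ (m - o) * q ^ ((o : ℝ) - m * th) := by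
  have h1 := th_pos
  have h2 : 0 < 1 - th := by linarith [th_lt_one]
  have e1 : th ^ o = Real.exp (o * Real.log th) := by
    rw [← Real.log_pow, Real.exp_log (by positivity)]
  have e2 : (1 - th) ^ (m - o) = Real.exp (((m : ℝ) - o) * Real.log (1 - th)) := by
    rw [← Nat.cast_sub h, ← Real.log_pow, Real.exp_log (by positivity)]
  have e3 : q ^ ((o : ℝ) - m * th) = Real.exp ((Real.log (1 - th) - Real.log th) * ((o : ℝ) - m * th)) := by
    rw [Real.rpow_def_of_pos q_pos]
    congr 2
    unfold q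
    rw [Real.log_div h2.ne' h1.ne']
  rw [e1, e2, e3, ← Real.exp_add, ← Real.exp_add]
  congr 1
  unfold He
  rw [Real.binEntropy, Real.log_inv, Real.log_inv]
  ring

theorem pb_eq_zero {m o : ℕ} (h : m < o) : pb th m o = 0 := by
  unfold pb
  rw [Nat.choose_eq_zero_of_lt h]; simp

theorem au_eq {m : ℕ} (hm : 0 < m) : Real.sqrt m * au m =
    hq (m * th) * ∑' i : ℕ, Real.sqrt m * pb th m (⌈(m : ℝ) * th⌉₊ + i) * q ^ i := by
  set c := ⌈(m : ℝ) * th⌉₊ with hc
  have hc' : (⌈(m : ℝ) * th⌉ : ℝ) = c := by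
    rw [hc, natCast_ceil_eq_intCast_ceil]
    have := th_pos
    positivity
  rw [tsum_eq_sum (s := range (m + 1))]
  · unfold au
    rw [upper_eq hm, ← hc]
    push_cast
    rw [sum_mul, mul_sum, mul_sum]
    apply sum_congr rfl
    intro i _
    by_cases h : c + i ≤ m
    · rw [exp_He m (c + i) h]
      have e : q ^ (((c + i : ℕ) : ℝ) - m * th) = hq (m * th) * q ^ i := by
        unfold hq
        rw [hc', ← Real.rpow_natCast q i, ← Real.rpow_add q_pos]
        congr 1
        push_cast; ring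
      rw [e]
      unfold pb
      ring
    · rw [pb_eq_zero (by omega), Nat.choose_eq_zero_of_lt (by omega)]
      simp
  · intro i hi
    rw [mem_range] at hi
    rw [pb_eq_zero (by omega)]
    simp

/-- the binomial probabilities decrease beyond the mean -/
theorem pb_anti {m o : ℕ} (h : (m : ℝ) * th ≤ o) : pb th m (o + 1) ≤ pb th m o := by
  have h1 := th_pos
  have h2 : 0 < 1 - th := by linarith [th_lt_one]
  rcases Nat.lt_or_ge o m with ho | ho
  swap
  · rw [pb_eq_zero (show m < o + 1 by omega)]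
    exact pb_nonneg th_pos th_lt_one _ _
  · unfold pb
    have e1 : (m.choose (o + 1) : ℝ) * (o + 1) = m.choose o * ((m : ℝ) - o) := by
      have := Nat.choose_succ_right_eq m o
      have h3 : ((m.choose (o + 1) * (o + 1) : ℕ) : ℝ) = ((m.choose o * (m - o) : ℕ) : ℝ) := by
        rw [this]
      rw [Nat.cast_mul, Nat.cast_mul, Nat.cast_sub ho.le] at h3
      push_cast at h3
      exact h3
    have e2 : (1 - th) ^ (m - o) = (1 - th) ^ (m - (o + 1)) * (1 - th) := by
      rw [← pow_succ]; congr 1; omega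
    rw [e2, pow_succ]
    have h3 : (m.choose (o + 1) : ℝ) * th ≤ m.choose o * (1 - th) := by
      have ho1 : (0 : ℝ) < (o : ℝ) + 1 := by positivity
      have h4 : ((m.choose (o + 1) : ℝ) * th) * (o + 1) ≤ (m.choose o * (1 - th)) * (o + 1) := by
        have h5 : ((m.choose (o + 1) : ℝ) * th) * (o + 1) = m.choose o * (((m : ℝ) - o) * th) := by
          rw [mul_right_comm, e1]; ring
        rw [h5, mul_assoc]
        apply mul_le_mul_of_nonneg_left _ (Nat.cast_nonneg _)
        nlinarith
      exact le_of_mul_le_mul_right h4 ho1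
    have h6 : 0 ≤ th ^ o * (1 - th) ^ (m - (o + 1)) := by positivity
    have h7 := mul_le_mul_of_nonneg_right h3 h6
    calc (m.choose (o + 1) : ℝ) * (th ^ o * th * (1 - th) ^ (m - (o + 1)))
        = (m.choose (o + 1) : ℝ) * th * (th ^ o * (1 - th) ^ (m - (o + 1))) := by ring
      _ ≤ _ := h7
      _ = _ := by ring

theorem pb_le {m o : ℕ} (h : (m : ℝ) * th ≤ o) (i : ℕ) : pb th m (o + i) ≤ pb th m o := by
  induction i with
  | zero => simp
  | succ i ih =>
    refine le_trans ?_ ih
    have : (m : ℝ) * th ≤ ((o + i : ℕ) : ℝ) := by push_cast; linarith [Nat.cast_nonneg (α := ℝ) i]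
    exact pb_anti this

theorem au_tendsto : Tendsto (fun m : ℕ => Real.sqrt m * au m - c1 * hq (m * th)) atTop (𝓝 0) := by
  have hth := th_pos
  have hq0 := q_pos
  have hq1 := q_lt_one
  have hceil : ∀ m i : ℕ, |((⌈(m : ℝ) * th⌉₊ + i : ℕ) : ℝ) - m * th| ≤ i + 1 := by
    intro m i
    have h1 := Nat.le_ceil ((m : ℝ) * th)
    have h2 := Nat.ceil_lt_add_one (show 0 ≤ (m : ℝ) * th by positivity)
    push_cast
    rw [abs_le]
    have : (0 : ℝ) ≤ i := Nat.cast_nonneg i
    constructor <;> linarith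
  have hlim : ∀ i : ℕ, Tendsto (fun m : ℕ => Real.sqrt m * pb th m (⌈(m : ℝ) * th⌉₊ + i) * q ^ i) atTop
      (𝓝 ((Real.sqrt (2 * Real.pi * (th * (1 - th))))⁻¹ * q ^ i)) := by
    intro i
    apply Tendsto.mul_const
    exact local_limit th_pos th_lt_one (B := i + 1) (fun m => ⌈(m : ℝ) * th⌉₊ + i)
      (Eventually.of_forall fun m => hceil m i)
  -- the bound
  have h0 := local_limit th_pos th_lt_one (B := 1) (fun m => ⌈(m : ℝ) * th⌉₊)
    (Eventually.of_forall fun m => by simpa using hceil m 0)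
  obtain ⟨M, hM⟩ := h0.bddAbove_range
  have hM' : ∀ m : ℕ, Real.sqrt m * pb th m ⌈(m : ℝ) * th⌉₊ ≤ M := fun m => hM ⟨m, rfl⟩
  have hdom := tendsto_tsum_of_dominated_convergence (𝓕 := atTop)
    (f := fun (m : ℕ) (i : ℕ) => Real.sqrt m * pb th m (⌈(m : ℝ) * th⌉₊ + i) * q ^ i)
    (g := fun i => (Real.sqrt (2 * Real.pi * (th * (1 - th))))⁻¹ * q ^ i)
    (bound := fun i => M * q ^ i) ((summable_geometric_of_lt_one hq0.le hq1).mul_left M) hlim
    (Eventually.of_forall fun m i => by
      have h1 := pb_nonneg th_pos th_lt_one m (⌈(m : ℝ) * th⌉₊ + i)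
      rw [Real.norm_eq_abs, abs_of_nonneg (by positivity)]
      apply mul_le_mul_of_nonneg_right _ (by positivity)
      refine le_trans ?_ (hM' m)
      exact mul_le_mul_of_nonneg_left (pb_le (Nat.le_ceil _) i) (Real.sqrt_nonneg _))
  rw [tsum_mul_left, tsum_geometric_of_lt_one hq0.le hq1, ← div_eq_mul_inv] at hdom
  have hsub : Tendsto (fun m : ℕ => (∑' i : ℕ, Real.sqrt m * pb th m (⌈(m : ℝ) * th⌉₊ + i) * q ^ i) - c1)
      atTop (𝓝 0) := by
    have := hdom.sub_const c1
    rwa [show (Real.sqrt (2 * Real.pi * (th * (1 - th))))⁻¹ / (1 - q) - c1 = 0 by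
      unfold c1; ring] at this
  have habs := hsub.abs
  rw [abs_zero] at habs
  apply squeeze_zero_norm' _ habs
  filter_upwards [eventually_gt_atTop 0] with m hm
  rw [au_eq hm]
  have e : hq (m * th) * (∑' i : ℕ, Real.sqrt m * pb th m (⌈(m : ℝ) * th⌉₊ + i) * q ^ i) - c1 * hq (m * th)
      = hq (m * th) * ((∑' i : ℕ, Real.sqrt m * pb th m (⌈(m : ℝ) * th⌉₊ + i) * q ^ i) - c1) := by ring
  rw [e, norm_mul, Real.norm_eq_abs, Real.norm_eq_abs, abs_of_pos (hq_pos _)]
  exact mul_le_of_le_one_left (abs_nonneg _) (hq_le_one _)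

end Pool.Agent.H622.St
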