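import Mathlib
import Pool.Agent.H622.St4
import Pool.Agent.H622.St5

set_option autoImplicit false

/-! The sharp law of the stopping time, part 6: the residues. -/

namespace Pool.Agent.H622.St

open Finset Filter Topology

/-- the normalized number of the surviving residues -/
noncomputable def ds (k : ℕ) : ℝ := survivors k * Real.exp (-(k * He))

theorem upper_zero : upper 0 = 0 := by
  unfold upper; simp

theorem rec_ds : ∃ M : ℝ, Rec au ds M := by
  obtain ⟨M1, hM1⟩ := au_tendsto.bddAbove_range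
  refine ⟨|M1| + c1 + 1, ?_, ?_, ?_, ?_, ?_⟩
  · intro m; unfold au; positivity
  · intro k; unfold ds; positivity
  · have := c1_pos; positivity
  · intro m
    have h1 : Real.sqrt m * au m - c1 * hq (m * th) ≤ M1 := hM1 ⟨m, rfl⟩
    have h2 := le_abs_self M1
    have h3 : c1 * hq (m * th) ≤ c1 := mul_le_of_le_one_right c1_pos.le (hq_le_one _)
    linarith
  · intro k
    have h := exact k
    have h2 : ((k * survivors k : ℕ) : ℝ) = ((∑ j ∈ range k, survivors j * upper (k - j) : ℕ) : ℝ) := by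
      rw [h]
    push_cast at h2
    unfold ds au
    rw [← mul_assoc, h2, sum_mul]
    apply sum_congr rfl
    intro j hj
    rw [mem_range] at hj
    have e : Real.exp (-(k * He)) = Real.exp (-(j * He)) * Real.exp (-(((k - j : ℕ) : ℝ) * He)) := by
      rw [← Real.exp_add, Nat.cast_sub hj.le]; congr 1; ring
    rw [e]; ring

/-- the oscillating limit -/
noncomputable def Psi (k : ℕ) : ℝ := c1 * ∑' j : ℕ, ds j * hq ((((k : ℤ) - j : ℤ) : ℝ) * th)

theorem hq_abs (z : ℤ) : |hq ((z : ℝ) * th)| ≤ 1 := by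
  rw [abs_of_pos (hq_pos _)]; exact hq_le_one _

theorem main_limit : Tendsto (fun k : ℕ => (k : ℝ) * Real.sqrt k * ds k - Psi k) atTop (𝓝 0) := by
  obtain ⟨M, hM⟩ := rec_ds
  exact hM.limit c1_pos.le (fun z : ℤ => hq ((z : ℝ) * th)) hq_abs (by
    refine au_tendsto.congr fun m => ?_
    norm_cast)

theorem ds_summable : Summable ds := by
  obtain ⟨M, hM⟩ := rec_ds
  exact hM.summable

theorem ds_nonneg (k : ℕ) : 0 ≤ ds k := by unfold ds; positivity

theorem ds_zero : ds 0 = 1 := by
  unfold ds survivors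
  have : ((range (2 ^ 0)).filter fun n => Surv 0 n) = {0} := by
    ext n
    simp only [pow_zero, range_one, mem_filter, mem_singleton]
    constructor
    · exact fun h => h.1
    · intro h; exact ⟨h, Surv_zero n⟩
  rw [this]; simp

theorem ds_bound : ∃ B : ℝ, 0 ≤ B ∧ ∀ k : ℕ, k * Real.sqrt k * ds k ≤ B := by
  obtain ⟨M, hM⟩ := rec_ds
  exact hM.bound

theorem Psi_summable (k : ℕ) : Summable fun j : ℕ => ds j * hq ((((k : ℤ) - j : ℤ) : ℝ) * th) := by
  apply Summable.of_norm_bounded ds_summable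
  intro j
  rw [norm_mul, Real.norm_eq_abs, Real.norm_eq_abs, abs_of_nonneg (ds_nonneg j)]
  exact mul_le_of_le_one_right (ds_nonneg j) (hq_abs _)

theorem Psi_le (k : ℕ) : Psi k ≤ c1 * ∑' j, ds j := by
  unfold Psi
  apply mul_le_mul_of_nonneg_left _ c1_pos.le
  apply (Psi_summable k).tsum_le_tsum _ ds_summable
  intro j
  exact mul_le_of_le_one_right (ds_nonneg j) (hq_le_one _)

theorem Psi_ge (k : ℕ) : c1 * q * ∑' j, ds j ≤ Psi k := by
  unfold Psi
  rw [mul_assoc]
  apply mul_le_mul_of_nonneg_left _ c1_pos.le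
  rw [← tsum_mul_left]
  apply (ds_summable.mul_left q).tsum_le_tsum _ (Psi_summable k)
  intro j
  rw [mul_comm]
  exact mul_le_mul_of_nonneg_left (q_le_hq _) (ds_nonneg j)

theorem tsum_ds_ge : 1 ≤ ∑' j, ds j := by
  have := ds_summable.le_tsum 0 fun j _ => ds_nonneg j
  rwa [ds_zero] at this

end Pool.Agent.H622.St
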