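import Mathlib
import Pool.Agent.H622.St6

set_option autoImplicit false

/-! The conditional law of the growth factor, part 1: the number of odd steps of the surviving residues. -/

namespace Pool.Agent.H622.St

open Finset Filter Topology Pool.Agent.Helper894.Collatz

/-- the number of the surviving residues with `o` odd steps -/
def An (k o : ℕ) : ℕ := ((range (2 ^ k)).filter fun n => Surv k n ∧ od k n = o).card

theorem An_eq (k o : ℕ) : (An k o : ℤ) = (Dp k).coeff o := by
  rw [Dp_coeff]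
  unfold An
  rw [card_filter]
  push_cast
  rfl

theorem An_zero {k o : ℕ} (h : k < o) : An k o = 0 := by
  unfold An
  rw [card_eq_zero, filter_eq_empty_iff]
  rintro n _ ⟨-, h2⟩
  have := od_le k n
  omega

theorem An_low {k o : ℕ} (h : ¬ 2 ^ k ≤ 3 ^ o) : An k o = 0 := by
  unfold An
  rw [card_eq_zero, filter_eq_empty_iff]
  rintro n _ ⟨h1, h2⟩
  have := h1 k le_rfl
  rw [h2] at this
  exact h this

theorem survivors_sum (k : ℕ) : survivors k = ∑ o ∈ range (k + 1), An k o := by
  unfold survivors An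
  rw [card_eq_sum_card_fiberwise (f := fun n => od k n) (t := range (k + 1))]
  · apply sum_congr rfl
    intro o _
    rw [filter_filter]
  · intro n _
    have := od_le k n
    simp only [coe_range, Set.mem_Iio]
    omega

/-- the two-variable recursion -/
theorem exact2 (k o : ℕ) : k * An k o = ∑ j ∈ range k, ∑ p ∈ antidiagonal o,
    An j p.1 * (if 2 ^ (k - j) < 3 ^ p.2 then (k - j).choose p.2 else 0) := by
  have h1 : PowerSeries.coeff k (D * Y) = (k : R) * PowerSeries.coeff k D := by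
    rw [mul_comm, Y_mul, coeff_dd]
  have hY0 : PowerSeries.coeff 0 Y = 0 := by
    unfold Y
    rw [PowerSeries.coeff_zero_eq_constantCoeff_apply, map_mul,
      ← PowerSeries.coeff_zero_eq_constantCoeff_apply, coeff_dd]
    simp
  have h2 := congrArg (fun p => Polynomial.coeff p o) h1

  rw [PowerSeries.coeff_mul, Polynomial.finsetSum_coeff,
    Finset.Nat.sum_antidiagonal_eq_sum_range_succ_mk, sum_range_succ, Nat.sub_self, hY0,
    mul_zero, Polynomial.coeff_zero, add_zero, ← Polynomial.C_eq_natCast, Polynomial.coeff_C_mul] at h2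
  unfold D at h2
  rw [PowerSeries.coeff_mk, ← An_eq] at h2
  have h3 : ((k * An k o : ℕ) : ℤ) = ((∑ j ∈ range k, ∑ p ∈ antidiagonal o,
    An j p.1 * (if 2 ^ (k - j) < 3 ^ p.2 then (k - j).choose p.2 else 0) : ℕ) : ℤ) := by
    push_cast
    rw [show ((k : ℤ)) * (An k o : ℤ) = _ from h2.symm]
    apply sum_congr rfl
    intro j hj
    rw [mem_range] at hj
    rw [PowerSeries.coeff_mk, Polynomial.coeff_mul]
    apply sum_congr rfl
    rintro p _
    rw [An_eq, Y_coeff _ _ (by omega)]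
  exact_mod_cast h3

/-- the probability, in the critical walk, of the surviving words with `o` odd steps -/
noncomputable def b (k o : ℕ) : ℝ := An k o * (th ^ o * (1 - th) ^ (k - o))

theorem b_nonneg (k o : ℕ) : 0 ≤ b k o := by
  unfold b
  have := th_pos
  have : 0 < 1 - th := by linarith [th_lt_one]
  positivity

theorem b_zero {k o : ℕ} (h : k < o) : b k o = 0 := by
  unfold b; rw [An_zero h]; simp

theorem b_rec (k o : ℕ) : k * b k o = ∑ j ∈ range k, ∑ p ∈ antidiagonal o,
    b j p.1 * (if 2 ^ (k - j) < 3 ^ p.2 then pb th (k - j) p.2 else 0) := by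
  have h := exact2 k o
  have h2 : ((k * An k o : ℕ) : ℝ) = ((∑ j ∈ range k, ∑ p ∈ antidiagonal o,
    An j p.1 * (if 2 ^ (k - j) < 3 ^ p.2 then (k - j).choose p.2 else 0) : ℕ) : ℝ) := by rw [h]
  push_cast at h2
  unfold b
  rw [← mul_assoc, h2, sum_mul]
  apply sum_congr rfl
  intro j hj
  rw [mem_range] at hj
  rw [sum_mul]
  apply sum_congr rfl
  rintro ⟨p1, p2⟩ hp
  rw [HasAntidiagonal.mem_antidiagonal] at hp
  simp only at hp ⊢
  split_ifs with hlt
  · rcases Nat.lt_or_ge j p1 with h3 | h3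
    · rw [An_zero h3]; simp
    · rcases Nat.lt_or_ge (k - j) p2 with h4 | h4
      · unfold pb
        rw [Nat.choose_eq_zero_of_lt h4]; simp
      · unfold pb
        have e1 : k - o = (j - p1) + (k - j - p2) := by omega
        rw [e1, ← hp, pow_add, pow_add]
        ring
  · simp

/-- the weighted sums -/
noncomputable def dsw (s : ℝ) (k : ℕ) : ℝ := ∑ o ∈ range (k + 1), b k o * s ^ ((o : ℝ) - k * th)

noncomputable def auw (s : ℝ) (m : ℕ) : ℝ :=
  ∑ o ∈ range (m + 1), (if 2 ^ m < 3 ^ o then pb th m o else 0) * s ^ ((o : ℝ) - m * th)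

theorem dsw_nonneg {s : ℝ} (hs : 0 < s) (k : ℕ) : 0 ≤ dsw s k := by
  unfold dsw
  apply sum_nonneg
  intro o _
  have := b_nonneg k o
  positivity

theorem auw_nonneg {s : ℝ} (hs : 0 < s) (k : ℕ) : 0 ≤ auw s k := by
  unfold auw
  apply sum_nonneg
  intro o _
  have := pb_nonneg th_pos th_lt_one k o
  split_ifs <;> positivity

theorem rec_w {s : ℝ} (hs : 0 < s) (k : ℕ) : (k : ℝ) * dsw s k = ∑ j ∈ range k, dsw s j * auw s (k - j) := by
  have h1 : ∀ o : ℕ, (k : ℝ) * (b k o * s ^ ((o : ℝ) - k * th)) = ∑ j ∈ range k, ∑ p ∈ antidiagonal o,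
      (b j p.1 * s ^ ((p.1 : ℝ) - j * th)) *
      ((if 2 ^ (k - j) < 3 ^ p.2 then pb th (k - j) p.2 else 0) * s ^ ((p.2 : ℝ) - ((k - j : ℕ) : ℝ) * th)) := by
    intro o
    rw [← mul_assoc, b_rec, sum_mul]
    apply sum_congr rfl
    intro j hj
    rw [mem_range] at hj
    rw [sum_mul]
    apply sum_congr rfl
    rintro ⟨p1, p2⟩ hp
    rw [HasAntidiagonal.mem_antidiagonal] at hp
    simp only at hp ⊢
    have e : s ^ ((o : ℝ) - k * th) = s ^ ((p1 : ℝ) - j * th) * s ^ ((p2 : ℝ) - ((k - j : ℕ) : ℝ) * th) := by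
      rw [← Real.rpow_add hs, ← hp, Nat.cast_sub hj.le]
      congr 1
      push_cast
      ring
    rw [e]
    ring
  unfold dsw
  rw [mul_sum]
  simp only [h1]
  rw [sum_comm]
  apply sum_congr rfl
  intro j hj
  rw [mem_range] at hj
  unfold auw
  rw [sum_mul_sum, ← sum_product']
  -- both sides as sums over pairs
  rw [Finset.sum_sigma']
  symm
  apply sum_of_injOn (fun p : ℕ × ℕ => (⟨p.1 + p.2, p⟩ : Σ _ : ℕ, ℕ × ℕ))
  · rintro ⟨a1, a2⟩ _ ⟨b1, b2⟩ _ h
    simp only [Sigma.mk.injEq, heq_eq_eq] at h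
    exact h.2
  · rintro ⟨a1, a2⟩ h
    simp only [coe_product, Set.mem_prod, mem_coe, mem_range] at h
    simp only [mem_coe, mem_sigma, mem_range, HasAntidiagonal.mem_antidiagonal]
    exact ⟨by omega, trivial⟩
  · rintro ⟨o, p1, p2⟩ h h2
    simp only [mem_sigma, mem_range, HasAntidiagonal.mem_antidiagonal] at h
    simp only [Set.mem_image, coe_product, Set.mem_prod, mem_coe, mem_range, not_exists, not_and,
      Prod.forall] at h2
    rcases Nat.lt_or_ge j p1 with h3 | h3
    · simp only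
      rw [b_zero h3]; simp
    · rcases Nat.lt_or_ge (k - j) p2 with h4 | h4
      · simp only
        rw [pb_eq_zero h4]; simp
      · exfalso
        apply h2 p1 p2 ⟨by omega, by omega⟩
        simp only [Sigma.mk.injEq, heq_eq_eq, and_true]
        omega
  · rintro ⟨a1, a2⟩ _
    rfl

theorem pb_bound : ∃ M : ℝ, 0 < M ∧ ∀ m o : ℕ, (m : ℝ) * th ≤ o → Real.sqrt m * pb th m o ≤ M := by
  have h0 := local_limit th_pos th_lt_one (B := 1) (fun m => ⌈(m : ℝ) * th⌉₊)
    (Eventually.of_forall fun m => by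
      have h1 := Nat.le_ceil ((m : ℝ) * th)
      have := th_pos
      have h2 := Nat.ceil_lt_add_one (show 0 ≤ (m : ℝ) * th by positivity)
      rw [abs_le]
      constructor <;> linarith)
  obtain ⟨M, hM⟩ := h0.bddAbove_range
  have hM' : ∀ m : ℕ, Real.sqrt m * pb th m ⌈(m : ℝ) * th⌉₊ ≤ M := fun m => hM ⟨m, rfl⟩
  refine ⟨|M| + 1, by positivity, ?_⟩
  intro m o h
  have h1 : ⌈(m : ℝ) * th⌉₊ ≤ o := Nat.ceil_le.2 h
  have h2 := pb_le (Nat.le_ceil ((m : ℝ) * th)) (o - ⌈(m : ℝ) * th⌉₊)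
  rw [Nat.add_sub_cancel' h1] at h2
  have h3 := mul_le_mul_of_nonneg_left h2 (Real.sqrt_nonneg m)
  have h4 := le_abs_self M
  linarith [hM' m]

theorem auw_bound {s : ℝ} (hs : 0 < s) (hs1 : s < 1) : ∃ M : ℝ, 0 < M ∧ ∀ m : ℕ, Real.sqrt m * auw s m ≤ M := by
  obtain ⟨M, hM0, hM⟩ := pb_bound
  have h1s : 0 < 1 - s := by linarith
  refine ⟨M * (1 - s)⁻¹, by positivity, ?_⟩
  intro m
  have hth := th_pos
  unfold auw
  rw [mul_sum]
  set c := ⌈(m : ℝ) * th⌉₊ with hc
  have h1 : ∀ o ∈ range (m + 1), Real.sqrt m * ((if 2 ^ m < 3 ^ o then pb th m o else 0) * s ^ ((o : ℝ) - m * th))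
      ≤ if c ≤ o then M * s ^ (o - c) else 0 := by
    intro o _
    by_cases h : c ≤ o
    · rw [if_pos h]
      have h2 : (m : ℝ) * th ≤ c := Nat.le_ceil _
      have h3 : (c : ℝ) ≤ o := by exact_mod_cast h
      have h4 : s ^ ((o : ℝ) - m * th) ≤ s ^ (o - c) := by
        rw [← Real.rpow_natCast s (o - c)]
        apply Real.rpow_le_rpow_of_exponent_ge hs hs1.le
        rw [Nat.cast_sub h]
        linarith
      have h5 : Real.sqrt m * (if 2 ^ m < 3 ^ o then pb th m o else 0) ≤ M := by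
        split_ifs
        · exact hM m o (by linarith)
        · rw [mul_zero]; exact hM0.le
      rw [← mul_assoc]
      exact mul_le_mul h5 h4 (by positivity) hM0.le
    · rw [if_neg h]
      have : ¬ 2 ^ m < 3 ^ o := by
        rw [pow_lt_iff]
        intro h2
        exact h (Nat.ceil_le.2 h2.le)
      rw [if_neg this]; simp
  refine (sum_le_sum h1).trans ?_
  rw [← sum_filter]
  have h6 : (range (m + 1)).filter (fun o => c ≤ o) = Ico c (m + 1) := by
    ext o; simp [mem_Ico]; omega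
  rw [h6, sum_Ico_eq_sum_range, ← mul_sum]
  apply mul_le_mul_of_nonneg_left _ hM0.le
  have h7 : ∀ i ∈ range (m + 1 - c), s ^ (c + i - c) = s ^ i := by
    intro i _; rw [Nat.add_sub_cancel_left]
  rw [sum_congr rfl h7, ← tsum_geometric_of_lt_one hs.le hs1]
  exact (summable_geometric_of_lt_one hs.le hs1).sum_le_tsum _ fun i _ => by positivity

theorem rec_dsw {s : ℝ} (hs : 0 < s) (hs1 : s < 1) : ∃ M : ℝ, Rec (auw s) (dsw s) M := by
  obtain ⟨M, hM0, hM⟩ := auw_bound hs hs1
  exact ⟨M, auw_nonneg hs, dsw_nonneg hs, hM0, hM, rec_w hs⟩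

/-- the normalized number of survivors as a weighted sum -/
theorem ds_eq (k : ℕ) : ds k = dsw q k := by
  unfold ds dsw
  rw [survivors_sum]
  push_cast
  rw [sum_mul]
  apply sum_congr rfl
  intro o ho
  rw [mem_range] at ho
  rw [exp_He k o (by omega)]
  unfold b
  ring

end Pool.Agent.H622.St
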