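import Mathlib
import Pool.Agent.H622.St10

set_option autoImplicit false

/-! The conditional law of the growth factor, part 3: convergence in total variation, tails. -/

namespace Pool.Agent.H622.St

open Finset Filter Topology Pool.Agent.Helper894.Collatz

/-- the weights of the limit law (not normalized) -/
noncomputable def Lw (k o : ℕ) : ℝ :=
  if (k : ℝ) * th < o then q ^ ((o : ℝ) - k * th) * Rf ((o : ℝ) - k * th) else 0

noncomputable def Z (k : ℕ) : ℝ := ∑' o, Lw k o

theorem Lw_nonneg (k o : ℕ) : 0 ≤ Lw k o := by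
  unfold Lw
  split_ifs
  · have := q_pos
    have := Rf_nonneg ((o : ℝ) - k * th)
    positivity
  · exact le_rfl

/-- the square root of `q` -/
noncomputable def sq : ℝ := Real.sqrt q

theorem sq_pos : 0 < sq := Real.sqrt_pos.2 q_pos
theorem sq_lt : sq < 1 := by
  unfold sq
  rw [Real.sqrt_lt' (by norm_num)]; linarith [q_lt_one]

theorem Lw_bound_gen {s : ℝ} (hs : 0 < s) (hs1 : s < 1) : ∃ C : ℝ, 0 < C ∧ ∀ k o : ℕ,
    Lw k o ≤ C * (q / s) ^ ((o : ℝ) - k * th) := by
  obtain ⟨C, hC, h⟩ := Rf_le hs hs1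
  refine ⟨C, hC, ?_⟩
  intro k o
  have hq := q_pos
  unfold Lw
  split_ifs
  · rw [Real.div_rpow hq.le hs.le, div_eq_mul_inv, ← Real.rpow_neg hs.le]
    have h1 := h ((o : ℝ) - k * th)
    have h2 : 0 < q ^ ((o : ℝ) - k * th) := Real.rpow_pos_of_pos hq _
    calc q ^ ((o : ℝ) - k * th) * Rf ((o : ℝ) - k * th) ≤
        q ^ ((o : ℝ) - k * th) * (C * s ^ (-((o : ℝ) - k * th))) := mul_le_mul_of_nonneg_left h1 h2.le
      _ = _ := by ring
  · positivity

theorem q_div_sq : q / sq = sq := by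
  have h : sq * sq = q := Real.mul_self_sqrt q_pos.le
  have := sq_pos
  rw [div_eq_iff this.ne', h]

theorem ceil_facts (k i : ℕ) : (i : ℝ) ≤ ((⌈(k : ℝ) * th⌉₊ + i : ℕ) : ℝ) - k * th ∧
    ((⌈(k : ℝ) * th⌉₊ + i : ℕ) : ℝ) - k * th < i + 1 := by
  have h1 := Nat.le_ceil ((k : ℝ) * th)
  have := th_pos
  have h2 := Nat.ceil_lt_add_one (show 0 ≤ (k : ℝ) * th by positivity)
  push_cast
  constructor <;> linarith

theorem Lw_shift_bound : ∃ C : ℝ, 0 < C ∧ ∀ k i : ℕ, Lw k (⌈(k : ℝ) * th⌉₊ + i) ≤ C * sq ^ i := by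
  obtain ⟨C, hC, h⟩ := Lw_bound_gen sq_pos sq_lt
  refine ⟨C, hC, ?_⟩
  intro k i
  refine (h k _).trans (mul_le_mul_of_nonneg_left ?_ hC.le)
  rw [q_div_sq, ← Real.rpow_natCast sq i]
  exact Real.rpow_le_rpow_of_exponent_ge sq_pos sq_lt.le (ceil_facts k i).1

theorem Lw_low {k o : ℕ} (h : o < ⌈(k : ℝ) * th⌉₊) : Lw k o = 0 := by
  unfold Lw
  rw [if_neg]
  intro h2
  exact absurd (Nat.ceil_le.2 h2.le) (by omega)

theorem summable_of_shift {g : ℕ → ℝ} (c : ℕ) (h : Summable fun i => g (c + i)) : Summable g := by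
  rw [← summable_nat_add_iff c]
  refine h.congr fun i => ?_
  rw [add_comm]

theorem tsum_shift {g : ℕ → ℝ} (c : ℕ) (hs : Summable g) (h0 : ∀ o < c, g o = 0) :
    ∑' o, g o = ∑' i, g (c + i) := by
  rw [← hs.sum_add_tsum_nat_add c, sum_eq_zero fun o ho => h0 o (mem_range.1 ho), zero_add]
  apply tsum_congr
  intro i
  rw [add_comm]

theorem Lw_summable (k : ℕ) : Summable (Lw k) := by
  obtain ⟨C, hC, h⟩ := Lw_shift_bound
  apply summable_of_shift ⌈(k : ℝ) * th⌉₊
  exact Summable.of_nonneg_of_le (fun i => Lw_nonneg _ _) (h k)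
    ((summable_geometric_of_lt_one sq_pos.le sq_lt).mul_left _)

theorem Z_le : ∃ C : ℝ, 0 < C ∧ ∀ k, Z k ≤ C := by
  obtain ⟨C, hC, h⟩ := Lw_shift_bound
  have h1 : 0 < 1 - sq := by linarith [sq_lt]
  refine ⟨C * (1 - sq)⁻¹, by positivity, ?_⟩
  intro k
  unfold Z
  rw [tsum_shift ⌈(k : ℝ) * th⌉₊ (Lw_summable k) (fun o ho => Lw_low ho),
    ← tsum_geometric_of_lt_one sq_pos.le sq_lt, ← tsum_mul_left]
  apply Summable.tsum_le_tsum (h k)
  · exact Summable.of_nonneg_of_le (fun i => Lw_nonneg _ _) (h k)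
      ((summable_geometric_of_lt_one sq_pos.le sq_lt).mul_left _)
  · exact (summable_geometric_of_lt_one sq_pos.le sq_lt).mul_left _

theorem Lw_ge {k o : ℕ} (h : (k : ℝ) * th < o) : q ^ ((o : ℝ) - k * th) ≤ Lw k o := by
  unfold Lw
  rw [if_pos h]
  have h1 := Rf_ge_one (sub_pos.2 h)
  have h2 : 0 < q ^ ((o : ℝ) - k * th) := Real.rpow_pos_of_pos q_pos _
  nlinarith

theorem Z_ge (k : ℕ) : q ≤ Z k := by
  -- the least `o` above the line
  have hth := th_pos
  have h1 : (k : ℝ) * th < ((⌊(k : ℝ) * th⌋₊ + 1 : ℕ) : ℝ) := by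
    push_cast; exact Nat.lt_floor_add_one _
  have h2 : ((⌊(k : ℝ) * th⌋₊ + 1 : ℕ) : ℝ) - k * th ≤ 1 := by
    push_cast
    have := Nat.floor_le (show 0 ≤ (k : ℝ) * th by positivity)
    linarith
  have h3 := (Lw_summable k).le_tsum (⌊(k : ℝ) * th⌋₊ + 1) fun j _ => Lw_nonneg k j
  have h4 := Lw_ge h1
  have h5 : q ≤ q ^ (((⌊(k : ℝ) * th⌋₊ + 1 : ℕ) : ℝ) - k * th) := by
    calc q = q ^ (1 : ℝ) := (Real.rpow_one q).symm
      _ ≤ _ := Real.rpow_le_rpow_of_exponent_ge q_pos q_lt_one.le h2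
  unfold Z
  linarith

theorem Z_pos (k : ℕ) : 0 < Z k := lt_of_lt_of_le q_pos (Z_ge k)

theorem An_exp (k o : ℕ) : (An k o : ℝ) * Real.exp (-(k * He)) = b k o * q ^ ((o : ℝ) - k * th) := by
  rcases Nat.lt_or_ge k o with h | h
  · rw [b_zero h, An_zero h]; simp
  · rw [exp_He k o h]
    unfold b
    ring

/-- the difference of the two laws, not normalized -/
noncomputable def df (k o : ℕ) : ℝ :=
  |(k : ℝ) * Real.sqrt k * (An k o * Real.exp (-(k * He))) - c0 * Lw k o|

theorem df_low {k o : ℕ} (h : o < ⌈(k : ℝ) * th⌉₊) : df k o = 0 := by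
  unfold df
  rw [Lw_low h, An_low]
  · simp
  · intro h2
    have h3 : (o : ℝ) < k * th := Nat.lt_ceil.1 h
    have h4 : (3 : ℝ) ^ o < 2 ^ k := by
      rw [← Real.log_lt_log_iff (by positivity) (by positivity), Real.log_pow, Real.log_pow]
      unfold th at h3
      rwa [mul_div_assoc', lt_div_iff₀ log3_pos] at h3
    have h5 : 3 ^ o < 2 ^ k := by exact_mod_cast h4
    omega

theorem df_shift_bound : ∃ C : ℝ, 0 < C ∧ ∀ k i : ℕ, df k (⌈(k : ℝ) * th⌉₊ + i) ≤ C * sq ^ i := by
  obtain ⟨C1, hC1, h1⟩ := Lw_shift_bound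
  obtain ⟨C2, hC2, h2⟩ := b_bound sq_pos sq_lt
  have hc0 := c0_pos
  refine ⟨C2 + c0 * C1, by positivity, ?_⟩
  intro k i
  unfold df
  set o := ⌈(k : ℝ) * th⌉₊ + i with ho
  have hq := q_pos
  have hb := b_nonneg k o
  have e1 : 0 ≤ (k : ℝ) * Real.sqrt k * (An k o * Real.exp (-(k * He))) := by positivity
  have e2 : 0 ≤ c0 * Lw k o := mul_nonneg hc0.le (Lw_nonneg _ _)
  refine (abs_sub _ _).trans ?_
  rw [abs_of_nonneg e1, abs_of_nonneg e2, An_exp]
  have e3 := h2 k o
  have e4 : 0 < q ^ ((o : ℝ) - k * th) := Real.rpow_pos_of_pos hq _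
  have e5 : (k : ℝ) * Real.sqrt k * (b k o * q ^ ((o : ℝ) - k * th)) ≤ C2 * sq ^ i := by
    calc (k : ℝ) * Real.sqrt k * (b k o * q ^ ((o : ℝ) - k * th)) =
        (k * Real.sqrt k * b k o) * q ^ ((o : ℝ) - k * th) := by ring
      _ ≤ (C2 * sq ^ (-((o : ℝ) - k * th))) * q ^ ((o : ℝ) - k * th) :=
          mul_le_mul_of_nonneg_right e3 e4.le
      _ = C2 * (q / sq) ^ ((o : ℝ) - k * th) := by
          rw [Real.div_rpow hq.le sq_pos.le, div_eq_mul_inv, ← Real.rpow_neg sq_pos.le]; ring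
      _ ≤ _ := by
          apply mul_le_mul_of_nonneg_left _ hC2.le
          rw [q_div_sq, ← Real.rpow_natCast sq i]
          exact Real.rpow_le_rpow_of_exponent_ge sq_pos sq_lt.le (ceil_facts k i).1
  have e6 := mul_le_mul_of_nonneg_left (h1 k i) hc0.le
  have e7 : (C2 + c0 * C1) * sq ^ i = C2 * sq ^ i + c0 * (C1 * sq ^ i) := by ring
  rw [e7]
  exact add_le_add e5 e6

theorem df_nonneg (k o : ℕ) : 0 ≤ df k o := abs_nonneg _

theorem df_summable (k : ℕ) : Summable (df k) := by
  obtain ⟨C, hC, h⟩ := df_shift_bound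
  apply summable_of_shift ⌈(k : ℝ) * th⌉₊
  exact Summable.of_nonneg_of_le (fun i => df_nonneg _ _) (h k)
    ((summable_geometric_of_lt_one sq_pos.le sq_lt).mul_left _)

/-- THE LAW OF THE NUMBER OF ODD STEPS, in the sense of `ℓ¹` -/
theorem df_tendsto : Tendsto (fun k => ∑' o, df k o) atTop (𝓝 0) := by
  obtain ⟨C, hC, h⟩ := df_shift_bound
  have h1 : Tendsto (fun k : ℕ => ∑' i : ℕ, df k (⌈(k : ℝ) * th⌉₊ + i)) atTop (𝓝 (∑' _ : ℕ, (0 : ℝ))) := by
    apply tendsto_tsum_of_dominated_convergence (bound := fun i => C * sq ^ i)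
      ((summable_geometric_of_lt_one sq_pos.le sq_lt).mul_left _)
    · intro i
      have h2 := local_surv (i + 1) (fun k : ℕ => ⌈(k : ℝ) * th⌉₊ + i) (fun k => by
        have := ceil_facts k i
        rw [abs_le]
        have : (0 : ℝ) ≤ i := Nat.cast_nonneg i
        constructor <;> linarith)
      have h3 := h2.abs
      rw [abs_zero] at h3
      apply squeeze_zero' (Eventually.of_forall fun k => df_nonneg _ _) _ h3
      filter_upwards [eventually_gt_atTop 0] with k hk
      unfold df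
      set o := ⌈(k : ℝ) * th⌉₊ + i with ho
      rw [An_exp]
      have hgt : (k : ℝ) * th < o := by
        have h4 := (ceil_facts k i).1
        rcases lt_or_eq_of_le (show (k : ℝ) * th ≤ o by
          have : (0 : ℝ) ≤ i := Nat.cast_nonneg i
          linarith) with h5 | h5
        · exact h5
        · exfalso
          have h6 : (3 : ℝ) ^ o = 2 ^ k := by
            apply Real.log_injOn_pos (Set.mem_Ioi.2 (by positivity)) (Set.mem_Ioi.2 (by positivity))
            rw [Real.log_pow, Real.log_pow, ← h5]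
            unfold th
            have := log3_pos
            field_simp
          have h7 : 3 ^ o = 2 ^ k := by exact_mod_cast h6
          exact ne_pow hk h7.symm
      have e1 : Lw k o = q ^ ((o : ℝ) - k * th) * Rf ((o : ℝ) - k * th) := by
        unfold Lw; rw [if_pos hgt]
      rw [e1]
      have e2 : (k : ℝ) * Real.sqrt k * (b k o * q ^ ((o : ℝ) - k * th)) -
          c0 * (q ^ ((o : ℝ) - k * th) * Rf ((o : ℝ) - k * th)) =
          q ^ ((o : ℝ) - k * th) * (k * Real.sqrt k * b k o - c0 * Rf ((o : ℝ) - k * th)) := by ring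
      rw [e2, abs_mul, abs_of_pos (Real.rpow_pos_of_pos q_pos _)]
      apply mul_le_of_le_one_left (abs_nonneg _)
      exact Real.rpow_le_one q_pos.le q_lt_one.le (by linarith)
    · exact Eventually.of_forall fun k i => by
        rw [Real.norm_eq_abs, abs_of_nonneg (df_nonneg _ _)]
        exact h k i
  rw [tsum_zero] at h1
  refine h1.congr fun k => ?_
  exact (tsum_shift _ (df_summable k) fun o ho => df_low ho).symm

theorem An_summable (k : ℕ) : Summable fun o => (An k o : ℝ) :=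
  summable_of_ne_finset_zero (s := range (k + 1)) fun o ho => by
    rw [mem_range] at ho
    rw [An_zero (by omega)]; simp

theorem An_tsum (k : ℕ) : ∑' o, (An k o : ℝ) = survivors k := by
  rw [tsum_eq_sum (s := range (k + 1)) fun o ho => by
    rw [mem_range] at ho
    rw [An_zero (by omega)]; simp]
  rw [survivors_sum]; push_cast; rfl

theorem mass_diff (k : ℕ) : ‖(k : ℝ) * Real.sqrt k * ds k - c0 * Z k‖ ≤ ∑' o, df k o := by
  have h1 : (k : ℝ) * Real.sqrt k * ds k - c0 * Z k =
      ∑' o, ((k : ℝ) * Real.sqrt k * (An k o * Real.exp (-(k * He))) - c0 * Lw k o) := by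
    rw [Summable.tsum_sub (((An_summable k).mul_right _).mul_left _) ((Lw_summable k).mul_left _),
      tsum_mul_left, tsum_mul_left, tsum_mul_right, An_tsum]
    rfl
  rw [h1]
  exact norm_tsum_le_tsum_norm (df_summable k)

/-- the number of survivors -/
theorem surv_Z : Tendsto (fun k : ℕ => (k : ℝ) * Real.sqrt k * ds k - c0 * Z k) atTop (𝓝 0) :=
  squeeze_zero_norm mass_diff df_tendsto

theorem An_le_survivors (k o : ℕ) : An k o ≤ survivors k := by
  unfold An survivors
  apply card_le_card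
  intro n hn
  rw [mem_filter] at hn ⊢
  exact ⟨hn.1, hn.2.1⟩

/-- the laws, normalized -/
theorem tv_tendsto : Tendsto (fun k => ∑' o, |(An k o : ℝ) / survivors k - Lw k o / Z k|) atTop (𝓝 0) := by
  have hc0 := c0_pos
  have h1 := (df_tendsto.const_mul (2 * (c0 * q)⁻¹))
  rw [mul_zero] at h1
  have h2 := surv_Z
  -- eventually the number of survivors is positive
  have h3 : ∀ᶠ k : ℕ in atTop, c0 * q / 2 ≤ (k : ℝ) * Real.sqrt k * ds k := by
    have h4 := (Metric.tendsto_nhds.1 h2) (c0 * q / 2) (by have := q_pos; positivity)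
    filter_upwards [h4] with k hk
    rw [Real.dist_eq, sub_zero, abs_lt] at hk
    have := mul_le_mul_of_nonneg_left (Z_ge k) hc0.le
    linarith [hk.1]
  apply squeeze_zero' (Eventually.of_forall fun k => tsum_nonneg fun o => abs_nonneg _) _ h1
  filter_upwards [h3] with k hk
  have hq := q_pos
  set m : ℝ := (k : ℝ) * Real.sqrt k * ds k with hm
  have hm0 : 0 < m := lt_of_lt_of_le (by positivity) hk
  have hZ := Z_pos k
  have hZq := Z_ge k
  have hSm : m = ((k : ℝ) * Real.sqrt k * Real.exp (-(k * He))) * survivors k := by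
    rw [hm]; unfold ds; ring
  have hS0 : (0 : ℝ) < survivors k := by
    rcases (Nat.cast_nonneg (α := ℝ) (survivors k)).lt_or_eq with h | h
    · exact h
    · rw [← h, mul_zero] at hSm; linarith
  set e : ℝ := (k : ℝ) * Real.sqrt k * Real.exp (-(k * He)) with he
  have he0 : 0 < e := by
    rcases lt_or_ge 0 e with h | h
    · exact h
    · exfalso
      have : m ≤ 0 := by rw [hSm]; exact mul_nonpos_of_nonpos_of_nonneg h hS0.le
      linarith
  -- the difference of the total masses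
  have hmZ : |m - c0 * Z k| ≤ ∑' o, df k o := mass_diff k
  -- termwise
  have hterm : ∀ o, |(An k o : ℝ) / survivors k - Lw k o / Z k| ≤
      (c0 * Z k)⁻¹ * (df k o + (An k o / survivors k) * |m - c0 * Z k|) := by
    intro o
    have e1 : (An k o : ℝ) / survivors k - Lw k o / Z k = (c0 * Z k)⁻¹ *
        ((e * An k o - c0 * Lw k o) - (An k o / survivors k) * (m - c0 * Z k)) := by
      rw [hSm]
      field_simp
      ring
    have e2 : df k o = |e * An k o - c0 * Lw k o| := by
      unfold df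
      congr 1
      rw [he]; ring
    rw [e1, abs_mul, abs_of_pos (by positivity), e2]
    apply mul_le_mul_of_nonneg_left _ (by positivity)
    refine (abs_sub _ _).trans ?_
    rw [abs_mul, abs_of_nonneg (show 0 ≤ (An k o : ℝ) / survivors k by positivity)]
  have hsA : Summable fun o => (An k o : ℝ) / survivors k := (An_summable k).div_const _
  have hsR : Summable fun o => (c0 * Z k)⁻¹ * (df k o + (An k o / survivors k) * |m - c0 * Z k|) :=
    ((df_summable k).add (hsA.mul_right _)).mul_left _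
  have hle := Summable.tsum_le_tsum hterm (Summable.of_nonneg_of_le (fun o => abs_nonneg _) hterm hsR) hsR
  refine hle.trans ?_
  rw [tsum_mul_left, (df_summable k).tsum_add (hsA.mul_right _), tsum_mul_right, tsum_div_const,
    An_tsum, div_self hS0.ne', one_mul]
  have hD0 : 0 ≤ ∑' o, df k o := tsum_nonneg (df_nonneg k)
  have hinv : (c0 * Z k)⁻¹ ≤ (c0 * q)⁻¹ := by
    apply inv_anti₀ (by positivity)
    exact mul_le_mul_of_nonneg_left hZq hc0.le
  calc (c0 * Z k)⁻¹ * (∑' o, df k o + |m - c0 * Z k|) ≤ (c0 * q)⁻¹ * (∑' o, df k o + ∑' o, df k o) := by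
        apply mul_le_mul hinv (by linarith) (by positivity) (by positivity)
    _ = _ := by ring

end Pool.Agent.H622.St
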