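import Mathlib
import Pool.Agent.H622.St11

set_option autoImplicit false

/-! The conditional law of the growth factor, part 4: the tail of the limit law, the residues which stop. -/

namespace Pool.Agent.H622.St

open Finset Filter Topology Pool.Agent.Helper894.Collatz

/-- the tail of the limit law -/
noncomputable def tail (k : ℕ) (t : ℝ) : ℝ := ∑' o : ℕ, if t < (o : ℝ) - k * th then Lw k o / Z k else 0

theorem tail_summable (k : ℕ) (t : ℝ) :
    Summable fun o : ℕ => if t < (o : ℝ) - k * th then Lw k o / Z k else 0 := by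
  apply Summable.of_nonneg_of_le _ _ ((Lw_summable k).div_const (Z k))
  · intro o
    split_ifs
    · exact div_nonneg (Lw_nonneg _ _) (Z_pos k).le
    · exact le_rfl
  · intro o
    split_ifs
    · exact le_rfl
    · exact div_nonneg (Lw_nonneg _ _) (Z_pos k).le

theorem tail_upper {δ : ℝ} (hδ : 0 < δ) (hδ1 : δ < 1) : ∃ t0 : ℝ, ∀ (k : ℕ) (t : ℝ), t0 ≤ t → 0 ≤ t →
    tail k t ≤ q ^ ((1 - δ) * t) := by
  have hq := q_pos
  have hq1 := q_lt_one
  set s : ℝ := q ^ (δ / 2) with hs
  have hs0 : 0 < s := Real.rpow_pos_of_pos hq _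
  have hs1 : s < 1 := Real.rpow_lt_one hq.le hq1 (by linarith)
  obtain ⟨C, hC, h⟩ := Lw_bound_gen hs0 hs1
  set p : ℝ := q / s with hp
  have hp' : p = q ^ (1 - δ / 2) := by
    rw [hp, hs, Real.rpow_sub hq, Real.rpow_one]
  have hp0 : 0 < p := div_pos hq hs0
  have hp1 : p < 1 := by rw [hp']; exact Real.rpow_lt_one hq.le hq1 (by linarith)
  set A : ℝ := C / (q * (1 - p)) with hA
  have h1p : 0 < 1 - p := by linarith
  have hA0 : 0 < A := by positivity
  -- `A q^(δ t / 2) ≤ 1`
  have hlog : 0 < -Real.log q := by linarith [Real.log_neg hq hq1]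
  refine ⟨2 * Real.log A / (δ * (-Real.log q)), ?_⟩
  intro k t ht ht0
  -- the sum starts at `o = m`
  set m : ℕ := ⌊t + k * th⌋₊ + 1 with hm
  have hth := th_pos
  have hpos : 0 ≤ t + k * th := by positivity
  have hm1 : t < (m : ℝ) - k * th := by
    have := Nat.lt_floor_add_one (t + k * th)
    rw [hm]; push_cast; linarith
  have hm2 : (m : ℝ) - k * th ≤ t + 1 := by
    have := Nat.floor_le hpos
    rw [hm]; push_cast; linarith
  have hZq := Z_ge k
  have hZ := Z_pos k
  have h1 : tail k t = ∑' i : ℕ, if t < ((m + i : ℕ) : ℝ) - k * th then Lw k (m + i) / Z k else 0 := by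
    unfold tail
    rw [tsum_shift m (tail_summable k t)]
    intro o ho
    rw [if_neg]
    intro h2
    have h3 : (o : ℝ) ≤ ⌊t + k * th⌋₊ := by exact_mod_cast (by omega : o ≤ ⌊t + k * th⌋₊)
    have := Nat.floor_le hpos
    linarith
  have hterm : ∀ i : ℕ, (if t < ((m + i : ℕ) : ℝ) - k * th then Lw k (m + i) / Z k else 0) ≤
      C / q * p ^ t * p ^ i := by
    intro i
    split_ifs
    · have h2 := h k (m + i)
      have h3 : p ^ (((m + i : ℕ) : ℝ) - k * th) ≤ p ^ t * p ^ i := by
        rw [← Real.rpow_natCast p i, ← Real.rpow_add hp0]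
        apply Real.rpow_le_rpow_of_exponent_ge hp0 hp1.le
        push_cast
        linarith
      calc Lw k (m + i) / Z k ≤ (C * p ^ (((m + i : ℕ) : ℝ) - k * th)) / q :=
            div_le_div₀ (by positivity) h2 hq hZq
        _ ≤ (C * (p ^ t * p ^ i)) / q := by
            apply div_le_div_of_nonneg_right _ hq.le
            exact mul_le_mul_of_nonneg_left h3 hC.le
        _ = _ := by ring
    · positivity
  have hgs : Summable fun i : ℕ => C / q * p ^ t * p ^ i :=
    (summable_geometric_of_lt_one hp0.le hp1).mul_left _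
  rw [h1]
  have h4 := Summable.tsum_le_tsum hterm (Summable.of_nonneg_of_le (fun i => by
    split_ifs
    · exact div_nonneg (Lw_nonneg _ _) hZ.le
    · exact le_rfl) hterm hgs) hgs
  refine h4.trans ?_
  rw [tsum_mul_left, tsum_geometric_of_lt_one hp0.le hp1]
  have e : C / q * p ^ t * (1 - p)⁻¹ = A * p ^ t := by rw [hA]; field_simp
  rw [e, hp', ← Real.rpow_mul hq.le]
  have e2 : q ^ ((1 - δ) * t) = q ^ ((1 - δ / 2) * t) * q ^ (-(δ / 2 * t)) := by
    rw [← Real.rpow_add hq]; congr 1; ring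
  rw [e2, mul_comm]
  apply mul_le_mul_of_nonneg_left _ (by positivity)
  rw [Real.rpow_def_of_pos hq, ← Real.log_le_iff_le_exp hA0]
  rw [div_le_iff₀ (by positivity)] at ht
  nlinarith

theorem tail_lower {δ : ℝ} (hδ : 0 < δ) : ∃ t0 : ℝ, ∀ (k : ℕ) (t : ℝ), t0 ≤ t → 0 ≤ t →
    q ^ ((1 + δ) * t) ≤ tail k t := by
  have hq := q_pos
  have hq1 := q_lt_one
  obtain ⟨C, hC, h⟩ := Z_le
  have hlog : 0 < -Real.log q := by linarith [Real.log_neg hq hq1]
  refine ⟨Real.log (C / q) / (δ * (-Real.log q)), ?_⟩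
  intro k t ht ht0
  set m : ℕ := ⌊t + k * th⌋₊ + 1 with hm
  have hth := th_pos
  have hpos : 0 ≤ t + k * th := by positivity
  have hm1 : t < (m : ℝ) - k * th := by
    have := Nat.lt_floor_add_one (t + k * th)
    rw [hm]; push_cast; linarith
  have hm2 : (m : ℝ) - k * th ≤ t + 1 := by
    have := Nat.floor_le hpos
    rw [hm]; push_cast; linarith
  have hZ := Z_pos k
  have h1 := (tail_summable k t).le_tsum m fun o _ => by
    split_ifs
    · exact div_nonneg (Lw_nonneg _ _) hZ.le
    · exact le_rfl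
  rw [if_pos hm1] at h1
  unfold tail
  refine le_trans ?_ h1
  have h2 := Lw_ge (k := k) (o := m) (by linarith)
  have h3 : q ^ (t + 1) ≤ q ^ ((m : ℝ) - k * th) := Real.rpow_le_rpow_of_exponent_ge hq hq1.le hm2
  rw [le_div_iff₀ hZ]
  have h4 : q ^ ((1 + δ) * t) * Z k ≤ q ^ ((1 + δ) * t) * C := mul_le_mul_of_nonneg_left (h k) (by positivity)
  refine h4.trans (le_trans ?_ (h3.trans h2))
  have e : q ^ ((1 + δ) * t) = q ^ (t + 1) * q ^ (δ * t - 1) := by
    rw [← Real.rpow_add hq]; congr 1; ring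
  rw [e, mul_assoc]
  apply mul_le_of_le_one_right (by positivity)
  rw [Real.rpow_sub hq, Real.rpow_one, div_mul_eq_mul_div, div_le_one hq]
  have h5 : C / q ≤ q ^ (-(δ * t)) := by
    rw [Real.rpow_def_of_pos hq, ← Real.log_le_iff_le_exp (by positivity)]
    rw [div_le_iff₀ (by positivity)] at ht
    nlinarith
  rw [div_le_iff₀ hq] at h5
  have h6 : 0 < q ^ (δ * t) := Real.rpow_pos_of_pos hq _
  have h7 := mul_le_mul_of_nonneg_left h5 h6.le
  have h8 : q ^ (δ * t) * (q ^ (-(δ * t)) * q) = q := by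
    rw [← mul_assoc, ← Real.rpow_add hq]; simp
  linarith

/-- the recursion for the number of the survivors with `o` odd steps -/
theorem An_succ (k o : ℕ) : An (k + 1) o =
    if 2 ^ (k + 1) < 3 ^ o then An k o + (if o = 0 then 0 else An k (o - 1)) else 0 := by
  have h : (An (k + 1) o : ℤ) = ((if 2 ^ (k + 1) < 3 ^ o then An k o + (if o = 0 then 0 else An k (o - 1))
    else 0 : ℕ) : ℤ) := by
    rw [An_eq]
    show (cut (fun o => 2 ^ (k + 1) < 3 ^ o) ((1 + Polynomial.X) * Dp k)).coeff o = _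
    rw [coeff_cut]
    split_ifs with h1 h2
    · rw [coeff_y, if_pos h2]; push_cast; rw [An_eq]
    · rw [coeff_y, if_neg h2]; push_cast; rw [An_eq, An_eq]
    · rfl
  exact_mod_cast h

theorem two_survivors (k : ℕ) : 2 * survivors k =
    ∑ o ∈ range (k + 2), (An k o + (if o = 0 then 0 else An k (o - 1))) := by
  rw [sum_add_distrib]
  have h1 : ∑ o ∈ range (k + 2), An k o = survivors k := by
    rw [sum_range_succ, An_zero (by omega), add_zero, survivors_sum]
  have h2 : ∑ o ∈ range (k + 2), (if o = 0 then 0 else An k (o - 1)) = survivors k := by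
    rw [sum_range_succ', survivors_sum]
    simp
  rw [h1, h2]; ring

theorem stop_sum (k : ℕ) : 2 * survivors k = survivors (k + 1) +
    ∑ o ∈ range (k + 2), if ¬ 2 ^ (k + 1) < 3 ^ o then An k o else 0 := by
  rw [two_survivors, survivors_sum (k + 1), ← sum_add_distrib]
  apply sum_congr rfl
  intro o _
  rw [An_succ]
  by_cases h : 2 ^ (k + 1) < 3 ^ o
  · rw [if_pos h, if_neg (not_not.2 h), add_zero]
  · rw [if_neg h, if_pos h, zero_add]
    split_ifs with h2
    · rw [add_zero]
    · rw [An_low (o := o - 1), add_zero]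
      intro h3
      apply h
      obtain ⟨p, rfl⟩ : ∃ p, o = p + 1 := ⟨o - 1, by omega⟩
      rw [Nat.add_sub_cancel] at h3
      have : 0 < 2 ^ k := by positivity
      rw [pow_succ, pow_succ]
      omega

/-- the residues which stop at time `k + 1` -/
theorem stop_some {k o : ℕ} (h1 : 2 ^ k ≤ 3 ^ o) (h2 : 3 ^ o ≤ 2 ^ (k + 1)) :
    2 * survivors k = survivors (k + 1) + An k o := by
  rw [stop_sum]
  congr 1
  have huniq : ∀ p : ℕ, 2 ^ k ≤ 3 ^ p → 3 ^ p ≤ 2 ^ (k + 1) → p = o := by
    intro p h3 h4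
    have hk : 0 < 2 ^ k := by positivity
    rcases Nat.lt_trichotomy p o with h | h | h
    · exfalso
      have h5 : 3 ^ (p + 1) ≤ 3 ^ o := Nat.pow_le_pow_right (by norm_num) h
      rw [pow_succ] at h5 h2
      omega
    · exact h
    · exfalso
      have h5 : 3 ^ (o + 1) ≤ 3 ^ p := Nat.pow_le_pow_right (by norm_num) h
      rw [pow_succ] at h5 h4
      omega
  rw [sum_eq_single o]
  · rw [if_pos (by omega)]
  · intro p _ hp
    split_ifs with h3
    · rfl
    · apply An_low
      intro h4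
      exact hp (huniq p h4 (by omega))
  · intro ho
    rw [mem_range, not_lt] at ho
    rw [An_zero (show k < o by omega)]; simp

theorem stop_none {k : ℕ} (h : ∀ o, ¬ (2 ^ k ≤ 3 ^ o ∧ 3 ^ o ≤ 2 ^ (k + 1))) :
    2 * survivors k = survivors (k + 1) := by
  rw [stop_sum]
  have : ∑ o ∈ range (k + 2), (if ¬ 2 ^ (k + 1) < 3 ^ o then An k o else 0) = 0 := by
    apply sum_eq_zero
    intro o _
    split_ifs with h3
    · rfl
    · apply An_low
      intro h4
      exact h o ⟨h4, by omega⟩
  rw [this, add_zero]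

end Pool.Agent.H622.St
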