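import Mathlib
import Pool.Agent.H622.St6
import Pool.Graph.R_seed8.H319R2.Measure

set_option autoImplicit false

/-! The sharp law of the stopping time, part 7: the integers. -/

namespace Pool.Agent.H622.St

open Finset Filter Topology Pool.Agent.Helper894.Collatz Pool.Agent.H828R3.Exc Pool.Agent.W36.SL

/-- the stopping time of `n` exceeds `k` -/
def Stays (k n : ℕ) : Prop := ∀ j ≤ k, n ≤ T^[j] n

theorem surv_iff (j n : ℕ) : 2 ^ j ≤ 3 ^ od j n ↔ 1 ≤ MM j n := by
  unfold MM
  rw [one_le_div (by positivity)]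
  constructor
  · intro h; exact_mod_cast h
  · intro h; exact_mod_cast h

theorem stays_of_surv {k n : ℕ} (h : Surv k n) : Stays k n := by
  intro j hj
  have h1 := (surv_iff j n).1 (h j hj)
  have h2 := iter_ge j n
  have h3 : (n : ℝ) ≤ (T^[j] n : ℕ) := by
    refine le_trans ?_ h2
    exact le_mul_of_one_le_left (Nat.cast_nonneg n) h1
  exact_mod_cast h3

theorem T_bound (n j : ℕ) (h : ∀ i ≤ j, 1 ≤ MM i n) :
    ((T^[j] n : ℕ) : ℝ) ≤ MM j n * (n + j / 2) := by
  induction j with
  | zero => simp [MM_zero]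
  | succ j ih =>
    have h1 := ih fun i hi => h i (by omega)
    have h2 := h (j + 1) le_rfl
    rw [MM_succ] at h2 ⊢
    rw [Function.iterate_succ_apply']
    set t := T^[j] n with ht
    have hM := MM_pos j n
    rcases Nat.mod_two_eq_zero_or_one t with h3 | h3
    · rw [if_pos h3] at h2 ⊢
      have h4 : 2 * T t = t := by unfold T; rw [if_pos h3]; omega
      have h5 : 2 * ((T t : ℕ) : ℝ) = t := by exact_mod_cast h4
      push_cast
      nlinarith
    · rw [if_neg (by omega)] at h2 ⊢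
      have h4 : 2 * T t = 3 * t + 1 := by unfold T; rw [if_neg (by omega)]; omega
      have h5 : 2 * ((T t : ℕ) : ℝ) = 3 * t + 1 := by exact_mod_cast h4
      push_cast
      nlinarith

theorem exceptions : ∃ C : ℝ, 0 < C ∧ ∀ k n : ℕ, 1 ≤ n → Stays k n → ¬ Surv k n → (n : ℝ) ≤ C * k ^ 14 := by
  obtain ⟨c, hc, hm⟩ := Pool.Agent.H319R2.measure
  refine ⟨2 ^ 12 / c, by positivity, ?_⟩
  intro k n hn hs hS
  have hex : ∃ j, j ≤ k ∧ ¬ (1 ≤ MM j n) := by
    by_contra hcon
    push Not at hcon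
    apply hS
    intro j hj
    exact (surv_iff j n).2 (hcon j hj)
  classical
  set j := Nat.find hex with hj
  obtain ⟨hjk, hjM⟩ := Nat.find_spec hex
  rw [← hj] at hjk hjM
  have hmin : ∀ i < j, 1 ≤ MM i n := by
    intro i hi
    have := Nat.find_min hex hi
    push Not at this
    exact this (by omega)
  have hj0 : 0 < j := by
    rcases Nat.eq_zero_or_pos j with h | h
    · exfalso; apply hjM; rw [h, MM_zero]
    · exact h
  obtain ⟨i, hi⟩ : ∃ i, j = i + 1 := ⟨j - 1, by omega⟩
  have hMi := hmin i (by omega)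
  have hn0 : (0 : ℝ) < n := by exact_mod_cast hn
  have h1 := T_bound n i fun i' hi' => hmin i' (by omega)
  have hMj : MM j n = 1 / 2 * MM i n ∧ T^[i] n % 2 = 0 := by
    rw [hi, MM_succ]
    rw [hi, MM_succ] at hjM
    rcases Nat.mod_two_eq_zero_or_one (T^[i] n) with h3 | h3
    · rw [if_pos h3]; exact ⟨by ring, h3⟩
    · exfalso
      rw [if_neg (by omega)] at hjM
      apply hjM
      linarith
  have h2 : ((T^[j] n : ℕ) : ℝ) = (T^[i] n : ℕ) / 2 := by
    rw [hi, Function.iterate_succ_apply']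
    have h4 : 2 * T (T^[i] n) = T^[i] n := by
      have := hMj.2
      generalize T^[i] n = t at this ⊢
      unfold T
      rw [if_pos this]; omega
    have h5 : 2 * ((T (T^[i] n) : ℕ) : ℝ) = (T^[i] n : ℕ) := by exact_mod_cast h4
    linarith
  have h3 : (n : ℝ) ≤ MM j n * (n + i / 2) := by
    have h4 : (n : ℝ) ≤ (T^[j] n : ℕ) := by exact_mod_cast hs j hjk
    rw [h2] at h4
    rw [hMj.1]
    linarith
  have hMjp := MM_pos j n
  -- the logarithm
  have h5 : -Real.log (MM j n) ≤ i / (2 * n) := by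
    have h6 : (MM j n)⁻¹ ≤ 1 + i / (2 * n) := by
      rw [inv_le_iff_one_le_mul₀ hMjp]
      have h7 : (1 + (i : ℝ) / (2 * n)) * MM j n = MM j n * (n + i / 2) / n := by
        field_simp
      rw [h7, one_le_div hn0]
      exact h3
    have h8 : Real.log ((MM j n)⁻¹) ≤ Real.log (1 + i / (2 * n)) :=
      Real.log_le_log (by positivity) h6
    rw [Real.log_inv] at h8
    have h9 := Real.log_le_sub_one_of_pos (show (0 : ℝ) < 1 + i / (2 * n) by positivity)
    linarith
  have h6 := hm j (-(od j n : ℤ)) (Or.inl (by omega))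
  have h7 : Real.log (MM j n) = od j n * Real.log 3 - j * Real.log 2 := by
    unfold MM
    rw [Real.log_div (by positivity) (by positivity), Real.log_pow, Real.log_pow]
  have hneg : Real.log (MM j n) < 0 := Real.log_neg hMjp (not_le.1 hjM)
  have h8 : |((j : ℤ) : ℝ) * Real.log 2 + ((-(od j n : ℤ) : ℤ) : ℝ) * Real.log 3| = -Real.log (MM j n) := by
    have : ((j : ℤ) : ℝ) * Real.log 2 + ((-(od j n : ℤ) : ℤ) : ℝ) * Real.log 3 = -Real.log (MM j n) := by
      rw [h7]; push_cast; ring
    rw [this, abs_of_pos (by linarith)]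
  rw [h8] at h6
  have h9 : (((|(j : ℤ)| + |(-(od j n : ℤ))| : ℤ)) : ℝ) ≤ 2 * j := by
    have h10 := od_le j n
    have h11 : |(j : ℤ)| + |(-(od j n : ℤ))| ≤ 2 * j := by
      rw [abs_neg, abs_of_nonneg (by omega), abs_of_nonneg (by omega)]
      omega
    exact_mod_cast h11
  have h10 : (0 : ℝ) ≤ (((|(j : ℤ)| + |(-(od j n : ℤ))| : ℤ)) : ℝ) := by
    have : (0 : ℤ) ≤ |(j : ℤ)| + |(-(od j n : ℤ))| := by positivity
    exact_mod_cast this
  have h11 : c ≤ (2 * j) ^ 13 * (i / (2 * n)) := by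
    refine h6.trans ?_
    apply mul_le_mul _ h5 (by linarith) (by positivity)
    exact pow_le_pow_left₀ h10 h9 13
  have hij : (i : ℝ) ≤ j := by exact_mod_cast (by omega : i ≤ j)
  have hjk' : (j : ℝ) ≤ k := by exact_mod_cast hjk
  have h12 : c * n ≤ 2 ^ 12 * k ^ 14 := by
    have h13 : c * n ≤ (2 * j) ^ 13 * (i / (2 * n)) * n := mul_le_mul_of_nonneg_right h11 hn0.le
    have h14 : ((2 : ℝ) * j) ^ 13 * (i / (2 * n)) * n = 2 ^ 12 * (j ^ 13 * i) := by
      field_simp
    rw [h14] at h13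
    refine h13.trans ?_
    apply mul_le_mul_of_nonneg_left _ (by norm_num)
    calc (j : ℝ) ^ 13 * i ≤ (k : ℝ) ^ 13 * k := by
          apply mul_le_mul (pow_le_pow_left₀ (by positivity) hjk' 13) (hij.trans hjk') (by positivity)
            (by positivity)
      _ = _ := by ring
  rw [div_mul_eq_mul_div, le_div_iff₀ hc]
  linarith

theorem not_surv_zero {k : ℕ} (hk : 1 ≤ k) : ¬ Surv k 0 := by
  intro h
  have h1 := h 1 hk
  have : od 1 0 = 0 := by simp [od]
  rw [this] at h1
  norm_num at h1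

open scoped Classical in
theorem count_surv {k : ℕ} (hk : 1 ≤ k) (N : ℕ) :
    (((Icc 1 N).filter fun n => Surv k n).card : ℝ) ≤ ((N + 1 : ℕ) / 2 ^ k + 1) * survivors k ∧
    (((N + 1 : ℕ) : ℝ) / 2 ^ k - 1) * survivors k ≤ (((Icc 1 N).filter fun n => Surv k n).card : ℝ) := by
  have h1 := card_periodic (M := 2 ^ k) (by positivity) (fun n => Surv k n) (fun x c => Surv_shift k x c)
    (N + 1)
  have h2 : (range (N + 1)).filter (fun n => Surv k n) = (Icc 1 N).filter fun n => Surv k n := by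
    ext n
    simp only [mem_filter, mem_range, mem_Icc]
    constructor
    · rintro ⟨a, b⟩
      refine ⟨⟨?_, by omega⟩, b⟩
      rcases Nat.eq_zero_or_pos n with h | h
      · rw [h] at b; exact absurd b (not_surv_zero hk)
      · exact h
    · rintro ⟨⟨a, b⟩, c⟩
      exact ⟨by omega, c⟩
  rw [h2] at h1
  have h3 : ((range (2 ^ k)).filter fun n => Surv k n).card = survivors k := by
    unfold survivors
    congr
  rw [h3] at h1
  push_cast at h1 ⊢
  exact h1

open scoped Classical in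
theorem count_stays : ∃ C : ℝ, 0 < C ∧ ∀ (k : ℕ) (x : ℝ), 1 ≤ k → 0 ≤ x →
    |(((Icc 1 ⌊x⌋₊).filter fun n => Stays k n).card : ℝ) - x / 2 ^ k * survivors k| ≤
      2 * survivors k + (C * k ^ 14 + 1) := by
  obtain ⟨C, hC, hex⟩ := exceptions
  refine ⟨C, hC, fun k x hk hx => ?_⟩
  set N := ⌊x⌋₊ with hN
  have hN1 : (N : ℝ) ≤ x := Nat.floor_le hx
  have hN2 : x < N + 1 := Nat.lt_floor_add_one x
  obtain ⟨h1, h2⟩ := count_surv hk N
  have hD : (0 : ℝ) ≤ survivors k := Nat.cast_nonneg _
  have h2k : (1 : ℝ) ≤ 2 ^ k := one_le_pow₀ (by norm_num)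
  have h3 : (((Icc 1 N).filter fun n => Surv k n).card : ℝ) ≤
      (((Icc 1 N).filter fun n => Stays k n).card : ℝ) := by
    apply Nat.cast_le.2
    apply card_le_card
    intro n hn
    rw [mem_filter] at hn ⊢
    exact ⟨hn.1, stays_of_surv hn.2⟩
  have h4 : (((Icc 1 N).filter fun n => Stays k n).card : ℝ) ≤
      (((Icc 1 N).filter fun n => Surv k n).card : ℝ) + (C * k ^ 14 + 1) := by
    have hsub : (Icc 1 N).filter (fun n => Stays k n) ⊆
        ((Icc 1 N).filter fun n => Surv k n) ∪ range (⌊C * k ^ 14⌋₊ + 1) := by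
      intro n hn
      rw [mem_filter, mem_Icc] at hn
      rw [mem_union, mem_filter, mem_Icc, mem_range]
      by_cases hS : Surv k n
      · exact Or.inl ⟨hn.1, hS⟩
      · right
        have := hex k n hn.1.1 hn.2 hS
        have := Nat.le_floor this
        omega
    have h5 := (card_le_card hsub).trans (card_union_le _ _)
    rw [card_range] at h5
    have h6 : (((Icc 1 N).filter fun n => Stays k n).card : ℝ) ≤
        (((Icc 1 N).filter fun n => Surv k n).card : ℝ) + (⌊C * k ^ 14⌋₊ + 1) := by exact_mod_cast h5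
    have h7 : (⌊C * (k : ℝ) ^ 14⌋₊ : ℝ) ≤ C * k ^ 14 := Nat.floor_le (by positivity)
    linarith
  push_cast at h1 h2
  rw [abs_le]
  constructor
  · have e : x / 2 ^ k * survivors k ≤ ((N : ℝ) + 1) / 2 ^ k * survivors k := by
      apply mul_le_mul_of_nonneg_right _ hD
      exact div_le_div_of_nonneg_right hN2.le (by positivity)
    have : 0 ≤ C * (k : ℝ) ^ 14 := by positivity
    linarith
  · have e : ((N : ℝ) + 1) / 2 ^ k * survivors k ≤ (x / 2 ^ k + 1) * survivors k := by
      apply mul_le_mul_of_nonneg_right _ hD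
      rw [add_div]
      have a1 : (N : ℝ) / 2 ^ k ≤ x / 2 ^ k := div_le_div_of_nonneg_right hN1 (by positivity)
      have a2 : (1 : ℝ) / 2 ^ k ≤ 1 := by rw [div_le_one (by positivity)]; exact h2k
      linarith
    linarith

/-- the main term without the oscillating factor -/
noncomputable def nm (x : ℝ) (k : ℕ) : ℝ := x / (k * Real.sqrt k) * (Real.exp He / 2) ^ k

theorem He_pos : 0 < He := Real.binEntropy_pos th_pos th_lt_one

theorem nm_eq (x : ℝ) {k : ℕ} (hk : 1 ≤ k) : x / 2 ^ k * survivors k = nm x k * (k * Real.sqrt k * ds k) := by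
  have hk' : (0 : ℝ) < k := by exact_mod_cast (by omega : 0 < k)
  have : 0 < Real.sqrt (k : ℝ) := Real.sqrt_pos.2 hk'
  unfold nm ds
  have e : Real.exp He ^ k * Real.exp (-(k * He)) = 1 := by
    rw [← Real.exp_nat_mul, ← Real.exp_add]; simp
  have e2 : x / (k * Real.sqrt k) * (Real.exp He / 2) ^ k * (k * Real.sqrt k * (survivors k * Real.exp (-(k * He))))
      = x / 2 ^ k * survivors k * (Real.exp He ^ k * Real.exp (-(k * He))) := by
    rw [div_pow]
    field_simp
  rw [e2, e, mul_one]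

open scoped Classical in
/-- THE SHARP LAW FOR INTEGERS -/
theorem integers {ε : ℝ} (hε : 0 < ε) : ∃ K : ℕ, ∀ (k : ℕ) (x : ℝ), K ≤ k → K * 2 ^ k ≤ x →
    |(((Icc 1 ⌊x⌋₊).filter fun n => Stays k n).card : ℝ) - Psi k * nm x k| ≤ ε * nm x k := by
  obtain ⟨C, hC, hcount⟩ := count_stays
  obtain ⟨B, hB0, hB⟩ := ds_bound
  have hHe := He_pos
  -- the small error
  have hr0 : 0 < Real.exp (-He) := Real.exp_pos _
  have hr1 : Real.exp (-He) < 1 := by rw [Real.exp_lt_one_iff]; linarith
  have t1 : Tendsto (fun k : ℕ => C * ((k : ℝ) ^ 16 * Real.exp (-He) ^ k) + (k : ℝ) ^ 2 * Real.exp (-He) ^ k)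
      atTop (𝓝 (C * 0 + 0)) :=
    ((tendsto_pow_const_mul_const_pow_of_lt_one 16 hr0.le hr1).const_mul C).add
      (tendsto_pow_const_mul_const_pow_of_lt_one 2 hr0.le hr1)
  rw [mul_zero, add_zero] at t1
  have e1 := t1.eventually (gt_mem_nhds (show (0 : ℝ) < ε / 4 by linarith))
  have e2 := (Metric.tendsto_nhds.1 main_limit) (ε / 4) (by linarith)
  obtain ⟨K1, hK1⟩ := eventually_atTop.1 (e1.and e2)
  obtain ⟨K2, hK2⟩ := exists_nat_gt (8 * B / ε)
  refine ⟨max (max K1 K2) 1, ?_⟩
  intro k x hk hx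
  have hkK1 : K1 ≤ k := (le_max_left _ _).trans ((le_max_left _ _).trans hk)
  have hk1 : 1 ≤ k := (le_max_right _ _).trans hk
  have hk' : (0 : ℝ) < k := by exact_mod_cast hk1
  have h2k : (0 : ℝ) < 2 ^ k := by positivity
  have hK0 : (1 : ℝ) ≤ ((max (max K1 K2) 1 : ℕ) : ℝ) := by exact_mod_cast le_max_right _ _
  have hKK2 : (K2 : ℝ) ≤ ((max (max K1 K2) 1 : ℕ) : ℝ) := by
    exact_mod_cast (le_max_right K1 K2).trans (le_max_left _ _)
  have hx2 : 2 ^ k ≤ x := le_trans (le_mul_of_one_le_left h2k.le hK0) hx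
  have hx0 : 0 < x := by linarith
  obtain ⟨a1, a2⟩ := hK1 k hkK1
  rw [Real.dist_eq, sub_zero] at a2
  have hc := hcount k x hk1 hx0.le
  have hsk : 0 < Real.sqrt (k : ℝ) := Real.sqrt_pos.2 hk'
  have hnm : 0 < nm x k := by unfold nm; have := Real.exp_pos He; positivity
  have b1 : |x / 2 ^ k * survivors k - Psi k * nm x k| ≤ ε / 4 * nm x k := by
    rw [nm_eq x hk1]
    have : nm x k * (k * Real.sqrt k * ds k) - Psi k * nm x k =
      (k * Real.sqrt k * ds k - Psi k) * nm x k := by ring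
    rw [this, abs_mul, abs_of_pos hnm]
    exact mul_le_mul_of_nonneg_right a2.le hnm.le
  have b2 : 2 * (survivors k : ℝ) ≤ ε / 4 * nm x k := by
    have h1 := nm_eq x hk1
    have h2 := hB k
    have h3 : x / 2 ^ k * survivors k ≤ nm x k * B := by
      rw [h1]; exact mul_le_mul_of_nonneg_left h2 hnm.le
    have h4 : (K2 : ℝ) * survivors k ≤ x / 2 ^ k * survivors k := by
      apply mul_le_mul_of_nonneg_right _ (Nat.cast_nonneg _)
      rw [le_div_iff₀ h2k]
      exact (mul_le_mul_of_nonneg_right hKK2 h2k.le).trans hx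
    have h5 : 8 * B / ε * survivors k ≤ nm x k * B :=
      (mul_le_mul_of_nonneg_right hK2.le (Nat.cast_nonneg _)).trans (h4.trans h3)
    rcases hB0.lt_or_eq with hBp | hBz
    · have h6 : 8 * B / ε * survivors k = (8 / ε * survivors k) * B := by ring
      rw [h6] at h5
      have h7 := le_of_mul_le_mul_right h5 hBp
      have h8 : 8 / ε * (survivors k : ℝ) * (ε / 4) ≤ nm x k * (ε / 4) :=
        mul_le_mul_of_nonneg_right h7 (by linarith)
      have h9 : 8 / ε * (survivors k : ℝ) * (ε / 4) = 2 * survivors k := by field_simp; ring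
      linarith
    · rw [← hBz, mul_zero] at h3
      have h6 : (survivors k : ℝ) ≤ 0 := by
        by_contra hcon
        push Not at hcon
        have : 0 < x / 2 ^ k * survivors k := by positivity
        linarith
      have : 0 ≤ ε / 4 * nm x k := by positivity
      linarith
  have b3 : C * (k : ℝ) ^ 14 + 1 ≤ ε / 4 * nm x k := by
    have h1 : Real.exp He ^ k / (k * Real.sqrt k) ≤ nm x k := by
      unfold nm
      rw [div_pow]
      have : x / (k * Real.sqrt k) * (Real.exp He ^ k / 2 ^ k) = (x / 2 ^ k) * (Real.exp He ^ k / (k * Real.sqrt k)) := by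
        field_simp
      rw [this]
      apply le_mul_of_one_le_left (by positivity)
      rw [one_le_div h2k]; exact hx2
    refine le_trans ?_ (mul_le_mul_of_nonneg_left h1 (by linarith))
    have h2 : (k : ℝ) * Real.sqrt k ≤ k ^ 2 := by
      rw [sq]
      apply mul_le_mul_of_nonneg_left _ hk'.le
      have : (1 : ℝ) ≤ k := by exact_mod_cast hk1
      rw [Real.sqrt_le_left hk'.le]
      nlinarith
    have h3 : (C * (k : ℝ) ^ 14 + 1) * (k * Real.sqrt k) * Real.exp (-He) ^ k ≤ ε / 4 := by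
      refine le_trans ?_ a1.le
      have : (C * (k : ℝ) ^ 14 + 1) * (k * Real.sqrt k) * Real.exp (-He) ^ k ≤
        (C * (k : ℝ) ^ 14 + 1) * k ^ 2 * Real.exp (-He) ^ k := by
        apply mul_le_mul_of_nonneg_right _ (by positivity)
        exact mul_le_mul_of_nonneg_left h2 (by positivity)
      refine this.trans (le_of_eq ?_)
      ring
    have h4 : Real.exp (-He) ^ k * Real.exp He ^ k = 1 := by
      rw [← mul_pow, ← Real.exp_add]; simp
    have h5 : C * (k : ℝ) ^ 14 + 1 = ((C * (k : ℝ) ^ 14 + 1) * (k * Real.sqrt k) * Real.exp (-He) ^ k) *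
        (Real.exp He ^ k / (k * Real.sqrt k)) := by
      have : ((C * (k : ℝ) ^ 14 + 1) * (k * Real.sqrt k) * Real.exp (-He) ^ k) *
        (Real.exp He ^ k / (k * Real.sqrt k)) = (C * (k : ℝ) ^ 14 + 1) * (Real.exp (-He) ^ k * Real.exp He ^ k) := by
        field_simp
      rw [this, h4, mul_one]
    rw [h5]
    exact mul_le_mul_of_nonneg_right h3 (by positivity)
  rw [abs_le] at hc b1 ⊢
  constructor <;> linarith

end Pool.Agent.H622.St
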