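import Mathlib
import Pool.Agent.H622.St7
import Pool.Agent.H622.St12

set_option autoImplicit false

/-! The conditional law of the growth factor, part 5: the integers. -/

namespace Pool.Agent.H622.St

open Finset Filter Topology Pool.Agent.Helper894.Collatz Pool.Agent.H828R3.Exc Pool.Agent.W36.SL

open scoped Classical in
theorem count_An {k : ℕ} (hk : 1 ≤ k) (N o : ℕ) :
    |(((Icc 1 N).filter fun n => Surv k n ∧ od k n = o).card : ℝ) - ((N + 1 : ℕ) : ℝ) / 2 ^ k * An k o| ≤
      An k o := by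
  have h1 := card_periodic (M := 2 ^ k) (by positivity) (fun n => Surv k n ∧ od k n = o)
    (fun x c => by rw [Surv_shift k x c, od_shift_le le_rfl]) (N + 1)
  have h2 : (range (N + 1)).filter (fun n => Surv k n ∧ od k n = o) =
      (Icc 1 N).filter fun n => Surv k n ∧ od k n = o := by
    ext n
    simp only [mem_filter, mem_range, mem_Icc]
    constructor
    · rintro ⟨a, b⟩
      refine ⟨⟨?_, by omega⟩, b⟩
      rcases Nat.eq_zero_or_pos n with h | h
      · rw [h] at b; exact absurd b.1 (not_surv_zero hk)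
      · exact h
    · rintro ⟨⟨a, b⟩, c⟩
      exact ⟨by omega, c⟩
  rw [h2] at h1
  have h3 : ((range (2 ^ k)).filter fun n => Surv k n ∧ od k n = o).card = An k o := by
    unfold An
    congr
  rw [h3] at h1
  push_cast at h1 ⊢
  rw [abs_le]
  constructor <;> linarith [h1.1, h1.2]

/-- the logarithm of the growth factor of a surviving residue -/
theorem log_growth {k n : ℕ} (hn : 1 ≤ n) (h : Surv k n) :
    |Real.log ((T^[k] n : ℕ) / (n : ℝ)) - (od k n * Real.log 3 - k * Real.log 2)| ≤ k / n := by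
  have hn' : (0 : ℝ) < n := by exact_mod_cast hn
  have h1 := iter_ge k n
  have h2 := T_bound n k fun i hi => (surv_iff i n).1 (h i hi)
  have hM := MM_pos k n
  have hMl : Real.log (MM k n) = od k n * Real.log 3 - k * Real.log 2 := by
    unfold MM
    rw [Real.log_div (by positivity) (by positivity), Real.log_pow, Real.log_pow]
  rw [← hMl]
  have hTp : (0 : ℝ) < (T^[k] n : ℕ) := lt_of_lt_of_le (by positivity) h1
  have e1 : Real.log ((T^[k] n : ℕ) / (n : ℝ)) - Real.log (MM k n) =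
      Real.log ((T^[k] n : ℕ) / (MM k n * n)) := by
    rw [Real.log_div hTp.ne' hn'.ne', Real.log_div hTp.ne' (by positivity),
      Real.log_mul hM.ne' hn'.ne']
    ring
  rw [e1]
  have h3 : 1 ≤ (T^[k] n : ℕ) / (MM k n * n) := by
    rw [one_le_div (by positivity)]; exact h1
  have h4 : (T^[k] n : ℕ) / (MM k n * n) ≤ 1 + k / n := by
    rw [div_le_iff₀ (by positivity)]
    refine h2.trans ?_
    have : (1 + (k : ℝ) / n) * (MM k n * n) = MM k n * (n + k) := by field_simp
    rw [this]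
    apply mul_le_mul_of_nonneg_left _ hM.le
    have : (0 : ℝ) ≤ k := Nat.cast_nonneg k
    linarith
  rw [abs_of_nonneg (Real.log_nonneg h3)]
  have h5 := Real.log_le_sub_one_of_pos (lt_of_lt_of_le one_pos h3)
  linarith

open scoped Classical in
/-- the comparison of the sums -/
theorem sum_compare : ∃ C : ℝ, 0 < C ∧ ∀ (k : ℕ) (x L δ : ℝ) (g : ℝ → ℝ), 1 ≤ k → 0 ≤ x → 0 ≤ L → 0 < δ →
    (∀ y, |g y| ≤ 1) → (∀ y z, |g y - g z| ≤ L * |y - z|) →
    |∑ n ∈ (Icc 1 ⌊x⌋₊).filter (fun n => Stays k n), g (Real.log ((T^[k] n : ℕ) / (n : ℝ))) -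
      x / 2 ^ k * ∑ o ∈ range (k + 1), An k o * g (o * Real.log 3 - k * Real.log 2)| ≤
      δ * (((Icc 1 ⌊x⌋₊).filter fun n => Stays k n).card : ℝ) + 2 * survivors k +
      (C * k ^ 14 + 1) + 2 * (L * k / δ + 1) := by
  obtain ⟨C, hC, hex⟩ := exceptions
  refine ⟨C, hC, fun k x L δ g hk hx hL hδ hg hgL => ?_⟩
  set N := ⌊x⌋₊ with hN
  have hN1 : (N : ℝ) ≤ x := Nat.floor_le hx
  have hN2 : x < N + 1 := Nat.lt_floor_add_one x
  have h2k : (1 : ℝ) ≤ 2 ^ k := one_le_pow₀ (by norm_num)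
  set I := Icc 1 N
  set f : ℕ → ℝ := fun n => g (Real.log ((T^[k] n : ℕ) / (n : ℝ))) with hf
  set f2 : ℕ → ℝ := fun n => g (od k n * Real.log 3 - k * Real.log 2) with hf2
  -- step 1
  have s1 : |∑ n ∈ I.filter (fun n => Stays k n), f n - ∑ n ∈ I.filter (fun n => Surv k n), f n| ≤
      C * k ^ 14 + 1 := by
    have hsub : I.filter (fun n => Surv k n) ⊆ I.filter (fun n => Stays k n) := by
      intro n hn
      rw [mem_filter] at hn ⊢
      exact ⟨hn.1, stays_of_surv hn.2⟩
    rw [← sum_sdiff hsub, add_sub_cancel_right]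
    refine (abs_sum_le_sum_abs _ _).trans ?_
    have h1 : ∀ n ∈ (I.filter (fun n => Stays k n)) \ (I.filter (fun n => Surv k n)), |f n| ≤ 1 :=
      fun n _ => hg _
    refine (sum_le_sum h1).trans ?_
    rw [sum_const, nsmul_eq_mul, mul_one]
    have hsub2 : (I.filter (fun n => Stays k n)) \ (I.filter (fun n => Surv k n)) ⊆
        range (⌊C * k ^ 14⌋₊ + 1) := by
      intro n hn
      rw [Finset.mem_sdiff, mem_filter, mem_filter] at hn
      rw [mem_range]
      have := hex k n (mem_Icc.1 hn.1.1).1 hn.1.2 (fun h => hn.2 ⟨hn.1.1, h⟩)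
      have := Nat.le_floor this
      omega
    have h5 := card_le_card hsub2
    rw [card_range] at h5
    have h6 : (((I.filter (fun n => Stays k n)) \ (I.filter (fun n => Surv k n))).card : ℝ) ≤
        ⌊C * (k : ℝ) ^ 14⌋₊ + 1 := by exact_mod_cast h5
    have h7 : (⌊C * (k : ℝ) ^ 14⌋₊ : ℝ) ≤ C * k ^ 14 := Nat.floor_le (by positivity)
    linarith
  -- step 2
  have hcardle : ((I.filter (fun n => Surv k n)).card : ℝ) ≤ ((I.filter (fun n => Stays k n)).card : ℝ) := by
    apply Nat.cast_le.2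
    apply card_le_card
    intro n hn
    rw [mem_filter] at hn ⊢
    exact ⟨hn.1, stays_of_surv hn.2⟩
  have s2 : |∑ n ∈ I.filter (fun n => Surv k n), f n - ∑ n ∈ I.filter (fun n => Surv k n), f2 n| ≤
      δ * ((I.filter (fun n => Stays k n)).card : ℝ) + 2 * (L * k / δ + 1) := by
    rw [← sum_sub_distrib]
    refine (abs_sum_le_sum_abs _ _).trans ?_
    have h1 : ∀ n ∈ I.filter (fun n => Surv k n), |f n - f2 n| ≤
        δ + (if n ∈ range (⌊L * k / δ⌋₊ + 1) then 2 else 0) := by
      intro n hn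
      rw [mem_filter, mem_Icc] at hn
      split_ifs with h
      · have h1 := hg (Real.log ((T^[k] n : ℕ) / (n : ℝ)))
        have h2 := hg (od k n * Real.log 3 - k * Real.log 2)
        have := abs_sub (f n) (f2 n)
        simp only [hf, hf2] at this ⊢
        linarith
      · rw [add_zero]
        rw [mem_range, not_lt] at h
        have h3 : L * k / δ < n := (Nat.floor_lt (by positivity)).1 (by omega)
        have hn' : (0 : ℝ) < n := by exact_mod_cast hn.1.1
        refine (hgL _ _).trans ?_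
        refine (mul_le_mul_of_nonneg_left (log_growth hn.1.1 hn.2) hL).trans ?_
        rw [div_lt_iff₀ hδ] at h3
        rw [mul_div_assoc', div_le_iff₀ hn']
        linarith
    refine (sum_le_sum h1).trans ?_
    rw [sum_add_distrib, sum_const, nsmul_eq_mul, ← sum_filter, sum_const, nsmul_eq_mul]
    have h2 : (((I.filter (fun n => Surv k n)).filter fun n => n ∈ range (⌊L * k / δ⌋₊ + 1)).card : ℝ) ≤
        ⌊L * k / δ⌋₊ + 1 := by
      have h3 : ((I.filter (fun n => Surv k n)).filter fun n => n ∈ range (⌊L * k / δ⌋₊ + 1)) ⊆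
        range (⌊L * k / δ⌋₊ + 1) := fun n hn => (mem_filter.1 hn).2
      have h4 := card_le_card h3
      rw [card_range] at h4
      exact_mod_cast h4
    have h3 : (⌊L * k / δ⌋₊ : ℝ) ≤ L * k / δ := Nat.floor_le (by positivity)
    have h4 := mul_le_mul_of_nonneg_right hcardle hδ.le
    linarith
  -- step 3
  have s3 : |∑ n ∈ I.filter (fun n => Surv k n), f2 n -
      x / 2 ^ k * ∑ o ∈ range (k + 1), An k o * g (o * Real.log 3 - k * Real.log 2)| ≤ 2 * survivors k := by
    have h1 : ∑ n ∈ I.filter (fun n => Surv k n), f2 n = ∑ o ∈ range (k + 1),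
        ((I.filter fun n => Surv k n ∧ od k n = o).card : ℝ) * g (o * Real.log 3 - k * Real.log 2) := by
      rw [← sum_fiberwise_of_maps_to (s := I.filter (fun n => Surv k n)) (t := range (k + 1))
        (g := fun n => od k n)
        (fun n _ => by have := od_le k n; rw [mem_range]; omega)]
      apply sum_congr rfl
      intro o _
      rw [filter_filter]
      rw [sum_congr rfl (g := fun _ => g (o * Real.log 3 - k * Real.log 2))]
      · rw [sum_const, nsmul_eq_mul]
      · intro n hn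
        rw [mem_filter] at hn
        simp only [hf2]
        rw [hn.2.2]
    rw [h1, mul_sum, ← sum_sub_distrib]
    refine (abs_sum_le_sum_abs _ _).trans ?_
    have h2 : ∀ o ∈ range (k + 1), |((I.filter fun n => Surv k n ∧ od k n = o).card : ℝ) *
        g (o * Real.log 3 - k * Real.log 2) - x / 2 ^ k * (An k o * g (o * Real.log 3 - k * Real.log 2))| ≤
        2 * An k o := by
      intro o _
      have e1 := count_An hk N o
      have e2 : |((I.filter fun n => Surv k n ∧ od k n = o).card : ℝ) - x / 2 ^ k * An k o| ≤ 2 * An k o := by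
        have hA : (0 : ℝ) ≤ An k o := Nat.cast_nonneg _
        have e3 : |((N + 1 : ℕ) : ℝ) / 2 ^ k * An k o - x / 2 ^ k * An k o| ≤ An k o := by
          rw [← sub_mul, ← sub_div, abs_mul, abs_of_nonneg hA]
          apply mul_le_of_le_one_left hA
          rw [abs_div, abs_of_pos (show (0 : ℝ) < 2 ^ k by positivity), div_le_one (by positivity)]
          refine le_trans ?_ h2k
          push_cast
          rw [abs_le]; constructor <;> linarith
        have := abs_sub_le (((I.filter fun n => Surv k n ∧ od k n = o).card : ℝ))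
          (((N + 1 : ℕ) : ℝ) / 2 ^ k * An k o) (x / 2 ^ k * An k o)
        linarith
      have e3 : ((I.filter fun n => Surv k n ∧ od k n = o).card : ℝ) *
        g (o * Real.log 3 - k * Real.log 2) - x / 2 ^ k * (An k o * g (o * Real.log 3 - k * Real.log 2)) =
        (((I.filter fun n => Surv k n ∧ od k n = o).card : ℝ) - x / 2 ^ k * An k o) *
        g (o * Real.log 3 - k * Real.log 2) := by ring
      rw [e3, abs_mul]
      calc _ ≤ |((I.filter fun n => Surv k n ∧ od k n = o).card : ℝ) - x / 2 ^ k * An k o| * 1 :=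
            mul_le_mul_of_nonneg_left (hg _) (abs_nonneg _)
        _ ≤ _ := by rw [mul_one]; exact e2
    refine (sum_le_sum h2).trans (le_of_eq ?_)
    rw [← mul_sum, survivors_sum]
    push_cast
    rfl
  have t1 := abs_sub_le (∑ n ∈ I.filter (fun n => Stays k n), f n) (∑ n ∈ I.filter (fun n => Surv k n), f n)
    (∑ n ∈ I.filter (fun n => Surv k n), f2 n)
  have t2 := abs_sub_le (∑ n ∈ I.filter (fun n => Stays k n), f n) (∑ n ∈ I.filter (fun n => Surv k n), f2 n)
    (x / 2 ^ k * ∑ o ∈ range (k + 1), An k o * g (o * Real.log 3 - k * Real.log 2))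
  linarith

/-- the number of survivors grows exponentially -/
theorem survivors_large (A B : ℝ) {η : ℝ} (hη : 0 < η) :
    ∀ᶠ k : ℕ in atTop, A * (k : ℝ) ^ 14 + B ≤ η * survivors k := by
  have hc0 := c0_pos
  have hq := q_pos
  have hHe := He_pos
  have hr0 : 0 < Real.exp (-He) := Real.exp_pos _
  have hr1 : Real.exp (-He) < 1 := by rw [Real.exp_lt_one_iff]; linarith
  have t1 : Tendsto (fun k : ℕ => A * ((k : ℝ) ^ 16 * Real.exp (-He) ^ k) + B * ((k : ℝ) ^ 2 * Real.exp (-He) ^ k))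
      atTop (𝓝 (A * 0 + B * 0)) :=
    ((tendsto_pow_const_mul_const_pow_of_lt_one 16 hr0.le hr1).const_mul A).add
      ((tendsto_pow_const_mul_const_pow_of_lt_one 2 hr0.le hr1).const_mul B)
  rw [mul_zero, mul_zero, add_zero] at t1
  have e1 := t1.eventually (gt_mem_nhds (show (0 : ℝ) < η * (c0 * q / 2) by positivity))
  have h4 := (Metric.tendsto_nhds.1 surv_Z) (c0 * q / 2) (by positivity)
  filter_upwards [e1, h4, eventually_ge_atTop 1] with k hk1 hk2 hk
  rw [Real.dist_eq, sub_zero, abs_lt] at hk2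
  have h5 := mul_le_mul_of_nonneg_left (Z_ge k) hc0.le
  have h6 : c0 * q / 2 ≤ (k : ℝ) * Real.sqrt k * ds k := by linarith [hk2.1]
  have hk' : (0 : ℝ) < k := by exact_mod_cast hk
  have h2 : (k : ℝ) * Real.sqrt k ≤ k ^ 2 := by
    rw [pow_two]
    apply mul_le_mul_of_nonneg_left _ hk'.le
    have : (1 : ℝ) ≤ k := by exact_mod_cast hk
    rw [Real.sqrt_le_left hk'.le]
    nlinarith
  have e : Real.exp (-(k * He)) = Real.exp (-He) ^ k := by
    rw [← Real.exp_nat_mul]; congr 1; ring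
  have h7 : c0 * q / 2 ≤ k ^ 2 * (survivors k * Real.exp (-He) ^ k) := by
    refine h6.trans ?_
    unfold ds
    rw [e]
    exact mul_le_mul_of_nonneg_right h2 (by positivity)
  have h8 := mul_le_mul_of_nonneg_left h7 hη.le
  have hp : 0 < (k : ℝ) ^ 2 * Real.exp (-He) ^ k := by positivity
  have h9 : (A * (k : ℝ) ^ 14 + B) * (k ^ 2 * Real.exp (-He) ^ k) ≤
      (η * survivors k) * (k ^ 2 * Real.exp (-He) ^ k) := by
    have e2 : (A * (k : ℝ) ^ 14 + B) * (k ^ 2 * Real.exp (-He) ^ k) =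
      A * ((k : ℝ) ^ 16 * Real.exp (-He) ^ k) + B * ((k : ℝ) ^ 2 * Real.exp (-He) ^ k) := by ring
    rw [e2]
    have e3 : (η * survivors k) * (k ^ 2 * Real.exp (-He) ^ k) =
      η * (k ^ 2 * (survivors k * Real.exp (-He) ^ k)) := by ring
    rw [e3]
    linarith
  exact le_of_mul_le_mul_right h9 hp

open scoped Classical in
/-- THE CONDITIONAL LAW OF THE GROWTH FACTOR OF THE INTEGERS -/
theorem integers_law {ε L : ℝ} (hε : 0 < ε) (hL : 0 ≤ L) : ∃ K : ℕ, ∀ (k : ℕ) (x : ℝ) (g : ℝ → ℝ),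
    K ≤ k → K * 2 ^ k ≤ x → (∀ y, |g y| ≤ 1) → (∀ y z, |g y - g z| ≤ L * |y - z|) →
    0 < ((Icc 1 ⌊x⌋₊).filter fun n => Stays k n).card ∧
    |∑ n ∈ (Icc 1 ⌊x⌋₊).filter (fun n => Stays k n), g (Real.log ((T^[k] n : ℕ) / (n : ℝ))) -
      (((Icc 1 ⌊x⌋₊).filter fun n => Stays k n).card : ℝ) *
        ∑' o : ℕ, Lw k o / Z k * g (o * Real.log 3 - k * Real.log 2)| ≤
      ε * (((Icc 1 ⌊x⌋₊).filter fun n => Stays k n).card : ℝ) := by
  obtain ⟨C1, hC1, h1⟩ := sum_compare
  obtain ⟨C2, hC2, h2⟩ := count_stays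
  set δ : ℝ := ε / 4 with hδ
  have hδ0 : 0 < δ := by positivity
  have e1 := survivors_large (2 * (C1 + C2 + 2 * (L / δ)) ) (2 * 4) (η := min (δ / 1) 1 / 2)
    (by have : 0 < min (δ / 1) 1 := lt_min (by positivity) one_pos
        positivity)
  have e2 := (Metric.tendsto_nhds.1 tv_tendsto) δ hδ0
  obtain ⟨K1, hK1⟩ := eventually_atTop.1 (e1.and e2)
  obtain ⟨K2, hK2⟩ := exists_nat_gt (16 / δ + 16)
  refine ⟨max (max K1 K2) 1, ?_⟩
  intro k x g hk hx hg hgL
  have hkK1 : K1 ≤ k := (le_max_left _ _).trans ((le_max_left _ _).trans hk)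
  have hk1 : 1 ≤ k := (le_max_right _ _).trans hk
  have hk' : (1 : ℝ) ≤ k := by exact_mod_cast hk1
  have h2k : (0 : ℝ) < 2 ^ k := by positivity
  have hKK2 : (K2 : ℝ) ≤ ((max (max K1 K2) 1 : ℕ) : ℝ) := by
    exact_mod_cast (le_max_right K1 K2).trans (le_max_left _ _)
  obtain ⟨a1, a2⟩ := hK1 k hkK1
  rw [Real.dist_eq, sub_zero] at a2
  have hX : 16 / δ + 16 ≤ x / 2 ^ k := by
    rw [le_div_iff₀ h2k]
    exact (mul_le_mul_of_nonneg_right (hK2.le.trans hKK2) h2k.le).trans hx
  set X : ℝ := x / 2 ^ k with hXd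
  have hX0 : 0 < X := lt_of_lt_of_le (by positivity) hX
  have hx0 : 0 ≤ x := by
    have : x = X * 2 ^ k := by rw [hXd]; field_simp
    rw [this]; exact mul_nonneg hX0.le h2k.le
  have b1 := h1 k x L δ g hk1 hx0 hL hδ0 hg hgL
  have b2 := h2 k x hk1 hx0
  set M : ℝ := (((Icc 1 ⌊x⌋₊).filter fun n => Stays k n).card : ℝ) with hM
  set S : ℝ := (survivors k : ℝ) with hS
  have hS0 : 0 ≤ S := Nat.cast_nonneg _
  have hmin1 : min (δ / 1) 1 ≤ 1 := min_le_right _ _
  have hmin2 : min (δ / 1) 1 ≤ δ := by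
    exact (min_le_left (δ / 1) 1).trans (le_of_eq (div_one δ))
  have hmin0 : 0 < min (δ / 1) 1 := lt_min (by positivity) one_pos
  -- the small errors
  have hk14 : (1 : ℝ) ≤ (k : ℝ) ^ 14 := one_le_pow₀ hk'
  have hkk14 : (k : ℝ) ≤ (k : ℝ) ^ 14 := le_self_pow₀ hk' (by norm_num)
  have hLd : 0 ≤ L / δ := by positivity
  have hLk : L * k / δ ≤ L / δ * (k : ℝ) ^ 14 := by
    have : L * k / δ = L / δ * k := by ring
    rw [this]
    exact mul_le_mul_of_nonneg_left hkk14 hLd
  have hp : 0 ≤ (k : ℝ) ^ 14 := by positivity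
  have hsm : C1 * (k : ℝ) ^ 14 + C2 * (k : ℝ) ^ 14 + 2 * (L * k / δ) + 4 ≤ min (δ / 1) 1 / 4 * S := by
    have e : (2 * (C1 + C2 + 2 * (L / δ))) * (k : ℝ) ^ 14 + 2 * 4 =
      2 * (C1 * (k : ℝ) ^ 14 + C2 * (k : ℝ) ^ 14 + 2 * (L / δ * (k : ℝ) ^ 14) + 4) := by ring
    rw [e] at a1
    linarith
  have hSpos : 0 < S := by
    rcases hS0.lt_or_eq with h | h
    · exact h
    · exfalso
      rw [← h, mul_zero] at hsm
      have u1 : 0 ≤ C1 * (k : ℝ) ^ 14 := by positivity
      have u2 : 0 ≤ C2 * (k : ℝ) ^ 14 := by positivity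
      have u3 : 0 ≤ 2 * (L * k / δ) := by positivity
      linarith
  -- the number `M`
  have u1 : 0 ≤ C1 * (k : ℝ) ^ 14 := by positivity
  have u2 : 0 ≤ C2 * (k : ℝ) ^ 14 := by positivity
  have u3 : 0 ≤ 2 * (L * k / δ) := by positivity
  have hmS1 : min (δ / 1) 1 / 4 * S ≤ S := by nlinarith
  have hmS2 : min (δ / 1) 1 / 4 * S ≤ δ * S := by nlinarith
  have hXS : 16 * S ≤ X * S := by
    apply mul_le_mul_of_nonneg_right _ hS0
    have : 0 ≤ 16 / δ := by positivity
    linarith
  have hM2 : X * S / 2 ≤ M := by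
    have := (abs_le.1 b2).1
    linarith
  have hMpos : 0 < M := lt_of_lt_of_le (by positivity) hM2
  refine ⟨by rw [hM] at hMpos; exact_mod_cast hMpos, ?_⟩
  have hδS : 8 * S ≤ δ * M := by
    have h3 : 16 / δ * S ≤ X * S := by
      apply mul_le_mul_of_nonneg_right _ hS0
      linarith
    have h4 : 8 / δ * S ≤ M := by
      have : 16 / δ * S = 2 * (8 / δ * S) := by ring
      linarith
    have h5 := mul_le_mul_of_nonneg_left h4 hδ0.le
    have h6 : δ * (8 / δ * S) = 8 * S := by field_simp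
    linarith
  -- the two sums
  set G : ℝ := ∑ o ∈ range (k + 1), (An k o : ℝ) * g (o * Real.log 3 - k * Real.log 2) with hG
  set G2 : ℝ := ∑' o : ℕ, Lw k o / Z k * g (o * Real.log 3 - k * Real.log 2) with hG2
  have hGS : |G| ≤ S := by
    rw [hG, hS, survivors_sum]
    push_cast
    refine (abs_sum_le_sum_abs _ _).trans (sum_le_sum fun o _ => ?_)
    rw [abs_mul, abs_of_nonneg (Nat.cast_nonneg _)]
    exact mul_le_of_le_one_right (Nat.cast_nonneg _) (hg _)
  have hsLw : Summable fun o : ℕ => Lw k o / Z k * g (o * Real.log 3 - k * Real.log 2) := by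
    apply Summable.of_norm_bounded ((Lw_summable k).div_const (Z k))
    intro o
    have := div_nonneg (Lw_nonneg k o) (Z_pos k).le
    rw [norm_mul, Real.norm_eq_abs, Real.norm_eq_abs, abs_of_nonneg this]
    exact mul_le_of_le_one_right this (hg _)
  have hsA : Summable fun o : ℕ => (An k o : ℝ) / S * g (o * Real.log 3 - k * Real.log 2) := by
    apply Summable.of_norm_bounded ((An_summable k).div_const S)
    intro o
    have : 0 ≤ (An k o : ℝ) / S := by positivity
    rw [norm_mul, Real.norm_eq_abs, Real.norm_eq_abs, abs_of_nonneg this]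
    exact mul_le_of_le_one_right this (hg _)
  have hGt : G / S = ∑' o : ℕ, (An k o : ℝ) / S * g (o * Real.log 3 - k * Real.log 2) := by
    rw [tsum_eq_sum (s := range (k + 1)) fun o ho => by
      rw [mem_range] at ho
      rw [An_zero (by omega)]; simp]
    rw [hG, sum_div]
    apply sum_congr rfl
    intro o _
    ring
  have htv : |G / S - G2| ≤ δ := by
    rw [hGt, hG2, ← hsA.tsum_sub hsLw]
    have h3 : ∀ o : ℕ, (An k o : ℝ) / S * g (o * Real.log 3 - k * Real.log 2) -
        Lw k o / Z k * g (o * Real.log 3 - k * Real.log 2) =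
        ((An k o : ℝ) / S - Lw k o / Z k) * g (o * Real.log 3 - k * Real.log 2) := fun o => by ring
    simp only [h3]
    have hsab : Summable fun o : ℕ => |(An k o : ℝ) / S - Lw k o / Z k| := by
      have := ((An_summable k).div_const S).sub ((Lw_summable k).div_const (Z k))
      exact this.abs
    have hb : ∀ o : ℕ, ‖((An k o : ℝ) / S - Lw k o / Z k) * g (o * Real.log 3 - k * Real.log 2)‖ ≤
        |(An k o : ℝ) / S - Lw k o / Z k| := by
      intro o
      rw [norm_mul, Real.norm_eq_abs, Real.norm_eq_abs]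
      exact mul_le_of_le_one_right (abs_nonneg _) (hg _)
    have h4 := tsum_of_norm_bounded hsab.hasSum hb
    rw [Real.norm_eq_abs] at h4
    refine h4.trans ?_
    exact (le_abs_self _).trans a2.le
  -- conclusion
  have c1 : |X * G - M * (G / S)| ≤ 2 * S + (C2 * k ^ 14 + 1) := by
    have e : X * G - M * (G / S) = -((M - X * S) * (G / S)) := by
      field_simp
      ring
    rw [e, abs_neg, abs_mul]
    have h3 : |G / S| ≤ 1 := by
      rw [abs_div, abs_of_pos hSpos, div_le_one hSpos]; exact hGS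
    calc |M - X * S| * |G / S| ≤ |M - X * S| * 1 := mul_le_mul_of_nonneg_left h3 (abs_nonneg _)
      _ ≤ _ := by rw [mul_one]; exact b2
  have c2 : |M * (G / S) - M * G2| ≤ δ * M := by
    rw [← mul_sub, abs_mul, abs_of_pos hMpos, mul_comm]
    exact mul_le_mul_of_nonneg_right htv hMpos.le
  set Sg : ℝ := ∑ n ∈ (Icc 1 ⌊x⌋₊).filter (fun n => Stays k n), g (Real.log ((T^[k] n : ℕ) / (n : ℝ)))
    with hSg
  have t1 := abs_sub_le Sg (X * G) (M * (G / S))
  have t2 := abs_sub_le Sg (M * (G / S)) (M * G2)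
  have hε4 : ε * M = 4 * (δ * M) := by rw [hδ]; ring
  rw [hε4]
  have w1 : |Sg - X * G| ≤ δ * M + 2 * S + (C1 * (k : ℝ) ^ 14 + 1) + 2 * (L * k / δ + 1) := b1
  have w2 : C1 * (k : ℝ) ^ 14 + C2 * (k : ℝ) ^ 14 + 2 * (L * k / δ) + 4 ≤ S := hsm.trans hmS1
  have w3 : |Sg - M * G2| ≤ (δ * M + 2 * S + (C1 * (k : ℝ) ^ 14 + 1) + 2 * (L * k / δ + 1)) +
      (2 * S + (C2 * k ^ 14 + 1)) + δ * M := by linarith
  linarith

end Pool.Agent.H622.St
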