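import Mathlib
import Pool.Agent.H622.St6

set_option autoImplicit false

/-! The sharp law of the stopping time, part 8: the oscillation. -/

namespace Pool.Agent.H622.St

open Finset Filter Topology

theorem th_ne (k : ℕ) (hk : 0 < k) (r : ℤ) : (k : ℝ) * th ≠ r := by
  intro h
  have h1 : 0 < (k : ℝ) * th := by
    have := th_pos
    have : (0 : ℝ) < k := by exact_mod_cast hk
    positivity
  have hr : 0 < r := by rw [h] at h1; exact_mod_cast h1
  obtain ⟨o, rfl⟩ : ∃ o : ℕ, r = o := ⟨r.toNat, by omega⟩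
  have h2 := (pow_lt_iff k o)
  have h3 : ¬ (2 ^ k < 3 ^ o) := by
    rw [h2, h]; push_cast; exact lt_irrefl _
  have h4 := ne_pow (k := k) (o := o) hk
  -- the other side
  have h5 : (k : ℝ) * Real.log 2 = o * Real.log 3 := by
    have := log3_pos
    unfold th at h
    push_cast at h
    field_simp at h
    linarith
  have h6 : Real.log ((2 : ℝ) ^ k) = Real.log ((3 : ℝ) ^ o) := by
    rw [Real.log_pow, Real.log_pow]; exact h5
  have h7 := Real.log_injOn_pos (Set.mem_Ioi.2 (by positivity)) (Set.mem_Ioi.2 (by positivity)) h6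
  exact h4 (by exact_mod_cast h7)

theorem near_right {x : ℝ} (hx : ∀ k : ℕ, 0 < k → ∀ r : ℤ, (k : ℝ) * x ≠ r) {ε : ℝ} (hε : 0 < ε) :
    ∃ k : ℕ, 0 < k ∧ ∃ r : ℤ, 0 < (k : ℝ) * x - r ∧ (k : ℝ) * x - r < ε := by
  obtain ⟨n, hn⟩ := exists_nat_gt (1 / ε)
  have hn0 : 0 < n := by
    have : (0 : ℝ) < n := lt_trans (by positivity) hn
    exact_mod_cast this
  obtain ⟨k, hk0, hkn, hk⟩ := Real.exists_nat_abs_mul_sub_round_le x hn0
  have hlt : |(k : ℝ) * x - round ((k : ℝ) * x)| < ε := by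
    refine lt_of_le_of_lt hk ?_
    rw [div_lt_iff₀ (by positivity)]
    rw [div_lt_iff₀ hε] at hn
    nlinarith
  set r := round ((k : ℝ) * x) with hr
  have hne := hx k hk0 r
  rcases lt_or_gt_of_ne hne with h | h
  · -- below
    set δ : ℝ := r - k * x with hδ
    have hδ0 : 0 < δ := by linarith
    have hδε : δ < ε := by
      have := (abs_lt.1 hlt).1; linarith
    set m := ⌊1 / δ⌋₊ with hm
    have hδ1 : δ ≤ 1 / 2 := by
      have := abs_sub_round ((k : ℝ) * x)
      rw [← hr] at this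
      have := (abs_le.1 this).1
      linarith
    have hm1 : (m : ℝ) * δ ≤ 1 := by
      have := Nat.floor_le (show 0 ≤ 1 / δ by positivity)
      rwa [← hm, le_div_iff₀ hδ0] at this
    have hm2 : 1 < ((m : ℝ) + 1) * δ := by
      have := Nat.lt_floor_add_one (1 / δ)
      rwa [← hm, div_lt_iff₀ hδ0] at this
    have hm0 : 0 < m := by
      rw [hm, Nat.floor_pos, le_div_iff₀ hδ0]
      linarith
    have hmk : 0 < m * k := Nat.mul_pos hm0 hk0
    have hne2 := hx (m * k) hmk (m * r - 1)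
    refine ⟨m * k, hmk, m * r - 1, ?_, ?_⟩
    · have e : ((m * k : ℕ) : ℝ) * x - ((m * r - 1 : ℤ) : ℝ) = 1 - m * δ := by
        rw [hδ]; push_cast; ring
      rw [e]
      have : (m : ℝ) * δ ≠ 1 := by
        intro h1
        apply hne2
        have e2 : ((m * k : ℕ) : ℝ) * x = (1 - m * δ) + ((m * r - 1 : ℤ) : ℝ) := by rw [← e]; ring
        rw [e2, h1]; ring
      have := lt_of_le_of_ne hm1 this
      linarith
    · have e : ((m * k : ℕ) : ℝ) * x - ((m * r - 1 : ℤ) : ℝ) = 1 - m * δ := by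
        rw [hδ]; push_cast; ring
      rw [e]
      nlinarith
  · exact ⟨k, hk0, r, by linarith, by have := (abs_lt.1 hlt).2; linarith⟩

theorem near_right_large {x : ℝ} (hx : ∀ k : ℕ, 0 < k → ∀ r : ℤ, (k : ℝ) * x ≠ r) {ε : ℝ} (hε : 0 < ε)
    (K : ℕ) : ∃ k : ℕ, K ≤ k ∧ ∃ r : ℤ, 0 < (k : ℝ) * x - r ∧ (k : ℝ) * x - r < ε := by
  obtain ⟨k, hk0, r, h1, h2⟩ := near_right hx (show 0 < ε / (K + 1) by positivity)
  refine ⟨(K + 1) * k, ?_, (K + 1) * r, ?_, ?_⟩
  · nlinarith
  · push_cast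
    have : ((K : ℝ) + 1) * k * x - (K + 1) * r = (K + 1) * (k * x - r) := by ring
    rw [this]; positivity
  · push_cast
    have : ((K : ℝ) + 1) * k * x - (K + 1) * r = (K + 1) * (k * x - r) := by ring
    rw [this]
    rw [lt_div_iff₀ (by positivity)] at h2
    linarith

theorem th_right {ε : ℝ} (hε : 0 < ε) (K : ℕ) :
    ∃ k : ℕ, K ≤ k ∧ ∃ r : ℤ, 0 < (k : ℝ) * th - r ∧ (k : ℝ) * th - r < ε :=
  near_right_large th_ne hε K

theorem th_left {ε : ℝ} (hε : 0 < ε) (K : ℕ) :
    ∃ k : ℕ, K ≤ k ∧ ∃ r : ℤ, 0 < r - (k : ℝ) * th ∧ r - (k : ℝ) * th < ε := by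
  have hx : ∀ k : ℕ, 0 < k → ∀ r : ℤ, (k : ℝ) * (-th) ≠ r := by
    intro k hk r h
    apply th_ne k hk (-r)
    push_cast
    linarith
  obtain ⟨k, hk, r, h1, h2⟩ := near_right_large hx hε K
  refine ⟨k, hk, -r, ?_, ?_⟩
  · push_cast; linarith
  · push_cast; linarith

theorem hq_sub_int (x : ℝ) (r : ℤ) : hq (x - r) = hq x := by
  unfold hq
  rw [Int.ceil_sub_intCast]
  congr 1
  push_cast; ring

theorem hq_cont {x : ℝ} (hx : ∀ r : ℤ, x ≠ r) : ContinuousAt hq x := by
  have h1 : (⌈x⌉ : ℝ) - 1 < x := by linarith [Int.ceil_lt_add_one x]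
  have h2 : x < ⌈x⌉ := lt_of_le_of_ne (Int.le_ceil x) (hx _)
  have h3 : ∀ᶠ y in 𝓝 x, q ^ ((⌈x⌉ : ℝ) - y) = hq y := by
    filter_upwards [Ioo_mem_nhds h1 h2] with y hy
    unfold hq
    have : ⌈y⌉ = ⌈x⌉ := by
      rw [Int.ceil_eq_iff]
      exact ⟨hy.1, hy.2.le⟩
    rw [this]
  have h4 : ContinuousAt (fun y : ℝ => q ^ ((⌈x⌉ : ℝ) - y)) x := by
    have : Continuous (fun y : ℝ => q ^ ((⌈x⌉ : ℝ) - y)) :=
      (Real.continuous_const_rpow q_pos.ne').comp (continuous_const.sub continuous_id)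
    exact this.continuousAt
  exact h4.congr h3

/-- the limits along the two kinds of subsequences -/
theorem Psi_along (k : ℕ → ℕ) (r : ℕ → ℤ) (s L : ℝ) (hL : Tendsto (fun i => hq ((k i : ℝ) * th - r i)) atTop (𝓝 L))
    (hs : Tendsto (fun i => (k i : ℝ) * th - r i) atTop (𝓝 s)) (hs0 : s = 0) :
    Tendsto (fun i => Psi (k i)) atTop
      (𝓝 (c1 * ∑' j : ℕ, ds j * (if j = 0 then L else hq (-(j * th))))) := by
  unfold Psi
  apply Tendsto.const_mul
  apply tendsto_tsum_of_dominated_convergence (bound := ds) ds_summable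
  · intro j
    apply Tendsto.const_mul
    have e : ∀ i, hq ((((k i : ℤ) - j : ℤ) : ℝ) * th) = hq (((k i : ℝ) * th - r i) - j * th) := by
      intro i
      have : ((k i : ℝ) * th - r i) - j * th = ((((k i : ℤ) - j : ℤ) : ℝ) * th) - r i := by
        push_cast; ring
      rw [this, hq_sub_int]
    simp only [e]
    by_cases hj : j = 0
    · subst hj
      simpa using hL
    · rw [if_neg hj]
      have hc : ContinuousAt hq (-((j : ℝ) * th)) := by
        apply hq_cont
        intro r h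
        apply th_ne j (by omega) (-r)
        push_cast
        linarith
      have h1 : Tendsto (fun i => ((k i : ℝ) * th - r i) - j * th) atTop (𝓝 (-((j : ℝ) * th))) := by
        have := hs.sub_const ((j : ℝ) * th)
        rw [hs0, zero_sub] at this
        exact this
      exact hc.tendsto.comp h1
  · apply Eventually.of_forall
    intro i j
    rw [norm_mul, Real.norm_eq_abs, Real.norm_eq_abs, abs_of_nonneg (ds_nonneg j)]
    exact mul_le_of_le_one_right (ds_nonneg j) (hq_abs _)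

/-- THE OSCILLATION -/
theorem no_limit : ¬ ∃ L : ℝ, Tendsto Psi atTop (𝓝 L) := by
  rintro ⟨L, hL⟩
  -- from the right
  choose k1 hk1 r1 a1 b1 using fun i : ℕ => th_right (show (0 : ℝ) < 1 / (i + 1) by positivity) i
  choose k2 hk2 r2 a2 b2 using fun i : ℕ => th_left (show (0 : ℝ) < 1 / (i + 1) by positivity) i
  have hz : Tendsto (fun i : ℕ => 1 / ((i : ℝ) + 1)) atTop (𝓝 0) := tendsto_one_div_add_atTop_nhds_zero_nat
  have t1 : Tendsto (fun i => (k1 i : ℝ) * th - r1 i) atTop (𝓝 0) :=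
    squeeze_zero (fun i => (a1 i).le) (fun i => (b1 i).le) hz
  have t2 : Tendsto (fun i => (k2 i : ℝ) * th - r2 i) atTop (𝓝 0) := by
    have := squeeze_zero (fun i => (a2 i).le) (fun i => (b2 i).le) hz
    have := this.neg
    rw [neg_zero] at this
    refine this.congr fun i => ?_
    ring
  have hcont : Continuous fun y : ℝ => q ^ y := Real.continuous_const_rpow q_pos.ne'
  have l1 : Tendsto (fun i => hq ((k1 i : ℝ) * th - r1 i)) atTop (𝓝 q) := by
    have h1 : Tendsto (fun i => q ^ (1 - ((k1 i : ℝ) * th - r1 i))) atTop (𝓝 (q ^ ((1 : ℝ) - 0))) :=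
      (hcont.tendsto _).comp (t1.const_sub 1)
    rw [sub_zero, Real.rpow_one] at h1
    refine h1.congr' ?_
    filter_upwards [eventually_ge_atTop 1] with i hi
    unfold hq
    have hle : (k1 i : ℝ) * th - r1 i ≤ 1 := by
      refine (b1 i).le.trans ?_
      rw [div_le_one (by positivity)]
      have : (0 : ℝ) ≤ i := Nat.cast_nonneg i
      linarith
    have : ⌈(k1 i : ℝ) * th - r1 i⌉ = 1 := by
      rw [Int.ceil_eq_iff]
      push_cast
      exact ⟨by linarith [a1 i], hle⟩
    rw [this]; push_cast; rfl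
  have l2 : Tendsto (fun i => hq ((k2 i : ℝ) * th - r2 i)) atTop (𝓝 1) := by
    have h1 : Tendsto (fun i => q ^ (0 - ((k2 i : ℝ) * th - r2 i))) atTop (𝓝 (q ^ ((0 : ℝ) - 0))) :=
      (hcont.tendsto _).comp (t2.const_sub 0)
    rw [sub_zero, Real.rpow_zero] at h1
    refine h1.congr' ?_
    filter_upwards [eventually_ge_atTop 1] with i hi
    unfold hq
    have hlt : -1 < (k2 i : ℝ) * th - r2 i := by
      have h2 := b2 i
      have h3 : (1 : ℝ) / (i + 1) ≤ 1 := by
        rw [div_le_one (by positivity)]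
        have : (0 : ℝ) ≤ i := Nat.cast_nonneg i
        linarith
      linarith
    have : ⌈(k2 i : ℝ) * th - r2 i⌉ = 0 := by
      rw [Int.ceil_eq_iff]
      push_cast
      exact ⟨by linarith, by linarith [a2 i]⟩
    rw [this]; push_cast; rfl
  have m1 := Psi_along k1 r1 0 q l1 t1 rfl
  have m2 := Psi_along k2 r2 0 1 l2 t2 rfl
  have hk1' : Tendsto k1 atTop atTop := tendsto_atTop_mono hk1 tendsto_id
  have hk2' : Tendsto k2 atTop atTop := tendsto_atTop_mono hk2 tendsto_id
  have n1 := tendsto_nhds_unique m1 (hL.comp hk1')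
  have n2 := tendsto_nhds_unique m2 (hL.comp hk2')
  have hsum : ∀ L' : ℝ, |L'| ≤ 1 → Summable fun j : ℕ => ds j * (if j = 0 then L' else hq (-(j * th))) := by
    intro L' hL'
    apply Summable.of_norm_bounded ds_summable
    intro j
    rw [norm_mul, Real.norm_eq_abs, Real.norm_eq_abs, abs_of_nonneg (ds_nonneg j)]
    apply mul_le_of_le_one_right (ds_nonneg j)
    split_ifs
    · exact hL'
    · rw [abs_of_pos (hq_pos _)]; exact hq_le_one _
  have hd : ∑' j : ℕ, ds j * (if j = 0 then (1 : ℝ) else hq (-(j * th))) -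
      ∑' j : ℕ, ds j * (if j = 0 then q else hq (-(j * th))) = 1 - q := by
    rw [← (hsum 1 (by simp)).tsum_sub (hsum q (by rw [abs_of_pos q_pos]; exact q_lt_one.le))]
    rw [tsum_eq_single 0]
    · simp [ds_zero]
    · intro j hj
      simp [hj]
  have h1 : c1 * (1 - q) = 0 := by
    rw [← hd, mul_sub, n1, n2, sub_self]
  have h2 : 0 < c1 * (1 - q) := mul_pos c1_pos (by linarith [q_lt_one])
  linarith

end Pool.Agent.H622.St
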