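import Mathlib
import Pool.Agent.H622.Gs7
import Pool.Agent.H622.St13
import Pool.Agent.H622.St8

set_option autoImplicit false

/-! The limit law on the 2-adic integers, part 1: residues and words. -/

namespace Pool.Agent.H622.Gz

open Finset Filter Topology
open scoped Classical
open Pool.Agent.Helper894.Collatz Pool.Agent.H828R3.Exc Pool.Agent.W36.SL
open Pool.Agent.H622.St (th Surv od_le th_pos th_lt_one th_ne pow_lt_iff Surv_succ Surv_shift Surv_shift1 An)

noncomputable def ind (p : Prop) : ℕ := if p then 1 else 0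

theorem ind_pos {p : Prop} (h : p) : ind p = 1 := if_pos h
theorem ind_neg {p : Prop} (h : ¬ p) : ind p = 0 := if_neg h
theorem ind_congr {p q : Prop} (h : p ↔ q) : ind p = ind q := by rw [propext h]

noncomputable def cnt (K : ℕ) (S : ℕ → Prop) (o : ℕ) : ℕ := ∑ n ∈ range (2 ^ K), ind (S n ∧ od K n = o)

theorem cnt_congr {K : ℕ} {S S' : ℕ → Prop} (h : ∀ n, S n ↔ S' n) (o : ℕ) : cnt K S o = cnt K S' o := by
  unfold cnt
  exact sum_congr rfl fun n _ => ind_congr (by rw [h n])

theorem dbl {K : ℕ} {S : ℕ → Prop} (hS : ∀ x, S (2 ^ K + x) ↔ S x) (P : ℕ → Prop) (o : ℕ) :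
    cnt (K + 1) (fun n => S n ∧ P (od (K + 1) n)) o =
      ind (P o) * (cnt K S o + ind (o ≠ 0) * cnt K S (o - 1)) := by
  unfold cnt
  rw [pow_succ, mul_two, sum_range_add, ← sum_add_distrib]
  by_cases hP : P o
  swap
  · rw [ind_neg hP, zero_mul]
    apply sum_eq_zero
    intro n _
    have e1 : ∀ m : ℕ, ¬ ((S m ∧ P (od (K + 1) m)) ∧ od (K + 1) m = o) := by
      rintro m ⟨⟨-, h⟩, h2⟩
      rw [h2] at h
      exact hP h
    rw [ind_neg (e1 _), ind_neg (e1 _), add_zero]
  rw [ind_pos hP, one_mul]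
  have key : ∀ x, ind ((S x ∧ P (od (K + 1) x)) ∧ od (K + 1) x = o) +
      ind ((S (2 ^ K + x) ∧ P (od (K + 1) (2 ^ K + x))) ∧ od (K + 1) (2 ^ K + x) = o) =
      ind (S x ∧ od K x = o) + ind (S x ∧ od K x + 1 = o) := by
    intro x
    have h1 : od K (2 ^ K + x) = od K x := by rw [add_comm]; exact od_shift K x
    have h2 : T^[K] (2 ^ K + x) % 2 = 1 - T^[K] x % 2 := by rw [add_comm]; exact flip_parity K x
    have e1 : ∀ m : ℕ, ((S x ∧ P m) ∧ m = o) ↔ (S x ∧ m = o) := by
      intro m
      constructor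
      · rintro ⟨⟨a, -⟩, c⟩; exact ⟨a, c⟩
      · rintro ⟨a, c⟩; exact ⟨⟨a, by rw [c]; exact hP⟩, c⟩
    rw [ind_congr (e1 _), hS, ind_congr (e1 _), od_succ, od_succ, h1, h2]
    rcases Nat.mod_two_eq_zero_or_one (T^[K] x) with h | h
    · rw [h, add_zero]
    · rw [h, Nat.sub_self, add_zero, add_comm]
  rw [sum_congr rfl fun x _ => key x, sum_add_distrib]
  congr 1
  by_cases ho : o = 0
  · rw [ind_neg (not_not.2 ho), zero_mul]
    apply sum_eq_zero
    intro x _
    rw [ind_neg]
    rintro ⟨-, h⟩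
    omega
  · rw [ind_pos ho, one_mul]
    apply sum_congr rfl
    intro x _
    apply ind_congr
    constructor
    · rintro ⟨a, b⟩; exact ⟨a, by omega⟩
    · rintro ⟨a, b⟩; exact ⟨a, by omega⟩

theorem Sl_th : Gs.Sl th := ⟨th_pos, th_lt_one, th_ne⟩

/-- the walk stays below the line -/
def Falls (k n : ℕ) : Prop := ∀ j, 1 ≤ j → j ≤ k → 3 ^ od j n < 2 ^ j

theorem Falls_succ (k n : ℕ) : Falls (k + 1) n ↔ Falls k n ∧ 3 ^ od (k + 1) n < 2 ^ (k + 1) := by
  unfold Falls
  constructor
  · intro h
    exact ⟨fun j h1 hj => h j h1 (by omega), h (k + 1) (by omega) le_rfl⟩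
  · rintro ⟨h1, h2⟩ j hj1 hj
    rcases Nat.lt_or_ge j (k + 1) with h | h
    · exact h1 j hj1 (by omega)
    · have : j = k + 1 := by omega
      rw [this]; exact h2

theorem Falls_shift (k x : ℕ) : Falls k (2 ^ k + x) ↔ Falls k x := by
  unfold Falls
  have h : ∀ j, j ≤ k → od j (2 ^ k + x) = od j x := by
    intro j hj
    have := od_shift_le hj x 1
    rw [mul_one] at this
    rw [add_comm]; exact this
  constructor
  · intro h1 j hj1 hj
    rw [← h j hj]; exact h1 j hj1 hj
  · intro h1 j hj1 hj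
    rw [h j hj]; exact h1 j hj1 hj

/-- the residues below the line -/
noncomputable def Bn (k o : ℕ) : ℕ := cnt k (Falls k) o

theorem Ep_coeff (k : ℕ) : ∀ o, (Gs.Ep th k).coeff o = (Bn k o : ℤ) := by
  induction k with
  | zero =>
    intro o
    rw [Gs.Ep, Polynomial.coeff_one]
    unfold Bn cnt
    rw [pow_zero, range_one, sum_singleton]
    have h0 : Falls 0 0 := fun j h1 h2 => by omega
    have h1 : od 0 0 = 0 := by simp [od]
    by_cases h : o = 0
    · subst h
      rw [if_pos rfl, ind_pos ⟨h0, h1⟩]; rfl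
    · rw [if_neg h, ind_neg]
      · rfl
      · rintro ⟨-, h2⟩
        rw [h1] at h2
        exact h h2.symm
  | succ k ih =>
    intro o
    have h1 : Bn (k + 1) o = ind (3 ^ o < 2 ^ (k + 1)) * (Bn k o + ind (o ≠ 0) * Bn k (o - 1)) := by
      unfold Bn
      refine Eq.trans ?_ (dbl (fun x => Falls_shift k x) (fun p => 3 ^ p < 2 ^ (k + 1)) o)
      exact cnt_congr (fun n => Falls_succ k n) o
    rw [h1, Gs.Ep_succ]
    have h2 : ((o : ℝ) < ((k + 1 : ℕ) : ℝ) * th) ↔ 3 ^ o < 2 ^ (k + 1) := by
      have h3 := pow_lt_iff (k + 1) o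
      constructor
      · intro h4
        by_contra h5
        rcases (not_lt.1 h5).lt_or_eq with h6 | h6
        · have := h3.1 h6
          linarith
        · exact Pool.Agent.H622.St.ne_pow (k := k + 1) (o := o) (by omega) h6
      · intro h4
        rcases lt_trichotomy (o : ℝ) (((k + 1 : ℕ) : ℝ) * th) with h5 | h5 | h5
        · exact h5
        · exfalso
          exact th_ne (k + 1) (by omega) o (by rw [Int.cast_natCast]; exact h5.symm)
        · have := h3.2 h5
          omega
    simp only [h2]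
    split_ifs with h3 h4
    · rw [ih, ind_pos h3, ind_neg (not_not.2 h4)]; push_cast; ring
    · rw [ih, ih, ind_pos h3, ind_pos h4]; push_cast; ring
    · rw [ind_neg h3]; push_cast; ring

/-- the survivors in a residue class -/
noncomputable def Ar (j r K o : ℕ) : ℕ := cnt K (fun n => n % 2 ^ j = r ∧ Surv K n) o

theorem od_mod {j K n : ℕ} (i : ℕ) (hi : i ≤ j) (r : ℕ) (h : n % 2 ^ j = r) (_ : j ≤ K) : od i n = od i r := by
  have e : n = r + 2 ^ j * (n / 2 ^ j) := by
    have := Nat.mod_add_div n (2 ^ j)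
    omega
  rw [e, od_shift_le hi]

theorem Ar_coeff {j r : ℕ} (hr : r < 2 ^ j) (hS : Surv j r) (k : ℕ) : ∀ o,
    (Gs.Np th ((od j r : ℝ) - j * th) k).coeff o = (Ar j r (j + k) (od j r + o) : ℤ) := by
  induction k with
  | zero =>
    intro o
    rw [Gs.Np, Polynomial.coeff_one, add_zero]
    unfold Ar cnt
    by_cases ho : o = 0
    · subst ho
      rw [if_pos rfl, sum_eq_single r]
      · rw [ind_pos ⟨⟨Nat.mod_eq_of_lt hr, hS⟩, by rw [add_zero]⟩]; rfl
      · intro n hn hnr
        rw [mem_range] at hn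
        apply ind_neg
        rintro ⟨⟨b, -⟩, -⟩
        rw [Nat.mod_eq_of_lt hn] at b
        exact hnr b
      · intro h
        exact absurd (mem_range.2 hr) h
    · rw [if_neg ho, sum_eq_zero]
      · rfl
      · intro n hn
        rw [mem_range] at hn
        apply ind_neg
        rintro ⟨⟨b, -⟩, c⟩
        rw [Nat.mod_eq_of_lt hn] at b
        subst b
        omega
  | succ k ih =>
    intro o
    have hsh : ∀ x, ((2 ^ (j + k) + x) % 2 ^ j = r ∧ Surv (j + k) (2 ^ (j + k) + x)) ↔
        (x % 2 ^ j = r ∧ Surv (j + k) x) := by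
      intro x
      rw [Surv_shift1, pow_add, mul_comm (2 ^ j) (2 ^ k), Nat.add_comm, Nat.add_mul_mod_self_right]
    have h1 : Ar j r (j + k + 1) (od j r + o) = ind (2 ^ (j + k + 1) ≤ 3 ^ (od j r + o)) *
        (Ar j r (j + k) (od j r + o) + ind (od j r + o ≠ 0) * Ar j r (j + k) (od j r + o - 1)) := by
      unfold Ar
      refine Eq.trans ?_ (dbl hsh (fun p => 2 ^ (j + k + 1) ≤ 3 ^ p) (od j r + o))
      apply cnt_congr
      intro n
      rw [Surv_succ]
      constructor
      · rintro ⟨a, b, c⟩; exact ⟨⟨a, b⟩, c⟩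
      · rintro ⟨⟨a, b⟩, c⟩; exact ⟨a, b, c⟩
    have hz : ∀ p, p < od j r → Ar j r (j + k) p = 0 := by
      intro p hp
      unfold Ar cnt
      apply sum_eq_zero
      intro n _
      apply ind_neg
      rintro ⟨⟨a, -⟩, c⟩
      have h2 := od_mod (K := j + k) j le_rfl r a (by omega)
      have h3 : od j n ≤ od (j + k) n := by
        have : ∀ m, od j n ≤ od (j + m) n := by
          intro m
          induction m with
          | zero => exact le_rfl
          | succ m ihm =>
            rw [← add_assoc, od_succ]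
            omega
        exact this k
      omega
    rw [show j + (k + 1) = j + k + 1 by omega, h1, Gs.Np, Gs.coeff_cut]
    have h2 : (-((od j r : ℝ) - j * th) ≤ (o : ℝ) - ((k + 1 : ℕ) : ℝ) * th) ↔
        2 ^ (j + k + 1) ≤ 3 ^ (od j r + o) := by
      have h3 := pow_lt_iff (j + k + 1) (od j r + o)
      have h4 := th_ne (j + k + 1) (by omega) ((od j r + o : ℕ) : ℤ)
      rw [Int.cast_natCast] at h4
      push_cast at h3 h4 ⊢
      constructor
      · intro h5
        apply le_of_lt
        rw [h3]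
        apply lt_of_le_of_ne _ h4
        linarith
      · intro h5
        have h6 := Pool.Agent.H622.St.ne_pow (k := j + k + 1) (o := od j r + o) (by omega)
        have h7 := h3.1 (lt_of_le_of_ne h5 h6)
        linarith
    simp only [h2]
    split_ifs with h3
    · rw [ind_pos h3, add_mul, one_mul, Polynomial.coeff_add, ih]
      rcases Nat.eq_zero_or_pos o with h5 | h5
      · subst h5
        have h6 : ind (od j r + 0 ≠ 0) * Ar j r (j + k) (od j r + 0 - 1) = 0 := by
          by_cases h7 : od j r + 0 ≠ 0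
          · rw [hz (od j r + 0 - 1) (by omega), mul_zero]
          · rw [ind_neg h7, zero_mul]
        rw [h6]
        simp
      · obtain ⟨p, rfl⟩ : ∃ p, o = p + 1 := ⟨o - 1, by omega⟩
        rw [Polynomial.coeff_X_mul, ih, show od j r + (p + 1) - 1 = od j r + p by omega,
          ind_pos (show od j r + (p + 1) ≠ 0 by omega)]
        push_cast
        ring
    · rw [ind_neg h3]; push_cast; ring

end Pool.Agent.H622.Gz
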