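import Mathlib
import Pool.Agent.H622.Gs8

set_option autoImplicit false

/-! The limit law on the 2-adic integers, part 2: the proportion of the survivors in a residue class. -/

namespace Pool.Agent.H622.Gz

open Finset Filter Topology
open scoped Classical
open Pool.Agent.Helper894.Collatz Pool.Agent.H828R3.Exc Pool.Agent.W36.SL
open Pool.Agent.H622.St (th Surv od_le th_pos th_lt_one th_ne pow_lt_iff Surv_succ Surv_shift Surv_shift1 An
  survivors He Z Lw Z_ge Z_le Z_pos q_pos q_lt_one exp_He surv_Z ds)

theorem Dp_An (k : ℕ) : ∀ o, (Gs.Dp th k).coeff o = (An k o : ℤ) := by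
  induction k with
  | zero =>
    intro o
    rw [Pool.Agent.H622.St.An_eq]
    rfl
  | succ k ih =>
    intro o
    rw [Gs.Dp_succ, Pool.Agent.H622.St.An_succ]
    have h2 : (((k + 1 : ℕ) : ℝ) * th < o) ↔ 2 ^ (k + 1) < 3 ^ o := (pow_lt_iff (k + 1) o).symm
    simp only [h2]
    split_ifs with h3 h4
    · rw [ih]; push_cast; ring
    · rw [ih, ih]; push_cast; ring
    · rfl

theorem b_eq (k o : ℕ) : Gs.b th k o = Pool.Agent.H622.St.b k o := by
  unfold Gs.b Pool.Agent.H622.St.b
  rw [Dp_An]
  push_cast
  rfl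

theorem Rf_eq (w : ℝ) : Gs.Rf th w = Pool.Agent.H622.St.Rf w := by
  unfold Gs.Rf Pool.Agent.H622.St.Rf Gs.Rt Pool.Agent.H622.St.Rt
  simp only [b_eq]

theorem Yw_eq (j a k o : ℕ) :
    Gs.Yw th Pool.Agent.H622.St.q ((a : ℝ) - j * th) k o = Lw (j + k) (a + o) := by
  unfold Gs.Yw Lw
  have e1 : (a : ℝ) - j * th + o - k * th = ((a + o : ℕ) : ℝ) - ((j + k : ℕ) : ℝ) * th := by
    push_cast; ring
  have e2 : ((k : ℝ) * th < (a : ℝ) - j * th + o) ↔ (((j + k : ℕ) : ℝ) * th < ((a + o : ℕ) : ℝ)) := by
    push_cast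
    constructor <;> intro h <;> linarith
  rw [e1, Rf_eq]
  simp only [e2]

theorem Np_zero {u : ℝ} {k : ℕ} : ∀ {o : ℕ}, k < o → (Gs.Np th u k).coeff o = 0 := by
  induction k with
  | zero =>
    intro o h
    rw [Gs.Np, Polynomial.coeff_one, if_neg (by omega)]
  | succ k ih =>
    intro o h
    obtain ⟨p, rfl⟩ : ∃ p, o = p + 1 := ⟨o - 1, by omega⟩
    rw [Gs.Np, Gs.coeff_cut, add_mul, one_mul, Polynomial.coeff_add, Polynomial.coeff_X_mul,
      ih (show k < p + 1 by omega), ih (show k < p by omega)]
    simp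

/-- the survivors in the class -/
noncomputable def At (j r K : ℕ) : ℕ := ((range (2 ^ K)).filter fun n => n % 2 ^ j = r ∧ Surv K n).card

theorem At_sum (j r K : ℕ) : At j r K = ∑ o ∈ range (K + 1), Ar j r K o := by
  unfold At Ar cnt
  rw [sum_comm, card_filter]
  apply sum_congr rfl
  intro n _
  rw [sum_eq_single (od K n)]
  · by_cases h : n % 2 ^ j = r ∧ Surv K n
    · rw [if_pos h, ind_pos ⟨h, rfl⟩]
    · rw [if_neg h, ind_neg (fun h2 => h h2.1)]
  · intro o _ ho
    apply ind_neg
    rintro ⟨-, h⟩
    exact ho h.symm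
  · intro h
    have := od_le K n
    exact absurd (mem_range.2 (by omega)) h

/-- the weight `exp(-k H) q^u` times the number of the survivors in the class -/
theorem At_weight {j r : ℕ} (hr : r < 2 ^ j) (hS : Surv j r) (k : ℕ) :
    (At j r (j + k) : ℝ) * (Real.exp (-(k * He)) * Pool.Agent.H622.St.q ^ ((od j r : ℝ) - j * th)) =
    ∑' o : ℕ, Gs.bu th ((od j r : ℝ) - j * th) k o *
      Pool.Agent.H622.St.q ^ ((od j r : ℝ) - j * th + o - k * th) := by
  set a := od j r with ha
  set u : ℝ := (a : ℝ) - j * th with hu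
  have haj : a ≤ j := od_le j r
  rw [tsum_eq_sum (s := range (k + 1))]
  · -- the sum over `o`
    have h1 : (At j r (j + k) : ℝ) = ∑ o ∈ range (k + 1), ((Gs.Np th u k).coeff o : ℝ) := by
      rw [At_sum]
      have h2 : ∑ o ∈ range (j + k + 1), Ar j r (j + k) o = ∑ o ∈ range (k + 1), Ar j r (j + k) (a + o) := by
        -- outside of `[a, a + k]` the numbers vanish
        have hz : ∀ p, p < a → Ar j r (j + k) p = 0 := by
          intro p hp
          unfold Ar cnt
          apply sum_eq_zero
          intro n _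
          apply ind_neg
          rintro ⟨⟨h3, -⟩, c⟩
          have h2 := od_mod (K := j + k) j le_rfl r h3 (by omega)
          have h3 : od j n ≤ od (j + k) n := by
            have : ∀ m, od j n ≤ od (j + m) n := by
              intro m
              induction m with
              | zero => exact le_rfl
              | succ m ihm =>
                rw [← add_assoc, od_succ]
                omega
            exact this k
          omega
        have hz2 : ∀ p, a + k < p → Ar j r (j + k) p = 0 := by
          intro p hp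
          obtain ⟨o, rfl⟩ : ∃ o, p = a + o := ⟨p - a, by omega⟩
          have h3 := Ar_coeff hr hS k o
          rw [Np_zero (show k < o by omega)] at h3
          exact_mod_cast h3.symm
        have e1 : ∑ o ∈ range (k + 1), Ar j r (j + k) (a + o) = ∑ p ∈ Ico a (a + k + 1), Ar j r (j + k) p := by
          rw [sum_Ico_eq_sum_range]
          apply sum_congr _ fun _ _ => rfl
          congr 1
          omega
        rw [e1]
        symm
        apply sum_subset_zero_on_sdiff
        · intro p hp
          rw [mem_Ico] at hp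
          rw [mem_range]
          omega
        · intro p hp
          rw [Finset.mem_sdiff, mem_range, mem_Ico] at hp
          rcases Nat.lt_or_ge p a with h | h
          · exact hz p h
          · exact hz2 p (by omega)
        · intro p _; rfl
      rw [h2]
      push_cast
      apply sum_congr rfl
      intro o _
      have := Ar_coeff hr hS k o
      have h3 : (((Gs.Np th u k).coeff o : ℤ) : ℝ) = ((Ar j r (j + k) (a + o) : ℤ) : ℝ) := by
        rw [← this]
      rw [h3]
      push_cast
      rfl
    rw [h1, sum_mul]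
    apply sum_congr rfl
    intro o ho
    rw [mem_range] at ho
    rw [exp_He k o (by omega)]
    unfold Gs.bu
    have e : Pool.Agent.H622.St.q ^ (u + (o : ℝ) - k * th) =
        Pool.Agent.H622.St.q ^ ((o : ℝ) - k * th) * Pool.Agent.H622.St.q ^ u := by
      rw [← Real.rpow_add q_pos]; congr 1; ring
    rw [e]
    ring
  · intro o ho
    rw [mem_range] at ho
    unfold Gs.bu
    rw [Np_zero (show k < o by omega)]
    simp

/-- the mass of the residue class in the limit law -/
noncomputable def mu (j r : ℕ) : ℝ :=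
  if Surv j r then th ^ od j r * (1 - th) ^ (j - od j r) * Gs.Vf (1 - th) ((od j r : ℝ) - j * th) else 0

theorem height_nonneg {j r : ℕ} (hS : Surv j r) : 0 ≤ (od j r : ℝ) - j * th := by
  have h := hS j le_rfl
  rcases Nat.eq_zero_or_pos j with h0 | h0
  · subst h0; simp
  · have h1 := (pow_lt_iff j (od j r)).1 (lt_of_le_of_ne h (Pool.Agent.H622.St.ne_pow h0))
    linarith

theorem mu_nonneg (j r : ℕ) : 0 ≤ mu j r := by
  unfold mu
  split_ifs
  · have h1 := th_pos
    have h2 : 0 < 1 - th := by linarith [th_lt_one]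
    have := Gs.Vf_nonneg Sl_th.flip ((od j r : ℝ) - j * th)
    positivity
  · exact le_rfl

/-- THE LIMIT OF THE PROPORTIONS -/
theorem ratio {j r : ℕ} (hr : r < 2 ^ j) :
    Tendsto (fun K => (At j r K : ℝ) / survivors K) atTop (𝓝 (mu j r)) := by
  by_cases hS : Surv j r
  swap
  · unfold mu
    rw [if_neg hS]
    apply tendsto_const_nhds.congr'
    filter_upwards [eventually_ge_atTop j] with K hK
    have : At j r K = 0 := by
      unfold At
      rw [card_eq_zero, filter_eq_empty_iff]
      rintro n _ ⟨h1, h2⟩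
      apply hS
      intro i hi
      rw [← od_mod (K := K) i hi r h1 hK]
      exact h2 i (by omega)
    rw [this]; simp
  unfold mu
  rw [if_pos hS]
  set a := od j r with ha
  set u : ℝ := (a : ℝ) - j * th with hu
  have hu0 : 0 ≤ u := height_nonneg hS
  have haj : a ≤ j := od_le j r
  set V := Gs.Vf (1 - th) u with hV
  have hq := q_pos
  have hq1 := q_lt_one
  have hc0 := Gs.c0_pos Sl_th
  have hc0e : Gs.c0 th = Pool.Agent.H622.St.c0 := rfl
  -- the numerator
  have h1 := Gs.dfu_tendsto Sl_th hq hq1 hu0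
  have hnum : Tendsto (fun k : ℕ => (k : ℝ) * Real.sqrt k *
      ((At j r (j + k) : ℝ) * (Real.exp (-(k * He)) * Pool.Agent.H622.St.q ^ u)) -
      Gs.c0 th * (V * Z (j + k))) atTop (𝓝 0) := by
    apply squeeze_zero_norm' _ h1
    obtain ⟨N, hN⟩ := exists_nat_gt ((a : ℝ) / th)
    filter_upwards [eventually_ge_atTop N] with k hk
    have hz : Z (j + k) = ∑' o, Gs.Yw th Pool.Agent.H622.St.q u k o := by
      unfold Z
      rw [← (Pool.Agent.H622.St.Lw_summable (j + k)).sum_add_tsum_nat_add a, sum_eq_zero, zero_add]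
      · apply tsum_congr
        intro o
        rw [hu, Yw_eq, add_comm a]
      · intro o ho
        rw [mem_range] at ho
        unfold Lw
        rw [if_neg]
        intro h2
        have h3 : (o : ℝ) < a := by exact_mod_cast ho
        have h4 := (div_lt_iff₀ th_pos).1 hN
        have h5 : (N : ℝ) ≤ k := by exact_mod_cast hk
        push_cast at h2
        have h6 := th_pos
        have h7 : (0 : ℝ) ≤ j * th := by positivity
        nlinarith
    have hYs : Summable fun o => Gs.Yw th Pool.Agent.H622.St.q u k o := by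
      have h3 := (Pool.Agent.H622.St.Lw_summable (j + k))
      have h4 := (summable_nat_add_iff a).2 h3
      refine h4.congr fun o => ?_
      rw [hu, Yw_eq, add_comm a]
    have hbs : Summable fun o : ℕ => Gs.bu th u k o * Pool.Agent.H622.St.q ^ (u + (o : ℝ) - k * th) := by
      apply summable_of_ne_finset_zero (s := range (k + 1))
      intro o ho
      rw [mem_range] at ho
      unfold Gs.bu
      rw [Np_zero (show k < o by omega)]
      simp
    rw [At_weight hr hS k, hz, ← tsum_mul_left, ← tsum_mul_left, ← tsum_mul_left,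
      ← (hbs.mul_left _).tsum_sub ((hYs.mul_left _).mul_left _)]
    exact norm_tsum_le_tsum_norm (Gs.dfu_summable Sl_th hq hq1 hu0 k)
  -- the factor `e^{-jH} q^{-u}`
  have hw : th ^ a * (1 - th) ^ (j - a) * Pool.Agent.H622.St.q ^ u = Real.exp (-(j * He)) := by
    rw [exp_He j a haj]
  set w : ℝ := th ^ a * (1 - th) ^ (j - a) with hwd
  have hqu : 0 < Pool.Agent.H622.St.q ^ u := Real.rpow_pos_of_pos hq _
  -- the factor `K √K / (k √k)`
  have h4 : Tendsto (fun k : ℕ => (((j + k : ℕ) : ℝ) * Real.sqrt ((j + k : ℕ) : ℝ)) / (k * Real.sqrt k))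
      atTop (𝓝 1) := by
    have h5 : Tendsto (fun k : ℕ => ((j + k : ℕ) : ℝ) / (k : ℝ)) atTop (𝓝 1) := by
      have h6 : Tendsto (fun k : ℕ => (j : ℝ) / (k : ℝ) + 1) atTop (𝓝 (0 + 1)) :=
        (tendsto_natCast_atTop_atTop.const_div_atTop _).add_const 1
      rw [zero_add] at h6
      refine h6.congr' ?_
      filter_upwards [eventually_gt_atTop 0] with k hk
      have hk' : (0 : ℝ) < k := by exact_mod_cast hk
      push_cast
      field_simp
    have h7 := (Real.continuous_sqrt.tendsto 1).comp h5
    rw [Real.sqrt_one] at h7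
    have h8 := h5.mul h7
    rw [one_mul] at h8
    refine h8.congr fun k => ?_
    simp only [Function.comp]
    rw [Real.sqrt_div (Nat.cast_nonneg _), div_mul_div_comm]
  -- the numerator with `K`
  obtain ⟨CZ, hCZ, hZle⟩ := Z_le
  have hN2 : Tendsto (fun k : ℕ => ((j + k : ℕ) : ℝ) * Real.sqrt ((j + k : ℕ) : ℝ) *
      ((At j r (j + k) : ℝ) * Real.exp (-(((j + k : ℕ) : ℝ) * He))) - Gs.c0 th * (w * V * Z (j + k)))
      atTop (𝓝 0) := by
    have h5 := (h4.mul (hnum.const_mul w))
    rw [mul_zero, mul_zero] at h5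
    have h6 : Tendsto (fun k : ℕ => ((((j + k : ℕ) : ℝ) * Real.sqrt ((j + k : ℕ) : ℝ)) / (k * Real.sqrt k) - 1) *
        (Gs.c0 th * (w * V * Z (j + k)))) atTop (𝓝 0) := by
      have h7 := h4.sub_const 1
      rw [sub_self] at h7
      have h8 := h7.abs
      rw [abs_zero] at h8
      have h9 := h8.mul_const (Gs.c0 th * (|w * V| * CZ))
      rw [zero_mul] at h9
      apply squeeze_zero_norm _ h9
      intro k
      rw [norm_mul, Real.norm_eq_abs, Real.norm_eq_abs, abs_mul (Gs.c0 th), abs_of_pos hc0,
        abs_mul (w * V), abs_of_pos (Z_pos (j + k))]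
      apply mul_le_mul_of_nonneg_left _ (abs_nonneg _)
      apply mul_le_mul_of_nonneg_left _ hc0.le
      exact mul_le_mul_of_nonneg_left (hZle _) (abs_nonneg _)
    have h7 := h5.add h6
    rw [add_zero] at h7
    refine h7.congr' ?_
    filter_upwards [eventually_gt_atTop 0] with k hk
    have hk' : (0 : ℝ) < k := by exact_mod_cast hk
    have hsk : 0 < Real.sqrt (k : ℝ) := Real.sqrt_pos.2 hk'
    have e : Real.exp (-(((j + k : ℕ) : ℝ) * He)) = w * Pool.Agent.H622.St.q ^ u * Real.exp (-(k * He)) := by
      rw [hw, ← Real.exp_add]; congr 1; push_cast; ring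
    rw [e]
    field_simp
    ring
  -- the denominator
  have hD : Tendsto (fun k : ℕ => ((j + k : ℕ) : ℝ) * Real.sqrt ((j + k : ℕ) : ℝ) *
      ((survivors (j + k) : ℝ) * Real.exp (-(((j + k : ℕ) : ℝ) * He))) - Gs.c0 th * Z (j + k)) atTop (𝓝 0) := by
    have h5 := surv_Z
    have h6 : Tendsto (fun k : ℕ => j + k) atTop atTop := tendsto_atTop_mono (fun k => Nat.le_add_left k j) tendsto_id
    have h7 := h5.comp h6
    refine h7.congr fun k => ?_
    simp only [Function.comp]
    rw [← hc0e]
    rfl
  -- the quotient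
  have hmain : Tendsto (fun k : ℕ => (At j r (j + k) : ℝ) / survivors (j + k)) atTop (𝓝 (w * V)) := by
    rw [tendsto_iff_norm_sub_tendsto_zero]
    have h5 := (hN2.sub (hD.const_mul (w * V))).abs
    rw [mul_zero, sub_zero, abs_zero] at h5
    have h6 := h5.mul_const (2 / (Gs.c0 th * Pool.Agent.H622.St.q))
    rw [zero_mul] at h6
    have h7 : ∀ᶠ k : ℕ in atTop, Gs.c0 th * Pool.Agent.H622.St.q / 2 ≤
        ((j + k : ℕ) : ℝ) * Real.sqrt ((j + k : ℕ) : ℝ) *
          ((survivors (j + k) : ℝ) * Real.exp (-(((j + k : ℕ) : ℝ) * He))) := by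
      have h8 := (Metric.tendsto_nhds.1 hD) (Gs.c0 th * Pool.Agent.H622.St.q / 2) (by positivity)
      filter_upwards [h8] with k hk
      rw [Real.dist_eq, sub_zero, abs_lt] at hk
      have := mul_le_mul_of_nonneg_left (Z_ge (j + k)) hc0.le
      linarith [hk.1]
    apply squeeze_zero' (Eventually.of_forall fun k => norm_nonneg _) _ h6
    filter_upwards [h7] with k hk
    set Dk : ℝ := ((j + k : ℕ) : ℝ) * Real.sqrt ((j + k : ℕ) : ℝ) *
          ((survivors (j + k) : ℝ) * Real.exp (-(((j + k : ℕ) : ℝ) * He))) with hDk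
    have hDpos : 0 < Dk := lt_of_lt_of_le (by positivity) hk
    have hSpos : (0 : ℝ) < survivors (j + k) := by
      rcases (Nat.cast_nonneg (α := ℝ) (survivors (j + k))).lt_or_eq with h | h
      · exact h
      · rw [hDk, ← h, zero_mul, mul_zero] at hDpos
        exact absurd hDpos (lt_irrefl 0)
    set fct : ℝ := ((j + k : ℕ) : ℝ) * Real.sqrt ((j + k : ℕ) : ℝ) * Real.exp (-(((j + k : ℕ) : ℝ) * He))
      with hfct
    have hf : Dk = fct * survivors (j + k) := by rw [hDk, hfct]; ring
    have hfpos : 0 < fct := by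
      rcases lt_or_ge 0 fct with h | h
      · exact h
      · exfalso
        have : Dk ≤ 0 := by rw [hf]; exact mul_nonpos_of_nonpos_of_nonneg h hSpos.le
        linarith
    have e1 : (At j r (j + k) : ℝ) / survivors (j + k) - w * V =
        (((j + k : ℕ) : ℝ) * Real.sqrt ((j + k : ℕ) : ℝ) *
      ((At j r (j + k) : ℝ) * Real.exp (-(((j + k : ℕ) : ℝ) * He))) - Gs.c0 th * (w * V * Z (j + k)) -
        w * V * (Dk - Gs.c0 th * Z (j + k))) / Dk := by
      rw [eq_div_iff hDpos.ne']
      have e2 : ((At j r (j + k) : ℝ) / survivors (j + k)) * Dk = fct * At j r (j + k) := by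
        rw [hf]; field_simp
      rw [sub_mul, e2, hfct]
      ring
    rw [e1, norm_div, Real.norm_eq_abs, Real.norm_eq_abs, abs_of_pos hDpos, div_eq_mul_inv]
    apply mul_le_mul_of_nonneg_left _ (abs_nonneg _)
    rw [← one_div, div_le_div_iff₀ hDpos (by positivity)]
    linarith
  have h8 : (fun K => (At j r K : ℝ) / survivors K) ∘ (fun k => k + j) =
      fun k => (At j r (j + k) : ℝ) / survivors (j + k) := by
    ext k; simp only [Function.comp]; rw [add_comm]
  rw [← tendsto_add_atTop_iff_nat j]
  refine hmain.congr fun k => ?_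
  rw [add_comm]

end Pool.Agent.H622.Gz
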