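import Mathlib
import Pool.Agent.H622.Gs9

set_option autoImplicit false

/-! The limit law on the 2-adic integers, part 3: consistency, concentration, the integers. -/

namespace Pool.Agent.H622.Gz

open Finset Filter Topology
open scoped Classical
open Pool.Agent.Helper894.Collatz Pool.Agent.H828R3.Exc Pool.Agent.W36.SL
open Pool.Agent.H622.St (th Surv od_le th_pos th_lt_one th_ne pow_lt_iff Surv_succ Surv_shift Surv_shift1 An
  survivors He Z Lw Z_ge Z_le Z_pos q_pos q_lt_one exp_He surv_Z ds Stays)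

/-- the harmonic function in terms of the residues below the line -/
theorem Vf_eq (u : ℝ) : Gs.Vf (1 - th) u = ∑' i : ℕ, ∑ o ∈ range (i + 1),
    if (i : ℝ) * th - o ≤ u then (Bn i o : ℝ) * (th ^ o * (1 - th) ^ (i - o)) else 0 := by
  unfold Gs.Vf
  apply tsum_congr
  intro i
  unfold Gs.Rl
  rw [← sum_range_reflect]
  apply sum_congr rfl
  intro o ho
  rw [mem_range] at ho
  rw [show i + 1 - 1 - o = i - o by omega]
  have e1 : (((i - o : ℕ) : ℝ) - i * (1 - th) ≤ u) ↔ ((i : ℝ) * th - o ≤ u) := by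
    rw [Nat.cast_sub (by omega)]
    constructor <;> intro h <;> linarith
  simp only [e1]
  split_ifs
  · unfold Gs.b
    have h1 := Gs.Ep_eq (θ := th) i o
    rw [if_pos (show o ≤ i by omega), Ep_coeff] at h1
    rw [← h1, show i - (i - o) = o by omega, sub_sub_cancel]
    push_cast
    ring
  · rfl

theorem At_split (j r K : ℕ) (hr : r < 2 ^ j) : At j r K = At (j + 1) r K + At (j + 1) (r + 2 ^ j) K := by
  unfold At
  rw [← card_union_of_disjoint]
  · congr 1
    ext n
    rw [mem_union, mem_filter, mem_filter, mem_filter]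
    have h1 : n % 2 ^ j = r ↔ (n % 2 ^ (j + 1) = r ∨ n % 2 ^ (j + 1) = r + 2 ^ j) := by
      have h2 : n % 2 ^ (j + 1) % 2 ^ j = n % 2 ^ j := Nat.mod_mod_of_dvd n (pow_dvd_pow 2 (by omega))
      have h3 : n % 2 ^ (j + 1) < 2 ^ (j + 1) := Nat.mod_lt _ (by positivity)
      set m := n % 2 ^ (j + 1)
      rw [← h2]
      have h4 : 2 ^ (j + 1) = 2 ^ j + 2 ^ j := by rw [pow_succ, mul_two]
      rw [h4] at h3
      constructor
      · intro h5
        rcases Nat.lt_or_ge m (2 ^ j) with h6 | h6
        · left; rwa [Nat.mod_eq_of_lt h6] at h5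
        · right
          rw [Nat.mod_eq_sub_mod h6, Nat.mod_eq_of_lt (by omega)] at h5
          omega
      · rintro (h5 | h5)
        · rw [h5, Nat.mod_eq_of_lt hr]
        · rw [h5, Nat.add_mod_right, Nat.mod_eq_of_lt hr]
    tauto
  · rw [Finset.disjoint_left]
    intro n h1 h2
    rw [mem_filter] at h1 h2
    have : 0 < 2 ^ j := by positivity
    omega

/-- the limit law is consistent -/
theorem mu_split (j r : ℕ) (hr : r < 2 ^ j) : mu j r = mu (j + 1) r + mu (j + 1) (r + 2 ^ j) := by
  have h4 : 2 ^ (j + 1) = 2 ^ j + 2 ^ j := by rw [pow_succ, mul_two]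
  have h1 := ratio hr
  have h2 := ratio (j := j + 1) (r := r) (by omega)
  have h3 := ratio (j := j + 1) (r := r + 2 ^ j) (by omega)
  apply tendsto_nhds_unique h1
  refine (h2.add h3).congr fun K => ?_
  rw [At_split j r K hr]
  push_cast
  ring

theorem mu_zero : mu 0 0 = 1 := by
  have h1 := ratio (j := 0) (r := 0) (by norm_num)
  apply tendsto_nhds_unique h1
  apply tendsto_const_nhds.congr'
  have h2 := Pool.Agent.H622.St.survivors_large 1 1 (η := 1) one_pos
  filter_upwards [h2] with K hK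
  have h3 : At 0 0 K = survivors K := by
    unfold At survivors
    congr 1
    apply filter_congr
    intro n _
    simp [Nat.mod_one]
  rw [h3, div_self]
  have : (0 : ℝ) ≤ (K : ℝ) ^ 14 := by positivity
  have : (0 : ℝ) < survivors K := by linarith
  exact this.ne'

theorem An_le_choose (k : ℕ) : ∀ o, An k o ≤ k.choose o := by
  induction k with
  | zero =>
    intro o
    rcases Nat.eq_zero_or_pos o with h | h
    · subst h
      unfold An
      refine (card_filter_le _ _).trans ?_
      simp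
    · rw [Pool.Agent.H622.St.An_zero h]; exact Nat.zero_le _
  | succ k ih =>
    intro o
    rw [Pool.Agent.H622.St.An_succ]
    split_ifs with h1 h2
    · subst h2
      have := ih 0
      simp at this ⊢
      exact this
    · obtain ⟨p, rfl⟩ : ∃ p, o = p + 1 := ⟨o - 1, by omega⟩
      rw [Nat.choose_succ_succ', Nat.add_sub_cancel]
      have := ih p
      have := ih (p + 1)
      omega
    · exact Nat.zero_le _

/-- an exponential moment of the binomial law -/
theorem exp_moment {y : ℝ} (hy0 : 0 ≤ y) (hy1 : y ≤ 1) (j : ℕ) :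
    ∑ a ∈ range (j + 1), (j.choose a : ℝ) * (th ^ a * (1 - th) ^ (j - a)) * Real.exp (y * ((a : ℝ) - j * th)) ≤
      Real.exp (j * (y ^ 2 / 4)) := by
  have h1 := th_pos
  have h2 : 0 < 1 - th := by linarith [th_lt_one]
  have hb : ∀ x : ℝ, |x| ≤ 1 → Real.exp x ≤ 1 + x + x ^ 2 := by
    intro x hx
    have h := Real.abs_exp_sub_one_sub_id_le hx
    have := (abs_le.1 h).2
    linarith
  have e1 := hb (y * (1 - th)) (by
    rw [abs_of_nonneg (by positivity)]; nlinarith)
  have e2 := hb (-(y * th)) (by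
    rw [abs_neg, abs_of_nonneg (by positivity)]; nlinarith [th_lt_one])
  have e3 : th * Real.exp (y * (1 - th)) + (1 - th) * Real.exp (-(y * th)) ≤ Real.exp (y ^ 2 / 4) := by
    have e4 : th * Real.exp (y * (1 - th)) + (1 - th) * Real.exp (-(y * th)) ≤
        th * (1 + y * (1 - th) + (y * (1 - th)) ^ 2) + (1 - th) * (1 + -(y * th) + (-(y * th)) ^ 2) := by
      have a1 := mul_le_mul_of_nonneg_left e1 h1.le
      have a2 := mul_le_mul_of_nonneg_left e2 h2.le
      linarith
    refine e4.trans ?_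
    have e5 := Real.add_one_le_exp (y ^ 2 / 4)
    have e6 : th * (1 + y * (1 - th) + (y * (1 - th)) ^ 2) + (1 - th) * (1 + -(y * th) + (-(y * th)) ^ 2) =
        1 + y ^ 2 * (th * (1 - th)) := by ring
    rw [e6]
    have e7 : th * (1 - th) ≤ 1 / 4 := by nlinarith [sq_nonneg (th - 1 / 2)]
    have e8 := mul_le_mul_of_nonneg_left e7 (sq_nonneg y)
    linarith
  have e4 : ∑ a ∈ range (j + 1), (j.choose a : ℝ) * (th ^ a * (1 - th) ^ (j - a)) *
      Real.exp (y * ((a : ℝ) - j * th)) = (th * Real.exp (y * (1 - th)) + (1 - th) * Real.exp (-(y * th))) ^ j := by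
    rw [add_pow]
    apply sum_congr rfl
    intro a ha
    rw [mem_range] at ha
    rw [mul_pow, mul_pow, ← Real.exp_nat_mul, ← Real.exp_nat_mul]
    have e5 : Real.exp (y * ((a : ℝ) - j * th)) =
        Real.exp (a * (y * (1 - th))) * Real.exp (((j - a : ℕ) : ℝ) * -(y * th)) := by
      rw [← Real.exp_add, Nat.cast_sub (by omega)]
      congr 1
      ring
    rw [e5]
    ring
  rw [e4, Real.exp_nat_mul]
  apply pow_le_pow_left₀ _ e3
  have := Real.exp_pos (y * (1 - th))
  have := Real.exp_pos (-(y * th))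
  positivity

/-- concentration of the height under the limit law -/
theorem concentration {ε : ℝ} (hε : 0 < ε) : ∃ C c : ℝ, 0 < C ∧ 0 < c ∧ ∀ j : ℕ,
    ∑ r ∈ (range (2 ^ j)).filter (fun r => Surv j r ∧ ε * j < (od j r : ℝ) - j * th), mu j r ≤
      C * Real.exp (-(c * j)) := by
  set l : ℝ := min (ε / 2) (1 / 2) with hl
  have hl0 : 0 < l := lt_min (by linarith) (by norm_num)
  have hl1 : l ≤ 1 / 2 := min_le_right _ _
  have hlε : l ≤ ε / 2 := min_le_left _ _
  obtain ⟨C, hC, hV⟩ := Gs.Vf_le Sl_th.flip (s := Real.exp (-l)) (Real.exp_pos _)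
    (by rw [Real.exp_lt_one_iff]; linarith)
  refine ⟨C, l * ε / 2, hC, by positivity, ?_⟩
  intro j
  have h1 := th_pos
  have h2 : 0 < 1 - th := by linarith [th_lt_one]
  -- the terms
  have hterm : ∀ r ∈ (range (2 ^ j)).filter (fun r => Surv j r ∧ ε * j < (od j r : ℝ) - j * th),
      mu j r ≤ C * Real.exp (-(l * ε * j)) * (th ^ od j r * (1 - th) ^ (j - od j r) *
        Real.exp (2 * l * ((od j r : ℝ) - j * th))) := by
    intro r hr
    rw [mem_filter] at hr
    unfold mu
    rw [if_pos hr.2.1]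
    have h3 := hV ((od j r : ℝ) - j * th)
    rw [← Real.exp_mul] at h3
    have h4 : Real.exp (-l * -((od j r : ℝ) - j * th)) ≤ Real.exp (-(l * ε * j)) *
        Real.exp (2 * l * ((od j r : ℝ) - j * th)) := by
      rw [← Real.exp_add]
      apply Real.exp_le_exp.2
      have := mul_lt_mul_of_pos_left hr.2.2 hl0
      nlinarith
    have h5 : Gs.Vf (1 - th) ((od j r : ℝ) - j * th) ≤ C * (Real.exp (-(l * ε * j)) *
        Real.exp (2 * l * ((od j r : ℝ) - j * th))) := h3.trans (mul_le_mul_of_nonneg_left h4 hC.le)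
    calc _ ≤ th ^ od j r * (1 - th) ^ (j - od j r) * (C * (Real.exp (-(l * ε * j)) *
        Real.exp (2 * l * ((od j r : ℝ) - j * th)))) := mul_le_mul_of_nonneg_left h5 (by positivity)
      _ = _ := by ring
  refine (sum_le_sum hterm).trans ?_
  -- all surviving residues
  have h6 : ∑ r ∈ (range (2 ^ j)).filter (fun r => Surv j r ∧ ε * j < (od j r : ℝ) - j * th),
      C * Real.exp (-(l * ε * j)) * (th ^ od j r * (1 - th) ^ (j - od j r) *
        Real.exp (2 * l * ((od j r : ℝ) - j * th))) ≤ ∑ r ∈ (range (2 ^ j)).filter (fun r => Surv j r),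
      C * Real.exp (-(l * ε * j)) * (th ^ od j r * (1 - th) ^ (j - od j r) *
        Real.exp (2 * l * ((od j r : ℝ) - j * th))) := by
    apply sum_le_sum_of_subset_of_nonneg
    · intro r hr
      rw [mem_filter] at hr ⊢
      exact ⟨hr.1, hr.2.1⟩
    · intro r _ _
      positivity
  refine h6.trans ?_
  rw [← mul_sum]
  have h7 : ∑ r ∈ (range (2 ^ j)).filter (fun r => Surv j r), (th ^ od j r * (1 - th) ^ (j - od j r) *
        Real.exp (2 * l * ((od j r : ℝ) - j * th))) = ∑ a ∈ range (j + 1),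
      (An j a : ℝ) * (th ^ a * (1 - th) ^ (j - a) * Real.exp (2 * l * ((a : ℝ) - j * th))) := by
    rw [← sum_fiberwise_of_maps_to (s := (range (2 ^ j)).filter (fun r => Surv j r)) (t := range (j + 1))
        (g := fun n => od j n)
        (fun n _ => by have := od_le j n; rw [mem_range]; omega)]
    apply sum_congr rfl
    intro a _
    rw [filter_filter]
    rw [sum_congr rfl (g := fun _ => th ^ a * (1 - th) ^ (j - a) * Real.exp (2 * l * ((a : ℝ) - j * th)))]
    · rw [sum_const, nsmul_eq_mul]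
      congr 2
    · intro n hn
      rw [mem_filter] at hn
      rw [hn.2.2]
  rw [h7]
  have h8 : ∑ a ∈ range (j + 1),
      (An j a : ℝ) * (th ^ a * (1 - th) ^ (j - a) * Real.exp (2 * l * ((a : ℝ) - j * th))) ≤
      Real.exp (j * ((2 * l) ^ 2 / 4)) := by
    refine le_trans (sum_le_sum fun a _ => ?_) (exp_moment (y := 2 * l) (by linarith) (by linarith) j)
    have : (An j a : ℝ) ≤ (j.choose a : ℝ) := by exact_mod_cast An_le_choose j a
    calc (An j a : ℝ) * (th ^ a * (1 - th) ^ (j - a) * Real.exp (2 * l * ((a : ℝ) - j * th)))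
        ≤ (j.choose a : ℝ) * (th ^ a * (1 - th) ^ (j - a) * Real.exp (2 * l * ((a : ℝ) - j * th))) :=
          mul_le_mul_of_nonneg_right this (by positivity)
      _ = _ := by ring
  refine (mul_le_mul_of_nonneg_left h8 (by positivity)).trans ?_
  rw [mul_assoc, ← Real.exp_add]
  apply mul_le_mul_of_nonneg_left _ hC.le
  apply Real.exp_le_exp.2
  have hj : (0 : ℝ) ≤ j := Nat.cast_nonneg j
  have h9 : l ^ 2 ≤ l * ε / 2 := by nlinarith
  have h10 : (j : ℝ) * ((2 * l) ^ 2 / 4) = j * l ^ 2 := by ring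
  rw [h10]
  nlinarith

/-- the local dimension -/
theorem log_mu {j r : ℕ} (hS : Surv j r) : Real.log (mu j r) + j * He =
    ((od j r : ℝ) - j * th) * (-Real.log Pool.Agent.H622.St.q) +
      Real.log (Gs.Vf (1 - th) ((od j r : ℝ) - j * th)) := by
  have hu := height_nonneg hS
  have hV := Gs.Vf_ge_one Sl_th.flip hu
  unfold mu
  rw [if_pos hS]
  have h1 := th_pos
  have h2 : 0 < 1 - th := by linarith [th_lt_one]
  have h3 : 0 < th ^ od j r * (1 - th) ^ (j - od j r) := by positivity
  rw [Real.log_mul h3.ne' (by linarith)]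
  have h4 := exp_He j (od j r) (od_le j r)
  have h5 : Real.log (Real.exp (-(j * He))) = Real.log (th ^ od j r * (1 - th) ^ (j - od j r)) +
      ((od j r : ℝ) - j * th) * Real.log Pool.Agent.H622.St.q := by
    rw [h4, Real.log_mul h3.ne' (Real.rpow_pos_of_pos q_pos _).ne', Real.log_rpow q_pos]
  rw [Real.log_exp] at h5
  linarith

theorem dimension {ε : ℝ} (hε : 0 < ε) : ∃ C c : ℝ, 0 < C ∧ 0 < c ∧ ∀ j : ℕ,
    ∑ r ∈ (range (2 ^ j)).filter (fun r => ε * j < |Real.log (mu j r) + j * He| ∧ 0 < mu j r), mu j r ≤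
      C * Real.exp (-(c * j)) := by
  obtain ⟨C1, hC1, hV⟩ := Gs.Vf_le Sl_th.flip (s := Real.exp (-1)) (Real.exp_pos _)
    (by rw [Real.exp_lt_one_iff]; norm_num)
  set κ : ℝ := -Real.log Pool.Agent.H622.St.q + 1 with hκ
  have hκ0 : 0 < κ := by
    have := Real.log_neg q_pos q_lt_one
    linarith
  set L : ℝ := |Real.log C1| with hL
  obtain ⟨C, c, hC, hc, h⟩ := concentration (ε := ε / (2 * κ)) (by positivity)
  -- small `j`
  obtain ⟨N, hN⟩ := exists_nat_gt (2 * L / ε)
  refine ⟨C + Real.exp (c * N), c, by positivity, hc, ?_⟩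
  intro j
  rcases Nat.lt_or_ge j N with hj | hj
  · -- the total mass is one
    have htot : ∀ i : ℕ, ∑ r ∈ range (2 ^ i), mu i r = 1 := by
      intro i
      induction i with
      | zero => simp [mu_zero]
      | succ i ih =>
        rw [← ih, pow_succ, mul_two, sum_range_add, ← sum_add_distrib]
        apply sum_congr rfl
        intro r hr
        rw [mem_range] at hr
        rw [mu_split i r hr, add_comm r]
    have h1 : ∑ r ∈ (range (2 ^ j)).filter (fun r => ε * j < |Real.log (mu j r) + j * He| ∧ 0 < mu j r), mu j r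
        ≤ 1 := by
      rw [← htot j]
      exact sum_le_sum_of_subset_of_nonneg (filter_subset _ _) fun r _ _ => mu_nonneg j r
    have h2 : 1 ≤ Real.exp (c * N) * Real.exp (-(c * j)) := by
      rw [← Real.exp_add]
      apply Real.one_le_exp
      have : (j : ℝ) ≤ N := by exact_mod_cast hj.le
      nlinarith
    have h3 : 0 ≤ C * Real.exp (-(c * j)) := by positivity
    calc _ ≤ 1 := h1
      _ ≤ _ := by rw [add_mul]; linarith
  · have h1 : ∑ r ∈ (range (2 ^ j)).filter (fun r => ε * j < |Real.log (mu j r) + j * He| ∧ 0 < mu j r), mu j r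
        ≤ ∑ r ∈ (range (2 ^ j)).filter (fun r => Surv j r ∧ ε / (2 * κ) * j < (od j r : ℝ) - j * th),
          mu j r := by
      apply sum_le_sum_of_subset_of_nonneg
      · intro r hr
        rw [mem_filter] at hr ⊢
        have hS : Surv j r := by
          by_contra hS
          have h2 := hr.2.2
          unfold mu at h2
          rw [if_neg hS] at h2
          exact lt_irrefl _ h2
        refine ⟨hr.1, hS, ?_⟩
        have hu := height_nonneg hS
        set u : ℝ := (od j r : ℝ) - j * th with hud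
        have hV1 := Gs.Vf_ge_one Sl_th.flip hu
        have hV2 := hV u
        rw [← Real.exp_mul] at hV2
        have hlog1 : 0 ≤ Real.log (Gs.Vf (1 - th) u) := Real.log_nonneg hV1
        have hlog2 : Real.log (Gs.Vf (1 - th) u) ≤ L + u := by
          have h3 := Real.log_le_log (by linarith) hV2
          rw [Real.log_mul hC1.ne' (Real.exp_pos _).ne', Real.log_exp] at h3
          have := le_abs_self (Real.log C1)
          linarith
        have hq2 : 0 < -Real.log Pool.Agent.H622.St.q := by linarith [Real.log_neg q_pos q_lt_one]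
        have h4 := hr.2.1
        rw [log_mu hS, abs_of_nonneg (by positivity)] at h4
        have h5 : ε * j < κ * u + L := by
          rw [hκ]
          linarith
        have h6 : 2 * L < ε * j := by
          have h7 := (div_lt_iff₀ hε).1 hN
          have h8 : (N : ℝ) ≤ j := by exact_mod_cast hj
          nlinarith
        rw [div_mul_eq_mul_div, div_lt_iff₀ (by positivity)]
        linarith
      · intro r _ _
        exact mu_nonneg j r
    refine h1.trans ((h j).trans ?_)
    apply mul_le_mul_of_nonneg_right _ (Real.exp_pos _).le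
    have := Real.exp_pos (c * N)
    linarith

/-- the number of the integers in a class -/
theorem class_count : ∃ C : ℝ, 0 < C ∧ ∀ (j r K : ℕ) (x : ℝ), j ≤ K → 1 ≤ K → 0 ≤ x →
    |(((Icc 1 ⌊x⌋₊).filter fun n => n % 2 ^ j = r ∧ Stays K n).card : ℝ) - x / 2 ^ K * At j r K| ≤
      2 * survivors K + (C * K ^ 14 + 1) := by
  obtain ⟨C, hC, hex⟩ := Pool.Agent.H622.St.exceptions
  refine ⟨C, hC, fun j r K x hjK hK hx => ?_⟩
  set N := ⌊x⌋₊ with hN
  have hN1 : (N : ℝ) ≤ x := Nat.floor_le hx
  have hN2 : x < N + 1 := Nat.lt_floor_add_one x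
  have hper := card_periodic (M := 2 ^ K) (by positivity) (fun n => n % 2 ^ j = r ∧ Surv K n)
    (fun a c => by
      rw [Surv_shift K a c]
      have : (a + 2 ^ K * c) % 2 ^ j = a % 2 ^ j := by
        obtain ⟨d, rfl⟩ := Nat.exists_eq_add_of_le hjK
        rw [pow_add, mul_assoc, Nat.add_mul_mod_self_left]
      rw [this]) (N + 1)
  have h2 : (range (N + 1)).filter (fun n => n % 2 ^ j = r ∧ Surv K n) =
      (Icc 1 N).filter fun n => n % 2 ^ j = r ∧ Surv K n := by
    ext n
    simp only [mem_filter, mem_range, mem_Icc]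
    constructor
    · rintro ⟨a, b⟩
      refine ⟨⟨?_, by omega⟩, b⟩
      rcases Nat.eq_zero_or_pos n with h | h
      · rw [h] at b; exact absurd b.2 (Pool.Agent.H622.St.not_surv_zero hK)
      · exact h
    · rintro ⟨⟨a, b⟩, c⟩
      exact ⟨by omega, c⟩
  rw [h2] at hper
  have hAt : ((range (2 ^ K)).filter fun n => n % 2 ^ j = r ∧ Surv K n).card = At j r K := by
    unfold At
    congr
  rw [hAt] at hper
  have hAS : (At j r K : ℝ) ≤ survivors K := by
    have : At j r K ≤ survivors K := by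
      unfold At survivors
      apply card_le_card
      intro n hn
      rw [mem_filter] at hn ⊢
      exact ⟨hn.1, hn.2.2⟩
    exact_mod_cast this
  have hA0 : (0 : ℝ) ≤ At j r K := Nat.cast_nonneg _
  have h2k : (1 : ℝ) ≤ 2 ^ K := one_le_pow₀ (by norm_num)
  have h3 : (((Icc 1 N).filter fun n => n % 2 ^ j = r ∧ Surv K n).card : ℝ) ≤
      (((Icc 1 N).filter fun n => n % 2 ^ j = r ∧ Stays K n).card : ℝ) := by
    apply Nat.cast_le.2
    apply card_le_card
    intro n hn
    rw [mem_filter] at hn ⊢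
    exact ⟨hn.1, hn.2.1, Pool.Agent.H622.St.stays_of_surv hn.2.2⟩
  have h4 : (((Icc 1 N).filter fun n => n % 2 ^ j = r ∧ Stays K n).card : ℝ) ≤
      (((Icc 1 N).filter fun n => n % 2 ^ j = r ∧ Surv K n).card : ℝ) + (C * K ^ 14 + 1) := by
    have hsub : (Icc 1 N).filter (fun n => n % 2 ^ j = r ∧ Stays K n) ⊆
        ((Icc 1 N).filter fun n => n % 2 ^ j = r ∧ Surv K n) ∪ range (⌊C * K ^ 14⌋₊ + 1) := by
      intro n hn
      rw [mem_filter, mem_Icc] at hn
      rw [mem_union, mem_filter, mem_Icc, mem_range]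
      by_cases hS : Surv K n
      · exact Or.inl ⟨hn.1, hn.2.1, hS⟩
      · right
        have := hex K n hn.1.1 hn.2.2 hS
        have := Nat.le_floor this
        omega
    have h5 := (card_le_card hsub).trans (card_union_le _ _)
    rw [card_range] at h5
    have h6 : (((Icc 1 N).filter fun n => n % 2 ^ j = r ∧ Stays K n).card : ℝ) ≤
        (((Icc 1 N).filter fun n => n % 2 ^ j = r ∧ Surv K n).card : ℝ) + (⌊C * K ^ 14⌋₊ + 1) := by
      exact_mod_cast h5
    have h7 : (⌊C * (K : ℝ) ^ 14⌋₊ : ℝ) ≤ C * K ^ 14 := Nat.floor_le (by positivity)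
    linarith
  obtain ⟨p1, p2⟩ := hper
  push_cast at p1 p2
  have hCK : 0 ≤ C * (K : ℝ) ^ 14 := by positivity
  rw [abs_le]
  constructor
  · have e : x / 2 ^ K * At j r K ≤ ((N : ℝ) + 1) / 2 ^ K * At j r K := by
      apply mul_le_mul_of_nonneg_right _ hA0
      exact div_le_div_of_nonneg_right hN2.le (by positivity)
    linarith
  · have e : ((N : ℝ) + 1) / 2 ^ K * At j r K ≤ (x / 2 ^ K + 1) * At j r K := by
      apply mul_le_mul_of_nonneg_right _ hA0
      rw [add_div]
      have a1 : (N : ℝ) / 2 ^ K ≤ x / 2 ^ K := div_le_div_of_nonneg_right hN1 (by positivity)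
      have a2 : (1 : ℝ) / 2 ^ K ≤ 1 := by rw [div_le_one (by positivity)]; exact h2k
      linarith
    linarith

/-- THE INTEGERS -/
theorem integers_class {j r : ℕ} (hr : r < 2 ^ j) {ε : ℝ} (hε : 0 < ε) : ∃ K0 : ℕ, ∀ (K : ℕ) (x : ℝ),
    K0 ≤ K → K0 * 2 ^ K ≤ x → 0 < ((Icc 1 ⌊x⌋₊).filter fun n => Stays K n).card ∧
    |(((Icc 1 ⌊x⌋₊).filter fun n => n % 2 ^ j = r ∧ Stays K n).card : ℝ) /
      (((Icc 1 ⌊x⌋₊).filter fun n => Stays K n).card : ℝ) - mu j r| ≤ ε := by
  obtain ⟨C1, hC1, h1⟩ := class_count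
  obtain ⟨C2, hC2, h2⟩ := Pool.Agent.H622.St.count_stays
  have e1 := Pool.Agent.H622.St.survivors_large (C1 + C2) 2 (η := 1) one_pos
  have e2 := (Metric.tendsto_nhds.1 (ratio hr)) (ε / 2) (by linarith)
  obtain ⟨K1, hK1⟩ := eventually_atTop.1 (e1.and e2)
  obtain ⟨K2, hK2⟩ := exists_nat_gt (40 / ε + 16)
  refine ⟨max (max K1 K2) (max 1 j), ?_⟩
  intro K x hK hx
  have hkK1 : K1 ≤ K := (le_max_left _ _).trans ((le_max_left _ _).trans hK)
  have hK1' : 1 ≤ K := (le_max_left _ _).trans ((le_max_right _ _).trans hK)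
  have hjK : j ≤ K := (le_max_right _ _).trans ((le_max_right _ _).trans hK)
  have h2k : (0 : ℝ) < 2 ^ K := by positivity
  have hKK2 : (K2 : ℝ) ≤ ((max (max K1 K2) (max 1 j) : ℕ) : ℝ) := by
    exact_mod_cast (le_max_right K1 K2).trans (le_max_left _ _)
  obtain ⟨a1, a2⟩ := hK1 K hkK1
  rw [Real.dist_eq] at a2
  have hX : 40 / ε + 16 ≤ x / 2 ^ K := by
    rw [le_div_iff₀ h2k]
    exact (mul_le_mul_of_nonneg_right (hK2.le.trans hKK2) h2k.le).trans hx
  set X : ℝ := x / 2 ^ K with hXd
  have hX0 : 0 < X := lt_of_lt_of_le (by positivity) hX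
  have hx0 : 0 ≤ x := by
    have : x = X * 2 ^ K := by rw [hXd]; field_simp
    rw [this]; exact mul_nonneg hX0.le h2k.le
  have b1 := h1 j r K x hjK hK1' hx0
  have b2 := h2 K x hK1' hx0
  set M : ℝ := (((Icc 1 ⌊x⌋₊).filter fun n => Stays K n).card : ℝ) with hM
  set Mr : ℝ := (((Icc 1 ⌊x⌋₊).filter fun n => n % 2 ^ j = r ∧ Stays K n).card : ℝ) with hMr
  set S : ℝ := (survivors K : ℝ) with hS
  set A : ℝ := (At j r K : ℝ) with hA
  have hA0 : 0 ≤ A := Nat.cast_nonneg _
  have hKp : (0 : ℝ) ≤ (K : ℝ) ^ 14 := by positivity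
  have hS0 : 0 < S := by nlinarith
  have hAS : A ≤ S := by
    have : At j r K ≤ survivors K := by
      unfold At survivors
      apply card_le_card
      intro n hn
      rw [mem_filter] at hn ⊢
      exact ⟨hn.1, hn.2.2⟩
    rw [hA, hS]; exact_mod_cast this
  have hE1 : |Mr - X * A| ≤ 3 * S := by
    refine b1.trans ?_
    have : 0 ≤ C2 * (K : ℝ) ^ 14 := by positivity
    linarith
  have hE2 : |M - X * S| ≤ 3 * S := by
    refine b2.trans ?_
    have : 0 ≤ C1 * (K : ℝ) ^ 14 := by positivity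
    linarith
  have hXS : 16 * S ≤ X * S := by
    apply mul_le_mul_of_nonneg_right _ hS0.le
    have : 0 ≤ 40 / ε := by positivity
    linarith
  have hM2 : X * S / 2 ≤ M := by
    have := (abs_le.1 hE2).1
    linarith
  have hMpos : 0 < M := lt_of_lt_of_le (by positivity) hM2
  refine ⟨by rw [hM] at hMpos; exact_mod_cast hMpos, ?_⟩
  have c1 : |Mr / M - A / S| ≤ ε / 2 := by
    have e : Mr / M - A / S = ((Mr - X * A) - (M - X * S) * (A / S)) / M := by
      field_simp
      ring
    rw [e, abs_div, abs_of_pos hMpos, div_le_iff₀ hMpos]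
    have h3 : |A / S| ≤ 1 := by
      rw [abs_of_nonneg (by positivity), div_le_one hS0]; exact hAS
    have h4 : |(M - X * S) * (A / S)| ≤ 3 * S := by
      rw [abs_mul]
      calc |M - X * S| * |A / S| ≤ |M - X * S| * 1 := mul_le_mul_of_nonneg_left h3 (abs_nonneg _)
        _ ≤ _ := by rw [mul_one]; exact hE2
    have h5 : 40 / ε * S ≤ X * S := by
      apply mul_le_mul_of_nonneg_right _ hS0.le
      linarith
    have h6 : 20 / ε * S ≤ M := by
      have : 40 / ε * S = 2 * (20 / ε * S) := by ring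
      linarith
    have h7 := mul_le_mul_of_nonneg_left h6 hε.le
    have h8 : ε * (20 / ε * S) = 20 * S := by field_simp
    have h9 := abs_sub (Mr - X * A) ((M - X * S) * (A / S))
    linarith
  have c2 := abs_sub_le (Mr / M) (A / S) (mu j r)
  linarith

end Pool.Agent.H622.Gz
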