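import Mathlib
import Pool.Graph.R_seed8.H547R3.Len

set_option autoImplicit false

/-! The linear forms of the cycles of the 3x+1 map on the integers. -/

namespace Pool.Agent.H622

open Finset Pool.Agent.H319R2 Pool.Agent.H547R3

/-- the linear form of a cycle -/
noncomputable def form (Z : Finset ℤ) : ℝ := |(Z.card : ℝ) * Real.log 2 - odds Z * Real.log 3|

theorem form_nonneg (Z : Finset ℤ) : 0 ≤ form Z := abs_nonneg _

/-- the number of cycles with a form at least `ε` -/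
theorem count_forms (η : ℝ) (hη : beta < η) (hη1 : η < 1) : ∃ C : ℝ, 0 < C ∧ ∀ ε : ℝ, 0 < ε →
    ∀ F : Finset (Finset ℤ), (∀ Z ∈ F, IsCycle Z ∧ (0 : ℤ) ∉ Z ∧ ε ≤ form Z) →
      (F.card : ℝ) ≤ C * ε ^ (-η) := by
  classical
  obtain ⟨C1, hC1, hsum⟩ := sum_forms η hη hη1
  obtain ⟨C2, hC2, hsp⟩ := sparse η hη
  have hb0 : 0 < beta := by
    unfold beta
    have hl2 : 0 < Real.log 2 := Real.log_pos (by norm_num)
    have hl3 : 0 < Real.log 3 := Real.log_pos (by norm_num)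
    apply div_pos (Real.binEntropy_pos (by positivity) _) hl2
    rw [div_lt_one hl3]
    exact Real.log_lt_log (by norm_num) (by norm_num)
  have hη0 : 0 < η := hb0.trans hη
  refine ⟨C1 + C2 + C1 ^ (1 : ℝ) * (C1 + 1) ^ (1 : ℝ) + 1, by positivity, ?_⟩
  intro ε hε F hF
  rcases le_or_gt ε 1 with h1 | h1
  · -- the main case
    set N : ℝ := 1 / ε with hN
    have hN1 : 1 ≤ N := by rw [hN, le_div_iff₀ hε]; linarith
    have hN0 : 0 < N := by linarith
    have hNη : N ^ η = ε ^ (-η) := by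
      rw [hN, one_div, Real.inv_rpow hε.le, ← Real.rpow_neg hε.le]
    have hNη1 : N ^ (η - 1) / ε = ε ^ (-η) := by
      rw [hN, one_div, Real.inv_rpow hε.le, ← Real.rpow_neg hε.le, div_eq_mul_inv,
        ← Real.rpow_neg_one ε, ← Real.rpow_add hε]
      congr 1; ring
    set A := F.filter (fun Z : Finset ℤ => ∀ x ∈ Z, N ≤ |((x : ℤ) : ℝ)|) with hA
    set B := F.filter (fun Z : Finset ℤ => ¬ ∀ x ∈ Z, N ≤ |((x : ℤ) : ℝ)|) with hB
    have hAB : A.card + B.card = F.card := card_filter_add_card_filter_not _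
    have hAc : (A.card : ℝ) ≤ C1 * ε ^ (-η) := by
      have h2 := hsum N hN1 A (by
        intro Z hZ
        rw [hA, mem_filter] at hZ
        exact ⟨(hF Z hZ.1).1, hZ.2⟩)
      have h3 : (A.card : ℝ) * ε ≤ C1 * N ^ (η - 1) := by
        refine le_trans ?_ h2
        rw [← nsmul_eq_mul, ← sum_const]
        apply sum_le_sum
        intro Z hZ
        rw [hA, mem_filter] at hZ
        exact (hF Z hZ.1).2.2
      rw [← hNη1, ← mul_div_assoc, le_div_iff₀ hε]
      exact h3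
    have hBc : (B.card : ℝ) ≤ C2 * ε ^ (-η) := by
      have hch : ∀ Z : Finset ℤ, ∃ x : ℤ, Z ∈ B → x ∈ Z ∧ |(x : ℝ)| < N := by
        intro Z
        by_cases hZ : Z ∈ B
        · have hZ' := hZ
          rw [hB, mem_filter] at hZ'
          have := hZ'.2
          push Not at this
          obtain ⟨x, hx, hxN⟩ := this
          exact ⟨x, fun _ => ⟨hx, hxN⟩⟩
        · exact ⟨0, fun h => absurd h hZ⟩
      choose g hg using hch
      have hinj : Set.InjOn g B := by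
        intro Z hZ Z' hZ' h
        have a1 := hF Z (by rw [mem_coe, hB, mem_filter] at hZ; exact hZ.1)
        have a2 := hF Z' (by rw [mem_coe, hB, mem_filter] at hZ'; exact hZ'.1)
        exact a1.1.eq_of_mem a2.1 (hg Z hZ).1 (h ▸ (hg Z' hZ').1)
      rw [← card_image_of_injOn hinj, ← hNη]
      apply hsp _ tame_periodic N hN1
      intro x hx
      rw [mem_image] at hx
      obtain ⟨Z, hZ, rfl⟩ := hx
      have a1 := hF Z (by rw [hB, mem_filter] at hZ; exact hZ.1)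
      exact ⟨a1.1.periodic (hg Z hZ).1, (hg Z hZ).2.le⟩
    have h4 : (F.card : ℝ) = A.card + B.card := by exact_mod_cast hAB.symm
    have h5 : 0 ≤ ε ^ (-η) := Real.rpow_nonneg hε.le _
    rw [h4]
    have h6 : 0 ≤ (C1 ^ (1 : ℝ) * (C1 + 1) ^ (1 : ℝ) + 1) * ε ^ (-η) := by positivity
    nlinarith
  · -- few cycles with a large form
    have h2 := hsum 1 le_rfl F (by
      intro Z hZ
      refine ⟨(hF Z hZ).1, fun x hx => ?_⟩
      have hx0 : x ≠ 0 := fun h => (hF Z hZ).2.1 (h ▸ hx)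
      have : (1 : ℤ) ≤ |x| := Int.one_le_abs hx0
      exact_mod_cast this)
    rw [Real.one_rpow, mul_one] at h2
    have h3 : (F.card : ℝ) * ε ≤ C1 := by
      refine le_trans ?_ h2
      rw [← nsmul_eq_mul, ← sum_const]
      exact sum_le_sum fun Z hZ => (hF Z hZ).2.2
    have h4 : (F.card : ℝ) ≤ C1 * ε ^ (-1 : ℝ) := by
      rw [Real.rpow_neg_one, ← div_eq_mul_inv, le_div_iff₀ hε]
      exact h3
    have h5 : ε ^ (-1 : ℝ) ≤ ε ^ (-η) := Real.rpow_le_rpow_of_exponent_le h1.le (by linarith)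
    have h6 : 0 ≤ ε ^ (-η) := Real.rpow_nonneg hε.le _
    have h7 : C1 * ε ^ (-1 : ℝ) ≤ C1 * ε ^ (-η) := mul_le_mul_of_nonneg_left h5 hC1.le
    have h8 : 0 ≤ (C2 + C1 ^ (1 : ℝ) * (C1 + 1) ^ (1 : ℝ) + 1) * ε ^ (-η) := by positivity
    nlinarith

/-- the forms are bounded -/
theorem form_bdd : ∃ C : ℝ, 0 < C ∧ ∀ Z : Finset ℤ, IsCycle Z → (0 : ℤ) ∉ Z → form Z ≤ C := by
  obtain ⟨C1, hC1, hsum⟩ := sum_forms 0.96 (by have := beta_lt; linarith) (by norm_num)
  refine ⟨C1, hC1, fun Z hZ h0 => ?_⟩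
  have h2 := hsum 1 le_rfl {Z} (by
    intro Z' hZ'
    rw [mem_singleton] at hZ'
    subst hZ'
    refine ⟨hZ, fun x hx => ?_⟩
    have hx0 : x ≠ 0 := fun h => h0 (h ▸ hx)
    have : (1 : ℤ) ≤ |x| := Int.one_le_abs hx0
    exact_mod_cast this)
  rw [sum_singleton, Real.one_rpow, mul_one] at h2
  exact h2

/-- **The sum over all cycles of the powers of the forms.** -/
theorem sum_rpow (s : ℝ) (hs : beta < s) : ∃ C : ℝ, 0 < C ∧
    ∀ F : Finset (Finset ℤ), (∀ Z ∈ F, IsCycle Z ∧ (0 : ℤ) ∉ Z) → ∑ Z ∈ F, form Z ^ s ≤ C := by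
  classical
  have hb1 : beta < 1 := by have := beta_lt; linarith
  have hb0 : 0 < beta := by
    unfold beta
    have hl2 : 0 < Real.log 2 := Real.log_pos (by norm_num)
    have hl3 : 0 < Real.log 3 := Real.log_pos (by norm_num)
    apply div_pos (Real.binEntropy_pos (by positivity) _) hl2
    rw [div_lt_one hl3]
    exact Real.log_lt_log (by norm_num) (by norm_num)
  -- an exponent between
  obtain ⟨η, hη, hηs⟩ : ∃ η : ℝ, beta < η ∧ η < min s 1 := exists_between (lt_min hs hb1)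
  have hη1 : η < 1 := hηs.trans_le (min_le_right _ _)
  have hηs' : η < s := hηs.trans_le (min_le_left _ _)
  have hs0 : 0 < s := hb0.trans hs
  obtain ⟨C1, hC1, hcount⟩ := count_forms η hη hη1
  obtain ⟨C0, hC0, hbd⟩ := form_bdd
  set ρ : ℝ := 2 ^ (η - s) with hρ
  have hρ0 : 0 < ρ := by positivity
  have hρ1 : ρ < 1 := Real.rpow_lt_one_of_one_lt_of_neg (by norm_num) (by linarith)
  have h1ρ : 0 < 1 - ρ := by linarith
  refine ⟨C0 ^ s * C1 * (C0 / 2) ^ (-η) / (1 - ρ) + 1, by positivity, ?_⟩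
  intro F hF
  -- forms that vanish do not contribute
  set G := F.filter (fun Z => 0 < form Z) with hG
  have hFG : ∑ Z ∈ F, form Z ^ s = ∑ Z ∈ G, form Z ^ s := by
    rw [hG, sum_filter]
    apply sum_congr rfl
    intro Z _
    split_ifs with h
    · rfl
    · have : form Z = 0 := le_antisymm (not_lt.1 h) (form_nonneg Z)
      rw [this, Real.zero_rpow hs0.ne']
  -- dyadic level
  set lev : Finset ℤ → ℕ := fun Z => Nat.log 2 ⌊C0 / form Z⌋₊ with hlev
  have hlev1 : ∀ Z ∈ G, form Z ≤ C0 * (1 / 2) ^ (lev Z) ∧ C0 / 2 * (1 / 2) ^ (lev Z) ≤ form Z := by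
    intro Z hZ
    rw [hG, mem_filter] at hZ
    have hpos := hZ.2
    have hle : form Z ≤ C0 := hbd Z (hF Z hZ.1).1 (hF Z hZ.1).2
    have hge1 : 1 ≤ C0 / form Z := by rw [le_div_iff₀ hpos]; linarith
    have hfl : ⌊C0 / form Z⌋₊ ≠ 0 := by
      have : 1 ≤ ⌊C0 / form Z⌋₊ := Nat.le_floor (by exact_mod_cast hge1)
      omega
    have h1 : 2 ^ lev Z ≤ ⌊C0 / form Z⌋₊ := Nat.pow_log_le_self 2 hfl
    have h2 : ⌊C0 / form Z⌋₊ < 2 ^ (lev Z + 1) := Nat.lt_pow_succ_log_self (by norm_num) _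
    have h1' : (2 : ℝ) ^ lev Z ≤ C0 / form Z := by
      have : ((2 ^ lev Z : ℕ) : ℝ) ≤ ⌊C0 / form Z⌋₊ := by exact_mod_cast h1
      push_cast at this
      exact this.trans (Nat.floor_le (by positivity))
    have h2' : C0 / form Z < 2 ^ (lev Z + 1) := by
      have := Nat.lt_of_floor_lt h2
      push_cast at this
      exact this
    have hp : (0 : ℝ) < 2 ^ lev Z := by positivity
    constructor
    · rw [one_div, inv_pow, ← div_eq_mul_inv, le_div_iff₀ hp]
      rw [le_div_iff₀ hpos] at h1'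
      linarith
    · rw [one_div, inv_pow, ← div_eq_mul_inv, div_div, div_le_iff₀ (by positivity)]
      rw [div_lt_iff₀ hpos, pow_succ] at h2'
      linarith
  -- number on each level
  have hcnt : ∀ j : ℕ, ((G.filter (fun Z => lev Z = j)).card : ℝ) ≤ C1 * (C0 / 2 * (1 / 2) ^ j) ^ (-η) := by
    intro j
    apply hcount _ (by positivity)
    intro Z hZ
    rw [mem_filter] at hZ
    have h := (hlev1 Z hZ.1).2
    rw [hZ.2] at h
    have hZ1 := hZ.1
    rw [hG, mem_filter] at hZ1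
    exact ⟨(hF Z hZ1.1).1, (hF Z hZ1.1).2, h⟩
  set J := G.sup lev + 1 with hJ
  have hmaps : ∀ Z ∈ G, lev Z ∈ range J := by
    intro Z hZ
    rw [mem_range, hJ]
    have := le_sup (f := lev) hZ
    omega
  rw [hFG, ← sum_fiberwise_of_maps_to hmaps]
  have hlevel : ∀ j ∈ range J, ∑ Z ∈ G.filter (fun Z => lev Z = j), form Z ^ s ≤
      C0 ^ s * C1 * (C0 / 2) ^ (-η) * ρ ^ j := by
    intro j _
    have h1 : ∀ Z ∈ G.filter (fun Z => lev Z = j), form Z ^ s ≤ (C0 * (1 / 2) ^ j) ^ s := by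
      intro Z hZ
      rw [mem_filter] at hZ
      have h := (hlev1 Z hZ.1).1
      rw [hZ.2] at h
      exact Real.rpow_le_rpow (form_nonneg Z) h hs0.le
    refine (sum_le_sum h1).trans ?_
    rw [sum_const, nsmul_eq_mul]
    refine (mul_le_mul_of_nonneg_right (hcnt j) (by positivity)).trans (le_of_eq ?_)
    have hh : (0 : ℝ) < (1 / 2) ^ j := by positivity
    rw [Real.mul_rpow (by positivity) hh.le, Real.mul_rpow hC0.le hh.le]
    have e : ((1 / 2 : ℝ) ^ j) ^ (-η) * ((1 / 2 : ℝ) ^ j) ^ s = ρ ^ j := by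
      rw [← Real.rpow_add hh, hρ, ← Real.rpow_natCast, ← Real.rpow_natCast, ← Real.rpow_mul (by norm_num),
        ← Real.rpow_mul (by norm_num), one_div, Real.inv_rpow (by norm_num), ← Real.rpow_neg (by norm_num)]
      congr 1; ring
    calc C1 * ((C0 / 2) ^ (-η) * ((1 / 2 : ℝ) ^ j) ^ (-η)) * (C0 ^ s * ((1 / 2 : ℝ) ^ j) ^ s)
        = C0 ^ s * C1 * (C0 / 2) ^ (-η) * (((1 / 2 : ℝ) ^ j) ^ (-η) * ((1 / 2 : ℝ) ^ j) ^ s) := by ring
      _ = _ := by rw [e]
  refine (sum_le_sum hlevel).trans ?_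
  rw [← mul_sum]
  have hgeo : ∑ j ∈ range J, ρ ^ j ≤ 1 / (1 - ρ) := by
    rw [one_div, ← tsum_geometric_of_lt_one hρ0.le hρ1]
    exact (summable_geometric_of_lt_one hρ0.le hρ1).sum_le_tsum _ (fun _ _ => by positivity)
  calc C0 ^ s * C1 * (C0 / 2) ^ (-η) * ∑ j ∈ range J, ρ ^ j
      ≤ C0 ^ s * C1 * (C0 / 2) ^ (-η) * (1 / (1 - ρ)) := mul_le_mul_of_nonneg_left hgeo (by positivity)
    _ = C0 ^ s * C1 * (C0 / 2) ^ (-η) / (1 - ρ) := by ring
    _ ≤ _ := by linarith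

end Pool.Agent.H622
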