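import Mathlib
import Pool.Agent.H622.SF

set_option autoImplicit false

/-! Lengths of cycles of the 3x+1 map in intervals, with better exponents. -/

namespace Pool.Agent.H622

open Finset Pool.Agent.H319R2 Pool.Agent.H547R3

/-- visits of the rotation in an interval of times, for one good approximation -/
theorem rot_interval {q : ℕ} {h : ℤ} (hq0 : 0 < q) (hcop : IsCoprime h (q : ℤ))
    (h1q : |(q : ℝ) * (Real.log 2 / Real.log 3) - h| ≤ 1 / q) (a H : ℕ) {r : ℝ} (hr : 0 ≤ r)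
    (F : Finset ℕ)
    (hF : ∀ p ∈ F, a ≤ p ∧ p < a + H ∧ ∃ o : ℤ, |(p : ℝ) * Real.log 2 - o * Real.log 3| ≤ r) :
    (F.card : ℝ) ≤ ((H : ℝ) / q + 1) * (2 * r * q + 3) := by
  classical
  have hl2 : 0 < Real.log 2 := Real.log_pos (by norm_num)
  have hl3 : 0 < Real.log 3 := Real.log_pos (by norm_num)
  have hl31 := log3_gt_one
  set G : Finset ℕ := F.image (fun p => p - a) with hG
  have hinj : Set.InjOn (fun p => p - a) (F : Set ℕ) := by
    intro x hx y hy hxy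
    have h1 := (hF x hx).1
    have h2 := (hF y hy).1
    simp only at hxy
    omega
  have hcardG : G.card = F.card := card_image_of_injOn hinj
  have hcnt := rot_count (Real.log 2 / Real.log 3) q h hq0 hcop h1q
    (-(a : ℝ) * (Real.log 2 / Real.log 3)) r hr H G (by
    intro i hi
    rw [hG, mem_image] at hi
    obtain ⟨p, hp, rfl⟩ := hi
    obtain ⟨hap, hpa, o, ho⟩ := hF p hp
    refine ⟨by omega, o, ?_⟩
    have e1 : ((p - a : ℕ) : ℝ) = (p : ℝ) - a := by rw [Nat.cast_sub hap]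
    have e : ((p - a : ℕ) : ℝ) * (Real.log 2 / Real.log 3) - -(a : ℝ) * (Real.log 2 / Real.log 3) - o =
        (p * Real.log 2 - o * Real.log 3) / Real.log 3 := by
      rw [e1]; field_simp; ring
    rw [e, abs_div, abs_of_pos hl3, div_le_iff₀ hl3]
    nlinarith)
  rw [hcardG] at hcnt
  exact hcnt

/-- Dirichlet approximations to `log 2 / log 3` -/
theorem dirichlet (P : ℕ) (hP : 1 ≤ P) : ∃ (q : ℕ) (h : ℤ), 0 < q ∧ q ≤ P ∧ IsCoprime h (q : ℤ) ∧
    |(q : ℝ) * (Real.log 2 / Real.log 3) - h| ≤ 1 / ((P : ℝ) + 1) := by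
  obtain ⟨x, hx1, hx2⟩ := Real.exists_rat_abs_sub_le_and_den_le (Real.log 2 / Real.log 3) (n := P) hP
  have hqr : (0 : ℝ) < x.den := by exact_mod_cast x.den_pos
  refine ⟨x.den, x.num, x.den_pos, hx2, ?_, ?_⟩
  · rw [Int.isCoprime_iff_gcd_eq_one, Int.gcd_eq_natAbs]
    simpa using x.reduced
  · have hxq : (x : ℝ) = (x.num : ℝ) / x.den := Rat.cast_def x
    rw [hxq] at hx1
    have e : (x.den : ℝ) * (Real.log 2 / Real.log 3) - x.num =
        x.den * (Real.log 2 / Real.log 3 - x.num / x.den) := by field_simp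
    rw [e, abs_mul, abs_of_pos hqr]
    calc (x.den : ℝ) * |Real.log 2 / Real.log 3 - x.num / x.den|
        ≤ x.den * (1 / (((P : ℝ) + 1) * x.den)) := mul_le_mul_of_nonneg_left hx1 hqr.le
      _ = 1 / ((P : ℝ) + 1) := by field_simp

/-- the irrationality measure -/
theorem dirichlet_lower : ∃ K : ℝ, 1 ≤ K ∧ ∀ (q : ℕ) (h : ℤ), 0 < q →
    |(q : ℝ) * (Real.log 2 / Real.log 3) - h| ≤ 1 →
    0 < |(q : ℝ) * (Real.log 2 / Real.log 3) - h| ∧
    1 / |(q : ℝ) * (Real.log 2 / Real.log 3) - h| ≤ K * (q : ℝ) ^ 13 := by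
  obtain ⟨c, hc, hm⟩ := Pool.Agent.H319R2.measure
  have hl2 : 0 < Real.log 2 := Real.log_pos (by norm_num)
  have hl3 : 0 < Real.log 3 := Real.log_pos (by norm_num)
  set α : ℝ := Real.log 2 / Real.log 3 with hα
  have hα0 : 0 < α := by positivity
  have hα1 : α < 1 := by
    rw [hα, div_lt_one hl3]; exact Real.log_lt_log (by norm_num) (by norm_num)
  have hl34 : Real.log 3 < 2 := by
    have h : Real.log 3 < Real.log (2 ^ 2) := Real.log_lt_log (by norm_num) (by norm_num)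
    rw [Real.log_pow] at h
    have := Real.log_two_lt_d9
    push_cast at h
    linarith
  refine ⟨2 * 4 ^ 13 / c + 1, by
    have : 0 < 2 * 4 ^ 13 / c := by positivity
    linarith, ?_⟩
  intro q h hq0 hle
  have hqr : (0 : ℝ) < q := by exact_mod_cast hq0
  have hq1 : (1 : ℝ) ≤ q := by exact_mod_cast hq0
  have hmq := hm (q : ℤ) (-h) (Or.inl (by exact_mod_cast hq0.ne'))
  have e2 : ((q : ℤ) : ℝ) * Real.log 2 + ((-h : ℤ) : ℝ) * Real.log 3 = Real.log 3 * (q * α - h) := by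
    rw [hα]; push_cast; field_simp; ring
  rw [e2, abs_mul, abs_of_pos hl3] at hmq
  have hh4 : ((|(q : ℤ)| + |-h| : ℤ) : ℝ) ≤ 4 * q := by
    have h5 : |(h : ℝ)| ≤ 3 * q := by
      have h6 : |(h : ℝ)| ≤ |(q : ℝ) * α| + |(q : ℝ) * α - h| := by
        have e7 : (h : ℝ) = (q : ℝ) * α - ((q : ℝ) * α - h) := by ring
        calc |(h : ℝ)| = |(q : ℝ) * α - ((q : ℝ) * α - h)| := by rw [← e7]
          _ ≤ _ := abs_sub _ _
      have h7 : |(q : ℝ) * α| ≤ q := by
        rw [abs_of_pos (by positivity)]; nlinarith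
      linarith
    push_cast
    rw [abs_neg, abs_of_nonneg hqr.le]
    linarith
  have hh0 : (0 : ℝ) ≤ ((|(q : ℤ)| + |-h| : ℤ) : ℝ) := by
    have : (0 : ℤ) ≤ |(q : ℤ)| + |-h| := by positivity
    exact_mod_cast this
  set δ := |(q : ℝ) * α - h| with hδ
  have hδ0 : 0 ≤ δ := abs_nonneg _
  have h9 : c ≤ (4 * (q : ℝ)) ^ 13 * (2 * δ) := by
    refine hmq.trans ?_
    apply mul_le_mul (pow_le_pow_left₀ hh0 hh4 13) _ (by positivity) (by positivity)
    exact mul_le_mul_of_nonneg_right hl34.le hδ0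
  have hδp : 0 < δ := by
    rcases hδ0.lt_or_eq with h | h
    · exact h
    · rw [← h] at h9
      norm_num at h9
      linarith
  refine ⟨hδp, ?_⟩
  rw [div_le_iff₀ hδp]
  have h10 : c ≤ 2 * 4 ^ 13 * (q : ℝ) ^ 13 * δ := by
    refine h9.trans (le_of_eq ?_)
    ring
  have h11 : 1 ≤ 2 * 4 ^ 13 / c * (q : ℝ) ^ 13 * δ := by
    rw [div_mul_eq_mul_div, div_mul_eq_mul_div, le_div_iff₀ hc, one_mul]
    exact h10
  have h12 : 0 ≤ (q : ℝ) ^ 13 * δ := by positivity
  nlinarith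

/-- **Bohr sets in intervals, two bounds.** -/
theorem bohr_two : ∃ K : ℝ, 1 ≤ K ∧ ∀ H : ℕ, 1 ≤ H → ∃ q : ℕ, 1 ≤ q ∧ q ≤ H ∧
    ∀ (a : ℕ) (r : ℝ), 0 ≤ r → ∀ F : Finset ℕ,
    (∀ p ∈ F, a ≤ p ∧ p < a + H ∧ ∃ o : ℤ, |(p : ℝ) * Real.log 2 - o * Real.log 3| ≤ r) →
    (F.card : ℝ) ≤ K * (r * H + H / q) ∧ (F.card : ℝ) ≤ K * (r * (q : ℝ) ^ 13 + 1) := by
  obtain ⟨K, hK1, hK⟩ := dirichlet_lower
  refine ⟨20 * K, by linarith, fun H hH => ?_⟩
  have hHr : (1 : ℝ) ≤ H := by exact_mod_cast hH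
  obtain ⟨q, h, hq0, hqH, hcop, happ⟩ := dirichlet H hH
  have hqr : (0 : ℝ) < q := by exact_mod_cast hq0
  have hq1 : (1 : ℝ) ≤ q := by exact_mod_cast hq0
  have hqHr : (q : ℝ) ≤ H := by exact_mod_cast hqH
  have h1q : |(q : ℝ) * (Real.log 2 / Real.log 3) - h| ≤ 1 / q :=
    happ.trans (one_div_le_one_div_of_le hqr (by linarith))
  have hle1 : |(q : ℝ) * (Real.log 2 / Real.log 3) - h| ≤ 1 :=
    happ.trans (by rw [div_le_one (by positivity)]; linarith)
  obtain ⟨hδ0, hδK⟩ := hK q h hq0 hle1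
  set δ := |(q : ℝ) * (Real.log 2 / Real.log 3) - h| with hδ
  have hq13 : (q : ℝ) ≤ (q : ℝ) ^ 13 := by
    calc (q : ℝ) = (q : ℝ) ^ 1 := (pow_one _).symm
      _ ≤ (q : ℝ) ^ 13 := pow_le_pow_right₀ hq1 (by norm_num)
  refine ⟨q, hq0, hqH, fun a r hr F hF => ?_⟩
  have hb1 := rot_interval hq0 hcop h1q a H hr F hF
  have hHq : 1 ≤ (H : ℝ) / q := by rw [le_div_iff₀ hqr]; linarith
  constructor
  · -- the first bound
    refine hb1.trans ?_
    have e : ((H : ℝ) / q + 1) * (2 * r * q + 3) = 2 * r * H + 2 * r * q + 3 * (H / q) + 3 := by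
      field_simp; ring
    rw [e]
    have h1 : r * q ≤ r * H := mul_le_mul_of_nonneg_left hqHr hr
    have h2 : 0 ≤ r * H + H / q := by positivity
    nlinarith
  · rcases le_or_gt ((H : ℝ) / 2) q with hc | hc
    · refine hb1.trans ?_
      have h3 : (H : ℝ) / q ≤ 2 := by rw [div_le_iff₀ hqr]; linarith
      have h4 : ((H : ℝ) / q + 1) * (2 * r * q + 3) ≤ 3 * (2 * r * q + 3) :=
        mul_le_mul_of_nonneg_right (by linarith) (by positivity)
      have h5 : r * q ≤ r * (q : ℝ) ^ 13 := mul_le_mul_of_nonneg_left hq13 hr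
      have h6 : 0 ≤ r * (q : ℝ) ^ 13 := by positivity
      nlinarith
    · -- the next approximation
      set P : ℕ := ⌈1 / δ⌉₊ with hP
      have hδH : (H : ℝ) + 1 ≤ 1 / δ := by
        rw [le_div_iff₀ hδ0]
        rw [le_div_iff₀ (by positivity)] at happ
        linarith
      have hPδ : 1 / δ ≤ P := Nat.le_ceil _
      have hPδ2 : (P : ℝ) < 1 / δ + 1 := Nat.ceil_lt_add_one (by positivity)
      have hP1 : 1 ≤ P := by
        have : (1 : ℝ) ≤ P := by linarith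
        exact_mod_cast this
      obtain ⟨q', h', hq0', hqP', hcop', happ'⟩ := dirichlet P hP1
      have hqr' : (0 : ℝ) < q' := by exact_mod_cast hq0'
      have hq1' : (1 : ℝ) ≤ q' := by exact_mod_cast hq0'
      have hqPr' : (q' : ℝ) ≤ P := by exact_mod_cast hqP'
      have h1q' : |(q' : ℝ) * (Real.log 2 / Real.log 3) - h'| ≤ 1 / q' :=
        happ'.trans (one_div_le_one_div_of_le hqr' (by linarith))
      -- the two approximations are different
      have hdet : ((q' : ℤ) * h - q * h' : ℤ) ≠ 0 := by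
        intro h0
        have e0 : (q' : ℤ) * h = q * h' := by linarith
        have hd1 : (q : ℤ) ∣ (q' : ℤ) := by
          have : (q : ℤ) ∣ (q' : ℤ) * h := ⟨h', e0⟩
          exact hcop.symm.dvd_of_dvd_mul_right this
        have hd2 : (q' : ℤ) ∣ (q : ℤ) := by
          have : (q' : ℤ) ∣ (q : ℤ) * h' := ⟨h, e0.symm⟩
          exact hcop'.symm.dvd_of_dvd_mul_right this
        have hqq : q = q' := Nat.dvd_antisymm (by exact_mod_cast hd1) (by exact_mod_cast hd2)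
        subst hqq
        have hhh : h = h' := by
          have hq00 : (q : ℤ) ≠ 0 := by exact_mod_cast hq0.ne'
          exact mul_left_cancel₀ hq00 e0
        subst hhh
        have h7 : δ ≤ 1 / ((P : ℝ) + 1) := happ'
        rw [le_div_iff₀ (by positivity)] at h7
        have h8 : 1 ≤ P * δ := by
          rw [div_le_iff₀ hδ0] at hPδ
          exact hPδ
        linarith
      have hdet1 : (1 : ℝ) ≤ |(q' : ℝ) * h - q * h'| := by
        have := Int.one_le_abs hdet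
        have h9 : ((1 : ℤ) : ℝ) ≤ ((|(q' : ℤ) * h - q * h'| : ℤ) : ℝ) := by exact_mod_cast this
        push_cast at h9
        exact h9
      have hdet2 : |(q' : ℝ) * h - q * h'| ≤ q' * δ + q * (1 / ((P : ℝ) + 1)) := by
        have e : (q' : ℝ) * h - q * h' = q * (q' * (Real.log 2 / Real.log 3) - h') -
            q' * (q * (Real.log 2 / Real.log 3) - h) := by ring
        rw [e]
        refine (abs_sub _ _).trans ?_
        rw [abs_mul, abs_mul, abs_of_pos hqr, abs_of_pos hqr', ← hδ]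
        have := mul_le_mul_of_nonneg_left happ' hqr.le
        linarith
      have hqP : (q : ℝ) * (1 / ((P : ℝ) + 1)) ≤ 1 / 2 := by
        rw [mul_one_div, div_le_div_iff₀ (by positivity) (by norm_num)]
        linarith
      have hq'δ : 1 / 2 ≤ q' * δ := by linarith
      have hq'H : (H : ℝ) ≤ 2 * q' := by
        have h10 : 1 / δ ≤ 2 * q' := by
          rw [div_le_iff₀ hδ0]; linarith
        linarith
      have hq'K : (q' : ℝ) ≤ 2 * K * (q : ℝ) ^ 13 := by
        have h11 : 1 ≤ (q : ℝ) ^ 13 := one_le_pow₀ hq1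
        have h12 : 1 ≤ K * (q : ℝ) ^ 13 := by nlinarith
        linarith
      have hb2 := rot_interval hq0' hcop' h1q' a H hr F hF
      refine hb2.trans ?_
      have h3 : (H : ℝ) / q' ≤ 2 := by rw [div_le_iff₀ hqr']; linarith
      have h4 : ((H : ℝ) / q' + 1) * (2 * r * q' + 3) ≤ 3 * (2 * r * q' + 3) :=
        mul_le_mul_of_nonneg_right (by linarith) (by positivity)
      have h5 : r * q' ≤ r * (2 * K * (q : ℝ) ^ 13) := mul_le_mul_of_nonneg_left hq'K hr
      have h6 : 0 ≤ r * (q : ℝ) ^ 13 := by positivity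
      have h7 : 0 ≤ K * (r * (q : ℝ) ^ 13) := by positivity
      calc ((H : ℝ) / q' + 1) * (2 * r * q' + 3) ≤ 3 * (2 * r * q' + 3) := h4
        _ = 6 * (r * q') + 9 := by ring
        _ ≤ 6 * (r * (2 * K * (q : ℝ) ^ 13)) + 9 := by linarith
        _ = 12 * (K * (r * (q : ℝ) ^ 13)) + 9 := by ring
        _ ≤ 20 * K * (r * (q : ℝ) ^ 13 + 1) := by nlinarith

/-- lengths of cycles: a Bohr set and few others -/
theorem lengths_split (η : ℝ) (hη : beta < η) (hη1 : η < 1) : ∃ C : ℝ, 0 < C ∧ ∀ r : ℝ, 0 < r →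
    ∀ F : Finset ℕ, (∀ p ∈ F, ∃ Z : Finset ℤ, IsCycle Z ∧ Z.card = p) → ∀ B : ℝ,
    (∀ L ⊆ F, (∀ p ∈ L, ∃ o : ℤ, |(p : ℝ) * Real.log 2 - o * Real.log 3| ≤ r) → (L.card : ℝ) ≤ B) →
    (F.card : ℝ) ≤ B + C * r ^ (-η) + 1 := by
  classical
  obtain ⟨C, hC, hcount⟩ := count_forms η hη hη1
  refine ⟨C, hC, ?_⟩
  intro r hr F hF B hB
  set F0 : Finset ℕ := F.filter (fun p : ℕ => p ≠ 1) with hF0
  set L1 : Finset ℕ := F0.filter (fun p : ℕ => ∃ o : ℤ, |(p : ℝ) * Real.log 2 - o * Real.log 3| ≤ r) with hL1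
  set L2 : Finset ℕ := F0.filter (fun p : ℕ => ¬ ∃ o : ℤ, |(p : ℝ) * Real.log 2 - o * Real.log 3| ≤ r) with hL2
  have hsplit : L1.card + L2.card = F0.card := by
    rw [hL1, hL2]; exact card_filter_add_card_filter_not (s := F0) _
  have hF01 : F.card ≤ F0.card + 1 := by
    have h1 : F ⊆ insert 1 F0 := by
      intro x hx
      rw [mem_insert, hF0, mem_filter]
      by_cases h : x = 1
      · exact Or.inl h
      · exact Or.inr ⟨hx, h⟩
    exact (card_le_card h1).trans (card_insert_le _ _)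
  have h1 : (L1.card : ℝ) ≤ B := by
    apply hB L1 ((filter_subset _ _).trans (filter_subset _ _))
    intro p hp
    rw [hL1, mem_filter] at hp
    exact hp.2
  have h2 : (L2.card : ℝ) ≤ C * r ^ (-η) := by
    have hch : ∀ p : ℕ, ∃ Z : Finset ℤ, p ∈ L2 → IsCycle Z ∧ Z.card = p := by
      intro p
      by_cases hp : p ∈ L2
      · have hp' := hp
        rw [hL2, mem_filter, hF0, mem_filter] at hp'
        obtain ⟨Z, hZ⟩ := hF p hp'.1.1
        exact ⟨Z, fun _ => hZ⟩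
      · exact ⟨∅, fun h => absurd h hp⟩
    choose f hf using hch
    have hinj : Set.InjOn f L2 := by
      intro p hp p' hp' h
      rw [← (hf p hp).2, ← (hf p' hp').2, h]
    have hno0 : ∀ p ∈ L2, (0 : ℤ) ∉ f p := by
      intro p hp h0
      obtain ⟨hc, hcard⟩ := hf p hp
      have hsub : f p ⊆ {0} := by
        intro y hy
        obtain ⟨j, hj⟩ := hc.back h0 hy
        rw [mem_singleton, ← hj]
        have : ∀ j : ℕ, T^[j] (0 : ℤ) = 0 := by
          intro j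
          induction j with
          | zero => rfl
          | succ j ih => rw [Function.iterate_succ_apply', ih]; rfl
        exact this j
      have h1 := card_le_card hsub
      rw [card_singleton, hcard] at h1
      have h2 := hc.card_pos
      rw [hcard] at h2
      rw [hL2, mem_filter, hF0, mem_filter] at hp
      have := hp.1.2
      omega
    rw [← card_image_of_injOn hinj]
    apply hcount r hr
    intro Z hZ
    rw [mem_image] at hZ
    obtain ⟨p, hp, rfl⟩ := hZ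
    refine ⟨(hf p hp).1, hno0 p hp, ?_⟩
    have h5 := hp
    rw [hL2, mem_filter] at h5
    have h6 := h5.2
    push Not at h6
    have := h6 (odds (f p) : ℤ)
    unfold form
    rw [(hf p hp).2]
    push_cast at this
    exact this.le
  have e : (F.card : ℝ) ≤ L1.card + L2.card + 1 := by
    have : F.card ≤ L1.card + L2.card + 1 := by omega
    exact_mod_cast this
  linarith

/-- **Lengths of cycles in intervals, all lengths of the interval.** -/
theorem lengths_all : ∃ C : ℝ, 0 < C ∧ ∀ (a H : ℕ), 1 ≤ H → ∀ F : Finset ℕ,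
    (∀ p ∈ F, a ≤ p ∧ p < a + H ∧ ∃ Z : Finset ℤ, IsCycle Z ∧ Z.card = p) →
    (F.card : ℝ) ≤ C * (H : ℝ) ^ (0.864 : ℝ) := by
  obtain ⟨C, hC, hsplit⟩ := lengths_split 0.951 beta_lt (by norm_num)
  obtain ⟨K, hK1, hK⟩ := bohr_two
  refine ⟨2 * K + C + 1, by positivity, ?_⟩
  intro a H hH F hF
  have hHr : (1 : ℝ) ≤ H := by exact_mod_cast hH
  have hH0 : (0 : ℝ) < H := by linarith
  obtain ⟨q, hq0, hqH, hb⟩ := hK H hH
  have hqr : (0 : ℝ) < q := by exact_mod_cast hq0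
  have hq1 : (1 : ℝ) ≤ q := by exact_mod_cast hq0
  have hE1 : (1 : ℝ) ≤ (H : ℝ) ^ (0.864 : ℝ) := Real.one_le_rpow hHr (by norm_num)
  rcases le_or_gt ((H : ℝ) ^ (0.136 : ℝ)) q with hc | hc
  · -- large denominator: radius `H ^ (-1/2)`
    set r : ℝ := (H : ℝ) ^ (-(0.5) : ℝ) with hr
    have hr0 : 0 < r := by positivity
    have h := hsplit r hr0 F (fun p hp => (hF p hp).2.2) (K * (r * H + H / q)) (by
      intro L hL hLr
      exact (hb a r hr0.le L (fun p hp => ⟨(hF p (hL hp)).1, (hF p (hL hp)).2.1, hLr p hp⟩)).1)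
    have h1 : r * H ≤ (H : ℝ) ^ (0.864 : ℝ) := by
      have : r * H = (H : ℝ) ^ (0.5 : ℝ) := by
        rw [hr]
        nth_rewrite 2 [← Real.rpow_one (H : ℝ)]
        rw [← Real.rpow_add hH0]; norm_num
      rw [this]
      exact Real.rpow_le_rpow_of_exponent_le hHr (by norm_num)
    have h2 : (H : ℝ) / q ≤ (H : ℝ) ^ (0.864 : ℝ) := by
      rw [div_le_iff₀ hqr]
      calc (H : ℝ) = (H : ℝ) ^ (0.864 : ℝ) * (H : ℝ) ^ (0.136 : ℝ) := by
            rw [← Real.rpow_add hH0]; norm_num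
        _ ≤ (H : ℝ) ^ (0.864 : ℝ) * q := mul_le_mul_of_nonneg_left hc (by positivity)
    have h3 : r ^ (-(0.951) : ℝ) ≤ (H : ℝ) ^ (0.864 : ℝ) := by
      rw [hr, ← Real.rpow_mul hH0.le]
      exact Real.rpow_le_rpow_of_exponent_le hHr (by norm_num)
    have h4 : C * r ^ (-(0.951) : ℝ) ≤ C * (H : ℝ) ^ (0.864 : ℝ) := mul_le_mul_of_nonneg_left h3 hC.le
    have h5 : K * (r * H + H / q) ≤ K * (2 * (H : ℝ) ^ (0.864 : ℝ)) :=
      mul_le_mul_of_nonneg_left (by linarith) (by linarith)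
    nlinarith
  · -- small denominator
    set r : ℝ := (q : ℝ) ^ (-(6.6632) : ℝ) with hr
    have hr0 : 0 < r := by positivity
    have h := hsplit r hr0 F (fun p hp => (hF p hp).2.2) (K * (r * (q : ℝ) ^ 13 + 1)) (by
      intro L hL hLr
      exact (hb a r hr0.le L (fun p hp => ⟨(hF p (hL hp)).1, (hF p (hL hp)).2.1, hLr p hp⟩)).2)
    have hqE : ∀ t : ℝ, 0 ≤ t → t * 0.136 ≤ 0.864 → (q : ℝ) ^ t ≤ (H : ℝ) ^ (0.864 : ℝ) := by
      intro t ht ht2
      calc (q : ℝ) ^ t ≤ ((H : ℝ) ^ (0.136 : ℝ)) ^ t := Real.rpow_le_rpow hqr.le hc.le ht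
        _ = (H : ℝ) ^ (0.136 * t) := by rw [← Real.rpow_mul hH0.le]
        _ ≤ (H : ℝ) ^ (0.864 : ℝ) := Real.rpow_le_rpow_of_exponent_le hHr (by linarith)
    have h1 : r * (q : ℝ) ^ 13 ≤ (H : ℝ) ^ (0.864 : ℝ) := by
      have : r * (q : ℝ) ^ 13 = (q : ℝ) ^ (6.3368 : ℝ) := by
        rw [hr, ← Real.rpow_natCast, ← Real.rpow_add hqr]; norm_num
      rw [this]
      exact hqE _ (by norm_num) (by norm_num)
    have h3 : r ^ (-(0.951) : ℝ) ≤ (H : ℝ) ^ (0.864 : ℝ) := by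
      rw [hr, ← Real.rpow_mul hqr.le]
      exact hqE _ (by norm_num) (by norm_num)
    have h4 : C * r ^ (-(0.951) : ℝ) ≤ C * (H : ℝ) ^ (0.864 : ℝ) := mul_le_mul_of_nonneg_left h3 hC.le
    have h5 : K * (r * (q : ℝ) ^ 13 + 1) ≤ K * (2 * (H : ℝ) ^ (0.864 : ℝ)) :=
      mul_le_mul_of_nonneg_left (by linarith) (by linarith)
    nlinarith

/-- **Lengths of cycles in intervals, infinitely many scales.** -/
theorem lengths_scales : ∃ C : ℝ, 0 < C ∧ ∀ N : ℕ, ∃ H : ℕ, N ≤ H ∧ ∀ a : ℕ, ∀ F : Finset ℕ,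
    (∀ p ∈ F, a ≤ p ∧ p < a + H ∧ ∃ Z : Finset ℤ, IsCycle Z ∧ Z.card = p) →
    (F.card : ℝ) ≤ C * (H : ℝ) ^ (0.4875 : ℝ) := by
  obtain ⟨C, hC, hsplit⟩ := lengths_split 0.951 beta_lt (by norm_num)
  refine ⟨C + 11, by positivity, fun N => ?_⟩
  obtain ⟨q, h, hq0, hqN, hcop, h1q⟩ := exists_approx (N : ℝ)
  refine ⟨q, by exact_mod_cast hqN, fun a F hF => ?_⟩
  have hqr : (0 : ℝ) < q := by exact_mod_cast hq0
  have hq1 : (1 : ℝ) ≤ q := by exact_mod_cast hq0
  have hE1 : (1 : ℝ) ≤ (q : ℝ) ^ (0.4875 : ℝ) := Real.one_le_rpow hq1 (by norm_num)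
  set r : ℝ := (q : ℝ) ^ (-(0.5126) : ℝ) with hr
  have hr0 : 0 < r := by positivity
  have h := hsplit r hr0 F (fun p hp => (hF p hp).2.2) (((q : ℝ) / q + 1) * (2 * r * q + 3)) (by
    intro L hL hLr
    exact rot_interval hq0 hcop h1q a q hr0.le L
      (fun p hp => ⟨(hF p (hL hp)).1, (hF p (hL hp)).2.1, hLr p hp⟩))
  have h1 : r * q ≤ (q : ℝ) ^ (0.4875 : ℝ) := by
    have : r * q = (q : ℝ) ^ (0.4874 : ℝ) := by
      rw [hr]
      nth_rewrite 2 [← Real.rpow_one (q : ℝ)]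
      rw [← Real.rpow_add hqr]; norm_num
    rw [this]
    exact Real.rpow_le_rpow_of_exponent_le hq1 (by norm_num)
  have h3 : r ^ (-(0.951) : ℝ) ≤ (q : ℝ) ^ (0.4875 : ℝ) := by
    rw [hr, ← Real.rpow_mul hqr.le]
    exact Real.rpow_le_rpow_of_exponent_le hq1 (by norm_num)
  have h4 : C * r ^ (-(0.951) : ℝ) ≤ C * (q : ℝ) ^ (0.4875 : ℝ) := mul_le_mul_of_nonneg_left h3 hC.le
  rw [div_self hqr.ne'] at h
  nlinarith

end Pool.Agent.H622
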