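import Mathlib
import Pool.Agent.H622.Gs7

set_option autoImplicit false

/-! Generalised Collatz maps of coprime type: residues, words, and the words above a line. -/

namespace Pool.Agent.H622.Tw

open Finset Filter Topology
open scoped Classical

/-- the map -/
def T (d : ℕ) (m r : ℤ → ℤ) (x : ℤ) : ℤ := (m (x % d) * x - r (x % d)) / d

/-- the residues modulo `d` of the terms -/
def J (d : ℕ) (m r : ℤ → ℤ) (i : ℕ) (x : ℤ) : ℤ := (T d m r)^[i] x % d

/-- the product of the multipliers -/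
def P (d : ℕ) (m r : ℤ → ℤ) (k : ℕ) (x : ℤ) : ℤ := ∏ i ∈ range k, m (J d m r i x)

variable {d : ℕ} {m r : ℤ → ℤ}

theorem T_add (hd : 0 < d) (j : ℕ) (x y : ℤ) :
    T d m r (x + d ^ (j + 1) * y) = T d m r x + d ^ j * (m (x % d) * y) := by
  have hd' : (d : ℤ) ≠ 0 := by exact_mod_cast hd.ne'
  have e : (x + (d : ℤ) ^ (j + 1) * y) % d = x % d := by
    rw [pow_succ, show x + (d : ℤ) ^ j * d * y = x + d * (d ^ j * y) by ring, Int.add_mul_emod_self_left]
  unfold T
  rw [e, show m (x % d) * (x + (d : ℤ) ^ (j + 1) * y) - r (x % d) =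
    m (x % d) * x - r (x % d) + d * (d ^ j * (m (x % d) * y)) by ring, Int.add_mul_ediv_left _ _ hd']

theorem P_succ (k : ℕ) (x : ℤ) : P d m r (k + 1) x = P d m r k x * m (J d m r k x) := by
  unfold P
  rw [prod_range_succ]

theorem P_zero (x : ℤ) : P d m r 0 x = 1 := by simp [P]

theorem iter_add (hd : 0 < d) (k : ℕ) (x y : ℤ) : ∀ j ≤ k,
    (T d m r)^[j] (x + d ^ k * y) = (T d m r)^[j] x + d ^ (k - j) * (P d m r j x * y) ∧
    P d m r j (x + d ^ k * y) = P d m r j x := by
  intro j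
  induction j with
  | zero => intro _; simp [P_zero]
  | succ j ih =>
    intro hj
    obtain ⟨h1, h2⟩ := ih (by omega)
    obtain ⟨i, hi⟩ : ∃ i, k - j = i + 1 := ⟨k - j - 1, by omega⟩
    have hi2 : k - (j + 1) = i := by omega
    rw [hi] at h1
    have e : J d m r j (x + d ^ k * y) = J d m r j x := by
      unfold J
      rw [h1, pow_succ, show (T d m r)^[j] x + (d : ℤ) ^ i * d * (P d m r j x * y) =
        (T d m r)^[j] x + d * (d ^ i * (P d m r j x * y)) by ring, Int.add_mul_emod_self_left]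
    rw [P_succ, P_succ, e, h2]
    refine ⟨?_, rfl⟩
    rw [Function.iterate_succ_apply', Function.iterate_succ_apply', h1, T_add hd, hi2]
    unfold J
    ring

theorem J_add (hd : 0 < d) (k : ℕ) (x y : ℤ) {j : ℕ} (hj : j < k) :
    J d m r j (x + d ^ k * y) = J d m r j x := by
  obtain ⟨h1, -⟩ := iter_add (m := m) (r := r) hd k x y j hj.le
  obtain ⟨i, hi⟩ : ∃ i, k - j = i + 1 := ⟨k - j - 1, by omega⟩
  unfold J
  rw [h1, hi, pow_succ, show (T d m r)^[j] x + (d : ℤ) ^ i * d * (P d m r j x * y) =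
    (T d m r)^[j] x + d * (d ^ i * (P d m r j x * y)) by ring, Int.add_mul_emod_self_left]

/-- a complete system of residues -/
theorem sum_res (hd : 0 < d) {p : ℤ} (hp : IsCoprime p (d : ℤ)) (A : ℤ) (F : ℤ → ℝ) :
    ∑ i ∈ range d, F ((A + p * i) % d) = ∑ j ∈ range d, F j := by
  have hd' : (0 : ℤ) < d := by exact_mod_cast hd
  set g : ℕ → ℕ := fun i => ((A + p * i) % d).toNat with hg
  have hg1 : ∀ i, ((g i : ℕ) : ℤ) = (A + p * i) % d := fun i =>
    Int.toNat_of_nonneg (Int.emod_nonneg _ hd'.ne')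
  have hinj : Set.InjOn g (range d : Set ℕ) := by
    intro i hi j hj hij
    rw [Finset.mem_coe, mem_range] at hi hj
    have h1 : (A + p * i) % d = (A + p * j) % (d : ℤ) := by rw [← hg1, ← hg1, hij]
    have h2 : (d : ℤ) ∣ (A + p * i) - (A + p * j) := Int.ModEq.dvd (Eq.symm h1)
    have h3 : (d : ℤ) ∣ p * ((i : ℤ) - j) := by
      have e : (A + p * i) - (A + p * j) = p * ((i : ℤ) - j) := by ring
      rwa [e] at h2
    have h4 := hp.symm.dvd_of_dvd_mul_left h3
    have h5 : (i : ℤ) % d = (j : ℤ) % d := (Int.emod_emod_of_dvd _ (dvd_refl _)).symm.trans (by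
      rw [Int.emod_emod_of_dvd _ (dvd_refl _)]
      exact Eq.symm (Int.ModEq.symm (Int.modEq_iff_dvd.2 (by
        have := (dvd_neg (α := ℤ)).2 h4
        simpa using this))))
    rw [Int.emod_eq_of_lt (by positivity) (by exact_mod_cast hi),
      Int.emod_eq_of_lt (by positivity) (by exact_mod_cast hj)] at h5
    exact_mod_cast h5
  have himg : (range d).image g = range d := by
    apply eq_of_subset_of_card_le
    · intro y hy
      rw [mem_image] at hy
      obtain ⟨i, -, rfl⟩ := hy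
      rw [mem_range]
      have := Int.emod_lt_of_pos (A + p * i) hd'
      rw [← hg1] at this
      exact_mod_cast this
    · rw [card_image_of_injOn hinj]
  conv_rhs => rw [← himg]
  rw [sum_image hinj]
  apply sum_congr rfl
  intro i _
  rw [hg1]

theorem sum_blocks (f : ℕ → ℝ) (M N : ℕ) : ∑ n ∈ range (M * N), f n = ∑ x ∈ range M, ∑ i ∈ range N, f (x + M * i) := by
  rw [sum_comm]
  induction N with
  | zero => simp
  | succ N ih =>
    rw [Nat.mul_succ, sum_range_add, ih, sum_range_succ]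
    congr 1
    apply sum_congr rfl
    intro x _
    rw [add_comm]

/-- coprime type -/
def Cop (d : ℕ) (m : ℤ → ℤ) : Prop := ∀ j : ℤ, 0 ≤ j → j < d → IsCoprime (m j) (d : ℤ)

theorem P_coprime (hd : 0 < d) (hc : Cop d m) (k : ℕ) (x : ℤ) : IsCoprime (P d m r k x) (d : ℤ) := by
  have hd' : (0 : ℤ) < d := by exact_mod_cast hd
  unfold P
  apply IsCoprime.prod_left
  intro i _
  exact hc _ (Int.emod_nonneg _ hd'.ne') (Int.emod_lt_of_pos _ hd')

theorem sum_prod (hd : 0 < d) (hc : Cop d m) (K : ℕ) (A : ℕ → ℝ) (hA : ∀ x i, A (x + d ^ K * i) = A x) (F : ℤ → ℝ) :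
    ∑ n ∈ range (d ^ (K + 1)), A n * F (J d m r K n) = (∑ n ∈ range (d ^ K), A n) * ∑ j ∈ range d, F j := by
  rw [pow_succ, sum_blocks, sum_mul]
  apply sum_congr rfl
  intro x _
  rw [← sum_res hd (P_coprime (r := r) hd hc K x) ((T d m r)^[K] x) F, mul_sum]
  apply sum_congr rfl
  intro i _
  rw [hA]
  congr 2
  unfold J
  have h := (iter_add (m := m) (r := r) hd K (x : ℤ) (i : ℤ) K le_rfl).1
  rw [Nat.sub_self, pow_zero, one_mul] at h
  push_cast
  rw [h]

/-- the number of the terms in the classes `U` -/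
noncomputable def up (d : ℕ) (m r : ℤ → ℤ) (U : ℤ → Prop) (k : ℕ) (x : ℤ) : ℕ :=
  ((range k).filter fun i => U (J d m r i x)).card

variable {U : ℤ → Prop}

theorem up_zero (x : ℤ) : up d m r U 0 x = 0 := by simp [up]

theorem up_succ (k : ℕ) (x : ℤ) :
    up d m r U (k + 1) x = up d m r U k x + if U (J d m r k x) then 1 else 0 := by
  unfold up
  rw [range_add_one, filter_insert]
  split_ifs with h1
  · rw [card_insert_of_notMem (by simp)]
  · rfl

theorem up_le (k : ℕ) (x : ℤ) : up d m r U k x ≤ k := by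
  unfold up
  exact (card_filter_le _ _).trans (by rw [card_range])

theorem up_mono (j k : ℕ) (x : ℤ) : up d m r U j x ≤ up d m r U (j + k) x := by
  induction k with
  | zero => exact le_rfl
  | succ k ih =>
    rw [← add_assoc, up_succ]
    omega

theorem up_add (hd : 0 < d) (k : ℕ) (x y : ℤ) {j : ℕ} (hj : j ≤ k) :
    up d m r U j (x + d ^ k * y) = up d m r U j x := by
  unfold up
  congr 1
  apply filter_congr
  intro i hi
  rw [mem_range] at hi
  rw [J_add hd k x y (by omega)]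

theorem up_mod (hd : 0 < d) {j : ℕ} (i : ℕ) (hi : i ≤ j) {n y : ℕ} (h : n % d ^ j = y) :
    up d m r U i (n : ℤ) = up d m r U i (y : ℤ) := by
  have e : (n : ℤ) = (y : ℤ) + (d : ℤ) ^ j * ((n / d ^ j : ℕ) : ℤ) := by
    have := Nat.mod_add_div n (d ^ j)
    rw [h] at this
    exact_mod_cast this.symm
  rw [e, up_add hd j _ _ hi]

/-- the weight of the first `k` residues -/
noncomputable def W (d : ℕ) (m r : ℤ → ℤ) (F : ℤ → ℝ) (k : ℕ) (x : ℤ) : ℝ := ∏ i ∈ range k, F (J d m r i x)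

theorem W_succ (F : ℤ → ℝ) (k : ℕ) (x : ℤ) : W d m r F (k + 1) x = W d m r F k x * F (J d m r k x) := by
  unfold W
  rw [prod_range_succ]

theorem W_zero (F : ℤ → ℝ) (x : ℤ) : W d m r F 0 x = 1 := by simp [W]

theorem W_add (hd : 0 < d) (F : ℤ → ℝ) (k : ℕ) (x y : ℤ) {j : ℕ} (hj : j ≤ k) :
    W d m r F j (x + d ^ k * y) = W d m r F j x := by
  unfold W
  apply prod_congr rfl
  intro i hi
  rw [mem_range] at hi
  rw [J_add hd k x y (by omega)]

theorem W_mod (hd : 0 < d) (F : ℤ → ℝ) {j : ℕ} {n y : ℕ} (h : n % d ^ j = y) :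
    W d m r F j (n : ℤ) = W d m r F j (y : ℤ) := by
  have e : (n : ℤ) = (y : ℤ) + (d : ℤ) ^ j * ((n / d ^ j : ℕ) : ℤ) := by
    have := Nat.mod_add_div n (d ^ j)
    rw [h] at this
    exact_mod_cast this.symm
  rw [e, W_add hd F j _ _ le_rfl]

theorem W_one (k : ℕ) (x : ℤ) : W d m r (fun _ => 1) k x = 1 := by simp [W]

/-- the sums of the weights of the two kinds of classes -/
noncomputable def Su (d : ℕ) (U : ℤ → Prop) (F : ℤ → ℝ) : ℝ := ∑ j ∈ range d, if U (j : ℤ) then F j else 0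
noncomputable def Sd (d : ℕ) (U : ℤ → Prop) (F : ℤ → ℝ) : ℝ := ∑ j ∈ range d, if U (j : ℤ) then 0 else F j

noncomputable def ind (p : Prop) : ℝ := if p then 1 else 0

theorem ind_pos {p : Prop} (h : p) : ind p = 1 := if_pos h
theorem ind_neg {p : Prop} (h : ¬ p) : ind p = 0 := if_neg h
theorem ind_congr {p q : Prop} (h : p ↔ q) : ind p = ind q := by rw [propext h]
theorem ind_nonneg (p : Prop) : 0 ≤ ind p := by unfold ind; split_ifs <;> norm_num
theorem ind_le_one (p : Prop) : ind p ≤ 1 := by unfold ind; split_ifs <;> norm_num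

/-- weighted sums over the residues with a property of the trajectory -/
noncomputable def cnt (d : ℕ) (m r : ℤ → ℤ) (U : ℤ → Prop) (F : ℤ → ℝ) (K : ℕ) (S : ℕ → Prop) (o : ℕ) : ℝ :=
  ∑ n ∈ range (d ^ K), ind (S n ∧ up d m r U K n = o) * W d m r F K n

theorem cnt_congr {F : ℤ → ℝ} {K : ℕ} {S S' : ℕ → Prop} (h : ∀ n, S n ↔ S' n) (o : ℕ) :
    cnt d m r U F K S o = cnt d m r U F K S' o := by
  unfold cnt
  apply sum_congr rfl
  intro n _
  rw [ind_congr (by rw [h n])]

/-- the recursion -/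
theorem cnt_succ (hd : 0 < d) (hc : Cop d m) (F : ℤ → ℝ) {K : ℕ} {S : ℕ → Prop} (hS : ∀ x i, S (x + d ^ K * i) ↔ S x)
    (Q : ℕ → Prop) (o : ℕ) :
    cnt d m r U F (K + 1) (fun n => S n ∧ Q (up d m r U (K + 1) n)) o =
      ind (Q o) * (Sd d U F * cnt d m r U F K S o + ind (o ≠ 0) * (Su d U F * cnt d m r U F K S (o - 1))) := by
  by_cases hQ : Q o
  swap
  · rw [ind_neg hQ, zero_mul]
    unfold cnt
    apply sum_eq_zero
    intro n _
    rw [ind_neg, zero_mul]
    rintro ⟨⟨-, h1⟩, h2⟩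
    rw [h2] at h1
    exact hQ h1
  rw [ind_pos hQ, one_mul]
  have hper : ∀ (o' x i : ℕ), ind (S (x + d ^ K * i) ∧ up d m r U K ((x + d ^ K * i : ℕ) : ℤ) = o') *
      W d m r F K ((x + d ^ K * i : ℕ) : ℤ) = ind (S x ∧ up d m r U K x = o') * W d m r F K x := by
    intro o' x i
    have e : ((x + d ^ K * i : ℕ) : ℤ) = (x : ℤ) + (d : ℤ) ^ K * (i : ℤ) := by push_cast; ring
    rw [e, up_add hd K _ _ le_rfl, W_add hd F K _ _ le_rfl, ind_congr (by rw [hS])]
  have h1 := sum_prod (r := r) hd hc K (fun n => ind (S n ∧ up d m r U K n = o) * W d m r F K n) (hper o)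
    (fun j => if U j then 0 else F j)
  have h2 := sum_prod (r := r) hd hc K (fun n => ind (S n ∧ up d m r U K n = o - 1) * W d m r F K n)
    (hper (o - 1)) (fun j => if U j then F j else 0)
  have key : ∀ n : ℕ, ind ((S n ∧ Q (up d m r U (K + 1) n)) ∧ up d m r U (K + 1) n = o) * W d m r F (K + 1) n =
      ind (S n ∧ up d m r U K n = o) * W d m r F K n * (if U (J d m r K n) then 0 else F (J d m r K n)) +
      ind (o ≠ 0) * (ind (S n ∧ up d m r U K n = o - 1) * W d m r F K n *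
        (if U (J d m r K n) then F (J d m r K n) else 0)) := by
    intro n
    have e1 : ((S n ∧ Q (up d m r U (K + 1) n)) ∧ up d m r U (K + 1) n = o) ↔ (S n ∧ up d m r U (K + 1) n = o) := by
      constructor
      · rintro ⟨⟨a, -⟩, c⟩; exact ⟨a, c⟩
      · rintro ⟨a, c⟩; exact ⟨⟨a, by rw [c]; exact hQ⟩, c⟩
    rw [ind_congr e1, up_succ, W_succ]
    by_cases hU : U (J d m r K n)
    · simp only [if_pos hU, mul_zero, zero_add]
      by_cases ho : o = 0
      · rw [ind_neg (show ¬ (o ≠ 0) from not_not.2 ho), ind_neg, zero_mul, zero_mul]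
        rintro ⟨-, h⟩; omega
      · rw [ind_pos ho, one_mul, mul_assoc]
        rw [ind_congr (show (S n ∧ up d m r U K n + 1 = o) ↔ (S n ∧ up d m r U K n = o - 1) by
          constructor
          · rintro ⟨h4, h5⟩; exact ⟨h4, by omega⟩
          · rintro ⟨h4, h5⟩; exact ⟨h4, by omega⟩)]
    · simp only [if_neg hU, mul_zero, add_zero, mul_assoc]
  unfold cnt Su Sd
  beta_reduce
  rw [sum_congr rfl fun n _ => key n, sum_add_distrib, ← mul_sum, h1, h2]
  ring

end Pool.Agent.H622.Tw
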