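import Mathlib
import Pool.Agent.H622.Tw1

set_option autoImplicit false

/-! Generalised Collatz maps of coprime type: the number of the surviving residues. -/

namespace Pool.Agent.H622.Tw

open Finset Filter Topology
open scoped Classical
open Pool.Agent.H622.Gs (Sl Np Np_eq Dp Ep m0 m0_low)

theorem Np_zero {θ u : ℝ} {k : ℕ} : ∀ {o : ℕ}, k < o → (Gs.Np θ u k).coeff o = 0 := by
  induction k with
  | zero =>
    intro o h
    rw [Gs.Np, Polynomial.coeff_one, if_neg (by omega)]
  | succ k ih =>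
    intro o h
    obtain ⟨p, rfl⟩ : ∃ p, o = p + 1 := ⟨o - 1, by omega⟩
    rw [Gs.Np, Gs.coeff_cut, add_mul, one_mul, Polynomial.coeff_add, Polynomial.coeff_X_mul,
      ih (show k < p + 1 by omega), ih (show k < p by omega)]
    simp

variable {d : ℕ} {m r : ℤ → ℤ} {U : ℤ → Prop}

/-- survival above the height `-u` -/
def Surv (d : ℕ) (m r : ℤ → ℤ) (U : ℤ → Prop) (θ u : ℝ) (K : ℕ) (n : ℤ) : Prop :=
  ∀ j ≤ K, -u ≤ (up d m r U j n : ℝ) - j * θ

theorem Surv_succ {θ u : ℝ} (K : ℕ) (n : ℤ) : Surv d m r U θ u (K + 1) n ↔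
    Surv d m r U θ u K n ∧ -u ≤ (up d m r U (K + 1) n : ℝ) - ((K + 1 : ℕ) : ℝ) * θ := by
  unfold Surv
  constructor
  · intro h
    exact ⟨fun j hj => h j (by omega), h (K + 1) le_rfl⟩
  · rintro ⟨h1, h2⟩ j hj
    rcases Nat.lt_or_ge j (K + 1) with h | h
    · exact h1 j (by omega)
    · have : j = K + 1 := by omega
      subst this; exact h2

theorem Surv_add (hd : 0 < d) {θ u : ℝ} (K : ℕ) (x y : ℤ) :
    Surv d m r U θ u K (x + d ^ K * y) ↔ Surv d m r U θ u K x := by
  unfold Surv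
  constructor
  · intro h j hj
    rw [← up_add hd K x y hj]; exact h j hj
  · intro h j hj
    rw [up_add hd K x y hj]; exact h j hj

theorem cast_block (x i K : ℕ) : ((x + d ^ K * i : ℕ) : ℤ) = (x : ℤ) + (d : ℤ) ^ K * (i : ℤ) := by
  push_cast; ring

theorem mod_block {j K : ℕ} (h : j ≤ K) (x i : ℕ) : (x + d ^ K * i) % d ^ j = x % d ^ j := by
  obtain ⟨e, rfl⟩ := Nat.exists_eq_add_of_le h
  rw [pow_add, mul_assoc, Nat.add_mul_mod_self_left]

/-- the surviving residues in a class -/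
theorem cnt_Np (hd : 0 < d) (hc : Cop d m) {θ u : ℝ} (F : ℤ → ℝ) {j y : ℕ} (hy : y < d ^ j)
    (hS : Surv d m r U θ u j y) (k : ℕ) : ∀ o,
    cnt d m r U F (j + k) (fun n => n % d ^ j = y ∧ Surv d m r U θ u (j + k) n) (up d m r U j y + o) =
      W d m r F j y * ((((Np θ (u + up d m r U j y - j * θ) k).coeff o : ℤ) : ℝ) *
        (Su d U F ^ o * Sd d U F ^ (k - o))) := by
  induction k with
  | zero =>
    intro o
    rw [Gs.Np, Polynomial.coeff_one, add_zero]
    unfold cnt
    by_cases ho : o = 0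
    · subst ho
      rw [if_pos rfl, sum_eq_single y]
      · rw [ind_pos ⟨⟨Nat.mod_eq_of_lt hy, hS⟩, by rw [add_zero]⟩]; simp
      · intro n hn hny
        rw [mem_range] at hn
        rw [ind_neg, zero_mul]
        rintro ⟨⟨b, -⟩, -⟩
        rw [Nat.mod_eq_of_lt hn] at b
        exact hny b
      · intro h
        exact absurd (mem_range.2 hy) h
    · rw [if_neg ho, sum_eq_zero]
      · simp
      · intro n hn
        rw [mem_range] at hn
        rw [ind_neg, zero_mul]
        rintro ⟨⟨b, -⟩, c⟩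
        rw [Nat.mod_eq_of_lt hn] at b
        rw [b] at c
        omega
  | succ k ih =>
    intro o
    have hper : ∀ x i, ((x + d ^ (j + k) * i) % d ^ j = y ∧ Surv d m r U θ u (j + k) ((x + d ^ (j + k) * i : ℕ) : ℤ)) ↔
        (x % d ^ j = y ∧ Surv d m r U θ u (j + k) (x : ℤ)) := by
      intro x i
      rw [cast_block, Surv_add hd, mod_block (by omega)]
    have h1 := cnt_succ (r := r) (U := U) (K := j + k) (S := fun n => n % d ^ j = y ∧ Surv d m r U θ u (j + k) n)
      hd hc F hper (fun p => -u ≤ (p : ℝ) - ((j + k + 1 : ℕ) : ℝ) * θ)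
      (up d m r U j y + o)
    have h2 : cnt d m r U F (j + (k + 1)) (fun n => n % d ^ j = y ∧ Surv d m r U θ u (j + (k + 1)) n)
        (up d m r U j y + o) = cnt d m r U F (j + k + 1) (fun n => (n % d ^ j = y ∧ Surv d m r U θ u (j + k) n) ∧
          -u ≤ (up d m r U (j + k + 1) n : ℝ) - ((j + k + 1 : ℕ) : ℝ) * θ) (up d m r U j y + o) := by
      apply cnt_congr
      intro n
      rw [← add_assoc, Surv_succ]
      tauto
    have hz : ∀ p, p < up d m r U j y →
        cnt d m r U F (j + k) (fun n => n % d ^ j = y ∧ Surv d m r U θ u (j + k) n) p = 0 := by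
      intro p hp
      unfold cnt
      apply sum_eq_zero
      intro n _
      rw [ind_neg, zero_mul]
      rintro ⟨⟨a, -⟩, c⟩
      have h2 := up_mod (m := m) (r := r) (U := U) hd j le_rfl a
      have h3 := up_mono (d := d) (m := m) (r := r) (U := U) j k (n : ℤ)
      omega
    rw [h2, h1, Gs.Np, Gs.coeff_cut]
    have h3 : (-(u + (up d m r U j y : ℝ) - j * θ) ≤ (o : ℝ) - ((k + 1 : ℕ) : ℝ) * θ) ↔
        (-u ≤ ((up d m r U j y + o : ℕ) : ℝ) - ((j + k + 1 : ℕ) : ℝ) * θ) := by
      push_cast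
      constructor <;> intro h <;> linarith
    by_cases hQ : -u ≤ ((up d m r U j y + o : ℕ) : ℝ) - ((j + k + 1 : ℕ) : ℝ) * θ
    swap
    · rw [ind_neg hQ, if_neg (fun h => hQ (h3.1 h))]
      simp
    rw [ind_pos hQ, if_pos (h3.2 hQ), one_mul, add_mul, one_mul, Polynomial.coeff_add, ih]
    have hdn : (((Np θ (u + up d m r U j y - j * θ) k).coeff o : ℤ) : ℝ) * (Su d U F ^ o * Sd d U F ^ (k + 1 - o)) =
        Sd d U F * ((((Np θ (u + up d m r U j y - j * θ) k).coeff o : ℤ) : ℝ) *
          (Su d U F ^ o * Sd d U F ^ (k - o))) := by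
      rcases Nat.lt_or_ge k o with h | h
      · rw [Np_zero h]; simp
      · rw [show k + 1 - o = (k - o) + 1 by omega, pow_succ]; ring
    rcases Nat.eq_zero_or_pos o with h5 | h5
    · have h6 : ind (up d m r U j y + o ≠ 0) * (Su d U F * cnt d m r U F (j + k)
          (fun n => n % d ^ j = y ∧ Surv d m r U θ u (j + k) n) (up d m r U j y + o - 1)) = 0 := by
        by_cases h7 : up d m r U j y + o ≠ 0
        · rw [hz (up d m r U j y + o - 1) (by omega), mul_zero, mul_zero]
        · rw [ind_neg h7, zero_mul]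
      rw [h6, h5, Polynomial.coeff_X_mul_zero, add_zero, add_zero, ← h5, hdn]
      ring
    · obtain ⟨p, rfl⟩ : ∃ p, o = p + 1 := ⟨o - 1, by omega⟩
      rw [Polynomial.coeff_X_mul, show up d m r U j y + (p + 1) - 1 = up d m r U j y + p by omega, ih,
        ind_pos (show up d m r U j y + (p + 1) ≠ 0 by omega)]
      rw [show k + 1 - (p + 1) = k - p by omega] at hdn ⊢
      push_cast
      rw [add_mul, hdn, pow_succ]
      ring

/-- the sum over the surviving residues which fall below the height at the next step -/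
noncomputable def fp (d : ℕ) (m r : ℤ → ℤ) (U : ℤ → Prop) (θ u : ℝ) (F : ℤ → ℝ) (j y K : ℕ) : ℝ :=
  ∑ n ∈ range (d ^ (K + 1)), ind (n % d ^ j = y ∧ Surv d m r U θ u K n ∧ ¬ Surv d m r U θ u (K + 1) n) * W d m r F K n

/-- there is an admissible number of ups which is not admissible at the next step -/
def Win (θ u : ℝ) (K : ℕ) : Prop := (m0 θ u K : ℝ) < ((K + 1 : ℕ) : ℝ) * θ - u

theorem m0_unique {θ u : ℝ} (hθ : Sl θ) {K o : ℕ} (h1 : -u ≤ (o : ℝ) - K * θ)
    (h2 : (o : ℝ) < ((K + 1 : ℕ) : ℝ) * θ - u) : o = m0 θ u K := by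
  unfold m0
  apply le_antisymm
  · have h3 := Nat.le_ceil ((K : ℝ) * θ - u)
    have h4 : (o : ℝ) < (⌈(K : ℝ) * θ - u⌉₊ : ℝ) + 1 := by
      push_cast at h2
      linarith [hθ.lt]
    have : o < ⌈(K : ℝ) * θ - u⌉₊ + 1 := by exact_mod_cast h4
    omega
  · apply Nat.ceil_le.2
    linarith

theorem sd_one : Sd d U (fun _ => 1) = (((range d).filter fun j : ℕ => ¬ U (j : ℤ)).card : ℝ) := by
  unfold Sd
  rw [card_filter]
  push_cast
  apply sum_congr rfl
  intro j _
  by_cases h : U (j : ℤ)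
  · rw [if_pos h, if_neg (not_not.2 h)]
  · rw [if_neg h, if_pos h]

theorem su_one : Su d U (fun _ => 1) = (((range d).filter fun j : ℕ => U (j : ℤ)).card : ℝ) := by
  unfold Su
  rw [card_filter]
  push_cast
  apply sum_congr rfl
  intro j _
  by_cases h : U (j : ℤ)
  · rw [if_pos h]
  · rw [if_neg h]

theorem fp_eq (hd : 0 < d) (hc : Cop d m) {θ u : ℝ} (hθ : Sl θ) (F : ℤ → ℝ) {j y K : ℕ} (hjK : j ≤ K) :
    fp d m r U θ u F j y K = ind (Win θ u K) * (Sd d U (fun _ => 1) *
      cnt d m r U F K (fun n => n % d ^ j = y ∧ Surv d m r U θ u K n) (m0 θ u K)) := by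
  have key : ∀ n : ℕ, ind (n % d ^ j = y ∧ Surv d m r U θ u K n ∧ ¬ Surv d m r U θ u (K + 1) n) * W d m r F K n =
      (ind ((n % d ^ j = y ∧ Surv d m r U θ u K n) ∧ (up d m r U K n = m0 θ u K ∧ Win θ u K)) * W d m r F K n) *
        (if U (J d m r K n) then 0 else 1) := by
    intro n
    by_cases h0 : n % d ^ j = y ∧ Surv d m r U θ u K n
    swap
    · rw [ind_neg (fun h => h0 ⟨h.1, h.2.1⟩), ind_neg (fun h => h0 h.1)]
      simp
    have hs := h0.2 K le_rfl
    by_cases hU : U (J d m r K n)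
    · rw [if_pos hU, mul_zero, ind_neg, zero_mul]
      rintro ⟨-, -, h⟩
      apply h
      rw [Surv_succ]
      refine ⟨h0.2, ?_⟩
      rw [up_succ, if_pos hU]
      push_cast
      linarith [hθ.lt]
    · rw [if_neg hU, mul_one]
      congr 1
      apply ind_congr
      rw [Surv_succ, up_succ, if_neg hU, add_zero]
      constructor
      · rintro ⟨h1, h2, h3⟩
        have h4 : (up d m r U K n : ℝ) < ((K + 1 : ℕ) : ℝ) * θ - u := by
          by_contra h4
          apply h3
          exact ⟨h2, by linarith⟩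
        have h5 := m0_unique hθ hs h4
        refine ⟨h0, h5, ?_⟩
        unfold Win
        rw [← h5]; exact h4
      · rintro ⟨-, h1, h2⟩
        refine ⟨h0.1, h0.2, ?_⟩
        rintro ⟨-, h3⟩
        unfold Win at h2
        rw [← h1] at h2
        linarith
  unfold fp
  rw [sum_congr rfl fun n _ => key n]
  have h1 := sum_prod (r := r) hd hc K (fun n => ind ((n % d ^ j = y ∧ Surv d m r U θ u K n) ∧
    (up d m r U K n = m0 θ u K ∧ Win θ u K)) * W d m r F K n) (fun x i => by
      show ind _ * _ = ind _ * _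
      rw [cast_block, Surv_add hd, mod_block hjK, up_add hd K _ _ le_rfl, W_add hd F K _ _ le_rfl])
    (fun j => if U j then 0 else 1)
  rw [h1]
  unfold cnt
  by_cases hw : Win θ u K
  · rw [ind_pos hw, one_mul, mul_comm]
    congr 1
    apply sum_congr rfl
    intro n _
    congr 1
    apply ind_congr
    constructor
    · rintro ⟨a, b, -⟩; exact ⟨a, b⟩
    · rintro ⟨a, b⟩; exact ⟨a, b, hw⟩
  · rw [ind_neg hw, zero_mul, sum_eq_zero, zero_mul]
    intro n _
    rw [ind_neg (fun h => hw h.2.2), zero_mul]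

end Pool.Agent.H622.Tw
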