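import Mathlib
import Pool.Agent.H622.Tw2

set_option autoImplicit false

/-! Generalised Collatz maps of coprime type: the asymptotics of the number of the residues with a given
first passage time. -/

namespace Pool.Agent.H622.Tw

open Finset Filter Topology
open scoped Classical
open Pool.Agent.H622.Gs (Sl Np Dp Ep m0 m0_low m0_facts bu Vf c0 local_u Vf_ge_one Vf_nonneg c0_pos)

variable {d : ℕ} {m r : ℤ → ℤ} {U : ℤ → Prop}

noncomputable def su (d : ℕ) (U : ℤ → Prop) : ℝ := Su d U (fun _ => 1)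
noncomputable def sd (d : ℕ) (U : ℤ → Prop) : ℝ := Sd d U (fun _ => 1)

/-- the entropy -/
noncomputable def Hh (d : ℕ) (U : ℤ → Prop) (θ : ℝ) : ℝ :=
  θ * (Real.log (su d U) - Real.log θ) + (1 - θ) * (Real.log (sd d U) - Real.log (1 - θ))

noncomputable def qq (d : ℕ) (U : ℤ → Prop) (θ : ℝ) : ℝ := (su d U * (1 - θ)) / (sd d U * θ)

/-- both kinds of classes occur -/
structure Both (d : ℕ) (U : ℤ → Prop) : Prop where
  up : 0 < su d U
  dn : 0 < sd d U

theorem qq_pos (hB : Both d U) {θ : ℝ} (hθ : Sl θ) : 0 < qq d U θ := by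
  have h1 := hB.up
  have h2 := hB.dn
  have h3 := hθ.pos
  have h4 : 0 < 1 - θ := by linarith [hθ.lt]
  unfold qq
  positivity

theorem expH (hB : Both d U) {θ : ℝ} (hθ : Sl θ) {K o : ℕ} (ho : o ≤ K) :
    su d U ^ o * sd d U ^ (K - o) * Real.exp (-(K * Hh d U θ)) =
      θ ^ o * (1 - θ) ^ (K - o) * qq d U θ ^ ((o : ℝ) - K * θ) := by
  have h1 := hB.up
  have h2 := hB.dn
  have h3 := hθ.pos
  have h4 : 0 < 1 - θ := by linarith [hθ.lt]
  have h5 := qq_pos hB hθ
  have e1 : su d U ^ o = Real.exp (o * Real.log (su d U)) := by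
    rw [Real.exp_nat_mul, Real.exp_log h1]
  have e2 : sd d U ^ (K - o) = Real.exp (((K - o : ℕ) : ℝ) * Real.log (sd d U)) := by
    rw [Real.exp_nat_mul, Real.exp_log h2]
  have e3 : θ ^ o = Real.exp (o * Real.log θ) := by
    rw [Real.exp_nat_mul, Real.exp_log h3]
  have e4 : (1 - θ) ^ (K - o) = Real.exp (((K - o : ℕ) : ℝ) * Real.log (1 - θ)) := by
    rw [Real.exp_nat_mul, Real.exp_log h4]
  have e5 : qq d U θ ^ ((o : ℝ) - K * θ) = Real.exp (Real.log (qq d U θ) * ((o : ℝ) - K * θ)) :=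
    Real.rpow_def_of_pos h5 _
  have e6 : Real.log (qq d U θ) = Real.log (su d U) + Real.log (1 - θ) - (Real.log (sd d U) + Real.log θ) := by
    unfold qq
    rw [Real.log_div (by positivity) (by positivity), Real.log_mul h1.ne' h4.ne', Real.log_mul h2.ne' h3.ne']
  rw [e1, e2, e3, e4, e5, e6, ← Real.exp_add, ← Real.exp_add, ← Real.exp_add, ← Real.exp_add, Nat.cast_sub ho]
  congr 1
  unfold Hh
  ring

/-- the critical weights of the classes -/
noncomputable def crit (d : ℕ) (U : ℤ → Prop) (θ : ℝ) (j : ℤ) : ℝ :=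
  if U j then θ / su d U else (1 - θ) / sd d U

theorem up_split (F : ℤ → ℝ) (a b : ℝ) (h1 : ∀ j, U j → F j = a) (h2 : ∀ j, ¬ U j → F j = b) (k : ℕ) (x : ℤ) :
    W d m r F k x = a ^ up d m r U k x * b ^ (k - up d m r U k x) := by
  induction k with
  | zero => simp [W_zero, up_zero]
  | succ k ih =>
    rw [W_succ, up_succ, ih]
    have hle := up_le (d := d) (m := m) (r := r) (U := U) k x
    by_cases h : U (J d m r k x)
    · rw [if_pos h, h1 _ h, show k + 1 - (up d m r U k x + 1) = k - up d m r U k x by omega, pow_succ]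
      ring
    · rw [if_neg h, h2 _ h, add_zero, show k + 1 - up d m r U k x = k - up d m r U k x + 1 by omega, pow_succ]
      ring

theorem W_crit {θ : ℝ} (k : ℕ) (x : ℤ) : W d m r (crit d U θ) k x =
    (θ / su d U) ^ up d m r U k x * ((1 - θ) / sd d U) ^ (k - up d m r U k x) := by
  apply up_split
  · intro j h; unfold crit; rw [if_pos h]
  · intro j h; unfold crit; rw [if_neg h]

theorem W_crit_pos (hB : Both d U) {θ : ℝ} (hθ : Sl θ) (k : ℕ) (x : ℤ) : 0 < W d m r (crit d U θ) k x := by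
  have h1 := hB.up
  have h2 := hB.dn
  have h3 := hθ.pos
  have h4 : 0 < 1 - θ := by linarith [hθ.lt]
  rw [W_crit]
  positivity

/-- the number of the residues modulo `d ^ (K + 1)` in the class `y` modulo `d ^ j` with first passage time
`K + 1`, normalised -/
theorem fp_norm (hd : 0 < d) (hc : Cop d m) (hB : Both d U) {θ u : ℝ} (hθ : Sl θ) (hu : 0 ≤ u) {j y : ℕ}
    (hy : y < d ^ j) (hS : Surv d m r U θ u j y) (k : ℕ) (hk : up d m r U j y ≤ m0 θ u (j + k)) :
    fp d m r U θ u (fun _ => 1) j y (j + k) * Real.exp (-(((j + k : ℕ) : ℝ) * Hh d U θ)) =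
      ind (Win θ u (j + k)) * (sd d U * qq d U θ ^ ((m0 θ u (j + k) : ℝ) - ((j + k : ℕ) : ℝ) * θ)) *
        (W d m r (crit d U θ) j y *
          bu θ (u + up d m r U j y - j * θ) k (m0 θ u (j + k) - up d m r U j y)) := by
  have h1 := hB.up
  have h2 := hB.dn
  have h3 := hθ.pos
  have h4 : 0 < 1 - θ := by linarith [hθ.lt]
  have h5 := qq_pos hB hθ
  set a := up d m r U j y with ha
  have haj : a ≤ j := up_le j _
  obtain ⟨o, ho⟩ := Nat.exists_eq_add_of_le hk
  rw [fp_eq hd hc hθ _ (Nat.le_add_right j k), ho, cnt_Np hd hc _ hy hS, W_one, one_mul]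
  rw [show a + o - a = o by omega]
  unfold bu
  rcases Nat.lt_or_ge k o with h | h
  · rw [Np_zero h]; simp
  have e1 := expH hB hθ h
  have e2 := expH hB hθ haj
  have e3 : Real.exp (-(((j + k : ℕ) : ℝ) * Hh d U θ)) = Real.exp (-(j * Hh d U θ)) * Real.exp (-(k * Hh d U θ)) := by
    rw [← Real.exp_add]; congr 1; push_cast; ring
  have e4 : qq d U θ ^ (((a + o : ℕ) : ℝ) - ((j + k : ℕ) : ℝ) * θ) =
      qq d U θ ^ ((a : ℝ) - j * θ) * qq d U θ ^ ((o : ℝ) - k * θ) := by
    rw [← Real.rpow_add h5]; congr 1; push_cast; ring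
  have e5 : Real.exp (-(j * Hh d U θ)) = qq d U θ ^ ((a : ℝ) - j * θ) * W d m r (crit d U θ) j y := by
    rw [W_crit, ← ha, div_pow, div_pow]
    have h6 : su d U ^ a * sd d U ^ (j - a) ≠ 0 := by positivity
    field_simp
    linarith
  rw [e3, e4]
  have e6 : Su d U (fun _ => 1) = su d U := rfl
  have e7 : Sd d U (fun _ => 1) = sd d U := rfl
  rw [e6, e7]
  calc ind (Win θ u (j + k)) * (sd d U * ((((Np θ (u + ↑a - ↑j * θ) k).coeff o : ℤ) : ℝ) *
        (su d U ^ o * sd d U ^ (k - o)))) * (Real.exp (-(j * Hh d U θ)) * Real.exp (-(k * Hh d U θ)))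
      = ind (Win θ u (j + k)) * sd d U * (((Np θ (u + ↑a - ↑j * θ) k).coeff o : ℤ) : ℝ) *
        (su d U ^ o * sd d U ^ (k - o) * Real.exp (-(k * Hh d U θ))) * Real.exp (-(j * Hh d U θ)) := by ring
    _ = _ := by rw [e1, e5]; ring

/-- the factor of the limit which does not depend on the class -/
noncomputable def Zf (d : ℕ) (U : ℤ → Prop) (θ u : ℝ) (K : ℕ) : ℝ :=
  ind (Win θ u K) * (sd d U * qq d U θ ^ ((m0 θ u K : ℝ) - (K : ℝ) * θ)) * (c0 θ * Vf θ (u + m0 θ u K - K * θ))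

theorem rpow_between {q x u : ℝ} (hq : 0 < q) (hu : 0 ≤ u) (h1 : -u ≤ x) (h2 : x ≤ 1) :
    min (q ^ (-u)) q ≤ q ^ x ∧ q ^ x ≤ max (q ^ (-u)) q := by
  rcases le_or_gt 1 q with h | h
  · have a1 := Real.rpow_le_rpow_of_exponent_le h h1
    have a2 := Real.rpow_le_rpow_of_exponent_le h h2
    rw [Real.rpow_one] at a2
    exact ⟨(min_le_left _ _).trans a1, a2.trans (le_max_right _ _)⟩
  · have a1 := Real.rpow_le_rpow_of_exponent_ge hq h.le h1
    have a2 := Real.rpow_le_rpow_of_exponent_ge hq h.le h2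
    rw [Real.rpow_one] at a2
    exact ⟨(min_le_right _ _).trans a2, a1.trans (le_max_left _ _)⟩

theorem m0_range (hd : True) {θ u : ℝ} (hθ : Sl θ) (hu : 0 ≤ u) (K : ℕ) :
    0 ≤ u + (m0 θ u K : ℝ) - K * θ ∧ (m0 θ u K : ℝ) - K * θ ≤ 1 := by
  have h := m0_facts hθ hu K 0
  rw [add_zero, Nat.cast_zero] at h
  refine ⟨h.1, ?_⟩
  unfold m0
  have h0 : (0 : ℝ) ≤ K * θ := mul_nonneg (Nat.cast_nonneg _) hθ.pos.le
  rcases le_or_gt 0 ((K : ℝ) * θ - u) with h1 | h1
  · have := Nat.ceil_lt_add_one h1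
    linarith
  · rw [Nat.ceil_eq_zero.2 h1.le, Nat.cast_zero]
    linarith

/-- THE ASYMPTOTICS OF THE FIRST PASSAGE -/
theorem fp_tendsto (hd : 0 < d) (hc : Cop d m) (hB : Both d U) {θ u : ℝ} (hθ : Sl θ) (hu : 0 ≤ u) {j y : ℕ}
    (hy : y < d ^ j) (hS : Surv d m r U θ u j y) :
    Tendsto (fun k : ℕ => k * Real.sqrt k *
      (fp d m r U θ u (fun _ => 1) j y (j + k) * Real.exp (-(((j + k : ℕ) : ℝ) * Hh d U θ))) -
        W d m r (crit d U θ) j y * Vf (1 - θ) (u + up d m r U j y - j * θ) * Zf d U θ u (j + k)) atTop (𝓝 0) := by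
  have h2 := hB.dn
  have h3 := hθ.pos
  have h5 := qq_pos hB hθ
  set a := up d m r U j y with ha
  have hu' : 0 ≤ u + (a : ℝ) - j * θ := by
    have := hS j le_rfl
    linarith
  set u' : ℝ := u + (a : ℝ) - j * θ with hu'd
  set o : ℕ → ℕ := fun k => m0 θ u (j + k) - a with ho
  set Hf : ℕ → ℝ := fun k => u' + (o k : ℝ) - k * θ with hHf
  have hj0 : (0 : ℝ) ≤ j * θ := by positivity
  have ha0 : (0 : ℝ) ≤ a := Nat.cast_nonneg a
  have hm := fun k => m0_range trivial hθ hu (j + k)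
  have hob : ∀ k, |(o k : ℝ) - k * θ| ≤ u + a + j * θ + 1 := by
    intro k
    obtain ⟨b1, b2⟩ := hm k
    push_cast at b1 b2
    rcases Nat.lt_or_ge (m0 θ u (j + k)) a with h | h
    · have e : o k = 0 := by simp only [ho]; omega
      have h6 : (m0 θ u (j + k) : ℝ) ≤ a := by exact_mod_cast h.le
      have hk0 : (0 : ℝ) ≤ k * θ := by positivity
      rw [e, Nat.cast_zero, abs_le]
      constructor <;> linarith
    · have e : (o k : ℝ) = m0 θ u (j + k) - a := by simp only [ho]; rw [Nat.cast_sub h]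
      rw [e, abs_le]
      constructor <;> linarith
  have h7 := local_u hθ (W := u' + (u + a + j * θ + 1)) o (fun _ => u') Hf (fun _ => hu') (fun _ => by linarith)
    (fun k => by
      have := (abs_le.1 (hob k)).2
      simp only [hHf]; linarith) (fun k => (hob k).trans (by linarith)) (fun k => by simp only [hHf]; ring)
  -- the bounded factor
  set G : ℕ → ℝ := fun k => ind (Win θ u (j + k)) *
    (sd d U * qq d U θ ^ ((m0 θ u (j + k) : ℝ) - ((j + k : ℕ) : ℝ) * θ)) * W d m r (crit d U θ) j y with hG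
  have hGb : ∀ k, |G k| ≤ sd d U * max (qq d U θ ^ (-u)) (qq d U θ) * W d m r (crit d U θ) j y := by
    intro k
    obtain ⟨b1, b2⟩ := hm k
    have hW := (W_crit_pos (m := m) (r := r) hB hθ j (y : ℤ)).le
    have b3 := (rpow_between h5 hu (x := (m0 θ u (j + k) : ℝ) - ((j + k : ℕ) : ℝ) * θ) (by linarith) b2).2
    have b4 : 0 < qq d U θ ^ ((m0 θ u (j + k) : ℝ) - ((j + k : ℕ) : ℝ) * θ) := Real.rpow_pos_of_pos h5 _
    have b5 := ind_nonneg (Win θ u (j + k))
    have b6 := ind_le_one (Win θ u (j + k))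
    rw [hG, abs_of_nonneg (by positivity)]
    apply mul_le_mul_of_nonneg_right _ hW
    calc _ ≤ 1 * (sd d U * qq d U θ ^ ((m0 θ u (j + k) : ℝ) - ((j + k : ℕ) : ℝ) * θ)) :=
          mul_le_mul_of_nonneg_right b6 (by positivity)
      _ ≤ _ := by
          rw [one_mul]
          exact mul_le_mul_of_nonneg_left b3 h2.le
  have h8 := (h7.abs).const_mul (sd d U * max (qq d U θ ^ (-u)) (qq d U θ) * W d m r (crit d U θ) j y)
  rw [abs_zero, mul_zero] at h8
  apply squeeze_zero_norm' _ h8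
  -- eventually `a ≤ m0`
  obtain ⟨N, hN⟩ := exists_nat_gt (((a : ℝ) + u) / θ)
  filter_upwards [eventually_ge_atTop N] with k hk
  have hkN : (N : ℝ) ≤ k := by exact_mod_cast hk
  have hak : a ≤ m0 θ u (j + k) := by
    have b1 := (hm k).1
    push_cast at b1
    have b2 := (div_lt_iff₀ h3).1 hN
    have b3 : (N : ℝ) * θ ≤ k * θ := mul_le_mul_of_nonneg_right hkN h3.le
    have : (a : ℝ) < m0 θ u (j + k) := by nlinarith
    have : a < m0 θ u (j + k) := by exact_mod_cast this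
    exact this.le
  rw [fp_norm hd hc hB hθ hu hy hS k hak]
  have e : Hf k = u + (m0 θ u (j + k) : ℝ) - ((j + k : ℕ) : ℝ) * θ := by
    simp only [hHf, ho]
    rw [Nat.cast_sub hak]
    push_cast
    ring
  have e2 : k * Real.sqrt k * (ind (Win θ u (j + k)) *
      (sd d U * qq d U θ ^ ((m0 θ u (j + k) : ℝ) - ((j + k : ℕ) : ℝ) * θ)) *
        (W d m r (crit d U θ) j y * bu θ (u + a - j * θ) k (m0 θ u (j + k) - a))) -
      W d m r (crit d U θ) j y * Vf (1 - θ) u' * Zf d U θ u (j + k) =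
      G k * (k * Real.sqrt k * bu θ u' k (o k) - c0 θ * (Vf (1 - θ) u' * Vf θ (Hf k))) := by
    rw [e]
    simp only [hG, ho, Zf, hu'd]
    push_cast
    ring
  rw [e2, norm_mul, Real.norm_eq_abs, Real.norm_eq_abs]
  exact mul_le_mul_of_nonneg_right (hGb k) (abs_nonneg _)

end Pool.Agent.H622.Tw
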