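import Mathlib
import Pool.Agent.H622.Tw3

set_option autoImplicit false

/-! Generalised Collatz maps of coprime type: the limit law of the residues given the first passage time. -/

namespace Pool.Agent.H622.Tw

open Finset Filter Topology
open scoped Classical
open Pool.Agent.H622.Gs (Sl Np Dp Ep m0 m0_low m0_facts bu Vf c0 local_u Vf_ge_one Vf_nonneg Vf_mono c0_pos)

variable {d : ℕ} {m r : ℤ → ℤ} {U : ℤ → Prop}

/-- a shift of the index -/
theorem unshift {X Y : ℕ → ℝ} {M : ℝ} (hY : ∀ K, |Y K| ≤ M) (j : ℕ)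
    (h : Tendsto (fun k : ℕ => k * Real.sqrt k * X (j + k) - Y (j + k)) atTop (𝓝 0)) :
    Tendsto (fun K : ℕ => K * Real.sqrt K * X K - Y K) atTop (𝓝 0) := by
  have h4 : Tendsto (fun k : ℕ => (((j + k : ℕ) : ℝ) * Real.sqrt ((j + k : ℕ) : ℝ)) / (k * Real.sqrt k))
      atTop (𝓝 1) := by
    have h5 : Tendsto (fun k : ℕ => ((j + k : ℕ) : ℝ) / (k : ℝ)) atTop (𝓝 1) := by
      have h6 : Tendsto (fun k : ℕ => (j : ℝ) / (k : ℝ) + 1) atTop (𝓝 (0 + 1)) :=
        (tendsto_natCast_atTop_atTop.const_div_atTop _).add_const 1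
      rw [zero_add] at h6
      refine h6.congr' ?_
      filter_upwards [eventually_gt_atTop 0] with k hk
      have hk' : (0 : ℝ) < k := by exact_mod_cast hk
      push_cast
      field_simp
    have h7 := (Real.continuous_sqrt.tendsto 1).comp h5
    rw [Real.sqrt_one] at h7
    have h8 := h5.mul h7
    rw [one_mul] at h8
    refine h8.congr fun k => ?_
    simp only [Function.comp]
    rw [Real.sqrt_div (Nat.cast_nonneg _), div_mul_div_comm]
  have h5 := h4.mul h
  rw [mul_zero] at h5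
  have h6 : Tendsto (fun k : ℕ => ((((j + k : ℕ) : ℝ) * Real.sqrt ((j + k : ℕ) : ℝ)) / (k * Real.sqrt k) - 1) *
      Y (j + k)) atTop (𝓝 0) := by
    have h7 := h4.sub_const 1
    rw [sub_self] at h7
    have h8 := h7.abs
    rw [abs_zero] at h8
    have h9 := h8.mul_const M
    rw [zero_mul] at h9
    apply squeeze_zero_norm _ h9
    intro k
    rw [norm_mul, Real.norm_eq_abs, Real.norm_eq_abs]
    exact mul_le_mul_of_nonneg_left (hY _) (abs_nonneg _)
  have h7 := h5.add h6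
  rw [add_zero] at h7
  rw [← tendsto_add_atTop_iff_nat j]
  refine h7.congr' ?_
  filter_upwards [eventually_gt_atTop 0] with k hk
  have hk' : (0 : ℝ) < k := by exact_mod_cast hk
  have hsk : 0 < Real.sqrt (k : ℝ) := Real.sqrt_pos.2 hk'
  rw [add_comm k j]
  field_simp
  ring

theorem Zf_bound (hB : Both d U) {θ u : ℝ} (hθ : Sl θ) (hu : 0 ≤ u) : ∃ M : ℝ, 0 < M ∧ ∀ K, |Zf d U θ u K| ≤ M := by
  have h2 := hB.dn
  have h5 := qq_pos hB hθ
  have hc := c0_pos hθ
  have hV1 := Vf_ge_one hθ (show (0 : ℝ) ≤ u + 1 by linarith)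
  refine ⟨sd d U * max (qq d U θ ^ (-u)) (qq d U θ) * (c0 θ * Vf θ (u + 1)), ?_, ?_⟩
  · have : 0 < max (qq d U θ ^ (-u)) (qq d U θ) := lt_max_of_lt_right h5
    positivity
  intro K
  obtain ⟨b1, b2⟩ := m0_range trivial hθ hu K
  have b3 := (rpow_between h5 hu (x := (m0 θ u K : ℝ) - K * θ) (by linarith) b2).2
  have b4 : 0 < qq d U θ ^ ((m0 θ u K : ℝ) - K * θ) := Real.rpow_pos_of_pos h5 _
  have b5 := ind_nonneg (Win θ u K)
  have b6 := ind_le_one (Win θ u K)
  have b7 := Vf_nonneg hθ (u + m0 θ u K - K * θ)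
  have b8 := Vf_mono hθ (show u + m0 θ u K - K * θ ≤ u + 1 by linarith)
  unfold Zf
  rw [abs_of_nonneg (by positivity)]
  apply mul_le_mul _ (mul_le_mul_of_nonneg_left b8 hc.le) (by positivity) (by positivity)
  calc _ ≤ 1 * (sd d U * qq d U θ ^ ((m0 θ u K : ℝ) - K * θ)) := mul_le_mul_of_nonneg_right b6 (by positivity)
    _ ≤ _ := by rw [one_mul]; exact mul_le_mul_of_nonneg_left b3 h2.le

theorem Zf_lower (hB : Both d U) {θ u : ℝ} (hθ : Sl θ) (hu : 0 ≤ u) : ∃ z : ℝ, 0 < z ∧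
    ∀ K, Win θ u K → z ≤ Zf d U θ u K := by
  have h2 := hB.dn
  have h5 := qq_pos hB hθ
  have hc := c0_pos hθ
  have h6 : 0 < min (qq d U θ ^ (-u)) (qq d U θ) := lt_min (Real.rpow_pos_of_pos h5 _) h5
  refine ⟨sd d U * min (qq d U θ ^ (-u)) (qq d U θ) * c0 θ, by positivity, ?_⟩
  intro K hw
  obtain ⟨b1, b2⟩ := m0_range trivial hθ hu K
  have b3 := (rpow_between h5 hu (x := (m0 θ u K : ℝ) - K * θ) (by linarith) b2).1
  have b7 := Vf_ge_one hθ b1
  unfold Zf
  rw [ind_pos hw, one_mul]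
  apply mul_le_mul (mul_le_mul_of_nonneg_left b3 h2.le) _ hc.le (by positivity)
  nlinarith

/-- the first passage time takes infinitely many values -/
theorem Win_frequently {θ u : ℝ} (hθ : Sl θ) (hu : 0 ≤ u) : ∃ᶠ K in atTop, Win θ u K := by
  rw [frequently_atTop]
  intro N
  have h3 := hθ.pos
  have h4 := hθ.lt
  -- the integer `N`
  set K : ℕ := ⌊((N : ℝ) + u) / θ⌋₊ with hK
  have hx : (0 : ℝ) ≤ ((N : ℝ) + u) / θ := by positivity
  have h1 : (K : ℝ) ≤ ((N : ℝ) + u) / θ := Nat.floor_le hx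
  have h2 : ((N : ℝ) + u) / θ < K + 1 := Nat.lt_floor_add_one _
  rw [le_div_iff₀ h3] at h1
  rw [div_lt_iff₀ h3] at h2
  have e := m0_unique hθ (K := K) (o := N) (u := u) (by linarith) (by push_cast; linarith)
  refine ⟨K, ?_, ?_⟩
  · have : (N : ℝ) < K + 1 := by nlinarith
    have : N < K + 1 := by exact_mod_cast this
    omega
  · unfold Win
    rw [← e]; push_cast; linarith

/-- the mass of a residue class -/
noncomputable def mass (d : ℕ) (m r : ℤ → ℤ) (U : ℤ → Prop) (θ u : ℝ) (j y : ℕ) : ℝ :=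
  if Surv d m r U θ u j y then
    W d m r (crit d U θ) j y * Vf (1 - θ) (u + up d m r U j y - j * θ) / Vf (1 - θ) u else 0

theorem mass_nonneg (hB : Both d U) {θ u : ℝ} (hθ : Sl θ) (hu : 0 ≤ u) (j y : ℕ) : 0 ≤ mass d m r U θ u j y := by
  unfold mass
  split_ifs
  · have h1 := W_crit_pos (m := m) (r := r) hB hθ j (y : ℤ)
    have h2 := Vf_nonneg hθ.flip (u + up d m r U j y - j * θ)
    have h3 := Vf_ge_one hθ.flip hu
    positivity
  · exact le_rfl

theorem fp_zero (hd : 0 < d) {θ u : ℝ} (F : ℤ → ℝ) {j y K : ℕ} (hjK : j ≤ K) (hS : ¬ Surv d m r U θ u j y) :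
    fp d m r U θ u F j y K = 0 := by
  unfold fp
  apply sum_eq_zero
  intro n _
  rw [ind_neg, zero_mul]
  rintro ⟨h1, h2, -⟩
  apply hS
  intro i hi
  rw [← up_mod hd i hi h1]
  exact h2 i (by omega)

/-- the normalised numbers -/
theorem fp_tendsto' (hd : 0 < d) (hc : Cop d m) (hB : Both d U) {θ u : ℝ} (hθ : Sl θ) (hu : 0 ≤ u) {j y : ℕ}
    (hy : y < d ^ j) :
    Tendsto (fun K : ℕ => K * Real.sqrt K *
      (fp d m r U θ u (fun _ => 1) j y K * Real.exp (-(K * Hh d U θ))) -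
        mass d m r U θ u j y * Vf (1 - θ) u * Zf d U θ u K) atTop (𝓝 0) := by
  by_cases hS : Surv d m r U θ u j y
  swap
  · apply tendsto_const_nhds.congr'
    filter_upwards [eventually_ge_atTop j] with K hK
    rw [fp_zero hd _ hK hS]
    unfold mass
    rw [if_neg hS]
    ring
  obtain ⟨M, hM, hZ⟩ := Zf_bound hB hθ hu
  have hV := Vf_ge_one hθ.flip hu
  have h1 := fp_tendsto hd hc hB hθ hu hy hS
  have h2 := unshift (X := fun K => fp d m r U θ u (fun _ => 1) j y K * Real.exp (-(K * Hh d U θ)))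
    (Y := fun K => W d m r (crit d U θ) j y * Vf (1 - θ) (u + up d m r U j y - j * θ) * Zf d U θ u K)
    (M := |W d m r (crit d U θ) j y * Vf (1 - θ) (u + up d m r U j y - j * θ)| * M)
    (fun K => by rw [abs_mul]; exact mul_le_mul_of_nonneg_left (hZ K) (abs_nonneg _)) j h1
  refine h2.congr fun K => ?_
  unfold mass
  rw [if_pos hS]
  have : Vf (1 - θ) u ≠ 0 := by linarith
  field_simp

theorem fp_nonneg {θ u : ℝ} (j y K : ℕ) : 0 ≤ fp d m r U θ u (fun _ => 1) j y K := by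
  unfold fp
  apply sum_nonneg
  intro n _
  rw [W_one, mul_one]
  exact ind_nonneg _

theorem fp_not_win (hd : 0 < d) (hc : Cop d m) {θ u : ℝ} (hθ : Sl θ) (F : ℤ → ℝ) {j y K : ℕ} (hjK : j ≤ K)
    (hw : ¬ Win θ u K) : fp d m r U θ u F j y K = 0 := by
  rw [fp_eq hd hc hθ F hjK, ind_neg hw, zero_mul]

theorem mass_zero {θ u : ℝ} (hθ : Sl θ) (hu : 0 ≤ u) : mass d m r U θ u 0 0 = 1 := by
  have hV := Vf_ge_one hθ.flip hu
  unfold mass
  have hS : Surv d m r U θ u 0 ((0 : ℕ) : ℤ) := by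
    intro j hj
    have : j = 0 := by omega
    subst this
    rw [up_zero]
    simp; exact hu
  rw [if_pos hS, W_zero, up_zero]
  have : Vf (1 - θ) u ≠ 0 := by linarith
  simp
  exact this

/-- THE LIMIT LAW, for the exact first passage time -/
theorem law (hd : 0 < d) (hc : Cop d m) (hB : Both d U) {θ u : ℝ} (hθ : Sl θ) (hu : 0 ≤ u) {j y : ℕ}
    (hy : y < d ^ j) {ε : ℝ} (hε : 0 < ε) : ∃ K0 : ℕ, ∀ K, K0 ≤ K →
    |fp d m r U θ u (fun _ => 1) j y K - mass d m r U θ u j y * fp d m r U θ u (fun _ => 1) 0 0 K| ≤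
      ε * fp d m r U θ u (fun _ => 1) 0 0 K := by
  obtain ⟨z, hz, hZ⟩ := Zf_lower hB hθ hu
  have hV := Vf_ge_one hθ.flip hu
  have hm := mass_nonneg (m := m) (r := r) hB hθ hu j y
  have h1 := fp_tendsto' (r := r) hd hc hB hθ hu hy
  have h2 := fp_tendsto' (r := r) hd hc hB hθ hu (j := 0) (y := 0) (by simp)
  rw [mass_zero hθ hu] at h2
  set mu := mass d m r U θ u j y with hmu
  have h3 := (Metric.tendsto_nhds.1 h2) (z * (1 / 2)) (by positivity)
  have h4 := (Metric.tendsto_nhds.1 h1) (ε * z / 4) (by positivity)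
  have h5 := (Metric.tendsto_nhds.1 h2) (ε * z / (4 * (mu + 1))) (by positivity)
  obtain ⟨K0, hK0⟩ := eventually_atTop.1 (h3.and (h4.and h5))
  refine ⟨max K0 j, ?_⟩
  intro K hK
  obtain ⟨a3, a4, a5⟩ := hK0 K ((le_max_left _ _).trans hK)
  have hjK : j ≤ K := (le_max_right _ _).trans hK
  by_cases hw : Win θ u K
  swap
  · rw [fp_not_win hd hc hθ _ hjK hw, fp_not_win hd hc hθ _ (Nat.zero_le K) hw]; simp
  have hZK := hZ K hw
  rw [Real.dist_eq, sub_zero] at a3 a4 a5
  set A := fp d m r U θ u (fun _ => 1) j y K with hA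
  set B := fp d m r U θ u (fun _ => 1) 0 0 K with hB'
  set e : ℝ := K * Real.sqrt K * Real.exp (-(K * Hh d U θ)) with he
  have e1 : K * Real.sqrt K * (A * Real.exp (-(K * Hh d U θ))) = e * A := by rw [he]; ring
  have e2 : K * Real.sqrt K * (B * Real.exp (-(K * Hh d U θ))) = e * B := by rw [he]; ring
  rw [e2, one_mul] at a3 a5
  rw [e1] at a4
  set V := Vf (1 - θ) u with hVd
  set Z := Zf d U θ u K with hZd
  have hB0 : 0 ≤ B := fp_nonneg 0 0 K
  have he0 : 0 ≤ e := by rw [he]; positivity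
  have b1 : z / 2 ≤ e * B := by
    have := (abs_lt.1 a3).1
    nlinarith
  have hepos : 0 < e := by
    rcases he0.lt_or_eq with h | h
    · exact h
    · rw [← h, zero_mul] at b1; linarith
  have b2 : |e * A - mu * (e * B)| ≤ ε * z / 2 := by
    have e3 : e * A - mu * (e * B) = (e * A - mu * V * Z) - mu * (e * B - V * Z) := by ring
    rw [e3]
    refine (abs_sub _ _).trans ?_
    rw [abs_mul, abs_of_nonneg hm]
    have b3 : mu * |e * B - V * Z| ≤ ε * z / 4 := by
      have b4 : mu * |e * B - V * Z| ≤ mu * (ε * z / (4 * (mu + 1))) := mul_le_mul_of_nonneg_left a5.le hm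
      refine b4.trans ?_
      rw [mul_div_assoc', div_le_div_iff₀ (by positivity) (by positivity)]
      have : 0 < ε * z := by positivity
      nlinarith
    linarith
  have b3 : e * |A - mu * B| ≤ e * (ε * B) := by
    have e4 : e * |A - mu * B| = |e * A - mu * (e * B)| := by
      rw [show e * A - mu * (e * B) = e * (A - mu * B) by ring, abs_mul, abs_of_pos hepos]
    rw [e4]
    refine b2.trans ?_
    nlinarith
  exact le_of_mul_le_mul_left b3 hepos

theorem ind_split (hd : 0 < d) {j y : ℕ} (hy : y < d ^ j) (n : ℕ) (p : Prop) :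
    ind (n % d ^ j = y ∧ p) = ∑ i ∈ range d, ind (n % d ^ (j + 1) = y + d ^ j * i ∧ p) := by
  have hdj : 0 < d ^ j := by positivity
  have key : n % d ^ (j + 1) = n % d ^ j + d ^ j * (n / d ^ j % d) := by
    rw [pow_succ, Nat.mod_mul]
  by_cases h : n % d ^ j = y ∧ p
  · rw [ind_pos h, sum_eq_single (n / d ^ j % d)]
    · rw [ind_pos]
      refine ⟨?_, h.2⟩
      rw [key, h.1]
    · intro i _ hi
      apply ind_neg
      rintro ⟨h1, -⟩
      rw [key, h.1] at h1
      have h2 : d ^ j * (n / d ^ j % d) = d ^ j * i := by omega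
      exact hi (Nat.eq_of_mul_eq_mul_left hdj h2).symm
    · intro h1
      exact absurd (mem_range.2 (Nat.mod_lt _ hd)) h1
  · rw [ind_neg h]
    symm
    apply sum_eq_zero
    intro i _
    apply ind_neg
    rintro ⟨h1, h2⟩
    apply h
    refine ⟨?_, h2⟩
    have h3 : n % d ^ (j + 1) % d ^ j = n % d ^ j := Nat.mod_mod_of_dvd n (pow_dvd_pow d (by omega))
    rw [← h3, h1, Nat.add_mul_mod_self_left, Nat.mod_eq_of_lt hy]

theorem fp_split (hd : 0 < d) {θ u : ℝ} (F : ℤ → ℝ) {j y : ℕ} (hy : y < d ^ j) (K : ℕ) :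
    fp d m r U θ u F j y K = ∑ i ∈ range d, fp d m r U θ u F (j + 1) (y + d ^ j * i) K := by
  unfold fp
  rw [sum_comm]
  apply sum_congr rfl
  intro n _
  rw [ind_split hd hy, sum_mul]

theorem fp_pos (hd : 0 < d) (hc : Cop d m) (hB : Both d U) {θ u : ℝ} (hθ : Sl θ) (hu : 0 ≤ u) :
    ∃ᶠ K in atTop, 0 < fp d m r U θ u (fun _ => 1) 0 0 K := by
  obtain ⟨z, hz, hZ⟩ := Zf_lower hB hθ hu
  have hV := Vf_ge_one hθ.flip hu
  have h2 := fp_tendsto' (r := r) hd hc hB hθ hu (j := 0) (y := 0) (by simp)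
  rw [mass_zero hθ hu] at h2
  have h3 := (Metric.tendsto_nhds.1 h2) (z * (1 / 2)) (by positivity)
  refine ((Win_frequently hθ hu).and_eventually h3).mono ?_
  rintro K ⟨hw, h4⟩
  have hZK := hZ K hw
  rw [Real.dist_eq, sub_zero, one_mul] at h4
  rcases (fp_nonneg (d := d) (m := m) (r := r) (U := U) (θ := θ) (u := u) 0 0 K).lt_or_eq with h | h
  · exact h
  · exfalso
    rw [← h, zero_mul, mul_zero, zero_sub, abs_neg] at h4
    have := le_abs_self (Vf (1 - θ) u * Zf d U θ u K)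
    nlinarith

/-- the masses are consistent -/
theorem mass_split (hd : 0 < d) (hc : Cop d m) (hB : Both d U) {θ u : ℝ} (hθ : Sl θ) (hu : 0 ≤ u) {j y : ℕ}
    (hy : y < d ^ j) : mass d m r U θ u j y = ∑ i ∈ range d, mass d m r U θ u (j + 1) (y + d ^ j * i) := by
  have hlt : ∀ i ∈ range d, y + d ^ j * i < d ^ (j + 1) := by
    intro i hi
    rw [mem_range] at hi
    rw [pow_succ]
    have : d ^ j * i + d ^ j ≤ d ^ j * d := by
      have := Nat.mul_le_mul_left (d ^ j) (show i + 1 ≤ d by omega)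
      rw [Nat.mul_add, mul_one] at this
      exact this
    omega
  by_contra hne
  set δ : ℝ := |mass d m r U θ u j y - ∑ i ∈ range d, mass d m r U θ u (j + 1) (y + d ^ j * i)| with hδ
  have hδ0 : 0 < δ := abs_pos.2 (sub_ne_zero.2 hne)
  set ε : ℝ := δ / (2 * (d + 1)) with hε
  have hε0 : 0 < ε := by positivity
  obtain ⟨K1, hK1⟩ := law (r := r) hd hc hB hθ hu hy hε0
  have hK2 : ∀ i ∈ range d, ∃ K0 : ℕ, ∀ K, K0 ≤ K →
      |fp d m r U θ u (fun _ => 1) (j + 1) (y + d ^ j * i) K -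
        mass d m r U θ u (j + 1) (y + d ^ j * i) * fp d m r U θ u (fun _ => 1) 0 0 K| ≤
      ε * fp d m r U θ u (fun _ => 1) 0 0 K := fun i hi => law (r := r) hd hc hB hθ hu (hlt i hi) hε0
  choose! K2 hK2 using hK2
  obtain ⟨K, hK, hpos⟩ := (frequently_atTop.1 (fp_pos (r := r) hd hc hB hθ hu)) (max K1 (∑ i ∈ range d, K2 i))
  set B := fp d m r U θ u (fun _ => 1) 0 0 K with hBd
  have a1 := hK1 K ((le_max_left _ _).trans hK)
  have a2 : ∀ i ∈ range d, |fp d m r U θ u (fun _ => 1) (j + 1) (y + d ^ j * i) K -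
        mass d m r U θ u (j + 1) (y + d ^ j * i) * B| ≤ ε * B := by
    intro i hi
    apply hK2 i hi
    exact (single_le_sum (f := K2) (fun _ _ => Nat.zero_le _) hi).trans ((le_max_right _ _).trans hK)
  rw [fp_split hd _ hy K] at a1
  have a3 : |∑ i ∈ range d, (fp d m r U θ u (fun _ => 1) (j + 1) (y + d ^ j * i) K -
      mass d m r U θ u (j + 1) (y + d ^ j * i) * B)| ≤ d * (ε * B) := by
    refine (abs_sum_le_sum_abs _ _).trans ((sum_le_sum a2).trans ?_)
    rw [sum_const, card_range, nsmul_eq_mul]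
  rw [sum_sub_distrib, ← sum_mul] at a3
  have e1 : δ * B ≤ (d + 1) * (ε * B) := by
    rw [hδ, ← abs_of_pos hpos, ← abs_mul, abs_of_pos hpos]
    set X := ∑ i ∈ range d, fp d m r U θ u (fun _ => 1) (j + 1) (y + d ^ j * i) K
    set Y := ∑ i ∈ range d, mass d m r U θ u (j + 1) (y + d ^ j * i)
    have e2 : (mass d m r U θ u j y - Y) * B = (X - Y * B) - (X - mass d m r U θ u j y * B) := by ring
    rw [e2]
    refine (abs_sub _ _).trans ?_
    linarith
  have e2 : (d + 1) * (ε * B) = δ * B / 2 := by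
    rw [hε]; field_simp
  rw [e2] at e1
  have : 0 < δ * B := by positivity
  linarith

end Pool.Agent.H622.Tw
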