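import Mathlib
import Pool.Agent.H622.Tw4

set_option autoImplicit false

/-! Generalised Collatz maps of coprime type: the harmonic functions as sums over residues; the frequencies of
the classes given the first passage time; late first passages. -/

namespace Pool.Agent.H622.Tw

open Finset Filter Topology
open scoped Classical
open Pool.Agent.H622.Gs (Sl Np Dp Ep m0 m0_low m0_facts bu Vf c0 local_u Vf_ge_one Vf_nonneg Vf_mono c0_pos)

variable {d : ℕ} {m r : ℤ → ℤ} {U : ℤ → Prop}

theorem Su_crit (hB : Both d U) (θ : ℝ) : Su d U (crit d U θ) = θ := by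
  have h1 := hB.up
  have e : Su d U (crit d U θ) = (θ / su d U) * su d U := by
    have e2 : su d U = ∑ j ∈ range d, if U (j : ℤ) then (1 : ℝ) else 0 := rfl
    conv_rhs => rw [e2]
    unfold Su
    rw [mul_sum]
    apply sum_congr rfl
    intro j _
    unfold crit
    by_cases h : U (j : ℤ)
    · rw [if_pos h, if_pos h, if_pos h, mul_one, ← e2]
    · rw [if_neg h, if_neg h, mul_zero]
  rw [e]; field_simp

theorem Sd_crit (hB : Both d U) (θ : ℝ) : Sd d U (crit d U θ) = 1 - θ := by
  have h1 := hB.dn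
  have e : Sd d U (crit d U θ) = ((1 - θ) / sd d U) * sd d U := by
    have e2 : sd d U = ∑ j ∈ range d, if U (j : ℤ) then (0 : ℝ) else 1 := rfl
    conv_rhs => rw [e2]
    unfold Sd
    rw [mul_sum]
    apply sum_congr rfl
    intro j _
    unfold crit
    by_cases h : U (j : ℤ)
    · rw [if_pos h, if_pos h, mul_zero]
    · rw [if_neg h, if_neg h, if_neg h, mul_one, ← e2]
  rw [e]; field_simp

/-- words with a condition on all the initial segments -/
def Cond (d : ℕ) (m r : ℤ → ℤ) (U : ℤ → Prop) (C : ℕ → ℕ → Prop) (K : ℕ) (n : ℤ) : Prop :=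
  ∀ j, 1 ≤ j → j ≤ K → C j (up d m r U j n)

theorem Cond_succ {C : ℕ → ℕ → Prop} (K : ℕ) (n : ℤ) : Cond d m r U C (K + 1) n ↔
    Cond d m r U C K n ∧ C (K + 1) (up d m r U (K + 1) n) := by
  unfold Cond
  constructor
  · intro h
    exact ⟨fun j h1 hj => h j h1 (by omega), h (K + 1) (by omega) le_rfl⟩
  · rintro ⟨h1, h2⟩ j hj1 hj
    rcases Nat.lt_or_ge j (K + 1) with h | h
    · exact h1 j hj1 (by omega)
    · have : j = K + 1 := by omega
      subst this; exact h2

theorem Cond_add (hd : 0 < d) {C : ℕ → ℕ → Prop} (K : ℕ) (x y : ℤ) :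
    Cond d m r U C K (x + d ^ K * y) ↔ Cond d m r U C K x := by
  unfold Cond
  constructor
  · intro h j h1 hj
    rw [← up_add hd K x y hj]; exact h j h1 hj
  · intro h j h1 hj
    rw [up_add hd K x y hj]; exact h j h1 hj

/-- the polynomials of the words -/
noncomputable def Wp (C : ℕ → ℕ → Prop) : ℕ → Polynomial ℤ
  | 0 => 1
  | k + 1 => Gs.cut (C (k + 1)) ((1 + Polynomial.X) * Wp C k)

theorem Wp_zero {C : ℕ → ℕ → Prop} {k : ℕ} : ∀ {o : ℕ}, k < o → (Wp C k).coeff o = 0 := by
  induction k with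
  | zero =>
    intro o h
    rw [Wp, Polynomial.coeff_one, if_neg (by omega)]
  | succ k ih =>
    intro o h
    obtain ⟨p, rfl⟩ : ∃ p, o = p + 1 := ⟨o - 1, by omega⟩
    rw [Wp, Gs.coeff_cut, add_mul, one_mul, Polynomial.coeff_add, Polynomial.coeff_X_mul,
      ih (show k < p + 1 by omega), ih (show k < p by omega)]
    simp

theorem cnt_Wp (hd : 0 < d) (hc : Cop d m) (C : ℕ → ℕ → Prop) (F : ℤ → ℝ) (k : ℕ) : ∀ o,
    cnt d m r U F k (fun n => Cond d m r U C k n) o = (((Wp C k).coeff o : ℤ) : ℝ) * (Su d U F ^ o * Sd d U F ^ (k - o)) := by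
  induction k with
  | zero =>
    intro o
    rw [Wp, Polynomial.coeff_one]
    unfold cnt
    rw [pow_zero, range_one, sum_singleton]
    have h0 : Cond d m r U C 0 ((0 : ℕ) : ℤ) := fun j h1 h2 => by omega
    rw [up_zero, W_zero, mul_one]
    by_cases h : o = 0
    · subst h
      rw [if_pos rfl, ind_pos ⟨h0, rfl⟩]; simp
    · rw [if_neg h, ind_neg]
      · simp
      · rintro ⟨-, h2⟩
        exact h h2.symm
  | succ k ih =>
    intro o
    have hper : ∀ x i, Cond d m r U C k ((x + d ^ k * i : ℕ) : ℤ) ↔ Cond d m r U C k (x : ℤ) := by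
      intro x i
      rw [cast_block, Cond_add hd]
    have h1 := cnt_succ (r := r) (U := U) (K := k) (S := fun n => Cond d m r U C k n)
      hd hc F hper (fun p => C (k + 1) p) o
    have h2 : cnt d m r U F (k + 1) (fun n => Cond d m r U C (k + 1) n) o =
        cnt d m r U F (k + 1) (fun n => Cond d m r U C k n ∧ C (k + 1) (up d m r U (k + 1) n)) o := by
      apply cnt_congr
      intro n
      exact Cond_succ k n
    rw [h2, h1, Wp, Gs.coeff_cut]
    by_cases hQ : C (k + 1) o
    swap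
    · rw [ind_neg hQ, if_neg hQ]
      simp
    rw [ind_pos hQ, if_pos hQ, one_mul, add_mul, one_mul, Polynomial.coeff_add, ih]
    have hdn : (((Wp C k).coeff o : ℤ) : ℝ) * (Su d U F ^ o * Sd d U F ^ (k + 1 - o)) =
        Sd d U F * ((((Wp C k).coeff o : ℤ) : ℝ) * (Su d U F ^ o * Sd d U F ^ (k - o))) := by
      rcases Nat.lt_or_ge k o with h | h
      · rw [Wp_zero h]; simp
      · rw [show k + 1 - o = (k - o) + 1 by omega, pow_succ]; ring
    rcases Nat.eq_zero_or_pos o with h5 | h5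
    · rw [ind_neg (not_not.2 h5), zero_mul, h5, Polynomial.coeff_X_mul_zero, add_zero, add_zero, ← h5, hdn]
    · obtain ⟨p, rfl⟩ : ∃ p, o = p + 1 := ⟨o - 1, by omega⟩
      rw [Polynomial.coeff_X_mul, show p + 1 - 1 = p by omega, ih, ind_pos (show p + 1 ≠ 0 by omega)]
      rw [show k + 1 - (p + 1) = k - p by omega] at hdn ⊢
      push_cast
      rw [add_mul, hdn, pow_succ]
      ring

theorem Ep_Wp (θ : ℝ) (k : ℕ) : Ep θ k = Wp (fun j o => (o : ℝ) < (j : ℝ) * θ) k := by
  induction k with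
  | zero => rfl
  | succ k ih => rw [Ep, Wp, ih]

theorem Dp_Wp (θ : ℝ) (k : ℕ) : Dp θ k = Wp (fun j o => (j : ℝ) * θ < (o : ℝ)) k := by
  induction k with
  | zero => rfl
  | succ k ih => rw [Dp, Wp, ih]

/-- the sum over residues as a sum over the number of ups -/
theorem sum_by_up (F : ℤ → ℝ) (K : ℕ) (S : ℤ → Prop) (Q : ℕ → Prop) :
    ∑ n ∈ range (d ^ K), ind (S n ∧ Q (up d m r U K n)) * W d m r F K n =
      ∑ o ∈ range (K + 1), ind (Q o) * cnt d m r U F K (fun n => S n) o := by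
  unfold cnt
  simp_rw [mul_sum]
  rw [sum_comm]
  apply sum_congr rfl
  intro n _
  rw [sum_eq_single (up d m r U K n)]
  · by_cases h : Q (up d m r U K n)
    · rw [ind_pos h, one_mul]
      congr 1
      apply ind_congr
      constructor
      · rintro ⟨a, -⟩; exact ⟨a, rfl⟩
      · rintro ⟨a, -⟩; exact ⟨a, h⟩
    · rw [ind_neg h, ind_neg (fun h2 => h h2.2)]; simp
  · intro o _ ho
    rw [ind_neg (p := S n ∧ up d m r U K n = o) (fun h => ho h.2.symm)]; simp
  · intro h
    have := up_le (d := d) (m := m) (r := r) (U := U) K (n : ℤ)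
    exact absurd (mem_range.2 (by omega)) h

/-- the terms of the two series -/
noncomputable def Vt (d : ℕ) (m r : ℤ → ℤ) (U : ℤ → Prop) (θ v : ℝ) (j : ℕ) : ℝ :=
  ∑ n ∈ range (d ^ j), ind (Cond d m r U (fun i o => (o : ℝ) < (i : ℝ) * θ) j n ∧
    -v ≤ (up d m r U j n : ℝ) - j * θ) * W d m r (crit d U θ) j n

noncomputable def Rt (d : ℕ) (m r : ℤ → ℤ) (U : ℤ → Prop) (θ w : ℝ) (j : ℕ) : ℝ :=
  ∑ n ∈ range (d ^ j), ind (Cond d m r U (fun i o => (i : ℝ) * θ < (o : ℝ)) j n ∧
    (up d m r U j n : ℝ) - j * θ ≤ w) * W d m r (crit d U θ) j n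

theorem Rt_eq (hd : 0 < d) (hc : Cop d m) (hB : Both d U) (θ w : ℝ) (j : ℕ) :
    Rt d m r U θ w j = Gs.Rl θ w j := by
  unfold Rt Gs.Rl
  rw [sum_by_up (crit d U θ) j (fun n => Cond d m r U (fun i o => (i : ℝ) * θ < (o : ℝ)) j n)
    (fun o => (o : ℝ) - j * θ ≤ w)]
  apply sum_congr rfl
  intro o _
  rw [cnt_Wp hd hc, Su_crit hB, Sd_crit hB, ← Dp_Wp]
  unfold ind
  by_cases h : (o : ℝ) - j * θ ≤ w
  · rw [if_pos h, if_pos h, one_mul]; rfl
  · rw [if_neg h, if_neg h, zero_mul]

theorem Vt_eq (hd : 0 < d) (hc : Cop d m) (hB : Both d U) {θ : ℝ} (v : ℝ) (j : ℕ) :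
    Vt d m r U θ v j = Gs.Rl (1 - θ) v j := by
  unfold Vt Gs.Rl
  rw [sum_by_up (crit d U θ) j (fun n => Cond d m r U (fun i o => (o : ℝ) < (i : ℝ) * θ) j n)
    (fun o => -v ≤ (o : ℝ) - j * θ), ← sum_range_reflect]
  apply sum_congr rfl
  intro o ho
  rw [mem_range] at ho
  rw [show j + 1 - 1 - o = j - o by omega, cnt_Wp hd hc, Su_crit hB, Sd_crit hB, ← Ep_Wp, Gs.Ep_eq,
    if_pos (show j - o ≤ j by omega), show j - (j - o) = o by omega]
  have e1 : (-v ≤ ((j - o : ℕ) : ℝ) - j * θ) ↔ ((o : ℝ) - j * (1 - θ) ≤ v) := by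
    rw [Nat.cast_sub (by omega)]
    constructor <;> intro h <;> linarith
  unfold ind
  by_cases h : (o : ℝ) - j * (1 - θ) ≤ v
  · rw [if_pos h, if_pos (e1.2 h), one_mul]
    unfold Gs.b
    rw [sub_sub_cancel]
    ring
  · rw [if_neg h, if_neg (fun h2 => h (e1.1 h2)), zero_mul]

/-- the tilted sums -/
theorem fp_F (hd : 0 < d) (hc : Cop d m) {θ u : ℝ} (hθ : Sl θ) (hu : 0 ≤ u) (F : ℤ → ℝ) (K : ℕ) :
    fp d m r U θ u F 0 0 K = ind (Win θ u K) * (sd d U * ((((Np θ u K).coeff (m0 θ u K) : ℤ) : ℝ) *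
      (Su d U F ^ (m0 θ u K) * Sd d U F ^ (K - m0 θ u K)))) := by
  have hS : Surv d m r U θ u 0 ((0 : ℕ) : ℤ) := by
    intro j hj
    have : j = 0 := by omega
    subst this
    rw [up_zero]
    simp; exact hu
  have h := cnt_Np (r := r) hd hc (θ := θ) (u := u) F (j := 0) (y := 0) (by simp) hS K (m0 θ u K)
  rw [up_zero, W_zero, one_mul, Nat.cast_zero, zero_mul, add_zero, sub_zero] at h
  simp only [zero_add] at h
  rw [fp_eq hd hc hθ F (Nat.zero_le K), h]
  rfl

theorem Np_nonneg {θ u : ℝ} (k : ℕ) : ∀ o, 0 ≤ (Np θ u k).coeff o := by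
  induction k with
  | zero =>
    intro o
    rw [Np, Polynomial.coeff_one]
    split_ifs <;> norm_num
  | succ k ih =>
    intro o
    rw [Np, Gs.coeff_cut]
    split_ifs
    · rw [add_mul, one_mul, Polynomial.coeff_add]
      rcases Nat.eq_zero_or_pos o with h5 | h5
      · subst h5
        rw [Polynomial.coeff_X_mul_zero, add_zero]; exact ih 0
      · obtain ⟨p, rfl⟩ : ∃ p, o = p + 1 := ⟨o - 1, by omega⟩
        rw [Polynomial.coeff_X_mul]
        exact add_nonneg (ih _) (ih _)
    · exact le_rfl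

theorem su_ge (hB : Both d U) : 1 ≤ su d U := by
  have h := hB.up
  unfold su at h ⊢
  rw [su_one] at h ⊢
  have : 0 < ((range d).filter fun j : ℕ => U (j : ℤ)).card := by exact_mod_cast h
  exact_mod_cast this

theorem sd_ge (hB : Both d U) : 1 ≤ sd d U := by
  have h := hB.dn
  unfold sd at h ⊢
  rw [sd_one] at h ⊢
  have : 0 < ((range d).filter fun j : ℕ => ¬ U (j : ℤ)).card := by exact_mod_cast h
  exact_mod_cast this

/-- the tilt -/
noncomputable def Fl (l : ℝ) (i : ℤ) (j : ℤ) : ℝ := if j = i then Real.exp l else 1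

theorem W_Fl (l : ℝ) (i : ℤ) (K : ℕ) (x : ℤ) :
    W d m r (Fl l i) K x = Real.exp (l * up d m r (fun j => j = i) K x) := by
  rw [up_split (U := fun j => j = i) (Fl l i) (Real.exp l) 1 (fun j h => by unfold Fl; rw [if_pos h])
    (fun j h => by unfold Fl; rw [if_neg h]), one_pow, mul_one, ← Real.exp_nat_mul, mul_comm]

theorem Su_Fl (l : ℝ) {i : ℕ} (hi : i < d) : Su d U (Fl l i) = su d U + (if U (i : ℤ) then Real.exp l - 1 else 0) := by
  unfold su Su
  rw [← sum_erase_add (range d) _ (mem_range.2 hi), ← sum_erase_add (range d) _ (mem_range.2 hi)]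
  have e : ∑ x ∈ (range d).erase i, (if U (x : ℤ) then Fl l i x else 0) =
      ∑ x ∈ (range d).erase i, (if U (x : ℤ) then (1 : ℝ) else 0) := by
    apply sum_congr rfl
    intro x hx
    have : (x : ℤ) ≠ (i : ℤ) := by
      have := ne_of_mem_erase hx
      exact_mod_cast this
    unfold Fl
    rw [if_neg this]
  rw [e]
  unfold Fl
  rw [if_pos rfl]
  by_cases h : U (i : ℤ)
  · simp only [if_pos h]; ring
  · simp only [if_neg h]; ring

theorem Sd_Fl (l : ℝ) {i : ℕ} (hi : i < d) : Sd d U (Fl l i) = sd d U + (if U (i : ℤ) then 0 else Real.exp l - 1) := by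
  unfold sd Sd
  rw [← sum_erase_add (range d) _ (mem_range.2 hi), ← sum_erase_add (range d) _ (mem_range.2 hi)]
  have e : ∑ x ∈ (range d).erase i, (if U (x : ℤ) then 0 else Fl l i x) =
      ∑ x ∈ (range d).erase i, (if U (x : ℤ) then (0 : ℝ) else 1) := by
    apply sum_congr rfl
    intro x hx
    have : (x : ℤ) ≠ (i : ℤ) := by
      have := ne_of_mem_erase hx
      exact_mod_cast this
    unfold Fl
    rw [if_neg this]
  rw [e]
  unfold Fl
  rw [if_pos rfl]
  by_cases h : U (i : ℤ)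
  · simp only [if_pos h]; ring
  · simp only [if_neg h]; ring

/-- the exponential moment -/
theorem fp_Fl (hd : 0 < d) (hc : Cop d m) (hB : Both d U) {θ u : ℝ} (hθ : Sl θ) (hu : 0 ≤ u) {i : ℕ} (hi : i < d)
    {l : ℝ} (hl : |l| ≤ 1) (K : ℕ) :
    fp d m r U θ u (Fl l i) 0 0 K ≤ fp d m r U θ u (fun _ => 1) 0 0 K *
      Real.exp (K * crit d U θ i * (l + l ^ 2) + 2 * (u + 1)) := by
  have h1 := hB.up
  have h2 := hB.dn
  have g1 := su_ge hB
  have g2 := sd_ge hB
  obtain ⟨b1, b2⟩ := m0_range trivial hθ hu K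
  have hx : Real.exp l - 1 ≤ l + l ^ 2 := by
    have := (abs_le.1 (Real.abs_exp_sub_one_sub_id_le hl)).2
    linarith
  have hx2 : |Real.exp l - 1| ≤ 2 := by
    have h3 := Real.abs_exp_sub_one_sub_id_le hl
    have h4 := abs_add_le (Real.exp l - 1 - l) l
    have h5 : l ^ 2 ≤ 1 := by
      rw [← sq_abs]
      have := abs_nonneg l
      nlinarith
    have e : Real.exp l - 1 = (Real.exp l - 1 - l) + l := by ring
    rw [e]
    linarith
  set x := Real.exp l - 1 with hxd
  have hx3 : -1 < x := by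
    have := Real.exp_pos l
    rw [hxd]; linarith
  rw [fp_F hd hc hθ hu, fp_F hd hc hθ hu, Su_Fl l hi, Sd_Fl l hi]
  have e6 : Su d U (fun _ => 1) = su d U := rfl
  have e7 : Sd d U (fun _ => 1) = sd d U := rfl
  rw [e6, e7]
  rcases Nat.lt_or_ge K (m0 θ u K) with hK | hK
  · rw [Np_zero hK]; simp
  have hN : (0 : ℝ) ≤ (((Np θ u K).coeff (m0 θ u K) : ℤ) : ℝ) := by exact_mod_cast Np_nonneg K _
  have hw := ind_nonneg (Win θ u K)
  set M := m0 θ u K with hM
  -- the comparison of the powers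
  have hcmp : ∀ (s : ℝ) (n : ℕ) (c : ℝ), 1 ≤ s → |(n : ℝ) - K * (c * s)| ≤ u + 1 →
      (s + x) ^ n ≤ s ^ n * Real.exp (K * c * (l + l ^ 2) + 2 * (u + 1)) ∨ c < 0 := by
    intro s n c hs hn
    rcases lt_or_ge c 0 with hc | hc
    · exact Or.inr hc
    left
    have e1 : s + x = s * (1 + x / s) := by field_simp
    have e2 : 0 ≤ 1 + x / s := by
      rw [show 1 + x / s = (s + x) / s by field_simp]
      apply div_nonneg <;> linarith
    rw [e1, mul_pow]
    apply mul_le_mul_of_nonneg_left _ (by positivity)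
    calc (1 + x / s) ^ n ≤ Real.exp (x / s) ^ n := by
          apply pow_le_pow_left₀ e2
          have := Real.add_one_le_exp (x / s)
          linarith
      _ = Real.exp (n * (x / s)) := by rw [← Real.exp_nat_mul]
      _ ≤ _ := by
          apply Real.exp_le_exp.2
          have e3 : (n : ℝ) * (x / s) = K * c * x + (n - K * (c * s)) * (x / s) := by field_simp; ring
          rw [e3]
          have e4 : (n - K * (c * s)) * (x / s) ≤ (u + 1) * 2 := by
            refine (le_abs_self _).trans ?_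
            rw [abs_mul]
            apply mul_le_mul hn _ (abs_nonneg _) (by linarith)
            rw [abs_div, abs_of_pos (show (0 : ℝ) < s by linarith), div_le_iff₀ (by linarith)]
            nlinarith
          have e5 : K * c * x ≤ K * c * (l + l ^ 2) := mul_le_mul_of_nonneg_left hx (by positivity)
          linarith
  by_cases hU : U (i : ℤ)
  · simp only [if_pos hU, add_zero]
    have hcr : crit d U θ i = θ / su d U := by unfold crit; rw [if_pos hU]
    have h3 := hcmp (su d U) M (crit d U θ i) g1 (by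
      rw [hcr, div_mul_cancel₀ _ h1.ne', abs_le]
      constructor <;> linarith)
    rcases h3 with h3 | h3
    · calc _ ≤ ind (Win θ u K) * (sd d U * ((((Np θ u K).coeff M : ℤ) : ℝ) *
          ((su d U ^ M * Real.exp (K * crit d U θ i * (l + l ^ 2) + 2 * (u + 1))) * sd d U ^ (K - M)))) := by
            apply mul_le_mul_of_nonneg_left _ hw
            apply mul_le_mul_of_nonneg_left _ h2.le
            apply mul_le_mul_of_nonneg_left _ hN
            exact mul_le_mul_of_nonneg_right h3 (by positivity)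
        _ = _ := by ring
    · exfalso
      rw [hcr] at h3
      have : 0 < θ / su d U := div_pos hθ.pos h1
      linarith
  · simp only [if_neg hU, add_zero]
    have hcr : crit d U θ i = (1 - θ) / sd d U := by unfold crit; rw [if_neg hU]
    have h3 := hcmp (sd d U) (K - M) (crit d U θ i) g2 (by
      rw [hcr, div_mul_cancel₀ _ h2.ne', Nat.cast_sub hK, abs_le]
      constructor <;> linarith)
    rcases h3 with h3 | h3
    · calc _ ≤ ind (Win θ u K) * (sd d U * ((((Np θ u K).coeff M : ℤ) : ℝ) *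
          (su d U ^ M * (sd d U ^ (K - M) * Real.exp (K * crit d U θ i * (l + l ^ 2) + 2 * (u + 1)))))) := by
            apply mul_le_mul_of_nonneg_left _ hw
            apply mul_le_mul_of_nonneg_left _ h2.le
            apply mul_le_mul_of_nonneg_left _ hN
            exact mul_le_mul_of_nonneg_left h3 (by positivity)
        _ = _ := by ring
    · exfalso
      rw [hcr] at h3
      have : 0 < (1 - θ) / sd d U := div_pos (by linarith [hθ.lt]) h2
      linarith

theorem crit_le (hB : Both d U) {θ : ℝ} (hθ : Sl θ) (i : ℤ) : 0 < crit d U θ i ∧ crit d U θ i ≤ 1 := by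
  have h1 := hB.up
  have h2 := hB.dn
  have g1 := su_ge hB
  have g2 := sd_ge hB
  have h3 := hθ.pos
  have h4 := hθ.lt
  unfold crit
  split_ifs
  · refine ⟨by positivity, ?_⟩
    rw [div_le_one h1]; linarith
  · refine ⟨div_pos (by linarith) h2, ?_⟩
    rw [div_le_one h2]; linarith

/-- THE FREQUENCIES OF THE CLASSES GIVEN THE FIRST PASSAGE TIME -/
theorem freq (hd : 0 < d) (hc : Cop d m) (hB : Both d U) {θ u : ℝ} (hθ : Sl θ) (hu : 0 ≤ u) {i : ℕ} (hi : i < d)
    {ε : ℝ} (hε : 0 < ε) : ∃ C c : ℝ, 0 < C ∧ 0 < c ∧ ∀ K : ℕ,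
    ∑ n ∈ range (d ^ (K + 1)), ind ((Surv d m r U θ u K n ∧ ¬ Surv d m r U θ u (K + 1) n) ∧
      ε * K < |(up d m r (fun j => j = (i : ℤ)) K n : ℝ) - crit d U θ i * K|) ≤
    C * Real.exp (-(c * K)) * fp d m r U θ u (fun _ => 1) 0 0 K := by
  set l : ℝ := min (ε / 2) (1 / 2) with hl
  have hl0 : 0 < l := lt_min (by linarith) (by norm_num)
  have hl1 : l ≤ 1 / 2 := min_le_right _ _
  have hlε : l ≤ ε / 2 := min_le_left _ _
  obtain ⟨hcr0, hcr1⟩ := crit_le hB hθ (i : ℤ)
  refine ⟨2 * Real.exp (2 * (u + 1)), l ^ 2, by positivity, by positivity, ?_⟩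
  intro K
  set cr := crit d U θ i with hcr
  set v : ℕ → ℝ := fun n => (up d m r (fun j => j = (i : ℤ)) K n : ℝ) with hv
  have hK0 : (0 : ℝ) ≤ K := Nat.cast_nonneg K
  -- the pointwise bound
  have hpt : ∀ n : ℕ, ind ((Surv d m r U θ u K n ∧ ¬ Surv d m r U θ u (K + 1) n) ∧ ε * K < |v n - cr * K|) ≤
      Real.exp (-(l * (cr + ε) * K)) * (ind (n % d ^ 0 = 0 ∧ Surv d m r U θ u K n ∧ ¬ Surv d m r U θ u (K + 1) n) *
        W d m r (Fl l i) K n) +
      Real.exp (l * (cr - ε) * K) * (ind (n % d ^ 0 = 0 ∧ Surv d m r U θ u K n ∧ ¬ Surv d m r U θ u (K + 1) n) *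
        W d m r (Fl (-l) i) K n) := by
    intro n
    have hn0 : n % d ^ 0 = 0 := by rw [pow_zero, Nat.mod_one]
    by_cases h0 : Surv d m r U θ u K n ∧ ¬ Surv d m r U θ u (K + 1) n
    swap
    · rw [ind_neg (fun h => h0 h.1), ind_neg (fun h => h0 h.2)]; simp
    rw [ind_pos (p := n % d ^ 0 = 0 ∧ Surv d m r U θ u K n ∧ ¬ Surv d m r U θ u (K + 1) n) ⟨hn0, h0⟩, one_mul, one_mul,
      W_Fl, W_Fl, ← Real.exp_add, ← Real.exp_add]
    by_cases h1 : ε * K < |v n - cr * K|
    swap
    · rw [ind_neg (fun h => h1 h.2)]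
      positivity
    rw [ind_pos ⟨h0, h1⟩]
    rcases lt_or_ge (v n - cr * K) 0 with h2 | h2
    · rw [abs_of_neg h2] at h1
      have h3 : 1 ≤ Real.exp (l * (cr - ε) * K + -l * v n) := by
        apply Real.one_le_exp
        have : l * (cr - ε) * K + -l * v n = l * (-(v n - cr * K) - ε * K) := by ring
        rw [this]
        exact mul_nonneg hl0.le (by linarith)
      have := Real.exp_pos (-(l * (cr + ε) * K) + l * v n)
      simp only [hv] at h3 this ⊢
      linarith
    · rw [abs_of_nonneg h2] at h1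
      have h3 : 1 ≤ Real.exp (-(l * (cr + ε) * K) + l * v n) := by
        apply Real.one_le_exp
        have : -(l * (cr + ε) * K) + l * v n = l * ((v n - cr * K) - ε * K) := by ring
        rw [this]
        exact mul_nonneg hl0.le (by linarith)
      have := Real.exp_pos (l * (cr - ε) * K + -l * v n)
      simp only [hv] at h3 this ⊢
      linarith
  refine (sum_le_sum fun n _ => hpt n).trans ?_
  rw [sum_add_distrib, ← mul_sum, ← mul_sum]
  have a1 := fp_Fl (r := r) hd hc hB hθ hu hi (l := l) (by rw [abs_of_pos hl0]; linarith) K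
  have a2 := fp_Fl (r := r) hd hc hB hθ hu hi (l := -l) (by rw [abs_neg, abs_of_pos hl0]; linarith) K
  have hfp := fp_nonneg (d := d) (m := m) (r := r) (U := U) (θ := θ) (u := u) 0 0 K
  set B := fp d m r U θ u (fun _ => 1) 0 0 K with hB'
  have e1 : Real.exp (-(l * (cr + ε) * K)) * fp d m r U θ u (Fl l i) 0 0 K ≤
      Real.exp (2 * (u + 1)) * Real.exp (-(l ^ 2 * K)) * B := by
    calc _ ≤ Real.exp (-(l * (cr + ε) * K)) * (B * Real.exp (K * cr * (l + l ^ 2) + 2 * (u + 1))) :=
          mul_le_mul_of_nonneg_left a1 (Real.exp_pos _).le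
      _ = Real.exp (-(l * (cr + ε) * K) + (K * cr * (l + l ^ 2) + 2 * (u + 1))) * B := by
          rw [Real.exp_add (-(l * (cr + ε) * K)) (K * cr * (l + l ^ 2) + 2 * (u + 1))]; ring
      _ ≤ Real.exp (2 * (u + 1) + -(l ^ 2 * K)) * B := by
          apply mul_le_mul_of_nonneg_right _ hfp
          apply Real.exp_le_exp.2
          have e2 : -(l * (cr + ε) * K) + (K * cr * (l + l ^ 2) + 2 * (u + 1)) =
              2 * (u + 1) + K * (cr * l ^ 2 - l * ε) := by ring
          rw [e2]
          have e3 : cr * l ^ 2 - l * ε ≤ -(l ^ 2) := by nlinarith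
          have := mul_le_mul_of_nonneg_left e3 hK0
          linarith
      _ = _ := by rw [Real.exp_add]
  have e2 : Real.exp (l * (cr - ε) * K) * fp d m r U θ u (Fl (-l) i) 0 0 K ≤
      Real.exp (2 * (u + 1)) * Real.exp (-(l ^ 2 * K)) * B := by
    calc _ ≤ Real.exp (l * (cr - ε) * K) * (B * Real.exp (K * cr * (-l + (-l) ^ 2) + 2 * (u + 1))) :=
          mul_le_mul_of_nonneg_left a2 (Real.exp_pos _).le
      _ = Real.exp (l * (cr - ε) * K + (K * cr * (-l + (-l) ^ 2) + 2 * (u + 1))) * B := by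
          rw [Real.exp_add (l * (cr - ε) * K) (K * cr * (-l + (-l) ^ 2) + 2 * (u + 1))]; ring
      _ ≤ Real.exp (2 * (u + 1) + -(l ^ 2 * K)) * B := by
          apply mul_le_mul_of_nonneg_right _ hfp
          apply Real.exp_le_exp.2
          have e2 : l * (cr - ε) * K + (K * cr * (-l + (-l) ^ 2) + 2 * (u + 1)) =
              2 * (u + 1) + K * (cr * l ^ 2 - l * ε) := by ring
          rw [e2]
          have e3 : cr * l ^ 2 - l * ε ≤ -(l ^ 2) := by nlinarith
          have := mul_le_mul_of_nonneg_left e3 hK0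
          linarith
      _ = _ := by rw [Real.exp_add]
  unfold fp at e1 e2
  linarith

end Pool.Agent.H622.Tw
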