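import Mathlib
import Pool.Agent.H622.Tw5

set_option autoImplicit false

/-! Generalised Collatz maps of coprime type: late first passages. -/

namespace Pool.Agent.H622.Tw

open Finset Filter Topology
open scoped Classical
open Pool.Agent.H622.Gs (Sl Np Dp Ep m0 m0_low m0_facts bu Vf c0 local_u Vf_ge_one Vf_nonneg Vf_mono c0_pos)

variable {d : ℕ} {m r : ℤ → ℤ} {U : ℤ → Prop}

/-- the number of the residues with a late first passage -/
noncomputable def late (d : ℕ) (m r : ℤ → ℤ) (U : ℤ → Prop) (θ u : ℝ) (j y K : ℕ) : ℝ :=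
  ∑ n ∈ range (d ^ K), ind (n % d ^ j = y ∧ Surv d m r U θ u K n)

theorem late_nonneg {θ u : ℝ} (j y K : ℕ) : 0 ≤ late d m r U θ u j y K :=
  sum_nonneg fun _ _ => ind_nonneg _

theorem late_le {θ u : ℝ} (j y K : ℕ) : late d m r U θ u j y K ≤ late d m r U θ u 0 0 K := by
  unfold late
  apply sum_le_sum
  intro n _
  by_cases h : n % d ^ j = y ∧ Surv d m r U θ u K n
  · rw [ind_pos h, ind_pos ⟨by rw [pow_zero, Nat.mod_one], h.2⟩]
  · rw [ind_neg h]; exact ind_nonneg _

theorem su_add_sd : su d U + sd d U = d := by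
  unfold su sd Su Sd
  rw [← sum_add_distrib]
  have : ∀ j ∈ range d, ((if U (j : ℤ) then (1 : ℝ) else 0) + if U (j : ℤ) then 0 else 1) = 1 := by
    intro j _
    split_ifs <;> norm_num
  rw [sum_congr rfl this]
  simp

theorem late_succ (hd : 0 < d) (hc : Cop d m) {θ u : ℝ} {j y K : ℕ} (hjK : j ≤ K) :
    d * late d m r U θ u j y K = late d m r U θ u j y (K + 1) + fp d m r U θ u (fun _ => 1) j y K := by
  have h1 := sum_prod (r := r) hd hc K (fun n => ind (n % d ^ j = y ∧ Surv d m r U θ u K n)) (fun x i => by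
      show ind _ = ind _
      rw [cast_block, Surv_add hd, mod_block hjK])
    (fun _ => 1)
  rw [sum_const, card_range, nsmul_eq_mul, mul_one] at h1
  unfold late fp
  rw [mul_comm, ← h1, ← sum_add_distrib]
  apply sum_congr rfl
  intro n _
  rw [W_one, mul_one, mul_one]
  by_cases h0 : n % d ^ j = y ∧ Surv d m r U θ u K n
  swap
  · rw [ind_neg h0, ind_neg (p := n % d ^ j = y ∧ Surv d m r U θ u (K + 1) n), ind_neg, add_zero]
    · exact fun h => h0 ⟨h.1, h.2.1⟩
    · exact fun h => h0 ⟨h.1, ((Surv_succ K _).1 h.2).1⟩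
  rw [ind_pos h0]
  by_cases h1 : Surv d m r U θ u (K + 1) n
  · rw [ind_pos (show n % d ^ j = y ∧ Surv d m r U θ u (K + 1) n from ⟨h0.1, h1⟩),
      ind_neg (fun h => h.2.2 h1), add_zero]
  · rw [ind_neg (fun h : n % d ^ j = y ∧ Surv d m r U θ u (K + 1) n => h1 h.2),
      ind_pos ⟨h0.1, h0.2, h1⟩, zero_add]

/-- Gibbs' inequality -/
theorem Hh_le (hd : 0 < d) (hB : Both d U) {θ : ℝ} (hθ : Sl θ) : Hh d U θ ≤ Real.log d := by
  have h1 := hB.up
  have h2 := hB.dn
  have h3 := hθ.pos
  have h4 : 0 < 1 - θ := by linarith [hθ.lt]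
  have h5 : su d U + sd d U = d := su_add_sd
  have hd' : (0 : ℝ) < d := by exact_mod_cast hd
  have a1 := Real.log_le_sub_one_of_pos (show 0 < su d U / (θ * d) by positivity)
  have a2 := Real.log_le_sub_one_of_pos (show 0 < sd d U / ((1 - θ) * d) by positivity)
  rw [Real.log_div h1.ne' (by positivity), Real.log_mul h3.ne' hd'.ne'] at a1
  rw [Real.log_div h2.ne' (by positivity), Real.log_mul h4.ne' hd'.ne'] at a2
  have b1 := mul_le_mul_of_nonneg_left a1 h3.le
  have b2 := mul_le_mul_of_nonneg_left a2 h4.le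
  have e1 : θ * (su d U / (θ * d) - 1) + (1 - θ) * (sd d U / ((1 - θ) * d) - 1) = 0 := by
    have : θ * (su d U / (θ * d) - 1) + (1 - θ) * (sd d U / ((1 - θ) * d) - 1) = (su d U + sd d U) / d - 1 := by
      field_simp
      ring
    rw [this, h5, div_self hd'.ne', sub_self]
  unfold Hh
  nlinarith

theorem late_weight (hd : 0 < d) (hc : Cop d m) (hB : Both d U) {θ u : ℝ} (hθ : Sl θ) (hu : 0 ≤ u) (K : ℕ) :
    late d m r U θ u 0 0 K * Real.exp (-(K * Hh d U θ)) =
      ∑ o ∈ range (K + 1), bu θ u K o * qq d U θ ^ ((o : ℝ) - K * θ) := by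
  have hS : Surv d m r U θ u 0 ((0 : ℕ) : ℤ) := by
    intro j hj
    have : j = 0 := by omega
    subst this
    rw [up_zero]
    simp; exact hu
  have h1 : late d m r U θ u 0 0 K = ∑ o ∈ range (K + 1),
      cnt d m r U (fun _ => 1) K (fun n => n % d ^ 0 = 0 ∧ Surv d m r U θ u K n) o := by
    unfold late cnt
    rw [sum_comm]
    apply sum_congr rfl
    intro n _
    rw [sum_eq_single (up d m r U K n)]
    · rw [W_one, mul_one]
      apply ind_congr
      constructor
      · rintro ⟨a, b⟩; exact ⟨⟨a, b⟩, rfl⟩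
      · rintro ⟨⟨a, b⟩, -⟩; exact ⟨a, b⟩
    · intro o _ ho
      rw [ind_neg (fun h => ho h.2.symm), zero_mul]
    · intro h
      have := up_le (d := d) (m := m) (r := r) (U := U) K (n : ℤ)
      exact absurd (mem_range.2 (by omega)) h
  rw [h1, sum_mul]
  apply sum_congr rfl
  intro o ho
  rw [mem_range] at ho
  have h := cnt_Np (r := r) hd hc (θ := θ) (u := u) (fun _ => 1) (j := 0) (y := 0) (by simp) hS K o
  rw [up_zero, W_zero, one_mul, Nat.cast_zero, zero_mul, add_zero, sub_zero] at h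
  simp only [zero_add] at h
  rw [h, mul_assoc, show Su d U (fun _ => 1) = su d U from rfl, show Sd d U (fun _ => 1) = sd d U from rfl,
    expH hB hθ (by omega)]
  unfold bu
  ring

theorem late_bound (hd : 0 < d) (hc : Cop d m) (hB : Both d U) {θ u : ℝ} (hθ : Sl θ) (hu : 0 ≤ u)
    (hq : qq d U θ < 1) : ∃ C : ℝ, 0 < C ∧ ∀ K : ℕ,
    K * Real.sqrt K * (late d m r U θ u 0 0 K * Real.exp (-(K * Hh d U θ))) ≤ C := by
  have hq0 := qq_pos hB hθ
  set q := qq d U θ with hqd
  have hs : 0 < Real.sqrt q := Real.sqrt_pos.2 hq0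
  have hs1 : Real.sqrt q < 1 := by rw [Real.sqrt_lt' (by norm_num)]; linarith
  have hqs : q / Real.sqrt q = Real.sqrt q := Real.div_sqrt
  obtain ⟨C, hC, h⟩ := Gs.bu_bound hθ hu hs hs1
  have hqu : 0 < q ^ (-u) := Real.rpow_pos_of_pos hq0 _
  refine ⟨q ^ (-u) * (C * (1 - Real.sqrt q)⁻¹), by
    have : 0 < (1 - Real.sqrt q)⁻¹ := inv_pos.2 (by linarith)
    positivity, ?_⟩
  intro K
  rw [late_weight hd hc hB hθ hu, mul_sum]
  set f : ℕ → ℝ := fun o => K * Real.sqrt K * (bu θ u K o * q ^ ((o : ℝ) - K * θ)) with hf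
  have hf0 : ∀ o, 0 ≤ f o := by
    intro o
    have := Gs.bu_nonneg hθ hu K o
    simp only [hf]
    positivity
  have h1 : ∑ o ∈ range (K + 1), f o ≤ ∑ o ∈ range (m0 θ u K + (K + 1)), f o :=
    sum_le_sum_of_subset_of_nonneg (range_subset_range.2 (by omega)) fun o _ _ => hf0 o
  refine h1.trans ?_
  rw [sum_range_add, sum_eq_zero, zero_add]
  · have h2 : ∀ i ∈ range (K + 1), f (m0 θ u K + i) ≤ q ^ (-u) * (C * Real.sqrt q ^ i) := by
      intro i _
      set o := m0 θ u K + i with ho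
      have hih : (i : ℝ) ≤ u + (o : ℝ) - K * θ := (m0_facts hθ hu K i).1
      have hb := h K o
      have e1 : q ^ ((o : ℝ) - K * θ) = q ^ (-u) * q ^ (u + (o : ℝ) - K * θ) := by
        rw [← Real.rpow_add hq0]; congr 1; ring
      have hqh : 0 < q ^ (u + (o : ℝ) - K * θ) := Real.rpow_pos_of_pos hq0 _
      simp only [hf]
      rw [e1]
      calc (K : ℝ) * Real.sqrt K * (bu θ u K o * (q ^ (-u) * q ^ (u + (o : ℝ) - K * θ)))
          = q ^ (-u) * ((K * Real.sqrt K * bu θ u K o) * q ^ (u + (o : ℝ) - K * θ)) := by ring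
        _ ≤ q ^ (-u) * ((C * Real.sqrt q ^ (-(u + (o : ℝ) - K * θ))) * q ^ (u + (o : ℝ) - K * θ)) := by
            apply mul_le_mul_of_nonneg_left _ hqu.le
            exact mul_le_mul_of_nonneg_right hb hqh.le
        _ = q ^ (-u) * (C * (q / Real.sqrt q) ^ (u + (o : ℝ) - K * θ)) := by
            rw [Real.div_rpow hq0.le hs.le, div_eq_mul_inv, ← Real.rpow_neg hs.le]; ring
        _ ≤ _ := by
            rw [hqs]
            apply mul_le_mul_of_nonneg_left _ hqu.le
            apply mul_le_mul_of_nonneg_left _ hC.le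
            rw [← Real.rpow_natCast (Real.sqrt q) i]
            exact Real.rpow_le_rpow_of_exponent_ge hs hs1.le hih
    refine (sum_le_sum h2).trans ?_
    rw [← mul_sum, ← mul_sum]
    apply mul_le_mul_of_nonneg_left _ hqu.le
    apply mul_le_mul_of_nonneg_left _ hC.le
    have := (summable_geometric_of_lt_one hs.le hs1).sum_le_tsum (range (K + 1)) (fun i _ => by positivity)
    rwa [tsum_geometric_of_lt_one hs.le hs1] at this
  · intro o ho
    simp only [hf]
    rw [Gs.bu_low hθ hu (m0_low (mem_range.1 ho))]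
    ring

theorem late_zero (hd : 0 < d) (hc : Cop d m) (hB : Both d U) {θ u : ℝ} (hθ : Sl θ) (hu : 0 ≤ u)
    (hq : qq d U θ < 1) : Tendsto (fun K : ℕ => late d m r U θ u 0 0 K / d ^ K) atTop (𝓝 0) := by
  obtain ⟨C, hC, h⟩ := late_bound (r := r) hd hc hB hθ hu hq
  have hd' : (0 : ℝ) < d := by exact_mod_cast hd
  have h1 : Tendsto (fun K : ℕ => C * ((K : ℝ))⁻¹) atTop (𝓝 0) := by
    have := (tendsto_inv_atTop_zero.comp (tendsto_natCast_atTop_atTop (R := ℝ))).const_mul C
    rw [mul_zero] at this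
    exact this
  apply squeeze_zero' (Eventually.of_forall fun K => div_nonneg (late_nonneg 0 0 K) (by positivity)) _ h1
  filter_upwards [eventually_ge_atTop 1] with K hK
  have hK' : (1 : ℝ) ≤ K := by exact_mod_cast hK
  have hb := h K
  have e1 : Real.exp (K * Hh d U θ) ≤ d ^ K := by
    rw [← Real.rpow_natCast, Real.rpow_def_of_pos hd', mul_comm (Real.log d)]
    apply Real.exp_le_exp.2
    exact mul_le_mul_of_nonneg_left (Hh_le hd hB hθ) (Nat.cast_nonneg _)
  have hl := late_nonneg (d := d) (m := m) (r := r) (U := U) (θ := θ) (u := u) 0 0 K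
  rw [Real.exp_neg] at hb
  have hE := Real.exp_pos (K * Hh d U θ)
  have hsq : 1 ≤ Real.sqrt K := by rw [Real.one_le_sqrt]; exact hK'
  calc late d m r U θ u 0 0 K / d ^ K ≤ late d m r U θ u 0 0 K / Real.exp (K * Hh d U θ) :=
        div_le_div_of_nonneg_left hl hE e1
    _ = late d m r U θ u 0 0 K * (Real.exp (K * Hh d U θ))⁻¹ := by rw [div_eq_mul_inv]
    _ ≤ C * ((K : ℝ))⁻¹ := by
        rw [← div_eq_mul_inv C, le_div_iff₀ (by linarith)]
        refine le_trans ?_ hb
        have h3 : 0 ≤ late d m r U θ u 0 0 K * (Real.exp (K * Hh d U θ))⁻¹ := by positivity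
        have h4 : (K : ℝ) ≤ K * Real.sqrt K := by nlinarith
        rw [mul_comm]
        exact mul_le_mul_of_nonneg_right h4 h3

/-- THE LIMIT LAW, for the late first passage times -/
theorem law_late (hd : 0 < d) (hc : Cop d m) (hB : Both d U) {θ u : ℝ} (hθ : Sl θ) (hu : 0 ≤ u)
    (hq : qq d U θ < 1) {j y : ℕ} (hy : y < d ^ j) {ε : ℝ} (hε : 0 < ε) : ∃ K0 : ℕ, ∀ K, K0 ≤ K →
    |late d m r U θ u j y K - mass d m r U θ u j y * late d m r U θ u 0 0 K| ≤ ε * late d m r U θ u 0 0 K := by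
  obtain ⟨K1, hK1⟩ := law (r := r) hd hc hB hθ hu hy hε
  refine ⟨max K1 j, ?_⟩
  intro K hK
  have hKK1 : K1 ≤ K := (le_max_left _ _).trans hK
  have hjK : j ≤ K := (le_max_right _ _).trans hK
  have hd' : (0 : ℝ) < d := by exact_mod_cast hd
  set mu := mass d m r U θ u j y with hmu
  set L1 : ℕ → ℝ := fun i => late d m r U θ u j y i / d ^ i with hL1
  set L0 : ℕ → ℝ := fun i => late d m r U θ u 0 0 i / d ^ i with hL0
  have hz0 : Tendsto L0 atTop (𝓝 0) := late_zero hd hc hB hθ hu hq
  have hz1 : Tendsto L1 atTop (𝓝 0) := by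
    apply squeeze_zero (fun i => div_nonneg (late_nonneg j y i) (by positivity)) _ hz0
    intro i
    exact div_le_div_of_nonneg_right (late_le j y i) (by positivity)
  -- the telescoping bound
  have hstep : ∀ i, j ≤ i → L1 i - L1 (i + 1) = fp d m r U θ u (fun _ => 1) j y i / d ^ (i + 1) := by
    intro i hi
    have := late_succ (m := m) (r := r) (U := U) (θ := θ) (u := u) (y := y) hd hc hi
    simp only [hL1]
    rw [pow_succ]
    field_simp
    linarith
  have hstep0 : ∀ i, L0 i - L0 (i + 1) = fp d m r U θ u (fun _ => 1) 0 0 i / d ^ (i + 1) := by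
    intro i
    have := late_succ (m := m) (r := r) (U := U) (θ := θ) (u := u) (y := 0) hd hc (Nat.zero_le i)
    simp only [hL0]
    rw [pow_succ]
    field_simp
    linarith
  have htel : ∀ n, |(L1 K - L1 (K + n)) - mu * (L0 K - L0 (K + n))| ≤ ε * (L0 K - L0 (K + n)) := by
    intro n
    induction n with
    | zero => simp
    | succ n ih =>
      have a1 := hstep (K + n) (by omega)
      have a2 := hstep0 (K + n)
      have a3 := hK1 (K + n) (by omega)
      rw [← add_assoc]
      have hdp : (0 : ℝ) < d ^ (K + n + 1) := by positivity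
      have e1 : (L1 K - L1 (K + n + 1)) - mu * (L0 K - L0 (K + n + 1)) =
          ((L1 K - L1 (K + n)) - mu * (L0 K - L0 (K + n))) +
          (fp d m r U θ u (fun _ => 1) j y (K + n) - mu * fp d m r U θ u (fun _ => 1) 0 0 (K + n)) /
            d ^ (K + n + 1) := by
        rw [sub_div, mul_div_assoc, ← a1, ← a2]
        ring
      rw [e1]
      refine (abs_add_le _ _).trans ?_
      rw [abs_div, abs_of_pos hdp]
      have e2 : ε * (L0 K - L0 (K + n + 1)) = ε * (L0 K - L0 (K + n)) +
          ε * fp d m r U θ u (fun _ => 1) 0 0 (K + n) / d ^ (K + n + 1) := by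
        rw [mul_div_assoc, ← a2]; ring
      rw [e2]
      exact add_le_add ih (div_le_div_of_nonneg_right a3 hdp.le)
  have hlim : |(L1 K - 0) - mu * (L0 K - 0)| ≤ ε * (L0 K - 0) := by
    have b1 : Tendsto (fun n => L1 (K + n)) atTop (𝓝 0) := by
      have := (tendsto_add_atTop_iff_nat K).2 hz1
      refine this.congr fun n => by rw [add_comm]
    have b0 : Tendsto (fun n => L0 (K + n)) atTop (𝓝 0) := by
      have := (tendsto_add_atTop_iff_nat K).2 hz0
      refine this.congr fun n => by rw [add_comm]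
    have c1 := ((b1.const_sub (L1 K)).sub ((b0.const_sub (L0 K)).const_mul mu)).abs
    have c2 := (b0.const_sub (L0 K)).const_mul ε
    exact le_of_tendsto_of_tendsto' c1 c2 htel
  rw [sub_zero, sub_zero] at hlim
  have hdK : (0 : ℝ) < d ^ K := by positivity
  have e1 : L1 K - mu * L0 K = (late d m r U θ u j y K - mu * late d m r U θ u 0 0 K) / d ^ K := by
    simp only [hL1, hL0]
    rw [sub_div, mul_div_assoc]
  rw [e1, abs_div, abs_of_pos hdK] at hlim
  have e2 : ε * L0 K = (ε * late d m r U θ u 0 0 K) / d ^ K := by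
    simp only [hL0]
    rw [mul_div_assoc]
  rw [e2] at hlim
  exact (div_le_div_iff_of_pos_right hdK).1 hlim

end Pool.Agent.H622.Tw
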