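import Mathlib
import Pool.Agent.H622.Tw6

set_option autoImplicit false

/-! Generalised Collatz maps of coprime type: the integers. -/

namespace Pool.Agent.H622.Tw

open Finset Filter Topology
open scoped Classical

variable {d : ℕ} {m r : ℤ → ℤ} {U : ℤ → Prop}

/-- natural density on both sides -/
def HasDensity (S : Set ℤ) (δ : ℝ) : Prop := ∀ s : ℤ, (s = 1 ∨ s = -1) →
  Tendsto (fun N : ℕ => (((Icc 1 N).filter fun n : ℕ => s * (n : ℤ) ∈ S).card : ℝ) / N) atTop (𝓝 δ)

theorem card_per {M : ℕ} (hM : 0 < M) (Q : ℕ → Prop) (hQ : ∀ x c, Q (x + M * c) ↔ Q x) (N : ℕ) :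
    |(((range N).filter Q).card : ℝ) - N / M * (((range M).filter Q).card : ℝ)| ≤ M := by
  have key : ∀ a, ((range (M * a)).filter Q).card = a * ((range M).filter Q).card := by
    intro a
    induction a with
    | zero => simp
    | succ a ih =>
      rw [card_filter, Nat.mul_succ, sum_range_add, ← card_filter, ih, card_filter, Nat.succ_mul]
      congr 1
      apply sum_congr rfl
      intro x _
      have h := hQ x a
      rw [add_comm x] at h
      by_cases h2 : Q x
      · rw [if_pos (h.2 h2), if_pos h2]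
      · rw [if_neg (fun h3 => h2 (h.1 h3)), if_neg h2]
  have hMR : (0 : ℝ) < M := by exact_mod_cast hM
  have hdm := Nat.div_add_mod N M
  have hml := Nat.mod_lt N hM
  set a := N / M with ha
  have h1 : ((range (M * a)).filter Q).card ≤ ((range N).filter Q).card :=
    card_le_card (filter_subset_filter _ (range_subset_range.2 (by omega)))
  have h2 : ((range N).filter Q).card ≤ ((range (M * (a + 1))).filter Q).card :=
    card_le_card (filter_subset_filter _ (range_subset_range.2 (by rw [mul_add, mul_one]; omega)))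
  rw [key] at h1 h2
  set c := ((range M).filter Q).card with hc
  have hcM : (c : ℝ) ≤ M := by
    have : c ≤ M := (card_filter_le _ _).trans (by rw [card_range])
    exact_mod_cast this
  have hc0 : (0 : ℝ) ≤ c := Nat.cast_nonneg _
  have h1' : (a : ℝ) * c ≤ (((range N).filter Q).card : ℝ) := by exact_mod_cast h1
  have h2' : (((range N).filter Q).card : ℝ) ≤ ((a : ℝ) + 1) * c := by exact_mod_cast h2
  have ha1 : (a : ℝ) ≤ N / M := by
    rw [le_div_iff₀ hMR]
    have : a * M ≤ N := by rw [mul_comm]; omega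
    exact_mod_cast this
  have ha2 : (N : ℝ) / M ≤ a + 1 := by
    rw [div_le_iff₀ hMR]
    have : N ≤ (a + 1) * M := by rw [add_mul, one_mul, mul_comm a M]; omega
    exact_mod_cast this
  rw [abs_le]
  constructor
  · have := mul_le_mul_of_nonneg_right ha2 hc0
    linarith
  · have := mul_le_mul_of_nonneg_right ha1 hc0
    linarith

/-- the number of the residues modulo `M` with a property -/
noncomputable def cardP (M : ℕ) (Q : ℤ → Prop) : ℕ := ((range M).filter fun n : ℕ => Q (n : ℤ)).card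

/-- the density of a set which is periodic up to finitely many elements -/
theorem density_of {M B : ℕ} (hM : 0 < M) (Q : ℤ → Prop) (hQ : ∀ x y : ℤ, Q (x + M * y) ↔ Q x) (S : Set ℤ)
    (hS : ∀ x : ℤ, (B : ℤ) < |x| → (x ∈ S ↔ Q x)) :
    HasDensity S ((cardP M Q : ℝ) / M) := by
  unfold cardP
  have hMR : (0 : ℝ) < M := by exact_mod_cast hM
  -- the number of the residues does not depend on the side
  have hside : ∀ s : ℤ, (s = 1 ∨ s = -1) → ((range M).filter fun n : ℕ => Q (s * (n : ℤ))).card =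
      ((range M).filter fun n : ℕ => Q (n : ℤ)).card := by
    rintro s (rfl | rfl)
    · simp only [one_mul]
    · apply card_bij (fun n _ => (M - n) % M)
      · intro n hn
        rw [mem_filter, mem_range] at hn ⊢
        refine ⟨Nat.mod_lt _ hM, ?_⟩
        have h1 := hn.2
        have e : (((M - n) % M : ℕ) : ℤ) = -1 * (n : ℤ) + M * (1 - (((M - n) / M : ℕ) : ℤ)) := by
          have h2 := Nat.mod_add_div (M - n) M
          have h3 : (((M - n) % M : ℕ) : ℤ) + M * (((M - n) / M : ℕ) : ℤ) = (M : ℤ) - n := by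
            have : (((M - n) % M + M * ((M - n) / M) : ℕ) : ℤ) = ((M - n : ℕ) : ℤ) := by rw [h2]
            rw [Nat.cast_sub hn.1.le] at this
            push_cast at this ⊢
            linarith
          linarith
        rw [e, hQ]; exact h1
      · intro a ha b hb hab
        rw [mem_filter, mem_range] at ha hb
        rcases Nat.eq_zero_or_pos a with h1 | h1
        · subst h1
          rw [Nat.sub_zero, Nat.mod_self] at hab
          rcases Nat.eq_zero_or_pos b with h2 | h2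
          · exact h2.symm
          · rw [Nat.mod_eq_of_lt (by omega)] at hab; omega
        · rw [Nat.mod_eq_of_lt (show M - a < M by omega)] at hab
          rcases Nat.eq_zero_or_pos b with h2 | h2
          · subst h2
            rw [Nat.sub_zero, Nat.mod_self] at hab; omega
          · rw [Nat.mod_eq_of_lt (by omega)] at hab; omega
      · intro b hb
        rw [mem_filter, mem_range] at hb
        refine ⟨(M - b) % M, ?_, ?_⟩
        · rw [mem_filter, mem_range]
          refine ⟨Nat.mod_lt _ hM, ?_⟩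
          have h2 := Nat.mod_add_div (M - b) M
          have h3 : (((M - b) % M : ℕ) : ℤ) + M * (((M - b) / M : ℕ) : ℤ) = (M : ℤ) - b := by
            have : (((M - b) % M + M * ((M - b) / M) : ℕ) : ℤ) = ((M - b : ℕ) : ℤ) := by rw [h2]
            rw [Nat.cast_sub hb.1.le] at this
            push_cast at this ⊢
            linarith
          have e : -1 * (((M - b) % M : ℕ) : ℤ) = (b : ℤ) + M * ((((M - b) / M : ℕ) : ℤ) - 1) := by linarith
          rw [e, hQ]; exact hb.2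
        · rcases Nat.eq_zero_or_pos b with h2 | h2
          · subst h2
            rw [Nat.sub_zero, Nat.mod_self, Nat.sub_zero, Nat.mod_self]
          · rw [Nat.mod_eq_of_lt (show M - b < M by omega), Nat.mod_eq_of_lt (by omega)]; omega
  intro s hs
  rw [← hside s hs]
  set q : ℕ → Prop := fun n => Q (s * (n : ℤ)) with hq
  have hqper : ∀ x c, q (x + M * c) ↔ q x := by
    intro x c
    simp only [hq]
    have e : s * ((x + M * c : ℕ) : ℤ) = s * x + M * (s * c) := by push_cast; ring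
    rw [e, hQ]
  have habs : ∀ n : ℕ, |s * (n : ℤ)| = n := by
    intro n
    rcases hs with rfl | rfl
    · simp
    · simp
  -- the counts differ by at most `B + 1`
  have hcmp : ∀ N : ℕ, |(((Icc 1 N).filter fun n : ℕ => s * (n : ℤ) ∈ S).card : ℝ) -
      (((range (N + 1)).filter q).card : ℝ)| ≤ B + 1 := by
    intro N
    have h1 : (Icc 1 N).filter (fun n : ℕ => s * (n : ℤ) ∈ S) ⊆ (range (N + 1)).filter q ∪ range (B + 1) := by
      intro n hn
      rw [mem_filter, mem_Icc] at hn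
      rw [mem_union, mem_filter, mem_range, mem_range]
      rcases Nat.lt_or_ge B n with h | h
      · left
        refine ⟨by omega, ?_⟩
        exact (hS _ (by rw [habs]; exact_mod_cast h)).1 hn.2
      · right; omega
    have h2 : (range (N + 1)).filter q ⊆ (Icc 1 N).filter (fun n : ℕ => s * (n : ℤ) ∈ S) ∪ range (B + 1) := by
      intro n hn
      rw [mem_filter, mem_range] at hn
      rw [mem_union, mem_filter, mem_Icc, mem_range]
      rcases Nat.lt_or_ge B n with h | h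
      · left
        refine ⟨⟨by omega, by omega⟩, ?_⟩
        exact (hS _ (by rw [habs]; exact_mod_cast h)).2 hn.2
      · right; omega
    have h3 := (card_le_card h1).trans (card_union_le _ _)
    have h4 := (card_le_card h2).trans (card_union_le _ _)
    rw [card_range] at h3 h4
    have h3' : (((Icc 1 N).filter fun n : ℕ => s * (n : ℤ) ∈ S).card : ℝ) ≤
        (((range (N + 1)).filter q).card : ℝ) + (B + 1) := by exact_mod_cast h3
    have h4' : (((range (N + 1)).filter q).card : ℝ) ≤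
        (((Icc 1 N).filter fun n : ℕ => s * (n : ℤ) ∈ S).card : ℝ) + (B + 1) := by exact_mod_cast h4
    rw [abs_le]
    constructor <;> linarith
  set c : ℝ := (((range M).filter fun n : ℕ => Q (s * (n : ℤ))).card : ℝ) with hc
  have hlim : Tendsto (fun N : ℕ => ((B : ℝ) + 1 + M + c / M) * ((N : ℝ))⁻¹) atTop (𝓝 0) := by
    have := (tendsto_inv_atTop_zero.comp (tendsto_natCast_atTop_atTop (R := ℝ))).const_mul ((B : ℝ) + 1 + M + c / M)
    rw [mul_zero] at this
    exact this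
  rw [tendsto_iff_norm_sub_tendsto_zero]
  apply squeeze_zero' (Eventually.of_forall fun N => norm_nonneg _) _ hlim
  filter_upwards [eventually_gt_atTop 0] with N hN
  have hN' : (0 : ℝ) < N := by exact_mod_cast hN
  have a1 := hcmp N
  have a2 := card_per hM q hqper (N + 1)
  have hc0 : 0 ≤ c := Nat.cast_nonneg _
  set X : ℝ := (((Icc 1 N).filter fun n : ℕ => s * (n : ℤ) ∈ S).card : ℝ) with hX
  set Y : ℝ := (((range (N + 1)).filter q).card : ℝ) with hY
  have a2' : |Y - ((N : ℝ) + 1) / M * c| ≤ M := by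
    push_cast at a2
    exact a2
  have e1 : X / N - c / M = ((X - Y) + (Y - ((N : ℝ) + 1) / M * c) + c / M) * ((N : ℝ))⁻¹ := by
    field_simp
    ring
  rw [Real.norm_eq_abs, e1, abs_mul, abs_of_pos (inv_pos.2 hN')]
  apply mul_le_mul_of_nonneg_right _ (inv_pos.2 hN').le
  have a3 : |c / M| = c / M := abs_of_nonneg (by positivity)
  have a4 := abs_add_le ((X - Y) + (Y - ((N : ℝ) + 1) / M * c)) (c / M)
  have a5 := abs_add_le (X - Y) (Y - ((N : ℝ) + 1) / M * c)
  linarith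

/-- the offsets are admissible -/
def Adm (d : ℕ) (m r : ℤ → ℤ) : Prop := ∀ i : ℤ, 0 ≤ i → i < d → (d : ℤ) ∣ m i * i - r i

theorem dT (hd : 0 < d) (hA : Adm d m r) (x : ℤ) : (d : ℤ) * T d m r x = m (x % d) * x - r (x % d) := by
  unfold T
  rw [Int.mul_ediv_cancel']
  have hd' : (0 : ℤ) < d := by exact_mod_cast hd
  have h5 := hA (x % d) (Int.emod_nonneg x hd'.ne') (Int.emod_lt_of_pos x hd')
  have h6 : m (x % d) * x - r (x % d) = m (x % d) * (x % d) - r (x % d) + d * (m (x % d) * (x / d)) := by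
    have := Int.emod_add_mul_ediv x d
    linear_combination (-(m (x % d))) * this
  rw [h6]
  exact dvd_add h5 (dvd_mul_right _ _)

theorem iter_err (hd : 0 < d) (hA : Adm d m r) (j : ℕ) : ∃ C : ℤ, 0 ≤ C ∧ ∀ x : ℤ,
    |(d : ℤ) ^ j * (T d m r)^[j] x - P d m r j x * x| ≤ C := by
  have hd' : (0 : ℤ) < d := by exact_mod_cast hd
  obtain ⟨M, hM0, hM⟩ : ∃ M : ℤ, 0 ≤ M ∧ ∀ i : ℤ, 0 ≤ i → i < d → |m i| ≤ M ∧ |r i| ≤ M := by
    refine ⟨∑ i ∈ range d, (|m i| + |r i|), sum_nonneg fun i _ => by positivity, ?_⟩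
    intro i h0 h1
    obtain ⟨n, rfl⟩ := Int.eq_ofNat_of_zero_le h0
    have hn : n < d := by exact_mod_cast h1
    have h2 := single_le_sum (f := fun i : ℕ => |m i| + |r i|) (s := range d) (fun _ _ => by positivity)
      (mem_range.2 hn)
    have h3 := abs_nonneg (m (n : ℤ))
    have h4 := abs_nonneg (r (n : ℤ))
    constructor <;> linarith
  induction j with
  | zero =>
    refine ⟨0, le_rfl, fun x => ?_⟩
    simp [P_zero]
  | succ j ih =>
    obtain ⟨C, hC, h⟩ := ih
    refine ⟨M * C + (d : ℤ) ^ j * M, by positivity, fun x => ?_⟩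
    have h1 := h x
    set y := (T d m r)^[j] x with hy
    obtain ⟨h2, h3⟩ := hM (y % d) (Int.emod_nonneg y hd'.ne') (Int.emod_lt_of_pos y hd')
    have e : (d : ℤ) ^ (j + 1) * (T d m r)^[j + 1] x - P d m r (j + 1) x * x =
        m (y % d) * ((d : ℤ) ^ j * y - P d m r j x * x) - (d : ℤ) ^ j * r (y % d) := by
      rw [Function.iterate_succ_apply', ← hy, P_succ]
      have h4 := dT hd hA y
      have h5 : J d m r j x = y % d := rfl
      rw [h5, pow_succ]
      linear_combination ((d : ℤ) ^ j) * h4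
    rw [e]
    refine (abs_sub _ _).trans ?_
    rw [abs_mul, abs_mul, abs_of_pos (show (0 : ℤ) < (d : ℤ) ^ j by positivity)]
    have h6 : |m (y % d)| * |(d : ℤ) ^ j * y - P d m r j x * x| ≤ M * C :=
      mul_le_mul h2 h1 (abs_nonneg _) hM0
    have h7 : (d : ℤ) ^ j * |r (y % d)| ≤ (d : ℤ) ^ j * M := mul_le_mul_of_nonneg_left h3 (by positivity)
    linarith

/-- the products depend only on the residue -/
theorem P_mod (hd : 0 < d) (j : ℕ) (x : ℤ) : ∃ y ∈ range (d ^ j), P d m r j x = P d m r j (y : ℤ) := by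
  have hd' : (0 : ℤ) < (d : ℤ) ^ j := by positivity
  refine ⟨(x % (d : ℤ) ^ j).toNat, ?_, ?_⟩
  · rw [mem_range]
    zify
    rw [Int.toNat_of_nonneg (Int.emod_nonneg _ hd'.ne')]
    exact Int.emod_lt_of_pos _ hd'
  · rw [Int.toNat_of_nonneg (Int.emod_nonneg _ hd'.ne')]
    have e : x = x % (d : ℤ) ^ j + (d : ℤ) ^ j * (x / (d : ℤ) ^ j) := (Int.emod_add_mul_ediv _ _).symm
    conv_lhs => rw [e]
    exact (iter_add hd j _ _ j le_rfl).2

/-- one step of the comparison -/
theorem compare (hd : 0 < d) (hA : Adm d m r) {c : ℝ} (j : ℕ)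
    (hne : ∀ x : ℤ, ((|P d m r j x| : ℤ) : ℝ) ≠ c * (d : ℝ) ^ j) : ∃ B : ℕ, ∀ x : ℤ, (B : ℤ) < |x| →
    (c * ((|x| : ℤ) : ℝ) ≤ ((|(T d m r)^[j] x| : ℤ) : ℝ) ↔ c * (d : ℝ) ^ j ≤ ((|P d m r j x| : ℤ) : ℝ)) := by
  obtain ⟨C, hC, h⟩ := iter_err hd hA j
  have hdj : (0 : ℝ) < (d : ℝ) ^ j := by positivity
  obtain ⟨y0, hy0, hmin⟩ := exists_min_image (range (d ^ j)) (fun y : ℕ => |((|P d m r j y| : ℤ) : ℝ) - c * (d : ℝ) ^ j|)
    ⟨0, mem_range.2 (by positivity)⟩
  set δ : ℝ := |((|P d m r j y0| : ℤ) : ℝ) - c * (d : ℝ) ^ j| with hδ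
  have hδ0 : 0 < δ := abs_pos.2 (sub_ne_zero.2 (hne y0))
  obtain ⟨B, hB⟩ := exists_nat_gt ((C : ℝ) / δ)
  refine ⟨B, fun x hx => ?_⟩
  obtain ⟨y, hy, hPy⟩ := P_mod (m := m) (r := r) hd j x
  have h1 := hmin y hy
  rw [← hPy] at h1
  have h2 := h x
  have h2' : |(d : ℝ) ^ j * ((T d m r)^[j] x : ℤ) - (P d m r j x : ℤ) * (x : ℝ)| ≤ (C : ℝ) := by exact_mod_cast h2
  have hx' : (B : ℝ) < |(x : ℝ)| := by
    have : ((B : ℤ) : ℝ) < ((|x| : ℤ) : ℝ) := by exact_mod_cast hx
    rw [Int.cast_abs] at this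
    exact_mod_cast this
  have hCx : (C : ℝ) < δ * |(x : ℝ)| := by
    have := hB.trans hx'
    rw [div_lt_iff₀ hδ0] at this
    linarith
  rw [Int.cast_abs, Int.cast_abs, Int.cast_abs]
  rw [Int.cast_abs] at h1
  set t : ℝ := (((T d m r)^[j] x : ℤ) : ℝ) with ht
  set p : ℝ := ((P d m r j x : ℤ) : ℝ) with hp
  set X : ℝ := (x : ℝ) with hX
  have hX0 : 0 ≤ |X| := abs_nonneg X
  have e1 : |(d : ℝ) ^ j * t| = (d : ℝ) ^ j * |t| := by rw [abs_mul, abs_of_pos hdj]
  have e2 : |p * X| = |p| * |X| := abs_mul _ _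
  have h3 : |p| * |X| - C ≤ (d : ℝ) ^ j * |t| := by
    have := abs_sub_abs_le_abs_sub (p * X) ((d : ℝ) ^ j * t)
    rw [e1, e2, abs_sub_comm] at this
    linarith
  have h4 : (d : ℝ) ^ j * |t| ≤ |p| * |X| + C := by
    have := abs_sub_abs_le_abs_sub ((d : ℝ) ^ j * t) (p * X)
    rw [e1, e2] at this
    linarith
  constructor
  · intro h5
    by_contra h6
    push Not at h6
    have h7 : |p| ≤ c * (d : ℝ) ^ j - δ := by
      rw [abs_of_neg (by linarith)] at h1
      linarith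
    have h8 : |p| * |X| ≤ (c * (d : ℝ) ^ j - δ) * |X| := mul_le_mul_of_nonneg_right h7 hX0
    have h9 : (d : ℝ) ^ j * (c * |X|) ≤ (d : ℝ) ^ j * |t| := mul_le_mul_of_nonneg_left h5 hdj.le
    nlinarith
  · intro h5
    have h7 : c * (d : ℝ) ^ j + δ ≤ |p| := by
      rw [abs_of_nonneg (by linarith)] at h1
      linarith
    have h8 : (c * (d : ℝ) ^ j + δ) * |X| ≤ |p| * |X| := mul_le_mul_of_nonneg_right h7 hX0
    have h9 : (d : ℝ) ^ j * (c * |X|) ≤ (d : ℝ) ^ j * |t| := by nlinarith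
    exact le_of_mul_le_mul_left h9 hdj

/-- survival in terms of the products -/
def SurvP (d : ℕ) (m r : ℤ → ℤ) (c : ℝ) (K : ℕ) (x : ℤ) : Prop :=
  ∀ j ≤ K, c * (d : ℝ) ^ j ≤ ((|P d m r j x| : ℤ) : ℝ)

def SurvT (d : ℕ) (m r : ℤ → ℤ) (c : ℝ) (K : ℕ) (x : ℤ) : Prop :=
  ∀ j ≤ K, c * ((|x| : ℤ) : ℝ) ≤ ((|(T d m r)^[j] x| : ℤ) : ℝ)

theorem compare_all (hd : 0 < d) (hA : Adm d m r) {c : ℝ} (hc1 : c ≤ 1)
    (hne : ∀ j : ℕ, 1 ≤ j → ∀ x : ℤ, ((|P d m r j x| : ℤ) : ℝ) ≠ c * (d : ℝ) ^ j) (K : ℕ) :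
    ∃ B : ℕ, ∀ x : ℤ, (B : ℤ) < |x| → ∀ j ≤ K,
      (c * ((|x| : ℤ) : ℝ) ≤ ((|(T d m r)^[j] x| : ℤ) : ℝ) ↔ c * (d : ℝ) ^ j ≤ ((|P d m r j x| : ℤ) : ℝ)) := by
  induction K with
  | zero =>
    refine ⟨0, fun x _ j hj => ?_⟩
    have : j = 0 := by omega
    subst this
    rw [P_zero]
    simp only [Function.iterate_zero, id_eq, pow_zero, mul_one, abs_one, Int.cast_one]
    constructor
    · intro _; exact hc1
    · intro _
      have : (0 : ℝ) ≤ ((|x| : ℤ) : ℝ) := by exact_mod_cast abs_nonneg x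
      nlinarith
  | succ K ih =>
    obtain ⟨B1, h1⟩ := ih
    obtain ⟨B2, h2⟩ := compare hd hA (c := c) (K + 1) (hne (K + 1) (by omega))
    refine ⟨max B1 B2, fun x hx j hj => ?_⟩
    have hx1 : (B1 : ℤ) < |x| := lt_of_le_of_lt (by exact_mod_cast le_max_left B1 B2) hx
    have hx2 : (B2 : ℤ) < |x| := lt_of_le_of_lt (by exact_mod_cast le_max_right B1 B2) hx
    rcases Nat.lt_or_ge j (K + 1) with h | h
    · exact h1 x hx1 j (by omega)
    · have : j = K + 1 := by omega
      subst this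
      exact h2 x hx2

theorem P_add (hd : 0 < d) {j K : ℕ} (hj : j ≤ K) (x y : ℤ) : P d m r j (x + d ^ K * y) = P d m r j x :=
  (iter_add hd K x y j hj).2

/-- THE DENSITIES -/
theorem densities (hd : 0 < d) (hA : Adm d m r) {c : ℝ} (hc1 : c ≤ 1)
    (hne : ∀ j : ℕ, 1 ≤ j → ∀ x : ℤ, ((|P d m r j x| : ℤ) : ℝ) ≠ c * (d : ℝ) ^ j) (K : ℕ) (Q : ℤ → Prop)
    (hQ : ∀ x y : ℤ, Q (x + d ^ (K + 1) * y) ↔ Q x) :
    HasDensity {x | (SurvT d m r c K x ∧ ((|(T d m r)^[K + 1] x| : ℤ) : ℝ) < c * ((|x| : ℤ) : ℝ)) ∧ Q x}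
      ((cardP (d ^ (K + 1)) (fun x =>
        (SurvP d m r c K x ∧ ((|P d m r (K + 1) x| : ℤ) : ℝ) < c * (d : ℝ) ^ (K + 1)) ∧ Q x) : ℝ) /
          (d ^ (K + 1) : ℕ)) := by
  obtain ⟨B, hB⟩ := compare_all hd hA hc1 hne (K + 1)
  have hM : 0 < d ^ (K + 1) := by positivity
  refine density_of (M := d ^ (K + 1)) (B := B) hM
    (fun x => (SurvP d m r c K x ∧ ((|P d m r (K + 1) x| : ℤ) : ℝ) < c * (d : ℝ) ^ (K + 1)) ∧ Q x) ?_ _ ?_
  · intro x y
    have e : x + ((d ^ (K + 1) : ℕ) : ℤ) * y = x + (d : ℤ) ^ (K + 1) * y := by push_cast; ring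
    rw [e, hQ]
    unfold SurvP
    rw [P_add hd le_rfl]
    constructor
    · rintro ⟨⟨h1, h2⟩, h3⟩
      refine ⟨⟨fun j hj => ?_, h2⟩, h3⟩
      rw [← P_add (m := m) (r := r) hd (show j ≤ K + 1 by omega) x y]; exact h1 j hj
    · rintro ⟨⟨h1, h2⟩, h3⟩
      refine ⟨⟨fun j hj => ?_, h2⟩, h3⟩
      rw [P_add (m := m) (r := r) hd (show j ≤ K + 1 by omega) x y]; exact h1 j hj
  · intro x hx
    have h := hB x hx
    rw [Set.mem_setOf_eq]
    unfold SurvT SurvP
    constructor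
    · rintro ⟨⟨h1, h2⟩, h3⟩
      refine ⟨⟨fun j hj => (h j (by omega)).1 (h1 j hj), ?_⟩, h3⟩
      by_contra h4
      push Not at h4
      have := (h (K + 1) le_rfl).2 h4
      linarith
    · rintro ⟨⟨h1, h2⟩, h3⟩
      refine ⟨⟨fun j hj => (h j (by omega)).2 (h1 j hj), ?_⟩, h3⟩
      by_contra h4
      push Not at h4
      have := (h (K + 1) le_rfl).1 h4
      linarith

/-- the density of the late set -/
theorem densities_late (hd : 0 < d) (hA : Adm d m r) {c : ℝ} (hc1 : c ≤ 1)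
    (hne : ∀ j : ℕ, 1 ≤ j → ∀ x : ℤ, ((|P d m r j x| : ℤ) : ℝ) ≠ c * (d : ℝ) ^ j) (K : ℕ) (Q : ℤ → Prop)
    (hQ : ∀ x y : ℤ, Q (x + d ^ K * y) ↔ Q x) :
    HasDensity {x | SurvT d m r c K x ∧ Q x}
      ((cardP (d ^ K) (fun x => SurvP d m r c K x ∧ Q x) : ℝ) / (d ^ K : ℕ)) := by
  obtain ⟨B, hB⟩ := compare_all hd hA hc1 hne K
  have hM : 0 < d ^ K := by positivity
  refine density_of (M := d ^ K) (B := B) hM (fun x => SurvP d m r c K x ∧ Q x) ?_ _ ?_
  · intro x y
    have e : x + ((d ^ K : ℕ) : ℤ) * y = x + (d : ℤ) ^ K * y := by push_cast; ring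
    rw [e, hQ]
    unfold SurvP
    constructor
    · rintro ⟨h1, h3⟩
      refine ⟨fun j hj => ?_, h3⟩
      rw [← P_add (m := m) (r := r) hd hj x y]; exact h1 j hj
    · rintro ⟨h1, h3⟩
      refine ⟨fun j hj => ?_, h3⟩
      rw [P_add (m := m) (r := r) hd hj x y]; exact h1 j hj
  · intro x hx
    have h := hB x hx
    rw [Set.mem_setOf_eq]
    unfold SurvT SurvP
    constructor
    · rintro ⟨h1, h3⟩
      exact ⟨fun j hj => (h j hj).1 (h1 j hj), h3⟩
    · rintro ⟨h1, h3⟩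
      exact ⟨fun j hj => (h j hj).2 (h1 j hj), h3⟩

end Pool.Agent.H622.Tw
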