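import Mathlib
import Pool.Agent.H622.Tw7

set_option autoImplicit false

/-! Möller's maps: the asymptotics for a given number of ups, summed over the length. -/

namespace Pool.Agent.H622.Mw

open Finset Filter Topology
open scoped Classical
open Pool.Agent.H622.Gs (Sl Np Dp Ep m0 m0_low m0_facts bu bu_nonneg bu_bound Vf c0 local_u Vf_ge_one Vf_nonneg Vf_mono
  Vf_le c0_pos)
open Pool.Agent.H622.Tw (Np_zero)

/-- the share of the words of length `A` with `k` ups -/
noncomputable def ee (θ D : ℝ) (k A : ℕ) : ℝ :=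
  (((Np θ 0 A).coeff k : ℤ) : ℝ) * ((D - 1) ^ (k + 1) / D ^ (A + 1))

/-- the base of the decay -/
noncomputable def rho (θ D : ℝ) : ℝ := (D - 1) / θ * (1 - θ) ^ (1 - 1 / θ) * D ^ (-(1 / θ))

noncomputable def gg (θ D : ℝ) : ℝ := D * (1 - θ)

structure Par (θ D : ℝ) : Prop where
  sl : Sl θ
  D1 : 1 < D
  g1 : D * (1 - θ) < 1

variable {θ D : ℝ}

theorem Par.g0 (h : Par θ D) : 0 < gg θ D := by
  have := h.sl.lt
  have := h.D1
  unfold gg
  exact mul_pos (by linarith) (by linarith)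

theorem Par.g1' (h : Par θ D) : gg θ D < 1 := h.g1

theorem rho_pos (h : Par θ D) : 0 < rho θ D := by
  have h1 := h.sl.pos
  have h2 : 0 < 1 - θ := by linarith [h.sl.lt]
  have h3 := h.D1
  have h4 : 0 < D - 1 := by linarith
  unfold rho
  have := Real.rpow_pos_of_pos h2 (1 - 1 / θ)
  have := Real.rpow_pos_of_pos (show 0 < D by linarith) (-(1 / θ))
  positivity

theorem ee_norm (h : Par θ D) {k A : ℕ} : ee θ D k A * (rho θ D)⁻¹ ^ k =
    (D - 1) / D * (bu θ 0 A k * gg θ D ^ ((k : ℝ) / θ - A)) := by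
  rcases Nat.lt_or_ge A k with hk | hk
  · unfold ee bu
    rw [Np_zero hk]; simp
  have h1 := h.sl.pos
  have h2 : 0 < 1 - θ := by linarith [h.sl.lt]
  have h3 := h.D1
  have h4 : 0 < D - 1 := by linarith
  have h5 : 0 < D := by linarith
  have hr := rho_pos h
  have key : (D - 1) ^ (k + 1) / D ^ (A + 1) * (rho θ D)⁻¹ ^ k =
      (D - 1) / D * (θ ^ k * (1 - θ) ^ (A - k) * gg θ D ^ ((k : ℝ) / θ - A)) := by
    have hl : 0 < (D - 1) ^ (k + 1) / D ^ (A + 1) * (rho θ D)⁻¹ ^ k := by positivity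
    have hg := h.g0
    have hgp := Real.rpow_pos_of_pos hg ((k : ℝ) / θ - A)
    have hr2 : 0 < (D - 1) / D * (θ ^ k * (1 - θ) ^ (A - k) * gg θ D ^ ((k : ℝ) / θ - A)) := by positivity
    apply Real.log_injOn_pos (Set.mem_Ioi.2 hl) (Set.mem_Ioi.2 hr2)
    have hlr : Real.log (rho θ D) = Real.log (D - 1) - Real.log θ + (1 - 1 / θ) * Real.log (1 - θ) +
        (-(1 / θ)) * Real.log D := by
      unfold rho
      have a1 := Real.rpow_pos_of_pos h2 (1 - 1 / θ)
      have a2 := Real.rpow_pos_of_pos h5 (-(1 / θ))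
      rw [Real.log_mul (by positivity) (by positivity), Real.log_mul (by positivity) (by positivity),
        Real.log_div h4.ne' h1.ne', Real.log_rpow h2, Real.log_rpow h5]
    have hlg : Real.log (gg θ D) = Real.log D + Real.log (1 - θ) := by
      unfold gg
      rw [Real.log_mul h5.ne' h2.ne']
    rw [Real.log_mul (by positivity) (by positivity), Real.log_div (by positivity) (by positivity), Real.log_pow,
      Real.log_pow, Real.log_pow, Real.log_inv, hlr, Real.log_mul (by positivity) (by positivity),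
      Real.log_div h4.ne' h5.ne', Real.log_mul (by positivity) (by positivity),
      Real.log_mul (by positivity) (by positivity), Real.log_pow, Real.log_pow, Real.log_rpow hg, hlg, Nat.cast_sub hk]
    push_cast
    field_simp
    ring
  unfold ee bu
  rw [mul_assoc, key]
  ring

/-- the greatest length -/
noncomputable def LL (θ : ℝ) (k : ℕ) : ℕ := ⌊(k : ℝ) / θ⌋₊

theorem LL_facts (h : Par θ D) (k : ℕ) : (LL θ k : ℝ) ≤ (k : ℝ) / θ ∧ (k : ℝ) / θ < LL θ k + 1 := by
  have h1 := h.sl.pos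
  exact ⟨Nat.floor_le (by positivity), Nat.lt_floor_add_one _⟩

/-- the position -/
noncomputable def xx (θ : ℝ) (k i : ℕ) : ℝ := (k : ℝ) / θ - LL θ k + i

theorem xx_facts (h : Par θ D) (k i : ℕ) : (i : ℝ) ≤ xx θ k i ∧ xx θ k i ≤ i + 1 := by
  obtain ⟨a, b⟩ := LL_facts h k
  unfold xx
  constructor <;> linarith

noncomputable def ff (θ D : ℝ) (k i : ℕ) : ℝ :=
  if i ≤ LL θ k then k * Real.sqrt k * (ee θ D k (LL θ k - i) * (rho θ D)⁻¹ ^ k) else 0

noncomputable def psi (θ D : ℝ) (k i : ℕ) : ℝ :=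
  (D - 1) / D * (θ * Real.sqrt θ * c0 θ * (gg θ D ^ xx θ k i * Vf θ (θ * xx θ k i)))

theorem psi_nonneg (h : Par θ D) (k i : ℕ) : 0 ≤ psi θ D k i := by
  have h1 := h.sl.pos
  have h3 := h.D1
  have h4 : 0 < D - 1 := by linarith
  have hg := Real.rpow_pos_of_pos h.g0 (xx θ k i)
  have hc := c0_pos h.sl
  have hV := Vf_nonneg h.sl (θ * xx θ k i)
  unfold psi
  positivity

/-- the pointwise limit -/
theorem ff_tendsto (h : Par θ D) (i : ℕ) : Tendsto (fun k => ff θ D k i - psi θ D k i) atTop (𝓝 0) := by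
  have h1 := h.sl.pos
  have h2 := h.sl.lt
  have hg := h.g0
  have hg1 := h.g1'
  have h3 := h.D1
  have h4 : 0 < D - 1 := by linarith
  set o : ℕ → ℕ := fun A => ⌈((A : ℝ) + i) * θ⌉₊ with ho
  have ho1 : ∀ A : ℕ, 0 ≤ (o A : ℝ) - A * θ ∧ (o A : ℝ) - A * θ ≤ i * θ + 1 := by
    intro A
    have hx : (0 : ℝ) ≤ ((A : ℝ) + i) * θ := by positivity
    have a1 := Nat.le_ceil (((A : ℝ) + i) * θ)
    have a2 := Nat.ceil_lt_add_one hx
    have hi0 : (0 : ℝ) ≤ i * θ := by positivity
    simp only [ho]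
    constructor
    · nlinarith
    · nlinarith
  have hi0 : (0 : ℝ) ≤ i * θ := by positivity
  have h5 := local_u h.sl (W := i * θ + 1) o (fun _ => 0) (fun A => (o A : ℝ) - A * θ) (fun _ => le_rfl)
    (fun _ => by linarith) (fun A => (ho1 A).2) (fun A => by
      rw [abs_of_nonneg (ho1 A).1]; exact (ho1 A).2) (fun A => by ring)
  -- compose with the length
  set Af : ℕ → ℕ := fun k => LL θ k - i with hAf
  have hAinf : Tendsto Af atTop atTop := by
    apply tendsto_atTop_mono' (f₁ := fun k => k - i)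
    · filter_upwards with k
      have hk : k ≤ LL θ k := by
        unfold LL
        apply Nat.le_floor
        rw [le_div_iff₀ h1]
        have : (0 : ℝ) ≤ k := Nat.cast_nonneg k
        nlinarith
      simp only [hAf]; omega
    · exact tendsto_sub_atTop_nat i
  have h6 := h5.comp hAinf
  -- the ratio `k / A`
  have hratio : Tendsto (fun k : ℕ => (k : ℝ) / (Af k : ℝ)) atTop (𝓝 θ) := by
    have h7 : Tendsto (fun k : ℕ => ((Af k : ℝ)) / k) atTop (𝓝 (1 / θ)) := by
      have h8 : Tendsto (fun k : ℕ => (((i : ℝ) + 1)) / (k : ℝ)) atTop (𝓝 0) :=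
        tendsto_const_nhds.div_atTop tendsto_natCast_atTop_atTop
      rw [tendsto_iff_norm_sub_tendsto_zero]
      apply squeeze_zero' (Eventually.of_forall fun k => norm_nonneg _) _ h8
      filter_upwards [eventually_ge_atTop (i + 1)] with k hk
      have hk' : (0 : ℝ) < k := by
        have : 0 < k := by omega
        exact_mod_cast this
      have hkL : k ≤ LL θ k := by
        unfold LL
        apply Nat.le_floor
        rw [le_div_iff₀ h1]
        nlinarith
      have e : (Af k : ℝ) = (LL θ k : ℝ) - i := by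
        simp only [hAf]
        rw [Nat.cast_sub (by omega)]
      obtain ⟨b1, b2⟩ := LL_facts h k
      rw [Real.norm_eq_abs, e, show ((LL θ k : ℝ) - i) / k - 1 / θ = ((LL θ k : ℝ) - i - k / θ) / k by field_simp,
        abs_div, abs_of_pos hk']
      apply div_le_div_of_nonneg_right _ hk'.le
      have hi0' : (0 : ℝ) ≤ i := Nat.cast_nonneg i
      rw [abs_le]
      constructor <;> linarith
    have h9 := h7.inv₀ (by positivity)
    rw [one_div, inv_inv] at h9
    refine h9.congr fun k => ?_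
    rw [inv_div]
  have hratio2 : Tendsto (fun k : ℕ => ((k : ℝ) * Real.sqrt k) / ((Af k : ℝ) * Real.sqrt (Af k))) atTop
      (𝓝 (θ * Real.sqrt θ)) := by
    have h7 := hratio.mul ((Real.continuous_sqrt.tendsto θ).comp hratio)
    refine h7.congr fun k => ?_
    simp only [Function.comp]
    rw [Real.sqrt_div (Nat.cast_nonneg _), div_mul_div_comm]
  -- the bounded factors
  set Vb : ℝ := Vf θ (i * θ + 1) with hVb
  have hc := c0_pos h.sl
  have hV0 : Vf (1 - θ) 0 = 1 := by
    have h7 := Vf_ge_one h.sl.flip (le_refl (0 : ℝ))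
    unfold Vf
    rw [tsum_eq_single 0]
    · unfold Gs.Rl
      simp [Gs.b_zero_zero]
    · intro j hj
      unfold Gs.Rl
      apply sum_eq_zero
      intro p _
      by_cases h8 : (p : ℝ) - j * (1 - θ) ≤ 0
      · rw [if_pos h8]
        apply Gs.b_low (by omega)
        intro h9
        linarith
      · rw [if_neg h8]
  -- assemble
  have hmain : Tendsto (fun k : ℕ => (((k : ℝ) * Real.sqrt k) / ((Af k : ℝ) * Real.sqrt (Af k))) *
      ((Af k : ℝ) * Real.sqrt (Af k) * bu θ 0 (Af k) (o (Af k)) -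
        c0 θ * (1 * Vf θ ((o (Af k) : ℝ) - (Af k) * θ))) +
      ((((k : ℝ) * Real.sqrt k) / ((Af k : ℝ) * Real.sqrt (Af k))) - θ * Real.sqrt θ) *
        (c0 θ * Vf θ ((o (Af k) : ℝ) - (Af k) * θ))) atTop (𝓝 0) := by
    have a1 := hratio2.mul h6
    rw [mul_zero] at a1
    have a2 : Tendsto (fun k : ℕ => ((((k : ℝ) * Real.sqrt k) / ((Af k : ℝ) * Real.sqrt (Af k))) - θ * Real.sqrt θ) *
        (c0 θ * Vf θ ((o (Af k) : ℝ) - (Af k) * θ))) atTop (𝓝 0) := by
      have a3 := (hratio2.sub_const (θ * Real.sqrt θ)).abs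
      rw [sub_self, abs_zero] at a3
      have a4 := a3.mul_const (c0 θ * Vb)
      rw [zero_mul] at a4
      apply squeeze_zero_norm _ a4
      intro k
      rw [norm_mul, Real.norm_eq_abs, Real.norm_eq_abs]
      apply mul_le_mul_of_nonneg_left _ (abs_nonneg _)
      have a5 := Vf_nonneg h.sl ((o (Af k) : ℝ) - (Af k) * θ)
      rw [abs_of_nonneg (by positivity)]
      exact mul_le_mul_of_nonneg_left (Vf_mono h.sl (ho1 (Af k)).2) hc.le
    have a3 := a1.add a2
    rw [add_zero] at a3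
    refine a3.congr fun k => ?_
    simp only [Function.comp]
    rw [hV0]
  -- the outer factor is bounded
  have hmain2 := (hmain.abs).const_mul ((D - 1) / D)
  rw [abs_zero, mul_zero] at hmain2
  apply squeeze_zero_norm' _ hmain2
  obtain ⟨N, hN⟩ := exists_nat_gt ((i : ℝ) + 1)
  filter_upwards [eventually_ge_atTop N] with k hk
  have hkN : (i : ℝ) + 1 < k := lt_of_lt_of_le hN (by exact_mod_cast hk)
  have hkL : k ≤ LL θ k := by
    unfold LL
    apply Nat.le_floor
    rw [le_div_iff₀ h1]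
    have : (0 : ℝ) ≤ k := Nat.cast_nonneg k
    nlinarith
  have hik : i + 1 < k := by exact_mod_cast hkN
  have hiL : i ≤ LL θ k := by omega
  have eA : (Af k : ℝ) = (LL θ k : ℝ) - i := by
    simp only [hAf]
    rw [Nat.cast_sub hiL]
  have eo : o (Af k) = k := by
    simp only [ho]
    rw [eA, sub_add_cancel]
    obtain ⟨b1, b2⟩ := LL_facts h k
    rw [le_div_iff₀ h1] at b1
    rw [div_lt_iff₀ h1] at b2
    rw [Nat.ceil_eq_iff (by omega)]
    rw [Nat.cast_sub (by omega)]
    push_cast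
    constructor <;> nlinarith
  have ex : xx θ k i = (k : ℝ) / θ - Af k := by
    unfold xx
    rw [eA]; ring
  have ex2 : θ * xx θ k i = (k : ℝ) - Af k * θ := by
    rw [ex]; field_simp
  have hff : ff θ D k i = (D - 1) / D * (k * Real.sqrt k * bu θ 0 (Af k) k * gg θ D ^ xx θ k i) := by
    unfold ff
    rw [if_pos hiL, ee_norm h, ex]
    ring
  rw [hff]
  unfold psi
  rw [eo, ex2]
  have hx0 : 0 ≤ xx θ k i := le_trans (Nat.cast_nonneg i) (xx_facts h k i).1
  have hgx : 0 < gg θ D ^ xx θ k i := Real.rpow_pos_of_pos hg _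
  have hgx1 : gg θ D ^ xx θ k i ≤ 1 := Real.rpow_le_one hg.le hg1.le hx0
  have hApos : (0 : ℝ) < (Af k : ℝ) := by
    have : 0 < Af k := by simp only [hAf]; omega
    exact_mod_cast this
  have hsA : 0 < Real.sqrt (Af k : ℝ) := Real.sqrt_pos.2 hApos
  have e3 : (D - 1) / D * (k * Real.sqrt k * bu θ 0 (Af k) k * gg θ D ^ xx θ k i) -
      (D - 1) / D * (θ * Real.sqrt θ * c0 θ * (gg θ D ^ xx θ k i * Vf θ ((k : ℝ) - Af k * θ))) =
      gg θ D ^ xx θ k i * ((D - 1) / D * ((((k : ℝ) * Real.sqrt k) / ((Af k : ℝ) * Real.sqrt (Af k))) *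
      ((Af k : ℝ) * Real.sqrt (Af k) * bu θ 0 (Af k) k -
        c0 θ * (1 * Vf θ ((k : ℝ) - (Af k) * θ))) +
      ((((k : ℝ) * Real.sqrt k) / ((Af k : ℝ) * Real.sqrt (Af k))) - θ * Real.sqrt θ) *
        (c0 θ * Vf θ ((k : ℝ) - (Af k) * θ)))) := by
    field_simp
    ring
  rw [e3, norm_mul, Real.norm_eq_abs, abs_of_pos hgx, norm_mul, Real.norm_eq_abs, Real.norm_eq_abs,
    abs_of_pos (show 0 < (D - 1) / D by positivity)]
  exact mul_le_of_le_one_left (by positivity) hgx1

/-- the domination -/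
theorem dom (h : Par θ D) : ∃ C : ℝ, 0 < C ∧ ∀ k i : ℕ, |ff θ D k i - psi θ D k i| ≤ C * Real.sqrt (gg θ D) ^ i ∧
    psi θ D k i ≤ C * Real.sqrt (gg θ D) ^ i ∧ 0 ≤ ff θ D k i ∧ ff θ D k i ≤ C * Real.sqrt (gg θ D) ^ i := by
  have h1 := h.sl.pos
  have h2 := h.sl.lt
  have hg := h.g0
  have hg1 := h.g1'
  have h3 := h.D1
  have h4 : 0 < D - 1 := by linarith
  have hc := c0_pos h.sl
  set g := gg θ D with hgd
  set s : ℝ := g ^ (1 / (2 * θ)) with hs
  have hs0 : 0 < s := Real.rpow_pos_of_pos hg _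
  have hs1 : s < 1 := Real.rpow_lt_one hg.le hg1 (by positivity)
  obtain ⟨C1, hC1, hb⟩ := bu_bound h.sl (le_refl (0 : ℝ)) hs0 hs1
  obtain ⟨C2, hC2, hv⟩ := Vf_le h.sl hs0 hs1
  have hsg : 0 < Real.sqrt g := Real.sqrt_pos.2 hg
  have hsg1 : Real.sqrt g < 1 := by rw [Real.sqrt_lt' (by norm_num)]; linarith
  -- `g ^ x s ^ (-θ x) = √g ^ x`
  have hx : ∀ x : ℝ, g ^ x * s ^ (-(θ * x)) = Real.sqrt g ^ x := by
    intro x
    rw [hs, ← Real.rpow_mul hg.le, ← Real.rpow_add hg, Real.sqrt_eq_rpow, ← Real.rpow_mul hg.le]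
    congr 1
    field_simp
    ring
  have hxi : ∀ k i : ℕ, Real.sqrt g ^ xx θ k i ≤ Real.sqrt g ^ i := by
    intro k i
    rw [← Real.rpow_natCast (Real.sqrt g) i]
    exact Real.rpow_le_rpow_of_exponent_ge hsg hsg1.le (xx_facts h k i).1
  set C3 : ℝ := (D - 1) / D * C1 with hC3
  set C4 : ℝ := (D - 1) / D * (θ * Real.sqrt θ * c0 θ * C2) with hC4
  have hC30 : 0 < C3 := by positivity
  have hC40 : 0 < C4 := by
    have := Real.sqrt_pos.2 h1
    positivity
  have hff0 : ∀ k i, 0 ≤ ff θ D k i := by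
    intro k i
    unfold ff
    split_ifs
    · rw [ee_norm h]
      have := bu_nonneg h.sl (le_refl (0 : ℝ)) (LL θ k - i) k
      have := Real.rpow_pos_of_pos hg ((k : ℝ) / θ - (LL θ k - i : ℕ))
      positivity
    · exact le_rfl
  have hff : ∀ k i, ff θ D k i ≤ C3 * Real.sqrt g ^ i := by
    intro k i
    unfold ff
    split_ifs with hi
    · rw [ee_norm h]
      have eA : (((LL θ k - i : ℕ) : ℕ) : ℝ) = (LL θ k : ℝ) - i := by rw [Nat.cast_sub hi]
      have ex : (k : ℝ) / θ - ((LL θ k - i : ℕ) : ℝ) = xx θ k i := by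
        rw [eA]; unfold xx; ring
      rw [ex]
      set A := LL θ k - i with hA
      rcases Nat.lt_or_ge A k with hAk | hAk
      · unfold bu
        rw [Np_zero hAk]
        simp
        positivity
      have hbA := hb A k
      have ex2 : 0 + (k : ℝ) - A * θ = θ * xx θ k i := by
        rw [← ex]; field_simp; ring
      rw [ex2] at hbA
      have hkA : (k : ℝ) * Real.sqrt k ≤ A * Real.sqrt A := by
        have : (k : ℝ) ≤ A := by exact_mod_cast hAk
        exact mul_le_mul this (Real.sqrt_le_sqrt this) (Real.sqrt_nonneg _) (Nat.cast_nonneg _)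
      have hbn := bu_nonneg h.sl (le_refl (0 : ℝ)) A k
      have hgx := Real.rpow_pos_of_pos hg (xx θ k i)
      calc (k : ℝ) * Real.sqrt k * ((D - 1) / D * (bu θ 0 A k * g ^ xx θ k i))
          = (D - 1) / D * ((k : ℝ) * Real.sqrt k * bu θ 0 A k * g ^ xx θ k i) := by ring
        _ ≤ (D - 1) / D * (C1 * s ^ (-(θ * xx θ k i)) * g ^ xx θ k i) := by
            apply mul_le_mul_of_nonneg_left _ (by positivity)
            apply mul_le_mul_of_nonneg_right _ hgx.le
            exact (mul_le_mul_of_nonneg_right hkA hbn).trans hbA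
        _ = C3 * (g ^ xx θ k i * s ^ (-(θ * xx θ k i))) := by rw [hC3]; ring
        _ ≤ _ := by
            rw [hx]
            exact mul_le_mul_of_nonneg_left (hxi k i) hC30.le
    · positivity
  have hpsi : ∀ k i, psi θ D k i ≤ C4 * Real.sqrt g ^ i := by
    intro k i
    unfold psi
    have hv' := hv (θ * xx θ k i)
    have hgx := Real.rpow_pos_of_pos hg (xx θ k i)
    have hst := Real.sqrt_pos.2 h1
    calc (D - 1) / D * (θ * Real.sqrt θ * c0 θ * (g ^ xx θ k i * Vf θ (θ * xx θ k i)))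
        ≤ (D - 1) / D * (θ * Real.sqrt θ * c0 θ * (g ^ xx θ k i * (C2 * s ^ (-(θ * xx θ k i))))) := by
          apply mul_le_mul_of_nonneg_left _ (by positivity)
          apply mul_le_mul_of_nonneg_left _ (by positivity)
          exact mul_le_mul_of_nonneg_left hv' hgx.le
      _ = C4 * (g ^ xx θ k i * s ^ (-(θ * xx θ k i))) := by rw [hC4]; ring
      _ ≤ _ := by
          rw [hx]
          exact mul_le_mul_of_nonneg_left (hxi k i) hC40.le
  refine ⟨C3 + C4, by positivity, fun k i => ⟨?_, ?_, hff0 k i, ?_⟩⟩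
  · refine (abs_sub _ _).trans ?_
    rw [abs_of_nonneg (hff0 k i), abs_of_nonneg (psi_nonneg h k i), add_mul]
    exact add_le_add (hff k i) (hpsi k i)
  · refine (hpsi k i).trans ?_
    rw [add_mul]
    have : 0 ≤ C3 * Real.sqrt g ^ i := by positivity
    linarith
  · refine (hff k i).trans ?_
    rw [add_mul]
    have : 0 ≤ C4 * Real.sqrt g ^ i := by positivity
    linarith

/-- THE `ℓ¹` LIMIT THEOREM -/
theorem l1 (h : Par θ D) : Tendsto (fun k => ∑' i, |ff θ D k i - psi θ D k i|) atTop (𝓝 0) := by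
  obtain ⟨C, hC, hd⟩ := dom h
  have hsg : 0 < Real.sqrt (gg θ D) := Real.sqrt_pos.2 h.g0
  have hsg1 : Real.sqrt (gg θ D) < 1 := by rw [Real.sqrt_lt' (by norm_num)]; linarith [h.g1']
  have h1 : Tendsto (fun k => ∑' i, |ff θ D k i - psi θ D k i|) atTop (𝓝 (∑' _ : ℕ, (0 : ℝ))) := by
    apply tendsto_tsum_of_dominated_convergence (bound := fun i => C * Real.sqrt (gg θ D) ^ i)
      ((summable_geometric_of_lt_one hsg.le hsg1).mul_left _)
    · intro i
      have := (ff_tendsto h i).abs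
      rwa [abs_zero] at this
    · exact Eventually.of_forall fun k i => by
        rw [Real.norm_eq_abs, abs_abs]
        exact (hd k i).1
  rwa [tsum_zero] at h1

theorem summables (h : Par θ D) (k : ℕ) : Summable (ff θ D k) ∧ Summable (psi θ D k) := by
  obtain ⟨C, hC, hd⟩ := dom h
  have hsg : 0 < Real.sqrt (gg θ D) := Real.sqrt_pos.2 h.g0
  have hsg1 : Real.sqrt (gg θ D) < 1 := by rw [Real.sqrt_lt' (by norm_num)]; linarith [h.g1']
  have hs := (summable_geometric_of_lt_one hsg.le hsg1).mul_left C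
  exact ⟨Summable.of_nonneg_of_le (fun i => (hd k i).2.2.1) (fun i => (hd k i).2.2.2) hs,
    Summable.of_nonneg_of_le (fun i => psi_nonneg h k i) (fun i => (hd k i).2.1) hs⟩

/-- the total -/
noncomputable def tot (θ D : ℝ) (k : ℕ) : ℝ := ∑ A ∈ range (LL θ k + 1), ee θ D k A

theorem tot_ff (h : Par θ D) (k : ℕ) : k * Real.sqrt k * (tot θ D k * (rho θ D)⁻¹ ^ k) = ∑' i, ff θ D k i := by
  rw [tsum_eq_sum (s := range (LL θ k + 1))]
  · unfold tot
    rw [← sum_range_reflect, sum_mul, mul_sum]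
    apply sum_congr rfl
    intro i hi
    rw [mem_range] at hi
    unfold ff
    rw [if_pos (by omega), show LL θ k + 1 - 1 - i = LL θ k - i by omega]
  · intro i hi
    rw [mem_range] at hi
    unfold ff
    rw [if_neg (by omega)]

/-- the sum of the weights is bounded below -/
theorem psi_lower (h : Par θ D) : ∃ z : ℝ, 0 < z ∧ ∀ k, z ≤ ∑' i, psi θ D k i := by
  have h1 := h.sl.pos
  have h3 := h.D1
  have h4 : 0 < D - 1 := by linarith
  have hg := h.g0
  have hg1 := h.g1'
  have hc := c0_pos h.sl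
  have hst := Real.sqrt_pos.2 h1
  refine ⟨(D - 1) / D * (θ * Real.sqrt θ * c0 θ * gg θ D), by positivity, fun k => ?_⟩
  have h5 := (summables h k).2.le_tsum 0 (fun i _ => psi_nonneg h k i)
  refine le_trans ?_ h5
  unfold psi
  obtain ⟨a1, a2⟩ := xx_facts h k 0
  rw [Nat.cast_zero] at a1 a2
  have hV := Vf_ge_one h.sl (mul_nonneg h1.le a1)
  have hgx : gg θ D ≤ gg θ D ^ xx θ k 0 := by
    have := Real.rpow_le_rpow_of_exponent_ge hg hg1.le (show xx θ k 0 ≤ 1 by linarith)
    rwa [Real.rpow_one] at this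
  apply mul_le_mul_of_nonneg_left _ (by positivity)
  apply mul_le_mul_of_nonneg_left _ (by positivity)
  nlinarith

theorem psi_upper (h : Par θ D) : ∃ z : ℝ, 0 < z ∧ ∀ k, ∑' i, psi θ D k i ≤ z := by
  obtain ⟨C, hC, hd⟩ := dom h
  have hsg : 0 < Real.sqrt (gg θ D) := Real.sqrt_pos.2 h.g0
  have hsg1 : Real.sqrt (gg θ D) < 1 := by rw [Real.sqrt_lt' (by norm_num)]; linarith [h.g1']
  have hs := (summable_geometric_of_lt_one hsg.le hsg1).mul_left C
  refine ⟨C * (1 - Real.sqrt (gg θ D))⁻¹, by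
    have : 0 < (1 - Real.sqrt (gg θ D))⁻¹ := inv_pos.2 (by linarith)
    positivity, fun k => ?_⟩
  refine ((summables h k).2.tsum_le_tsum (fun i => (hd k i).2.1) hs).trans ?_
  rw [tsum_mul_left, tsum_geometric_of_lt_one hsg.le hsg1]

/-- THE SHARP LAW -/
theorem sharp (h : Par θ D) :
    Tendsto (fun k : ℕ => k * Real.sqrt k * (tot θ D k * (rho θ D)⁻¹ ^ k) - ∑' i, psi θ D k i) atTop (𝓝 0) := by
  apply squeeze_zero_norm _ (l1 h)
  intro k
  obtain ⟨a1, a2⟩ := summables h k
  rw [tot_ff h, ← a1.tsum_sub a2]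
  exact norm_tsum_le_tsum_norm ((a1.sub a2).abs)

end Pool.Agent.H622.Mw
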