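import Mathlib
import Pool.Agent.H622.Mw1
import Pool.Agent.H622.St8

set_option autoImplicit false

/-! Möller's maps: total variation, and there is no limit. -/

namespace Pool.Agent.H622.Mw

open Finset Filter Topology
open scoped Classical
open Pool.Agent.H622.Gs (Sl Np Dp Ep m0 m0_low m0_facts bu bu_nonneg bu_bound Vf c0 local_u Vf_ge_one Vf_nonneg Vf_mono
  Vf_le c0_pos Rl Rl_mono Rl_summable)
open Pool.Agent.H622.Tw (Np_zero)

variable {θ D : ℝ}

/-- the law of the position -/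
noncomputable def law (θ D : ℝ) (k i : ℕ) : ℝ := psi θ D k i / ∑' j, psi θ D k j

noncomputable def emp (θ D : ℝ) (k i : ℕ) : ℝ := if i ≤ LL θ k then ee θ D k (LL θ k - i) / tot θ D k else 0

theorem tv (h : Par θ D) : Tendsto (fun k => ∑' i, |emp θ D k i - law θ D k i|) atTop (𝓝 0) := by
  obtain ⟨z, hz, hl⟩ := psi_lower h
  have h1 := l1 h
  have h2 := h1.mul_const (4 / z)
  rw [zero_mul] at h2
  apply squeeze_zero' (Eventually.of_forall fun k => tsum_nonneg fun i => abs_nonneg _) _ h2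
  have h3 := (Metric.tendsto_nhds.1 h1) (z / 2) (by positivity)
  filter_upwards [h3, eventually_ge_atTop 1] with k hk hk1
  rw [Real.dist_eq, sub_zero, abs_of_nonneg (tsum_nonneg fun i => abs_nonneg _)] at hk
  obtain ⟨a1, a2⟩ := summables h k
  set L := ∑' i, |ff θ D k i - psi θ D k i| with hL
  set F := ∑' i, ff θ D k i with hF
  set P := ∑' i, psi θ D k i with hP
  have hPz : z ≤ P := hl k
  have hFP : |F - P| ≤ L := by
    rw [hF, hP, hL, ← a1.tsum_sub a2, ← Real.norm_eq_abs]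
    exact norm_tsum_le_tsum_norm ((a1.sub a2).abs)
  have hF2 : z / 2 ≤ F := by
    have := (abs_le.1 hFP).1
    linarith
  have hPpos : 0 < P := by linarith
  have hFpos : 0 < F := by linarith
  have hk' : (0 : ℝ) < k := by exact_mod_cast hk1
  have hsk : 0 < Real.sqrt (k : ℝ) := Real.sqrt_pos.2 hk'
  have hr : 0 < (rho θ D)⁻¹ ^ k := by
    have := rho_pos h
    positivity
  have htot := tot_ff h k
  rw [← hF] at htot
  have htpos : 0 < tot θ D k := by
    by_contra h5
    push Not at h5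
    have : k * Real.sqrt k * (tot θ D k * (rho θ D)⁻¹ ^ k) ≤ 0 :=
      mul_nonpos_of_nonneg_of_nonpos (by positivity) (mul_nonpos_of_nonpos_of_nonneg h5 hr.le)
    linarith
  have hemp : ∀ i, emp θ D k i = ff θ D k i / F := by
    intro i
    unfold emp ff
    split_ifs
    · rw [← htot]
      have hr' := hr.ne'
      generalize (rho θ D)⁻¹ ^ k = R at hr'
      field_simp
    · rw [zero_div]
  have hterm : ∀ i, |emp θ D k i - law θ D k i| ≤ |ff θ D k i - psi θ D k i| / F + psi θ D k i * (L / (F * P)) := by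
    intro i
    rw [hemp i]
    unfold law
    rw [← hP]
    have e : ff θ D k i / F - psi θ D k i / P = (ff θ D k i - psi θ D k i) / F + psi θ D k i * ((P - F) / (F * P)) := by
      field_simp
      ring
    rw [e]
    refine (abs_add_le _ _).trans ?_
    rw [abs_div, abs_of_pos hFpos, abs_mul, abs_of_nonneg (psi_nonneg h k i), abs_div,
      abs_of_pos (mul_pos hFpos hPpos), abs_sub_comm]
    apply add_le_add le_rfl
    apply mul_le_mul_of_nonneg_left _ (psi_nonneg h k i)
    exact div_le_div_of_nonneg_right (by first | exact hFP | (rw [abs_sub_comm]; exact hFP)) (by positivity)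
  have s1 : Summable fun i => |ff θ D k i - psi θ D k i| / F := ((a1.sub a2).abs).div_const F
  have s2 : Summable fun i => psi θ D k i * (L / (F * P)) := a2.mul_right _
  have s3 : Summable fun i => |emp θ D k i - law θ D k i| :=
    Summable.of_nonneg_of_le (fun i => abs_nonneg _) hterm (s1.add s2)
  have h5 := s3.tsum_le_tsum hterm (s1.add s2)
  rw [s1.tsum_add s2, tsum_div_const, tsum_mul_right, ← hL, ← hP] at h5
  refine h5.trans ?_
  have e : L / F + P * (L / (F * P)) = 2 * (L / F) := by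
    field_simp
    ring
  rw [e]
  have hL0 : 0 ≤ L := tsum_nonneg fun i => abs_nonneg _
  have h6 : L / F ≤ L / (z / 2) := div_le_div_of_nonneg_left hL0 (by positivity) hF2
  have e2 : L * (4 / z) = 2 * (L / (z / 2)) := by field_simp; ring
  rw [e2]
  linarith

/-- the jump of the renewal function -/
theorem jump (h : Sl θ) {w1 w2 : ℝ} (h1 : 1 - θ ≤ w1) (h2 : w2 < 1 - θ) : Vf θ w2 + θ ≤ Vf θ w1 := by
  have hle : w2 ≤ w1 := by linarith
  have hb : Gs.b θ 1 1 = θ := by
    unfold Gs.b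
    have : (Dp θ 1).coeff 1 = 1 := by
      rw [Gs.Dp_succ]
      have e : (((0 + 1 : ℕ) : ℝ) * θ < ((1 : ℕ) : ℝ)) := by push_cast; linarith [h.lt]
      simp only [Dp]
      simp [h.lt, Polynomial.coeff_one]
    rw [this]; simp
  have key : Rl θ w2 1 + θ ≤ Rl θ w1 1 := by
    unfold Rl
    rw [sum_range_succ, sum_range_succ, sum_range_zero, sum_range_succ, sum_range_succ, sum_range_zero]
    have e1 : ((0 : ℕ) : ℝ) - ((1 : ℕ) : ℝ) * θ ≤ w1 := by push_cast; linarith [h.lt]
    have e2 : ((1 : ℕ) : ℝ) - ((1 : ℕ) : ℝ) * θ ≤ w1 := by push_cast; linarith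
    have e3 : ¬ (((1 : ℕ) : ℝ) - ((1 : ℕ) : ℝ) * θ ≤ w2) := by push_cast; linarith
    rw [if_pos e1, if_pos e2, if_neg e3, hb]
    have h0 := Gs.b_nonneg h 1 0
    split_ifs <;> linarith
  unfold Vf
  rw [(Rl_summable h w2).tsum_eq_add_tsum_ite 1, (Rl_summable h w1).tsum_eq_add_tsum_ite 1]
  have h3 : ∑' n, (if n = 1 then 0 else Rl θ w2 n) ≤ ∑' n, (if n = 1 then 0 else Rl θ w1 n) := by
    have s1 : ∀ w, Summable fun n => (if n = 1 then 0 else Rl θ w n) := by
      intro w
      apply Summable.of_nonneg_of_le _ _ (Rl_summable h w)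
      · intro n
        split_ifs
        · exact le_rfl
        · exact Gs.Rl_nonneg h w n
      · intro n
        split_ifs
        · exact Gs.Rl_nonneg h w n
        · exact le_rfl
    apply (s1 w2).tsum_le_tsum _ (s1 w1)
    intro n
    split_ifs
    · exact le_rfl
    · exact Rl_mono h hle n
  linarith

/-- two positions on the two sides of the jump -/
theorem sides (h : Par θ D) {η : ℝ} (hη : 0 < η) (K : ℕ) : ∃ k1 k2 : ℕ, K ≤ k1 ∧ K ≤ k2 ∧
    ∀ i : ℕ, (1 : ℝ) / θ - LL θ 1 + i ≤ xx θ k1 i ∧ xx θ k2 i < 1 / θ - LL θ 1 + i ∧ xx θ k1 i - xx θ k2 i < 2 * η := by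
  have h1 := h.sl.pos
  set κ : ℝ := 1 / θ with hκ
  have hirr : ∀ k : ℕ, 0 < k → ∀ r : ℤ, (k : ℝ) * κ ≠ r := by
    intro k hk r e
    have hr0 : (0 : ℝ) < r := by
      rw [← e]
      have : (0 : ℝ) < k := by exact_mod_cast hk
      positivity
    have hr0' : 0 < r := by exact_mod_cast hr0
    obtain ⟨n, rfl⟩ := Int.eq_ofNat_of_zero_le hr0'.le
    apply h.sl.irr n (by exact_mod_cast hr0') k
    rw [hκ] at e
    field_simp at e
    push_cast at e ⊢
    linarith
  obtain ⟨b1, b2⟩ := LL_facts h 1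
  rw [Nat.cast_one] at b1 b2
  set φ : ℝ := κ - LL θ 1 with hφ
  have hφ0 : 0 < φ := by
    rcases (sub_nonneg.2 b1).lt_or_eq with h5 | h5
    · exact h5
    · exfalso
      apply hirr 1 one_pos (LL θ 1)
      push_cast
      linarith
  have hφ1 : φ < 1 := by linarith
  set δ : ℝ := min η (min φ (1 - φ)) with hδ
  have hδ0 : 0 < δ := lt_min hη (lt_min hφ0 (by linarith))
  have hδ1 : δ ≤ η := min_le_left _ _
  have hδ2 : δ ≤ φ := (min_le_right _ _).trans (min_le_left _ _)
  have hδ3 : δ ≤ 1 - φ := (min_le_right _ _).trans (min_le_right _ _)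
  obtain ⟨n1, hn1, p1, a1, a2⟩ := Pool.Agent.H622.St.near_right_large hirr hδ0 K
  have hirr2 : ∀ k : ℕ, 0 < k → ∀ r : ℤ, (k : ℝ) * (-κ) ≠ r := by
    intro k hk r e
    apply hirr k hk (-r)
    push_cast
    linarith
  obtain ⟨n2, hn2, p2, a3, a4⟩ := Pool.Agent.H622.St.near_right_large hirr2 hδ0 K
  have hLL : ∀ (n : ℕ) (p : ℤ) (t : ℝ), ((n : ℝ) + 1) * κ = p + (LL θ 1 : ℝ) + t → 0 ≤ t → t < 1 →
      (LL θ (n + 1) : ℝ) = p + LL θ 1 := by
    intro n p t e ht0 ht1
    obtain ⟨c1, c2⟩ := LL_facts h (n + 1)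
    have e2 : ((n + 1 : ℕ) : ℝ) / θ = p + (LL θ 1 : ℝ) + t := by
      rw [← e, hκ]; push_cast; ring
    rw [e2] at c1 c2
    have d1 : (LL θ (n + 1) : ℤ) < p + LL θ 1 + 1 := by
      have : (LL θ (n + 1) : ℝ) < p + LL θ 1 + 1 := by linarith
      exact_mod_cast this
    have d2 : p + (LL θ 1 : ℤ) < LL θ (n + 1) + 1 := by
      have : (p : ℝ) + LL θ 1 < LL θ (n + 1) + 1 := by linarith
      exact_mod_cast this
    have : (LL θ (n + 1) : ℤ) = p + LL θ 1 := by omega
    exact_mod_cast this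
  have f1 := hLL n1 p1 (φ + (n1 * κ - p1)) (by rw [hφ]; ring) (by linarith) (by linarith)
  have f2 := hLL n2 (-p2) (φ - (n2 * (-κ) - p2)) (by rw [hφ]; push_cast; ring) (by linarith) (by linarith)
  have g1 : ∀ i : ℕ, xx θ (n1 + 1) i = φ + (n1 * κ - p1) + i := by
    intro i
    unfold xx
    rw [f1, hφ, hκ]; push_cast; ring
  have g2 : ∀ i : ℕ, xx θ (n2 + 1) i = φ - (n2 * (-κ) - p2) + i := by
    intro i
    unfold xx
    rw [f2, hφ, hκ]; push_cast; ring
  refine ⟨n1 + 1, n2 + 1, by omega, by omega, fun i => ?_⟩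
  rw [g1, g2]
  refine ⟨by linarith, by linarith, by linarith⟩

/-- THERE IS NO LIMIT -/
theorem no_limit (h : Par θ D) : ¬ ∃ l : ℝ, Tendsto (fun k => ∑' i, psi θ D k i) atTop (𝓝 l) := by
  rintro ⟨l, hl⟩
  have h1 := h.sl.pos
  have h2 := h.sl.lt
  have h3 := h.D1
  have h4 : 0 < D - 1 := by linarith
  have hg := h.g0
  have hg1 := h.g1'
  have hc := c0_pos h.sl
  have hst := Real.sqrt_pos.2 h1
  obtain ⟨z, hz, hu⟩ := psi_upper h
  set g := gg θ D with hgd
  set c : ℝ := (D - 1) / D * (θ * Real.sqrt θ * c0 θ) with hcd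
  have hc0 : 0 < c := by positivity
  -- `i0 = ⌊1 / θ⌋ - 1`
  have hL1 : 1 ≤ LL θ 1 := by
    unfold LL
    apply Nat.le_floor
    rw [le_div_iff₀ h1]
    push_cast
    linarith
  set i0 := LL θ 1 - 1 with hi0
  have hi0' : (i0 : ℝ) = LL θ 1 - 1 := by rw [hi0, Nat.cast_sub hL1, Nat.cast_one]
  set γ : ℝ := c * (g ^ ((i0 : ℝ) + 1) * θ) with hγ
  have hγ0 : 0 < γ := by
    have := Real.rpow_pos_of_pos hg ((i0 : ℝ) + 1)
    positivity
  -- the choice of `η`
  obtain ⟨η, hη, hη2⟩ : ∃ η : ℝ, 0 < η ∧ (1 - g ^ (2 * η)) * z ≤ γ / 2 := by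
    have hcont : Tendsto (fun η : ℝ => (1 - g ^ (2 * η)) * z) (𝓝 0) (𝓝 ((1 - g ^ (2 * (0 : ℝ))) * z)) := by
      have : Continuous fun η : ℝ => (1 - g ^ (2 * η)) * z := by
        have := (Real.continuous_const_rpow hg.ne').comp (continuous_const.mul continuous_id : Continuous fun η : ℝ => 2 * η)
        exact (continuous_const.sub this).mul continuous_const
      exact this.tendsto 0
    rw [mul_zero, Real.rpow_zero, sub_self, zero_mul] at hcont
    have h5 := (Metric.tendsto_nhds.1 hcont) (γ / 2) (by positivity)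
    obtain ⟨δ, hδ, hball⟩ := Metric.eventually_nhds_iff.1 h5
    refine ⟨δ / 2, by positivity, ?_⟩
    have h6 := hball (y := δ / 2) (by rw [Real.dist_eq, sub_zero, abs_of_pos (by positivity)]; linarith)
    rw [Real.dist_eq, sub_zero] at h6
    exact (le_abs_self _).trans h6.le
  have h5 := (Metric.tendsto_nhds.1 hl) (γ / 4) (by positivity)
  obtain ⟨K, hK⟩ := eventually_atTop.1 h5
  obtain ⟨k1, k2, hk1, hk2, hs⟩ := sides h hη K
  have b1 := hK k1 hk1
  have b2 := hK k2 hk2
  rw [Real.dist_eq, abs_lt] at b1 b2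
  -- the comparison
  set x1 := xx θ k1 0 with hx1
  set x2 := xx θ k2 0 with hx2
  have hxi : ∀ k i : ℕ, xx θ k i = xx θ k 0 + i := by
    intro k i
    unfold xx
    push_cast
    ring
  have hx12 := (hs 0).2.2
  rw [← hx1, ← hx2] at hx12
  have hterm : ∀ i : ℕ, g ^ (x1 - x2) * psi θ D k2 i + (if i = i0 then c * (g ^ (x1 + i0) * θ) else 0) ≤ psi θ D k1 i := by
    intro i
    obtain ⟨s1, s2, s3⟩ := hs i
    have e2 : psi θ D k2 i = c * (g ^ xx θ k2 i * Vf θ (θ * xx θ k2 i)) := by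
      unfold psi; rw [hcd]; ring
    have e1 : psi θ D k1 i = c * (g ^ xx θ k1 i * Vf θ (θ * xx θ k1 i)) := by
      unfold psi; rw [hcd]; ring
    have e3 : g ^ (x1 - x2) * g ^ xx θ k2 i = g ^ xx θ k1 i := by
      rw [← Real.rpow_add hg, hxi k1 i, hxi k2 i]
      congr 1
      ring
    have hgp := Real.rpow_pos_of_pos hg (xx θ k1 i)
    have hm := Vf_mono h.sl (mul_le_mul_of_nonneg_left (show xx θ k2 i ≤ xx θ k1 i by linarith) h1.le)
    rw [e1, e2, show g ^ (x1 - x2) * (c * (g ^ xx θ k2 i * Vf θ (θ * xx θ k2 i))) =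
      c * ((g ^ (x1 - x2) * g ^ xx θ k2 i) * Vf θ (θ * xx θ k2 i)) by ring, e3]
    by_cases hi : i = i0
    · rw [if_pos hi]
      have hj := jump h.sl (w1 := θ * xx θ k1 i) (w2 := θ * xx θ k2 i) (by
        have : θ * (1 / θ - LL θ 1 + i) = 1 - θ := by
          rw [hi, hi0']; field_simp; ring
        rw [← this]
        exact mul_le_mul_of_nonneg_left s1 h1.le) (by
        have : θ * (1 / θ - LL θ 1 + i) = 1 - θ := by
          rw [hi, hi0']; field_simp; ring
        rw [← this]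
        exact mul_lt_mul_of_pos_left s2 h1)
      have e4 : g ^ (x1 + i0) = g ^ xx θ k1 i := by rw [hxi k1 i, hi]
      rw [e4]
      have h6 := mul_le_mul_of_nonneg_left (mul_le_mul_of_nonneg_left hj hgp.le) hc0.le
      linarith
    · rw [if_neg hi, add_zero]
      exact mul_le_mul_of_nonneg_left (mul_le_mul_of_nonneg_left hm hgp.le) hc0.le
  have sm1 := (summables h k1).2
  have sm2 := (summables h k2).2
  have sm3 : Summable fun i : ℕ => (if i = i0 then c * (g ^ (x1 + i0) * θ) else 0) :=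
    (hasSum_ite_eq i0 _).summable
  have h6 := ((sm2.mul_left (g ^ (x1 - x2))).add sm3).tsum_le_tsum hterm sm1
  rw [(sm2.mul_left _).tsum_add sm3, tsum_mul_left, tsum_ite_eq] at h6
  set P1 := ∑' i, psi θ D k1 i with hP1
  set P2 := ∑' i, psi θ D k2 i with hP2
  have h7 : γ ≤ c * (g ^ (x1 + i0) * θ) := by
    rw [hγ]
    apply mul_le_mul_of_nonneg_left _ hc0.le
    apply mul_le_mul_of_nonneg_right _ h1.le
    apply Real.rpow_le_rpow_of_exponent_ge hg hg1.le
    have := (xx_facts h k1 0).2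
    rw [Nat.cast_zero] at this
    linarith
  have h8 : P2 - γ / 2 ≤ g ^ (x1 - x2) * P2 := by
    have a1 : g ^ (2 * η) ≤ g ^ (x1 - x2) := Real.rpow_le_rpow_of_exponent_ge hg hg1.le hx12.le
    have a2 : P2 ≤ z := hu k2
    have a3 : 0 ≤ P2 := tsum_nonneg fun i => psi_nonneg h k2 i
    have a4 : g ^ (2 * η) ≤ 1 := Real.rpow_le_one hg.le hg1.le (by positivity)
    have a5 : (1 - g ^ (x1 - x2)) * P2 ≤ (1 - g ^ (2 * η)) * z := by
      apply mul_le_mul (by linarith) a2 a3 (by linarith)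
    linarith
  linarith [b1.2, b2.1]

end Pool.Agent.H622.Mw
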