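import Mathlib
import Pool.Agent.H622.Mw2

set_option autoImplicit false

/-! Möller's maps: the words of the integers. -/

namespace Pool.Agent.H622.Mw

open Finset Filter Topology
open scoped Classical
open Pool.Agent.H622.Gs (Sl Np)
open Pool.Agent.H622.Tw (T J P up up_succ up_zero P_succ P_zero Surv Cop Adm cnt_Np iter_err compare_all Su Sd cnt ind
  ind_pos ind_neg ind_congr sum_prod up_add J_add Surv_add HasDensity density_of cardP W_zero W_one)

/-- Möller's map -/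
noncomputable def H (d m : ℕ) (r : ℤ → ℤ) (x : ℤ) : ℤ :=
  ((m : ℤ) * x - r (x % (d : ℤ))) / (d : ℤ) ^ (multiplicity (d : ℤ) ((m : ℤ) * x - r (x % (d : ℤ))))

def mm (m : ℕ) (i : ℤ) : ℤ := if i = 0 then 1 else m
def rr (r : ℤ → ℤ) (i : ℤ) : ℤ := if i = 0 then 0 else r i
def UU (i : ℤ) : Prop := i ≠ 0

/-- the map with a division in each step -/
def TT (d m : ℕ) (r : ℤ → ℤ) : ℤ → ℤ := T d (mm m) (rr r)

noncomputable def uu (d m : ℕ) (r : ℤ → ℤ) (k : ℕ) (x : ℤ) : ℕ := up d (mm m) (rr r) UU k x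

/-- the setting -/
structure Mol (d m : ℕ) (r : ℤ → ℤ) : Prop where
  d2 : 2 ≤ d
  dm : d < m
  cop : Nat.Coprime m d
  adm : ∀ j : ℤ, 0 < j → j < (d : ℤ) → r j ≡ (m : ℤ) * j [ZMOD (d : ℤ)]

variable {d m : ℕ} {r : ℤ → ℤ}

theorem Mol.d0 (h : Mol d m r) : (0 : ℤ) < d := by have := h.d2; omega

theorem Mol.dvd (h : Mol d m r) {y : ℤ} (hy : y % d ≠ 0) : (d : ℤ) ∣ (m : ℤ) * y - r (y % d) := by
  have h0 := h.d0
  have h1 := Int.emod_nonneg y h0.ne'
  have h2 := Int.emod_lt_of_pos y h0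
  have h3 := h.adm (y % d) (lt_of_le_of_ne h1 (Ne.symm hy)) h2
  have h4 : r (y % d) ≡ (m : ℤ) * y [ZMOD d] := h3.trans ((Int.mod_modEq y d).mul_left _)
  exact h4.dvd

theorem TT_ndvd {y : ℤ} (hy : y % d ≠ 0) : TT d m r y = ((m : ℤ) * y - r (y % d)) / d := by
  unfold TT T mm rr
  rw [if_neg hy, if_neg hy]

theorem TT_dvd {y : ℤ} (hy : y % d = 0) : TT d m r y = y / d := by
  unfold TT T mm rr
  rw [if_pos hy, if_pos hy, one_mul, sub_zero]

/-- one step of Möller's map -/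
theorem step (h : Mol d m r) {y : ℤ} (hy : y % d ≠ 0) (hz : (m : ℤ) * y - r (y % d) ≠ 0) :
    ∃ a : ℕ, 1 ≤ a ∧ ¬ (d : ℤ) ∣ H d m r y ∧ ∀ i, 1 ≤ i → i ≤ a → (TT d m r)^[i] y = (d : ℤ) ^ (a - i) * H d m r y := by
  have h0 := h.d0
  set z := (m : ℤ) * y - r (y % d) with hzd
  have hfin : FiniteMultiplicity (d : ℤ) z := by
    rw [Int.finiteMultiplicity_iff]
    refine ⟨?_, hz⟩
    have := h.d2
    simp only [Int.natAbs_natCast]
    omega
  obtain ⟨w, hw, hdw⟩ := hfin.exists_eq_pow_mul_and_not_dvd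
  set a := multiplicity (d : ℤ) z with ha
  have hH : H d m r y = w := by
    unfold H
    rw [← hzd, ← ha]
    conv_lhs => rw [hw]
    exact Int.mul_ediv_cancel_left _ (by positivity)
  have ha1 : 1 ≤ a := by
    by_contra h1
    have h2 : a = 0 := by omega
    rw [h2, pow_zero, one_mul] at hw
    have h3 := h.dvd hy
    rw [← hzd, hw] at h3
    exact hdw h3
  refine ⟨a, ha1, by rw [hH]; exact hdw, ?_⟩
  intro i
  induction i with
  | zero => intro h1; omega
  | succ i ih =>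
    intro _ hi
    rw [hH]
    rcases Nat.eq_zero_or_pos i with h1 | h1
    · subst h1
      rw [zero_add, Function.iterate_one, TT_ndvd hy, ← hzd, hw]
      obtain ⟨b, hb⟩ : ∃ b, a = b + 1 := ⟨a - 1, by omega⟩
      rw [hb, Nat.add_sub_cancel, pow_succ, mul_assoc, mul_comm (d : ℤ) w, ← mul_assoc,
        Int.mul_ediv_cancel _ h0.ne']
    · have h2 := ih h1 (by omega)
      rw [Function.iterate_succ_apply', h2, hH]
      obtain ⟨b, hb⟩ : ∃ b, a - i = b + 1 := ⟨a - i - 1, by omega⟩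
      have hb2 : a - (i + 1) = b := by omega
      rw [hb, hb2, TT_dvd, pow_succ, mul_assoc, mul_comm (d : ℤ) w, ← mul_assoc, Int.mul_ediv_cancel _ h0.ne']
      rw [pow_succ, mul_assoc, mul_comm (d : ℤ) w, ← mul_assoc, Int.mul_emod_left]

theorem uu_zero (x : ℤ) : uu d m r 0 x = 0 := up_zero x

theorem uu_succ (k : ℕ) (x : ℤ) : uu d m r (k + 1) x = uu d m r k x + if (TT d m r)^[k] x % d ≠ 0 then 1 else 0 := by
  unfold uu
  rw [up_succ]
  congr 1
  exact if_congr Iff.rfl rfl rfl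

/-- the ups in a block -/
theorem block {n : ℤ} {A a : ℕ} (hA : (TT d m r)^[A] n % d ≠ 0)
    (ha : ∀ i, 1 ≤ i → i ≤ a → (TT d m r)^[i] ((TT d m r)^[A] n) = (d : ℤ) ^ (a - i) * H d m r ((TT d m r)^[A] n)) :
    ∀ i, 1 ≤ i → i ≤ a → uu d m r (A + i) n = uu d m r A n + 1 := by
  intro i
  induction i with
  | zero => intro h1; omega
  | succ i ih =>
    intro _ hi
    rcases Nat.eq_zero_or_pos i with h1 | h1
    · subst h1
      rw [zero_add, uu_succ, if_pos hA]
    · rw [← add_assoc, uu_succ, ih h1 (by omega)]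
      have h2 := ha i h1 (by omega)
      have e : (TT d m r)^[A + i] n = (TT d m r)^[i] ((TT d m r)^[A] n) := by
        rw [add_comm A i, Function.iterate_add_apply]
      rw [e, h2, if_neg]
      rw [not_not]
      obtain ⟨b, hb⟩ : ∃ b, a - i = b + 1 := ⟨a - i - 1, by omega⟩
      rw [hb, pow_succ, mul_assoc, mul_comm (d : ℤ), ← mul_assoc, Int.mul_emod_left]

/-- from Möller's map to the words -/
theorem fwd (h : Mol d m r) {θ : ℝ} (hθ : 0 < θ) {k : ℕ} {n : ℤ} (hn : 0 < n) (hnd : n % d ≠ 0)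
    (hcmp : ∀ j ≤ LL θ k + 1, (n ≤ (TT d m r)^[j] n ↔ 0 ≤ (uu d m r j n : ℝ) - j * θ))
    (hE : ∀ j ≤ k, n ≤ (H d m r)^[j] n) : ∀ j ≤ k, ∃ A ≤ LL θ k, (H d m r)^[j] n = (TT d m r)^[A] n ∧
      uu d m r A n = j ∧ (TT d m r)^[A] n % d ≠ 0 ∧ ∀ i ≤ A, n ≤ (TT d m r)^[i] n := by
  intro j
  have h0 := h.d0
  induction j with
  | zero =>
    intro _
    refine ⟨0, Nat.zero_le _, rfl, uu_zero n, hnd, ?_⟩
    intro i hi
    have : i = 0 := by omega
    subst this
    exact le_rfl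
  | succ j ih =>
    intro hj
    obtain ⟨A, hAL, hH, hu, hy, hle⟩ := ih (by omega)
    set y := (TT d m r)^[A] n with hyd
    have hn1 := hE (j + 1) hj
    rw [Function.iterate_succ_apply', hH] at hn1
    have hz : (m : ℤ) * y - r (y % d) ≠ 0 := by
      intro hz
      have : H d m r y = 0 := by
        unfold H
        rw [hz, Int.zero_ediv]
      omega
    obtain ⟨a, ha1, hdw, hst⟩ := step h hy hz
    have hblk := block hy hst
    have hit : ∀ i, (TT d m r)^[A + i] n = (TT d m r)^[i] y := by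
      intro i
      rw [add_comm A i, Function.iterate_add_apply]
    have hge : ∀ i, 1 ≤ i → i ≤ a → n ≤ (TT d m r)^[A + i] n := by
      intro i hi hia
      rw [hit, hst i hi hia]
      have h1 : (1 : ℤ) ≤ (d : ℤ) ^ (a - i) := one_le_pow₀ (by omega)
      nlinarith
    have hAa : A + a ≤ LL θ k := by
      by_contra hcon
      push Not at hcon
      obtain ⟨i, hi⟩ : ∃ i, LL θ k + 1 = A + i := ⟨LL θ k + 1 - A, by omega⟩
      have h1 := hge i (by omega) (by omega)
      rw [← hi] at h1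
      have h2 := (hcmp _ le_rfl).1 h1
      rw [hi, hblk i (by omega) (by omega), hu, ← hi] at h2
      have h3 : (k : ℝ) / θ < LL θ k + 1 := Nat.lt_floor_add_one _
      rw [div_lt_iff₀ hθ] at h3
      have h4 : ((j + 1 : ℕ) : ℝ) ≤ k := by exact_mod_cast hj
      push_cast at h2 h4
      linarith
    refine ⟨A + a, hAa, ?_, ?_, ?_, ?_⟩
    · rw [Function.iterate_succ_apply', hH, hit, hst a ha1 le_rfl, Nat.sub_self, pow_zero, one_mul]
    · rw [hblk a ha1 le_rfl, hu]
    · rw [hit, hst a ha1 le_rfl, Nat.sub_self, pow_zero, one_mul]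
      intro h1
      exact hdw (Int.dvd_of_emod_eq_zero h1)
    · intro i hi
      rcases Nat.lt_or_ge A i with h1 | h1
      · obtain ⟨i', rfl⟩ : ∃ i', i = A + i' := ⟨i - A, by omega⟩
        exact hge i' (by omega) (by omega)
      · exact hle i h1

/-- from the words to Möller's map -/
theorem bwd (h : Mol d m r) {k A : ℕ} {n : ℤ} (hnd : n % d ≠ 0)
    (hpos : ∀ j ≤ A, 0 < (TT d m r)^[j] n) (hu : uu d m r A n = k) (hA : (TT d m r)^[A] n % d ≠ 0) :
    ∀ j ≤ k, ∃ A' ≤ A, (H d m r)^[j] n = (TT d m r)^[A'] n ∧ uu d m r A' n = j ∧ (TT d m r)^[A'] n % d ≠ 0 := by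
  intro j
  have h0 := h.d0
  induction j with
  | zero =>
    intro _
    exact ⟨0, Nat.zero_le _, rfl, uu_zero n, hnd⟩
  | succ j ih =>
    intro hj
    obtain ⟨B, hBA, hH, hu2, hy⟩ := ih (by omega)
    have hlt : B < A := by
      rcases Nat.lt_or_ge B A with h1 | h1
      · exact h1
      · exfalso
        have : B = A := by omega
        subst this
        omega
    set y := (TT d m r)^[B] n with hyd
    have hz : (m : ℤ) * y - r (y % d) ≠ 0 := by
      intro hz
      have h1 := hpos (B + 1) (by omega)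
      rw [Function.iterate_succ_apply', ← hyd, TT_ndvd hy, hz, Int.zero_ediv] at h1
      exact lt_irrefl _ h1
    obtain ⟨a, ha1, hdw, hst⟩ := step h hy hz
    have hblk := block hy hst
    have hit : ∀ i, (TT d m r)^[B + i] n = (TT d m r)^[i] y := by
      intro i
      rw [add_comm B i, Function.iterate_add_apply]
    have hBa : B + a ≤ A := by
      by_contra hcon
      push Not at hcon
      obtain ⟨i, hi⟩ : ∃ i, A = B + i := ⟨A - B, by omega⟩
      apply hA
      rw [hi, hit, hst i (by omega) (by omega)]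
      obtain ⟨b, hb⟩ : ∃ b, a - i = b + 1 := ⟨a - i - 1, by omega⟩
      rw [hb, pow_succ, mul_assoc, mul_comm (d : ℤ), ← mul_assoc, Int.mul_emod_left]
    refine ⟨B + a, hBa, ?_, ?_, ?_⟩
    · rw [Function.iterate_succ_apply', hH, hit, hst a ha1 le_rfl, Nat.sub_self, pow_zero, one_mul]
    · rw [hblk a ha1 le_rfl, hu2]
    · rw [hit, hst a ha1 le_rfl, Nat.sub_self, pow_zero, one_mul]
      intro h1
      exact hdw (Int.dvd_of_emod_eq_zero h1)

theorem P_up (k : ℕ) (x : ℤ) : P d (mm m) (rr r) k x = (m : ℤ) ^ uu d m r k x := by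
  induction k with
  | zero => rw [P_zero, uu_zero, pow_zero]
  | succ k ih =>
    rw [P_succ, ih, uu_succ]
    have e : J d (mm m) (rr r) k x = (TT d m r)^[k] x % d := rfl
    rw [e]
    unfold mm
    split_ifs with h1 h2
    · exact absurd h1 h2
    · rw [mul_one, add_zero]
    · rw [pow_succ]

theorem Mol.Adm' (h : Mol d m r) : Adm d (mm m) (rr r) := by
  intro i h0 h1
  unfold mm rr
  split_ifs with h2
  · rw [h2]; simp
  · exact (h.adm i (by omega) h1).dvd

theorem Mol.Cop' (h : Mol d m r) : Cop d (mm m) := by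
  intro j _ _
  unfold mm
  split_ifs
  · exact isCoprime_one_left
  · exact Nat.isCoprime_iff_coprime.2 h.cop

/-- the slope -/
noncomputable def th (d m : ℕ) : ℝ := Real.log d / Real.log m

theorem Mol.logs (h : Mol d m r) : 0 < Real.log d ∧ Real.log d < Real.log m := by
  have h1 : (1 : ℝ) < d := by exact_mod_cast h.d2
  have h2 : (d : ℝ) < m := by exact_mod_cast h.dm
  exact ⟨Real.log_pos h1, Real.log_lt_log (by linarith) h2⟩

theorem Mol.ne_pow (h : Mol d m r) {j : ℕ} (hj : 1 ≤ j) (u : ℕ) : m ^ u ≠ d ^ j := by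
  intro e
  have h1 : d ∣ m ^ u := by
    rw [e]
    exact dvd_pow_self d (by omega)
  have h2 : Nat.Coprime d (m ^ u) := (Nat.Coprime.pow_left u h.cop).symm
  have h3 := Nat.Coprime.eq_one_of_dvd h2 h1
  have := h.d2
  omega

theorem Mol.sl (h : Mol d m r) : Sl (th d m) := by
  obtain ⟨h1, h2⟩ := h.logs
  have h3 : 0 < Real.log m := h1.trans h2
  refine ⟨div_pos h1 h3, (div_lt_one h3).2 h2, ?_⟩
  intro k hk o e
  unfold th at e
  rw [mul_div_assoc', div_eq_iff h3.ne'] at e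
  have ho : (0 : ℝ) < o := by
    by_contra h4
    push Not at h4
    have : (0 : ℝ) < k * Real.log d := by
      have : (0 : ℝ) < k := by exact_mod_cast hk
      positivity
    nlinarith
  have ho' : 0 < o := by exact_mod_cast ho
  obtain ⟨u, rfl⟩ := Int.eq_ofNat_of_zero_le ho'.le
  have hd0 : (0 : ℝ) < d := by have := h.d2; positivity
  have hm0 : (0 : ℝ) < m := by have := h.dm; exact_mod_cast (by omega : 0 < m)
  rw [Int.cast_natCast, ← Real.log_pow, ← Real.log_pow] at e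
  have e2 := Real.log_injOn_pos (Set.mem_Ioi.2 (by positivity)) (Set.mem_Ioi.2 (by positivity)) e
  exact h.ne_pow hk u (by exact_mod_cast e2.symm)

theorem Mol.le_iff (h : Mol d m r) (j u : ℕ) : (d : ℝ) ^ j ≤ (m : ℝ) ^ u ↔ 0 ≤ (u : ℝ) - j * th d m := by
  obtain ⟨h1, h2⟩ := h.logs
  have h3 : 0 < Real.log m := h1.trans h2
  have hd0 : (0 : ℝ) < d := by have := h.d2; positivity
  have hm0 : (0 : ℝ) < m := by have := h.dm; exact_mod_cast (by omega : 0 < m)
  rw [← Real.log_le_log_iff (by positivity) (by positivity), Real.log_pow, Real.log_pow]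
  have e : (j : ℝ) * Real.log d = j * th d m * Real.log m := by
    unfold th
    field_simp
  rw [e, mul_le_mul_iff_left₀ h3]
  constructor <;> intro h5 <;> linarith

/-- the words -/
def QA (d m : ℕ) (r : ℤ → ℤ) (k A : ℕ) (n : ℤ) : Prop :=
  (Surv d (mm m) (rr r) UU (th d m) 0 A n ∧ uu d m r A n = k) ∧ (TT d m r)^[A] n % d ≠ 0

theorem QA_unique {k A B : ℕ} {n : ℤ} (h1 : QA d m r k A n) (h2 : QA d m r k B n) : A = B := by
  have key : ∀ {A B : ℕ}, QA d m r k A n → QA d m r k B n → ¬ A < B := by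
    intro A B h1 h2 h3
    have h4 : uu d m r (A + 1) n = k + 1 := by rw [uu_succ, if_pos h1.2, h1.1.2]
    have h5 : uu d m r (A + 1) n ≤ uu d m r B n := by
      obtain ⟨c, rfl⟩ : ∃ c, B = A + 1 + c := ⟨B - (A + 1), by omega⟩
      exact Tw.up_mono (A + 1) c n
    rw [h4, h2.1.2] at h5
    omega
  have := key h1 h2
  have := key h2 h1
  omega

/-- the exceptional sets of the finite stages -/
def Ek (d m : ℕ) (r : ℤ → ℤ) (k : ℕ) : Set ℤ :=
  {n | 0 < n ∧ ¬ ((d : ℤ) ∣ n) ∧ ∀ j ≤ k, ¬ (H d m r)^[j] n < n}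

theorem QA_ndvd (h : Mol d m r) {k A : ℕ} {n : ℤ} (hQ : QA d m r k A n) : n % d ≠ 0 := by
  rcases Nat.eq_zero_or_pos A with h1 | h1
  · subst h1
    exact hQ.2
  · intro h2
    have h3 := hQ.1.1 1 h1
    have h4 : up d (mm m) (rr r) UU 1 n = 0 := by
      have : uu d m r 1 n = 0 := by
        rw [show (1 : ℕ) = 0 + 1 from rfl, uu_succ, uu_zero]
        simp [h2]
      exact this
    rw [h4] at h3
    have := h.sl.pos
    push_cast at h3
    linarith

/-- THE EQUIVALENCE -/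
theorem main_equiv (h : Mol d m r) (k : ℕ) : ∃ B : ℕ, ∃ C : ℝ, 0 ≤ C ∧ ∀ n : ℤ, (B : ℤ) < n →
    (n ∈ Ek d m r k ↔ ∃ A ≤ LL (th d m) k, QA d m r k A n) ∧
    ∀ A ≤ LL (th d m) k, QA d m r k A n → |(((H d m r)^[k] n : ℤ) : ℝ) - (m : ℝ) ^ k / (d : ℝ) ^ A * n| ≤ C := by
  have h0 := h.d0
  have hdR : (0 : ℝ) < d := by exact_mod_cast h0
  have hmR : (0 : ℝ) < m := by have := h.dm; exact_mod_cast (by omega : 0 < m)
  have hd : 0 < d := by exact_mod_cast h0
  have hm1 : (1 : ℤ) ≤ m := by have := h.dm; have := h.d2; omega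
  set L := LL (th d m) k with hL
  have hPabs : ∀ (j : ℕ) (x : ℤ), ((|P d (mm m) (rr r) j x| : ℤ) : ℝ) = (m : ℝ) ^ uu d m r j x := by
    intro j x
    rw [P_up, abs_of_nonneg (by positivity)]
    push_cast; rfl
  obtain ⟨B1, hB1⟩ := compare_all (m := mm m) (r := rr r) hd h.Adm' (c := 1) le_rfl (by
    intro j hj x
    rw [hPabs, one_mul]
    have := h.ne_pow hj (uu d m r j x)
    exact_mod_cast this) (L + 1)
  -- the errors
  have herr : ∀ K : ℕ, ∃ C : ℤ, 0 ≤ C ∧ ∀ j ≤ K, ∀ x : ℤ,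
      |(d : ℤ) ^ j * (TT d m r)^[j] x - P d (mm m) (rr r) j x * x| ≤ C := by
    intro K
    induction K with
    | zero =>
      obtain ⟨C, hC, hx⟩ := iter_err (m := mm m) (r := rr r) hd h.Adm' 0
      refine ⟨C, hC, fun j hj x => ?_⟩
      have : j = 0 := by omega
      subst this
      exact hx x
    | succ K ih =>
      obtain ⟨C1, hC1, hx1⟩ := ih
      obtain ⟨C2, hC2, hx2⟩ := iter_err (m := mm m) (r := rr r) hd h.Adm' (K + 1)
      refine ⟨max C1 C2, le_max_of_le_left hC1, fun j hj x => ?_⟩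
      rcases Nat.lt_or_ge j (K + 1) with h1 | h1
      · exact (hx1 j (by omega) x).trans (le_max_left _ _)
      · have : j = K + 1 := by omega
        subst this
        exact (hx2 x).trans (le_max_right _ _)
  obtain ⟨C, hC, hCx⟩ := herr (L + 1)
  refine ⟨max B1 C.toNat, (C : ℝ), by exact_mod_cast hC, ?_⟩
  intro n hn
  have hnB : (B1 : ℤ) < n := lt_of_le_of_lt (by exact_mod_cast le_max_left _ _) hn
  have hnC : C < n := by
    have h1 : ((C.toNat : ℕ) : ℤ) < n := lt_of_le_of_lt (by exact_mod_cast le_max_right _ _) hn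
    rwa [Int.toNat_of_nonneg hC] at h1
  have hn0 : 0 < n := lt_of_le_of_lt hC hnC
  have hpos : ∀ j ≤ L + 1, 0 < (TT d m r)^[j] n := by
    intro j hj
    have h1 := (abs_le.1 (hCx j hj n)).1
    have h2 : (1 : ℤ) ≤ P d (mm m) (rr r) j n := by
      rw [P_up]
      exact one_le_pow₀ hm1
    have h3 : n ≤ P d (mm m) (rr r) j n * n := by nlinarith
    have h4 : 0 < (d : ℤ) ^ j * (TT d m r)^[j] n := by linarith
    exact (mul_pos_iff_of_pos_left (by positivity)).1 h4
  have hcmp : ∀ j ≤ L + 1, (n ≤ (TT d m r)^[j] n ↔ 0 ≤ (uu d m r j n : ℝ) - j * th d m) := by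
    intro j hj
    have h1 := hB1 n (by rw [abs_of_pos hn0]; exact hnB) j hj
    rw [hPabs, one_mul, one_mul, abs_of_pos hn0] at h1
    have h2 : |(T d (mm m) (rr r))^[j] n| = (TT d m r)^[j] n := abs_of_pos (hpos j hj)
    rw [h2, h.le_iff] at h1
    rw [← h1]
    exact Int.cast_le.symm
  have hback : ∀ A ≤ L, QA d m r k A n → n ∈ Ek d m r k ∧ (H d m r)^[k] n = (TT d m r)^[A] n := by
    intro A hA hQ
    have hnd := QA_ndvd h hQ
    have hb := bwd h hnd (A := A) (fun j hj => hpos j (by omega)) hQ.1.2 hQ.2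
    refine ⟨⟨hn0, fun h1 => hnd (Int.emod_eq_zero_of_dvd h1), ?_⟩, ?_⟩
    · intro j hj
      obtain ⟨A', hA', hH, hu, -⟩ := hb j hj
      rw [not_lt, hH]
      apply (hcmp A' (by omega)).2
      have := hQ.1.1 A' hA'
      rw [neg_zero] at this
      exact this
    · obtain ⟨A', hA', hH, hu, hy⟩ := hb k le_rfl
      have hQ' : QA d m r k A' n := by
        refine ⟨⟨?_, hu⟩, hy⟩
        intro i hi
        exact hQ.1.1 i (by omega)
      rw [hH, QA_unique hQ' hQ]
  refine ⟨⟨?_, ?_⟩, ?_⟩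
  · rintro ⟨-, hnd, hE⟩
    obtain ⟨A, hAL, -, hu, hy, hle⟩ := fwd h h.sl.pos hn0 (fun h1 => hnd (Int.dvd_of_emod_eq_zero h1)) hcmp
      (fun j hj => not_lt.1 (hE j hj)) k le_rfl
    refine ⟨A, hAL, ⟨?_, hu⟩, hy⟩
    intro i hi
    have h1 := (hcmp i (by omega)).1 (hle i hi)
    rw [neg_zero]
    exact h1
  · rintro ⟨A, hA, hQ⟩
    exact (hback A hA hQ).1
  · intro A hA hQ
    rw [(hback A hA hQ).2]
    have h1 := hCx A (by omega) n
    rw [P_up, hQ.1.2] at h1
    have h2 : |(d : ℝ) ^ A * ((TT d m r)^[A] n : ℤ) - (m : ℝ) ^ k * (n : ℝ)| ≤ (C : ℝ) := by exact_mod_cast h1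
    have hdA : (1 : ℝ) ≤ (d : ℝ) ^ A := one_le_pow₀ (by have := h.d2; exact_mod_cast (by omega : 1 ≤ d))
    have hdA0 : (0 : ℝ) < (d : ℝ) ^ A := by linarith
    have e : (((TT d m r)^[A] n : ℤ) : ℝ) - (m : ℝ) ^ k / (d : ℝ) ^ A * n =
        ((d : ℝ) ^ A * ((TT d m r)^[A] n : ℤ) - (m : ℝ) ^ k * (n : ℝ)) / (d : ℝ) ^ A := by
      field_simp
    rw [e, abs_div, abs_of_pos hdA0, div_le_iff₀ hdA0]
    have hC' : (0 : ℝ) ≤ C := by exact_mod_cast hC
    nlinarith

end Pool.Agent.H622.Mw
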