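import Mathlib
import Pool.Agent.H622.Mw3

set_option autoImplicit false

/-! Möller's maps: the densities. -/

namespace Pool.Agent.H622.Mw

open Finset Filter Topology
open scoped Classical
open Pool.Agent.H622.Gs (Sl Np)
open Pool.Agent.H622.Tw (T J P up up_succ up_zero P_succ P_zero Surv Cop Adm cnt_Np iter_err compare_all Su Sd cnt ind
  ind_pos ind_neg ind_congr sum_prod up_add J_add Surv_add HasDensity density_of cardP W_zero W_one)

variable {d m : ℕ} {r : ℤ → ℤ}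

theorem su_eq (hd : 0 < d) : Su d UU (fun _ => 1) = (d : ℝ) - 1 ∧ Sd d UU (fun _ => 1) = 1 := by
  have h1 : Sd d UU (fun _ => 1) = 1 := by
    unfold Sd
    rw [sum_eq_single 0]
    · rw [if_neg]; unfold UU; simp
    · intro j _ hj
      rw [if_pos]
      unfold UU
      exact_mod_cast hj
    · intro h2
      exact absurd (mem_range.2 hd) h2
  have h2 := Tw.su_add_sd (d := d) (U := UU)
  unfold Tw.su Tw.sd at h2
  exact ⟨by linarith, h1⟩

theorem QA_per (h : Mol d m r) (k A : ℕ) (x y : ℤ) : QA d m r k A (x + ((d ^ (A + 1) : ℕ) : ℤ) * y) ↔ QA d m r k A x := by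
  have hd : 0 < d := by have := h.d2; omega
  have e : x + ((d ^ (A + 1) : ℕ) : ℤ) * y = x + (d : ℤ) ^ (A + 1) * y := by push_cast; ring
  rw [e]
  have hu : ∀ j ≤ A, up d (mm m) (rr r) UU j (x + (d : ℤ) ^ (A + 1) * y) = up d (mm m) (rr r) UU j x :=
    fun j hj => up_add hd (A + 1) x y (by omega)
  have hJ : J d (mm m) (rr r) A (x + (d : ℤ) ^ (A + 1) * y) = J d (mm m) (rr r) A x := J_add hd (A + 1) x y (by omega)
  unfold QA Surv uu
  have hJ' : (TT d m r)^[A] (x + (d : ℤ) ^ (A + 1) * y) % d = (TT d m r)^[A] x % d := hJ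
  rw [hJ', hu A le_rfl]
  constructor
  · rintro ⟨⟨h1, h2⟩, h3⟩
    exact ⟨⟨fun j hj => by rw [← hu j hj]; exact h1 j hj, h2⟩, h3⟩
  · rintro ⟨⟨h1, h2⟩, h3⟩
    exact ⟨⟨fun j hj => by rw [hu j hj]; exact h1 j hj, h2⟩, h3⟩

/-- the number of the residues -/
theorem card_QA (h : Mol d m r) (k A : ℕ) : (cardP (d ^ (A + 1)) (QA d m r k A) : ℝ) =
    (((Np (th d m) 0 A).coeff k : ℤ) : ℝ) * ((d : ℝ) - 1) ^ (k + 1) := by
  have hd : 0 < d := by have := h.d2; omega
  obtain ⟨hsu, hsd⟩ := su_eq hd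
  have h1 := cnt_Np (d := d) (m := mm m) (r := rr r) (U := UU) (θ := th d m) (u := 0) hd h.Cop' (fun _ => 1)
    (j := 0) (y := 0) (by simp) (by
      intro j hj
      have : j = 0 := by omega
      subst this
      simp) A k
  rw [hsu, hsd, one_pow, mul_one, W_zero, one_mul, zero_add] at h1
  have h0 : up d (mm m) (rr r) UU 0 ((0 : ℕ) : ℤ) = 0 := up_zero _
  rw [h0, zero_add] at h1
  have e0 : (0 : ℝ) + ((0 : ℕ) : ℝ) - ((0 : ℕ) : ℝ) * th d m = 0 := by simp
  rw [e0] at h1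
  have h2 := sum_prod (m := mm m) (r := rr r) hd h.Cop' A
    (fun n => ind (Surv d (mm m) (rr r) UU (th d m) 0 A (n : ℤ) ∧ uu d m r A (n : ℤ) = k)) (fun x i => by
      show ind _ = ind _
      apply ind_congr
      have e : ((x + d ^ A * i : ℕ) : ℤ) = (x : ℤ) + (d : ℤ) ^ A * (i : ℤ) := by push_cast; ring
      unfold uu
      rw [e, Surv_add hd, up_add hd A _ _ le_rfl]) (fun j => if UU j then 1 else 0)
  have h3 : ∑ j ∈ range d, (if UU (j : ℤ) then (1 : ℝ) else 0) = (d : ℝ) - 1 := hsu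
  rw [h3] at h2
  have h4 : ∑ n ∈ range (d ^ A), ind (Surv d (mm m) (rr r) UU (th d m) 0 A (n : ℤ) ∧ uu d m r A (n : ℤ) = k) =
      (((Np (th d m) 0 A).coeff k : ℤ) : ℝ) * ((d : ℝ) - 1) ^ k := by
    rw [← h1]
    unfold cnt
    apply sum_congr rfl
    intro n _
    rw [W_one, mul_one]
    apply ind_congr
    beta_reduce
    rw [pow_zero, Nat.mod_one]
    unfold uu
    simp
  rw [h4] at h2
  rw [pow_succ ((d : ℝ) - 1) k, ← mul_assoc, ← h2]
  unfold cardP
  rw [card_filter]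
  push_cast
  apply sum_congr rfl
  intro n _
  unfold QA ind
  have e : (UU (J d (mm m) (rr r) A (n : ℤ))) ↔ ((TT d m r)^[A] (n : ℤ) % d ≠ 0) := Iff.rfl
  by_cases h5 : Surv d (mm m) (rr r) UU (th d m) 0 A (n : ℤ) ∧ uu d m r A (n : ℤ) = k
  · by_cases h6 : (TT d m r)^[A] (n : ℤ) % d ≠ 0
    · rw [if_pos ⟨h5, h6⟩, if_pos h5, if_pos (e.2 h6), one_mul]
    · rw [if_neg (fun h7 => h6 h7.2), if_neg (fun h7 => h6 (e.1 h7)), mul_zero]
  · rw [if_neg (fun h7 => h5 h7.1), if_neg h5, zero_mul]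

/-- the counting function -/
noncomputable def cntS (S : Set ℤ) (N : ℕ) : ℝ := (((Icc 1 N).filter fun n : ℕ => (n : ℤ) ∈ S).card : ℝ)

theorem dens_QA (h : Mol d m r) (k A : ℕ) :
    Tendsto (fun N : ℕ => cntS {n | QA d m r k A n} N / N) atTop (𝓝 (ee (th d m) d k A)) := by
  have hd : 0 < d := by have := h.d2; omega
  have h1 := density_of (M := d ^ (A + 1)) (B := 0) (by positivity) (QA d m r k A) (QA_per h k A)
    {n | QA d m r k A n} (fun x _ => Iff.rfl) 1 (Or.inl rfl)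
  rw [card_QA h k A] at h1
  unfold ee cntS
  have e : (((Np (th d m) 0 A).coeff k : ℤ) : ℝ) * ((d : ℝ) - 1) ^ (k + 1) / ((d ^ (A + 1) : ℕ) : ℝ) =
      (((Np (th d m) 0 A).coeff k : ℤ) : ℝ) * (((d : ℝ) - 1) ^ (k + 1) / (d : ℝ) ^ (A + 1)) := by
    push_cast; ring
  rw [← e]
  simpa only [one_mul] using h1

theorem dens_congr {S S' : Set ℤ} {B : ℕ} (hS : ∀ n : ℤ, (B : ℤ) < n → (n ∈ S ↔ n ∈ S')) {δ : ℝ}
    (h : Tendsto (fun N : ℕ => cntS S' N / N) atTop (𝓝 δ)) : Tendsto (fun N : ℕ => cntS S N / N) atTop (𝓝 δ) := by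
  have hcmp : ∀ N : ℕ, |cntS S N - cntS S' N| ≤ B + 1 := by
    intro N
    have key : ∀ {S S' : Set ℤ}, (∀ n : ℤ, (B : ℤ) < n → (n ∈ S ↔ n ∈ S')) → cntS S N ≤ cntS S' N + (B + 1) := by
      intro S S' hS
      have h1 : (Icc 1 N).filter (fun n : ℕ => (n : ℤ) ∈ S) ⊆ (Icc 1 N).filter (fun n : ℕ => (n : ℤ) ∈ S') ∪ range (B + 1) := by
        intro n hn
        rw [mem_filter, mem_Icc] at hn
        rw [mem_union, mem_filter, mem_Icc, mem_range]
        rcases Nat.lt_or_ge B n with h2 | h2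
        · left
          exact ⟨hn.1, (hS n (by exact_mod_cast h2)).1 hn.2⟩
        · right; omega
      have h2 := (card_le_card h1).trans (card_union_le _ _)
      rw [card_range] at h2
      unfold cntS
      exact_mod_cast h2
    have a1 := key hS
    have a2 := key (fun n hn => (hS n hn).symm)
    rw [abs_le]
    constructor <;> linarith
  have h2 : Tendsto (fun N : ℕ => ((B : ℝ) + 1) / (N : ℝ)) atTop (𝓝 0) :=
    tendsto_const_nhds.div_atTop tendsto_natCast_atTop_atTop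
  have h3 : Tendsto (fun N : ℕ => cntS S N / N - cntS S' N / N) atTop (𝓝 0) := by
    apply squeeze_zero_norm _ h2
    intro N
    rw [← sub_div, Real.norm_eq_abs, abs_div, abs_of_nonneg (Nat.cast_nonneg N : (0 : ℝ) ≤ (N : ℝ))]
    exact div_le_div_of_nonneg_right (hcmp N) (Nat.cast_nonneg _)
  have h4 := h3.add h
  rw [zero_add] at h4
  refine h4.congr fun N => ?_
  ring

theorem dens_sum {S : ℕ → Set ℤ} (hdis : ∀ i j : ℕ, ∀ n : ℤ, n ∈ S i → n ∈ S j → i = j) {δ : ℕ → ℝ}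
    (h : ∀ i, Tendsto (fun N : ℕ => cntS (S i) N / N) atTop (𝓝 (δ i))) (L : ℕ) {V : Set ℤ}
    (hV : ∀ n : ℤ, n ∈ V ↔ ∃ i ≤ L, n ∈ S i) :
    Tendsto (fun N : ℕ => cntS V N / N) atTop (𝓝 (∑ i ∈ range (L + 1), δ i)) := by
  have h1 := tendsto_finsetSum (range (L + 1)) (fun i _ => h i)
  refine h1.congr fun N => ?_
  rw [← sum_div]
  congr 1
  unfold cntS
  rw [← Nat.cast_sum, Nat.cast_inj, ← card_biUnion]
  · congr 1
    ext n
    constructor
    · intro hx
      obtain ⟨i, hi, hn⟩ := mem_biUnion.1 hx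
      have hn' := mem_filter.1 hn
      rw [mem_range] at hi
      exact mem_filter.2 ⟨hn'.1, (hV _).2 ⟨i, by omega, hn'.2⟩⟩
    · intro hx
      obtain ⟨hn, hnV⟩ := mem_filter.1 hx
      obtain ⟨i, hi, hni⟩ := (hV _).1 hnV
      exact mem_biUnion.2 ⟨i, mem_range.2 (by omega), mem_filter.2 ⟨hn, hni⟩⟩
  · intro i _ j _ hij
    simp only [Function.onFun]
    rw [disjoint_left]
    intro n h2 h3
    rw [mem_filter] at h2 h3
    exact hij (hdis i j _ h2.2 h3.2)

/-- the density of the exceptional set of stage `k` -/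
theorem dens_Ek (h : Mol d m r) (k : ℕ) :
    Tendsto (fun N : ℕ => cntS (Ek d m r k) N / N) atTop (𝓝 (tot (th d m) d k)) := by
  obtain ⟨B, C, hC, hB⟩ := main_equiv h k
  have h1 := dens_sum (S := fun A => {n | QA d m r k A n}) (fun i j n hi hj => QA_unique hi hj)
    (fun A => dens_QA h k A) (LL (th d m) k) (V := {n | ∃ i ≤ LL (th d m) k, QA d m r k i n}) (fun n => Iff.rfl)
  exact dens_congr (B := B) (fun n hn => (hB n hn).1) h1

/-- those with a given size of the `k`-th term -/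
def near (d m : ℕ) (r : ℤ → ℤ) (k : ℕ) (c ε : ℝ) : Set ℤ :=
  {n | n ∈ Ek d m r k ∧ |(((H d m r)^[k] n : ℤ) : ℝ) - c * n| ≤ ε * (c * n)}

theorem dens_near (h : Mol d m r) (k : ℕ) {A : ℕ} (hA : A ≤ LL (th d m) k) {ε : ℝ} (hε : 0 < ε) (hε3 : ε < 1 / 3) :
    Tendsto (fun N : ℕ => cntS (near d m r k ((m : ℝ) ^ k / (d : ℝ) ^ A) ε) N / N) atTop
      (𝓝 (ee (th d m) d k A)) := by
  have hdR : (2 : ℝ) ≤ d := by exact_mod_cast h.d2
  have hmR : (0 : ℝ) < m := by have := h.dm; exact_mod_cast (by omega : 0 < m)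
  obtain ⟨B, C, hC, hB⟩ := main_equiv h k
  set c : ℝ := (m : ℝ) ^ k / (d : ℝ) ^ A with hc
  have hc0 : 0 < c := by positivity
  obtain ⟨B2, hB2⟩ := exists_nat_gt (C / (ε * c))
  obtain ⟨B3, hB3⟩ := exists_nat_gt (6 * C / c)
  refine dens_congr (B := max B (max B2 B3)) (S' := {n | QA d m r k A n}) ?_ (dens_QA h k A)
  intro n hn
  have hn1 : (B : ℤ) < n := lt_of_le_of_lt (by exact_mod_cast le_max_left _ _) hn
  have hn2 : (B2 : ℤ) < n := lt_of_le_of_lt (by exact_mod_cast (le_max_left B2 B3).trans (le_max_right _ _)) hn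
  have hn3 : (B3 : ℤ) < n := lt_of_le_of_lt (by exact_mod_cast (le_max_right B2 B3).trans (le_max_right _ _)) hn
  have hn2' : C / (ε * c) < n := hB2.trans (by exact_mod_cast hn2)
  have hn3' : 6 * C / c < n := hB3.trans (by exact_mod_cast hn3)
  rw [div_lt_iff₀ (by positivity)] at hn2' hn3'
  obtain ⟨e1, e2⟩ := hB n hn1
  have hnpos : (0 : ℝ) < n := by
    have : 0 < n := lt_of_le_of_lt (by positivity) hn1
    exact_mod_cast this
  constructor
  · rintro ⟨h1, h2⟩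
    obtain ⟨A', hA', hQ⟩ := e1.1 h1
    have h3 := e2 A' hA' hQ
    have hAA : A' = A := by
      by_contra hne
      set c' : ℝ := (m : ℝ) ^ k / (d : ℝ) ^ A' with hc'
      rw [abs_le] at h2 h3
      rcases Nat.lt_or_gt_of_ne hne with h4 | h4
      · have h5 : 2 * c ≤ c' := by
          rw [hc, hc', mul_div_assoc', div_le_div_iff₀ (by positivity) (by positivity)]
          obtain ⟨b, rfl⟩ : ∃ b, A = A' + 1 + b := ⟨A - (A' + 1), by omega⟩
          have h6 : (1 : ℝ) ≤ (d : ℝ) ^ b := one_le_pow₀ (by linarith)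
          rw [pow_add, pow_succ]
          have h7 : (2 : ℝ) ≤ d * (d : ℝ) ^ b := by nlinarith
          have h8 : (0 : ℝ) < (m : ℝ) ^ k * (d : ℝ) ^ A' := by positivity
          calc 2 * (m : ℝ) ^ k * (d : ℝ) ^ A' = (m : ℝ) ^ k * (d : ℝ) ^ A' * 2 := by ring
            _ ≤ (m : ℝ) ^ k * (d : ℝ) ^ A' * (d * (d : ℝ) ^ b) := mul_le_mul_of_nonneg_left h7 h8.le
            _ = _ := by ring
        have h6 : 2 * c * n ≤ c' * n := mul_le_mul_of_nonneg_right h5 hnpos.le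
        have hcn : 0 < c * n := by positivity
        nlinarith [h2.2, h3.1]
      · have h5 : 2 * c' ≤ c := by
          rw [hc, hc', mul_div_assoc', div_le_div_iff₀ (by positivity) (by positivity)]
          obtain ⟨b, rfl⟩ : ∃ b, A' = A + 1 + b := ⟨A' - (A + 1), by omega⟩
          have h6 : (1 : ℝ) ≤ (d : ℝ) ^ b := one_le_pow₀ (by linarith)
          rw [pow_add, pow_succ]
          have h7 : (2 : ℝ) ≤ d * (d : ℝ) ^ b := by nlinarith
          have h8 : (0 : ℝ) < (m : ℝ) ^ k * (d : ℝ) ^ A := by positivity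
          calc 2 * (m : ℝ) ^ k * (d : ℝ) ^ A = (m : ℝ) ^ k * (d : ℝ) ^ A * 2 := by ring
            _ ≤ (m : ℝ) ^ k * (d : ℝ) ^ A * (d * (d : ℝ) ^ b) := mul_le_mul_of_nonneg_left h7 h8.le
            _ = _ := by ring
        have h6 : 2 * c' * n ≤ c * n := mul_le_mul_of_nonneg_right h5 hnpos.le
        have hcn : 0 < c * n := by positivity
        nlinarith [h2.1, h3.2]
    rw [← hAA]
    exact hQ
  · intro hQ
    refine ⟨e1.2 ⟨A, hA, hQ⟩, (e2 A hA hQ).trans ?_⟩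
    nlinarith

theorem Mol.par (h : Mol d m r) (hm : (m : ℝ) < (d : ℝ) ^ ((d : ℝ) / ((d : ℝ) - 1))) : Par (th d m) d := by
  obtain ⟨h1, h2⟩ := h.logs
  have h3 : 0 < Real.log m := h1.trans h2
  have hdR : (2 : ℝ) ≤ d := by exact_mod_cast h.d2
  have hmR : (0 : ℝ) < m := by have := h.dm; exact_mod_cast (by omega : 0 < m)
  refine ⟨h.sl, by linarith, ?_⟩
  have h4 := Real.log_lt_log hmR hm
  rw [Real.log_rpow (by linarith)] at h4
  unfold th
  rw [div_mul_eq_mul_div, lt_div_iff₀ (by linarith)] at h4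
  have h5 : (d : ℝ) * (1 - Real.log d / Real.log m) = (d * Real.log m - d * Real.log d) / Real.log m := by
    field_simp
  rw [h5, div_lt_one h3]
  linarith

end Pool.Agent.H622.Mw
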