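import Mathlib
import Pool.Agent.H622.Mw4

set_option autoImplicit false

/-! Möller's maps: the exceptional set. -/

namespace Pool.Agent.H622.Mw

open Finset Filter Topology
open scoped Classical
open Pool.Agent.H622.Gs (Sl Np)
open Pool.Agent.H622.Tw (T J P up up_succ up_zero P_succ P_zero Surv Cop Adm cnt_Np iter_err compare_all Su Sd cnt ind
  ind_pos ind_neg ind_congr sum_prod up_add J_add Surv_add HasDensity density_of cardP W_zero W_one Both Hh qq su sd
  late late_bound)

variable {d m : ℕ} {r : ℤ → ℤ}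

/-- the exceptional set -/
def Einf (d m : ℕ) (r : ℤ → ℤ) : Set ℤ := {n | 0 < n ∧ ¬ ((d : ℤ) ∣ n) ∧ ∀ k : ℕ, ¬ (H d m r)^[k] n < n}

theorem Einf_T (h : Mol d m r) {n : ℤ} (hE : n ∈ Einf d m r) : ∀ i : ℕ, n ≤ (TT d m r)^[i] n := by
  have h0 := h.d0
  obtain ⟨hn, hnd, hE⟩ := hE
  have key : ∀ k : ℕ, ∃ A, k ≤ A ∧ (H d m r)^[k] n = (TT d m r)^[A] n ∧ (TT d m r)^[A] n % d ≠ 0 ∧
      ∀ i ≤ A, n ≤ (TT d m r)^[i] n := by
    intro k
    induction k with
    | zero =>
      refine ⟨0, le_rfl, rfl, fun h1 => hnd (Int.dvd_of_emod_eq_zero h1), ?_⟩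
      intro i hi
      have : i = 0 := by omega
      subst this
      exact le_rfl
    | succ k ih =>
      obtain ⟨A, hkA, hH, hy, hle⟩ := ih
      set y := (TT d m r)^[A] n with hyd
      have hn1 := not_lt.1 (hE (k + 1))
      rw [Function.iterate_succ_apply', hH] at hn1
      have hz : (m : ℤ) * y - r (y % d) ≠ 0 := by
        intro hz
        have : H d m r y = 0 := by
          unfold H
          rw [hz, Int.zero_ediv]
        omega
      obtain ⟨a, ha1, hdw, hst⟩ := step h hy hz
      have hit : ∀ i, (TT d m r)^[A + i] n = (TT d m r)^[i] y := by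
        intro i
        rw [add_comm A i, Function.iterate_add_apply]
      have hge : ∀ i, 1 ≤ i → i ≤ a → n ≤ (TT d m r)^[A + i] n := by
        intro i hi hia
        rw [hit, hst i hi hia]
        have h1 : (1 : ℤ) ≤ (d : ℤ) ^ (a - i) := one_le_pow₀ (by omega)
        nlinarith
      refine ⟨A + a, by omega, ?_, ?_, ?_⟩
      · rw [Function.iterate_succ_apply', hH, hit, hst a ha1 le_rfl, Nat.sub_self, pow_zero, one_mul]
      · rw [hit, hst a ha1 le_rfl, Nat.sub_self, pow_zero, one_mul]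
        intro h1
        exact hdw (Int.dvd_of_emod_eq_zero h1)
      · intro i hi
        rcases Nat.lt_or_ge A i with h1 | h1
        · obtain ⟨i', rfl⟩ : ∃ i', i = A + i' := ⟨i - A, by omega⟩
          exact hge i' (by omega) (by omega)
        · exact hle i h1
  intro i
  obtain ⟨A, hA, -, -, hle⟩ := key i
  exact hle i hA

/-- a bound for the offsets -/
theorem off_bound (d : ℕ) (r : ℤ → ℤ) : ∃ M : ℤ, 0 < M ∧ ∀ i : ℤ, 0 ≤ i → i < d → |rr r i| ≤ M := by
  refine ⟨∑ i ∈ range d, |rr r i| + 1, by positivity, ?_⟩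
  intro i h0 h1
  obtain ⟨n, rfl⟩ := Int.eq_ofNat_of_zero_le h0
  have hn : n < d := by exact_mod_cast h1
  have h2 := single_le_sum (f := fun i : ℕ => |rr r i|) (s := range d) (fun _ _ => by positivity)
    (mem_range.2 hn)
  linarith

theorem growth (h : Mol d m r) {M : ℤ} (hM : 0 < M) (hMr : ∀ i : ℤ, 0 ≤ i → i < d → |rr r i| ≤ M) {n : ℤ} (hn : 0 < n)
    (hT : ∀ i : ℕ, n ≤ (TT d m r)^[i] n) (j : ℕ) :
    (d : ℝ) ^ j * (((TT d m r)^[j] n : ℤ) : ℝ) ≤ (m : ℝ) ^ uu d m r j n * n * (1 + (M : ℝ) / n) ^ j := by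
  have h0 := h.d0
  have hd : 0 < d := by exact_mod_cast h0
  have hnR : (0 : ℝ) < n := by exact_mod_cast hn
  have hMR : (0 : ℝ) < M := by exact_mod_cast hM
  induction j with
  | zero => simp [uu_zero]
  | succ j ih =>
    set y := (TT d m r)^[j] n with hy
    have h1 := Tw.dT (d := d) (m := mm m) (r := rr r) hd h.Adm' y
    have h1' : (d : ℤ) * TT d m r y = mm m (y % d) * y - rr r (y % d) := h1
    have h2 := hMr (y % d) (Int.emod_nonneg y h0.ne') (Int.emod_lt_of_pos y h0)
    have hny := hT j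
    rw [← hy] at hny
    have hm1 : (1 : ℤ) ≤ mm m (y % d) := by
      unfold mm
      have := h.dm
      split_ifs
      · exact le_rfl
      · omega
    have hnyR : (n : ℝ) ≤ y := by exact_mod_cast hny
    have hmR : (1 : ℝ) ≤ ((mm m (y % d) : ℤ) : ℝ) := by exact_mod_cast hm1
    have h3 : (d : ℝ) * ((TT d m r y : ℤ) : ℝ) ≤ ((mm m (y % d) : ℤ) : ℝ) * y * (1 + M / n) := by
      have h4 : (d : ℤ) * TT d m r y ≤ mm m (y % d) * y + M := by
        rw [h1']
        have := (abs_le.1 h2).1
        linarith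
      have h5 : (d : ℝ) * ((TT d m r y : ℤ) : ℝ) ≤ ((mm m (y % d) : ℤ) : ℝ) * y + M := by exact_mod_cast h4
      refine h5.trans ?_
      have h6 : (M : ℝ) ≤ ((mm m (y % d) : ℤ) : ℝ) * y * (M / n) := by
        have h7 : (n : ℝ) ≤ ((mm m (y % d) : ℤ) : ℝ) * y := by nlinarith
        calc (M : ℝ) = n * (M / n) := by field_simp
          _ ≤ _ := mul_le_mul_of_nonneg_right h7 (by positivity)
      linarith
    have hu : (m : ℝ) ^ uu d m r (j + 1) n = (m : ℝ) ^ uu d m r j n * ((mm m (y % d) : ℤ) : ℝ) := by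
      rw [uu_succ, ← hy]
      unfold mm
      by_cases h5 : y % d = 0
      · rw [if_pos h5, if_neg (not_not.2 h5)]; simp
      · rw [if_neg h5, if_pos h5, pow_succ]; simp
    rw [Function.iterate_succ_apply', ← hy, hu, pow_succ]
    calc (d : ℝ) ^ j * d * ((TT d m r y : ℤ) : ℝ) = (d : ℝ) ^ j * (d * ((TT d m r y : ℤ) : ℝ)) := by ring
      _ ≤ (d : ℝ) ^ j * (((mm m (y % d) : ℤ) : ℝ) * y * (1 + M / n)) := mul_le_mul_of_nonneg_left h3 (by positivity)
      _ = ((d : ℝ) ^ j * y) * (((mm m (y % d) : ℤ) : ℝ) * (1 + M / n)) := by ring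
      _ ≤ ((m : ℝ) ^ uu d m r j n * n * (1 + (M : ℝ) / n) ^ j) * (((mm m (y % d) : ℤ) : ℝ) * (1 + M / n)) := by
          apply mul_le_mul_of_nonneg_right ih
          positivity
      _ = _ := by ring

theorem surv_one (h : Mol d m r) : ∃ c : ℝ, 0 < c ∧ ∀ (n : ℤ) (K : ℕ), n ∈ Einf d m r → c * K ≤ n →
    Surv d (mm m) (rr r) UU (th d m) 1 K n := by
  obtain ⟨M, hM, hMr⟩ := off_bound d r
  obtain ⟨hl1, hl2⟩ := h.logs
  have hlm : 0 < Real.log m := hl1.trans hl2
  have hMR : (0 : ℝ) < M := by exact_mod_cast hM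
  have hdR : (0 : ℝ) < d := by have := h.d2; exact_mod_cast (by omega : 0 < d)
  have hmR : (0 : ℝ) < m := by have := h.dm; exact_mod_cast (by omega : 0 < m)
  refine ⟨M / Real.log m, by positivity, fun n K hE hK j hj => ?_⟩
  have hT := Einf_T h hE
  have hn := hE.1
  have hnR : (0 : ℝ) < n := by exact_mod_cast hn
  have h1 := growth h hM hMr hn hT j
  have h2 : (n : ℝ) ≤ (((TT d m r)^[j] n : ℤ) : ℝ) := by exact_mod_cast hT j
  have h3 : (d : ℝ) ^ j ≤ (m : ℝ) ^ uu d m r j n * (1 + (M : ℝ) / n) ^ j := by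
    have h4 : (d : ℝ) ^ j * n ≤ (m : ℝ) ^ uu d m r j n * (1 + (M : ℝ) / n) ^ j * n := by
      calc (d : ℝ) ^ j * n ≤ (d : ℝ) ^ j * (((TT d m r)^[j] n : ℤ) : ℝ) := mul_le_mul_of_nonneg_left h2 (by positivity)
        _ ≤ _ := h1
        _ = _ := by ring
    exact le_of_mul_le_mul_right h4 hnR
  have h5 := Real.log_le_log (by positivity) h3
  rw [Real.log_mul (by positivity) (by positivity), Real.log_pow, Real.log_pow, Real.log_pow] at h5
  have h6 : Real.log (1 + (M : ℝ) / n) ≤ M / n := by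
    have := Real.log_le_sub_one_of_pos (show 0 < 1 + (M : ℝ) / n by positivity)
    linarith
  have hjK : (j : ℝ) ≤ K := by exact_mod_cast hj
  have h7 : (j : ℝ) * Real.log (1 + (M : ℝ) / n) ≤ Real.log m := by
    calc (j : ℝ) * Real.log (1 + (M : ℝ) / n) ≤ K * (M / n) :=
          mul_le_mul hjK h6 (Real.log_nonneg (by
            have : 0 < (M : ℝ) / n := by positivity
            linarith)) (Nat.cast_nonneg _)
      _ ≤ Real.log m := by
          rw [div_mul_eq_mul_div, div_le_iff₀ hlm] at hK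
          rw [mul_div_assoc', div_le_iff₀ hnR]
          linarith
  have h8 : (j : ℝ) * th d m * Real.log m = j * Real.log d := by
    unfold th
    field_simp
  have h9 : (j : ℝ) * th d m * Real.log m ≤ ((uu d m r j n : ℝ) + 1) * Real.log m := by
    rw [h8]; linarith
  have h10 := le_of_mul_le_mul_right h9 hlm
  have h11 : (up d (mm m) (rr r) UU j n : ℝ) = (uu d m r j n : ℝ) := rfl
  rw [h11]
  linarith

theorem Mol.both (h : Mol d m r) : Both d UU := by
  have hd : 0 < d := by have := h.d2; omega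
  obtain ⟨h1, h2⟩ := su_eq hd
  have hdR : (2 : ℝ) ≤ d := by exact_mod_cast h.d2
  refine ⟨?_, ?_⟩
  · unfold su; rw [h1]; linarith
  · unfold sd; rw [h2]; norm_num

theorem log_rho (h : Mol d m r) :
    th d m * Real.log (rho (th d m) d) = Hh d UU (th d m) - Real.log d := by
  have hd : 0 < d := by have := h.d2; omega
  obtain ⟨hsu, hsd⟩ := su_eq hd
  have h1 := h.sl.pos
  have h2 : 0 < 1 - th d m := by linarith [h.sl.lt]
  have hdR : (2 : ℝ) ≤ d := by exact_mod_cast h.d2
  have h4 : (0 : ℝ) < (d : ℝ) - 1 := by linarith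
  have h5 : (0 : ℝ) < d := by linarith
  have hlr : Real.log (rho (th d m) d) = Real.log ((d : ℝ) - 1) - Real.log (th d m) +
      (1 - 1 / th d m) * Real.log (1 - th d m) + (-(1 / th d m)) * Real.log d := by
    unfold rho
    have a1 := Real.rpow_pos_of_pos h2 (1 - 1 / th d m)
    have a2 := Real.rpow_pos_of_pos h5 (-(1 / th d m))
    rw [Real.log_mul (by positivity) (by positivity), Real.log_mul (by positivity) (by positivity),
      Real.log_div h4.ne' h1.ne', Real.log_rpow h2, Real.log_rpow h5]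
  rw [hlr]
  unfold Hh su sd
  rw [hsu, hsd, Real.log_one]
  field_simp
  ring

theorem Hh_facts (h : Mol d m r) (hp : Par (th d m) d) : 0 < Hh d UU (th d m) ∧ Hh d UU (th d m) < Real.log d := by
  have hd : 0 < d := by have := h.d2; omega
  obtain ⟨hsu, hsd⟩ := su_eq hd
  have h1 := h.sl.pos
  have h1' := h.sl.lt
  have h2 : 0 < 1 - th d m := by linarith [h.sl.lt]
  have hdR : (2 : ℝ) ≤ d := by exact_mod_cast h.d2
  have h4 : (0 : ℝ) < (d : ℝ) - 1 := by linarith
  have h5 : (0 : ℝ) < d := by linarith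
  have hg := hp.g1
  set θ := th d m with hθ
  unfold Hh su sd
  rw [hsu, hsd, Real.log_one]
  constructor
  · have a1 : 0 ≤ Real.log ((d : ℝ) - 1) := Real.log_nonneg (by linarith)
    have a2 : Real.log θ < 0 := Real.log_neg h1 h1'
    have a3 : Real.log (1 - θ) < 0 := Real.log_neg h2 (by linarith)
    nlinarith
  · have hne : ((d : ℝ) - 1) / (θ * d) ≠ 1 := by
      intro e
      rw [div_eq_one_iff_eq (by positivity)] at e
      have : (d : ℝ) * (1 - θ) = 1 := by linarith
      linarith
    have a1 := Real.log_lt_sub_one_of_pos (show 0 < ((d : ℝ) - 1) / (θ * d) by positivity) hne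
    have a2 := Real.log_le_sub_one_of_pos (show 0 < 1 / ((1 - θ) * d) by positivity)
    rw [Real.log_div h4.ne' (by positivity), Real.log_mul h1.ne' h5.ne'] at a1
    rw [Real.log_div one_ne_zero (by positivity), Real.log_mul h2.ne' h5.ne', Real.log_one] at a2
    have b1 := mul_lt_mul_of_pos_left a1 h1
    have b2 := mul_le_mul_of_nonneg_left a2 h2.le
    have e1 : θ * (((d : ℝ) - 1) / (θ * d) - 1) + (1 - θ) * (1 / ((1 - θ) * d) - 1) = 0 := by
      field_simp
      ring
    linarith

theorem rho_lt_one (h : Mol d m r) (hp : Par (th d m) d) : rho (th d m) d < 1 := by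
  have h1 := log_rho h
  have h2 := (Hh_facts h hp).2
  have h3 := h.sl.pos
  have h4 := rho_pos hp
  by_contra h5
  push Not at h5
  have := Real.log_nonneg h5
  have : 0 ≤ th d m * Real.log (rho (th d m) d) := by positivity
  linarith

theorem qq_lt (h : Mol d m r) (hp : Par (th d m) d) : qq d UU (th d m) < 1 := by
  have hd : 0 < d := by have := h.d2; omega
  obtain ⟨hsu, hsd⟩ := su_eq hd
  have h1 := h.sl.pos
  have hg := hp.g1
  unfold qq su sd
  rw [hsu, hsd, one_mul, div_lt_one h1]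
  linarith

/-- THE COUNTING FUNCTION OF THE EXCEPTIONAL SET -/
theorem count (h : Mol d m r) (hp : Par (th d m) d) : ∃ C : ℝ, 0 < C ∧ ∀ N : ℕ, 2 ≤ N →
    cntS (Einf d m r) N ≤ C * (N : ℝ) ^ (1 + Real.log (rho (th d m) d) / Real.log m) /
      (Real.log N * Real.sqrt (Real.log N)) := by
  have hd : 0 < d := by have := h.d2; omega
  obtain ⟨hl1, hl2⟩ := h.logs
  have hlm : 0 < Real.log m := hl1.trans hl2
  have hdR : (2 : ℝ) ≤ d := by exact_mod_cast h.d2
  obtain ⟨c, hc, hs⟩ := surv_one h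
  obtain ⟨C1, hC1, hlate⟩ := late_bound (r := rr r) hd h.Cop' h.both h.sl (u := 1) zero_le_one (qq_lt h hp)
  obtain ⟨hH0, hH1⟩ := Hh_facts h hp
  set Hf := Hh d UU (th d m) with hHf
  set C2 : ℝ := (c + 2) * (6 / Hf ^ 3) with hC2
  have hC20 : 0 < C2 := by positivity
  set η : ℝ := 1 + Real.log (rho (th d m) d) / Real.log m with hη
  have hηH : η * Real.log d = Hf := by
    have h1 := log_rho h
    rw [← hHf] at h1
    have h2 : th d m * Real.log m = Real.log d := by unfold th; field_simp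
    have h3 : Real.log d * (Real.log (rho (th d m) d) / Real.log m) = th d m * Real.log (rho (th d m) d) := by
      rw [← h2]; field_simp
    rw [hη, add_mul, one_mul, mul_comm (Real.log (rho (th d m) d) / Real.log m), h3, h1]
    ring
  refine ⟨(C1 + C2) * (Real.exp Hf * (Real.log d * Real.sqrt (Real.log d))), by
    have := Real.sqrt_pos.2 hl1
    positivity, fun N hN => ?_⟩
  have hNR : (2 : ℝ) ≤ N := by exact_mod_cast hN
  have hlN : 0 < Real.log N := Real.log_pos (by linarith)
  -- the length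
  set K : ℕ := ⌊Real.log N / Real.log d⌋₊ + 1 with hK
  have hK1 : Real.log N / Real.log d < K := by
    have := Nat.lt_floor_add_one (Real.log N / Real.log d)
    rw [hK]; push_cast; exact this
  have hK2 : (K : ℝ) ≤ Real.log N / Real.log d + 1 := by
    have := Nat.floor_le (show 0 ≤ Real.log N / Real.log d by positivity)
    rw [hK]; push_cast; linarith
  have hKpos : 1 ≤ K := by omega
  have hKR : (1 : ℝ) ≤ K := by exact_mod_cast hKpos
  have hNK : N < d ^ K := by
    have h1 : Real.log N < Real.log ((d : ℝ) ^ K) := by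
      rw [Real.log_pow]
      rwa [div_lt_iff₀ hl1] at hK1
    have h2 := (Real.log_lt_log_iff (by linarith) (by positivity)).1 h1
    exact_mod_cast h2
  have hsK : 1 ≤ Real.sqrt K := by rw [Real.one_le_sqrt]; exact hKR
  -- the count
  have h1 : cntS (Einf d m r) N ≤ late d (mm m) (rr r) UU (th d m) 1 0 0 K + (c * K + 1) := by
    have hsub : (Icc 1 N).filter (fun n : ℕ => (n : ℤ) ∈ Einf d m r) ⊆
        ((range (d ^ K)).filter fun n : ℕ => n % d ^ 0 = 0 ∧ Surv d (mm m) (rr r) UU (th d m) 1 K n) ∪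
        range (⌊c * K⌋₊ + 1) := by
      intro n hn
      rw [mem_filter, mem_Icc] at hn
      rw [mem_union, mem_filter, mem_range, mem_range]
      rcases le_or_gt (c * K) n with h2 | h2
      · left
        refine ⟨by omega, by simp [Nat.mod_one], hs n K hn.2 (by exact_mod_cast h2)⟩
      · right
        have := Nat.le_floor h2.le
        omega
    have h2 := (card_le_card hsub).trans (card_union_le _ _)
    rw [card_range] at h2
    have h3 : cntS (Einf d m r) N ≤ (((range (d ^ K)).filter fun n : ℕ => n % d ^ 0 = 0 ∧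
        Surv d (mm m) (rr r) UU (th d m) 1 K n).card : ℝ) + (⌊c * K⌋₊ + 1) := by
      unfold cntS
      exact_mod_cast h2
    have h4 : (((range (d ^ K)).filter fun n : ℕ => n % d ^ 0 = 0 ∧
        Surv d (mm m) (rr r) UU (th d m) 1 K n).card : ℝ) = late d (mm m) (rr r) UU (th d m) 1 0 0 K := by
      unfold late ind
      rw [card_filter]
      push_cast
      apply sum_congr rfl
      intro n _
      by_cases hq : n % d ^ 0 = 0 ∧ Surv d (mm m) (rr r) UU (th d m) 1 K (n : ℤ)
      · rw [if_pos hq, if_pos hq]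
      · rw [if_neg hq, if_neg hq]
    rw [h4] at h3
    have h5 := Nat.floor_le (show 0 ≤ c * K by positivity)
    linarith
  have h2 := hlate K
  have hE := Real.exp_pos (K * Hf)
  have h3 : K * Real.sqrt K * late d (mm m) (rr r) UU (th d m) 1 0 0 K ≤ C1 * Real.exp (K * Hf) := by
    rw [Real.exp_neg, ← mul_assoc, ← div_eq_mul_inv, div_le_iff₀ hE] at h2
    exact h2
  have h4 : K * Real.sqrt K * (c * K + 1) ≤ C2 * Real.exp (K * Hf) := by
    have h5 := Real.pow_div_factorial_le_exp (K * Hf) (by positivity) 3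
    have h6 : (K : ℝ) ^ 3 ≤ 6 / Hf ^ 3 * Real.exp (K * Hf) := by
      have e : (K * Hf) ^ 3 / (Nat.factorial 3 : ℝ) = (K : ℝ) ^ 3 * (Hf ^ 3 / 6) := by
        simp [Nat.factorial]
        ring
      rw [e] at h5
      calc (K : ℝ) ^ 3 = 6 / Hf ^ 3 * ((K : ℝ) ^ 3 * (Hf ^ 3 / 6)) := by field_simp
        _ ≤ _ := mul_le_mul_of_nonneg_left h5 (by positivity)
    have h7 : Real.sqrt K ≤ K := by
      rw [Real.sqrt_le_left (by linarith)]
      nlinarith
    have h8 : K * Real.sqrt K * (c * K + 1) ≤ (c + 2) * (K : ℝ) ^ 3 := by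
      have h9 : c * K + 1 ≤ (c + 2) * K := by nlinarith
      calc K * Real.sqrt K * (c * K + 1) ≤ K * K * ((c + 2) * K) :=
            mul_le_mul (mul_le_mul_of_nonneg_left h7 (by linarith)) h9 (by positivity) (by positivity)
        _ = _ := by ring
    refine h8.trans ?_
    rw [hC2, mul_assoc]
    exact mul_le_mul_of_nonneg_left h6 (by positivity)
  have h5 : cntS (Einf d m r) N * (K * Real.sqrt K) ≤ (C1 + C2) * Real.exp (K * Hf) := by
    have := mul_le_mul_of_nonneg_right h1 (show 0 ≤ K * Real.sqrt K by positivity)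
    nlinarith
  have h6 : Real.exp (K * Hf) ≤ Real.exp Hf * (N : ℝ) ^ η := by
    rw [Real.rpow_def_of_pos (by linarith), ← Real.exp_add]
    apply Real.exp_le_exp.2
    have h7 : (K : ℝ) * Hf ≤ (Real.log N / Real.log d + 1) * Hf := mul_le_mul_of_nonneg_right hK2 hH0.le
    have h8 : Real.log N / Real.log d * Hf = Real.log N * η := by
      rw [← hηH]; field_simp
    linarith
  have h7 : Real.log N * Real.sqrt (Real.log N) ≤ (Real.log d * Real.sqrt (Real.log d)) * (K * Real.sqrt K) := by
    have h8 : Real.log N ≤ Real.log d * K := by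
      rw [div_lt_iff₀ hl1] at hK1
      linarith
    have h9 : Real.sqrt (Real.log N) ≤ Real.sqrt (Real.log d) * Real.sqrt K := by
      rw [← Real.sqrt_mul hl1.le]
      exact Real.sqrt_le_sqrt h8
    calc Real.log N * Real.sqrt (Real.log N) ≤ (Real.log d * K) * (Real.sqrt (Real.log d) * Real.sqrt K) :=
          mul_le_mul h8 h9 (Real.sqrt_nonneg _) (by positivity)
      _ = _ := by ring
  have hsN := Real.sqrt_pos.2 hlN
  rw [le_div_iff₀ (by positivity)]
  have hc0 : 0 ≤ cntS (Einf d m r) N := by unfold cntS; positivity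
  have hld : 0 < Real.log d * Real.sqrt (Real.log d) := by
    have := Real.sqrt_pos.2 hl1
    positivity
  calc cntS (Einf d m r) N * (Real.log N * Real.sqrt (Real.log N))
      ≤ cntS (Einf d m r) N * ((Real.log d * Real.sqrt (Real.log d)) * (K * Real.sqrt K)) :=
        mul_le_mul_of_nonneg_left h7 hc0
    _ = (Real.log d * Real.sqrt (Real.log d)) * (cntS (Einf d m r) N * (K * Real.sqrt K)) := by ring
    _ ≤ (Real.log d * Real.sqrt (Real.log d)) * ((C1 + C2) * Real.exp (K * Hf)) :=
        mul_le_mul_of_nonneg_left h5 hld.le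
    _ ≤ (Real.log d * Real.sqrt (Real.log d)) * ((C1 + C2) * (Real.exp Hf * (N : ℝ) ^ η)) := by
        apply mul_le_mul_of_nonneg_left _ hld.le
        exact mul_le_mul_of_nonneg_left h6 (by positivity)
    _ = _ := by ring

end Pool.Agent.H622.Mw
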