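import Mathlib

/-!
# The Collatz map on `F₂[x]`: the accelerated map, parities and degrees
-/

namespace Pool.Agent.H622.Px

open Polynomial

/-- The Collatz map on `F₂[x]`: `(x+1) f + 1` if `f(0) = 1`, and `f / x` if `f(0) = 0`. -/
noncomputable def T (f : (ZMod 2)[X]) : (ZMod 2)[X] :=
  if f.coeff 0 = 1 then (X + 1) * f + 1 else f.divX

/-- The stopping time: the least `k` with `T^k f = 1`. -/
noncomputable def tmin (f : (ZMod 2)[X]) : ℕ := sInf {k : ℕ | T^[k] f = 1}

/-- The accelerated map. -/
noncomputable def S (f : (ZMod 2)[X]) : (ZMod 2)[X] :=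
  if f.coeff 0 = 0 then f.divX else f + f.divX

/-- `f` has degree `n`. -/
def IsDeg (f : (ZMod 2)[X]) (n : ℕ) : Prop := f.coeff n = 1 ∧ ∀ i, n < i → f.coeff i = 0

theorem zmod2 (a : ZMod 2) : a = 0 ∨ a = 1 := by
  revert a; decide

theorem ne_zero_iff (a : ZMod 2) : a ≠ 0 ↔ a = 1 := by
  revert a; decide

theorem ne_one_iff (a : ZMod 2) : a ≠ 1 ↔ a = 0 := by
  revert a; decide

theorem isDeg_iff (f : (ZMod 2)[X]) (n : ℕ) : f.degree = n ↔ IsDeg f n := by
  constructor
  · intro h
    have h0 : f ≠ 0 := by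
      rintro rfl
      rw [degree_zero] at h
      exact WithBot.bot_ne_natCast n h
    have h1 : f.natDegree = n := natDegree_eq_of_degree_eq_some h
    constructor
    · rw [← ne_zero_iff, ← h1]
      exact leadingCoeff_ne_zero.2 h0
    · intro i hi
      exact coeff_eq_zero_of_natDegree_lt (by omega)
  · rintro ⟨h1, h2⟩
    refine le_antisymm ?_ ?_
    · rw [degree_le_iff_coeff_zero]
      intro m hm
      exact h2 m (by exact_mod_cast hm)
    · exact le_degree_of_ne_zero (by rw [h1]; decide)

theorem IsDeg.ne_zero {f : (ZMod 2)[X]} {n : ℕ} (h : IsDeg f n) : f ≠ 0 := by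
  rintro rfl
  have := h.1
  rw [coeff_zero] at this
  exact absurd this (by decide)

theorem IsDeg.eq_one {f : (ZMod 2)[X]} (h : IsDeg f 0) : f = 1 := by
  ext i
  rcases Nat.eq_zero_or_pos i with rfl | hi
  · rw [h.1, coeff_one_zero]
  · rw [h.2 i hi, coeff_one, if_neg hi.ne']

theorem IsDeg.ne_one {f : (ZMod 2)[X]} {n : ℕ} (h : IsDeg f n) (hn : 0 < n) : f ≠ 1 := by
  rintro rfl
  have := h.1
  rw [coeff_one, if_neg hn.ne'] at this
  exact absurd this (by decide)

theorem exists_isDeg {f : (ZMod 2)[X]} (h : f ≠ 0) : ∃ n, IsDeg f n :=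
  ⟨f.natDegree, (isDeg_iff _ _).1 (degree_eq_natDegree h)⟩

theorem S_coeff_even {f : (ZMod 2)[X]} (h : f.coeff 0 = 0) (i : ℕ) :
    (S f).coeff i = f.coeff (i + 1) := by
  unfold S
  rw [if_pos h, coeff_divX]

theorem S_coeff_odd {f : (ZMod 2)[X]} (h : f.coeff 0 ≠ 0) (i : ℕ) :
    (S f).coeff i = f.coeff i + f.coeff (i + 1) := by
  unfold S
  rw [if_neg h, coeff_add, coeff_divX]

theorem S_one : S 1 = 1 := by
  ext i
  rw [S_coeff_odd (by rw [coeff_one_zero]; decide)]
  rw [coeff_one (n := i + 1), if_neg (by omega), add_zero]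

theorem S_iter_one (k : ℕ) : S^[k] 1 = 1 := by
  induction k with
  | zero => rfl
  | succ k ih => rw [Function.iterate_succ_apply, S_one, ih]

theorem IsDeg.S_odd {f : (ZMod 2)[X]} {n : ℕ} (h : IsDeg f n) (h0 : f.coeff 0 ≠ 0) :
    IsDeg (S f) n := by
  constructor
  · rw [S_coeff_odd h0, h.1, h.2 (n + 1) (by omega), add_zero]
  · intro i hi
    rw [S_coeff_odd h0, h.2 i hi, h.2 (i + 1) (by omega), add_zero]

theorem IsDeg.S_even {f : (ZMod 2)[X]} {n : ℕ} (h : IsDeg f n) (h0 : f.coeff 0 = 0) :
    0 < n ∧ IsDeg (S f) (n - 1) := by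
  have hn : 0 < n := by
    rcases Nat.eq_zero_or_pos n with rfl | hn
    · rw [h.1] at h0
      exact absurd h0 (by decide)
    · exact hn
  refine ⟨hn, ?_, ?_⟩
  · rw [S_coeff_even h0, Nat.sub_add_cancel hn, h.1]
  · intro i hi
    rw [S_coeff_even h0, h.2 (i + 1) (by omega)]

/-- the number of even terms among the first `k` terms of the accelerated orbit -/
noncomputable def ev : ℕ → (ZMod 2)[X] → ℕ
  | 0, _ => 0
  | k + 1, f => ev k f + (if (S^[k] f).coeff 0 = 0 then 1 else 0)

theorem ev_le (k : ℕ) (f : (ZMod 2)[X]) : ev k f ≤ k := by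
  induction k with
  | zero => rfl
  | succ k ih =>
    rw [ev]
    split_ifs <;> omega

theorem IsDeg.iter {f : (ZMod 2)[X]} {n : ℕ} (h : IsDeg f n) (k : ℕ) :
    ev k f ≤ n ∧ IsDeg (S^[k] f) (n - ev k f) := by
  induction k with
  | zero => exact ⟨Nat.zero_le _, by simpa [ev] using h⟩
  | succ k ih =>
    obtain ⟨h1, h2⟩ := ih
    rw [ev, Function.iterate_succ_apply']
    by_cases h0 : (S^[k] f).coeff 0 = 0
    · obtain ⟨h3, h4⟩ := h2.S_even h0
      rw [if_pos h0]
      refine ⟨by omega, ?_⟩
      rw [← Nat.sub_sub]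
      exact h4
    · rw [if_neg h0, add_zero]
      exact ⟨h1, h2.S_odd h0⟩

/-- two polynomials with the same parities along the first `w` steps agree below `w` -/
theorem par (w : ℕ) : ∀ g g' : (ZMod 2)[X],
    (∀ j < w, (S^[j] g).coeff 0 = (S^[j] g').coeff 0) → ∀ i < w, g.coeff i = g'.coeff i := by
  induction w with
  | zero => intro g g' _ i hi; omega
  | succ w ih =>
    intro g g' h i hi
    have h0 : g.coeff 0 = g'.coeff 0 := h 0 (by omega)
    have h1 : ∀ i < w, (S g).coeff i = (S g').coeff i := by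
      apply ih
      intro j hj
      have := h (j + 1) (by omega)
      rwa [Function.iterate_succ_apply, Function.iterate_succ_apply] at this
    by_cases he : g.coeff 0 = 0
    · rcases Nat.eq_zero_or_pos i with rfl | hi0
      · exact h0
      · have := h1 (i - 1) (by omega)
        rw [S_coeff_even he, S_coeff_even (by rw [← h0]; exact he), Nat.sub_add_cancel hi0] at this
        exact this
    · have key : ∀ i, i < w + 1 → g.coeff i = g'.coeff i := by
        intro i
        induction i with
        | zero => intro _; exact h0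
        | succ i ihi =>
          intro hi1
          have h2 := h1 i (by omega)
          rw [S_coeff_odd he, S_coeff_odd (by rw [← h0]; exact he), ihi (by omega)] at h2
          exact add_left_cancel h2
      exact key i hi

/-- a polynomial of degree `w ≥ 1` meets an even term within its first `w + 1` terms -/
theorem IsDeg.dwell {g : (ZMod 2)[X]} {w : ℕ} (h : IsDeg g w) (hw : 0 < w) :
    ∃ k ≤ w, (S^[k] g).coeff 0 = 0 := by
  by_contra hcon
  push Not at hcon
  have h1 := par (w + 1) g 1 (by
    intro j hj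
    rw [S_iter_one, coeff_one_zero]
    exact (ne_zero_iff _).1 (hcon j (by omega))) w (by omega)
  rw [h.1, coeff_one, if_neg hw.ne'] at h1
  exact absurd h1 (by decide)

/-! ### The map `T` -/

theorem T_even {f : (ZMod 2)[X]} (h : f.coeff 0 = 0) : T f = S f := by
  unfold T S
  rw [if_pos h, if_neg (by rw [h]; decide)]

theorem T_odd_coeff_zero {f : (ZMod 2)[X]} (h : f.coeff 0 ≠ 0) : (T f).coeff 0 = 0 := by
  unfold T
  rw [if_pos ((ne_zero_iff _).1 h), coeff_add, mul_coeff_zero, (ne_zero_iff _).1 h]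
  simp
  decide

theorem T_T_odd {f : (ZMod 2)[X]} (h : f.coeff 0 ≠ 0) : T (T f) = S f := by
  have h1 := T_odd_coeff_zero h
  rw [T_even h1]
  ext i
  rw [S_coeff_even h1, S_coeff_odd h]
  unfold T
  rw [if_pos ((ne_zero_iff _).1 h), add_mul, one_mul, coeff_add, coeff_add, coeff_X_mul,
    coeff_one, if_neg (by omega), add_zero]

theorem T_iter_S (f : (ZMod 2)[X]) (k : ℕ) : T^[2 * k - ev k f] f = S^[k] f := by
  induction k with
  | zero => rfl
  | succ k ih =>
    have hle := ev_le k f
    rw [ev]
    by_cases h0 : (S^[k] f).coeff 0 = 0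
    · rw [if_pos h0, show 2 * (k + 1) - (ev k f + 1) = (2 * k - ev k f) + 1 by omega,
        Function.iterate_succ_apply', ih, Function.iterate_succ_apply', T_even h0]
    · rw [if_neg h0, show 2 * (k + 1) - (ev k f + 0) = (2 * k - ev k f) + 1 + 1 by omega,
        Function.iterate_succ_apply', Function.iterate_succ_apply', ih,
        Function.iterate_succ_apply', T_T_odd h0]

/-- every nonzero polynomial reaches `1`, in quadratically many steps -/
theorem reach (w : ℕ) : ∀ f : (ZMod 2)[X], IsDeg f w → ∃ k ≤ (w + 1) * (w + 2), T^[k] f = 1 := by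
  induction w with
  | zero =>
    intro f hf
    exact ⟨0, by omega, hf.eq_one⟩
  | succ w ih =>
    intro f hf
    have hex := hf.dwell (by omega)
    classical
    let k := Nat.find hex
    have hk := Nat.find_spec hex
    have hmin : ∀ j < k, (S^[j] f).coeff 0 ≠ 0 := by
      intro j hj h0
      exact Nat.find_min hex hj ⟨by have := hk.1; omega, h0⟩
    have hev : ∀ j ≤ k, ev j f = 0 := by
      intro j
      induction j with
      | zero => intro _; rfl
      | succ j ihj =>
        intro hj
        rw [ev, ihj (by omega), if_neg (hmin j (by omega))]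
    have h1 := hf.iter k
    rw [hev k le_rfl, Nat.sub_zero] at h1
    obtain ⟨_, h2⟩ := h1.2.S_even hk.2
    rw [Nat.add_sub_cancel] at h2
    obtain ⟨m, hm, hm1⟩ := ih _ h2
    refine ⟨m + (2 * (k + 1) - ev (k + 1) f), ?_, ?_⟩
    · have : ev (k + 1) f = 1 := by
        rw [ev, hev k le_rfl, if_pos hk.2]
      rw [this]
      have hk1 : k ≤ w + 1 := hk.1
      have h5 : (w + 1 + 1) * (w + 1 + 2) = (w + 1) * (w + 2) + (2 * w + 4) := by ring
      omega
    · rw [Function.iterate_add_apply, T_iter_S, Function.iterate_succ_apply']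
      exact hm1

theorem reach' {f : (ZMod 2)[X]} (h : f ≠ 0) : ∃ k, T^[k] f = 1 := by
  obtain ⟨n, hn⟩ := exists_isDeg h
  obtain ⟨k, _, hk⟩ := reach n f hn
  exact ⟨k, hk⟩

theorem IsDeg.tmin_le {f : (ZMod 2)[X]} {w : ℕ} (h : IsDeg f w) : tmin f ≤ (w + 1) * (w + 2) := by
  obtain ⟨k, hk, hk1⟩ := reach w f h
  exact (Nat.sInf_le hk1).trans hk

theorem tmin_one : tmin 1 = 0 := by
  unfold tmin
  exact Nat.sInf_eq_zero.2 (Or.inl rfl)

theorem tmin_succ {f : (ZMod 2)[X]} (h : f ≠ 0) (h1 : f ≠ 1) (h2 : T f ≠ 0) :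
    tmin f = tmin (T f) + 1 := by
  have hmem : T^[tmin f] f = 1 := Nat.sInf_mem (s := {k : ℕ | T^[k] f = 1}) (reach' h)
  have hmem2 : T^[tmin (T f)] (T f) = 1 :=
    Nat.sInf_mem (s := {k : ℕ | T^[k] (T f) = 1}) (reach' h2)
  apply le_antisymm
  · apply Nat.sInf_le
    show T^[tmin (T f) + 1] f = 1
    rw [Function.iterate_succ_apply]
    exact hmem2
  · have hpos : tmin f ≠ 0 := by
      intro h0
      rw [h0] at hmem
      exact h1 hmem
    have : tmin (T f) ≤ tmin f - 1 := by
      apply Nat.sInf_le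
      show T^[tmin f - 1] (T f) = 1
      rw [← Function.iterate_succ_apply, Nat.succ_eq_add_one, Nat.sub_add_cancel (by omega)]
      exact hmem
    omega

theorem tmin_S {f : (ZMod 2)[X]} {n : ℕ} (h : IsDeg f n) (h1 : f ≠ 1) :
    tmin f + (if f.coeff 0 = 0 then 1 else 0) = tmin (S f) + 2 := by
  by_cases h0 : f.coeff 0 = 0
  · rw [if_pos h0, tmin_succ h.ne_zero h1 (by rw [T_even h0]; exact (h.S_even h0).2.ne_zero),
      T_even h0]
  · rw [if_neg h0, add_zero]
    have hS := (h.S_odd h0).ne_zero
    have h2 : T f ≠ 0 := by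
      intro h3
      rw [← T_T_odd h0, h3] at hS
      apply hS
      unfold T
      simp
    have h4 : T f ≠ 1 := by
      intro h3
      have := T_odd_coeff_zero h0
      rw [h3, coeff_one_zero] at this
      exact absurd this (by decide)
    rw [tmin_succ h.ne_zero h1 h2, tmin_succ h2 h4 (by rw [T_T_odd h0]; exact hS), T_T_odd h0]

/-- the stopping time after `k` accelerated steps -/
theorem tmin_iter {f : (ZMod 2)[X]} {n : ℕ} (h : IsDeg f n) (k : ℕ) (hk : S^[k] f ≠ 1) :
    tmin f + ev k f = tmin (S^[k] f) + 2 * k := by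
  induction k with
  | zero => simp [ev]
  | succ k ih =>
    have hk' : S^[k] f ≠ 1 := by
      intro h1
      apply hk
      rw [Function.iterate_succ_apply', h1, S_one]
    have h2 := ih hk'
    have h3 := tmin_S (h.iter k).2 hk'
    rw [ev, Function.iterate_succ_apply']
    omega

/-! ### The linear representation of the orbit -/

/-- `f ↦ (f + f(0)) / x` as a linear map -/
noncomputable def D : Module.End (ZMod 2) (ZMod 2)[X] where
  toFun f := f.divX
  map_add' f g := by rw [divX_add]
  map_smul' c f := by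
    ext i
    simp [coeff_divX]

theorem D_coeff (f : (ZMod 2)[X]) (i : ℕ) : (D f).coeff i = f.coeff (i + 1) := coeff_divX

theorem D_pow_coeff (e : ℕ) (f : (ZMod 2)[X]) (i : ℕ) : ((D ^ e) f).coeff i = f.coeff (i + e) := by
  induction e generalizing i with
  | zero => rfl
  | succ e ih =>
    rw [pow_succ', Module.End.mul_apply, D_coeff, ih]
    congr 1
    ring

theorem commD (e o : ℕ) : Commute (D ^ e) ((1 + D) ^ o) :=
  ((Commute.one_right D).add_right (Commute.refl D)).pow_pow e o

theorem repr (f : (ZMod 2)[X]) (k : ℕ) :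
    S^[k] f = (D ^ (ev k f)) (((1 + D) ^ (k - ev k f)) f) := by
  induction k with
  | zero => rfl
  | succ k ih =>
    have hle := ev_le k f
    rw [ev, Function.iterate_succ_apply']
    by_cases h0 : (S^[k] f).coeff 0 = 0
    · rw [if_pos h0, pow_succ', Module.End.mul_apply,
        show k + 1 - (ev k f + 1) = k - ev k f by omega, ← ih]
      ext i
      rw [S_coeff_even h0, D_coeff]
    · rw [if_neg h0, add_zero, show k + 1 - ev k f = (k - ev k f) + 1 by omega, pow_succ',
        Module.End.mul_apply, ← Module.End.mul_apply]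
      have hc : (D ^ ev k f) * (1 + D) = (1 + D) * D ^ ev k f := by
        have := commD (ev k f) 1
        rw [pow_one] at this
        exact this
      rw [hc, Module.End.mul_apply, ← ih]
      ext i
      rw [S_coeff_odd h0, LinearMap.add_apply, Module.End.one_apply, coeff_add, D_coeff]

theorem IsDeg.one_add_D {f : (ZMod 2)[X]} {n : ℕ} (h : IsDeg f n) : IsDeg ((1 + D) f) n := by
  constructor
  · rw [LinearMap.add_apply, Module.End.one_apply, coeff_add, D_coeff, h.1, h.2 (n + 1) (by omega),
      add_zero]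
  · intro i hi
    rw [LinearMap.add_apply, Module.End.one_apply, coeff_add, D_coeff, h.2 i hi,
      h.2 (i + 1) (by omega), add_zero]

theorem IsDeg.pow {f : (ZMod 2)[X]} {n : ℕ} (h : IsDeg f n) (o : ℕ) :
    IsDeg (((1 + D) ^ o) f) n := by
  induction o with
  | zero => exact h
  | succ o ih =>
    rw [pow_succ', Module.End.mul_apply]
    exact ih.one_add_D

theorem inj_one_add_D : Function.Injective ⇑(1 + D) := by
  rw [injective_iff_map_eq_zero]
  intro f hf
  by_contra h
  obtain ⟨n, hn⟩ := exists_isDeg h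
  exact hn.one_add_D.ne_zero hf

theorem inj_pow (o : ℕ) : Function.Injective ⇑((1 + D) ^ o) := by
  induction o with
  | zero => exact Function.injective_id
  | succ o ih =>
    intro a b hab
    rw [pow_succ', Module.End.mul_apply, Module.End.mul_apply] at hab
    exact ih (inj_one_add_D hab)

end Pool.Agent.H622.Px
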