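import Pool.Agent.H622.Px1

/-!
# The Collatz map on `F₂[x]`: counting the polynomials with an unusual orbit
-/

namespace Pool.Agent.H622.Px

open Polynomial Finset

/-- the monic polynomial of degree `n` with the lower coefficients `a` -/
noncomputable def P (n : ℕ) (a : Fin n → ZMod 2) : (ZMod 2)[X] :=
  X ^ n + ∑ i : Fin n, monomial (i : ℕ) (a i)

theorem P_coeff_lt (n : ℕ) (a : Fin n → ZMod 2) (i : Fin n) : (P n a).coeff i = a i := by
  unfold P
  rw [coeff_add, coeff_X_pow, if_neg (by have := i.2; omega), zero_add, finsetSum_coeff,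
    Finset.sum_eq_single i]
  · rw [coeff_monomial, if_pos rfl]
  · intro j _ hj
    rw [coeff_monomial, if_neg (fun h => hj (Fin.ext h))]
  · intro h
    exact absurd (Finset.mem_univ _) h

theorem P_isDeg (n : ℕ) (a : Fin n → ZMod 2) : IsDeg (P n a) n := by
  have h : ∀ i, n ≤ i → (∑ j : Fin n, monomial (j : ℕ) (a j)).coeff i = 0 := by
    intro i hi
    rw [finsetSum_coeff]
    apply Finset.sum_eq_zero
    intro j _
    rw [coeff_monomial, if_neg (by have := j.2; omega)]
  constructor
  · unfold P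
    rw [coeff_add, coeff_X_pow, if_pos rfl, h n le_rfl, add_zero]
  · intro i hi
    unfold P
    rw [coeff_add, coeff_X_pow, if_neg (by omega), h i hi.le, add_zero]

theorem IsDeg.eq_P {f : (ZMod 2)[X]} {n : ℕ} (h : IsDeg f n) : f = P n (fun i => f.coeff i) := by
  ext i
  rcases lt_trichotomy i n with hi | rfl | hi
  · exact (P_coeff_lt n (fun i => f.coeff i) ⟨i, hi⟩).symm
  · rw [h.1, (P_isDeg _ _).1]
  · rw [h.2 i hi, (P_isDeg _ _).2 i hi]

theorem P_inj (n : ℕ) : Function.Injective (P n) := by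
  intro a b hab
  funext i
  rw [← P_coeff_lt n a i, hab, P_coeff_lt]

/-- the polynomials of degree `n` -/
noncomputable def F (n : ℕ) : Finset (ZMod 2)[X] := by
  classical exact (Finset.univ : Finset (Fin n → ZMod 2)).image (P n)

theorem mem_F (n : ℕ) (f : (ZMod 2)[X]) : f ∈ F n ↔ IsDeg f n := by
  classical
  unfold F
  rw [Finset.mem_image]
  constructor
  · rintro ⟨a, _, rfl⟩
    exact P_isDeg n a
  · intro h
    exact ⟨_, Finset.mem_univ _, h.eq_P.symm⟩

theorem card_F (n : ℕ) : (F n).card = 2 ^ n := by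
  classical
  unfold F
  rw [Finset.card_image_of_injective _ (P_inj n), Finset.card_univ, Fintype.card_fun, ZMod.card,
    Fintype.card_fin]

/-- the sign of a parity: `1` for even and `-1` for odd -/
noncomputable def s (a : ZMod 2) : ℝ := if a = 0 then 1 else -1

/-- the number of even minus the number of odd terms -/
noncomputable def Z {w : ℕ} (v : Fin w → ZMod 2) : ℝ := ∑ j, s (v j)

theorem sum_exp (w : ℕ) (t : ℝ) :
    ∑ v : Fin w → ZMod 2, Real.exp (t * Z v) = (2 * Real.cosh t) ^ w := by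
  have h1 : (2 * Real.cosh t) = ∑ a : ZMod 2, Real.exp (t * s a) := by
    have : (Finset.univ : Finset (ZMod 2)) = {0, 1} := by decide
    rw [this, Finset.sum_pair (by decide), Real.cosh_eq]
    unfold s
    rw [if_pos rfl, if_neg (by decide)]
    rw [mul_one, mul_neg, mul_one]
    ring
  rw [h1, Fintype.sum_pow]
  refine Finset.sum_congr rfl fun v _ => ?_
  rw [← Real.exp_sum, Z, Finset.mul_sum]

/-- parity vectors with an unusual number of even terms -/
noncomputable def B (w : ℕ) (μ : ℝ) : Finset (Fin w → ZMod 2) := by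
  classical exact Finset.univ.filter (fun v => μ * √w < |Z v|)

theorem card_B (w : ℕ) (hw : 0 < w) (μ : ℝ) (hμ : 0 ≤ μ) :
    ((B w μ).card : ℝ) ≤ 2 ^ (w + 1) * Real.exp (-(μ ^ 2 / 2)) := by
  classical
  have hw' : (0 : ℝ) < w := by exact_mod_cast hw
  have hs : 0 < √(w : ℝ) := Real.sqrt_pos.2 hw'
  set t : ℝ := μ / √w with ht
  have ht0 : 0 ≤ t := div_nonneg hμ hs.le
  have htw : t * √w = μ := div_mul_cancel₀ _ hs.ne'
  have ht2 : t ^ 2 * w = μ ^ 2 := by
    rw [← htw, mul_pow, Real.sq_sqrt hw'.le]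
  have h1 : ((B w μ).card : ℝ) * Real.exp (μ ^ 2) ≤
      ∑ v : Fin w → ZMod 2, (Real.exp (t * Z v) + Real.exp (-t * Z v)) := by
    calc ((B w μ).card : ℝ) * Real.exp (μ ^ 2)
        = ∑ v ∈ B w μ, Real.exp (μ ^ 2) := by rw [Finset.sum_const, nsmul_eq_mul]
      _ ≤ ∑ v ∈ B w μ, (Real.exp (t * Z v) + Real.exp (-t * Z v)) := by
          refine Finset.sum_le_sum fun v hv => ?_
          unfold B at hv
          rw [Finset.mem_filter] at hv
          have h2 : μ ^ 2 ≤ t * |Z v| := by
            calc μ ^ 2 = t * (μ * √w) := by rw [← htw]; ring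
              _ ≤ t * |Z v| := mul_le_mul_of_nonneg_left hv.2.le ht0
          rcases abs_cases (Z v) with ⟨h3, _⟩ | ⟨h3, _⟩
          · rw [h3] at h2
            have := Real.exp_le_exp.2 h2
            have := Real.exp_pos (-t * Z v)
            linarith
          · rw [h3] at h2
            have h4 : μ ^ 2 ≤ -t * Z v := by linarith
            have := Real.exp_le_exp.2 h4
            have := Real.exp_pos (t * Z v)
            linarith
      _ ≤ _ := Finset.sum_le_univ_sum_of_nonneg (fun v => by positivity)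
  rw [Finset.sum_add_distrib, sum_exp, sum_exp, Real.cosh_neg] at h1
  have h2 : (2 * Real.cosh t) ^ w ≤ 2 ^ w * Real.exp (μ ^ 2 / 2) := by
    rw [mul_pow]
    refine mul_le_mul_of_nonneg_left ?_ (by positivity)
    calc Real.cosh t ^ w ≤ (Real.exp (t ^ 2 / 2)) ^ w :=
          pow_le_pow_left₀ (Real.cosh_pos t).le (Real.cosh_le_exp_half_sq t) w
      _ = Real.exp (μ ^ 2 / 2) := by
          rw [← Real.exp_nat_mul, ← ht2]
          congr 1
          ring
  have h3 : ((B w μ).card : ℝ) * Real.exp (μ ^ 2) ≤ 2 ^ (w + 1) * Real.exp (μ ^ 2 / 2) := by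
    calc _ ≤ _ := h1
      _ ≤ 2 ^ w * Real.exp (μ ^ 2 / 2) + 2 ^ w * Real.exp (μ ^ 2 / 2) := add_le_add h2 h2
      _ = _ := by ring
  have h4 : Real.exp (μ ^ 2) * Real.exp (-(μ ^ 2)) = 1 := by
    rw [← Real.exp_add]; simp
  calc ((B w μ).card : ℝ)
      = ((B w μ).card : ℝ) * Real.exp (μ ^ 2) * Real.exp (-(μ ^ 2)) := by
        rw [mul_assoc, h4, mul_one]
    _ ≤ (2 ^ (w + 1) * Real.exp (μ ^ 2 / 2)) * Real.exp (-(μ ^ 2)) :=
        mul_le_mul_of_nonneg_right h3 (Real.exp_pos _).le
    _ = 2 ^ (w + 1) * Real.exp (-(μ ^ 2 / 2)) := by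
        rw [mul_assoc, ← Real.exp_add]
        congr 2
        ring

/-- the parity vector of length `w` of `g` -/
noncomputable def pv (w : ℕ) (g : (ZMod 2)[X]) : Fin w → ZMod 2 := fun j => (S^[(j : ℕ)] g).coeff 0

/-- the polynomials of degree `n` whose image under `D ^ e (1 + D) ^ o` has an unusual parity
vector of length `n - e` -/
noncomputable def Bad (n e o : ℕ) (μ : ℝ) : Finset (ZMod 2)[X] := by
  classical exact (F n).filter (fun f => pv (n - e) ((D ^ e) (((1 + D) ^ o) f)) ∈ B (n - e) μ)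

theorem card_Bad (n e o : ℕ) (μ : ℝ) (he : e ≤ n) :
    (Bad n e o μ).card ≤ 2 ^ e * (B (n - e) μ).card := by
  classical
  have h1 : (Bad n e o μ).card ≤
      ((Finset.univ : Finset (Fin e → ZMod 2)) ×ˢ (B (n - e) μ)).card := by
    refine Finset.card_le_card_of_injOn
      (fun f => ((fun i : Fin e => (((1 + D) ^ o) f).coeff i),
        pv (n - e) ((D ^ e) (((1 + D) ^ o) f)))) ?_ ?_
    · intro f hf
      unfold Bad at hf
      rw [Finset.coe_filter] at hf
      rw [Finset.coe_product]
      exact ⟨Finset.mem_coe.2 (Finset.mem_univ _), hf.2⟩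
    · intro f hf f' hf' hff
      unfold Bad at hf hf'
      rw [Finset.coe_filter] at hf hf'
      have hd := ((mem_F n f).1 hf.1).pow o
      have hd' := ((mem_F n f').1 hf'.1).pow o
      apply inj_pow o
      have h2 := (Prod.ext_iff.1 hff).1
      have h3 := (Prod.ext_iff.1 hff).2
      have h4 := par (n - e) ((D ^ e) (((1 + D) ^ o) f)) ((D ^ e) (((1 + D) ^ o) f')) (by
        intro j hj
        exact congrFun h3 ⟨j, hj⟩)
      ext i
      rcases Nat.lt_or_ge i e with hi | hi
      · exact congrFun h2 ⟨i, hi⟩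
      · rcases Nat.lt_or_ge i n with hin | hin
        · have := h4 (i - e) (by omega)
          rw [D_pow_coeff, D_pow_coeff, Nat.sub_add_cancel hi] at this
          exact this
        · rcases hin.eq_or_lt with rfl | hin
          · rw [hd.1, hd'.1]
          · rw [hd.2 i hin, hd'.2 i hin]
  rw [Finset.card_product, Finset.card_univ, Fintype.card_fun, ZMod.card, Fintype.card_fin] at h1
  exact h1

/-- all bad polynomials -/
noncomputable def AllBad (n : ℕ) (μ : ℝ) : Finset (ZMod 2)[X] := by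
  classical
  exact (Finset.range n).biUnion
    (fun e => (Finset.range ((n + 1) * (n + 2) + 1)).biUnion (fun o => Bad n e o μ))

theorem card_AllBad (n : ℕ) (μ : ℝ) (hμ : 0 ≤ μ) :
    ((AllBad n μ).card : ℝ) ≤
      n * ((n + 1) * (n + 2) + 1) * (2 ^ (n + 1) * Real.exp (-(μ ^ 2 / 2))) := by
  classical
  have h1 : ∀ e ∈ Finset.range n, ∀ o, ((Bad n e o μ).card : ℝ) ≤
      2 ^ (n + 1) * Real.exp (-(μ ^ 2 / 2)) := by
    intro e he o
    rw [Finset.mem_range] at he
    calc ((Bad n e o μ).card : ℝ) ≤ 2 ^ e * (B (n - e) μ).card := by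
          exact_mod_cast card_Bad n e o μ he.le
      _ ≤ 2 ^ e * (2 ^ (n - e + 1) * Real.exp (-(μ ^ 2 / 2))) :=
          mul_le_mul_of_nonneg_left (card_B (n - e) (by omega) μ hμ) (by positivity)
      _ = 2 ^ (n + 1) * Real.exp (-(μ ^ 2 / 2)) := by
          rw [← mul_assoc, ← pow_add]
          congr 2
          omega
  unfold AllBad
  calc _ ≤ (∑ e ∈ Finset.range n, ((Finset.range ((n + 1) * (n + 2) + 1)).biUnion
          (fun o => Bad n e o μ)).card : ℝ) := by
        exact_mod_cast Finset.card_biUnion_le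
    _ ≤ ∑ e ∈ Finset.range n, ∑ o ∈ Finset.range ((n + 1) * (n + 2) + 1),
          ((Bad n e o μ).card : ℝ) := by
        refine Finset.sum_le_sum fun e _ => ?_
        exact_mod_cast Finset.card_biUnion_le
    _ ≤ ∑ e ∈ Finset.range n, ∑ o ∈ Finset.range ((n + 1) * (n + 2) + 1),
          2 ^ (n + 1) * Real.exp (-(μ ^ 2 / 2)) :=
        Finset.sum_le_sum fun e he => Finset.sum_le_sum fun o _ => h1 e he o
    _ = _ := by
        rw [Finset.sum_const, Finset.sum_const, Finset.card_range, Finset.card_range, nsmul_eq_mul,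
          nsmul_eq_mul]
        push_cast
        ring

end Pool.Agent.H622.Px
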