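import Pool.Agent.H622.Px2

/-!
# The Collatz map on `F₂[x]`: the stopping time of all polynomials with usual orbits
-/

namespace Pool.Agent.H622.Px

open Polynomial Finset

theorem Z_pv (w : ℕ) (g : (ZMod 2)[X]) : Z (pv w g) = 2 * ev w g - w := by
  unfold Z pv
  rw [← Finset.sum_range (fun j => s ((S^[j] g).coeff 0))]
  induction w with
  | zero => simp [ev]
  | succ w ih =>
    rw [Finset.sum_range_succ, ih, ev, s]
    split_ifs <;> push_cast <;> ring

theorem IsDeg.unique {f : (ZMod 2)[X]} {m n : ℕ} (h : IsDeg f m) (h' : IsDeg f n) : m = n := by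
  rcases lt_trichotomy m n with h1 | h1 | h1
  · have := h.2 n h1
    rw [h'.1] at this
    exact absurd this (by decide)
  · exact h1
  · have := h'.2 m h1
    rw [h.1] at this
    exact absurd this (by decide)

theorem good_step {f : (ZMod 2)[X]} {n : ℕ} (hf : IsDeg f n) (μ : ℝ) (hg : f ∉ AllBad n μ)
    (k w : ℕ) (hw : 0 < w) (hk : IsDeg (S^[k] f) w) : |Z (pv w (S^[k] f))| ≤ μ * √w := by
  classical
  obtain ⟨h1, h2⟩ := hf.iter k
  have h3 : w = n - ev k f := hk.unique h2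
  have hne : S^[k] f ≠ 1 := hk.ne_one hw
  have h4 := tmin_iter hf k hne
  have h5 := hf.tmin_le
  have h6 := ev_le k f
  by_contra hcon
  push Not at hcon
  apply hg
  unfold AllBad
  rw [Finset.mem_biUnion]
  refine ⟨ev k f, Finset.mem_range.2 (by omega), ?_⟩
  rw [Finset.mem_biUnion]
  refine ⟨k - ev k f, Finset.mem_range.2 (by omega), ?_⟩
  unfold Bad
  rw [Finset.mem_filter, mem_F, ← repr, ← h3]
  refine ⟨hf, ?_⟩
  unfold B
  rw [Finset.mem_filter]
  exact ⟨Finset.mem_univ _, hcon⟩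

theorem good {f : (ZMod 2)[X]} {n : ℕ} (hf : IsDeg f n) (μ : ℝ) (hμ : 0 ≤ μ)
    (hg : f ∉ AllBad n μ) (w : ℕ) : ∀ k : ℕ, IsDeg (S^[k] f) w →
    |(tmin (S^[k] f) : ℝ) - 3 * w| ≤ 16 * μ * √w + (4 * μ ^ 2 + 1) * (4 * μ ^ 2 + 2) := by
  induction w using Nat.strong_induction_on with
  | _ w ih =>
    intro k hk
    have hw0 : (0 : ℝ) ≤ w := Nat.cast_nonneg w
    have hsq : 0 ≤ √(w : ℝ) := Real.sqrt_nonneg _
    rcases Nat.eq_zero_or_pos w with rfl | hw
    · rw [hk.eq_one, tmin_one]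
      simp only [Nat.cast_zero, mul_zero, sub_zero, abs_zero, Real.sqrt_zero]
      positivity
    · rcases lt_or_ge (w : ℝ) (4 * μ ^ 2) with hlt | hge
      · have h1 : ((tmin (S^[k] f) : ℕ) : ℝ) ≤ (w + 1) * (w + 2) := by
          exact_mod_cast hk.tmin_le
        have h2 : (0 : ℝ) ≤ tmin (S^[k] f) := Nat.cast_nonneg _
        have h3 : |(tmin (S^[k] f) : ℝ) - 3 * w| ≤ (w + 1) * (w + 2) := by
          rw [abs_le]
          constructor <;> nlinarith
        have h4 : ((w : ℝ) + 1) * (w + 2) ≤ (4 * μ ^ 2 + 1) * (4 * μ ^ 2 + 2) := by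
          apply mul_le_mul <;> first | linarith | positivity
        have h5 : 0 ≤ 16 * μ * √(w : ℝ) := by positivity
        linarith
      · set g := S^[k] f with hgdef
        have hz := good_step hf μ hg k w hw hk
        rw [← hgdef] at hz
        have hZ := Z_pv w g
        set z := Z (pv w g) with hzdef
        have hwpos : (0 : ℝ) < w := by exact_mod_cast hw
        have hμs : 2 * μ ≤ √(w : ℝ) := by
          apply Real.le_sqrt_of_sq_le
          nlinarith
        have hss : √(w : ℝ) * √(w : ℝ) = w := Real.mul_self_sqrt hw0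
        have hz2 : μ * √(w : ℝ) ≤ w / 2 := by nlinarith
        obtain ⟨he1, he2⟩ := hk.iter w
        have hw' : ((w - ev w g : ℕ) : ℝ) = (w - z) / 2 := by
          rw [Nat.cast_sub he1, hZ]
          ring
        have hzabs := abs_le.1 hz
        have hlow : (w : ℝ) / 4 ≤ ((w - ev w g : ℕ) : ℝ) := by
          rw [hw']; linarith [hzabs.2]
        have hup : ((w - ev w g : ℕ) : ℝ) ≤ 3 * w / 4 := by
          rw [hw']; linarith [hzabs.1]
        have hpos : 0 < w - ev w g := by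
          have : (0 : ℝ) < ((w - ev w g : ℕ) : ℝ) := by linarith
          exact_mod_cast this
        have hlt' : w - ev w g < w := by
          have : ((w - ev w g : ℕ) : ℝ) < w := by linarith
          exact_mod_cast this
        have hit : S^[w] g = S^[w + k] f := by
          rw [hgdef, ← Function.iterate_add_apply]
        have hti := tmin_iter hk w (he2.ne_one hpos)
        have hIH := ih (w - ev w g) hlt' (w + k) (by rw [← hit]; exact he2)
        rw [← hit] at hIH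
        have hti' : (tmin g : ℝ) + ev w g = tmin (S^[w] g) + 2 * w := by exact_mod_cast hti
        have hroot : √((w - ev w g : ℕ) : ℝ) ≤ 7 / 8 * √(w : ℝ) := by
          rw [Real.sqrt_le_left (by positivity), mul_pow, Real.sq_sqrt hw0]
          linarith
        have hfin : (tmin g : ℝ) - 3 * w =
            ((tmin (S^[w] g) : ℝ) - 3 * ((w - ev w g : ℕ) : ℝ)) - 2 * z := by
          rw [hw', hZ]
          linarith
        have hev : 2 * (ev w g : ℝ) = w + z := by rw [hZ]; ring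
        rw [hfin]
        have h7 : |((tmin (S^[w] g) : ℝ) - 3 * ((w - ev w g : ℕ) : ℝ)) - 2 * z| ≤
            |(tmin (S^[w] g) : ℝ) - 3 * ((w - ev w g : ℕ) : ℝ)| + 2 * |z| := by
          refine (abs_sub _ _).trans ?_
          rw [abs_mul, abs_two]
        have h8 : 16 * μ * √((w - ev w g : ℕ) : ℝ) ≤ 16 * μ * (7 / 8 * √(w : ℝ)) :=
          mul_le_mul_of_nonneg_left hroot (by positivity)
        linarith

theorem good_fin {f : (ZMod 2)[X]} {n : ℕ} (hf : IsDeg f n) (μ : ℝ) (hμ : 0 ≤ μ)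
    (hg : f ∉ AllBad n μ) :
    |(tmin f : ℝ) - 3 * n| ≤ 16 * μ * √n + (4 * μ ^ 2 + 1) * (4 * μ ^ 2 + 2) :=
  good hf μ hμ hg n 0 hf

/-! ### Numbers -/

/-- the parameter for the exponent `K` -/
noncomputable def mu (K n : ℕ) : ℝ := √(2 * (K + 6) * Real.log n)

theorem mu_sq (K n : ℕ) (hn : 1 ≤ n) : mu K n ^ 2 = 2 * (K + 6) * Real.log n := by
  unfold mu
  rw [Real.sq_sqrt]
  have : 0 ≤ Real.log n := Real.log_nonneg (by exact_mod_cast hn)
  positivity

theorem log_sq_le (n : ℕ) (hn : 2 ≤ n) : Real.log n ^ 2 ≤ 6 * √(n * Real.log n) := by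
  have hn' : (2 : ℝ) ≤ n := by exact_mod_cast hn
  have hlog : 0 < Real.log n := Real.log_pos (by linarith)
  have h1 : Real.log n ≤ 3 * (n : ℝ) ^ (1 / 3 : ℝ) := by
    have := Real.log_le_rpow_div (x := (n : ℝ)) (by linarith) (ε := 1 / 3) (by norm_num)
    linarith
  have h2 : Real.log n ^ 3 ≤ 27 * n := by
    calc Real.log n ^ 3 ≤ (3 * (n : ℝ) ^ (1 / 3 : ℝ)) ^ 3 := pow_le_pow_left₀ hlog.le h1 3
      _ = 27 * n := by
          rw [mul_pow, ← Real.rpow_natCast ((n : ℝ) ^ (1 / 3 : ℝ)) 3, ← Real.rpow_mul (by linarith)]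
          norm_num
  have h3 : Real.log n ^ 2 ≤ √(36 * (n * Real.log n)) := by
    apply Real.le_sqrt_of_sq_le
    nlinarith
  refine h3.trans (le_of_eq ?_)
  rw [Real.sqrt_mul (by norm_num), show (36 : ℝ) = 6 ^ 2 by norm_num, Real.sqrt_sq (by norm_num)]

theorem half_le_log (n : ℕ) (hn : 2 ≤ n) : 1 / 2 ≤ Real.log n := by
  have hn' : (2 : ℝ) ≤ n := by exact_mod_cast hn
  have h1 : Real.log 2 ≤ Real.log n := Real.log_le_log (by norm_num) hn'
  have h2 := Real.log_two_gt_d9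
  linarith

theorem bound_num (K n : ℕ) (hn : 2 ≤ n) :
    16 * mu K n * √n + (4 * mu K n ^ 2 + 1) * (4 * mu K n ^ 2 + 2) ≤
      1000 * (K + 6) ^ 2 * √(n * Real.log n) := by
  have hn' : (2 : ℝ) ≤ n := by exact_mod_cast hn
  have hl := half_le_log n hn
  have hK : (0 : ℝ) ≤ K := Nat.cast_nonneg K
  have hm := mu_sq K n (by omega)
  have hs0 : 0 ≤ √((n : ℝ) * Real.log n) := Real.sqrt_nonneg _
  have h1 : mu K n * √n ≤ 2 * (K + 6) * √(n * Real.log n) := by
    unfold mu
    rw [← Real.sqrt_mul (by positivity)]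
    have : 2 * ((K : ℝ) + 6) * √(n * Real.log n) = √((2 * (K + 6)) ^ 2 * (n * Real.log n)) := by
      rw [Real.sqrt_mul (x := (2 * ((K : ℝ) + 6)) ^ 2) (by positivity),
        Real.sqrt_sq (by positivity)]
    rw [this]
    apply Real.sqrt_le_sqrt
    have h0 : (0 : ℝ) ≤ n * Real.log n := by positivity
    have h00 : 2 * ((K : ℝ) + 6) ≤ (2 * ((K : ℝ) + 6)) ^ 2 := by nlinarith
    calc 2 * ((K : ℝ) + 6) * Real.log n * n = 2 * ((K : ℝ) + 6) * (n * Real.log n) := by ring
      _ ≤ _ := mul_le_mul_of_nonneg_right h00 h0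
  have h2 : (4 * mu K n ^ 2 + 1) * (4 * mu K n ^ 2 + 2) ≤ 36 * (mu K n ^ 2) ^ 2 := by
    have : 1 ≤ mu K n ^ 2 := by
      rw [hm]; nlinarith
    nlinarith
  have h3 : 36 * (mu K n ^ 2) ^ 2 ≤ 864 * (K + 6) ^ 2 * √(n * Real.log n) := by
    rw [hm]
    have := log_sq_le n hn
    have h4 : 0 ≤ 144 * ((K : ℝ) + 6) ^ 2 := by positivity
    have := mul_le_mul_of_nonneg_left this h4
    calc _ = 144 * ((K : ℝ) + 6) ^ 2 * Real.log n ^ 2 := by ring
      _ ≤ _ := this
      _ = _ := by ring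
  have h5 : 32 * ((K : ℝ) + 6) ≤ 136 * (K + 6) ^ 2 := by nlinarith
  have h6 := mul_le_mul_of_nonneg_right h5 hs0
  have h7 : 16 * mu K n * √n = 16 * (mu K n * √n) := by ring
  rw [h7]
  nlinarith

theorem card_num (K n : ℕ) (hn : 2 ≤ n) :
    ((AllBad n (mu K n)).card : ℝ) ≤ 2 ^ n / n ^ K := by
  have hn' : (2 : ℝ) ≤ n := by exact_mod_cast hn
  have hn0 : (0 : ℝ) < n := by linarith
  refine (card_AllBad n (mu K n) (Real.sqrt_nonneg _)).trans ?_
  have h1 : Real.exp (-(mu K n ^ 2 / 2)) = ((n : ℝ) ^ (K + 6))⁻¹ := by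
    rw [mu_sq K n (by omega), Real.exp_neg]
    congr 1
    rw [show 2 * ((K : ℝ) + 6) * Real.log n / 2 = ((K + 6 : ℕ) : ℝ) * Real.log n by
      push_cast; ring, Real.exp_nat_mul, Real.exp_log hn0]
  rw [h1, le_div_iff₀ (by positivity)]
  have h2 : (n : ℝ) ^ (K + 6) = n ^ K * n ^ 6 := pow_add _ _ _
  have h3 : (0 : ℝ) < n ^ K := by positivity
  have h4 : (0 : ℝ) < (n : ℝ) ^ 6 := by positivity
  have h5 : (n : ℝ) * ((n + 1) * (n + 2) + 1) * (2 ^ (n + 1) * ((n : ℝ) ^ (K + 6))⁻¹) * n ^ K =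
      2 ^ n * ((n : ℝ) * ((n + 1) * (n + 2) + 1) * 2 / n ^ 6) := by
    rw [h2]
    field_simp
    ring
  rw [h5]
  have h6 : (n : ℝ) * ((n + 1) * (n + 2) + 1) * 2 / n ^ 6 ≤ 1 := by
    rw [div_le_one h4]
    have h7 : ((n : ℝ) + 1) * (n + 2) + 1 ≤ 4 * n ^ 2 := by nlinarith
    have h8 : (8 : ℝ) ≤ n ^ 3 := by
      calc (8 : ℝ) = 2 ^ 3 := by norm_num
        _ ≤ n ^ 3 := pow_le_pow_left₀ (by norm_num) hn' 3
    calc (n : ℝ) * ((n + 1) * (n + 2) + 1) * 2 ≤ n * (4 * n ^ 2) * 2 := by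
          have := mul_le_mul_of_nonneg_left h7 hn0.le
          linarith
      _ = 8 * n ^ 3 := by ring
      _ ≤ n ^ 3 * n ^ 3 := mul_le_mul_of_nonneg_right h8 (by positivity)
      _ = n ^ 6 := by ring
  calc (2 : ℝ) ^ n * ((n : ℝ) * ((n + 1) * (n + 2) + 1) * 2 / n ^ 6) ≤ 2 ^ n * 1 :=
        mul_le_mul_of_nonneg_left h6 (by positivity)
    _ = 2 ^ n := mul_one _

/-- concentration, in finite form -/
theorem conc (K n : ℕ) (hn : 2 ≤ n) (f : (ZMod 2)[X]) (hf : IsDeg f n)
    (hg : f ∉ AllBad n (mu K n)) :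
    |(tmin f : ℝ) - 3 * n| ≤ 1000 * (K + 6) ^ 2 * √(n * Real.log n) :=
  (good_fin hf _ (Real.sqrt_nonneg _) hg).trans (bound_num K n hn)

theorem crude (n : ℕ) (f : (ZMod 2)[X]) (hf : IsDeg f n) :
    |(tmin f : ℝ) - 3 * n| ≤ (n + 1) * (n + 2) := by
  have h1 : ((tmin f : ℕ) : ℝ) ≤ (n + 1) * (n + 2) := by exact_mod_cast hf.tmin_le
  have h2 : (0 : ℝ) ≤ tmin f := Nat.cast_nonneg _
  have h3 : (0 : ℝ) ≤ n := Nat.cast_nonneg _
  rw [abs_le]
  constructor <;> nlinarith

theorem mean_bound (n : ℕ) (hn : 2 ≤ n) :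
    |(∑ f ∈ F n, (tmin f : ℝ)) / 2 ^ n - 3 * n| ≤ 65000 * √(n * Real.log n) := by
  classical
  have hn' : (2 : ℝ) ≤ n := by exact_mod_cast hn
  have hn0 : (0 : ℝ) < n := by linarith
  have hp : (0 : ℝ) < 2 ^ n := by positivity
  have hl := half_le_log n hn
  have h1 : (∑ f ∈ F n, (tmin f : ℝ)) / 2 ^ n - 3 * n = (∑ f ∈ F n, ((tmin f : ℝ) - 3 * n)) / 2 ^ n := by
    rw [Finset.sum_sub_distrib, Finset.sum_const, card_F, nsmul_eq_mul]
    push_cast
    field_simp
  have h2 : |∑ f ∈ F n, ((tmin f : ℝ) - 3 * n)| ≤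
      2 ^ n * (64000 * √(n * Real.log n)) + (2 ^ n / n ^ 2) * ((n + 1) * (n + 2)) := by
    calc _ ≤ ∑ f ∈ F n, |(tmin f : ℝ) - 3 * n| := Finset.abs_sum_le_sum_abs _ _
      _ ≤ ∑ f ∈ F n, (64000 * √(n * Real.log n) +
            (if f ∈ AllBad n (mu 2 n) then ((n : ℝ) + 1) * (n + 2) else 0)) := by
          refine Finset.sum_le_sum fun f hf => ?_
          have hd := (mem_F n f).1 hf
          split_ifs with hb
          · have := crude n f hd
            have : (0 : ℝ) ≤ 64000 * √(n * Real.log n) := by positivity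
            linarith
          · have := conc 2 n hn f hd hb
            push_cast at this
            rw [add_zero]
            refine this.trans (le_of_eq ?_)
            norm_num
      _ = 2 ^ n * (64000 * √(n * Real.log n)) +
            (((F n).filter (fun f => f ∈ AllBad n (mu 2 n))).card : ℝ) *
              (((n : ℝ) + 1) * (n + 2)) := by
          rw [Finset.sum_add_distrib, Finset.sum_const, card_F, nsmul_eq_mul, ← Finset.sum_filter,
            Finset.sum_const, nsmul_eq_mul]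
          push_cast
          rfl
      _ ≤ _ := by
          have h3 : (((F n).filter (fun f => f ∈ AllBad n (mu 2 n))).card : ℝ) ≤ 2 ^ n / n ^ 2 := by
            refine le_trans ?_ (card_num 2 n hn)
            have : ((F n).filter (fun f => f ∈ AllBad n (mu 2 n))).card ≤
                (AllBad n (mu 2 n)).card := by
              apply Finset.card_le_card
              intro f hf
              exact (Finset.mem_filter.1 hf).2
            exact_mod_cast this
          have := mul_le_mul_of_nonneg_right h3 (show (0 : ℝ) ≤ ((n : ℝ) + 1) * (n + 2) by positivity)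
          linarith
  rw [h1, abs_div, abs_of_pos hp, div_le_iff₀ hp]
  refine h2.trans ?_
  have h4 : ((n : ℝ) + 1) * (n + 2) / n ^ 2 ≤ 3 := by
    rw [div_le_iff₀ (by positivity)]
    nlinarith
  have h5 : 1 ≤ √((n : ℝ) * Real.log n) := by
    rw [Real.one_le_sqrt]
    nlinarith
  calc 2 ^ n * (64000 * √((n : ℝ) * Real.log n)) + (2 ^ n / n ^ 2) * ((n + 1) * (n + 2))
      = 2 ^ n * (64000 * √((n : ℝ) * Real.log n) + ((n : ℝ) + 1) * (n + 2) / n ^ 2) := by ring
    _ ≤ 2 ^ n * (64000 * √((n : ℝ) * Real.log n) + 3) := by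
        apply mul_le_mul_of_nonneg_left _ hp.le
        linarith
    _ ≤ 65000 * √((n : ℝ) * Real.log n) * 2 ^ n := by
        rw [mul_comm]
        apply mul_le_mul_of_nonneg_right _ hp.le
        linarith

end Pool.Agent.H622.Px
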