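import Mathlib
import Pool.Graph.R_seed8.H319R2.GRigid
import Pool.Graph.R_seed8.H319R2.GCount
import Pool.Graph.R_seed8.H319R2.GUnif
import Pool.Graph.R_seed8.H319R2.GContr

set_option autoImplicit false

/-! Rigidity of the infinite orbits and the cycles of the generalised Collatz maps of coprime type,
simultaneously for families of disjoint orbits. -/

namespace Pool.Agent.H622.RG

open Finset
open Pool.Agent.H319R2.G

/-- periodic, or with infinitely many different iterates -/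
def Good (T : ℤ → ℤ) (x : ℤ) : Prop := (∃ p : ℕ, 1 ≤ p ∧ T^[p] x = x) ∨ Function.Injective (fun k => T^[k] x)

/-- the union of the forward orbits -/
def union (T : ℤ → ℤ) (F : Finset ℤ) : Set ℤ := {y | ∃ x ∈ F, ∃ j : ℕ, T^[j] x = y}

theorem tame_union (T : ℤ → ℤ) (F : Finset ℤ) (hF : ∀ x ∈ F, Good T x)
    (hdis : ∀ x ∈ F, ∀ y ∈ F, ∀ i j : ℕ, T^[i] x = T^[j] y → x = y) : Tame T (union T F) := by
  apply tame_of_injOn
  · rintro y ⟨x, hx, j, rfl⟩
    exact ⟨x, hx, j + 1, by rw [Function.iterate_succ_apply']⟩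
  · rintro y ⟨x, hx, j, rfl⟩ y' ⟨x', hx', i, rfl⟩ h
    rw [← Function.iterate_succ_apply' T j x, ← Function.iterate_succ_apply' T i x'] at h
    have hxx := hdis x hx x' hx' _ _ h
    subst hxx
    rcases hF x hx with ⟨p, hp, hpx⟩ | hinj
    · have hper : Function.IsPeriodicPt T p x := hpx
      have h1 : T^[j] x ∈ Function.periodicPts T := ⟨p, hp, hper.apply_iterate j⟩
      have h2 : T^[i] x ∈ Function.periodicPts T := ⟨p, hp, hper.apply_iterate i⟩
      apply (Function.bijOn_periodicPts T).injOn h1 h2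
      rw [← Function.iterate_succ_apply' T j x, ← Function.iterate_succ_apply' T i x]
      exact h
    · have h1 : j.succ = i.succ := hinj h
      have h2 : j = i := by omega
      rw [h2]

/-- the deviation from the multiplicative cocycle after `k` steps -/
noncomputable def dev (g : GC) (k : ℕ) (x : ℤ) : ℝ :=
  |Real.log |((g.T^[k] x : ℤ) : ℝ)| - Real.log |(x : ℝ)| - g.lg k x|

theorem main (g₀ : GC) (θ η : ℝ) (hθ : 0 ≤ θ) (hηpos : 0 < η) (hη1 : η < 1)
    (hφ : ∑ i ∈ range g₀.d, g₀.a i ^ θ < (g₀.d : ℝ) ^ η) : ∃ C : ℝ, 0 < C ∧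
    ∀ g : GC, g.d = g₀.d → g.m = g₀.m → ∀ q : ℕ, 1 ≤ q → g.R ≤ q →
      ∀ F : Finset ℤ, (∀ x ∈ F, Good g.T x) →
        (∀ x ∈ F, ∀ y ∈ F, ∀ i j : ℕ, g.T^[i] x = g.T^[j] y → x = y) →
        ∀ ε : ℝ, 0 < ε → ε ≤ 1 →
          (∀ x ∈ F, ∃ k : ℕ, Set.InjOn (fun j => g.T^[j] x) (Set.Iio k) ∧ ε ≤ dev g k x) →
          (F.card : ℝ) ≤ C * (q : ℝ) * ε ^ (-η) := by
  classical
  obtain ⟨C, hC, hsp⟩ := GC.sparse_unif g₀ θ η hθ hηpos hφ
  have hρ1 : (2 : ℝ) ^ (η - 1) < 1 := Real.rpow_lt_one_of_one_lt_of_neg (by norm_num) (by linarith)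
  have h1ρ : 0 < 1 - (2 : ℝ) ^ (η - 1) := by linarith
  set A : ℝ := C + 3 with hAd
  have hA : 0 < A := by positivity
  set B : ℝ := 2 * (A * 2 ^ η / (1 - 2 ^ (η - 1))) with hB
  have hB0 : 0 < B := by positivity
  refine ⟨A * 3 ^ η + B * 3 ^ (η - 1), by positivity, ?_⟩
  intro g hgd hgm q hq hR F hF hdis ε hε hε1 hdev
  have hκ : (1 : ℝ) ≤ (q : ℝ) := by exact_mod_cast hq
  set κ : ℝ := (q : ℝ) with hκd
  have hκ0 : 0 < κ := by linarith
  have hR0 := g.R_nonneg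
  have htame := tame_union g.T F hF hdis
  have hcount : ∀ X : ℝ, 1 ≤ X → ∀ G : Finset ℤ,
      (∀ x ∈ G, x ∈ union g.T F ∧ |(x : ℝ)| ≤ X) →
        (G.card : ℝ) ≤ A * κ ^ (1 - η) * X ^ η := by
    intro X hX G hG
    have hX0 : 0 < X := by linarith
    rcases le_or_gt κ X with h | h
    · have h1 := hsp g hgd hgm q hq hR _ htame X h G hG
      refine h1.trans ?_
      have e : C * κ * (X / κ) ^ η = C * (κ ^ (1 - η) * X ^ η) := by
        rw [Real.div_rpow hX0.le hκ0.le, Real.rpow_sub hκ0, Real.rpow_one]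
        field_simp
      rw [e, mul_assoc]
      have : 0 ≤ κ ^ (1 - η) * X ^ η := by positivity
      nlinarith
    · have h1 : G ⊆ Finset.Icc (-⌊X⌋) ⌊X⌋ := by
        intro x hx
        have h2 := abs_le.1 (hG x hx).2
        rw [Finset.mem_Icc]
        constructor
        · have : -x ≤ ⌊X⌋ := Int.le_floor.2 (by push_cast; linarith [h2.1])
          omega
        · exact Int.le_floor.2 h2.2
      have h2 := card_le_card h1
      rw [Int.card_Icc] at h2
      have h3 : (G.card : ℝ) ≤ 2 * X + 1 := by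
        have h4 : (0 : ℤ) ≤ ⌊X⌋ := Int.floor_nonneg.2 hX0.le
        have h5 : (G.card : ℤ) ≤ 2 * ⌊X⌋ + 1 := by omega
        have h6 : (G.card : ℝ) ≤ 2 * (⌊X⌋ : ℝ) + 1 := by exact_mod_cast h5
        have h7 := Int.floor_le X
        linarith
      have h8 : X = X ^ (1 - η) * X ^ η := by
        rw [← Real.rpow_add hX0, show 1 - η + η = 1 by ring, Real.rpow_one]
      have h9 : X ^ (1 - η) ≤ κ ^ (1 - η) := Real.rpow_le_rpow hX0.le h.le (by linarith)
      have h10 : X ≤ κ ^ (1 - η) * X ^ η := by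
        calc X = X ^ (1 - η) * X ^ η := h8
          _ ≤ _ := mul_le_mul_of_nonneg_right h9 (by positivity)
      rw [mul_assoc]
      have h11 : 0 ≤ κ ^ (1 - η) * X ^ η := by positivity
      nlinarith
  set N : ℝ := 3 / ε with hN
  have hN3 : 3 ≤ N := by rw [hN, le_div_iff₀ hε]; linarith
  have hN0 : 0 < N := by linarith
  -- the orbits with a small element
  set P := F.filter (fun x => ∀ j : ℕ, N * κ ≤ |((g.T^[j] x : ℤ) : ℝ)|) with hP
  set Q := F.filter (fun x => ¬ ∀ j : ℕ, N * κ ≤ |((g.T^[j] x : ℤ) : ℝ)|) with hQ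
  have hPQ : P.card + Q.card = F.card := card_filter_add_card_filter_not _
  have hQc : (Q.card : ℝ) ≤ A * κ * N ^ η := by
    have hch : ∀ x : ℤ, ∃ j : ℕ, x ∈ Q → |((g.T^[j] x : ℤ) : ℝ)| < N * κ := by
      intro x
      by_cases hx : x ∈ Q
      · have h := hx
        rw [hQ, mem_filter] at h
        have := h.2
        push Not at this
        obtain ⟨j, hj⟩ := this
        exact ⟨j, fun _ => hj⟩
      · exact ⟨0, fun h => absurd h hx⟩
    choose f hf using hch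
    have hQF : ∀ x ∈ Q, x ∈ F := fun x hx => by rw [hQ, mem_filter] at hx; exact hx.1
    have hinj : Set.InjOn (fun x => g.T^[f x] x) (Q : Set ℤ) := by
      intro x hx y hy h
      exact hdis x (hQF x hx) y (hQF y hy) _ _ h
    rw [← card_image_of_injOn hinj]
    have h1 := hcount (N * κ) (by nlinarith) (Q.image (fun x => g.T^[f x] x)) (by
      intro y hy
      rw [mem_image] at hy
      obtain ⟨x, hx, rfl⟩ := hy
      exact ⟨⟨x, hQF x hx, f x, rfl⟩, (hf x hx).le⟩)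
    have hpow : κ ^ (1 - η) * (N * κ) ^ η = κ * N ^ η := by
      rw [Real.mul_rpow hN0.le hκ0.le, mul_left_comm, ← Real.rpow_add hκ0]
      rw [show 1 - η + η = 1 by ring, Real.rpow_one]; ring
    rw [mul_assoc, hpow] at h1
    linarith [h1]
  -- the orbits without a small element
  have hPc : (P.card : ℝ) * ε ≤ B * κ * N ^ (η - 1) := by
    have hPF : ∀ x ∈ P, x ∈ F ∧ ∀ j : ℕ, N * κ ≤ |((g.T^[j] x : ℤ) : ℝ)| := fun x hx => by
      rw [hP, mem_filter] at hx; exact hx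
    have hch : ∀ x : ℤ, ∃ k : ℕ, x ∈ P → Set.InjOn (fun j => g.T^[j] x) (Set.Iio k) ∧ ε ≤ dev g k x := by
      intro x
      by_cases hx : x ∈ P
      · obtain ⟨k, hk⟩ := hdev x (hPF x hx).1
        exact ⟨k, fun _ => hk⟩
      · exact ⟨0, fun h => absurd h hx⟩
    choose f hf using hch
    set O : ℤ → Finset ℤ := fun x => (range (f x)).image (fun j => g.T^[j] x) with hO
    have hdisj : (P : Set ℤ).PairwiseDisjoint O := by
      intro x hx y hy hne
      rw [Function.onFun, disjoint_left]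
      intro z hz hz'
      simp only [hO, mem_image] at hz hz'
      obtain ⟨i, _, hi⟩ := hz
      obtain ⟨j, _, hj⟩ := hz'
      exact hne (hdis x (hPF x hx).1 y (hPF y hy).1 i j (by rw [hi, hj]))
    have hrec := recip_of_sparse η (A * κ ^ (1 - η)) hηpos hη1 (by positivity)
      (union g.T F) hcount (N * κ) (by nlinarith) (P.biUnion O) (by
      intro z hz
      rw [mem_biUnion] at hz
      obtain ⟨x, hx, hz⟩ := hz
      simp only [hO, mem_image] at hz
      obtain ⟨j, _, rfl⟩ := hz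
      exact ⟨⟨x, (hPF x hx).1, j, rfl⟩, (hPF x hx).2 j⟩)
    rw [sum_biUnion hdisj] at hrec
    have hterm : ∀ x ∈ P, ε ≤ 2 * κ * ∑ z ∈ O x, 1 / |(z : ℝ)| := by
      intro x hx
      obtain ⟨h1, h2⟩ := hf x hx
      refine h2.trans ?_
      have h3 := g.log_iter_sum x (f x) (by
        intro j _
        have := (hPF x hx).2 j
        nlinarith)
      unfold dev
      refine h3.trans ?_
      have h4 : ∑ z ∈ O x, 1 / |(z : ℝ)| = ∑ j ∈ range (f x), 1 / |((g.T^[j] x : ℤ) : ℝ)| := by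
        rw [hO]
        simp only
        rw [sum_image]
        intro i hi j hj h
        rw [mem_coe, mem_range] at hi hj
        exact h1 hi hj h
      rw [h4]
      apply mul_le_mul_of_nonneg_right _ (sum_nonneg fun _ _ => by positivity)
      linarith
    have h5 : (P.card : ℝ) * ε ≤ 2 * κ * ∑ x ∈ P, ∑ z ∈ O x, 1 / |(z : ℝ)| := by
      rw [mul_sum, ← nsmul_eq_mul, ← sum_const]
      exact sum_le_sum hterm
    refine h5.trans ?_
    refine (mul_le_mul_of_nonneg_left hrec (by positivity)).trans (le_of_eq ?_)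
    have hpow' : κ * (κ ^ (1 - η) * (N * κ) ^ (η - 1)) = κ * N ^ (η - 1) := by
      rw [Real.mul_rpow hN0.le hκ0.le, mul_left_comm (κ ^ (1 - η)), ← Real.rpow_add hκ0]
      rw [show 1 - η + (η - 1) = 0 by ring, Real.rpow_zero, mul_one]
    calc 2 * κ * (A * κ ^ (1 - η) * 2 ^ η / (1 - 2 ^ (η - 1)) * (N * κ) ^ (η - 1))
        = B * (κ * (κ ^ (1 - η) * (N * κ) ^ (η - 1))) := by rw [hB]; ring
      _ = _ := by rw [hpow']; ring
  have e1 : N ^ η = 3 ^ η * ε ^ (-η) := by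
    rw [hN, Real.div_rpow (by norm_num) hε.le, Real.rpow_neg hε.le, div_eq_mul_inv]
  have e2 : N ^ (η - 1) = 3 ^ (η - 1) * ε ^ (-η) * ε := by
    rw [hN, Real.div_rpow (by norm_num) hε.le, div_eq_mul_inv, ← Real.rpow_neg hε.le, mul_assoc,
      ← Real.rpow_add_one hε.ne']
    congr 2; ring
  have h6 : (P.card : ℝ) ≤ B * κ * (3 ^ (η - 1) * ε ^ (-η)) := by
    rw [e2] at hPc
    have : (P.card : ℝ) * ε ≤ (B * κ * (3 ^ (η - 1) * ε ^ (-η))) * ε := by linarith [hPc]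
    exact le_of_mul_le_mul_right this hε
  rw [e1] at hQc
  have h7 : (F.card : ℝ) = P.card + Q.card := by exact_mod_cast hPQ.symm
  rw [h7]
  linarith [h6, hQc]


/-- a cycle -/
def IsCycle (g : GC) (Z : Finset ℤ) : Prop :=
  ∃ (x : ℤ) (p : ℕ), 1 ≤ p ∧ g.T^[p] x = x ∧ Z = (range p).image fun i => g.T^[i] x

/-- the logarithm of the multiplier of a cycle -/
noncomputable def form (g : GC) (Z : Finset ℤ) : ℝ := |∑ x ∈ Z, Real.log (g.a (x % g.d))|

/-! cycles -/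

theorem IsCycle.normal {g : GC} {Z : Finset ℤ} (hZ : IsCycle g Z) : ∃ x : ℤ, ∃ m : ℕ, 0 < m ∧
    g.T^[m] x = x ∧ Z = (range m).image (fun i => g.T^[i] x) ∧
    Set.InjOn (fun i => g.T^[i] x) (range m : Set ℕ) := by
  obtain ⟨x, p, hp, hx, rfl⟩ := hZ
  have hper : Function.IsPeriodicPt g.T p x := hx
  have hmp : 0 < Function.minimalPeriod g.T x := hper.minimalPeriod_pos hp
  refine ⟨x, Function.minimalPeriod g.T x, hmp, Function.iterate_minimalPeriod, ?_, ?_⟩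
  · ext y
    simp only [mem_image, mem_range]
    constructor
    · rintro ⟨i, _, rfl⟩
      exact ⟨i % Function.minimalPeriod g.T x, Nat.mod_lt _ hmp,
        Function.iterate_mod_minimalPeriod_eq⟩
    · rintro ⟨i, hi, rfl⟩
      exact ⟨i, hi.trans_le (Function.IsPeriodicPt.minimalPeriod_le hp hper), rfl⟩
  · intro i hi j hj h
    simp only [coe_range, Set.mem_Iio] at hi hj
    exact (Function.iterate_eq_iterate_iff_of_lt_minimalPeriod hi hj).1 h

theorem IsCycle.periodic {g : GC} {Z : Finset ℤ} (hZ : IsCycle g Z) {y : ℤ} (hy : y ∈ Z) :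
    y ∈ Function.periodicPts g.T := by
  obtain ⟨x, p, hp, hx, rfl⟩ := hZ
  rw [mem_image] at hy
  obtain ⟨i, _, rfl⟩ := hy
  refine ⟨p, hp, ?_⟩
  have : Function.IsPeriodicPt g.T p x := hx
  exact this.apply_iterate i

theorem IsCycle.eq_orbit {g : GC} {Z : Finset ℤ} (hZ : IsCycle g Z) {y : ℤ} (hy : y ∈ Z) (z : ℤ) :
    z ∈ Z ↔ ∃ j : ℕ, g.T^[j] y = z := by
  obtain ⟨x, p, hp, hx, rfl⟩ := hZ
  have hper : Function.IsPeriodicPt g.T p x := hx
  rw [mem_image] at hy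
  obtain ⟨i, hi, rfl⟩ := hy
  rw [mem_range] at hi
  have hmod : ∀ n : ℕ, g.T^[n] x = g.T^[n % p] x := fun n => (hper.iterate_mod_apply n).symm
  constructor
  · intro hz
    rw [mem_image] at hz
    obtain ⟨j, hj, rfl⟩ := hz
    rw [mem_range] at hj
    refine ⟨j + (p - i), ?_⟩
    rw [← Function.iterate_add_apply, hmod]
    have : j + (p - i) + i = j + p := by omega
    rw [this, Nat.add_mod_right, Nat.mod_eq_of_lt hj]
  · rintro ⟨j, rfl⟩
    rw [← Function.iterate_add_apply, hmod, mem_image]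
    exact ⟨(j + i) % p, mem_range.2 (Nat.mod_lt _ (by omega)), rfl⟩

theorem IsCycle.eq_of_mem {g : GC} {Z Z' : Finset ℤ} (hZ : IsCycle g Z) (hZ' : IsCycle g Z') {y : ℤ}
    (hy : y ∈ Z) (hy' : y ∈ Z') : Z = Z' := by
  ext z
  rw [hZ.eq_orbit hy, hZ'.eq_orbit hy']

theorem IsCycle.nonempty {g : GC} {Z : Finset ℤ} (hZ : IsCycle g Z) : Z.Nonempty := by
  obtain ⟨x, p, hp, _, rfl⟩ := hZ
  exact ⟨x, mem_image.2 ⟨0, mem_range.2 (by omega), rfl⟩⟩


theorem cycles {g : GC} {K ε : ℝ} (h : ∀ F : Finset ℤ, (∀ x ∈ F, Good g.T x) →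
    (∀ x ∈ F, ∀ y ∈ F, ∀ i j : ℕ, g.T^[i] x = g.T^[j] y → x = y) →
    (∀ x ∈ F, ∃ k : ℕ, Set.InjOn (fun j => g.T^[j] x) (Set.Iio k) ∧ ε ≤ dev g k x) →
      (F.card : ℝ) ≤ K) (G : Finset (Finset ℤ)) (hG : ∀ Z ∈ G, IsCycle g Z ∧ ε ≤ form g Z) :
    (G.card : ℝ) ≤ K := by
  classical
  have hch : ∀ Z : Finset ℤ, ∃ x : ℤ, Z ∈ G → x ∈ Z ∧ (∃ p : ℕ, 1 ≤ p ∧ g.T^[p] x = x) ∧
      ∃ k : ℕ, Set.InjOn (fun j => g.T^[j] x) (Set.Iio k) ∧ ε ≤ dev g k x := by
    intro Z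
    by_cases hZ : Z ∈ G
    · obtain ⟨hcyc, hε⟩ := hG Z hZ
      obtain ⟨x, m, hm, hx, hset, hinj⟩ := hcyc.normal
      refine ⟨x, fun _ => ⟨?_, ⟨m, hm, hx⟩, m, ?_, ?_⟩⟩
      · rw [hset, mem_image]; exact ⟨0, mem_range.2 hm, rfl⟩
      · rw [coe_range] at hinj; exact hinj
      · refine hε.trans (le_of_eq ?_)
        unfold form dev GC.lg
        rw [hx, sub_self, zero_sub, abs_neg, hset, sum_image hinj]
    · exact ⟨0, fun h => absurd h hZ⟩
  choose f hf using hch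
  have hinj : Set.InjOn f G := by
    intro Z hZ Z' hZ' h
    exact (hG Z hZ).1.eq_of_mem (hG Z' hZ').1 (hf Z hZ).1 (h ▸ (hf Z' hZ').1)
  rw [← card_image_of_injOn hinj]
  apply h
  · intro x hx
    rw [mem_image] at hx
    obtain ⟨Z, hZ, rfl⟩ := hx
    exact Or.inl (hf Z hZ).2.1
  · intro x hx y hy i j hij
    rw [mem_image] at hx hy
    obtain ⟨Z, hZ, rfl⟩ := hx
    obtain ⟨Z', hZ', rfl⟩ := hy
    have h1 : g.T^[i] (f Z) ∈ Z := ((hG Z hZ).1.eq_orbit (hf Z hZ).1 _).2 ⟨i, rfl⟩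
    have h2 : g.T^[i] (f Z) ∈ Z' := ((hG Z' hZ').1.eq_orbit (hf Z' hZ').1 _).2 ⟨j, hij.symm⟩
    rw [(hG Z hZ).1.eq_of_mem (hG Z' hZ').1 h1 h2]
  · intro x hx
    rw [mem_image] at hx
    obtain ⟨Z, hZ, rfl⟩ := hx
    exact (hf Z hZ).2.2

theorem finite_of_card {α : Type*} {S : Set α} {K : ℝ}
    (h : ∀ G : Finset α, (∀ z ∈ G, z ∈ S) → (G.card : ℝ) ≤ K) : S.Finite ∧ (S.ncard : ℝ) ≤ K := by
  have hfin : S.Finite := by
    by_contra hinf
    obtain ⟨G, hGS, hGc⟩ := Set.Infinite.exists_subset_card_eq (s := S) hinf (⌊K⌋₊ + 1)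
    have h1 := h G (fun z hz => hGS hz)
    rw [hGc] at h1
    have h2 := Nat.lt_floor_add_one K
    push_cast at h1
    linarith
  refine ⟨hfin, ?_⟩
  rw [Set.ncard_eq_toFinset_card S hfin]
  exact h _ (fun z hz => (Set.Finite.mem_toFinset hfin).1 hz)

end Pool.Agent.H622.RG
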