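import Mathlib
import Pool.Graph.R_seed8.TH930.SP.Loc
import Pool.Graph.R_seed8.H319R2.GRigid
import Pool.Graph.R_seed8.H319R2.GCount

set_option autoImplicit false

/-! The linear forms of the cycles of the 3x+b maps on the integers. -/

namespace Pool.Agent.H622.SG

open Finset
open Pool.Agent.H319R2 (beta beta_lt beta_gt)
open Pool.Agent.H319R2.G

/-- the map `T_{3,b}` -/
def T (b x : ℤ) : ℤ := if x % 2 = 0 then x / 2 else (3 * x + b) / 2

/-- a cycle -/
def IsCycle (b : ℤ) (Z : Finset ℤ) : Prop :=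
  ∃ (x : ℤ) (p : ℕ), 1 ≤ p ∧ (T b)^[p] x = x ∧ Z = (range p).image fun i => (T b)^[i] x

/-- the number of odd elements -/
def odds (Z : Finset ℤ) : ℕ := (Z.filter fun x => x % 2 = 1).card

/-- the linear form of a cycle -/
noncomputable def form (Z : Finset ℤ) : ℝ := |(Z.card : ℝ) * Real.log 2 - odds Z * Real.log 3|

theorem form_nonneg (Z : Finset ℤ) : 0 ≤ form Z := abs_nonneg _

/-- the map as a generalised Collatz map -/
def gc (b : ℤ) (hb : Odd b) : GC where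
  d := 2
  m := fun i => if i = 0 then 1 else 3
  r := fun i => if i = 0 then 0 else -b
  two_le := le_rfl
  cop := by
    intro i h0 h1
    have h2 : i = 0 ∨ i = 1 := by push_cast at h1; omega
    rcases h2 with rfl | rfl
    · simp
    · rw [if_neg one_ne_zero]
      exact ⟨1, -1, by norm_num⟩
  dvd := by
    intro i h0 h1
    have h2 : i = 0 ∨ i = 1 := by push_cast at h1; omega
    obtain ⟨c, hc⟩ := hb
    rcases h2 with rfl | rfl
    · simp
    · rw [if_neg one_ne_zero, if_neg one_ne_zero]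
      exact ⟨c + 2, by push_cast; rw [hc]; ring⟩

theorem gc_T (b : ℤ) (hb : Odd b) : (gc b hb).T = T b := by
  funext x
  unfold GC.T T gc
  simp only
  have h2 : ((2 : ℕ) : ℤ) = 2 := rfl
  rw [h2]
  split_ifs with h
  · rw [one_mul, sub_zero]
  · rw [sub_neg_eq_add]

theorem gc_R (b : ℤ) (hb : Odd b) : (gc b hb).R = |(b : ℝ)| := by
  unfold GC.R gc
  simp [sum_range_succ]

theorem gc_lg (b : ℤ) (hb : Odd b) (k : ℕ) (x : ℤ) : (gc b hb).lg k x =
    (((range k).filter fun j => ((T b)^[j] x) % 2 = 1).card : ℝ) * Real.log 3 - k * Real.log 2 := by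
  unfold GC.lg
  rw [gc_T]
  have h2 : ∀ z : ℤ, Real.log ((gc b hb).a (z % (gc b hb).d)) =
      (if z % 2 = 1 then Real.log 3 else 0) - Real.log 2 := by
    intro z
    unfold GC.a gc
    simp only
    have h2 : ((2 : ℕ) : ℤ) = 2 := rfl
    rw [h2]
    rcases Int.emod_two_eq_zero_or_one z with h | h
    · rw [h]; simp
    · rw [h, if_neg one_ne_zero, if_pos rfl]
      have : |((3 : ℤ) : ℝ)| = 3 := by norm_num
      rw [this, Real.log_div (by norm_num) (by norm_num)]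
      norm_num
  rw [sum_congr rfl (fun j _ => h2 _), sum_sub_distrib, sum_const, card_range, nsmul_eq_mul,
    ← sum_filter, sum_const, nsmul_eq_mul]

theorem same_T (b : ℤ) : T b = Pool.Agent.TH930.EBQ.T b := rfl

/-! cycles -/

theorem IsCycle.normal {b : ℤ} {Z : Finset ℤ} (hZ : IsCycle b Z) : ∃ x : ℤ, ∃ m : ℕ, 0 < m ∧
    (T b)^[m] x = x ∧ Z = (range m).image (fun i => (T b)^[i] x) ∧
    Set.InjOn (fun i => (T b)^[i] x) (range m : Set ℕ) := by
  obtain ⟨x, p, hp, hx, rfl⟩ := hZ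
  have hper : Function.IsPeriodicPt (T b) p x := hx
  have hmp : 0 < Function.minimalPeriod (T b) x := hper.minimalPeriod_pos hp
  refine ⟨x, Function.minimalPeriod (T b) x, hmp, Function.iterate_minimalPeriod, ?_, ?_⟩
  · ext y
    simp only [mem_image, mem_range]
    constructor
    · rintro ⟨i, _, rfl⟩
      exact ⟨i % Function.minimalPeriod (T b) x, Nat.mod_lt _ hmp,
        Function.iterate_mod_minimalPeriod_eq⟩
    · rintro ⟨i, hi, rfl⟩
      exact ⟨i, hi.trans_le (Function.IsPeriodicPt.minimalPeriod_le hp hper), rfl⟩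
  · intro i hi j hj h
    simp only [coe_range, Set.mem_Iio] at hi hj
    exact (Function.iterate_eq_iterate_iff_of_lt_minimalPeriod hi hj).1 h

theorem IsCycle.periodic {b : ℤ} {Z : Finset ℤ} (hZ : IsCycle b Z) {y : ℤ} (hy : y ∈ Z) :
    y ∈ Function.periodicPts (T b) := by
  obtain ⟨x, p, hp, hx, rfl⟩ := hZ
  rw [mem_image] at hy
  obtain ⟨i, _, rfl⟩ := hy
  refine ⟨p, hp, ?_⟩
  have : Function.IsPeriodicPt (T b) p x := hx
  exact this.apply_iterate i

theorem IsCycle.eq_orbit {b : ℤ} {Z : Finset ℤ} (hZ : IsCycle b Z) {y : ℤ} (hy : y ∈ Z) (z : ℤ) :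
    z ∈ Z ↔ ∃ j : ℕ, (T b)^[j] y = z := by
  obtain ⟨x, p, hp, hx, rfl⟩ := hZ
  have hper : Function.IsPeriodicPt (T b) p x := hx
  rw [mem_image] at hy
  obtain ⟨i, hi, rfl⟩ := hy
  rw [mem_range] at hi
  have hmod : ∀ n : ℕ, (T b)^[n] x = (T b)^[n % p] x := fun n => (hper.iterate_mod_apply n).symm
  constructor
  · intro hz
    rw [mem_image] at hz
    obtain ⟨j, hj, rfl⟩ := hz
    rw [mem_range] at hj
    refine ⟨j + (p - i), ?_⟩
    rw [← Function.iterate_add_apply, hmod]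
    have : j + (p - i) + i = j + p := by omega
    rw [this, Nat.add_mod_right, Nat.mod_eq_of_lt hj]
  · rintro ⟨j, rfl⟩
    rw [← Function.iterate_add_apply, hmod, mem_image]
    exact ⟨(j + i) % p, mem_range.2 (Nat.mod_lt _ (by omega)), rfl⟩

theorem IsCycle.eq_of_mem {b : ℤ} {Z Z' : Finset ℤ} (hZ : IsCycle b Z) (hZ' : IsCycle b Z') {y : ℤ}
    (hy : y ∈ Z) (hy' : y ∈ Z') : Z = Z' := by
  ext z
  rw [hZ.eq_orbit hy, hZ'.eq_orbit hy']

theorem IsCycle.nonempty {b : ℤ} {Z : Finset ℤ} (hZ : IsCycle b Z) : Z.Nonempty := by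
  obtain ⟨x, p, hp, _, rfl⟩ := hZ
  exact ⟨x, mem_image.2 ⟨0, mem_range.2 (by omega), rfl⟩⟩

/-- the form of a cycle is bounded by the sum of the reciprocals -/
theorem IsCycle.form_le {b : ℤ} (hb : Odd b) {Z : Finset ℤ} (hZ : IsCycle b Z)
    (h : ∀ x ∈ Z, 3 * |(b : ℝ)| ≤ |(x : ℝ)|) : form Z ≤ 2 * |(b : ℝ)| * ∑ x ∈ Z, 1 / |(x : ℝ)| := by
  classical
  obtain ⟨x, m, hm, hx, hset, hinj⟩ := hZ.normal
  have hb1 : (1 : ℝ) ≤ |(b : ℝ)| := by
    have h0 : b ≠ 0 := by rintro rfl; simp at hb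
    have : (1 : ℤ) ≤ |b| := Int.one_le_abs h0
    exact_mod_cast this
  have hmem : ∀ j : ℕ, (T b)^[j] x ∈ Z := by
    intro j
    have h0 : x ∈ Z := by
      rw [hset, mem_image]; exact ⟨0, mem_range.2 hm, rfl⟩
    exact (hZ.eq_orbit h0 _).2 ⟨j, rfl⟩
  have h1 := (gc b hb).log_iter_sum x m (by
    intro j _
    rw [gc_T, gc_R]
    have := h _ (hmem j)
    linarith)
  rw [gc_T, gc_R, gc_lg, hx, sub_self, zero_sub, abs_neg] at h1
  have hcard : Z.card = m := by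
    rw [hset, card_image_of_injOn hinj, card_range]
  have hodd : odds Z = ((range m).filter fun j => ((T b)^[j] x) % 2 = 1).card := by
    unfold odds
    rw [hset, filter_image, card_image_of_injOn]
    intro i hi j hj hij
    rw [mem_coe, mem_filter] at hi hj
    exact hinj (mem_coe.2 hi.1) (mem_coe.2 hj.1) hij
  have hsum : ∑ y ∈ Z, 1 / |(y : ℝ)| = ∑ j ∈ range m, 1 / |(((T b)^[j] x : ℤ) : ℝ)| := by
    rw [hset, sum_image hinj]
  unfold form
  rw [hcard, hodd, hsum, abs_sub_comm]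
  exact h1


/-! dyadic summation -/

theorem dyadic {α : Type*} (F : Finset α) (f : α → ℝ) (C0 D η s : ℝ) (hC0 : 0 < C0) (hD : 0 ≤ D)
    (hη : 0 < η) (hs : η < s) (hf : ∀ z ∈ F, 0 ≤ f z ∧ f z ≤ C0)
    (hcount : ∀ ε : ℝ, 0 < ε → ε ≤ C0 / 2 → ∀ G : Finset α, G ⊆ F → (∀ z ∈ G, ε ≤ f z) →
      (G.card : ℝ) ≤ D * ε ^ (-η)) :
    ∑ z ∈ F, f z ^ s ≤ C0 ^ s * D * (C0 / 2) ^ (-η) / (1 - 2 ^ (η - s)) := by
  classical
  have hs0 : 0 < s := hη.trans hs
  set ρ : ℝ := 2 ^ (η - s) with hρ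
  have hρ0 : 0 < ρ := by positivity
  have hρ1 : ρ < 1 := Real.rpow_lt_one_of_one_lt_of_neg (by norm_num) (by linarith)
  have h1ρ : 0 < 1 - ρ := by linarith
  set G := F.filter (fun z => 0 < f z) with hG
  have hFG : ∑ z ∈ F, f z ^ s = ∑ z ∈ G, f z ^ s := by
    rw [hG, sum_filter]
    apply sum_congr rfl
    intro z hz
    split_ifs with h
    · rfl
    · have : f z = 0 := le_antisymm (not_lt.1 h) (hf z hz).1
      rw [this, Real.zero_rpow hs0.ne']
  set lev : α → ℕ := fun z => Nat.log 2 ⌊C0 / f z⌋₊ with hlev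
  have hlev1 : ∀ z ∈ G, f z ≤ C0 * (1 / 2) ^ (lev z) ∧ C0 / 2 * (1 / 2) ^ (lev z) ≤ f z := by
    intro z hz
    rw [hG, mem_filter] at hz
    have hpos := hz.2
    have hle : f z ≤ C0 := (hf z hz.1).2
    have hge1 : 1 ≤ C0 / f z := by rw [le_div_iff₀ hpos]; linarith
    have hfl : ⌊C0 / f z⌋₊ ≠ 0 := by
      have : 1 ≤ ⌊C0 / f z⌋₊ := Nat.le_floor (by exact_mod_cast hge1)
      omega
    have h1 : 2 ^ lev z ≤ ⌊C0 / f z⌋₊ := Nat.pow_log_le_self 2 hfl
    have h2 : ⌊C0 / f z⌋₊ < 2 ^ (lev z + 1) := Nat.lt_pow_succ_log_self (by norm_num) _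
    have h1' : (2 : ℝ) ^ lev z ≤ C0 / f z := by
      have : ((2 ^ lev z : ℕ) : ℝ) ≤ ⌊C0 / f z⌋₊ := by exact_mod_cast h1
      push_cast at this
      exact this.trans (Nat.floor_le (by positivity))
    have h2' : C0 / f z < 2 ^ (lev z + 1) := by
      have := Nat.lt_of_floor_lt h2
      push_cast at this
      exact this
    have hp : (0 : ℝ) < 2 ^ lev z := by positivity
    constructor
    · rw [one_div, inv_pow, ← div_eq_mul_inv, le_div_iff₀ hp]
      rw [le_div_iff₀ hpos] at h1'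
      linarith
    · rw [one_div, inv_pow, ← div_eq_mul_inv, div_div, div_le_iff₀ (by positivity)]
      rw [div_lt_iff₀ hpos, pow_succ] at h2'
      linarith
  have hcnt : ∀ j : ℕ, ((G.filter (fun z => lev z = j)).card : ℝ) ≤ D * (C0 / 2 * (1 / 2) ^ j) ^ (-η) := by
    intro j
    apply hcount _ (by positivity)
    · have : ((1 : ℝ) / 2) ^ j ≤ 1 := pow_le_one₀ (by norm_num) (by norm_num)
      have h0 : 0 < C0 / 2 := by positivity
      nlinarith
    · intro z hz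
      rw [mem_filter, hG, mem_filter] at hz
      exact hz.1.1
    · intro z hz
      rw [mem_filter] at hz
      have h := (hlev1 z hz.1).2
      rw [hz.2] at h
      exact h
  set J := G.sup lev + 1 with hJ
  have hmaps : ∀ z ∈ G, lev z ∈ range J := by
    intro z hz
    rw [mem_range, hJ]
    have := le_sup (f := lev) hz
    omega
  rw [hFG, ← sum_fiberwise_of_maps_to hmaps]
  have hlevel : ∀ j ∈ range J, ∑ z ∈ G.filter (fun z => lev z = j), f z ^ s ≤
      C0 ^ s * D * (C0 / 2) ^ (-η) * ρ ^ j := by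
    intro j _
    have h1 : ∀ z ∈ G.filter (fun z => lev z = j), f z ^ s ≤ (C0 * (1 / 2) ^ j) ^ s := by
      intro z hz
      rw [mem_filter] at hz
      have h := (hlev1 z hz.1).1
      rw [hz.2] at h
      have hz1 := hz.1
      rw [hG, mem_filter] at hz1
      exact Real.rpow_le_rpow (hf z hz1.1).1 h hs0.le
    refine (sum_le_sum h1).trans ?_
    rw [sum_const, nsmul_eq_mul]
    refine (mul_le_mul_of_nonneg_right (hcnt j) (by positivity)).trans (le_of_eq ?_)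
    have hh : (0 : ℝ) < (1 / 2) ^ j := by positivity
    rw [Real.mul_rpow (by positivity) hh.le, Real.mul_rpow hC0.le hh.le]
    have e : ((1 / 2 : ℝ) ^ j) ^ (-η) * ((1 / 2 : ℝ) ^ j) ^ s = ρ ^ j := by
      rw [← Real.rpow_add hh, hρ, ← Real.rpow_natCast, ← Real.rpow_natCast, ← Real.rpow_mul (by norm_num),
        ← Real.rpow_mul (by norm_num), one_div, Real.inv_rpow (by norm_num), ← Real.rpow_neg (by norm_num)]
      congr 1; ring
    calc D * ((C0 / 2) ^ (-η) * ((1 / 2 : ℝ) ^ j) ^ (-η)) * (C0 ^ s * ((1 / 2 : ℝ) ^ j) ^ s)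
        = C0 ^ s * D * (C0 / 2) ^ (-η) * (((1 / 2 : ℝ) ^ j) ^ (-η) * ((1 / 2 : ℝ) ^ j) ^ s) := by ring
      _ = _ := by rw [e]
  refine (sum_le_sum hlevel).trans ?_
  rw [← mul_sum]
  have hgeo : ∑ j ∈ range J, ρ ^ j ≤ 1 / (1 - ρ) := by
    rw [one_div, ← tsum_geometric_of_lt_one hρ0.le hρ1]
    exact (summable_geometric_of_lt_one hρ0.le hρ1).sum_le_tsum _ (fun _ _ => by positivity)
  calc C0 ^ s * D * (C0 / 2) ^ (-η) * ∑ j ∈ range J, ρ ^ j
      ≤ C0 ^ s * D * (C0 / 2) ^ (-η) * (1 / (1 - ρ)) := mul_le_mul_of_nonneg_left hgeo (by positivity)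
    _ = C0 ^ s * D * (C0 / 2) ^ (-η) / (1 - ρ) := by ring

/-! the cycles of the 3x+b maps -/

theorem one_le_abs {b : ℤ} (hb : Odd b) : (1 : ℝ) ≤ |(b : ℝ)| := by
  have h0 : b ≠ 0 := by rintro rfl; simp at hb
  have : (1 : ℤ) ≤ |b| := Int.one_le_abs h0
  exact_mod_cast this

theorem main : ∃ η A B : ℝ, 0 < η ∧ η < 1 ∧ η < beta ∧ 0 < A ∧ 0 < B ∧
    ∀ b : ℤ, Odd b →
      (∀ N : ℝ, 1 ≤ N → ∀ F : Finset (Finset ℤ),
        (∀ Z ∈ F, IsCycle b Z ∧ ∃ x ∈ Z, |(x : ℝ)| < N * |(b : ℝ)|) →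
          (F.card : ℝ) ≤ A * |(b : ℝ)| * N ^ η) ∧
      (∀ N : ℝ, 3 ≤ N → ∀ F : Finset (Finset ℤ),
        (∀ Z ∈ F, IsCycle b Z ∧ ∀ x ∈ Z, N * |(b : ℝ)| ≤ |(x : ℝ)|) →
          ∑ Z ∈ F, form Z ≤ B * |(b : ℝ)| * N ^ (η - 1)) := by
  classical
  obtain ⟨η, A, hη0, hη, hA, hsp⟩ := Pool.Agent.TH930.SP.sparse_loc
  have hbl := beta_lt
  have hη1 : η < 1 := by linarith
  have hηpos : 0 < η := by linarith
  have hρ1 : (2 : ℝ) ^ (η - 1) < 1 := Real.rpow_lt_one_of_one_lt_of_neg (by norm_num) (by linarith)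
  have h1ρ : 0 < 1 - (2 : ℝ) ^ (η - 1) := by linarith
  refine ⟨η, A, 2 * (A * 2 ^ η / (1 - 2 ^ (η - 1))), hηpos, hη1, hη, hA, by positivity, ?_⟩
  intro b hb
  have hκ := one_le_abs hb
  set κ : ℝ := |(b : ℝ)| with hκd
  have hκ0 : 0 < κ := by linarith
  have hcount : ∀ X : ℝ, 1 ≤ X → ∀ G : Finset ℤ,
      (∀ x ∈ G, x ∈ Function.periodicPts (T b) ∧ |(x : ℝ)| ≤ X) →
        (G.card : ℝ) ≤ A * κ ^ (1 - η) * X ^ η := by
    intro X hX G hG
    exact hsp b hb _ (tame_periodic _) 0 X hX G (by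
      intro x hx; rw [sub_zero]; exact hG x hx)
  have hpow : ∀ N : ℝ, 0 < N → κ ^ (1 - η) * (N * κ) ^ η = κ * N ^ η := by
    intro N hN
    rw [Real.mul_rpow hN.le hκ0.le, mul_left_comm, ← Real.rpow_add hκ0]
    rw [show 1 - η + η = 1 by ring, Real.rpow_one]; ring
  have hpow' : ∀ N : ℝ, 0 < N → κ * (κ ^ (1 - η) * (N * κ) ^ (η - 1)) = κ * N ^ (η - 1) := by
    intro N hN
    rw [Real.mul_rpow hN.le hκ0.le, mul_left_comm (κ ^ (1 - η)), ← Real.rpow_add hκ0]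
    rw [show 1 - η + (η - 1) = 0 by ring, Real.rpow_zero, mul_one]
  constructor
  · intro N hN F hF
    have hch : ∀ Z : Finset ℤ, ∃ x : ℤ, Z ∈ F → x ∈ Z ∧ |(x : ℝ)| < N * κ := by
      intro Z
      by_cases hZ : Z ∈ F
      · obtain ⟨x, hx, hxN⟩ := (hF Z hZ).2
        exact ⟨x, fun _ => ⟨hx, hxN⟩⟩
      · exact ⟨0, fun h => absurd h hZ⟩
    choose g hg using hch
    have hinj : Set.InjOn g F := by
      intro Z hZ Z' hZ' h
      exact (hF Z hZ).1.eq_of_mem (hF Z' hZ').1 (hg Z hZ).1 (h ▸ (hg Z' hZ').1)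
    rw [← card_image_of_injOn hinj]
    have h1 := hcount (N * κ) (by nlinarith) (F.image g) (by
      intro x hx
      rw [mem_image] at hx
      obtain ⟨Z, hZ, rfl⟩ := hx
      exact ⟨(hF Z hZ).1.periodic (hg Z hZ).1, (hg Z hZ).2.le⟩)
    rw [mul_assoc, hpow N (by linarith)] at h1
    linarith [h1]
  · intro N hN F hF
    have hdisj : (F : Set (Finset ℤ)).PairwiseDisjoint id := by
      intro Z hZ Z' hZ' hne
      rw [Function.onFun, disjoint_left]
      intro y hy hy'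
      exact hne ((hF Z hZ).1.eq_of_mem (hF Z' hZ').1 hy hy')
    have hrec := recip_of_sparse η (A * κ ^ (1 - η)) hηpos hη1 (by positivity)
      (Function.periodicPts (T b)) hcount (N * κ) (by nlinarith) (F.biUnion id) (by
      intro x hx
      rw [mem_biUnion] at hx
      obtain ⟨Z, hZ, hxZ⟩ := hx
      exact ⟨(hF Z hZ).1.periodic hxZ, (hF Z hZ).2 x hxZ⟩)
    rw [sum_biUnion hdisj] at hrec
    have hterm : ∀ Z ∈ F, form Z ≤ 2 * κ * ∑ x ∈ id Z, 1 / |(x : ℝ)| := by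
      intro Z hZ
      apply (hF Z hZ).1.form_le hb
      intro x hx
      have := (hF Z hZ).2 x hx
      nlinarith
    refine (sum_le_sum hterm).trans ?_
    rw [← mul_sum]
    refine (mul_le_mul_of_nonneg_left hrec (by positivity)).trans (le_of_eq ?_)
    calc 2 * κ * (A * κ ^ (1 - η) * 2 ^ η / (1 - 2 ^ (η - 1)) * (N * κ) ^ (η - 1))
        = 2 * (A * 2 ^ η / (1 - 2 ^ (η - 1))) * (κ * (κ ^ (1 - η) * (N * κ) ^ (η - 1))) := by ring
      _ = _ := by rw [hpow' N (by linarith)]; ring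


theorem final : ∃ η : ℝ, 0 < η ∧ η < beta ∧ ∀ s : ℝ, η < s →
    (∃ C : ℝ, 0 < C ∧ ∀ b : ℤ, Odd b → ∀ F : Finset (Finset ℤ), (∀ Z ∈ F, IsCycle b Z) →
      ∑ Z ∈ F, (min 1 (form Z)) ^ s ≤ C * |(b : ℝ)|) ∧
    (s ≤ 1 → ∃ C : ℝ, 0 < C ∧ ∀ b : ℤ, Odd b → ∀ N : ℝ, 3 ≤ N → ∀ F : Finset (Finset ℤ),
      (∀ Z ∈ F, IsCycle b Z ∧ ∀ x ∈ Z, N * |(b : ℝ)| ≤ |(x : ℝ)|) →
        ∑ Z ∈ F, form Z ^ s ≤ C * |(b : ℝ)| * N ^ (η - s)) := by
  classical
  obtain ⟨η, A, B, hη0, hη1, hη, hA, hB, hmain⟩ := main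
  refine ⟨η, hη0, hη, ?_⟩
  -- the number of cycles with a form at least `ε`
  have hcnt : ∀ b : ℤ, Odd b → ∀ ε : ℝ, 0 < ε → ε ≤ 1 / 3 → ∀ F : Finset (Finset ℤ),
      (∀ Z ∈ F, IsCycle b Z ∧ ε ≤ form Z) → (F.card : ℝ) ≤ (A + B) * |(b : ℝ)| * ε ^ (-η) := by
    intro b hb ε hε hε3 F hF
    obtain ⟨hm1, hm2⟩ := hmain b hb
    have hκ := one_le_abs hb
    set κ : ℝ := |(b : ℝ)| with hκd
    set N : ℝ := 1 / ε with hN
    have hN3 : 3 ≤ N := by rw [hN, le_div_iff₀ hε]; linarith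
    have hNη : N ^ η = ε ^ (-η) := by
      rw [hN, one_div, Real.inv_rpow hε.le, ← Real.rpow_neg hε.le]
    have hNη1 : N ^ (η - 1) / ε = ε ^ (-η) := by
      rw [hN, one_div, Real.inv_rpow hε.le, ← Real.rpow_neg hε.le, div_eq_mul_inv,
        ← Real.rpow_neg_one ε, ← Real.rpow_add hε]
      congr 1; ring
    set P := F.filter (fun Z : Finset ℤ => ∀ x ∈ Z, N * κ ≤ |((x : ℤ) : ℝ)|) with hP
    set Q := F.filter (fun Z : Finset ℤ => ¬ ∀ x ∈ Z, N * κ ≤ |((x : ℤ) : ℝ)|) with hQ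
    have hPQ : P.card + Q.card = F.card := card_filter_add_card_filter_not _
    have hPc : (P.card : ℝ) ≤ B * κ * ε ^ (-η) := by
      have h2 := hm2 N hN3 P (by
        intro Z hZ
        rw [hP, mem_filter] at hZ
        exact ⟨(hF Z hZ.1).1, hZ.2⟩)
      have h3 : (P.card : ℝ) * ε ≤ B * κ * N ^ (η - 1) := by
        refine le_trans ?_ h2
        rw [← nsmul_eq_mul, ← sum_const]
        apply sum_le_sum
        intro Z hZ
        rw [hP, mem_filter] at hZ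
        exact (hF Z hZ.1).2
      rw [← hNη1, ← mul_div_assoc, le_div_iff₀ hε]
      exact h3
    have hQc : (Q.card : ℝ) ≤ A * κ * ε ^ (-η) := by
      rw [← hNη]
      apply hm1 N (by linarith)
      intro Z hZ
      rw [hQ, mem_filter] at hZ
      refine ⟨(hF Z hZ.1).1, ?_⟩
      have := hZ.2
      push Not at this
      exact this
    have h4 : (F.card : ℝ) = P.card + Q.card := by exact_mod_cast hPQ.symm
    rw [h4]
    linarith [hPc, hQc]
  -- large elements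
  have hlarge : ∀ s : ℝ, η < s → s ≤ 1 → ∃ C : ℝ, 0 < C ∧ ∀ b : ℤ, Odd b → ∀ N : ℝ, 3 ≤ N →
      ∀ F : Finset (Finset ℤ), (∀ Z ∈ F, IsCycle b Z ∧ ∀ x ∈ Z, N * |(b : ℝ)| ≤ |(x : ℝ)|) →
        ∑ Z ∈ F, form Z ^ s ≤ C * |(b : ℝ)| * N ^ (η - s) := by
    intro s hs hs1
    have hρ1 : (2 : ℝ) ^ (η - s) < 1 := Real.rpow_lt_one_of_one_lt_of_neg (by norm_num) (by linarith)
    have h1ρ : 0 < 1 - (2 : ℝ) ^ (η - s) := by linarith
    refine ⟨B + (A + B) * 2 ^ η / (1 - 2 ^ (η - s)), by positivity, ?_⟩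
    intro b hb N hN F hF
    obtain ⟨hm1, hm2⟩ := hmain b hb
    have hκ := one_le_abs hb
    set κ : ℝ := |(b : ℝ)| with hκd
    have hN0 : 0 < N := by linarith
    set P := F.filter (fun Z : Finset ℤ => 1 / N ≤ form Z) with hP
    set Q := F.filter (fun Z : Finset ℤ => ¬ 1 / N ≤ form Z) with hQ
    have hPQ : ∑ Z ∈ P, form Z ^ s + ∑ Z ∈ Q, form Z ^ s = ∑ Z ∈ F, form Z ^ s :=
      sum_filter_add_sum_filter_not _ _ _
    have hPs : ∑ Z ∈ P, form Z ^ s ≤ B * κ * N ^ (η - s) := by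
      have h1 : ∀ Z ∈ P, form Z ^ s ≤ N ^ (1 - s) * form Z := by
        intro Z hZ
        rw [hP, mem_filter] at hZ
        have hpos : 0 < form Z := lt_of_lt_of_le (by positivity) hZ.2
        have h2 : form Z ^ (s - 1) ≤ N ^ (1 - s) := by
          have h3 : form Z ^ (s - 1) ≤ (1 / N) ^ (s - 1) :=
            Real.rpow_le_rpow_of_nonpos (by positivity) hZ.2 (by linarith)
          refine h3.trans (le_of_eq ?_)
          rw [one_div, Real.inv_rpow hN0.le, ← Real.rpow_neg hN0.le]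
          congr 1; ring
        have h4 : form Z ^ s = form Z ^ (s - 1) * form Z := by
          rw [← Real.rpow_add_one hpos.ne']; congr 1; ring
        rw [h4]
        exact mul_le_mul_of_nonneg_right h2 hpos.le
      refine (sum_le_sum h1).trans ?_
      rw [← mul_sum]
      have h5 := hm2 N hN P (by
        intro Z hZ
        rw [hP, mem_filter] at hZ
        exact hF Z hZ.1)
      refine (mul_le_mul_of_nonneg_left h5 (by positivity)).trans (le_of_eq ?_)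
      have e : N ^ (1 - s) * N ^ (η - 1) = N ^ (η - s) := by
        rw [← Real.rpow_add hN0]; congr 1; ring
      calc N ^ (1 - s) * (B * κ * N ^ (η - 1)) = B * κ * (N ^ (1 - s) * N ^ (η - 1)) := by ring
        _ = _ := by rw [e]
    have hQs : ∑ Z ∈ Q, form Z ^ s ≤ (A + B) * 2 ^ η / (1 - 2 ^ (η - s)) * κ * N ^ (η - s) := by
      have h1 := dyadic Q form (1 / N) ((A + B) * κ) η s (by positivity) (by positivity) hη0 hs
        (by
          intro Z hZ
          rw [hQ, mem_filter] at hZ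
          exact ⟨form_nonneg Z, (not_le.1 hZ.2).le⟩)
        (by
          intro ε hε hεN G hG hGε
          have h3 : 1 / N ≤ 1 / 3 := one_div_le_one_div_of_le (by norm_num) hN
          apply hcnt b hb ε hε (by linarith)
          intro Z hZ
          have hZQ := hG hZ
          rw [hQ, mem_filter] at hZQ
          exact ⟨(hF Z hZQ.1).1, hGε Z hZ⟩)
      refine h1.trans (le_of_eq ?_)
      have e1 : (1 / N) ^ s = N ^ (-s) := by
        rw [one_div, Real.inv_rpow hN0.le, ← Real.rpow_neg hN0.le]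
      have e2 : (1 / N / 2) ^ (-η) = 2 ^ η * N ^ η := by
        rw [div_div, one_div, Real.inv_rpow (by positivity), ← Real.rpow_neg (by positivity), neg_neg,
          Real.mul_rpow hN0.le (by norm_num), mul_comm]
      have e3 : N ^ (-s) * N ^ η = N ^ (η - s) := by
        rw [← Real.rpow_add hN0]; congr 1; ring
      rw [e1, e2]
      calc N ^ (-s) * ((A + B) * κ) * (2 ^ η * N ^ η) / (1 - 2 ^ (η - s))
          = (A + B) * 2 ^ η / (1 - 2 ^ (η - s)) * κ * (N ^ (-s) * N ^ η) := by ring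
        _ = _ := by rw [e3]
    rw [← hPQ]
    linarith [hPs, hQs]
  -- all cycles, exponents at most one
  have hall1 : ∀ s : ℝ, η < s → s ≤ 1 → ∃ C : ℝ, 0 < C ∧ ∀ b : ℤ, Odd b → ∀ F : Finset (Finset ℤ),
      (∀ Z ∈ F, IsCycle b Z) → ∑ Z ∈ F, (min 1 (form Z)) ^ s ≤ C * |(b : ℝ)| := by
    intro s hs hs1
    have hs0 : 0 < s := hη0.trans hs
    obtain ⟨C, hC, h⟩ := hlarge s hs hs1
    refine ⟨C * 3 ^ (η - s) + A * 3 ^ η, by positivity, ?_⟩
    intro b hb F hF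
    obtain ⟨hm1, hm2⟩ := hmain b hb
    set κ : ℝ := |(b : ℝ)| with hκd
    set P := F.filter (fun Z : Finset ℤ => ∀ x ∈ Z, 3 * κ ≤ |((x : ℤ) : ℝ)|) with hP
    set Q := F.filter (fun Z : Finset ℤ => ¬ ∀ x ∈ Z, 3 * κ ≤ |((x : ℤ) : ℝ)|) with hQ
    have hPQ : ∑ Z ∈ P, (min 1 (form Z)) ^ s + ∑ Z ∈ Q, (min 1 (form Z)) ^ s =
        ∑ Z ∈ F, (min 1 (form Z)) ^ s := sum_filter_add_sum_filter_not _ _ _
    have hmin0 : ∀ Z : Finset ℤ, 0 ≤ min 1 (form Z) := fun Z => le_min zero_le_one (form_nonneg Z)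
    have hPs : ∑ Z ∈ P, (min 1 (form Z)) ^ s ≤ C * κ * 3 ^ (η - s) := by
      refine le_trans (sum_le_sum fun Z _ => ?_) (h b hb 3 le_rfl P (by
        intro Z hZ
        rw [hP, mem_filter] at hZ
        exact ⟨hF Z hZ.1, hZ.2⟩))
      exact Real.rpow_le_rpow (hmin0 Z) (min_le_right _ _) hs0.le
    have hQs : ∑ Z ∈ Q, (min 1 (form Z)) ^ s ≤ A * κ * 3 ^ η := by
      have h1 : ∀ Z ∈ Q, (min 1 (form Z)) ^ s ≤ 1 := fun Z _ =>
        Real.rpow_le_one (hmin0 Z) (min_le_left _ _) hs0.le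
      refine (sum_le_sum h1).trans ?_
      rw [sum_const, nsmul_eq_mul, mul_one]
      apply hm1 3 (by norm_num)
      intro Z hZ
      rw [hQ, mem_filter] at hZ
      refine ⟨hF Z hZ.1, ?_⟩
      have := hZ.2
      push Not at this
      exact this
    rw [← hPQ]
    linarith [hPs, hQs]
  intro s hs
  refine ⟨?_, fun hs1 => hlarge s hs hs1⟩
  rcases le_or_gt s 1 with hs1 | hs1
  · exact hall1 s hs hs1
  · obtain ⟨C, hC, h⟩ := hall1 1 hη1 le_rfl
    refine ⟨C, hC, ?_⟩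
    intro b hb F hF
    refine le_trans (sum_le_sum fun Z _ => ?_) (h b hb F hF)
    rcases (le_min zero_le_one (form_nonneg Z) : 0 ≤ min 1 (form Z)).eq_or_lt with h0 | h0
    · rw [← h0, Real.zero_rpow (by linarith), Real.zero_rpow one_ne_zero]
    · exact Real.rpow_le_rpow_of_exponent_ge h0 (min_le_left _ _) hs1.le

end Pool.Agent.H622.SG
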