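import Mathlib
import Pool.Agent.H622.RG
import Pool.Agent.H622.SG
import Pool.Graph.R_seed8.TH930.SP.Rigid
import Pool.Graph.R_seed8.Results.MP_ff4775_nt.AsymptoticsBelowEntropy

set_option autoImplicit false

/-! The divergent trajectories of the 3x+1 map, simultaneously. -/

namespace Pool.Agent.H622.RT

open Finset Filter
open Pool.Agent.H319R2.G
open Pool.Agent.H319R2 (beta beta_lt beta_gt)
open Pool.Agent.H622.RG (Good union tame_union dev)

theorem core (g : GC) (η A κ : ℝ) (hηpos : 0 < η) (hη1 : η < 1) (hA : 0 < A) (hκ : 1 ≤ κ) (hR : g.R ≤ κ)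
    (F : Finset ℤ) (hdis : ∀ x ∈ F, ∀ y ∈ F, ∀ i j : ℕ, g.T^[i] x = g.T^[j] y → x = y)
    (hcount : ∀ X : ℝ, 1 ≤ X → ∀ G : Finset ℤ, (∀ x ∈ G, x ∈ union g.T F ∧ |(x : ℝ)| ≤ X) →
        (G.card : ℝ) ≤ A * κ ^ (1 - η) * X ^ η)
    (ε : ℝ) (hε : 0 < ε) (hε1 : ε ≤ 1)
    (hdev : ∀ x ∈ F, ∃ k : ℕ, Set.InjOn (fun j => g.T^[j] x) (Set.Iio k) ∧ ε ≤ dev g k x) :
    (F.card : ℝ) ≤ (A * 3 ^ η + 2 * (A * 2 ^ η / (1 - 2 ^ (η - 1))) * 3 ^ (η - 1)) * κ * ε ^ (-η) := by
  classical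
  have hρ1 : (2 : ℝ) ^ (η - 1) < 1 := Real.rpow_lt_one_of_one_lt_of_neg (by norm_num) (by linarith)
  have h1ρ : 0 < 1 - (2 : ℝ) ^ (η - 1) := by linarith
  set B : ℝ := 2 * (A * 2 ^ η / (1 - 2 ^ (η - 1))) with hB
  have hB0 : 0 < B := by positivity
  have hκ0 : 0 < κ := by linarith
  have hR0 := g.R_nonneg
  set N : ℝ := 3 / ε with hN
  have hN3 : 3 ≤ N := by rw [hN, le_div_iff₀ hε]; linarith
  have hN0 : 0 < N := by linarith
  -- the orbits with a small element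
  set P := F.filter (fun x => ∀ j : ℕ, N * κ ≤ |((g.T^[j] x : ℤ) : ℝ)|) with hP
  set Q := F.filter (fun x => ¬ ∀ j : ℕ, N * κ ≤ |((g.T^[j] x : ℤ) : ℝ)|) with hQ
  have hPQ : P.card + Q.card = F.card := card_filter_add_card_filter_not _
  have hQc : (Q.card : ℝ) ≤ A * κ * N ^ η := by
    have hch : ∀ x : ℤ, ∃ j : ℕ, x ∈ Q → |((g.T^[j] x : ℤ) : ℝ)| < N * κ := by
      intro x
      by_cases hx : x ∈ Q
      · have h := hx
        rw [hQ, mem_filter] at h
        have := h.2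
        push Not at this
        obtain ⟨j, hj⟩ := this
        exact ⟨j, fun _ => hj⟩
      · exact ⟨0, fun h => absurd h hx⟩
    choose f hf using hch
    have hQF : ∀ x ∈ Q, x ∈ F := fun x hx => by rw [hQ, mem_filter] at hx; exact hx.1
    have hinj : Set.InjOn (fun x => g.T^[f x] x) (Q : Set ℤ) := by
      intro x hx y hy h
      exact hdis x (hQF x hx) y (hQF y hy) _ _ h
    rw [← card_image_of_injOn hinj]
    have h1 := hcount (N * κ) (by nlinarith) (Q.image (fun x => g.T^[f x] x)) (by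
      intro y hy
      rw [mem_image] at hy
      obtain ⟨x, hx, rfl⟩ := hy
      exact ⟨⟨x, hQF x hx, f x, rfl⟩, (hf x hx).le⟩)
    have hpow : κ ^ (1 - η) * (N * κ) ^ η = κ * N ^ η := by
      rw [Real.mul_rpow hN0.le hκ0.le, mul_left_comm, ← Real.rpow_add hκ0]
      rw [show 1 - η + η = 1 by ring, Real.rpow_one]; ring
    rw [mul_assoc, hpow] at h1
    linarith [h1]
  -- the orbits without a small element
  have hPc : (P.card : ℝ) * ε ≤ B * κ * N ^ (η - 1) := by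
    have hPF : ∀ x ∈ P, x ∈ F ∧ ∀ j : ℕ, N * κ ≤ |((g.T^[j] x : ℤ) : ℝ)| := fun x hx => by
      rw [hP, mem_filter] at hx; exact hx
    have hch : ∀ x : ℤ, ∃ k : ℕ, x ∈ P → Set.InjOn (fun j => g.T^[j] x) (Set.Iio k) ∧ ε ≤ dev g k x := by
      intro x
      by_cases hx : x ∈ P
      · obtain ⟨k, hk⟩ := hdev x (hPF x hx).1
        exact ⟨k, fun _ => hk⟩
      · exact ⟨0, fun h => absurd h hx⟩
    choose f hf using hch
    set O : ℤ → Finset ℤ := fun x => (range (f x)).image (fun j => g.T^[j] x) with hO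
    have hdisj : (P : Set ℤ).PairwiseDisjoint O := by
      intro x hx y hy hne
      rw [Function.onFun, disjoint_left]
      intro z hz hz'
      simp only [hO, mem_image] at hz hz'
      obtain ⟨i, _, hi⟩ := hz
      obtain ⟨j, _, hj⟩ := hz'
      exact hne (hdis x (hPF x hx).1 y (hPF y hy).1 i j (by rw [hi, hj]))
    have hrec := recip_of_sparse η (A * κ ^ (1 - η)) hηpos hη1 (by positivity)
      (union g.T F) hcount (N * κ) (by nlinarith) (P.biUnion O) (by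
      intro z hz
      rw [mem_biUnion] at hz
      obtain ⟨x, hx, hz⟩ := hz
      simp only [hO, mem_image] at hz
      obtain ⟨j, _, rfl⟩ := hz
      exact ⟨⟨x, (hPF x hx).1, j, rfl⟩, (hPF x hx).2 j⟩)
    rw [sum_biUnion hdisj] at hrec
    have hterm : ∀ x ∈ P, ε ≤ 2 * κ * ∑ z ∈ O x, 1 / |(z : ℝ)| := by
      intro x hx
      obtain ⟨h1, h2⟩ := hf x hx
      refine h2.trans ?_
      have h3 := g.log_iter_sum x (f x) (by
        intro j _
        have := (hPF x hx).2 j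
        nlinarith)
      unfold dev
      refine h3.trans ?_
      have h4 : ∑ z ∈ O x, 1 / |(z : ℝ)| = ∑ j ∈ range (f x), 1 / |((g.T^[j] x : ℤ) : ℝ)| := by
        rw [hO]
        simp only
        rw [sum_image]
        intro i hi j hj h
        rw [mem_coe, mem_range] at hi hj
        exact h1 hi hj h
      rw [h4]
      apply mul_le_mul_of_nonneg_right _ (sum_nonneg fun _ _ => by positivity)
      linarith
    have h5 : (P.card : ℝ) * ε ≤ 2 * κ * ∑ x ∈ P, ∑ z ∈ O x, 1 / |(z : ℝ)| := by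
      rw [mul_sum, ← nsmul_eq_mul, ← sum_const]
      exact sum_le_sum hterm
    refine h5.trans ?_
    refine (mul_le_mul_of_nonneg_left hrec (by positivity)).trans (le_of_eq ?_)
    have hpow' : κ * (κ ^ (1 - η) * (N * κ) ^ (η - 1)) = κ * N ^ (η - 1) := by
      rw [Real.mul_rpow hN0.le hκ0.le, mul_left_comm (κ ^ (1 - η)), ← Real.rpow_add hκ0]
      rw [show 1 - η + (η - 1) = 0 by ring, Real.rpow_zero, mul_one]
    calc 2 * κ * (A * κ ^ (1 - η) * 2 ^ η / (1 - 2 ^ (η - 1)) * (N * κ) ^ (η - 1))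
        = B * (κ * (κ ^ (1 - η) * (N * κ) ^ (η - 1))) := by rw [hB]; ring
      _ = _ := by rw [hpow']; ring
  have e1 : N ^ η = 3 ^ η * ε ^ (-η) := by
    rw [hN, Real.div_rpow (by norm_num) hε.le, Real.rpow_neg hε.le, div_eq_mul_inv]
  have e2 : N ^ (η - 1) = 3 ^ (η - 1) * ε ^ (-η) * ε := by
    rw [hN, Real.div_rpow (by norm_num) hε.le, div_eq_mul_inv, ← Real.rpow_neg hε.le, mul_assoc,
      ← Real.rpow_add_one hε.ne']
    congr 2; ring
  have h6 : (P.card : ℝ) ≤ B * κ * (3 ^ (η - 1) * ε ^ (-η)) := by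
    rw [e2] at hPc
    have : (P.card : ℝ) * ε ≤ (B * κ * (3 ^ (η - 1) * ε ^ (-η))) * ε := by linarith [hPc]
    exact le_of_mul_le_mul_right this hε
  rw [e1] at hQc
  have h7 : (F.card : ℝ) = P.card + Q.card := by exact_mod_cast hPQ.symm
  rw [h7]
  linarith [h6, hQc]



theorem final : ∃ η A : ℝ, 0 < η ∧ η < 1 ∧ η < beta ∧ 0 < A ∧
    (∀ F : Finset ℤ, (∀ x ∈ F, Good (SG.T 1) x) →
      (∀ x ∈ F, ∀ y ∈ F, ∀ i j : ℕ, (SG.T 1)^[i] x = (SG.T 1)^[j] y → x = y) →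
      ∀ ε : ℝ, 0 < ε → ε ≤ 1 →
        (∀ x ∈ F, ∃ k : ℕ, Set.InjOn (fun j => (SG.T 1)^[j] x) (Set.Iio k) ∧
          ε ≤ dev (SG.gc 1 odd_one) k x) → (F.card : ℝ) ≤ A * ε ^ (-η)) ∧
    (∀ x : ℤ, Function.Injective (fun k => (SG.T 1)^[k] x) →
      (∀ j, 3 ≤ |(((SG.T 1)^[j] x : ℤ) : ℝ)|) → ∀ k, dev (SG.gc 1 odd_one) k x ≤ A) := by
  classical
  obtain ⟨η, A, hη0, hη, hA, hsp, hrig⟩ := Pool.Agent.TH930.SP.rigid_exists
  have hbl := beta_lt
  have hη1 : η < 1 := by linarith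
  have hηpos : 0 < η := by linarith
  have hρ1 : (2 : ℝ) ^ (η - 1) < 1 := Real.rpow_lt_one_of_one_lt_of_neg (by norm_num) (by linarith)
  have h1ρ : 0 < 1 - (2 : ℝ) ^ (η - 1) := by linarith
  set K : ℝ := A * 3 ^ η + 2 * (A * 2 ^ η / (1 - 2 ^ (η - 1))) * 3 ^ (η - 1) with hK
  have hK0 : 0 < K := by positivity
  refine ⟨η, K + A, hηpos, hη1, hη, by positivity, ?_, ?_⟩
  · intro F hF hdis ε hε hε1 hdev
    have hgT : (SG.gc 1 odd_one).T = SG.T 1 := SG.gc_T 1 odd_one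
    have htame : Tame (SG.T 1) (union (SG.T 1) F) := tame_union (SG.T 1) F hF hdis
    have h1 := core (SG.gc 1 odd_one) η A 1 hηpos hη1 hA le_rfl (by rw [SG.gc_R]; simp) F
      (by rw [hgT]; exact hdis)
      (by
        intro X hX G hG
        rw [hgT] at hG
        have h2 := hsp 1 odd_one _ htame 0 X hX G (by
          intro x hx; rw [sub_zero]; exact hG x hx)
        rwa [Int.cast_one, abs_one] at h2)
      ε hε hε1 (by rw [hgT]; exact hdev)
    refine h1.trans ?_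
    rw [← hK, mul_one]
    apply mul_le_mul_of_nonneg_right _ (Real.rpow_nonneg hε.le _)
    linarith
  · intro x hinj h3 k
    have h := hrig 1 odd_one x k hinj.injOn 3 (by rw [Int.cast_one, abs_one]; norm_num)
      (fun j _ => h3 j)
    rw [Int.cast_one, abs_one, Real.one_rpow, mul_one] at h
    unfold dev
    rw [SG.gc_T, SG.gc_lg]
    have h4 : A * (3 : ℝ) ^ (η - 1) ≤ A := by
      have : (3 : ℝ) ^ (η - 1) ≤ 1 := Real.rpow_le_one_of_one_le_of_nonpos (by norm_num) (by linarith)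
      nlinarith
    refine le_trans (le_of_eq ?_) (h.trans (h4.trans (by linarith)))
    rfl

end Pool.Agent.H622.RT
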