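import Mathlib
import Pool.Graph.R_pool_sql_team_seeded_64922ed1.X42.Lens3

set_option autoImplicit false

/-! Sums and differences of the lengths of a bounded number of cycles. -/

namespace Pool.Agent.H622.SU

open Finset Filter Pool.Agent.H446R2.CS

/-- distance of `m α` to the nearest integer -/
noncomputable def nu (α : ℝ) (m : ℤ) : ℝ := ‖(((m : ℝ) * α : ℝ) : UnitAddCircle)‖

theorem nu_nonneg (α : ℝ) (m : ℤ) : 0 ≤ nu α m := norm_nonneg _

theorem nu_zero (α : ℝ) : nu α 0 = 0 := by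
  unfold nu
  simp

theorem nu_neg (α : ℝ) (m : ℤ) : nu α (-m) = nu α m := by
  unfold nu
  rw [← norm_neg]
  congr 1
  push_cast
  rw [neg_mul, AddCircle.coe_neg, neg_neg]

theorem nu_add (α : ℝ) (m n : ℤ) : nu α (m + n) ≤ nu α m + nu α n := by
  unfold nu
  refine le_trans (le_of_eq ?_) (norm_add_le _ _)
  congr 1
  push_cast
  rw [add_mul, AddCircle.coe_add]

theorem nu_sum (α : ℝ) {ι : Type*} (s : Finset ι) (f : ι → ℤ) :
    nu α (∑ i ∈ s, f i) ≤ ∑ i ∈ s, nu α (f i) := by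
  classical
  induction s using Finset.induction_on with
  | empty => simp [nu_zero]
  | insert a s ha ih =>
    rw [sum_insert ha, sum_insert ha]
    exact (nu_add α _ _).trans (by linarith)

theorem nu_eq (α : ℝ) (m : ℤ) : nu α m = |(m : ℝ) * α - round ((m : ℝ) * α)| :=
  UnitAddCircle.norm_eq

theorem nu_le {α r : ℝ} {m : ℤ} (h : nu α m ≤ r) : ∃ k : ℤ, |(m : ℝ) * α - k| ≤ r :=
  ⟨round ((m : ℝ) * α), by rw [← nu_eq]; exact h⟩

theorem le_nu {α r : ℝ} {m : ℤ} (h : r ≤ nu α m) (k : ℤ) : r ≤ |(m : ℝ) * α - k| := by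
  rw [nu_eq] at h
  exact h.trans (round_le _ _)

/-- counting in intervals of integers -/
theorem count_int {α : ℝ} (hα : 0 < α) {C : ℝ} (hC : 0 < C)
    (hm : ∀ q : ℕ, 1 ≤ q → ∀ h : ℕ, Real.exp (-(C * (1 + Real.log q) ^ 2)) ≤ |(q : ℝ) * α - h|)
    (v : ℤ) (H : ℕ) (hH : 1 ≤ H) (r : ℝ) (hr : 0 ≤ r) (F : Finset ℤ)
    (hF : ∀ m ∈ F, v ≤ m ∧ m < v + H ∧ nu α m ≤ r) :
    (F.card : ℝ) ≤ 2 * (4 * r * H + 18 * (H * Real.exp (-√(Real.log H / C)))) := by
  classical
  set F1 := F.filter (fun m => 0 ≤ m) with hF1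
  set F2 := F.filter (fun m => ¬ 0 ≤ m) with hF2
  have hs : F1.card + F2.card = F.card := card_filter_add_card_filter_not _
  have h1 : (F1.card : ℝ) ≤ 4 * r * H + 18 * (H * Real.exp (-√(Real.log H / C))) := by
    have hinj : Set.InjOn (fun m : ℤ => m.toNat) (F1 : Set ℤ) := by
      intro x hx y hy hxy
      rw [mem_coe, hF1, mem_filter] at hx hy
      simp only at hxy
      omega
    rw [← card_image_of_injOn hinj]
    apply Pool.Agent.X42.Lens.count hα hC hm v.toNat H hH r hr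
    intro p hp
    obtain ⟨m, hm1, rfl⟩ := mem_image.1 hp
    rw [hF1, mem_filter] at hm1
    obtain ⟨h2, h3, h4⟩ := hF m hm1.1
    refine ⟨by omega, by omega, ?_⟩
    obtain ⟨k, hk⟩ := nu_le h4
    refine ⟨k, ?_⟩
    have e : ((m.toNat : ℕ) : ℝ) = (m : ℝ) := by
      have : ((m.toNat : ℕ) : ℤ) = m := Int.toNat_of_nonneg hm1.2
      exact_mod_cast congrArg (Int.cast : ℤ → ℝ) this
    rw [e]; exact hk
  have h2 : (F2.card : ℝ) ≤ 4 * r * H + 18 * (H * Real.exp (-√(Real.log H / C))) := by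
    have hinj : Set.InjOn (fun m : ℤ => (-m).toNat) (F2 : Set ℤ) := by
      intro x hx y hy hxy
      rw [mem_coe, hF2, mem_filter] at hx hy
      simp only at hxy
      omega
    rw [← card_image_of_injOn hinj]
    apply Pool.Agent.X42.Lens.count hα hC hm (1 - v - H).toNat H hH r hr
    intro p hp
    obtain ⟨m, hm1, rfl⟩ := mem_image.1 hp
    rw [hF2, mem_filter] at hm1
    obtain ⟨h2, h3, h4⟩ := hF m hm1.1
    refine ⟨by omega, by omega, ?_⟩
    rw [← nu_neg] at h4
    obtain ⟨k, hk⟩ := nu_le h4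
    refine ⟨k, ?_⟩
    have e : (((-m).toNat : ℕ) : ℝ) = ((-m : ℤ) : ℝ) := by
      have : (((-m).toNat : ℕ) : ℤ) = -m := Int.toNat_of_nonneg (by omega)
      exact_mod_cast congrArg (Int.cast : ℤ → ℝ) this
    rw [e]; exact hk
  have h3 : (F.card : ℝ) = F1.card + F2.card := by exact_mod_cast hs.symm
  rw [h3]
  linarith

/-- an empty gap -/
theorem gap {k : ℕ} (f : Fin k → ℝ) (ε : ℕ → ℝ) (hε : Antitone ε) :
    ∃ i, i ≤ k ∧ ∀ j, ¬ (ε (i + 1) ≤ f j ∧ f j < ε i) := by
  by_contra hcon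
  push Not at hcon
  have hcon' : ∀ i : Fin (k + 1), ∃ j : Fin k, ε (i + 1) ≤ f j ∧ f j < ε i := fun i => hcon i (by omega)
  choose g hg using hcon'
  obtain ⟨x, y, hxy, he⟩ := Fintype.exists_ne_map_eq_of_card_lt g (by simp)
  have key : ∀ x y : Fin (k + 1), x < y → g x = g y → False := by
    intro x y hlt h
    obtain ⟨a1, a2⟩ := hg x
    obtain ⟨b1, b2⟩ := hg y
    rw [← h] at b1 b2
    have : ε y ≤ ε (x + 1) := hε (by
      have : (x : ℕ) < y := hlt
      omega)
    linarith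
  rcases lt_or_gt_of_ne hxy with h | h
  · exact key x y h he
  · exact key y x h he.symm

/-- **the hierarchical count** -/
theorem hier {α : ℝ} {k : ℕ} (L : Finset ℤ) (ε : ℕ → ℝ) (hε : Antitone ε) (hε0 : ∀ i, 0 < ε i)
    (N : ℕ → ℝ) (hN : ∀ i ≤ k, ((L.filter (fun m => ε i ≤ nu α m)).card : ℝ) ≤ N i) (H : ℕ) (D : ℝ → ℝ)
    (hD : ∀ r : ℝ, 0 ≤ r → ∀ v : ℤ, ∀ F : Finset ℤ, (∀ m ∈ F, v ≤ m ∧ m < v + H ∧ nu α m ≤ r) →
      (F.card : ℝ) ≤ D r) (u : ℤ) (F : Finset ℤ)
    (hF : ∀ n ∈ F, u ≤ n ∧ n < u + H ∧ ∃ x : Fin k → ℤ, (∀ j, x j ∈ L) ∧ n = ∑ j, x j) :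
    (F.card : ℝ) ≤ ∑ i ∈ range (k + 1), (N i + 1) ^ k * D (k * ε (i + 1)) := by
  classical
  set B : ℕ → Finset ℤ := fun i => insert 0 (L.filter (fun m => ε i ≤ nu α m)) with hB
  set S : ℕ → Finset ℤ := fun i => (Fintype.piFinset (fun _ : Fin k => B i)).image (fun x => ∑ j, x j) with hS
  have hScard : ∀ i ≤ k, ((S i).card : ℝ) ≤ (N i + 1) ^ k := by
    intro i hi
    have h1 : (S i).card ≤ (B i).card ^ k := by
      refine card_image_le.trans ?_
      rw [Fintype.card_piFinset]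
      simp
    have h2 : ((B i).card : ℝ) ≤ N i + 1 := by
      have h3 : (B i).card ≤ (L.filter (fun m => ε i ≤ nu α m)).card + 1 := card_insert_le _ _
      have h4 : ((B i).card : ℝ) ≤ (L.filter (fun m => ε i ≤ nu α m)).card + 1 := by exact_mod_cast h3
      linarith [hN i hi]
    calc ((S i).card : ℝ) ≤ ((B i).card : ℝ) ^ k := by exact_mod_cast h1
      _ ≤ _ := pow_le_pow_left₀ (Nat.cast_nonneg _) h2 k
  have hDnn : ∀ r : ℝ, 0 ≤ r → 0 ≤ D r := by
    intro r hr
    have := hD r hr 0 ∅ (by simp)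
    simpa using this
  set G : ℕ → ℤ → Finset ℤ := fun i s => F.filter (fun n => nu α (n - s) ≤ k * ε (i + 1)) with hG
  have hGcard : ∀ i s, ((G i s).card : ℝ) ≤ D (k * ε (i + 1)) := by
    intro i s
    have hinj : Set.InjOn (fun n : ℤ => n - s) (G i s : Set ℤ) := by
      intro x _ y _ hxy
      simp only at hxy
      omega
    rw [← card_image_of_injOn hinj]
    apply hD _ (by have := (hε0 (i + 1)).le; positivity) (u - s)
    intro m hm
    obtain ⟨n, hn, rfl⟩ := mem_image.1 hm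
    rw [hG, mem_filter] at hn
    obtain ⟨h1, h2, -⟩ := hF n hn.1
    exact ⟨by omega, by omega, hn.2⟩
  have hcover : F ⊆ (range (k + 1)).biUnion (fun i => (S i).biUnion (fun s => G i s)) := by
    intro n hn
    obtain ⟨-, -, x, hx, hsum⟩ := hF n hn
    obtain ⟨i, hi, hgap⟩ := gap (fun j => nu α (x j)) ε hε
    simp only [mem_biUnion, mem_range]
    refine ⟨i, by omega, ∑ j, (if ε i ≤ nu α (x j) then x j else 0), ?_, ?_⟩
    · rw [hS, mem_image]
      refine ⟨fun j => if ε i ≤ nu α (x j) then x j else 0, ?_, rfl⟩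
      rw [Fintype.mem_piFinset]
      intro j
      simp only [hB, mem_insert, mem_filter]
      split_ifs with h
      · exact Or.inr ⟨hx j, h⟩
      · exact Or.inl rfl
    · rw [hG, mem_filter]
      refine ⟨hn, ?_⟩
      rw [hsum, ← sum_sub_distrib]
      refine (nu_sum α _ _).trans ?_
      have h1 : ∀ j ∈ (univ : Finset (Fin k)), nu α (x j - if ε i ≤ nu α (x j) then x j else 0) ≤ ε (i + 1) := by
        intro j _
        split_ifs with h
        · rw [sub_self, nu_zero]; exact (hε0 _).le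
        · rw [sub_zero]
          have := hgap j
          push Not at this h
          by_contra hc
          push Not at hc
          exact absurd (this hc.le) (not_le.2 h)
      refine (sum_le_sum h1).trans ?_
      rw [sum_const, card_univ, Fintype.card_fin, nsmul_eq_mul]
  have h1 : (F.card : ℝ) ≤ ∑ i ∈ range (k + 1), ∑ s ∈ S i, ((G i s).card : ℝ) := by
    have h2 := (card_le_card hcover).trans card_biUnion_le
    have h3 : ∑ i ∈ range (k + 1), ((S i).biUnion (fun s => G i s)).card ≤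
        ∑ i ∈ range (k + 1), ∑ s ∈ S i, (G i s).card := sum_le_sum fun i _ => card_biUnion_le
    exact_mod_cast h2.trans h3
  refine h1.trans (sum_le_sum fun i hi => ?_)
  rw [mem_range] at hi
  calc ∑ s ∈ S i, ((G i s).card : ℝ) ≤ ∑ s ∈ S i, D (k * ε (i + 1)) := sum_le_sum fun s _ => hGcard i s
    _ = (S i).card * D (k * ε (i + 1)) := by rw [sum_const, nsmul_eq_mul]
    _ ≤ (N i + 1) ^ k * D (k * ε (i + 1)) :=
        mul_le_mul_of_nonneg_right (hScard i (by omega))
          (hDnn _ (by have := (hε0 (i + 1)).le; positivity))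

/-- lengths with a large distance -/
theorem few_lengths {T : ℤ → ℤ} {d β : ℕ} {e : ℤ → ℕ} {K : ℝ} (M : Model T d β e K) :
    ∃ C : ℝ, 0 < C ∧ ∀ (Q : ℕ) (ε : ℝ), 1 ≤ Q → 0 < ε → ε ≤ 1 → ∀ F : Finset ℕ,
      (∀ p ∈ F, p ≤ Q ∧ (∃ c, IsCycle T c ∧ c.card = p) ∧ ε ≤ nu (Real.log d / Real.log β) p) →
      (F.card : ℝ) ≤ C / ε * (1 + Real.log Q + Real.log (1 / ε)) + 1 := by
  classical
  obtain ⟨C, hC, hcount⟩ := M.count
  refine ⟨C, hC, fun Q ε hQ hε hε1 F hF => ?_⟩
  set F0 := F.filter (fun p => ∃ c, IsCycle T c ∧ (0 : ℤ) ∈ c ∧ c.card = p) with hF0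
  set F1 := F.filter (fun p => ¬ ∃ c, IsCycle T c ∧ (0 : ℤ) ∈ c ∧ c.card = p) with hF1
  have hs : F0.card + F1.card = F.card := card_filter_add_card_filter_not _
  have hcard0 : F0.card ≤ 1 := by
    rw [Finset.card_le_one]
    intro p hp q hq
    rw [hF0, mem_filter] at hp hq
    obtain ⟨-, c1, h1, h2, h3⟩ := hp
    obtain ⟨-, c2, h4, h5, h6⟩ := hq
    rw [← h3, ← h6, h1.eq_of_mem h4 h2 h5]
  have hex : ∀ p ∈ F1, ∃ c, IsCycle T c ∧ (0 : ℤ) ∉ c ∧ c.card = p := by
    intro p hp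
    rw [hF1, mem_filter] at hp
    obtain ⟨-, ⟨c, hc1, hc2⟩, -⟩ := hF p hp.1
    refine ⟨c, hc1, fun h0 => hp.2 ⟨c, hc1, h0, hc2⟩, hc2⟩
  choose! f hf using hex
  have hinj : Set.InjOn f F1 := by
    intro p hp q hq hpq
    rw [← (hf p hp).2.2, ← (hf q hq).2.2, hpq]
  have h := hcount Q ε hQ hε hε1 (F1.image f) (by
    intro c hc
    obtain ⟨p, hp, rfl⟩ := mem_image.1 hc
    obtain ⟨h1, h2, h3⟩ := hf p hp
    rw [hF1, mem_filter] at hp
    refine ⟨h1, h2, ?_, ?_⟩
    · rw [h3]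
      exact (hF p hp.1).1
    · rw [h3]
      intro k
      have := le_nu (hF p hp.1).2.2 k
      push_cast at this
      exact this)
  rw [card_image_of_injOn hinj] at h
  have h0r : (F0.card : ℝ) ≤ 1 := by exact_mod_cast hcard0
  have h3 : (F.card : ℝ) = F0.card + F1.card := by exact_mod_cast hs.symm
  rw [h3]
  linarith

/-- a term: zero or a length or minus a length of a cycle with at most `Q` elements -/
def Term (T : ℤ → ℤ) (Q : ℝ) (m : ℤ) : Prop :=
  m = 0 ∨ ∃ c, IsCycle T c ∧ (c.card : ℝ) ≤ Q ∧ (m = c.card ∨ m = -(c.card : ℤ))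

/-- **Sums and differences of at most `k` lengths.** -/
theorem sums {d β : ℕ} (hd : 2 ≤ d) (hβ : 2 ≤ β) (hc : Nat.Coprime β d) (k : ℕ) :
    ∃ c : ℝ, 0 < c ∧ ∀ (T : ℤ → ℤ) (e : ℤ → ℕ) (K : ℝ), Model T d β e K → ∀ B : ℝ, 0 ≤ B →
      ∃ A : ℝ, 0 < A ∧ ∀ (u : ℤ) (H : ℕ), 1 ≤ H → ∀ F : Finset ℤ,
        (∀ n ∈ F, u ≤ n ∧ n < u + H ∧ ∃ x : Fin k → ℤ, (∀ j, Term T ((H : ℝ) ^ B) (x j)) ∧ n = ∑ j, x j) →
        (F.card : ℝ) ≤ A * (H * Real.exp (-(c * √(Real.log H)))) := by
  classical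
  obtain ⟨C', hC', hM⟩ := Pool.Agent.X42.Lens.meas_div hβ hd hc
  set c : ℝ := 1 / √C' with hcdef
  have hc0 : 0 < c := by positivity
  set w : ℝ := 1 / (2 * ((k : ℝ) + 1)) with hw
  have hk0 : (0 : ℝ) ≤ k := Nat.cast_nonneg k
  have hw0 : 0 < w := by positivity
  have hw1 : w ≤ 1 := by
    rw [hw, div_le_one (by positivity)]
    linarith
  set cs : ℕ → ℝ := fun i => c * w ^ (k + 1 - i) with hcs
  have hcs0 : ∀ i, 0 < cs i := fun i => by positivity
  have hcsm : Monotone cs := by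
    intro i j hij
    apply mul_le_mul_of_nonneg_left _ hc0.le
    exact pow_le_pow_of_le_one hw0.le hw1 (by omega)
  have hcsle : ∀ i, cs i ≤ c := fun i => by
    have : w ^ (k + 1 - i) ≤ 1 := pow_le_one₀ hw0.le hw1
    rw [hcs]
    simp only
    nlinarith
  have hstep : ∀ i ≤ k, cs (i + 1) = 2 * ((k : ℝ) + 1) * cs i := by
    intro i hi
    have e1 : k + 1 - i = (k + 1 - (i + 1)) + 1 := by omega
    rw [hcs]
    simp only
    rw [e1, pow_succ, hw]
    field_simp
  refine ⟨cs 0, hcs0 0, fun T e K M B hB => ?_⟩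
  obtain ⟨C, hC, hfew⟩ := few_lengths M
  set A1 : ℝ := 3 + 2 * C * (1 + B + c) with hA1
  have hA1p : 0 < A1 := by positivity
  set M0 : ℝ := 1 + 2 / (cs 0) ^ 2 with hM0
  have hM0p : 0 < M0 := by have := hcs0 0; positivity
  refine ⟨(k + 1) * (A1 ^ k * M0 ^ k * (8 * k + 36)), by positivity, ?_⟩
  intro u H hH F hF
  have hld : 0 < Real.log d := Real.log_pos (by exact_mod_cast hd)
  have hlβ : 0 < Real.log β := Real.log_pos (by exact_mod_cast hβ)
  set α : ℝ := Real.log d / Real.log β with hα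
  have hα0 : 0 < α := by positivity
  have hHr : (1 : ℝ) ≤ H := by exact_mod_cast hH
  have hlH : 0 ≤ Real.log H := Real.log_nonneg hHr
  set y : ℝ := √(Real.log H) with hy
  have hy0 : 0 ≤ y := Real.sqrt_nonneg _
  have hy2 : y ^ 2 = Real.log H := Real.sq_sqrt hlH
  set ε : ℕ → ℝ := fun i => Real.exp (-(cs i * y)) with hε
  have hε0 : ∀ i, 0 < ε i := fun i => Real.exp_pos _
  have hε1 : ∀ i, ε i ≤ 1 := fun i => by
    rw [hε]; simp only
    rw [Real.exp_le_one_iff]
    have := mul_nonneg (hcs0 i).le hy0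
    linarith
  have hεa : Antitone ε := by
    intro i j hij
    apply Real.exp_le_exp.2
    have := mul_le_mul_of_nonneg_right (hcsm hij) hy0
    linarith
  -- the set of the lengths
  have hQ1 : (1 : ℝ) ≤ (H : ℝ) ^ B := Real.one_le_rpow hHr hB
  set Q : ℕ := ⌊(H : ℝ) ^ B⌋₊ with hQ
  have hQ1' : 1 ≤ Q := Nat.le_floor (by exact_mod_cast hQ1)
  have hlQ : Real.log Q ≤ B * y ^ 2 := by
    rw [hy2, ← Real.log_rpow (by linarith)]
    apply Real.log_le_log (by exact_mod_cast hQ1')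
    exact Nat.floor_le (by positivity)
  set LQ : Finset ℕ := (range (Q + 1)).filter (fun p => ∃ c, IsCycle T c ∧ c.card = p) with hLQ
  set L : Finset ℤ := insert 0 (LQ.image (fun p : ℕ => (p : ℤ)) ∪ LQ.image (fun p : ℕ => -(p : ℤ))) with hL
  have hmemL : ∀ m : ℤ, Term T ((H : ℝ) ^ B) m → m ∈ L := by
    rintro m (rfl | ⟨Z, hZ1, hZ2, hZ3⟩)
    · rw [hL]; exact mem_insert_self _ _
    · have hZQ : Z.card ∈ LQ := by
        rw [hLQ, mem_filter, mem_range]
        exact ⟨Nat.lt_succ_of_le (Nat.le_floor hZ2), Z, hZ1, rfl⟩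
      rw [hL, mem_insert, mem_union, mem_image, mem_image]
      rcases hZ3 with h | h
      · exact Or.inr (Or.inl ⟨Z.card, hZQ, h.symm⟩)
      · exact Or.inr (Or.inr ⟨Z.card, hZQ, h.symm⟩)
  set N : ℕ → ℝ := fun i => 2 * (C / ε i * (1 + Real.log Q + Real.log (1 / ε i)) + 1) with hN
  have hNle : ∀ i ≤ k, ((L.filter (fun m => ε i ≤ nu α m)).card : ℝ) ≤ N i := by
    intro i _
    set G := LQ.filter (fun p : ℕ => ε i ≤ nu α (p : ℤ)) with hG
    have hGc : (G.card : ℝ) ≤ C / ε i * (1 + Real.log Q + Real.log (1 / ε i)) + 1 := by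
      apply hfew Q (ε i) hQ1' (hε0 i) (hε1 i)
      intro p hp
      rw [hG, mem_filter, hLQ, mem_filter, mem_range] at hp
      exact ⟨by omega, hp.1.2, hp.2⟩
    have hsub : L.filter (fun m => ε i ≤ nu α m) ⊆
        G.image (fun p : ℕ => (p : ℤ)) ∪ G.image (fun p : ℕ => -(p : ℤ)) := by
      intro m hm
      rw [mem_filter, hL, mem_insert, mem_union, mem_image, mem_image] at hm
      obtain ⟨h1, h2⟩ := hm
      rw [mem_union, mem_image, mem_image]
      rcases h1 with rfl | ⟨p, hp, rfl⟩ | ⟨p, hp, rfl⟩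
      · rw [nu_zero] at h2
        exact absurd h2 (not_le.2 (hε0 i))
      · exact Or.inl ⟨p, by rw [hG, mem_filter]; exact ⟨hp, h2⟩, rfl⟩
      · rw [nu_neg] at h2
        exact Or.inr ⟨p, by rw [hG, mem_filter]; exact ⟨hp, h2⟩, rfl⟩
    have h3 : (L.filter (fun m => ε i ≤ nu α m)).card ≤ G.card + G.card :=
      (card_le_card hsub).trans ((card_union_le _ _).trans (Nat.add_le_add card_image_le card_image_le))
    have h4 : ((L.filter (fun m => ε i ≤ nu α m)).card : ℝ) ≤ G.card + G.card := by exact_mod_cast h3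
    rw [hN]
    simp only
    linarith
  have hexpc : Real.exp (-√(Real.log H / C')) = Real.exp (-(c * y)) := by
    rw [hcdef, hy, one_div_mul_eq_div, ← Real.sqrt_div hlH]
  set D : ℝ → ℝ := fun r => 2 * (4 * r * H + 18 * (H * Real.exp (-√(Real.log H / C')))) with hD
  have hmain := hier (α := α) (k := k) L ε hεa hε0 N hNle H D
    (fun r hr v F' hF' => count_int hα0 hC' hM v H hH r hr F' hF') u F (by
      intro n hn
      obtain ⟨h1, h2, x, hx, hs⟩ := hF n hn
      exact ⟨h1, h2, x, fun j => hmemL _ (hx j), hs⟩)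
  refine hmain.trans ?_
  have hM1 : 1 + y ^ 2 ≤ M0 * Real.exp (cs 0 * y) := by
    have h1 : 1 + (cs 0 * y) ^ 2 / 2 ≤ Real.exp (cs 0 * y) := by
      have h2 := Real.quadratic_le_exp_of_nonneg (x := cs 0 * y) (mul_nonneg (hcs0 0).le hy0)
      have := mul_nonneg (hcs0 0).le hy0
      linarith
    have h3 : y ^ 2 = 2 / (cs 0) ^ 2 * ((cs 0 * y) ^ 2 / 2) := by
      have := (hcs0 0).ne'
      field_simp
    have h4 : (cs 0 * y) ^ 2 / 2 ≤ Real.exp (cs 0 * y) := by linarith
    have h5 : 1 ≤ Real.exp (cs 0 * y) := by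
      have : 0 ≤ (cs 0 * y) ^ 2 / 2 := by positivity
      linarith
    have h6 : 0 ≤ 2 / (cs 0) ^ 2 := by positivity
    have h7 := mul_le_mul_of_nonneg_left h4 h6
    rw [← h3] at h7
    rw [hM0, add_mul, one_mul]
    linarith
  have hterm : ∀ i ∈ range (k + 1), (N i + 1) ^ k * D (k * ε (i + 1)) ≤
      A1 ^ k * M0 ^ k * (8 * k + 36) * (H * Real.exp (-(cs 0 * y))) := by
    intro i hi
    rw [mem_range] at hi
    have hik : i ≤ k := by omega
    have hE : 1 / ε i = Real.exp (cs i * y) := by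
      rw [hε]; simp only
      rw [Real.exp_neg, one_div, inv_inv]
    have hlE : Real.log (1 / ε i) = cs i * y := by rw [hE, Real.log_exp]
    have hE1 : 1 ≤ Real.exp (cs i * y) := by
      rw [Real.one_le_exp_iff]; exact mul_nonneg (hcs0 i).le hy0
    have hy2n : 0 ≤ y ^ 2 := sq_nonneg y
    have hcy : cs i * y ≤ c * (1 + y ^ 2) := by
      have h1 : y ≤ 1 + y ^ 2 := by nlinarith
      exact mul_le_mul (hcsle i) h1 hy0 hc0.le
    have hlogs : 1 + Real.log Q + Real.log (1 / ε i) ≤ (1 + B + c) * (1 + y ^ 2) := by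
      rw [hlE]
      have : 0 ≤ B * 1 := by positivity
      nlinarith
    have hlogs0 : 0 ≤ 1 + Real.log Q + Real.log (1 / ε i) := by
      have h1 : 0 ≤ Real.log Q := Real.log_nonneg (by exact_mod_cast hQ1')
      rw [hlE]
      have := mul_nonneg (hcs0 i).le hy0
      linarith
    have hN1 : N i + 1 ≤ A1 * (Real.exp (cs i * y) * (1 + y ^ 2)) := by
      rw [hN]
      simp only
      have e1 : C / ε i = C * Real.exp (cs i * y) := by rw [div_eq_mul_one_div, hE]
      rw [e1]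
      have h1 : C * Real.exp (cs i * y) * (1 + Real.log Q + Real.log (1 / ε i)) ≤
          C * Real.exp (cs i * y) * ((1 + B + c) * (1 + y ^ 2)) :=
        mul_le_mul_of_nonneg_left hlogs (by positivity)
      have h2 : 1 ≤ Real.exp (cs i * y) * (1 + y ^ 2) := by nlinarith
      rw [hA1]
      calc 2 * (C * Real.exp (cs i * y) * (1 + Real.log Q + Real.log (1 / ε i)) + 1) + 1
          ≤ 2 * (C * Real.exp (cs i * y) * ((1 + B + c) * (1 + y ^ 2))) + 3 := by linarith
        _ ≤ 2 * (C * Real.exp (cs i * y) * ((1 + B + c) * (1 + y ^ 2))) +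
            3 * (Real.exp (cs i * y) * (1 + y ^ 2)) := by linarith
        _ = (3 + 2 * C * (1 + B + c)) * (Real.exp (cs i * y) * (1 + y ^ 2)) := by ring
    have hN0 : 0 ≤ N i + 1 := by
      rw [hN]
      simp only
      have : 0 ≤ C / ε i * (1 + Real.log Q + Real.log (1 / ε i)) :=
        mul_nonneg (by have := hε0 i; positivity) hlogs0
      linarith
    have hNk : (N i + 1) ^ k ≤ A1 ^ k * (Real.exp (k * (cs i * y)) * (1 + y ^ 2) ^ k) := by
      refine (pow_le_pow_left₀ hN0 hN1 k).trans (le_of_eq ?_)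
      rw [mul_pow, mul_pow, ← Real.exp_nat_mul]
    have hDle : D (k * ε (i + 1)) ≤ (8 * k + 36) * (H * Real.exp (-(cs (i + 1) * y))) := by
      rw [hD]
      simp only
      rw [hexpc]
      have h1 : Real.exp (-(c * y)) ≤ Real.exp (-(cs (i + 1) * y)) := by
        apply Real.exp_le_exp.2
        have := mul_le_mul_of_nonneg_right (hcsle (i + 1)) hy0
        linarith
      have h2 : (H : ℝ) * Real.exp (-(c * y)) ≤ H * Real.exp (-(cs (i + 1) * y)) :=
        mul_le_mul_of_nonneg_left h1 (by linarith)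
      have e3 : ε (i + 1) = Real.exp (-(cs (i + 1) * y)) := rfl
      rw [e3]
      nlinarith
    have hD0 : 0 ≤ D (k * ε (i + 1)) := by
      rw [hD]
      simp only
      have := (hε0 (i + 1)).le
      positivity
    have hyk : (1 + y ^ 2) ^ k ≤ M0 ^ k * Real.exp (k * (cs 0 * y)) := by
      refine (pow_le_pow_left₀ (by positivity) hM1 k).trans (le_of_eq ?_)
      rw [mul_pow, ← Real.exp_nat_mul]
    calc (N i + 1) ^ k * D (k * ε (i + 1))
        ≤ (A1 ^ k * (Real.exp (k * (cs i * y)) * (1 + y ^ 2) ^ k)) *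
            ((8 * k + 36) * (H * Real.exp (-(cs (i + 1) * y)))) := mul_le_mul hNk hDle hD0 (by positivity)
      _ ≤ (A1 ^ k * (Real.exp (k * (cs i * y)) * (M0 ^ k * Real.exp (k * (cs 0 * y))))) *
            ((8 * k + 36) * (H * Real.exp (-(cs (i + 1) * y)))) := by
          apply mul_le_mul_of_nonneg_right _ (by positivity)
          apply mul_le_mul_of_nonneg_left _ (by positivity)
          exact mul_le_mul_of_nonneg_left hyk (Real.exp_pos _).le
      _ = A1 ^ k * M0 ^ k * (8 * k + 36) * (H * (Real.exp (k * (cs i * y)) *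
            Real.exp (k * (cs 0 * y)) * Real.exp (-(cs (i + 1) * y)))) := by ring
      _ ≤ A1 ^ k * M0 ^ k * (8 * k + 36) * (H * Real.exp (-(cs 0 * y))) := by
          apply mul_le_mul_of_nonneg_left _ (by positivity)
          apply mul_le_mul_of_nonneg_left _ (by linarith)
          rw [← Real.exp_add, ← Real.exp_add]
          apply Real.exp_le_exp.2
          rw [hstep i hik]
          have h1 : cs 0 * y ≤ cs i * y := mul_le_mul_of_nonneg_right (hcsm (Nat.zero_le i)) hy0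
          have h2 : 0 ≤ cs 0 * y := mul_nonneg (hcs0 0).le hy0
          nlinarith
  refine (sum_le_sum hterm).trans (le_of_eq ?_)
  rw [sum_const, card_range, nsmul_eq_mul]
  push_cast
  ring

end Pool.Agent.H622.SU
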