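import Mathlib
import Pool.Agent.H622.Sh3

set_option autoImplicit false

/-! Shape of large excursions, part 4: the estimate. -/

namespace Pool.Agent.H622.Sh

open Finset Filter Topology Pool.Agent.Helper894.Collatz Pool.Agent.H828R3.Exc Pool.Agent.W36.SL
  Pool.Agent.H377R2

/-- large values at a time in `(K1, J]` -/
def Tl (mu : ℝ) (K1 J n : ℕ) : Prop := ∃ k ∈ Ico (K1 + 1) (J + 1), mu ≤ MM k n

open scoped Classical in
theorem card_tail (K1 J N : ℕ) {mu : ℝ} (hmu : 0 < mu) :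
    (((range N).filter fun n => Tl mu K1 J n).card : ℝ) ≤
      (N + 2 ^ J) * (30 * b ^ K1 / Real.sqrt mu) := by
  have hsub : (range N).filter (fun n => Tl mu K1 J n) ⊆
      (Ico (K1 + 1) (J + 1)).biUnion fun k => (range N).filter fun n => mu ≤ MM k n := by
    intro n hn
    rw [mem_filter] at hn
    obtain ⟨h1, k, hk, h⟩ := hn
    rw [mem_biUnion]
    exact ⟨k, hk, mem_filter.2 ⟨h1, h⟩⟩
  have h1 : (((range N).filter fun n => Tl mu K1 J n).card : ℝ) ≤
      ∑ k ∈ Ico (K1 + 1) (J + 1), (((range N).filter fun n => mu ≤ MM k n).card : ℝ) := by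
    have h2 := (card_le_card hsub).trans card_biUnion_le
    exact_mod_cast h2
  refine h1.trans ?_
  have hs : 0 < Real.sqrt mu := Real.sqrt_pos.2 hmu
  have hb0 := b_pos
  have h2 : ∀ k ∈ Ico (K1 + 1) (J + 1), (((range N).filter fun n => mu ≤ MM k n).card : ℝ) ≤
      ((N : ℝ) + 2 ^ J) / Real.sqrt mu * b ^ k := by
    intro k hk
    rw [mem_Ico] at hk
    refine (card_MM_N k N hmu).trans ?_
    have : (2 : ℝ) ^ k ≤ 2 ^ J := pow_le_pow_right₀ (by norm_num) (by omega)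
    calc ((N : ℝ) + 2 ^ k) * (b ^ k / Real.sqrt mu) ≤ ((N : ℝ) + 2 ^ J) * (b ^ k / Real.sqrt mu) :=
          mul_le_mul_of_nonneg_right (by linarith) (by positivity)
      _ = _ := by ring
  refine (sum_le_sum h2).trans ?_
  rw [← mul_sum]
  have h3 := geom_sum_Ico_le_of_lt_one (m := K1 + 1) (n := J + 1) hb0.le b_lt_one
  have h4 : b ^ (K1 + 1) / (1 - b) ≤ 30 * b ^ K1 := by
    have hb := b_le
    have h5 : (0 : ℝ) < 1 - b := by linarith
    rw [div_le_iff₀ h5, pow_succ]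
    have h6 : 0 < b ^ K1 := by positivity
    nlinarith
  calc ((N : ℝ) + 2 ^ J) / Real.sqrt mu * ∑ i ∈ Ico (K1 + 1) (J + 1), b ^ i
      ≤ ((N : ℝ) + 2 ^ J) / Real.sqrt mu * (30 * b ^ K1) :=
        mul_le_mul_of_nonneg_left (h3.trans h4) (by positivity)
    _ = _ := by ring

theorem ev_lam {p : ℕ} {t A e : ℝ} (ht : 0 < t) (he : 0 < e) : ∃ L0 : ℝ, ∀ lam, L0 ≤ lam →
    A * (Real.log lam ^ p * lam ^ (-t)) ≤ e :=
  eventually_atTop.1 (ev_small p ht A he)

open scoped Classical in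
/-- all but few of the large excursions are tents -/
theorem tent_asym {θ θ' v η : ℝ} (hθ : 0 < θ) (hθθ' : θ ≤ θ') (hθ' : θ' < 1) (hv : v < θ / 21)
    (hη : 0 < η) (hη1 : η ≤ 1) : ∃ δ : ℝ, 0 < δ ∧ ∃ L0 x0 : ℝ, ∀ x Y lam : ℝ, x0 ≤ x → x ^ θ ≤ Y →
      Y ≤ x ^ θ' → L0 ≤ lam → lam ≤ x ^ v →
      (((Icc 1 ⌊x⌋₊).filter fun n => Exc lam Y n ∧ ¬ Tent η lam n).card : ℝ) ≤
        lam ^ (-δ) * (((Icc 1 ⌊x⌋₊).filter (Exc lam Y)).card : ℝ) := by
  have hC := C_pos
  have hθ1 : θ < 1 := by linarith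
  set c0 : ℝ := (θ / 21 - v) / 4 with hc0
  have hc00 : 0 < c0 := by rw [hc0]; linarith
  have hηθ : 0 < (η * θ) ^ 2 := by positivity
  set δ : ℝ := min (min (1 / 4) (η ^ 2 / 1600)) (min (c0 / 2) ((η * θ) ^ 2 / 200)) with hδ
  have hδ0 : 0 < δ := by
    rw [hδ]
    exact lt_min (lt_min (by norm_num) (by positivity)) (lt_min (by linarith) (by positivity))
  have hδ1 : δ ≤ 1 / 4 := (min_le_left _ _).trans (min_le_left _ _)
  have hδ2 : δ ≤ η ^ 2 / 1600 := (min_le_left _ _).trans (min_le_right _ _)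
  have hδ3 : δ ≤ c0 / 2 := (min_le_right _ _).trans (min_le_left _ _)
  have hδ4 : δ ≤ (η * θ) ^ 2 / 200 := (min_le_right _ _).trans (min_le_right _ _)
  obtain ⟨La, xa, hunif⟩ := uniform hθ hθθ' hθ' hv (show 0 < C / 2 by linarith)
  obtain ⟨L1, hL1⟩ := ev_lam (p := 0) (A := 130) (show (0 : ℝ) < 1 / 4 by norm_num)
    (show 0 < C / 8 by linarith)
  obtain ⟨L2, hL2⟩ := ev_lam (p := 2) (A := 31212) (show (0 : ℝ) < η ^ 2 / 1600 by positivity)
    (show 0 < C / 8 by linarith)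
  obtain ⟨x1, hx1⟩ := eventually_atTop.1 (((late_asym hθ hθ1 hv).and
    ((ev_small 0 (show (0 : ℝ) < c0 / 2 by linarith) 1 (show 0 < C / 8 by linarith)).and
    ((ev_small 2 (show (0 : ℝ) < (η * θ) ^ 2 / 200 by positivity) 108 (show 0 < C / 8 by linarith)).and
    ((ev_small 1 (show (0 : ℝ) < θ / 2 by linarith) 3 (Real.log_pos (show (1 : ℝ) < 2 by norm_num))).and
    ((ev_small 0 (show (0 : ℝ) < 1 / 21 by norm_num) (2 ^ 20) one_pos).and
    (tendsto_atTop.1 Real.tendsto_log_atTop (4 * Real.log 2 / (η * θ) + 1))))))))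
  refine ⟨δ, hδ0, max (max (max La 2) (max L1 L2)) (Real.exp (4 * Real.log 2 / η + 1)),
    max (max xa x1) 3, ?_⟩
  intro x Y lam hx hY1 hY2 hlam hlamx
  have hxa : xa ≤ x := (le_max_left _ _).trans ((le_max_left _ _).trans hx)
  have hxx1 : x1 ≤ x := (le_max_right _ _).trans ((le_max_left _ _).trans hx)
  have hx3 : 3 ≤ x := (le_max_right _ _).trans hx
  have hlamLa : La ≤ lam := (le_max_left _ _).trans ((le_max_left _ _).trans ((le_max_left _ _).trans hlam))
  have hlam2 : 2 ≤ lam := (le_max_right _ _).trans ((le_max_left _ _).trans ((le_max_left _ _).trans hlam))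
  have hlamL1 : L1 ≤ lam := (le_max_left _ _).trans ((le_max_right _ _).trans ((le_max_left _ _).trans hlam))
  have hlamL2 : L2 ≤ lam := (le_max_right _ _).trans ((le_max_right _ _).trans ((le_max_left _ _).trans hlam))
  have hlamE : Real.exp (4 * Real.log 2 / η + 1) ≤ lam := (le_max_right _ _).trans hlam
  have hlam0 : 0 < lam := by linarith
  have hx0 : 0 < x := by linarith
  have hxone : 1 ≤ x := by linarith
  have hl2 : 0 < Real.log 2 := Real.log_pos (by norm_num)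
  have hℓ : 4 * Real.log 2 / η + 1 ≤ Real.log lam := by
    rw [← Real.log_exp (4 * Real.log 2 / η + 1)]
    exact Real.log_le_log (Real.exp_pos _) hlamE
  set ℓ := Real.log lam with hℓdef
  have hℓ1 : 1 ≤ ℓ := by
    have : 0 ≤ 4 * Real.log 2 / η := by positivity
    linarith
  have hℓη : 4 * Real.log 2 ≤ η * ℓ := by
    have h1 : 4 * Real.log 2 / η ≤ ℓ := by linarith
    rw [div_le_iff₀ hη] at h1
    linarith
  obtain ⟨hlate, g1, g2, g3, g4, g5⟩ := hx1 x hxx1
  rw [pow_zero, one_mul] at g1 g4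
  rw [one_mul] at g1
  rw [pow_one] at g3
  set X := Real.log x with hX
  have hX1 : 1 ≤ X := by
    have : 0 ≤ 4 * Real.log 2 / (η * θ) := by positivity
    linarith
  have hXη : 4 * Real.log 2 ≤ η * θ * X := by
    have h1 : 4 * Real.log 2 / (η * θ) ≤ X := by linarith
    rw [div_le_iff₀ (by positivity)] at h1
    linarith
  have hYone : 1 ≤ Y := (Real.one_le_rpow hxone hθ.le).trans hY1
  have hY0 : 0 < Y := by linarith
  obtain ⟨J, hJ1, hJ2⟩ := near (Real.one_le_rpow hxone (show (0 : ℝ) ≤ 20 / 21 by norm_num))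
  obtain ⟨J2, hJ21, hJ22⟩ := near hxone
  obtain ⟨m, hm1, hm2⟩ := near (show 1 ≤ lam by linarith)
  have hJx : (2 : ℝ) ^ J ≤ x := hJ1.trans (by
    calc x ^ (20 / 21 : ℝ) ≤ x ^ (1 : ℝ) := Real.rpow_le_rpow_of_exponent_le hxone (by norm_num)
      _ = x := Real.rpow_one x)
  have hJL := log_bound hx0 hJx
  have hJ2L := log_bound hx0 hJ21
  have hmL := log_bound hlam0 hm1
  have hN1 : ((⌊x⌋₊ : ℕ) : ℝ) ≤ x := Nat.floor_le hx0.le
  set K1 : ℕ := 20 * (m + 1) with hK1
  have hK1ℓ : ((K1 : ℕ) : ℝ) ≤ 50 * ℓ := by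
    rw [hK1]; push_cast; linarith
  have hb0 := b_pos
  have hbK1 : b ^ K1 ≤ 1 / lam := by
    rw [hK1, pow_mul]
    calc (b ^ 20) ^ (m + 1) ≤ (1 / 2) ^ (m + 1) := pow_le_pow_left₀ (by positivity) b_pow _
      _ = 1 / 2 ^ (m + 1) := by rw [one_div_pow]
      _ ≤ 1 / lam := one_div_le_one_div_of_le hlam0 hm2.le
  -- powers of lam
  have hlx : lam ^ δ ≤ x ^ δ := by
    apply Real.rpow_le_rpow hlam0.le _ hδ0.le
    calc lam ≤ x ^ v := hlamx
      _ ≤ x ^ (1 : ℝ) := Real.rpow_le_rpow_of_exponent_le hxone (by linarith)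
      _ = x := Real.rpow_one x
  have hlδ : 0 < lam ^ δ := by positivity
  have hlδ' : lam ^ (-δ) * lam ^ δ = 1 := by rw [← Real.rpow_add hlam0]; simp
  have h2K1 : (2 : ℝ) ^ K1 ≤ x := by
    have h1 : (2 : ℝ) ^ m ≤ x ^ (1 / 21 : ℝ) := by
      refine (hm1.trans hlamx).trans ?_
      exact Real.rpow_le_rpow_of_exponent_le hxone (by linarith)
    have h2 : ((2 : ℝ) ^ m) ^ 20 ≤ (x ^ (1 / 21 : ℝ)) ^ 20 := pow_le_pow_left₀ (by positivity) h1 20
    have h3 : (x ^ (1 / 21 : ℝ)) ^ 20 = x * x ^ (-(1 / 21) : ℝ) := by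
      rw [← Real.rpow_natCast, ← Real.rpow_mul hx0.le, ← Real.rpow_one_add' hx0.le (by norm_num)]
      norm_num
    rw [h3] at h2
    have e20 : (2 : ℝ) ^ K1 = ((2 : ℝ) ^ m) ^ 20 * 2 ^ 20 := by
      rw [← pow_mul, ← pow_add, hK1]; congr 1; ring
    rw [e20]
    calc ((2 : ℝ) ^ m) ^ 20 * 2 ^ 20 ≤ (x * x ^ (-(1 / 21) : ℝ)) * 2 ^ 20 :=
          mul_le_mul_of_nonneg_right h2 (by positivity)
      _ = x * (2 ^ 20 * x ^ (-(1 / 21) : ℝ)) := by ring
      _ ≤ x * 1 := mul_le_mul_of_nonneg_left g4 hx0.le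
      _ = x := mul_one x
  -- the products
  have hRgen : ∀ (Z : ℝ) (I : ℕ), x ^ (θ / 2) ≤ Z → (I : ℝ) ≤ 3 / 2 * X →
      (1 + 1 / (3 * Z)) ^ I ≤ 2 := by
    intro Z I hZ hI
    have hxθ : 0 < x ^ (θ / 2) := by positivity
    have hZ0 : 0 < Z := by linarith
    have h1 : 1 + 1 / (3 * Z) ≤ Real.exp (1 / (3 * Z)) := by
      have := Real.add_one_le_exp (1 / (3 * Z)); linarith
    calc (1 + 1 / (3 * Z)) ^ I ≤ (Real.exp (1 / (3 * Z))) ^ I := pow_le_pow_left₀ (by positivity) h1 I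
      _ = Real.exp (I * (1 / (3 * Z))) := (Real.exp_nat_mul _ _).symm
      _ ≤ Real.exp (Real.log 2) := by
          apply Real.exp_le_exp.2
          refine le_trans ?_ g3
          have h2 : 1 / (3 * Z) ≤ x ^ (-(θ / 2)) := by
            rw [Real.rpow_neg hx0.le, ← one_div]
            apply one_div_le_one_div_of_le (by positivity)
            linarith
          calc (I : ℝ) * (1 / (3 * Z)) ≤ (3 / 2 * X) * x ^ (-(θ / 2)) := by
                apply mul_le_mul hI h2 (by positivity) (by positivity)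
            _ ≤ 3 * (X * x ^ (-(θ / 2))) := by
                have : 0 ≤ X * x ^ (-(θ / 2)) := by positivity
                linarith
      _ = 2 := Real.exp_log (by norm_num)
  have hr : (1 + 1 / (3 * Y)) ^ J ≤ 2 :=
    hRgen Y J ((Real.rpow_le_rpow_of_exponent_le hxone (by linarith)).trans hY1) hJL
  have hsq : x ^ (θ / 2) ≤ Real.sqrt Y := by
    apply Real.le_sqrt_of_sq_le
    rw [← Real.rpow_natCast, ← Real.rpow_mul hx0.le]
    have : θ / 2 * ((2 : ℕ) : ℝ) = θ := by push_cast; ring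
    rw [this]
    exact hY1
  have hr2 : (1 + 1 / (3 * Real.sqrt Y)) ^ J2 ≤ 2 := hRgen _ J2 hsq hJ2L
  -- the inclusion
  set h : ℝ := η / 2 * ℓ with hh
  set h2 : ℝ := η * θ / 4 * X with hh2
  set N := ⌊x⌋₊ with hN
  have hsub : (Icc 1 N).filter (fun n => Exc lam Y n ∧ ¬ Tent η lam n) ⊆
      (((Icc 1 N).filter (Late lam Y J)) ∪
      ((range (N + 1)).filter fun n => Tl (lam / 2) K1 J n)) ∪
      (((range (N + 1)).filter fun n => Dev h (lam / 2) K1 n) ∪
      ((range (N + 1)).filter fun n => Dev2 h2 (lam / 2) J2 n)) := by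
    intro n hn
    rw [mem_filter, mem_Icc] at hn
    obtain ⟨⟨hn1, hn2⟩, hE, hT⟩ := hn
    rw [mem_union, mem_union, mem_union]
    by_contra hcon
    push Not at hcon
    obtain ⟨⟨c1, c2⟩, c3, c4⟩ := hcon
    have hnr : n ∈ range (N + 1) := mem_range.2 (by omega)
    apply hT
    have hYn : Y < n := by
      obtain ⟨k, -, hk⟩ := hE
      simpa using hk 0 (Nat.zero_le _)
    have hlogn : θ * X ≤ Real.log n := by
      rw [hX, ← Real.log_rpow hx0]
      exact Real.log_le_log (by positivity) (hY1.trans hYn.le)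
    refine tent_of hYone hlam2 hn1 hE (fun hL => c1 (mem_filter.2 ⟨mem_Icc.2 ⟨hn1, hn2⟩, hL⟩)) hr hr2 ?_
      (fun hD => c3 (mem_filter.2 ⟨hnr, hD⟩)) (fun hD => c4 (mem_filter.2 ⟨hnr, hD⟩)) ?_ ?_ ?_ ?_
    · intro k hk1 hk2
      by_contra hcon
      exact c2 (mem_filter.2 ⟨hnr, k, mem_Ico.2 ⟨by omega, by omega⟩, not_lt.1 hcon⟩)
    · have h1 : (n : ℝ) ≤ N := by exact_mod_cast hn2
      have h2 : (n : ℝ) < 2 ^ (J2 + 1) := by linarith
      exact_mod_cast h2
    · rw [hh]; linarith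
    · rw [hh2]
      have h1 : η * (θ * X) ≤ η * Real.log n := mul_le_mul_of_nonneg_left hlogn hη.le
      have h2 : η * (θ * X) = η * θ * X := by ring
      linarith
    · rw [hh2]
      have h1 : η * (θ * X) ≤ 1 * (θ * X) := mul_le_mul_of_nonneg_right hη1 (by positivity)
      have h2 : η * θ / 4 * X = η * (θ * X) / 4 := by ring
      linarith
  have hcard : (((Icc 1 N).filter fun n => Exc lam Y n ∧ ¬ Tent η lam n).card : ℝ) ≤
      ((((Icc 1 N).filter (Late lam Y J)).card : ℝ) +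
      (((range (N + 1)).filter fun n => Tl (lam / 2) K1 J n).card : ℝ)) +
      ((((range (N + 1)).filter fun n => Dev h (lam / 2) K1 n).card : ℝ) +
      (((range (N + 1)).filter fun n => Dev2 h2 (lam / 2) J2 n).card : ℝ)) := by
    have h1 := (card_le_card hsub).trans ((card_union_le _ _).trans
      (Nat.add_le_add (card_union_le _ _) (card_union_le _ _)))
    exact_mod_cast h1
  have hmu : 0 < lam / 2 := by linarith
  have hxl : 0 < x / lam := by positivity
  have hN3 : ∀ I : ℕ, (2 : ℝ) ^ I ≤ x → (((N + 1 : ℕ) : ℝ) + 2 ^ I) ≤ 3 * x := by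
    intro I hI; push_cast; linarith
  -- the four estimates
  have b1 : (((Icc 1 N).filter (Late lam Y J)).card : ℝ) ≤ C / 8 * lam ^ (-δ) * (x / lam) := by
    refine (hlate Y lam J hY1 hlam0 hlamx hJ1 hJ2).trans ?_
    apply mul_le_mul_of_nonneg_right _ hxl.le
    have h1 : x ^ (-c0) * lam ^ δ ≤ C / 8 := by
      calc x ^ (-c0) * lam ^ δ ≤ x ^ (-c0) * x ^ (c0 / 2) := by
            apply mul_le_mul_of_nonneg_left _ (by positivity)
            exact hlx.trans (Real.rpow_le_rpow_of_exponent_le hxone hδ3)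
        _ = x ^ (-(c0 / 2)) := by rw [← Real.rpow_add hx0]; congr 1; ring
        _ ≤ C / 8 := g1
    calc x ^ (-c0) = (x ^ (-c0) * lam ^ δ) * lam ^ (-δ) := by
          rw [mul_assoc, mul_comm (lam ^ δ), hlδ', mul_one]
      _ ≤ C / 8 * lam ^ (-δ) := mul_le_mul_of_nonneg_right h1 (by positivity)
  have b2 : (((range (N + 1)).filter fun n => Tl (lam / 2) K1 J n).card : ℝ)
      ≤ C / 8 * lam ^ (-δ) * (x / lam) := by
    refine (card_tail K1 J (N + 1) hmu).trans ?_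
    have h1 : 30 * b ^ K1 / Real.sqrt (lam / 2) ≤ 43 * lam ^ (-(1 / 2) : ℝ) / lam := by
      have h2 : (1 : ℝ) / Real.sqrt (lam / 2) ≤ 43 / 30 * lam ^ (-(1 / 2) : ℝ) := by
        rw [Real.sqrt_eq_rpow, Real.div_rpow hlam0.le (by norm_num), one_div_div, Real.rpow_neg hlam0.le,
          div_eq_mul_inv]
        apply mul_le_mul_of_nonneg_right _ (by positivity)
        rw [← Real.sqrt_eq_rpow, Real.sqrt_le_left (by norm_num)]
        norm_num
      calc 30 * b ^ K1 / Real.sqrt (lam / 2) = 30 * b ^ K1 * (1 / Real.sqrt (lam / 2)) := by ring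
        _ ≤ 30 * (1 / lam) * (43 / 30 * lam ^ (-(1 / 2) : ℝ)) := by
            apply mul_le_mul _ h2 (by positivity) (by positivity)
            exact mul_le_mul_of_nonneg_left hbK1 (by norm_num)
        _ = _ := by ring
    have h3 := hL1 lam hlamL1
    rw [pow_zero, one_mul] at h3
    have h4 : lam ^ (-(1 / 2) : ℝ) ≤ lam ^ (-(1 / 4) : ℝ) * lam ^ (-δ) := by
      rw [← Real.rpow_add hlam0]
      exact Real.rpow_le_rpow_of_exponent_le (by linarith) (by linarith)
    calc (((N + 1 : ℕ) : ℝ) + 2 ^ J) * (30 * b ^ K1 / Real.sqrt (lam / 2))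
        ≤ (3 * x) * (43 * lam ^ (-(1 / 2) : ℝ) / lam) :=
          mul_le_mul (hN3 J hJx) h1 (by positivity) (by positivity)
      _ = 129 * lam ^ (-(1 / 2) : ℝ) * (x / lam) := by ring
      _ ≤ 130 * (lam ^ (-(1 / 4) : ℝ) * lam ^ (-δ)) * (x / lam) := by
          apply mul_le_mul_of_nonneg_right _ hxl.le
          apply mul_le_mul (by norm_num) h4 (by positivity) (by norm_num)
      _ = (130 * lam ^ (-(1 / 4) : ℝ)) * lam ^ (-δ) * (x / lam) := by ring
      _ ≤ C / 8 * lam ^ (-δ) * (x / lam) := by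
          apply mul_le_mul_of_nonneg_right _ hxl.le
          exact mul_le_mul_of_nonneg_right h3 (by positivity)
  have b3 : (((range (N + 1)).filter fun n => Dev h (lam / 2) K1 n).card : ℝ)
      ≤ C / 8 * lam ^ (-δ) * (x / lam) := by
    refine (card_Dev K1 (N + 1) (s := η / 200) hmu (by positivity) (by linarith)).trans ?_
    have h1 : (K1 : ℝ) * (η / 200) ^ 2 - η / 200 * h ≤ -(η ^ 2 / 800) * ℓ := by
      have : (K1 : ℝ) * (η / 200) ^ 2 ≤ 50 * ℓ * (η / 200) ^ 2 :=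
        mul_le_mul_of_nonneg_right hK1ℓ (by positivity)
      rw [hh]
      have e : 50 * ℓ * (η / 200) ^ 2 - η / 200 * (η / 2 * ℓ) = -(η ^ 2 / 800) * ℓ := by ring
      linarith
    have h3 : Real.exp ((K1 : ℝ) * (η / 200) ^ 2 - η / 200 * h) ≤ lam ^ (-(η ^ 2 / 800)) := by
      rw [Real.rpow_def_of_pos hlam0]
      apply Real.exp_le_exp.2
      rw [mul_comm (Real.log lam)]
      exact h1
    have h4 : ((K1 : ℝ) + 1) ^ 2 ≤ 2601 * ℓ ^ 2 := by
      have : (K1 : ℝ) + 1 ≤ 51 * ℓ := by linarith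
      calc ((K1 : ℝ) + 1) ^ 2 ≤ (51 * ℓ) ^ 2 := pow_le_pow_left₀ (by positivity) this 2
        _ = _ := by ring
    have h5 : lam ^ (-(η ^ 2 / 800)) ≤ lam ^ (-(η ^ 2 / 1600)) * lam ^ (-δ) := by
      rw [← Real.rpow_add hlam0]
      exact Real.rpow_le_rpow_of_exponent_le (by linarith) (by linarith)
    calc (((N + 1 : ℕ) : ℝ) + 2 ^ K1) * (((K1 : ℝ) + 1) ^ 2 *
          (2 * Real.exp ((K1 : ℝ) * (η / 200) ^ 2 - η / 200 * h) / (lam / 2)))
        ≤ (3 * x) * ((2601 * ℓ ^ 2) * (2 * (lam ^ (-(η ^ 2 / 1600)) * lam ^ (-δ)) / (lam / 2))) := by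
          apply mul_le_mul (hN3 K1 h2K1) _ (by positivity) (by positivity)
          apply mul_le_mul h4 _ (by positivity) (by positivity)
          apply div_le_div_of_nonneg_right _ hmu.le
          apply mul_le_mul_of_nonneg_left (h3.trans h5) (by norm_num)
      _ = (31212 * (ℓ ^ 2 * lam ^ (-(η ^ 2 / 1600)))) * lam ^ (-δ) * (x / lam) := by
          field_simp
          ring
      _ ≤ C / 8 * lam ^ (-δ) * (x / lam) := by
          apply mul_le_mul_of_nonneg_right _ hxl.le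
          exact mul_le_mul_of_nonneg_right (hL2 lam hlamL2) (by positivity)
  have b4 : (((range (N + 1)).filter fun n => Dev2 h2 (lam / 2) J2 n).card : ℝ)
      ≤ C / 8 * lam ^ (-δ) * (x / lam) := by
    refine (card_Dev2 J2 (N + 1) (s := η * θ / 12) hmu (by positivity)).trans ?_
    have h1 : (J2 : ℝ) * (η * θ / 12) ^ 2 - η * θ / 12 * h2 ≤ -((η * θ) ^ 2 / 96) * X := by
      have : (J2 : ℝ) * (η * θ / 12) ^ 2 ≤ 3 / 2 * X * (η * θ / 12) ^ 2 :=
        mul_le_mul_of_nonneg_right hJ2L (by positivity)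
      rw [hh2]
      have e : 3 / 2 * X * (η * θ / 12) ^ 2 - η * θ / 12 * (η * θ / 4 * X) =
        -((η * θ) ^ 2 / 96) * X := by ring
      linarith
    have h3 : Real.exp ((J2 : ℝ) * (η * θ / 12) ^ 2 - η * θ / 12 * h2) ≤ x ^ (-((η * θ) ^ 2 / 96)) := by
      rw [Real.rpow_def_of_pos hx0]
      apply Real.exp_le_exp.2
      rw [mul_comm (Real.log x)]
      exact h1
    have h4 : ((J2 : ℝ) + 1) ^ 2 ≤ 9 * X ^ 2 := by
      have : (J2 : ℝ) + 1 ≤ 3 * X := by linarith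
      calc ((J2 : ℝ) + 1) ^ 2 ≤ (3 * X) ^ 2 := pow_le_pow_left₀ (by positivity) this 2
        _ = _ := by ring
    have h5 : x ^ (-((η * θ) ^ 2 / 96)) ≤ x ^ (-((η * θ) ^ 2 / 200)) * lam ^ (-δ) := by
      have h6 : x ^ (-((η * θ) ^ 2 / 96)) ≤ x ^ (-((η * θ) ^ 2 / 200)) * x ^ (-δ) := by
        rw [← Real.rpow_add hx0]
        exact Real.rpow_le_rpow_of_exponent_le hxone (by linarith)
      refine h6.trans ?_
      apply mul_le_mul_of_nonneg_left _ (by positivity)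
      rw [Real.rpow_neg hx0.le, Real.rpow_neg hlam0.le]
      exact inv_anti₀ hlδ hlx
    calc (((N + 1 : ℕ) : ℝ) + 2 ^ J2) * (((J2 : ℝ) + 1) ^ 2 *
          (2 * Real.exp ((J2 : ℝ) * (η * θ / 12) ^ 2 - η * θ / 12 * h2) / (lam / 2)))
        ≤ (3 * x) * ((9 * X ^ 2) * (2 * (x ^ (-((η * θ) ^ 2 / 200)) * lam ^ (-δ)) / (lam / 2))) := by
          apply mul_le_mul (hN3 J2 hJ21) _ (by positivity) (by positivity)
          apply mul_le_mul h4 _ (by positivity) (by positivity)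
          apply div_le_div_of_nonneg_right _ hmu.le
          apply mul_le_mul_of_nonneg_left (h3.trans h5) (by norm_num)
      _ = (108 * (X ^ 2 * x ^ (-((η * θ) ^ 2 / 200)))) * lam ^ (-δ) * (x / lam) := by
          field_simp
          ring
      _ ≤ C / 8 * lam ^ (-δ) * (x / lam) := by
          apply mul_le_mul_of_nonneg_right _ hxl.le
          exact mul_le_mul_of_nonneg_right g2 (by positivity)
  have hlow := (abs_le.1 (hunif x Y lam hxa hY1 hY2 hlamLa hlamx)).1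
  have hlow2 : C / 2 * (x / lam) ≤ (((Icc 1 N).filter (Exc lam Y)).card : ℝ) := by linarith
  calc _ ≤ _ := hcard
    _ ≤ C / 2 * lam ^ (-δ) * (x / lam) := by linarith
    _ = lam ^ (-δ) * (C / 2 * (x / lam)) := by ring
    _ ≤ _ := mul_le_mul_of_nonneg_left hlow2 (by positivity)

end Pool.Agent.H622.Sh
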