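import Mathlib
import Pool.Agent.H622.St8
import Pool.Agent.H622.St12

set_option autoImplicit false

/-! The conditional law of the growth factor, part 6: no convergence; the number of the residues which stop. -/

namespace Pool.Agent.H622.St

open Finset Filter Topology Pool.Agent.Helper894.Collatz Pool.Agent.H828R3.Exc Pool.Agent.W36.SL

/-- the mass of the limit law near the starting point -/
noncomputable def low (k : ℕ) : ℝ := ∑' o : ℕ, if (o : ℝ) - k * th ≤ 1 / 2 then Lw k o / Z k else 0

theorem low_summable (k : ℕ) : Summable fun o : ℕ => if (o : ℝ) - k * th ≤ 1 / 2 then Lw k o / Z k else 0 := by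
  apply Summable.of_nonneg_of_le _ _ ((Lw_summable k).div_const (Z k))
  · intro o
    split_ifs
    · exact div_nonneg (Lw_nonneg _ _) (Z_pos k).le
    · exact le_rfl
  · intro o
    split_ifs
    · exact le_rfl
    · exact div_nonneg (Lw_nonneg _ _) (Z_pos k).le

theorem low_zero (K : ℕ) : ∃ k, K ≤ k ∧ low k = 0 := by
  obtain ⟨k, hk, r, h1, h2⟩ := th_right (show (0 : ℝ) < 1 / 2 by norm_num) K
  refine ⟨k, hk, ?_⟩
  unfold low
  refine (tsum_congr fun o => ?_).trans tsum_zero
  split_ifs with h
  · unfold Lw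
    rw [if_neg, zero_div]
    intro h3
    have h4 : (r : ℝ) < o := by linarith
    have h5 : r < (o : ℤ) := by exact_mod_cast h4
    have h6 : ((r + 1 : ℤ) : ℝ) ≤ ((o : ℤ) : ℝ) := by exact_mod_cast h5
    push_cast at h6
    linarith
  · rfl

theorem low_pos : ∃ c : ℝ, 0 < c ∧ ∀ K : ℕ, ∃ k, K ≤ k ∧ c ≤ low k := by
  obtain ⟨C, hC, hZ⟩ := Z_le
  have hq := q_pos
  have hq1 := q_lt_one
  refine ⟨q / C, by positivity, ?_⟩
  intro K
  obtain ⟨k, hk, r, h1, h2⟩ := th_left (show (0 : ℝ) < 1 / 2 by norm_num) K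
  refine ⟨k, hk, ?_⟩
  have hth := th_pos
  have hr : 0 < r := by
    have : (0 : ℝ) < r := by
      have : 0 ≤ (k : ℝ) * th := by positivity
      linarith
    exact_mod_cast this
  obtain ⟨o, rfl⟩ := Int.eq_ofNat_of_zero_le hr.le
  simp only [Int.ofNat_eq_natCast, Int.cast_natCast] at h1 h2
  unfold low
  refine le_trans ?_ ((low_summable k).le_tsum o fun p _ => by
    split_ifs
    · exact div_nonneg (Lw_nonneg _ _) (Z_pos k).le
    · exact le_rfl)
  rw [if_pos (by linarith)]
  have h3 := Lw_ge (k := k) (o := o) (by linarith)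
  have h4 : q ≤ q ^ ((o : ℝ) - k * th) := by
    calc q = q ^ (1 : ℝ) := (Real.rpow_one q).symm
      _ ≤ _ := Real.rpow_le_rpow_of_exponent_ge hq hq1.le (by linarith)
  exact div_le_div₀ (Lw_nonneg _ _) (h4.trans h3) (Z_pos k) (hZ k)

/-- the residues modulo `2 ^ (k + 1)` which survive up to time `k` and not up to time `k + 1` -/
def stops (k : ℕ) : ℕ := ((range (2 ^ (k + 1))).filter fun n => Surv k n ∧ ¬ Surv (k + 1) n).card

theorem stops_add (k : ℕ) : stops k + survivors (k + 1) = 2 * survivors k := by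
  have h1 : ((range (2 ^ (k + 1))).filter fun n => Surv k n).card = 2 * survivors k := by
    rw [card_filter, pow_succ, mul_two, sum_range_add]
    have h2 : ∀ x : ℕ, (if Surv k (2 ^ k + x) then 1 else 0) = if Surv k x then 1 else 0 := by
      intro x
      simp only [Surv_shift1]
    simp only [h2]
    unfold survivors
    rw [card_filter]; ring
  rw [← h1]
  unfold stops survivors
  have h3 : (range (2 ^ (k + 1))).filter (fun n => Surv (k + 1) n) =
      ((range (2 ^ (k + 1))).filter fun n => Surv k n).filter fun n => Surv (k + 1) n := by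
    rw [filter_filter]
    apply filter_congr
    intro n _
    rw [Surv_succ]
    tauto
  have h4 : (range (2 ^ (k + 1))).filter (fun n => Surv k n ∧ ¬ Surv (k + 1) n) =
      ((range (2 ^ (k + 1))).filter fun n => Surv k n).filter fun n => ¬ Surv (k + 1) n := by
    rw [filter_filter]
  rw [h3, h4, add_comm, card_filter_add_card_filter_not]

theorem stops_some {k o : ℕ} (h1 : 2 ^ k ≤ 3 ^ o) (h2 : 3 ^ o ≤ 2 ^ (k + 1)) : stops k = An k o := by
  have := stops_add k
  have := stop_some h1 h2
  omega

theorem stops_none {k : ℕ} (h : ∀ o, ¬ (2 ^ k ≤ 3 ^ o ∧ 3 ^ o ≤ 2 ^ (k + 1))) : stops k = 0 := by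
  have := stops_add k
  have := stop_none h
  omega

end Pool.Agent.H622.St
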