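import Mathlib
import Pool.Agent.H622.St13
import Pool.Agent.H622.St14

set_option autoImplicit false

/-! The `3x+d` maps on the integers: the parities and the integers with large stopping time. -/

namespace Pool.Agent.H622.Td

open Finset Filter Topology
open Pool.Agent.Helper894.Collatz (od)
open Pool.Agent.H622.St (Surv An survivors)

/-- the `3x+d` map -/
def S (d x : ℤ) : ℤ := if x % 2 = 0 then x / 2 else (3 * x + d) / 2

/-- the number of the odd terms among the first `k` terms -/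
def odz (d : ℤ) (k : ℕ) (x : ℤ) : ℕ := ((range k).filter fun i => (S d)^[i] x % 2 = 1).card

/-- survival -/
def Survz (d : ℤ) (k : ℕ) (x : ℤ) : Prop := ∀ j ≤ k, 2 ^ j ≤ 3 ^ odz d j x

/-- the stopping time is greater than `k` -/
def Stayz (d : ℤ) (k : ℕ) (x : ℤ) : Prop := ∀ j ≤ k, |x| ≤ |(S d)^[j] x|

theorem odz_succ (d : ℤ) (k : ℕ) (x : ℤ) :
    odz d (k + 1) x = odz d k x + if (S d)^[k] x % 2 = 1 then 1 else 0 := by
  unfold odz
  rw [range_add_one, filter_insert]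
  split_ifs with h
  · rw [card_insert_of_notMem (by simp)]
  · rfl

theorem odz_zero (d x : ℤ) : odz d 0 x = 0 := by simp [odz]

theorem S_congr {d x : ℤ} {y m : ℕ} (hd : d % 2 = 1) (h : x ≡ d * y [ZMOD 2 ^ (m + 1)]) :
    x % 2 = ((y % 2 : ℕ) : ℤ) ∧ S d x ≡ d * (Pool.Agent.Helper894.Collatz.T y : ℕ) [ZMOD 2 ^ m] := by
  obtain ⟨c, hc⟩ := h.symm.dvd
  have hx : x = d * y + 2 * (2 ^ m * c) := by
    have : x = d * y + 2 ^ (m + 1) * c := by linarith
    rw [this, pow_succ]; ring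
  obtain ⟨e, he⟩ : ∃ e, d = 2 * e + 1 := ⟨d / 2, by omega⟩
  rcases Nat.mod_two_eq_zero_or_one y with h2 | h2
  · obtain ⟨z, hz⟩ : ∃ z, y = 2 * z := ⟨y / 2, by omega⟩
    have hx2 : x = 2 * (d * z + 2 ^ m * c) := by rw [hx, hz]; push_cast; ring
    have hT : Pool.Agent.Helper894.Collatz.T y = z := by
      have := Pool.Agent.Helper894.Collatz.T_even h2
      omega
    have hS : S d x = d * z + 2 ^ m * c := by
      unfold S
      rw [if_pos (by omega)]
      omega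
    refine ⟨by omega, ?_⟩
    rw [hS, hT]
    exact (Int.modEq_iff_dvd.2 ⟨c, by ring⟩).symm
  · obtain ⟨z, hz⟩ : ∃ z, y = 2 * z + 1 := ⟨y / 2, by omega⟩
    have hx2 : x = 2 * (d * z + 2 ^ m * c + e) + 1 := by rw [hx, hz]; push_cast; rw [he]; ring
    have hT : Pool.Agent.Helper894.Collatz.T y = 3 * z + 2 := by
      have := Pool.Agent.Helper894.Collatz.T_odd h2
      omega
    have hS : S d x = d * (3 * z + 2) + 3 * (2 ^ m * c) := by
      unfold S
      rw [if_neg (by omega)]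
      have : 3 * x + d = 2 * (d * (3 * z + 2) + 3 * (2 ^ m * c)) := by
        rw [hx, hz]; push_cast; ring
      rw [this]
      omega
    refine ⟨by omega, ?_⟩
    rw [hS, hT]
    push_cast
    exact (Int.modEq_iff_dvd.2 ⟨3 * c, by ring⟩).symm

theorem iter_congr {d : ℤ} (hd : d % 2 = 1) (j : ℕ) : ∀ {x : ℤ} {y m : ℕ}, x ≡ d * y [ZMOD 2 ^ (m + j)] →
    (S d)^[j] x ≡ d * (Pool.Agent.Helper894.Collatz.T^[j] y : ℕ) [ZMOD 2 ^ m] := by
  induction j with
  | zero => intro x y m h; exact h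
  | succ j ih =>
    intro x y m h
    rw [Function.iterate_succ_apply, Function.iterate_succ_apply]
    exact ih (S_congr hd h).2

theorem odz_eq {d : ℤ} (hd : d % 2 = 1) {k : ℕ} {x : ℤ} {y : ℕ} (h : x ≡ d * y [ZMOD 2 ^ k]) {j : ℕ}
    (hj : j ≤ k) : odz d j x = od j y := by
  induction j with
  | zero => simp [odz, od]
  | succ j ih =>
    rw [odz_succ, Pool.Agent.Helper894.Collatz.od_succ, ih (by omega)]
    obtain ⟨m, rfl⟩ : ∃ m, k = (m + 1) + j := ⟨k - 1 - j, by omega⟩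
    have h1 := iter_congr hd j h
    have h2 := (S_congr hd h1).1
    congr 1
    rcases Nat.mod_two_eq_zero_or_one (Pool.Agent.Helper894.Collatz.T^[j] y) with h3 | h3
    · rw [if_neg (by rw [h2, h3]; norm_num), h3]
    · rw [if_pos (by rw [h2, h3]; norm_num), h3]

theorem surv_eq {d : ℤ} (hd : d % 2 = 1) {k : ℕ} {x : ℤ} {y : ℕ} (h : x ≡ d * y [ZMOD 2 ^ k]) :
    Survz d k x ↔ Surv k y := by
  unfold Survz Surv
  constructor
  · intro hs j hj
    rw [← odz_eq hd h hj]; exact hs j hj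
  · intro hs j hj
    rw [odz_eq hd h hj]; exact hs j hj

theorem exists_res {d : ℤ} (hd : d % 2 = 1) (k : ℕ) (x : ℤ) :
    ∃ y ∈ range (2 ^ k), x ≡ d * y [ZMOD 2 ^ k] := by
  have hc : IsCoprime d (2 ^ k) := by
    apply IsCoprime.pow_right
    rw [Int.isCoprime_iff_gcd_eq_one]
    have h1 := Int.gcd_dvd_left (a := d) (b := 2)
    have h2 := Int.gcd_dvd_right (a := d) (b := 2)
    have h3 : Int.gcd d 2 ∣ 2 := by exact_mod_cast h2
    rcases (Nat.dvd_prime Nat.prime_two).1 h3 with h4 | h4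
    · exact h4
    · rw [h4] at h1; push_cast at h1; omega
  obtain ⟨u, v, huv⟩ := hc
  have hp : (0 : ℤ) < 2 ^ k := by positivity
  refine ⟨((u * x) % 2 ^ k).toNat, ?_, ?_⟩
  · rw [mem_range]
    have h1 := Int.emod_lt_of_pos (u * x) hp
    have h2 := Int.emod_nonneg (u * x) hp.ne'
    zify
    rw [Int.toNat_of_nonneg h2]
    exact h1
  · rw [Int.toNat_of_nonneg (Int.emod_nonneg _ hp.ne')]
    have h1 : d * ((u * x) % 2 ^ k) ≡ d * (u * x) [ZMOD 2 ^ k] := (Int.mod_modEq _ _).mul_left _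
    refine Int.ModEq.symm (h1.trans ?_)
    apply Int.modEq_iff_dvd.2
    exact ⟨v * x, by linear_combination (-x) * huv⟩

theorem res_unique {d : ℤ} (hd : d % 2 = 1) {k : ℕ} {x : ℤ} {y z : ℕ} (hy : y < 2 ^ k) (hz : z < 2 ^ k)
    (h1 : x ≡ d * y [ZMOD 2 ^ k]) (h2 : x ≡ d * z [ZMOD 2 ^ k]) : y = z := by
  have hc : Int.gcd (2 ^ k) d = 1 := by
    rw [← Int.isCoprime_iff_gcd_eq_one]
    apply IsCoprime.pow_left
    rw [Int.isCoprime_iff_gcd_eq_one]
    have h1 := Int.gcd_dvd_right (a := 2) (b := d)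
    have h2 := Int.gcd_dvd_left (a := 2) (b := d)
    have h3 : Int.gcd 2 d ∣ 2 := by exact_mod_cast h2
    rcases (Nat.dvd_prime Nat.prime_two).1 h3 with h4 | h4
    · exact h4
    · rw [h4] at h1; push_cast at h1; omega
  have h3 : d * (y : ℤ) ≡ d * z [ZMOD 2 ^ k] := h1.symm.trans h2
  have h4 : (2 ^ k : ℤ) ∣ z - y := by
    have h6 : (2 ^ k : ℤ) ∣ d * (z - y) := by
      have := h3.dvd
      rwa [← mul_sub] at this
    exact (Int.isCoprime_iff_gcd_eq_one.2 hc).dvd_of_dvd_mul_left h6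
  have h5 : (y : ℤ) % 2 ^ k = (z : ℤ) % 2 ^ k := Int.modEq_iff_dvd.2 h4
  rw [Int.emod_eq_of_lt (by positivity) (by exact_mod_cast hy),
    Int.emod_eq_of_lt (by positivity) (by exact_mod_cast hz)] at h5
  exact_mod_cast h5

theorem count_class (a : ℤ) (N k : ℕ) (v : ℤ) :
    |(((Ico a (a + N)).filter fun x => x ≡ v [ZMOD 2 ^ k]).card : ℝ) - (N : ℝ) / 2 ^ k| ≤ 1 := by
  have hp : (0 : ℤ) < 2 ^ k := by positivity
  have h := Int.Ico_filter_modEq_card a (a + N) hp v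
  have hpq : (0 : ℝ) < 2 ^ k := by positivity
  have h1 : ((((Ico a (a + N)).filter fun x => x ≡ v [ZMOD 2 ^ k]).card : ℤ) : ℝ) =
      max (((⌈(((a + N : ℤ) : ℚ) - v) / ((2 ^ k : ℤ) : ℚ)⌉ : ℤ) : ℝ) - ((⌈((a : ℚ) - v) / ((2 ^ k : ℤ) : ℚ)⌉ : ℤ) : ℝ)) 0 := by
    rw [h]; push_cast; rfl
  have h2 : (((Ico a (a + N)).filter fun x => x ≡ v [ZMOD 2 ^ k]).card : ℝ) =
      max (((⌈(((a + N : ℤ) : ℚ) - v) / ((2 ^ k : ℤ) : ℚ)⌉ : ℤ) : ℝ) - ((⌈((a : ℚ) - v) / ((2 ^ k : ℤ) : ℚ)⌉ : ℤ) : ℝ)) 0 := by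
    rw [← h1]; push_cast; rfl
  set q1 : ℚ := (((a + N : ℤ) : ℚ) - v) / ((2 ^ k : ℤ) : ℚ) with hq1
  set q2 : ℚ := ((a : ℚ) - v) / ((2 ^ k : ℤ) : ℚ) with hq2
  have e : (q1 : ℝ) - q2 = (N : ℝ) / 2 ^ k := by
    rw [hq1, hq2]; push_cast
    field_simp
    ring
  have a1 : ((⌈q1⌉ : ℤ) : ℝ) < q1 + 1 := by exact_mod_cast Int.ceil_lt_add_one q1
  have a2 : (q1 : ℝ) ≤ ((⌈q1⌉ : ℤ) : ℝ) := by exact_mod_cast Int.le_ceil q1
  have a3 : ((⌈q2⌉ : ℤ) : ℝ) < q2 + 1 := by exact_mod_cast Int.ceil_lt_add_one q2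
  have a4 : (q2 : ℝ) ≤ ((⌈q2⌉ : ℤ) : ℝ) := by exact_mod_cast Int.le_ceil q2
  have hN : (0 : ℝ) ≤ (N : ℝ) / 2 ^ k := by positivity
  rw [h2, ← e, abs_le]
  constructor
  · have := le_max_left (((⌈q1⌉ : ℤ) : ℝ) - ((⌈q2⌉ : ℤ) : ℝ)) 0
    linarith
  · rw [sub_le_iff_le_add]
    apply max_le
    · linarith
    · linarith

theorem count_P {d : ℤ} (hd : d % 2 = 1) (a : ℤ) (N k : ℕ) (Q : ℤ → Prop) (P : ℕ → Prop)
    [DecidablePred Q] [DecidablePred P]
    (hPQ : ∀ (x : ℤ) (y : ℕ), x ≡ d * y [ZMOD 2 ^ k] → (Q x ↔ P y)) :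
    |(((Ico a (a + N)).filter Q).card : ℝ) - (N : ℝ) / 2 ^ k * ((range (2 ^ k)).filter P).card| ≤
      ((range (2 ^ k)).filter P).card := by
  have h1 : (((Ico a (a + N)).filter Q).card : ℝ) =
      ∑ y ∈ (range (2 ^ k)).filter P, (((Ico a (a + N)).filter fun x => x ≡ d * y [ZMOD 2 ^ k]).card : ℝ) := by
    have e1 : (((Ico a (a + N)).filter Q).card : ℝ) = ∑ x ∈ Ico a (a + N),
        ∑ y ∈ (range (2 ^ k)).filter P, (if x ≡ d * y [ZMOD 2 ^ k] then (1 : ℝ) else 0) := by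
      rw [card_filter]
      push_cast
      apply sum_congr rfl
      intro x _
      obtain ⟨y, hy, hxy⟩ := exists_res hd k x
      by_cases hQ : Q x
      · rw [if_pos hQ, sum_eq_single y]
        · rw [if_pos hxy]
        · intro z hz hne
          rw [mem_filter, mem_range] at hz
          rw [if_neg]
          intro h
          exact hne (res_unique hd hz.1 (mem_range.1 hy) h hxy)
        · intro h
          exfalso
          apply h
          rw [mem_filter]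
          exact ⟨hy, (hPQ x y hxy).1 hQ⟩
      · rw [if_neg hQ]
        symm
        apply sum_eq_zero
        intro z hz
        rw [mem_filter] at hz
        rw [if_neg]
        intro h
        exact hQ ((hPQ x z h).2 hz.2)
    rw [e1, sum_comm]
    apply sum_congr rfl
    intro y _
    rw [card_filter]
    push_cast
    rfl
  rw [h1]
  have h2 : (N : ℝ) / 2 ^ k * ((range (2 ^ k)).filter P).card =
      ∑ y ∈ (range (2 ^ k)).filter P, (N : ℝ) / 2 ^ k := by
    rw [sum_const, nsmul_eq_mul]; ring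
  rw [h2, ← sum_sub_distrib]
  refine (abs_sum_le_sum_abs _ _).trans ?_
  have h3 : ∀ y ∈ (range (2 ^ k)).filter P,
      |(((Ico a (a + N)).filter fun x => x ≡ d * y [ZMOD 2 ^ k]).card : ℝ) - (N : ℝ) / 2 ^ k| ≤ 1 :=
    fun y _ => count_class a N k (d * (y : ℤ))
  refine (sum_le_sum h3).trans (le_of_eq ?_)
  rw [sum_const, nsmul_eq_mul, mul_one]

/-- the growth factor -/
noncomputable def Mz (d : ℤ) (j : ℕ) (x : ℤ) : ℝ := 3 ^ odz d j x / 2 ^ j

theorem Mz_pos (d : ℤ) (j : ℕ) (x : ℤ) : 0 < Mz d j x := by unfold Mz; positivity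

theorem Mz_iff (d : ℤ) (j : ℕ) (x : ℤ) : 2 ^ j ≤ 3 ^ odz d j x ↔ 1 ≤ Mz d j x := by
  unfold Mz
  rw [one_le_div (by positivity)]
  constructor
  · intro h; exact_mod_cast h
  · intro h; exact_mod_cast h

theorem Mz_log (d : ℤ) (j : ℕ) (x : ℤ) : Real.log (Mz d j x) = odz d j x * Real.log 3 - j * Real.log 2 := by
  unfold Mz
  rw [Real.log_div (by positivity) (by positivity), Real.log_pow, Real.log_pow]

theorem S_bound {d : ℤ} (hd : d % 2 = 1) (x : ℤ) (j : ℕ) (h : ∀ i < j, 1 ≤ Mz d i x) :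
    |(((S d)^[j] x : ℤ) : ℝ) - Mz d j x * x| ≤ Mz d j x * (|(d : ℝ)| * j / 2) := by
  induction j with
  | zero => simp [Mz, odz_zero]
  | succ j ih =>
    have h1 := ih fun i hi => h i (by omega)
    have h2 := h j (by omega)
    rw [Function.iterate_succ_apply']
    set t := (S d)^[j] x with ht
    have hM := Mz_pos d j x
    have hd0 : 0 ≤ |(d : ℝ)| := abs_nonneg _
    rcases Int.emod_two_eq_zero_or_one t with h3 | h3
    · have hMs : Mz d (j + 1) x = Mz d j x / 2 := by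
        unfold Mz
        rw [odz_succ, ← ht, if_neg (by omega), add_zero, pow_succ]
        field_simp
      have h4 : 2 * S d t = t := by unfold S; rw [if_pos h3]; omega
      have h5 : 2 * ((S d t : ℤ) : ℝ) = t := by exact_mod_cast h4
      rw [hMs]
      have e : ((S d t : ℤ) : ℝ) - Mz d j x / 2 * x = ((t : ℝ) - Mz d j x * x) / 2 := by linarith
      rw [e, abs_div, abs_of_pos (show (0 : ℝ) < 2 by norm_num)]
      push_cast
      nlinarith [mul_nonneg hM.le hd0]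
    · have hMs : Mz d (j + 1) x = 3 * Mz d j x / 2 := by
        unfold Mz
        rw [odz_succ, ← ht, if_pos h3, pow_succ, pow_succ]
        field_simp
      have h4 : 2 * S d t = 3 * t + d := by unfold S; rw [if_neg (by omega)]; omega
      have h5 : 2 * ((S d t : ℤ) : ℝ) = 3 * t + d := by exact_mod_cast h4
      rw [hMs]
      have e : ((S d t : ℤ) : ℝ) - 3 * Mz d j x / 2 * x = 3 / 2 * ((t : ℝ) - Mz d j x * x) + d / 2 := by linarith
      rw [e]
      refine (abs_add_le _ _).trans ?_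
      rw [abs_mul, abs_of_pos (show (0 : ℝ) < 3 / 2 by norm_num), abs_div,
        abs_of_pos (show (0 : ℝ) < 2 by norm_num)]
      push_cast
      nlinarith [mul_nonneg (sub_nonneg.2 h2) hd0]

/-- the distance of the growth factors from one -/
theorem growth_gap : ∃ c : ℝ, 0 < c ∧ ∀ (d : ℤ) (j : ℕ) (x : ℤ), 1 ≤ j →
    (1 ≤ Mz d j x → 1 + c / j ^ 13 ≤ Mz d j x) ∧ (Mz d j x < 1 → (1 + c / j ^ 13) * Mz d j x ≤ 1) := by
  obtain ⟨c, hc, hm⟩ := Pool.Agent.H319R2.measure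
  refine ⟨c / 2 ^ 13, by positivity, fun d j x hj => ?_⟩
  have hj' : (0 : ℝ) < j := by exact_mod_cast hj
  have h6 := hm j (-(odz d j x : ℤ)) (Or.inl (by omega))
  have hod : odz d j x ≤ j := by
    unfold odz
    exact (card_filter_le _ _).trans (by rw [card_range])
  have h9 : (((|(j : ℤ)| + |(-(odz d j x : ℤ))| : ℤ)) : ℝ) ≤ 2 * j := by
    have h11 : |(j : ℤ)| + |(-(odz d j x : ℤ))| ≤ 2 * j := by
      rw [abs_neg, abs_of_nonneg (by omega), abs_of_nonneg (by omega)]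
      omega
    exact_mod_cast h11
  have h10 : (0 : ℝ) ≤ (((|(j : ℤ)| + |(-(odz d j x : ℤ))| : ℤ)) : ℝ) := by
    have : (0 : ℤ) ≤ |(j : ℤ)| + |(-(odz d j x : ℤ))| := by positivity
    exact_mod_cast this
  have h8 : |((j : ℤ) : ℝ) * Real.log 2 + ((-(odz d j x : ℤ) : ℤ) : ℝ) * Real.log 3| = |Real.log (Mz d j x)| := by
    rw [Mz_log, ← abs_neg]
    congr 1
    push_cast; ring
  rw [h8] at h6
  have h11 : c / 2 ^ 13 / j ^ 13 ≤ |Real.log (Mz d j x)| := by
    have : c ≤ (2 * j) ^ 13 * |Real.log (Mz d j x)| := h6.trans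
      (mul_le_mul_of_nonneg_right (pow_le_pow_left₀ h10 h9 13) (abs_nonneg _))
    rw [div_div, div_le_iff₀ (by positivity)]
    refine this.trans (le_of_eq ?_)
    ring
  have hM := Mz_pos d j x
  constructor
  · intro h1
    rw [abs_of_nonneg (Real.log_nonneg h1)] at h11
    have := Real.log_le_sub_one_of_pos hM
    linarith
  · intro h1
    rw [abs_of_neg (Real.log_neg hM h1), ← Real.log_inv] at h11
    have := Real.log_le_sub_one_of_pos (inv_pos.2 hM)
    have h2 : 1 + c / 2 ^ 13 / j ^ 13 ≤ (Mz d j x)⁻¹ := by linarith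
    calc (1 + c / 2 ^ 13 / j ^ 13) * Mz d j x ≤ (Mz d j x)⁻¹ * Mz d j x :=
          mul_le_mul_of_nonneg_right h2 hM.le
      _ = 1 := inv_mul_cancel₀ hM.ne'

/-- away from zero the two notions of survival coincide -/
theorem stays_iff : ∃ C : ℝ, 0 < C ∧ ∀ (d : ℤ) (k : ℕ) (x : ℤ), d % 2 = 1 →
    C * |(d : ℝ)| * k ^ 14 < |(x : ℝ)| → (Stayz d k x ↔ Survz d k x) := by
  obtain ⟨c, hc, hgap⟩ := growth_gap
  refine ⟨(1 + 1 / c) + 1, by positivity, fun d k x hd hx => ?_⟩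
  have hd0 : 0 ≤ |(d : ℝ)| := abs_nonneg _
  have hc' : 0 < 1 / c := by positivity
  have key : ∀ j : ℕ, 1 ≤ j → j ≤ k → (1 + c / j ^ 13) * (|(d : ℝ)| * j / 2) < c / j ^ 13 * |(x : ℝ)| := by
    intro j hj hjk
    have hj' : (0 : ℝ) < j := by exact_mod_cast hj
    have hj1 : (1 : ℝ) ≤ j := by exact_mod_cast hj
    have h1 : (j : ℝ) ^ 14 ≤ k ^ 14 := pow_le_pow_left₀ hj'.le (by exact_mod_cast hjk) 14
    have h2 : ((1 + 1 / c) + 1) * |(d : ℝ)| * j ^ 14 < |(x : ℝ)| :=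
      lt_of_le_of_lt (mul_le_mul_of_nonneg_left h1 (by positivity)) hx
    have h3 : c / j ^ 13 * (((1 + 1 / c) + 1) * |(d : ℝ)| * j ^ 14) < c / j ^ 13 * |(x : ℝ)| :=
      mul_lt_mul_of_pos_left h2 (by positivity)
    refine lt_of_le_of_lt ?_ h3
    have e1 : c / j ^ 13 * (((1 + 1 / c) + 1) * |(d : ℝ)| * j ^ 14) = (2 * c + 1) * (|(d : ℝ)| * j) := by
      field_simp
      ring
    rw [e1]
    have e2 : c / (j : ℝ) ^ 13 ≤ c := div_le_self hc.le (one_le_pow₀ hj1)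
    have e3 : (1 + c / j ^ 13) * (|(d : ℝ)| * j / 2) ≤ (1 + c) * (|(d : ℝ)| * j / 2) :=
      mul_le_mul_of_nonneg_right (by linarith) (by positivity)
    refine e3.trans ?_
    have : 0 ≤ |(d : ℝ)| * j := by positivity
    nlinarith
  constructor
  · intro hs
    by_contra hS
    have hex : ∃ j, j ≤ k ∧ ¬ (1 ≤ Mz d j x) := by
      by_contra hcon
      push Not at hcon
      apply hS
      intro j hj
      exact (Mz_iff d j x).2 (hcon j hj)
    classical
    set j := Nat.find hex with hj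
    obtain ⟨hjk, hjM⟩ := Nat.find_spec hex
    rw [← hj] at hjk hjM
    have hmin : ∀ i < j, 1 ≤ Mz d i x := by
      intro i hi
      have := Nat.find_min hex hi
      push Not at this
      exact this (by omega)
    have hj0 : 1 ≤ j := by
      rcases Nat.eq_zero_or_pos j with h | h
      · exfalso; apply hjM; rw [h]; simp [Mz, odz_zero]
      · exact h
    have h1 := S_bound hd x j hmin
    have hMp := Mz_pos d j x
    have h2 := (hgap d j x hj0).2 (not_le.1 hjM)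
    have h3 : |(x : ℝ)| ≤ Mz d j x * (|(x : ℝ)| + |(d : ℝ)| * j / 2) := by
      have h4 : |(x : ℝ)| ≤ |(((S d)^[j] x : ℤ) : ℝ)| := by exact_mod_cast hs j hjk
      have h5 : |(((S d)^[j] x : ℤ) : ℝ)| ≤ |(((S d)^[j] x : ℤ) : ℝ) - Mz d j x * x| + |Mz d j x * x| := by
        have := abs_add_le ((((S d)^[j] x : ℤ) : ℝ) - Mz d j x * x) (Mz d j x * x)
        rwa [sub_add_cancel] at this
      rw [abs_mul, abs_of_pos hMp] at h5
      linarith
    have h4 := key j hj0 hjk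
    have hj' : (0 : ℝ) < j := by exact_mod_cast hj0
    have h5 : (1 + c / j ^ 13) * |(x : ℝ)| ≤ |(x : ℝ)| + |(d : ℝ)| * j / 2 := by
      have h6 : (1 + c / j ^ 13) * |(x : ℝ)| ≤ (1 + c / j ^ 13) * (Mz d j x * (|(x : ℝ)| + |(d : ℝ)| * j / 2)) :=
        mul_le_mul_of_nonneg_left h3 (by positivity)
      rw [← mul_assoc] at h6
      refine h6.trans ?_
      apply mul_le_of_le_one_left (by positivity) h2
    have h7 : 0 ≤ c / (j : ℝ) ^ 13 * (|(d : ℝ)| * j / 2) := by positivity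
    linarith
  · intro hS j hjk
    rcases Nat.eq_zero_or_pos j with h | hj0
    · subst h; exact le_rfl
    · have hMj := (Mz_iff d j x).1 (hS j hjk)
      have h1 := S_bound hd x j fun i hi => (Mz_iff d i x).1 (hS i (by omega))
      have hMp := Mz_pos d j x
      have h2 := (hgap d j x hj0).1 hMj
      have h4 := key j hj0 hjk
      have hj' : (0 : ℝ) < j := by exact_mod_cast hj0
      have h5 : Mz d j x * |(x : ℝ)| ≤ |(((S d)^[j] x : ℤ) : ℝ)| + Mz d j x * (|(d : ℝ)| * j / 2) := by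
        have h6 : |Mz d j x * x| ≤ |(((S d)^[j] x : ℤ) : ℝ)| + |(((S d)^[j] x : ℤ) : ℝ) - Mz d j x * x| := by
          have := abs_sub (((S d)^[j] x : ℤ) : ℝ) ((((S d)^[j] x : ℤ) : ℝ) - Mz d j x * x)
          rwa [sub_sub_cancel] at this
        rw [abs_mul, abs_of_pos hMp] at h6
        linarith
      have h7 : |(d : ℝ)| * j / 2 ≤ |(x : ℝ)| := by
        have h8 : c / (j : ℝ) ^ 13 * (|(d : ℝ)| * j / 2) ≤ c / j ^ 13 * |(x : ℝ)| := by
          have : 0 ≤ |(d : ℝ)| * j / 2 := by positivity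
          linarith
        exact le_of_mul_le_mul_left h8 (by positivity)
      have h8 : (1 + c / j ^ 13) * (|(x : ℝ)| - |(d : ℝ)| * j / 2) ≤ Mz d j x * (|(x : ℝ)| - |(d : ℝ)| * j / 2) :=
        mul_le_mul_of_nonneg_right h2 (by linarith)
      have h9 : |(x : ℝ)| ≤ |(((S d)^[j] x : ℤ) : ℝ)| := by linarith
      exact_mod_cast h9

/-- the logarithm of the growth -/
theorem log_growth {d : ℤ} (hd : d % 2 = 1) {k : ℕ} {x : ℤ} (h : Survz d k x) (hx : |(d : ℝ)| * k < |(x : ℝ)|) :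
    |Real.log (|(((S d)^[k] x : ℤ) : ℝ)| / |(x : ℝ)|) - (odz d k x * Real.log 3 - k * Real.log 2)| ≤
      |(d : ℝ)| * k / |(x : ℝ)| := by
  have hd0 : 0 ≤ |(d : ℝ)| := abs_nonneg _
  have hk0 : (0 : ℝ) ≤ k := Nat.cast_nonneg k
  have hx0 : 0 < |(x : ℝ)| := lt_of_le_of_lt (by positivity) hx
  have hMp := Mz_pos d k x
  have h1 := S_bound hd x k fun i hi => (Mz_iff d i x).1 (h i (by omega))
  set t := (((S d)^[k] x : ℤ) : ℝ) with ht
  have u1 : Mz d k x * |(x : ℝ)| ≤ |t| + Mz d k x * (|(d : ℝ)| * k / 2) := by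
    have h6 : |Mz d k x * x| ≤ |t| + |t - Mz d k x * x| := by
      have := abs_sub t (t - Mz d k x * x)
      rwa [sub_sub_cancel] at this
    rw [abs_mul, abs_of_pos hMp] at h6
    linarith
  have u2 : |t| ≤ Mz d k x * |(x : ℝ)| + Mz d k x * (|(d : ℝ)| * k / 2) := by
    have := abs_add_le (t - Mz d k x * x) (Mz d k x * x)
    rw [sub_add_cancel, abs_mul, abs_of_pos hMp] at this
    linarith
  set s : ℝ := |(d : ℝ)| * k / (2 * |(x : ℝ)|) with hs
  have hs0 : 0 ≤ s := by positivity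
  have hs1 : s < 1 / 2 := by
    rw [hs, div_lt_iff₀ (by positivity)]; linarith
  set r : ℝ := |t| / (Mz d k x * |(x : ℝ)|) with hr
  have hr1 : 1 - s ≤ r := by
    rw [hr, le_div_iff₀ (by positivity)]
    have : (1 - s) * (Mz d k x * |(x : ℝ)|) = Mz d k x * |(x : ℝ)| - Mz d k x * (|(d : ℝ)| * k / 2) := by
      rw [hs]; field_simp
    rw [this]; linarith
  have hr2 : r ≤ 1 + s := by
    rw [hr, div_le_iff₀ (by positivity)]
    have : (1 + s) * (Mz d k x * |(x : ℝ)|) = Mz d k x * |(x : ℝ)| + Mz d k x * (|(d : ℝ)| * k / 2) := by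
      rw [hs]; field_simp
    rw [this]; linarith
  have hr0 : 0 < r := by linarith
  have ht0 : 0 < |t| := by
    have : |t| = r * (Mz d k x * |(x : ℝ)|) := by rw [hr]; field_simp
    rw [this]; positivity
  have e1 : Real.log (|t| / |(x : ℝ)|) - (odz d k x * Real.log 3 - k * Real.log 2) = Real.log r := by
    rw [← Mz_log, hr, Real.log_div ht0.ne' hx0.ne', Real.log_div ht0.ne' (by positivity),
      Real.log_mul hMp.ne' hx0.ne']
    ring
  rw [e1]
  have e2 : |(d : ℝ)| * k / |(x : ℝ)| = 2 * s := by rw [hs]; field_simp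
  rw [e2, abs_le]
  have h3 := Real.log_le_sub_one_of_pos hr0
  have h4 := Real.one_sub_inv_le_log_of_pos hr0
  have h5 : r⁻¹ ≤ 1 + 2 * s := by
    rw [inv_le_iff_one_le_mul₀ hr0]
    nlinarith
  constructor <;> linarith

end Pool.Agent.H622.Td
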