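import Mathlib
import Pool.Agent.H622.Td1

set_option autoImplicit false

/-! The `3x+d` maps on the integers: the conditional law of the growth factor. -/

namespace Pool.Agent.H622.Td

open Finset Filter Topology
open Pool.Agent.Helper894.Collatz (od)
open Pool.Agent.H622.St (Surv An survivors He He_pos Lw Z Lw_nonneg Z_pos Lw_summable c0 c0_pos q q_pos surv_Z
  Z_ge ds survivors_sum An_zero An_summable tv_tendsto)

open scoped Classical in
/-- the residues with `o` odd steps which survive -/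
theorem An_dz {d : ℤ} (hd : d % 2 = 1) (a : ℤ) (N k o : ℕ) :
    |(((Ico a (a + N)).filter fun x => Survz d k x ∧ odz d k x = o).card : ℝ) - (N : ℝ) / 2 ^ k * An k o| ≤
      An k o := by
  have h := count_P hd a N k (fun x => Survz d k x ∧ odz d k x = o) (fun y => Surv k y ∧ od k y = o)
    (fun x y h => by rw [surv_eq hd h, odz_eq hd h le_rfl])
  have e : ((range (2 ^ k)).filter fun n => Surv k n ∧ od k n = o).card = An k o := by
    unfold An
    congr
  rw [e] at h
  exact h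

/-- the numbers of residues do not depend on `d` -/
theorem res_card {d : ℤ} (hd : d % 2 = 1) (k : ℕ) (Q : ℤ → Prop) (P : ℕ → Prop)
    [DecidablePred Q] [DecidablePred P]
    (hPQ : ∀ (x : ℤ) (y : ℕ), x ≡ d * y [ZMOD 2 ^ k] → (Q x ↔ P y)) :
    ((Ico (0 : ℤ) (2 ^ k)).filter Q).card = ((range (2 ^ k)).filter P).card := by
  have hex := fun x => exists_res hd k x
  choose f hf1 hf2 using hex
  apply card_bij (fun x _ => f x)
  · intro x hx
    rw [mem_filter] at hx ⊢
    exact ⟨hf1 x, (hPQ x _ (hf2 x)).1 hx.2⟩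
  · intro x hx y hy hxy
    rw [mem_filter, mem_Ico] at hx hy
    have h1 : x ≡ y [ZMOD 2 ^ k] := by
      have h2 := hf2 x
      rw [hxy] at h2
      exact h2.trans (hf2 y).symm
    have h2 : x % 2 ^ k = y % 2 ^ k := h1
    rwa [Int.emod_eq_of_lt hx.1.1 hx.1.2, Int.emod_eq_of_lt hy.1.1 hy.1.2] at h2
  · intro y hy
    rw [mem_filter, mem_range] at hy
    have hp : (0 : ℤ) < 2 ^ k := by positivity
    have h1 : (d * y) % 2 ^ k ≡ d * y [ZMOD 2 ^ k] := Int.mod_modEq _ _
    refine ⟨(d * y) % 2 ^ k, ?_, ?_⟩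
    · rw [mem_filter, mem_Ico, hPQ _ _ h1]
      exact ⟨⟨Int.emod_nonneg _ hp.ne', Int.emod_lt_of_pos _ hp⟩, hy.2⟩
    · exact res_unique hd (mem_range.1 (hf1 _)) hy.1 (hf2 _) h1

open scoped Classical in
/-- the number of the residues with `o` odd steps which survive is the same for all `d` -/
theorem An_res {d : ℤ} (hd : d % 2 = 1) (k o : ℕ) :
    ((Ico (0 : ℤ) (2 ^ k)).filter fun x => Survz d k x ∧ odz d k x = o).card = An k o := by
  have h := res_card hd k (fun x => Survz d k x ∧ odz d k x = o) (fun y => Surv k y ∧ od k y = o)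
    (fun x y h => by rw [surv_eq hd h, odz_eq hd h le_rfl])
  rw [h]
  unfold An
  congr

open scoped Classical in
/-- the residues which survive up to time `k` and not up to time `k + 1` -/
theorem stops_res {d : ℤ} (hd : d % 2 = 1) (k : ℕ) :
    ((Ico (0 : ℤ) (2 ^ (k + 1))).filter fun x => Survz d k x ∧ ¬ Survz d (k + 1) x).card =
      Pool.Agent.H622.St.stops k := by
  have h := res_card hd (k + 1) (fun x => Survz d k x ∧ ¬ Survz d (k + 1) x)
    (fun y => Surv k y ∧ ¬ Surv (k + 1) y)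
    (fun x y h => by
      have h2 : x ≡ d * y [ZMOD 2 ^ k] := h.of_dvd (pow_dvd_pow 2 (Nat.le_succ k))
      rw [surv_eq hd h, surv_eq hd h2])
  rw [h]
  unfold Pool.Agent.H622.St.stops
  congr

open scoped Classical in
/-- the nonzero integers of an interval with stopping time `> k` -/
noncomputable def late (d : ℤ) (k : ℕ) (a : ℤ) (N : ℕ) : Finset ℤ :=
  (Ico a (a + N)).filter fun x => x ≠ 0 ∧ Stayz d k x

theorem card_small (I : Finset ℤ) {B : ℝ} (hB : 0 ≤ B) :
    ((I.filter fun x : ℤ => |(x : ℝ)| ≤ B).card : ℝ) ≤ 2 * B + 1 := by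
  have h1 : I.filter (fun x : ℤ => |(x : ℝ)| ≤ B) ⊆ Icc (-⌊B⌋) ⌊B⌋ := by
    intro x hx
    rw [mem_filter] at hx
    rw [mem_Icc, ← abs_le]
    apply Int.le_floor.2
    push_cast
    exact hx.2
  have h2 := card_le_card h1
  rw [Int.card_Icc] at h2
  have h3 : (0 : ℤ) ≤ ⌊B⌋ := Int.floor_nonneg.2 hB
  have h4 : (((⌊B⌋ + 1 - -⌊B⌋).toNat : ℤ)) = 2 * ⌊B⌋ + 1 := by
    rw [Int.toNat_of_nonneg (by omega)]; ring
  have h5 : ((⌊B⌋ + 1 - -⌊B⌋).toNat : ℝ) = 2 * (⌊B⌋ : ℝ) + 1 := by exact_mod_cast h4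
  have h6 : (⌊B⌋ : ℝ) ≤ B := Int.floor_le B
  have h7 : ((I.filter fun x : ℤ => |(x : ℝ)| ≤ B).card : ℝ) ≤ ((⌊B⌋ + 1 - -⌊B⌋).toNat : ℝ) := by
    exact_mod_cast h2
  linarith

open scoped Classical in
theorem sum_compare : ∃ C : ℝ, 0 < C ∧ ∀ (d : ℤ) (k : ℕ) (a : ℤ) (N : ℕ) (L δ : ℝ) (g : ℝ → ℝ),
    d % 2 = 1 → 1 ≤ k → 0 ≤ L → 0 < δ → (∀ y, |g y| ≤ 1) → (∀ y z, |g y - g z| ≤ L * |y - z|) →
    |∑ x ∈ late d k a N, g (Real.log (|(((S d)^[k] x : ℤ) : ℝ)| / |(x : ℝ)|)) -
      (N : ℝ) / 2 ^ k * ∑ o ∈ range (k + 1), An k o * g (o * Real.log 3 - k * Real.log 2)| ≤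
      δ * ((late d k a N).card : ℝ) + survivors k + 2 * (2 * ((C + L / δ + 1) * (|(d : ℝ)| * k ^ 14)) + 1) ∧
    |((late d k a N).card : ℝ) - (N : ℝ) / 2 ^ k * survivors k| ≤
      survivors k + 2 * (2 * ((C + L / δ + 1) * (|(d : ℝ)| * k ^ 14)) + 1) := by
  obtain ⟨C, hC, hex⟩ := stays_iff
  refine ⟨C, hC, fun d k a N L δ g hd hk hL hδ hg hgL => ?_⟩
  have hd0 : 0 ≤ |(d : ℝ)| := abs_nonneg _
  have hk' : (1 : ℝ) ≤ k := by exact_mod_cast hk
  have hk14 : (k : ℝ) ≤ (k : ℝ) ^ 14 := le_self_pow₀ hk' (by norm_num)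
  have hLd : 0 ≤ L / δ := by positivity
  set B : ℝ := (C + L / δ + 1) * (|(d : ℝ)| * k ^ 14) with hB
  have hB0 : 0 ≤ B := by positivity
  have hp1 : 0 ≤ |(d : ℝ)| * (k : ℝ) ^ 14 := by positivity
  have hp2 : |(d : ℝ)| * k ≤ |(d : ℝ)| * (k : ℝ) ^ 14 := mul_le_mul_of_nonneg_left hk14 hd0
  have hB1 : C * |(d : ℝ)| * k ^ 14 ≤ B := by
    rw [hB]; nlinarith [mul_nonneg hLd hp1]
  have hB2 : |(d : ℝ)| * k ≤ B := by
    rw [hB]; nlinarith [mul_nonneg hLd hp1, mul_nonneg hC.le hp1]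
  have hB3 : L / δ * (|(d : ℝ)| * k) ≤ B := by
    have := mul_le_mul_of_nonneg_left hp2 hLd
    rw [hB]; nlinarith [mul_nonneg hC.le hp1]
  set I := Ico a (a + N) with hI
  set bad : ℤ → Prop := fun x => |(x : ℝ)| ≤ B with hbad
  set f : ℤ → ℝ := fun x => g (Real.log (|(((S d)^[k] x : ℤ) : ℝ)| / |(x : ℝ)|)) with hf
  set f2 : ℤ → ℝ := fun x => g (odz d k x * Real.log 3 - k * Real.log 2) with hf2
  have hlate : late d k a N = I.filter fun x => x ≠ 0 ∧ Stayz d k x := rfl
  rw [hlate]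
  have hgood : ∀ x : ℤ, ¬ bad x → ((x ≠ 0 ∧ Stayz d k x) ↔ Survz d k x) := by
    intro x hx
    have hx' : B < |(x : ℝ)| := not_le.1 hx
    have h1 := hex d k x hd (lt_of_le_of_lt hB1 hx')
    have h2 : x ≠ 0 := by
      rintro rfl
      simp at hx'
      linarith
    rw [← h1]
    exact ⟨fun h => h.2, fun h => ⟨h2, h⟩⟩
  have hcb := card_small I hB0
  have split : ∀ (P : ℤ → Prop) [DecidablePred P] (F : ℤ → ℝ), ∑ x ∈ I.filter P, F x =
      ∑ x ∈ I.filter (fun x => ¬ bad x ∧ P x), F x + ∑ x ∈ I.filter (fun x => bad x ∧ P x), F x := by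
    intro P _ F
    rw [← sum_filter_add_sum_filter_not (I.filter P) (fun x => ¬ bad x)]
    rw [filter_filter, filter_filter]
    congr 1
    · apply sum_congr _ fun _ _ => rfl
      apply filter_congr
      intro x _
      tauto
    · apply sum_congr _ fun _ _ => rfl
      apply filter_congr
      intro x _
      tauto
  have hsmall : ∀ (P : ℤ → Prop) [DecidablePred P] (F : ℤ → ℝ), (∀ x, |F x| ≤ 1) →
      |∑ x ∈ I.filter (fun x => bad x ∧ P x), F x| ≤ 2 * B + 1 := by
    intro P _ F hF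
    refine (abs_sum_le_sum_abs _ _).trans ((sum_le_sum fun x _ => hF x).trans ?_)
    rw [sum_const, nsmul_eq_mul, mul_one]
    refine le_trans ?_ hcb
    apply Nat.cast_le.2
    apply card_le_card
    intro x hx
    rw [mem_filter] at hx ⊢
    exact ⟨hx.1, hx.2.1⟩
  have hfil : I.filter (fun x => ¬ bad x ∧ (x ≠ 0 ∧ Stayz d k x)) = I.filter fun x => ¬ bad x ∧ Survz d k x := by
    apply filter_congr
    intro x _
    constructor
    · rintro ⟨h1, h2⟩; exact ⟨h1, (hgood x h1).1 h2⟩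
    · rintro ⟨h1, h2⟩; exact ⟨h1, (hgood x h1).2 h2⟩
  constructor
  · -- the sum over the survivors
    have s3 : |∑ x ∈ I.filter (fun x => Survz d k x), f2 x -
        (N : ℝ) / 2 ^ k * ∑ o ∈ range (k + 1), An k o * g (o * Real.log 3 - k * Real.log 2)| ≤ survivors k := by
      have h1 : ∑ x ∈ I.filter (fun x => Survz d k x), f2 x = ∑ o ∈ range (k + 1),
          ((I.filter fun x => Survz d k x ∧ odz d k x = o).card : ℝ) * g (o * Real.log 3 - k * Real.log 2) := by
        rw [← sum_fiberwise_of_maps_to (s := I.filter (fun x => Survz d k x)) (t := range (k + 1))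
          (g := fun x => odz d k x)
          (fun x _ => by
            rw [mem_range]
            have : odz d k x ≤ k := by
              unfold odz
              exact (card_filter_le _ _).trans (by rw [card_range])
            omega)]
        apply sum_congr rfl
        intro o _
        rw [filter_filter]
        rw [sum_congr rfl (g := fun _ => g (o * Real.log 3 - k * Real.log 2))]
        · rw [sum_const, nsmul_eq_mul]
        · intro x hx
          rw [mem_filter] at hx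
          simp only [hf2]
          rw [hx.2.2]
      rw [h1, mul_sum, ← sum_sub_distrib]
      refine (abs_sum_le_sum_abs _ _).trans ?_
      have h2 : ∀ o ∈ range (k + 1), |((I.filter fun x => Survz d k x ∧ odz d k x = o).card : ℝ) *
          g (o * Real.log 3 - k * Real.log 2) - (N : ℝ) / 2 ^ k * (An k o * g (o * Real.log 3 - k * Real.log 2))| ≤
          An k o := by
        intro o _
        have e1 := An_dz hd a N k o
        have e3 : ((I.filter fun x => Survz d k x ∧ odz d k x = o).card : ℝ) *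
          g (o * Real.log 3 - k * Real.log 2) - (N : ℝ) / 2 ^ k * (An k o * g (o * Real.log 3 - k * Real.log 2)) =
          (((I.filter fun x => Survz d k x ∧ odz d k x = o).card : ℝ) - (N : ℝ) / 2 ^ k * An k o) *
          g (o * Real.log 3 - k * Real.log 2) := by ring
        rw [e3, abs_mul]
        calc _ ≤ |((I.filter fun x => Survz d k x ∧ odz d k x = o).card : ℝ) - (N : ℝ) / 2 ^ k * An k o| * 1 :=
              mul_le_mul_of_nonneg_left (hg _) (abs_nonneg _)
          _ ≤ _ := by rw [mul_one]; exact e1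
      refine (sum_le_sum h2).trans (le_of_eq ?_)
      rw [survivors_sum]
      push_cast
      rfl
    have t1 := split (fun x => x ≠ 0 ∧ Stayz d k x) f
    have t2 := split (fun x => Survz d k x) f2
    rw [hfil] at t1
    have t3 := hsmall (fun x => x ≠ 0 ∧ Stayz d k x) f (fun x => hg _)
    have t4 := hsmall (fun x => Survz d k x) f2 (fun x => hg _)
    have t5 : |∑ x ∈ I.filter (fun x => ¬ bad x ∧ Survz d k x), f x -
        ∑ x ∈ I.filter (fun x => ¬ bad x ∧ Survz d k x), f2 x| ≤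
        δ * ((I.filter fun x => x ≠ 0 ∧ Stayz d k x).card : ℝ) := by
      rw [← sum_sub_distrib]
      refine (abs_sum_le_sum_abs _ _).trans ?_
      have h1 : ∀ x ∈ I.filter (fun x => ¬ bad x ∧ Survz d k x), |f x - f2 x| ≤ δ := by
        intro x hx
        rw [mem_filter] at hx
        have hx' : B < |(x : ℝ)| := not_le.1 hx.2.1
        have hx0 : 0 < |(x : ℝ)| := lt_of_le_of_lt hB0 hx'
        refine (hgL _ _).trans ?_
        refine (mul_le_mul_of_nonneg_left (log_growth hd hx.2.2 (lt_of_le_of_lt hB2 hx')) hL).trans ?_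
        rw [mul_div_assoc', div_le_iff₀ hx0]
        have h3 : L / δ * (|(d : ℝ)| * k) ≤ |(x : ℝ)| := hB3.trans hx'.le
        have h4 := mul_le_mul_of_nonneg_left h3 hδ.le
        have h5 : δ * (L / δ * (|(d : ℝ)| * k)) = L * (|(d : ℝ)| * k) := by field_simp
        linarith
      refine (sum_le_sum h1).trans ?_
      rw [sum_const, nsmul_eq_mul, mul_comm]
      apply mul_le_mul_of_nonneg_left _ hδ.le
      apply Nat.cast_le.2
      apply card_le_card
      intro x hx
      rw [mem_filter] at hx ⊢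
      exact ⟨hx.1, (hgood x hx.2.1).2 hx.2.2⟩
    have e1 : ∑ x ∈ I.filter (fun x => x ≠ 0 ∧ Stayz d k x), f x - ∑ x ∈ I.filter (fun x => Survz d k x), f2 x =
        (∑ x ∈ I.filter (fun x => ¬ bad x ∧ Survz d k x), f x -
        ∑ x ∈ I.filter (fun x => ¬ bad x ∧ Survz d k x), f2 x) +
        ∑ x ∈ I.filter (fun x => bad x ∧ (x ≠ 0 ∧ Stayz d k x)), f x -
        ∑ x ∈ I.filter (fun x => bad x ∧ Survz d k x), f2 x := by
      rw [t1, t2]; ring
    have e2 := abs_sub_le (∑ x ∈ I.filter (fun x => x ≠ 0 ∧ Stayz d k x), f x)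
      (∑ x ∈ I.filter (fun x => Survz d k x), f2 x)
      ((N : ℝ) / 2 ^ k * ∑ o ∈ range (k + 1), An k o * g (o * Real.log 3 - k * Real.log 2))
    refine e2.trans ?_
    rw [e1]
    rw [abs_le] at t3 t4 t5
    have e3 : |(∑ x ∈ I.filter (fun x => ¬ bad x ∧ Survz d k x), f x -
        ∑ x ∈ I.filter (fun x => ¬ bad x ∧ Survz d k x), f2 x) +
        ∑ x ∈ I.filter (fun x => bad x ∧ (x ≠ 0 ∧ Stayz d k x)), f x -
        ∑ x ∈ I.filter (fun x => bad x ∧ Survz d k x), f2 x| ≤
        δ * ((I.filter fun x => x ≠ 0 ∧ Stayz d k x).card : ℝ) + 2 * (2 * B + 1) := by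
      rw [abs_le]; constructor <;> linarith
    linarith
  · have h1 := count_P hd a N k (fun x => Survz d k x) (fun y => Surv k y) (fun x y h => surv_eq hd h)
    have e : ((range (2 ^ k)).filter fun n => Surv k n).card = survivors k := by
      unfold survivors
      congr
    rw [e] at h1
    have t1 := split (fun x => x ≠ 0 ∧ Stayz d k x) (fun _ => 1)
    have t2 := split (fun x => Survz d k x) (fun _ => 1)
    rw [hfil] at t1
    have t3 := hsmall (fun x => x ≠ 0 ∧ Stayz d k x) (fun _ => 1) (fun x => by simp)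
    have t4 := hsmall (fun x => Survz d k x) (fun _ => 1) (fun x => by simp)
    have c1 : ∀ (P : ℤ → Prop) [DecidablePred P], ∑ x ∈ I.filter P, (1 : ℝ) = ((I.filter P).card : ℝ) := by
      intro P _; rw [sum_const, nsmul_eq_mul, mul_one]
    rw [c1] at t1 t2
    rw [abs_le] at t3 t4 h1 ⊢
    constructor <;> linarith

/-- the number of survivors grows faster than `exp ((H - η) k)` -/
theorem survivors_large' (A : ℝ) {η η' : ℝ} (hη : 0 < η) (hη' : 0 < η') :
    ∀ᶠ k : ℕ in atTop, A * (k : ℝ) ^ 14 * Real.exp ((He - η) * k) ≤ η' * survivors k := by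
  have hc0 := c0_pos
  have hq := q_pos
  have hr0 : 0 < Real.exp (-η) := Real.exp_pos _
  have hr1 : Real.exp (-η) < 1 := by rw [Real.exp_lt_one_iff]; linarith
  have t1 : Tendsto (fun k : ℕ => A * ((k : ℝ) ^ 16 * Real.exp (-η) ^ k)) atTop (𝓝 (A * 0)) :=
    (tendsto_pow_const_mul_const_pow_of_lt_one 16 hr0.le hr1).const_mul A
  rw [mul_zero] at t1
  have e1 := t1.eventually (gt_mem_nhds (show (0 : ℝ) < η' * (c0 * q / 2) by positivity))
  have h4 := (Metric.tendsto_nhds.1 surv_Z) (c0 * q / 2) (by positivity)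
  filter_upwards [e1, h4, eventually_ge_atTop 1] with k hk1 hk2 hk
  rw [Real.dist_eq, sub_zero, abs_lt] at hk2
  have h5 := mul_le_mul_of_nonneg_left (Z_ge k) hc0.le
  have h6 : c0 * q / 2 ≤ (k : ℝ) * Real.sqrt k * ds k := by linarith [hk2.1]
  have hk' : (0 : ℝ) < k := by exact_mod_cast hk
  have h2 : (k : ℝ) * Real.sqrt k ≤ k ^ 2 := by
    rw [pow_two]
    apply mul_le_mul_of_nonneg_left _ hk'.le
    have : (1 : ℝ) ≤ k := by exact_mod_cast hk
    rw [Real.sqrt_le_left hk'.le]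
    nlinarith
  have h7 : c0 * q / 2 ≤ k ^ 2 * (survivors k * Real.exp (-(k * He))) := by
    refine h6.trans ?_
    unfold ds
    exact mul_le_mul_of_nonneg_right h2 (by positivity)
  have h8 := mul_le_mul_of_nonneg_left h7 hη'.le
  have hp : 0 < (k : ℝ) ^ 2 * Real.exp (-(k * He)) := by have := Real.exp_pos (-(k * He)); positivity
  have e0 : Real.exp ((He - η) * k) * Real.exp (-(k * He)) = Real.exp (-η) ^ k := by
    rw [← Real.exp_nat_mul, ← Real.exp_add]; congr 1; ring
  have h9 : (A * (k : ℝ) ^ 14 * Real.exp ((He - η) * k)) * (k ^ 2 * Real.exp (-(k * He))) ≤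
      (η' * survivors k) * (k ^ 2 * Real.exp (-(k * He))) := by
    have e2 : (A * (k : ℝ) ^ 14 * Real.exp ((He - η) * k)) * (k ^ 2 * Real.exp (-(k * He))) =
      A * ((k : ℝ) ^ 16 * Real.exp (-η) ^ k) := by rw [← e0]; ring
    rw [e2]
    have e3 : (η' * survivors k) * (k ^ 2 * Real.exp (-(k * He))) =
      η' * (k ^ 2 * (survivors k * Real.exp (-(k * He)))) := by ring
    rw [e3]
    linarith
  exact le_of_mul_le_mul_right h9 hp

/-- THE CONDITIONAL LAW OF THE GROWTH FACTOR FOR ALL `3x+d` MAPS -/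
theorem integers_law {ε L η : ℝ} (hε : 0 < ε) (hL : 0 ≤ L) (hη : 0 < η) : ∃ K : ℕ, ∀ (d : ℤ) (k : ℕ) (a : ℤ)
    (N : ℕ) (g : ℝ → ℝ), d % 2 = 1 → K ≤ k → |(d : ℝ)| ≤ Real.exp ((He - η) * k) → K * 2 ^ k ≤ N →
    (∀ y, |g y| ≤ 1) → (∀ y z, |g y - g z| ≤ L * |y - z|) →
    0 < (late d k a N).card ∧
    |((late d k a N).card : ℝ) - (N : ℝ) / 2 ^ k * survivors k| ≤ ε * ((N : ℝ) / 2 ^ k * survivors k) ∧
    |∑ x ∈ late d k a N, g (Real.log (|(((S d)^[k] x : ℤ) : ℝ)| / |(x : ℝ)|)) -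
      ((late d k a N).card : ℝ) * ∑' o : ℕ, Lw k o / Z k * g (o * Real.log 3 - k * Real.log 2)| ≤
      ε * ((late d k a N).card : ℝ) := by
  obtain ⟨C, hC, hcomp⟩ := sum_compare
  set δ : ℝ := min ε 1 / 8 with hδ
  have hm0 : 0 < min ε 1 := lt_min hε one_pos
  have hδ0 : 0 < δ := by positivity
  have hδε : δ ≤ ε / 8 := by rw [hδ]; have := min_le_left ε 1; linarith
  have hδ1 : δ ≤ 1 / 8 := by rw [hδ]; have := min_le_right ε 1; linarith
  have e1 := survivors_large' (4 * (C + L / δ + 1)) hη (show (0 : ℝ) < δ / 2 by positivity)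
  have e0 := Pool.Agent.H622.St.survivors_large 0 2 (show (0 : ℝ) < δ / 2 by positivity)
  have e2 := (Metric.tendsto_nhds.1 tv_tendsto) δ hδ0
  obtain ⟨K1, hK1⟩ := eventually_atTop.1 ((e1.and e2).and e0)
  obtain ⟨K2, hK2⟩ := exists_nat_gt (4 / δ)
  refine ⟨max (max K1 K2) 1, ?_⟩
  intro d k a N g hd hk hdk hx hg hgL
  have hkK1 : K1 ≤ k := (le_max_left _ _).trans ((le_max_left _ _).trans hk)
  have hk1 : 1 ≤ k := (le_max_right _ _).trans hk
  have h2k : (0 : ℝ) < 2 ^ k := by positivity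
  have hKK2 : (K2 : ℝ) ≤ ((max (max K1 K2) 1 : ℕ) : ℝ) := by
    exact_mod_cast (le_max_right K1 K2).trans (le_max_left _ _)
  obtain ⟨⟨a1, a2⟩, a0⟩ := hK1 k hkK1
  rw [zero_mul, zero_add] at a0
  rw [Real.dist_eq, sub_zero] at a2
  have hX : 4 / δ ≤ (N : ℝ) / 2 ^ k := by
    rw [le_div_iff₀ h2k]
    exact (mul_le_mul_of_nonneg_right (hK2.le.trans hKK2) h2k.le).trans (by exact_mod_cast hx)
  set X : ℝ := (N : ℝ) / 2 ^ k with hXd
  obtain ⟨b1, b2⟩ := hcomp d k a N L δ g hd hk1 hL hδ0 hg hgL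
  set M : ℝ := ((late d k a N).card : ℝ) with hM
  set Sv : ℝ := (survivors k : ℝ) with hSv
  have hS0 : 0 ≤ Sv := Nat.cast_nonneg _
  have hSpos : 0 < Sv := by
    rcases hS0.lt_or_eq with h | h
    · exact h
    · exfalso; rw [← h, mul_zero] at a0; linarith
  have hLd : 0 ≤ L / δ := by positivity
  have hsm : 2 * (2 * ((C + L / δ + 1) * (|(d : ℝ)| * k ^ 14)) + 1) ≤ δ * Sv := by
    have h1 : 4 * (C + L / δ + 1) * (k : ℝ) ^ 14 * |(d : ℝ)| ≤ 4 * (C + L / δ + 1) * (k : ℝ) ^ 14 *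
      Real.exp ((He - η) * k) := mul_le_mul_of_nonneg_left hdk (by positivity)
    have e : 2 * (2 * ((C + L / δ + 1) * (|(d : ℝ)| * k ^ 14)) + 1) =
      4 * (C + L / δ + 1) * (k : ℝ) ^ 14 * |(d : ℝ)| + 2 := by ring
    rw [e]; linarith
  set E : ℝ := 2 * (2 * ((C + L / δ + 1) * (|(d : ℝ)| * k ^ 14)) + 1) with hE
  have hXS : 4 * Sv ≤ δ * (X * Sv) := by
    have h1 : 4 / δ * Sv ≤ X * Sv := mul_le_mul_of_nonneg_right hX hS0
    have h2 := mul_le_mul_of_nonneg_left h1 hδ0.le
    have h3 : δ * (4 / δ * Sv) = 4 * Sv := by field_simp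
    linarith
  have hXS0 : 0 < X * Sv := by
    have : 0 < X := lt_of_lt_of_le (by positivity) hX
    positivity
  have hδS : δ * Sv ≤ Sv := mul_le_of_le_one_left hS0 (by linarith)
  have hδXS : δ * (X * Sv) ≤ 1 / 8 * (X * Sv) := mul_le_mul_of_nonneg_right hδ1 hXS0.le
  have hcnt : |M - X * Sv| ≤ δ * (X * Sv) / 2 := by
    refine b2.trans ?_
    linarith
  have hM2 : X * Sv / 2 ≤ M := by
    have := (abs_le.1 hcnt).1
    linarith
  have hMpos : 0 < M := lt_of_lt_of_le (by positivity) hM2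
  refine ⟨by rw [hM] at hMpos; exact_mod_cast hMpos, ?_, ?_⟩
  · refine hcnt.trans ?_
    have h1 : δ * (X * Sv) ≤ ε / 8 * (X * Sv) := mul_le_mul_of_nonneg_right hδε hXS0.le
    have h2 : 0 < ε * (X * Sv) := by positivity
    linarith
  -- the two sums
  set G : ℝ := ∑ o ∈ range (k + 1), (An k o : ℝ) * g (o * Real.log 3 - k * Real.log 2) with hG
  set G2 : ℝ := ∑' o : ℕ, Lw k o / Z k * g (o * Real.log 3 - k * Real.log 2) with hG2
  have hGS : |G| ≤ Sv := by
    rw [hG, hSv, survivors_sum]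
    push_cast
    refine (abs_sum_le_sum_abs _ _).trans (sum_le_sum fun o _ => ?_)
    rw [abs_mul, abs_of_nonneg (Nat.cast_nonneg _)]
    exact mul_le_of_le_one_right (Nat.cast_nonneg _) (hg _)
  have hsLw : Summable fun o : ℕ => Lw k o / Z k * g (o * Real.log 3 - k * Real.log 2) := by
    apply Summable.of_norm_bounded ((Lw_summable k).div_const (Z k))
    intro o
    have := div_nonneg (Lw_nonneg k o) (Z_pos k).le
    rw [norm_mul, Real.norm_eq_abs, Real.norm_eq_abs, abs_of_nonneg this]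
    exact mul_le_of_le_one_right this (hg _)
  have hsA : Summable fun o : ℕ => (An k o : ℝ) / Sv * g (o * Real.log 3 - k * Real.log 2) := by
    apply Summable.of_norm_bounded ((An_summable k).div_const Sv)
    intro o
    have : 0 ≤ (An k o : ℝ) / Sv := by positivity
    rw [norm_mul, Real.norm_eq_abs, Real.norm_eq_abs, abs_of_nonneg this]
    exact mul_le_of_le_one_right this (hg _)
  have hGt : G / Sv = ∑' o : ℕ, (An k o : ℝ) / Sv * g (o * Real.log 3 - k * Real.log 2) := by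
    rw [tsum_eq_sum (s := range (k + 1)) fun o ho => by
      rw [mem_range] at ho
      rw [An_zero (by omega)]; simp]
    rw [hG, sum_div]
    apply sum_congr rfl
    intro o _
    ring
  have htv : |G / Sv - G2| ≤ δ := by
    rw [hGt, hG2, ← hsA.tsum_sub hsLw]
    have h3 : ∀ o : ℕ, (An k o : ℝ) / Sv * g (o * Real.log 3 - k * Real.log 2) -
        Lw k o / Z k * g (o * Real.log 3 - k * Real.log 2) =
        ((An k o : ℝ) / Sv - Lw k o / Z k) * g (o * Real.log 3 - k * Real.log 2) := fun o => by ring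
    simp only [h3]
    have hsab : Summable fun o : ℕ => |(An k o : ℝ) / Sv - Lw k o / Z k| := by
      have := ((An_summable k).div_const Sv).sub ((Lw_summable k).div_const (Z k))
      exact this.abs
    have hb : ∀ o : ℕ, ‖((An k o : ℝ) / Sv - Lw k o / Z k) * g (o * Real.log 3 - k * Real.log 2)‖ ≤
        |(An k o : ℝ) / Sv - Lw k o / Z k| := by
      intro o
      rw [norm_mul, Real.norm_eq_abs, Real.norm_eq_abs]
      exact mul_le_of_le_one_right (abs_nonneg _) (hg _)
    have h4 := tsum_of_norm_bounded hsab.hasSum hb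
    rw [Real.norm_eq_abs] at h4
    refine h4.trans ?_
    exact (le_abs_self _).trans a2.le
  -- conclusion
  have c1 : |X * G - M * (G / Sv)| ≤ δ * (X * Sv) / 2 := by
    have e : X * G - M * (G / Sv) = -((M - X * Sv) * (G / Sv)) := by
      field_simp
      ring
    rw [e, abs_neg, abs_mul]
    have h3 : |G / Sv| ≤ 1 := by
      rw [abs_div, abs_of_pos hSpos, div_le_one hSpos]; exact hGS
    calc |M - X * Sv| * |G / Sv| ≤ |M - X * Sv| * 1 := mul_le_mul_of_nonneg_left h3 (abs_nonneg _)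
      _ ≤ _ := by rw [mul_one]; exact hcnt
  have c2 : |M * (G / Sv) - M * G2| ≤ δ * M := by
    rw [← mul_sub, abs_mul, abs_of_pos hMpos, mul_comm]
    exact mul_le_mul_of_nonneg_right htv hMpos.le
  set Sg : ℝ := ∑ x ∈ late d k a N, g (Real.log (|(((S d)^[k] x : ℤ) : ℝ)| / |(x : ℝ)|)) with hSg
  have t1 := abs_sub_le Sg (X * G) (M * (G / Sv))
  have t2 := abs_sub_le Sg (M * (G / Sv)) (M * G2)
  have w1 : |Sg - X * G| ≤ δ * M + Sv + E := b1
  have hXM : δ * (X * Sv) ≤ 2 * (δ * M) := by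
    have := mul_le_mul_of_nonneg_left hM2 hδ0.le
    linarith
  have hfin : 8 * (δ * M) ≤ ε * M := by
    have := mul_le_mul_of_nonneg_right hδε hMpos.le
    linarith
  have hδM : 0 ≤ δ * M := by positivity
  linarith

end Pool.Agent.H622.Td
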